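import Pool.Agent.H14.CO.Defs

/-!
# CO module Kern: the kernel `kn`
-/

set_option autoImplicit false

namespace Pool.Agent.H14.CO

open Set MeasureTheory Complex

theorem shc_zero : shc 0 = 1 := by
  rw [shc, dslope_same, Complex.deriv_sinh, Complex.cosh_zero]

theorem shc_of_ne (w : ℂ) (hw : w ≠ 0) : shc w = Complex.sinh w / w := by
  rw [shc, dslope_of_ne _ hw, slope_def_field, Complex.sinh_zero, sub_zero, sub_zero]

theorem differentiable_shc : Differentiable ℂ shc := by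
  have h : DifferentiableOn ℂ (dslope Complex.sinh 0) univ :=
    (Complex.differentiableOn_dslope Filter.univ_mem).2 Complex.differentiable_sinh.differentiableOn
  exact differentiableOn_univ.1 h

theorem Kern_norm_exp_le {z : ℂ} {a : ℝ} (hz : |z.re| ≤ a) : ‖Complex.exp z‖ ≤ Real.exp a := by
  rw [Complex.norm_exp]
  exact Real.exp_le_exp.2 ((le_abs_self _).trans hz)

theorem Kern_norm_sinh_le {z : ℂ} {a : ℝ} (hz : |z.re| ≤ a) : ‖Complex.sinh z‖ ≤ Real.exp a := by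
  have h1 := Kern_norm_exp_le hz
  have h2 : ‖Complex.exp (-z)‖ ≤ Real.exp a :=
    Kern_norm_exp_le (by rw [Complex.neg_re, abs_neg]; exact hz)
  have h3 := norm_sub_le (Complex.exp z) (Complex.exp (-z))
  rw [Complex.sinh, norm_div, Complex.norm_ofNat]
  linarith

theorem Kern_norm_cosh_le {z : ℂ} {a : ℝ} (hz : |z.re| ≤ a) : ‖Complex.cosh z‖ ≤ Real.exp a := by
  have h1 := Kern_norm_exp_le hz
  have h2 : ‖Complex.exp (-z)‖ ≤ Real.exp a :=
    Kern_norm_exp_le (by rw [Complex.neg_re, abs_neg]; exact hz)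
  have h3 := norm_add_le (Complex.exp z) (Complex.exp (-z))
  rw [Complex.cosh, norm_div, Complex.norm_ofNat]
  linarith

/-- `sinh w / w = ∫_0^1 cosh (t w) dt` and `‖cosh (t w)‖ ≤ cosh (t Re w) ≤ exp |Re w|`. -/
theorem norm_shc_le (w : ℂ) : ‖shc w‖ ≤ Real.exp |w.re| := by
  rcases eq_or_ne w 0 with rfl | hw
  · rw [shc_zero, norm_one, Complex.zero_re, abs_zero, Real.exp_zero]
  · have hconv : Convex ℝ {z : ℂ | |z.re| ≤ |w.re|} := by
      have h1 : {z : ℂ | |z.re| ≤ |w.re|} = Complex.reLm ⁻¹' (Icc (-|w.re|) |w.re|) := by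
        ext z
        simp only [mem_ofPred_eq, mem_preimage, mem_Icc, Complex.reLm_coe, abs_le]
      rw [h1]
      exact (convex_Icc _ _).linear_preimage _
    have h2 := hconv.norm_image_sub_le_of_norm_deriv_le (f := Complex.sinh) (C := Real.exp |w.re|)
      (x := 0) (y := w) (fun z _ => Complex.differentiable_sinh z)
      (fun z hz => by rw [Complex.deriv_sinh]; exact Kern_norm_cosh_le hz)
      (by simp) (by simp)
    rw [Complex.sinh_zero, sub_zero, sub_zero] at h2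
    rw [shc_of_ne w hw, norm_div, div_le_iff₀ (norm_pos_iff.2 hw)]
    exact h2

theorem norm_shc_le' (w : ℂ) : ‖shc w‖ * (1 + ‖w‖) ≤ 2 * Real.exp |w.re| := by
  have h1 := norm_shc_le w
  have h2 : ‖shc w‖ * ‖w‖ ≤ Real.exp |w.re| := by
    rcases eq_or_ne w 0 with rfl | hw
    · rw [norm_zero, mul_zero]; exact (Real.exp_pos _).le
    · rw [shc_of_ne w hw, norm_div, div_mul_cancel₀ _ (norm_ne_zero_iff.2 hw)]
      exact Kern_norm_sinh_le le_rfl
  rw [mul_add, mul_one]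
  linarith

theorem shc_conj (w : ℂ) : shc ((starRingEnd ℂ) w) = (starRingEnd ℂ) (shc w) := by
  rcases eq_or_ne w 0 with rfl | hw
  · rw [map_zero, shc_zero, map_one]
  · have hw' : (starRingEnd ℂ) w ≠ 0 := fun h => hw ((map_eq_zero _).1 h)
    rw [shc_of_ne w hw, shc_of_ne _ hw', Complex.sinh_conj, map_div₀]

theorem differentiable_kn (h : ℝ) : Differentiable ℂ (kn h) := by
  unfold kn
  have h1 : Differentiable ℂ fun z : ℂ => shc (h * z) :=
    differentiable_shc.comp ((differentiable_const _).mul differentiable_id)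
  exact (h1.pow 32).mul ((differentiable_id.pow 2).cexp)

theorem kn_zero (h : ℝ) : kn h 0 = 1 := by
  rw [kn, mul_zero, shc_zero]
  simp

theorem kn_conj (h : ℝ) (z : ℂ) : kn h ((starRingEnd ℂ) z) = (starRingEnd ℂ) (kn h z) := by
  have h1 : (h : ℂ) * (starRingEnd ℂ) z = (starRingEnd ℂ) (h * z) := by
    rw [map_mul, Complex.conj_ofReal]
  rw [kn, kn, h1, shc_conj, map_mul, map_pow, ← Complex.exp_conj, map_pow]

theorem norm_kn_le (h : ℝ) (hh : 0 ≤ h) (z : ℂ) :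
    ‖kn h z‖ * (1 + h * ‖z‖) ^ 32 ≤ 2 ^ 32 * Real.exp (32 * h * |z.re| + z.re ^ 2 - z.im ^ 2) := by
  have h1 := norm_shc_le' (h * z)
  have h2 : ‖(h : ℂ) * z‖ = h * ‖z‖ := by
    rw [norm_mul, Complex.norm_real, Real.norm_of_nonneg hh]
  have h3 : ((h : ℂ) * z).re = h * z.re := by simp
  rw [h2, h3, abs_mul, abs_of_nonneg hh] at h1
  have h4 : ‖Complex.exp (z ^ 2)‖ = Real.exp (z.re ^ 2 - z.im ^ 2) := by
    rw [Complex.norm_exp]
    congr 1
    rw [pow_two, Complex.mul_re]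
    ring
  have h5 : (‖shc (h * z)‖ * (1 + h * ‖z‖)) ^ 32 ≤ (2 * Real.exp (h * |z.re|)) ^ 32 :=
    pow_le_pow_left₀ (by positivity) h1 32
  rw [kn, norm_mul, norm_pow, h4]
  calc ‖shc (h * z)‖ ^ 32 * Real.exp (z.re ^ 2 - z.im ^ 2) * (1 + h * ‖z‖) ^ 32
      = (‖shc (h * z)‖ * (1 + h * ‖z‖)) ^ 32 * Real.exp (z.re ^ 2 - z.im ^ 2) := by
        rw [mul_pow]; ring
    _ ≤ (2 * Real.exp (h * |z.re|)) ^ 32 * Real.exp (z.re ^ 2 - z.im ^ 2) :=
        mul_le_mul_of_nonneg_right h5 (Real.exp_pos _).le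
    _ = 2 ^ 32 * Real.exp (32 * h * |z.re| + z.re ^ 2 - z.im ^ 2) := by
        rw [mul_pow, ← Real.exp_nat_mul, mul_assoc, ← Real.exp_add]
        congr 2
        push_cast
        ring

theorem Kern_poly_le (k : ℕ) (y : ℝ) :
    (1 + |y|) ^ k * Real.exp (-y ^ 2) ≤ (k.factorial : ℝ) * Real.exp 2 := by
  have h1 : (0 : ℝ) ≤ 1 + |y| := by positivity
  have h2 := Real.pow_div_factorial_le_exp (1 + |y|) h1 k
  have hk : (0 : ℝ) < k.factorial := by exact_mod_cast k.factorial_pos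
  rw [div_le_iff₀ hk] at h2
  have h3 : Real.exp (1 + |y|) * Real.exp (-y ^ 2) ≤ Real.exp 2 := by
    rw [← Real.exp_add]
    apply Real.exp_le_exp.2
    have h4 : |y| ^ 2 = y ^ 2 := sq_abs y
    nlinarith [sq_nonneg (|y| - 1), abs_nonneg y]
  calc (1 + |y|) ^ k * Real.exp (-y ^ 2)
      ≤ (Real.exp (1 + |y|) * k.factorial) * Real.exp (-y ^ 2) :=
        mul_le_mul_of_nonneg_right h2 (Real.exp_pos _).le
    _ = (k.factorial : ℝ) * (Real.exp (1 + |y|) * Real.exp (-y ^ 2)) := by ring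
    _ ≤ _ := mul_le_mul_of_nonneg_left h3 hk.le

/-- the pointwise bound of the integrand -/
theorem Kern_pt (k : ℕ) (h σ y : ℝ) (hh : 0 < h) :
    (1 + h * |y|) ^ 30 * (1 + |y|) ^ k * ‖kn h (σ + y * I)‖ ≤
      2 ^ 32 * ((k.factorial : ℝ) * Real.exp 2) * Real.exp (32 * h * |σ| + σ ^ 2) *
        (1 + (h * y) ^ 2)⁻¹ := by
  have h1 := norm_kn_le h hh.le (σ + y * I)
  have hre : ((σ : ℂ) + y * I).re = σ := by simp
  have him : ((σ : ℂ) + y * I).im = y := by simp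
  rw [hre, him] at h1
  have h2 : |y| ≤ ‖(σ : ℂ) + y * I‖ := by
    have := Complex.abs_im_le_norm ((σ : ℂ) + y * I)
    rwa [him] at this
  have h3 : (1 + h * |y|) ≤ 1 + h * ‖(σ : ℂ) + y * I‖ := by
    have := mul_le_mul_of_nonneg_left h2 hh.le
    linarith
  have h0 : (0 : ℝ) ≤ 1 + h * |y| := by positivity
  have h4 : (1 + h * |y|) ^ 32 * ‖kn h (σ + y * I)‖ ≤
      2 ^ 32 * Real.exp (32 * h * |σ| + σ ^ 2 - y ^ 2) := by
    refine le_trans ?_ h1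
    rw [mul_comm]
    exact mul_le_mul_of_nonneg_left (pow_le_pow_left₀ h0 h3 32) (norm_nonneg _)
  have h5 : (1 + (h * y) ^ 2) ≤ (1 + h * |y|) ^ 2 := by
    have h6 : (h * |y|) ^ 2 = (h * y) ^ 2 := by rw [mul_pow, sq_abs, mul_pow]
    have h7 : 0 ≤ h * |y| := by positivity
    nlinarith
  have h8 : (0 : ℝ) < 1 + (h * y) ^ 2 := by positivity
  rw [← div_eq_mul_inv, le_div_iff₀ h8]
  have hP := Kern_poly_le k y
  have hexp : Real.exp (32 * h * |σ| + σ ^ 2 - y ^ 2) =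
      Real.exp (32 * h * |σ| + σ ^ 2) * Real.exp (-y ^ 2) := by
    rw [← Real.exp_add]; congr 1
  rw [hexp] at h4
  have hk0 : (0 : ℝ) ≤ (1 + |y|) ^ k := by positivity
  calc (1 + h * |y|) ^ 30 * (1 + |y|) ^ k * ‖kn h (σ + y * I)‖ * (1 + (h * y) ^ 2)
      ≤ (1 + h * |y|) ^ 30 * (1 + |y|) ^ k * ‖kn h (σ + y * I)‖ * (1 + h * |y|) ^ 2 :=
        mul_le_mul_of_nonneg_left h5 (by positivity)
    _ = (1 + |y|) ^ k * ((1 + h * |y|) ^ 32 * ‖kn h (σ + y * I)‖) := by ring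
    _ ≤ (1 + |y|) ^ k * (2 ^ 32 * (Real.exp (32 * h * |σ| + σ ^ 2) * Real.exp (-y ^ 2))) :=
        mul_le_mul_of_nonneg_left h4 hk0
    _ = 2 ^ 32 * Real.exp (32 * h * |σ| + σ ^ 2) * ((1 + |y|) ^ k * Real.exp (-y ^ 2)) := by ring
    _ ≤ 2 ^ 32 * Real.exp (32 * h * |σ| + σ ^ 2) * ((k.factorial : ℝ) * Real.exp 2) :=
        mul_le_mul_of_nonneg_left hP (by positivity)
    _ = _ := by ring

theorem Kern_int0 (h : ℝ) (hh : 0 < h) :
    Integrable (fun y : ℝ => (1 + (h * y) ^ 2)⁻¹) ∧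
      ∫ y : ℝ, (1 + (h * y) ^ 2)⁻¹ = Real.pi / h := by
  constructor
  · exact integrable_inv_one_add_sq.comp_mul_left' hh.ne'
  · have h1 := Measure.integral_comp_mul_left (fun x : ℝ => (1 + x ^ 2)⁻¹) h
    rw [integral_univ_inv_one_add_sq, abs_of_pos (inv_pos.2 hh), smul_eq_mul] at h1
    rw [h1, div_eq_mul_inv, mul_comm]

theorem Kern_main {f : ℝ → ℝ} (hf : Continuous f) {D h : ℝ} (hh : 0 < h)
    (h0 : ∀ y, 0 ≤ f y) (h1 : ∀ y, f y ≤ D * (1 + (h * y) ^ 2)⁻¹) :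
    Integrable f ∧ ∫ y, f y ≤ D * (Real.pi / h) := by
  obtain ⟨h2, h3⟩ := Kern_int0 h hh
  have h4 : Integrable f := (h2.const_mul D).mono' hf.aestronglyMeasurable
    (Filter.Eventually.of_forall fun y => by
      rw [Real.norm_of_nonneg (h0 y)]; exact h1 y)
  refine ⟨h4, ?_⟩
  calc ∫ y, f y ≤ ∫ y, D * (1 + (h * y) ^ 2)⁻¹ := integral_mono h4 (h2.const_mul D) h1
    _ = D * (Real.pi / h) := by rw [integral_const_mul, h3]

theorem Kern_cont (h σ : ℝ) : Continuous fun y : ℝ => kn h (σ + y * I) :=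
  (differentiable_kn h).continuous.comp (by fun_prop)

/-- `∫ (1+h|y|)^30 (1+|y|)^k ‖kn h z / z‖ dy ≤ C exp(32 h |σ| + σ²)(1 + 1/(h|σ|))`, `z = σ + iy`:
by `norm_kn_le` the integrand is
`≤ 2^32 exp(32 h |σ| + σ²) (1+|y|)^k exp(-y²) (1+h|y|)^{-2} / max(|σ|,|y|)`, the factor
`(1+|y|)^k exp(-y²)` is `≤ C_k`, and
`∫ (1+h|y|)^{-2}/max(|σ|,|y|) dy ≤ ∫_{|y| ≤ |σ|} 1/|σ| + ∫_{|σ|<|y|≤1/h} 1/|y| + ∫_{|y|>1/h} ...`
with care (if `1/h ≤ |σ|` use `(2/h)/|σ|`), `log (1/(h|σ|)) ≤ 1/(h|σ|)`. -/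
theorem kn_int (k : ℕ) : ∃ C : ℝ, 0 < C ∧ ∀ h σ : ℝ, 0 < h → σ ≠ 0 →
    Integrable (fun y : ℝ => (1 + h * |y|) ^ 30 * (1 + |y|) ^ k *
      ‖kn h (σ + y * I) / (σ + y * I)‖) ∧
    ∫ y : ℝ, (1 + h * |y|) ^ 30 * (1 + |y|) ^ k * ‖kn h (σ + y * I) / (σ + y * I)‖
      ≤ C * Real.exp (32 * h * |σ| + σ ^ 2) * (1 + 1 / (h * |σ|)) := by
  refine ⟨2 ^ 32 * ((k.factorial : ℝ) * Real.exp 2) * Real.pi, by positivity, fun h σ hh hσ => ?_⟩
  have hσ' : 0 < |σ| := abs_pos.2 hσ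
  have hne : ∀ y : ℝ, (σ : ℂ) + y * I ≠ 0 := fun y h1 => hσ (by
    have := congrArg Complex.re h1
    simpa using this)
  have hcont : Continuous fun y : ℝ => (1 + h * |y|) ^ 30 * (1 + |y|) ^ k *
      ‖kn h (σ + y * I) / (σ + y * I)‖ := by
    refine Continuous.mul (by fun_prop) ?_
    exact ((Kern_cont h σ).div (by fun_prop) hne).norm
  have hb : ∀ y : ℝ, (1 + h * |y|) ^ 30 * (1 + |y|) ^ k * ‖kn h (σ + y * I) / (σ + y * I)‖ ≤
      (2 ^ 32 * ((k.factorial : ℝ) * Real.exp 2) * Real.exp (32 * h * |σ| + σ ^ 2) / |σ|) *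
        (1 + (h * y) ^ 2)⁻¹ := by
    intro y
    have h1 := Kern_pt k h σ y hh
    have h2 : |σ| ≤ ‖(σ : ℂ) + y * I‖ := by
      have := Complex.abs_re_le_norm ((σ : ℂ) + y * I)
      simpa using this
    rw [norm_div, ← mul_div_assoc, div_mul_eq_mul_div]
    exact div_le_div₀ (by positivity) h1 hσ' h2
  obtain ⟨h3, h4⟩ := Kern_main hcont hh (fun y => by positivity) hb
  refine ⟨h3, h4.trans ?_⟩
  have h5 : 2 ^ 32 * ((k.factorial : ℝ) * Real.exp 2) * Real.exp (32 * h * |σ| + σ ^ 2) / |σ| *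
      (Real.pi / h) = 2 ^ 32 * ((k.factorial : ℝ) * Real.exp 2) * Real.pi *
        Real.exp (32 * h * |σ| + σ ^ 2) * (1 / (h * |σ|)) := by
    field_simp
  rw [h5]
  exact mul_le_mul_of_nonneg_left (by linarith) (by positivity)

/-- the same without `1/z`: `≤ C exp(32 h |σ| + σ²) / h`. -/
theorem kn_int' (k : ℕ) : ∃ C : ℝ, 0 < C ∧ ∀ h σ : ℝ, 0 < h →
    Integrable (fun y : ℝ => (1 + h * |y|) ^ 30 * (1 + |y|) ^ k * ‖kn h (σ + y * I)‖) ∧
    ∫ y : ℝ, (1 + h * |y|) ^ 30 * (1 + |y|) ^ k * ‖kn h (σ + y * I)‖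
      ≤ C * Real.exp (32 * h * |σ| + σ ^ 2) / h := by
  refine ⟨2 ^ 32 * ((k.factorial : ℝ) * Real.exp 2) * Real.pi, by positivity, fun h σ hh => ?_⟩
  have hcont : Continuous fun y : ℝ => (1 + h * |y|) ^ 30 * (1 + |y|) ^ k *
      ‖kn h (σ + y * I)‖ :=
    Continuous.mul (by fun_prop) (Kern_cont h σ).norm
  obtain ⟨h3, h4⟩ := Kern_main hcont hh (fun y => by positivity) fun y => Kern_pt k h σ y hh
  refine ⟨h3, h4.trans (le_of_eq ?_)⟩
  field_simp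

end Pool.Agent.H14.CO
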