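import Pool.Agent.H14.CO.Line
import Pool.Agent.H14.CO.Kern

/-!
# CO module Interp: pointwise interpolation between two vertical lines
-/

set_option autoImplicit false

namespace Pool.Agent.H14.CO

open Set MeasureTheory Complex

/-- Weighted Cauchy–Schwarz, private copy (the public statement is `cs_int` below). -/
theorem Interp_cs (k f : ℝ → ℝ) (hk : Integrable k) (hk0 : ∀ y, 0 ≤ k y)
    (hf : AEStronglyMeasurable f) (hkf : Integrable (fun y => k y * f y ^ 2)) :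
    Integrable (fun y => k y * f y) ∧
    (∫ y : ℝ, k y * f y) ^ 2 ≤ (∫ y : ℝ, k y) * ∫ y : ℝ, k y * f y ^ 2 := by
  have h1 : Integrable (fun y => k y * f y) := by
    refine (hk.add hkf).mono' (hk.aestronglyMeasurable.mul hf) ?_
    filter_upwards with y
    rw [Real.norm_eq_abs, abs_mul, abs_of_nonneg (hk0 y)]
    have h2 : |f y| ≤ 1 + f y ^ 2 := by
      have h3 : f y ^ 2 = |f y| ^ 2 := (sq_abs _).symm
      rw [h3]
      nlinarith [abs_nonneg (f y), sq_nonneg (|f y| - 1)]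
    calc k y * |f y| ≤ k y * (1 + f y ^ 2) := mul_le_mul_of_nonneg_left h2 (hk0 y)
      _ = k y + k y * f y ^ 2 := by ring
  refine ⟨h1, ?_⟩
  have h2 : ∀ t : ℝ, 0 ≤ (∫ y : ℝ, k y) * (t * t) + (-2 * ∫ y : ℝ, k y * f y) * t
      + ∫ y : ℝ, k y * f y ^ 2 := by
    intro t
    have h3 : 0 ≤ ∫ y : ℝ, k y * (t - f y) ^ 2 :=
      integral_nonneg (fun y => mul_nonneg (hk0 y) (sq_nonneg _))
    have h4 : ∫ y : ℝ, k y * (t - f y) ^ 2
        = (∫ y : ℝ, k y) * (t * t) + (-2 * ∫ y : ℝ, k y * f y) * t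
          + ∫ y : ℝ, k y * f y ^ 2 := by
      have h5 : (fun y : ℝ => k y * (t - f y) ^ 2)
          = fun y => (k y * (t * t) + (k y * f y) * (-2 * t)) + k y * f y ^ 2 := by
        funext y
        ring
      have i1 : Integrable (fun y : ℝ => k y * (t * t) + (k y * f y) * (-2 * t)) :=
        (hk.mul_const _).add (h1.mul_const _)
      rw [h5, integral_add i1 hkf,
        integral_add (hk.mul_const _) (h1.mul_const _), integral_mul_const, integral_mul_const]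
      ring
    linarith [h3, h4]
  have h3 := discrim_le_zero h2
  unfold discrim at h3
  nlinarith [h3]

/-- the factor `(1+|y|)^n exp(-y²)` is bounded -/
theorem Interp_poly_exp (n : ℕ) (y : ℝ) :
    (1 + |y|) ^ n * Real.exp (-y ^ 2) ≤ (n.factorial : ℝ) * Real.exp 2 := by
  have h1 : (1 + |y|) ^ n / (n.factorial : ℝ) ≤ Real.exp (1 + |y|) :=
    Real.pow_div_factorial_le_exp _ (by positivity) n
  have h2 : (0 : ℝ) < n.factorial := by exact_mod_cast Nat.factorial_pos n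
  have h3 : (1 + |y|) ^ n ≤ n.factorial * Real.exp (1 + |y|) := by
    rw [div_le_iff₀ h2] at h1
    linarith
  calc (1 + |y|) ^ n * Real.exp (-y ^ 2)
      ≤ (n.factorial * Real.exp (1 + |y|)) * Real.exp (-y ^ 2) :=
        mul_le_mul_of_nonneg_right h3 (Real.exp_pos _).le
    _ = n.factorial * Real.exp ((1 + |y|) + -y ^ 2) := by rw [mul_assoc, ← Real.exp_add]
    _ ≤ n.factorial * Real.exp 2 := by
        apply mul_le_mul_of_nonneg_left _ h2.le
        apply Real.exp_le_exp.mpr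
        have h4 : y ^ 2 = |y| ^ 2 := (sq_abs _).symm
        rw [h4]
        nlinarith [sq_nonneg (|y| - 1), abs_nonneg y]

theorem Interp_kn (h : ℝ) (hh : 0 < h) (z : ℂ) (L : ℝ) (hL : |z.re| ≤ L) :
    ‖kn h z‖ ≤ 2 ^ 32 * Real.exp (32 * h * L + L ^ 2) * Real.exp (-z.im ^ 2) := by
  have h1 := norm_kn_le h hh.le z
  have h2 : (1 : ℝ) ≤ (1 + h * ‖z‖) ^ 32 := by
    apply one_le_pow₀
    have := mul_nonneg hh.le (norm_nonneg z)
    linarith
  have h3 : ‖kn h z‖ ≤ ‖kn h z‖ * (1 + h * ‖z‖) ^ 32 :=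
    le_mul_of_one_le_right (norm_nonneg _) h2
  have h4 : Real.exp (32 * h * |z.re| + z.re ^ 2 - z.im ^ 2)
      ≤ Real.exp (32 * h * L + L ^ 2) * Real.exp (-z.im ^ 2) := by
    rw [← Real.exp_add]
    apply Real.exp_le_exp.mpr
    have h5 : z.re ^ 2 ≤ L ^ 2 := by
      rw [← sq_abs]
      exact pow_le_pow_left₀ (abs_nonneg _) hL 2
    have h6 : 32 * h * |z.re| ≤ 32 * h * L := mul_le_mul_of_nonneg_left hL (by positivity)
    linarith
  calc ‖kn h z‖ ≤ 2 ^ 32 * Real.exp (32 * h * |z.re| + z.re ^ 2 - z.im ^ 2) := h3.trans h1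
    _ ≤ 2 ^ 32 * (Real.exp (32 * h * L + L ^ 2) * Real.exp (-z.im ^ 2)) :=
        mul_le_mul_of_nonneg_left h4 (by positivity)
    _ = _ := by ring

/-- one line of the interpolation: with `σ ≠ 0`, `|∫ G(w+σ+iy) exp(lm(σ+iy)) kn/(σ+iy)|² ≤ ...`. -/
theorem Interp_line (G : ℂ → ℂ) (c : ℝ)
    (hG : ∀ z : ℂ, z.re = c → DifferentiableAt ℂ G z) (A : ℝ) (k : ℕ)
    (hA : ∀ z : ℂ, z.re = c → ‖G z‖ ≤ A * (1 + |z.im|) ^ k)
    (h lm : ℝ) (hh : 0 < h) (w : ℂ) (hwc : c - w.re ≠ 0) :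
    ‖∫ y : ℝ, (G (w + ((c - w.re : ℝ) + y * I)) * Complex.exp (lm * ((c - w.re : ℝ) + y * I)) *
        kn h ((c - w.re : ℝ) + y * I)) / ((c - w.re : ℝ) + y * I)‖ ^ 2 ≤
      Real.exp (2 * lm * (c - w.re)) *
        ((∫ y : ℝ, ‖kn h ((c - w.re : ℝ) + y * I) / ((c - w.re : ℝ) + y * I)‖) *
        ∫ y : ℝ, ‖kn h ((c - w.re : ℝ) + y * I) / ((c - w.re : ℝ) + y * I)‖ *
          ‖G (c + (w.im + y) * I)‖ ^ 2) := by
  set σ : ℝ := c - w.re with hσ
  have hpt : ∀ y : ℝ, w + ((σ : ℂ) + y * I) = c + (w.im + y) * I := by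
    intro y
    apply Complex.ext
    · simp [hσ]
    · simp
  have hre : ∀ y : ℝ, ((c : ℂ) + (w.im + y) * I).re = c := by
    intro y
    simp
  have him : ∀ y : ℝ, ((c : ℂ) + (w.im + y) * I).im = w.im + y := by
    intro y
    simp
  have hσne : ∀ y : ℝ, ((σ : ℂ) + y * I) ≠ 0 := by
    intro y h0
    apply hwc
    have := congrArg Complex.re h0
    simpa using this
  have hA0 : 0 ≤ A := by
    have h1 := hA (c : ℂ) (by simp)
    have h2 : (0 : ℝ) ≤ A * (1 + |(c : ℂ).im|) ^ k := (norm_nonneg _).trans h1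
    simpa using h2
  -- continuity
  have hcG : Continuous (fun y : ℝ => G (c + (w.im + y) * I)) := by
    rw [continuous_iff_continuousAt]
    intro y
    have h1 : ContinuousAt G (c + (w.im + y) * I) := (hG _ (hre y)).continuousAt
    have h2 : ContinuousAt (fun y : ℝ => ((c : ℂ) + (w.im + y) * I)) y := by fun_prop
    exact ContinuousAt.comp (f := fun y : ℝ => ((c : ℂ) + (w.im + y) * I)) h1 h2
  have hck : Continuous (fun y : ℝ => kn h ((σ : ℂ) + y * I) / ((σ : ℂ) + y * I)) := by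
    apply Continuous.div
    · exact (differentiable_kn h).continuous.comp (by fun_prop)
    · fun_prop
    · exact hσne
  set K : ℝ → ℝ := fun y => ‖kn h ((σ : ℂ) + y * I) / ((σ : ℂ) + y * I)‖ with hK
  set f : ℝ → ℝ := fun y => ‖G (c + (w.im + y) * I)‖ with hf
  have hK0 : ∀ y, 0 ≤ K y := fun y => norm_nonneg _
  have hKc : Continuous K := hck.norm
  have hfc : Continuous f := hcG.norm
  obtain ⟨C, hC, hCi⟩ := kn_int (2 * k)
  obtain ⟨hint, -⟩ := hCi h σ hh hwc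
  have hone : ∀ y : ℝ, (1 : ℝ) ≤ (1 + h * |y|) ^ 30 := by
    intro y
    apply one_le_pow₀
    have := mul_nonneg hh.le (abs_nonneg y)
    linarith
  have hone2 : ∀ y : ℝ, (1 : ℝ) ≤ (1 + |y|) ^ (2 * k) := by
    intro y
    apply one_le_pow₀
    have := abs_nonneg y
    linarith
  have hKint : Integrable K := by
    refine hint.mono' hKc.aestronglyMeasurable ?_
    filter_upwards with y
    rw [Real.norm_eq_abs, abs_of_nonneg (hK0 y)]
    have h1 : (1 : ℝ) ≤ (1 + h * |y|) ^ 30 * (1 + |y|) ^ (2 * k) := by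
      have := mul_le_mul (hone y) (hone2 y) zero_le_one (zero_le_one.trans (hone y))
      linarith
    exact le_mul_of_one_le_left (hK0 y) h1
  have hfb : ∀ y : ℝ, f y ^ 2 ≤ (A * (1 + |w.im|) ^ k) ^ 2 * (1 + |y|) ^ (2 * k) := by
    intro y
    have h1 : f y ≤ A * (1 + |w.im + y|) ^ k := by
      have := hA (c + (w.im + y) * I) (hre y)
      rwa [him y] at this
    have h2 : 1 + |w.im + y| ≤ (1 + |w.im|) * (1 + |y|) := by
      have h3 := abs_add_le w.im y
      nlinarith [abs_nonneg w.im, abs_nonneg y, mul_nonneg (abs_nonneg w.im) (abs_nonneg y)]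
    have h3 : f y ≤ (A * (1 + |w.im|) ^ k) * (1 + |y|) ^ k := by
      calc f y ≤ A * (1 + |w.im + y|) ^ k := h1
        _ ≤ A * ((1 + |w.im|) * (1 + |y|)) ^ k := by
            apply mul_le_mul_of_nonneg_left _ hA0
            exact pow_le_pow_left₀ (by positivity) h2 k
        _ = _ := by rw [mul_pow]; ring
    calc f y ^ 2 ≤ ((A * (1 + |w.im|) ^ k) * (1 + |y|) ^ k) ^ 2 :=
          pow_le_pow_left₀ (norm_nonneg _) h3 2
      _ = _ := by rw [mul_pow, ← pow_mul, mul_comm k 2]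
  have hKf : Integrable (fun y => K y * f y ^ 2) := by
    refine (hint.const_mul ((A * (1 + |w.im|) ^ k) ^ 2)).mono'
      (hKc.mul (hfc.pow 2)).aestronglyMeasurable ?_
    filter_upwards with y
    rw [Real.norm_eq_abs, abs_of_nonneg (mul_nonneg (hK0 y) (sq_nonneg _))]
    calc K y * f y ^ 2
        ≤ K y * ((A * (1 + |w.im|) ^ k) ^ 2 * (1 + |y|) ^ (2 * k)) :=
          mul_le_mul_of_nonneg_left (hfb y) (hK0 y)
      _ = (A * (1 + |w.im|) ^ k) ^ 2 * (1 * (1 + |y|) ^ (2 * k) * K y) := by ring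
      _ ≤ (A * (1 + |w.im|) ^ k) ^ 2 * ((1 + h * |y|) ^ 30 * (1 + |y|) ^ (2 * k) * K y) := by
          apply mul_le_mul_of_nonneg_left _ (sq_nonneg _)
          apply mul_le_mul_of_nonneg_right _ (hK0 y)
          exact mul_le_mul_of_nonneg_right (hone y) (by positivity)
  obtain ⟨-, hcs⟩ := Interp_cs K f hKint hK0 hfc.aestronglyMeasurable hKf
  have hnorm : ∀ y : ℝ, ‖(G (w + ((σ : ℂ) + y * I)) * Complex.exp (lm * ((σ : ℂ) + y * I)) *
        kn h ((σ : ℂ) + y * I)) / ((σ : ℂ) + y * I)‖ = Real.exp (lm * σ) * (K y * f y) := by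
    intro y
    rw [hpt y]
    have h1 : ‖Complex.exp (lm * ((σ : ℂ) + y * I))‖ = Real.exp (lm * σ) := by
      rw [Complex.norm_exp]
      congr 1
      simp
    rw [mul_div_assoc, norm_mul, norm_mul, h1]
    simp only [hK, hf]
    ring
  have hle : ‖∫ y : ℝ, (G (w + ((σ : ℂ) + y * I)) * Complex.exp (lm * ((σ : ℂ) + y * I)) *
        kn h ((σ : ℂ) + y * I)) / ((σ : ℂ) + y * I)‖ ≤ Real.exp (lm * σ) * ∫ y : ℝ, K y * f y := by
    refine (norm_integral_le_integral_norm _).trans ?_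
    rw [← integral_const_mul]
    apply le_of_eq
    exact integral_congr_ae (Filter.Eventually.of_forall hnorm)
  calc ‖∫ y : ℝ, (G (w + ((σ : ℂ) + y * I)) * Complex.exp (lm * ((σ : ℂ) + y * I)) *
        kn h ((σ : ℂ) + y * I)) / ((σ : ℂ) + y * I)‖ ^ 2
      ≤ (Real.exp (lm * σ) * ∫ y : ℝ, K y * f y) ^ 2 :=
        pow_le_pow_left₀ (norm_nonneg _) hle 2
    _ = Real.exp (2 * lm * σ) * (∫ y : ℝ, K y * f y) ^ 2 := by
        rw [mul_pow, ← Real.exp_nat_mul]
        congr 2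
        push_cast
        ring
    _ ≤ Real.exp (2 * lm * σ) * ((∫ y : ℝ, K y) * ∫ y : ℝ, K y * f y ^ 2) :=
        mul_le_mul_of_nonneg_left hcs (Real.exp_pos _).le

/-- For `G` holomorphic of polynomial growth on `a ≤ Re z ≤ b` and `a < Re w < b`, `h > 0`, `lm` real.

PROOF. `line_residue` for `z ↦ G (w + z) * exp (lm * z) * kn h z` on the strip
`a - Re w ≤ Re z ≤ b - Re w` (`kn h 0 = 1`, decay from `norm_kn_le`: the factor `exp(-y²)` beats
everything) gives `2π G w = ∫_{(b - Re w)} - ∫_{(a - Re w)}` of `G(w+z) exp(lm z) kn h z / z`;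
then `‖∫ f k‖² ≤ (∫ ‖k‖) (∫ ‖k‖ ‖f‖²)`, `(x+y)² ≤ 2x²+2y²` and `2/(4π²) ≤ 1`. -/
theorem interp (G : ℂ → ℂ) (a b : ℝ)
    (hG : ∀ z : ℂ, a ≤ z.re → z.re ≤ b → DifferentiableAt ℂ G z) (A : ℝ) (k : ℕ)
    (hA : ∀ z : ℂ, a ≤ z.re → z.re ≤ b → ‖G z‖ ≤ A * (1 + |z.im|) ^ k)
    (h lm : ℝ) (hh : 0 < h) (w : ℂ) (hwa : a < w.re) (hwb : w.re < b) :
    ‖G w‖ ^ 2 ≤
      Real.exp (-2 * lm * (w.re - a)) *
        ((∫ y : ℝ, ‖kn h ((a - w.re : ℝ) + y * I) / ((a - w.re : ℝ) + y * I)‖) *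
        ∫ y : ℝ, ‖kn h ((a - w.re : ℝ) + y * I) / ((a - w.re : ℝ) + y * I)‖ *
          ‖G (a + (w.im + y) * I)‖ ^ 2) +
      Real.exp (2 * lm * (b - w.re)) *
        ((∫ y : ℝ, ‖kn h ((b - w.re : ℝ) + y * I) / ((b - w.re : ℝ) + y * I)‖) *
        ∫ y : ℝ, ‖kn h ((b - w.re : ℝ) + y * I) / ((b - w.re : ℝ) + y * I)‖ *
          ‖G (b + (w.im + y) * I)‖ ^ 2) := by
  have hab : a < b := hwa.trans hwb
  have hA0 : 0 ≤ A := by
    have h1 := hA (a : ℂ) (by simp) (by simpa using hab.le)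
    have h2 : (0 : ℝ) ≤ A * (1 + |(a : ℂ).im|) ^ k := (norm_nonneg _).trans h1
    simpa using h2
  set F : ℂ → ℂ := fun z => G (w + z) * Complex.exp (lm * z) * kn h z with hF
  have hFd : ∀ z : ℂ, a - w.re ≤ z.re → z.re ≤ b - w.re → DifferentiableAt ℂ F z := by
    intro z h1 h2
    have h3 : DifferentiableAt ℂ G (w + z) := by
      apply hG
      · rw [Complex.add_re]; linarith
      · rw [Complex.add_re]; linarith
    have h4 : DifferentiableAt ℂ (fun z : ℂ => w + z) z := by fun_prop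
    have h5 : DifferentiableAt ℂ (fun z : ℂ => G (w + z)) z :=
      DifferentiableAt.comp z (g := G) (f := fun z : ℂ => w + z) h3 h4
    have h6 : DifferentiableAt ℂ (fun z : ℂ => Complex.exp (lm * z)) z := by fun_prop
    exact (h5.mul h6).mul (differentiable_kn h z)
  set L : ℝ := b - a with hL
  have hL0 : 0 < L := by rw [hL]; linarith
  have hFb : ∀ z : ℂ, a - w.re ≤ z.re → z.re ≤ b - w.re →
      ‖F z‖ ≤ (A * (1 + |w.im|) ^ k * Real.exp (|lm| * L) *
        (2 ^ 32 * Real.exp (32 * h * L + L ^ 2)) * (((k + 2).factorial : ℝ) * Real.exp 2))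
          / (1 + z.im ^ 2) := by
    intro z h1 h2
    have hzL : |z.re| ≤ L := by
      rw [abs_le]
      constructor
      · rw [hL]; linarith
      · rw [hL]; linarith
    have hGz : ‖G (w + z)‖ ≤ A * (1 + |w.im|) ^ k * (1 + |z.im|) ^ k := by
      have h3 := hA (w + z) (by rw [Complex.add_re]; linarith) (by rw [Complex.add_re]; linarith)
      have h4 : 1 + |(w + z).im| ≤ (1 + |w.im|) * (1 + |z.im|) := by
        rw [Complex.add_im]
        have h5 := abs_add_le w.im z.im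
        nlinarith [abs_nonneg w.im, abs_nonneg z.im, mul_nonneg (abs_nonneg w.im) (abs_nonneg z.im)]
      calc ‖G (w + z)‖ ≤ A * (1 + |(w + z).im|) ^ k := h3
        _ ≤ A * ((1 + |w.im|) * (1 + |z.im|)) ^ k := by
            apply mul_le_mul_of_nonneg_left _ hA0
            exact pow_le_pow_left₀ (by positivity) h4 k
        _ = _ := by rw [mul_pow]; ring
    have hE : ‖Complex.exp (lm * z)‖ ≤ Real.exp (|lm| * L) := by
      rw [Complex.norm_exp]
      apply Real.exp_le_exp.mpr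
      have h3 : ((lm : ℂ) * z).re = lm * z.re := by simp
      rw [h3]
      calc lm * z.re ≤ |lm * z.re| := le_abs_self _
        _ = |lm| * |z.re| := abs_mul _ _
        _ ≤ |lm| * L := mul_le_mul_of_nonneg_left hzL (abs_nonneg _)
    have hkz := Interp_kn h hh z L hzL
    have hy : (1 + |z.im|) ^ k * Real.exp (-z.im ^ 2) * (1 + z.im ^ 2)
        ≤ ((k + 2).factorial : ℝ) * Real.exp 2 := by
      have h3 : 1 + z.im ^ 2 ≤ (1 + |z.im|) ^ 2 := by
        have h4 : z.im ^ 2 = |z.im| ^ 2 := (sq_abs _).symm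
        rw [h4]
        nlinarith [abs_nonneg z.im]
      calc (1 + |z.im|) ^ k * Real.exp (-z.im ^ 2) * (1 + z.im ^ 2)
          ≤ (1 + |z.im|) ^ k * Real.exp (-z.im ^ 2) * (1 + |z.im|) ^ 2 :=
            mul_le_mul_of_nonneg_left h3 (by positivity)
        _ = (1 + |z.im|) ^ (k + 2) * Real.exp (-z.im ^ 2) := by ring
        _ ≤ _ := Interp_poly_exp (k + 2) z.im
    rw [le_div_iff₀ (by positivity)]
    have h3 : ‖F z‖ ≤ (A * (1 + |w.im|) ^ k * (1 + |z.im|) ^ k) * Real.exp (|lm| * L) *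
        (2 ^ 32 * Real.exp (32 * h * L + L ^ 2) * Real.exp (-z.im ^ 2)) := by
      rw [hF]
      simp only
      rw [norm_mul, norm_mul]
      apply mul_le_mul _ hkz (norm_nonneg _) (by positivity)
      exact mul_le_mul hGz hE (norm_nonneg _) (by positivity)
    calc ‖F z‖ * (1 + z.im ^ 2)
        ≤ ((A * (1 + |w.im|) ^ k * (1 + |z.im|) ^ k) * Real.exp (|lm| * L) *
        (2 ^ 32 * Real.exp (32 * h * L + L ^ 2) * Real.exp (-z.im ^ 2))) * (1 + z.im ^ 2) :=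
          mul_le_mul_of_nonneg_right h3 (by positivity)
      _ = (A * (1 + |w.im|) ^ k * Real.exp (|lm| * L) *
        (2 ^ 32 * Real.exp (32 * h * L + L ^ 2))) *
          ((1 + |z.im|) ^ k * Real.exp (-z.im ^ 2) * (1 + z.im ^ 2)) := by ring
      _ ≤ (A * (1 + |w.im|) ^ k * Real.exp (|lm| * L) *
        (2 ^ 32 * Real.exp (32 * h * L + L ^ 2))) * (((k + 2).factorial : ℝ) * Real.exp 2) :=
          mul_le_mul_of_nonneg_left hy (by positivity)
      _ = _ := by ring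
  have hres := line_residue F (a - w.re) (b - w.re) (by linarith) (by linarith) hFd _ hFb
  have hF0 : F 0 = G w := by
    rw [hF]
    simp [kn_zero]
  rw [hF0] at hres
  have hbne : b - w.re ≠ 0 := (sub_pos.mpr hwb).ne'
  have hane : a - w.re ≠ 0 := (sub_neg.mpr hwa).ne
  have hlb := Interp_line G b (fun z hz => hG z (by rw [hz]; exact hab.le) hz.le) A k
    (fun z hz => hA z (by rw [hz]; exact hab.le) hz.le) h lm hh w hbne
  have hla := Interp_line G a (fun z hz => hG z hz.ge (by rw [hz]; exact hab.le)) A k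
    (fun z hz => hA z hz.ge (by rw [hz]; exact hab.le)) h lm hh w hane
  set Ib : ℂ := ∫ y : ℝ, F (((b - w.re : ℝ) : ℂ) + y * I) / (((b - w.re : ℝ) : ℂ) + y * I) with hIb
  set Ia : ℂ := ∫ y : ℝ, F (((a - w.re : ℝ) : ℂ) + y * I) / (((a - w.re : ℝ) : ℂ) + y * I) with hIa
  have hlb' : ‖Ib‖ ^ 2 ≤ Real.exp (2 * lm * (b - w.re)) *
        ((∫ y : ℝ, ‖kn h ((b - w.re : ℝ) + y * I) / ((b - w.re : ℝ) + y * I)‖) *
        ∫ y : ℝ, ‖kn h ((b - w.re : ℝ) + y * I) / ((b - w.re : ℝ) + y * I)‖ *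
          ‖G (b + (w.im + y) * I)‖ ^ 2) := hlb
  have hla' : ‖Ia‖ ^ 2 ≤ Real.exp (-2 * lm * (w.re - a)) *
        ((∫ y : ℝ, ‖kn h ((a - w.re : ℝ) + y * I) / ((a - w.re : ℝ) + y * I)‖) *
        ∫ y : ℝ, ‖kn h ((a - w.re : ℝ) + y * I) / ((a - w.re : ℝ) + y * I)‖ *
          ‖G (a + (w.im + y) * I)‖ ^ 2) := by
    have h1 : -2 * lm * (w.re - a) = 2 * lm * (a - w.re) := by ring
    rw [h1]
    exact hla
  have hn : 2 * Real.pi * ‖G w‖ = ‖Ib - Ia‖ := by
    rw [hres, norm_mul]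
    congr 1
    rw [norm_mul]
    simp [abs_of_pos Real.pi_pos]
  have hn2 : 2 * Real.pi * ‖G w‖ ≤ ‖Ib‖ + ‖Ia‖ := hn.le.trans (norm_sub_le _ _)
  have hpi := Real.pi_gt_three
  have hfin : ‖G w‖ ^ 2 ≤ ‖Ia‖ ^ 2 + ‖Ib‖ ^ 2 := by
    have h1 : 2 * ‖G w‖ ≤ 2 * Real.pi * ‖G w‖ := by
      apply mul_le_mul_of_nonneg_right _ (norm_nonneg _)
      linarith
    have h2 : 2 * ‖G w‖ ≤ ‖Ib‖ + ‖Ia‖ := h1.trans hn2
    nlinarith [norm_nonneg (G w), norm_nonneg Ia, norm_nonneg Ib, sq_nonneg (‖Ia‖ - ‖Ib‖),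
      mul_self_le_mul_self (by positivity : (0:ℝ) ≤ 2 * ‖G w‖) h2]
  linarith [hfin, hla', hlb']

/-- Weighted Cauchy–Schwarz used throughout. -/
theorem cs_int (k f : ℝ → ℝ) (hk : Integrable k) (hk0 : ∀ y, 0 ≤ k y) (hf0 : ∀ y, 0 ≤ f y)
    (hf : AEStronglyMeasurable f) (hkf : Integrable (fun y => k y * f y ^ 2)) :
    (∫ y : ℝ, k y * f y) ^ 2 ≤ (∫ y : ℝ, k y) * ∫ y : ℝ, k y * f y ^ 2 :=
  (Interp_cs k f hk hk0 hf hkf).2

end Pool.Agent.H14.CO
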