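import Pool.Agent.H14.CO.MeanS
import Pool.Agent.H14.CO.Interp

/-!
# CO module AB: mean square of `ζ` times a short Dirichlet polynomial
-/

set_option autoImplicit false

namespace Pool.Agent.H14.CO

open Set MeasureTheory Complex

theorem AB_Sc_cont (h r : ℝ) (hh : 0 < h) (σ : ℝ) :
    Continuous (fun t : ℝ => Sc h r (σ + t * I)) := by
  unfold Sc
  refine continuous_tsum (u := fun l : ℕ =>
    ‖((l + 1 : ℕ) : ℂ) ^ (-(σ : ℂ)) * vc h (r - Real.log (l + 1 : ℕ))‖) ?_ (summable_vc h r hh σ) ?_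
  · intro l
    refine Continuous.mul ?_ continuous_const
    refine Continuous.const_cpow (by fun_prop) (Or.inl ?_)
    exact_mod_cast Nat.succ_ne_zero l
  · intro l t
    rw [norm_mul, norm_mul, Complex.norm_natCast_cpow_of_pos (Nat.succ_pos l),
      Complex.norm_natCast_cpow_of_pos (Nat.succ_pos l)]
    simp

theorem AB_Sc_bdd (h r : ℝ) (hh : 0 < h) (σ : ℝ) :
    ∃ B : ℝ, 0 ≤ B ∧ ∀ t : ℝ, ‖Sc h r (σ + t * I)‖ ≤ B := by
  refine ⟨∑' l : ℕ, ‖((l + 1 : ℕ) : ℂ) ^ (-(σ : ℂ)) * vc h (r - Real.log (l + 1 : ℕ))‖,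
    tsum_nonneg (fun _ => norm_nonneg _), fun t => ?_⟩
  have hn : ∀ l : ℕ, ‖((l + 1 : ℕ) : ℂ) ^ (-(σ + t * I : ℂ)) * vc h (r - Real.log (l + 1 : ℕ))‖
      = ‖((l + 1 : ℕ) : ℂ) ^ (-(σ : ℂ)) * vc h (r - Real.log (l + 1 : ℕ))‖ := by
    intro l
    rw [norm_mul, norm_mul, Complex.norm_natCast_cpow_of_pos (Nat.succ_pos l),
      Complex.norm_natCast_cpow_of_pos (Nat.succ_pos l)]
    simp
  unfold Sc
  calc ‖∑' l : ℕ, ((l + 1 : ℕ) : ℂ) ^ (-(σ + t * I : ℂ)) * vc h (r - Real.log (l + 1 : ℕ))‖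
      ≤ ∑' l : ℕ, ‖((l + 1 : ℕ) : ℂ) ^ (-(σ + t * I : ℂ)) * vc h (r - Real.log (l + 1 : ℕ))‖ :=
        norm_tsum_le_tsum_norm (summable_vc h r hh _)
    _ = _ := tsum_congr hn

theorem AB_DP_cont (T : ℝ) (a : ℕ → ℂ) : Continuous (fun t : ℝ => DP T a t) := by
  unfold DP
  refine continuous_finsetSum _ (fun D hD => ?_)
  refine Continuous.mul continuous_const ?_
  refine Continuous.const_cpow (by fun_prop) (Or.inl ?_)
  have := (Finset.mem_Icc.mp hD).1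
  exact_mod_cast (by omega : D ≠ 0)

theorem AB_DP_le (T : ℝ) (hT : 1 ≤ T) (a : ℕ → ℂ) (ha : ∀ D, ‖a D‖ ≤ T) (t : ℝ) :
    ‖DP T a t‖ ≤ T ^ 2 := by
  unfold DP
  have h1 : ∀ D ∈ Finset.Icc 1 ⌊T ^ (1 / 10 : ℝ)⌋₊,
      ‖a D * (D : ℂ) ^ (-(1 / 2 + t * I : ℂ))‖ ≤ T := by
    intro D hD
    have hD1 := (Finset.mem_Icc.mp hD).1
    rw [norm_mul, Complex.norm_natCast_cpow_of_pos (by omega)]
    have h2 : (D : ℝ) ^ (-(1 / 2 + t * I : ℂ)).re ≤ 1 := by
      refine Real.rpow_le_one_of_one_le_of_nonpos (by exact_mod_cast hD1) ?_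
      simp
    calc ‖a D‖ * (D : ℝ) ^ (-(1 / 2 + t * I : ℂ)).re ≤ T * 1 := by
          refine mul_le_mul (ha D) h2 (by positivity) (by linarith only [hT])
      _ = T := mul_one T
  have hfl : ((⌊T ^ (1 / 10 : ℝ)⌋₊ : ℕ) : ℝ) ≤ T := by
    refine (Nat.floor_le (by positivity)).trans ?_
    calc T ^ (1 / 10 : ℝ) ≤ T ^ (1 : ℝ) := Real.rpow_le_rpow_of_exponent_le hT (by norm_num)
      _ = T := Real.rpow_one T
  calc ‖∑ D ∈ Finset.Icc 1 ⌊T ^ (1 / 10 : ℝ)⌋₊, a D * (D : ℂ) ^ (-(1 / 2 + t * I : ℂ))‖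
      ≤ ∑ D ∈ Finset.Icc 1 ⌊T ^ (1 / 10 : ℝ)⌋₊, T := norm_sum_le_of_le _ h1
    _ = (⌊T ^ (1 / 10 : ℝ)⌋₊ : ℝ) * T := by simp
    _ ≤ T * T := by
        refine mul_le_mul_of_nonneg_right hfl (by linarith only [hT])
    _ = T ^ 2 := by ring

theorem AB_gw_cont (τ W : ℝ) : Continuous (fun t : ℝ => gw τ W t) := by
  unfold gw; fun_prop

theorem AB_gw_pos (τ W t : ℝ) : 0 < gw τ W t := by
  unfold gw; positivity

/-- moments of the Gaussian -/
theorem AB_moment : ∃ M : ℝ, 0 < M ∧ ∀ τ W : ℝ, 0 < W →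
    Integrable (fun t : ℝ => (1 + |t - τ| / W) ^ 202 * gw τ W t) ∧
    ∫ t : ℝ, (1 + |t - τ| / W) ^ 202 * gw τ W t ≤ M * W := by
  have hf : Integrable (fun u : ℝ => (1 + |u|) ^ 202 * Real.exp (-(u ^ 2))) := by
    have h0 : Integrable (fun u : ℝ =>
        ((Nat.factorial 202 : ℝ) * Real.exp (3 / 2)) * Real.exp (-(1 / 2 : ℝ) * u ^ 2)) :=
      (integrable_exp_neg_mul_sq (by norm_num)).const_mul _
    refine h0.mono' (by fun_prop) (Filter.Eventually.of_forall fun u => ?_)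
    have h1 := Real.pow_div_factorial_le_exp (1 + |u|) (by positivity) 202
    have h2 : (0 : ℝ) < (Nat.factorial 202 : ℝ) := by exact_mod_cast Nat.factorial_pos 202
    rw [div_le_iff₀ h2] at h1
    rw [Real.norm_of_nonneg (by positivity)]
    calc (1 + |u|) ^ 202 * Real.exp (-(u ^ 2))
        ≤ (Real.exp (1 + |u|) * (Nat.factorial 202 : ℝ)) * Real.exp (-(u ^ 2)) := by
          exact mul_le_mul_of_nonneg_right h1 (Real.exp_pos _).le
      _ = (Nat.factorial 202 : ℝ) * (Real.exp (1 + |u|) * Real.exp (-(u ^ 2))) := by ring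
      _ = (Nat.factorial 202 : ℝ) * Real.exp ((1 + |u|) + (-(u ^ 2))) := by
          rw [Real.exp_add (1 + |u|)]
      _ ≤ (Nat.factorial 202 : ℝ) * Real.exp (3 / 2 + (-(1 / 2 : ℝ) * u ^ 2)) := by
          refine mul_le_mul_of_nonneg_left (Real.exp_le_exp.mpr ?_) h2.le
          nlinarith only [sq_nonneg (|u| - 1), sq_abs u]
      _ = ((Nat.factorial 202 : ℝ) * Real.exp (3 / 2)) * Real.exp (-(1 / 2 : ℝ) * u ^ 2) := by
          rw [Real.exp_add]; ring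
  refine ⟨(∫ u : ℝ, (1 + |u|) ^ 202 * Real.exp (-(u ^ 2))) + 1, ?_, ?_⟩
  · have : 0 ≤ ∫ u : ℝ, (1 + |u|) ^ 202 * Real.exp (-(u ^ 2)) :=
      integral_nonneg (fun u => by positivity)
    linarith
  · intro τ W hW
    have hc : (fun t : ℝ => (1 + |t - τ| / W) ^ 202 * gw τ W t)
        = fun t : ℝ => (fun v : ℝ => (fun u : ℝ => (1 + |u|) ^ 202 * Real.exp (-(u ^ 2))) (v / W))
          (t - τ) := by
      funext t
      simp only [gw, abs_div, abs_of_pos hW]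
    constructor
    · rw [hc]
      exact (hf.comp_div hW.ne').comp_sub_right τ
    · rw [hc, integral_sub_right_eq_self
        (fun v : ℝ => (fun u : ℝ => (1 + |u|) ^ 202 * Real.exp (-(u ^ 2))) (v / W)) τ]
      have h9 := Measure.integral_comp_div
        (fun u : ℝ => (1 + |u|) ^ 202 * Real.exp (-(u ^ 2))) W
      rw [abs_of_pos hW, smul_eq_mul] at h9
      refine h9.le.trans ?_
      nlinarith

/-- the kernel on the line `Re z = -x` -/
noncomputable def AB_k (h x y : ℝ) : ℝ :=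
  (1 + 4 * ‖(-x + y * I : ℂ)‖) * ‖kn h (-x + y * I) / (-x + y * I)‖

theorem AB_k_nonneg (h x y : ℝ) : 0 ≤ AB_k h x y := by
  unfold AB_k; positivity

theorem AB_k_cont (h x : ℝ) (hx : 0 < x) : Continuous (fun y : ℝ => AB_k h x y) := by
  unfold AB_k
  have hne : ∀ y : ℝ, (-x + y * I : ℂ) ≠ 0 := by
    intro y h0
    have := congrArg Complex.re h0
    simp at this
    linarith
  have hk : Continuous (fun y : ℝ => kn h (-x + y * I)) :=
    (differentiable_kn h).continuous.comp (by fun_prop)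
  refine Continuous.mul (by fun_prop) ?_
  exact (hk.div (by fun_prop) hne).norm

theorem AB_kernel : ∃ C : ℝ, 0 < C ∧ ∀ L K : ℝ, 3200 ≤ L → 1 ≤ K → K / L ≤ 1 / 4 →
    Integrable (fun y : ℝ => AB_k (L / 3200) (K / L) y) ∧
    Integrable (fun y : ℝ => AB_k (L / 3200) (K / L) y * (1 + L * |y|) ^ 8) ∧
    ∫ y : ℝ, AB_k (L / 3200) (K / L) y ≤ C * Real.exp (K / 100) ∧
    ∫ y : ℝ, AB_k (L / 3200) (K / L) y * (1 + L * |y|) ^ 8 ≤ C * Real.exp (K / 100) := by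
  obtain ⟨C, hC, hk⟩ := kn_int 1
  refine ⟨4 * 3200 ^ 8 * C * Real.exp 1 * 3201, by positivity, ?_⟩
  intro L K hL hK hKL
  have hL0 : 0 < L := by linarith
  have hK0 : 0 < K := by linarith
  have hx : 0 < K / L := by positivity
  have hh : 0 < L / 3200 := by positivity
  have hσ : (-(K / L) : ℝ) ≠ 0 := by linarith
  obtain ⟨hi, hb⟩ := hk (L / 3200) (-(K / L)) hh hσ
  set G : ℝ → ℝ := fun y : ℝ => (1 + L / 3200 * |y|) ^ 30 * (1 + |y|) ^ 1 *
      ‖kn (L / 3200) (((-(K / L) : ℝ) : ℂ) + y * I) / (((-(K / L) : ℝ) : ℂ) + y * I)‖ with hG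
  have hG0 : ∀ y, 0 ≤ G y := by intro y; simp only [hG]; positivity
  have hbd : ∫ y, G y ≤ C * Real.exp (K / 100) * Real.exp 1 * 3201 := by
    refine hb.trans ?_
    have e1 : |(-(K / L) : ℝ)| = K / L := by rw [abs_neg, abs_of_pos hx]
    have e2 : L / 3200 * (K / L) = K / 3200 := by field_simp
    rw [e1]
    have e3 : 32 * (L / 3200) * (K / L) = K / 100 := by
      rw [mul_assoc, e2]; ring
    rw [e3, e2, Real.exp_add]
    have e4 : Real.exp ((-(K / L)) ^ 2) ≤ Real.exp 1 := by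
      refine Real.exp_le_exp.mpr ?_
      nlinarith only [hKL, hx]
    have e5 : 1 + 1 / (K / 3200) ≤ 3201 := by
      have : 1 / (K / 3200) ≤ 3200 := by
        rw [div_le_iff₀ (by positivity)]
        linarith only [hK]
      linarith
    have e6 : (0 : ℝ) ≤ 1 + 1 / (K / 3200) := by positivity
    have hp : 0 < Real.exp (K / 100) := Real.exp_pos _
    calc C * (Real.exp (K / 100) * Real.exp ((-(K / L)) ^ 2)) * (1 + 1 / (K / 3200))
        ≤ C * (Real.exp (K / 100) * Real.exp 1) * 3201 := by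
          refine mul_le_mul ?_ e5 e6 (by positivity)
          refine mul_le_mul_of_nonneg_left ?_ hC.le
          exact mul_le_mul_of_nonneg_left e4 hp.le
      _ = C * Real.exp (K / 100) * Real.exp 1 * 3201 := by ring
  have hcast : (((-(K / L) : ℝ) : ℂ)) = -((K / L : ℝ) : ℂ) := by push_cast; ring
  have h1 : ∀ y : ℝ, AB_k (L / 3200) (K / L) y * (1 + L * |y|) ^ 8 ≤ 4 * 3200 ^ 8 * G y := by
    intro y
    simp only [hG, hcast]
    unfold AB_k
    set nn : ℝ := ‖kn (L / 3200) (-((K / L : ℝ) : ℂ) + y * I) / (-((K / L : ℝ) : ℂ) + y * I)‖ with hnn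
    have hnn0 : 0 ≤ nn := norm_nonneg _
    have a1 : 1 + 4 * ‖(-((K / L : ℝ) : ℂ) + y * I : ℂ)‖ ≤ 4 * (1 + |y|) := by
      have : ‖(-((K / L : ℝ) : ℂ) + y * I : ℂ)‖ ≤ K / L + |y| := by
        refine (norm_add_le _ _).trans ?_
        rw [norm_neg, norm_mul, Complex.norm_I, mul_one, Complex.norm_real, Complex.norm_real,
          Real.norm_eq_abs, Real.norm_eq_abs, abs_of_pos hx]
      linarith
    have a2 : (1 + L * |y|) ^ 8 ≤ 3200 ^ 8 * (1 + L / 3200 * |y|) ^ 30 := by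
      have b0 : 0 ≤ |y| := abs_nonneg y
      have b1 : (1 + L * |y|) ≤ 3200 * (1 + L / 3200 * |y|) := by nlinarith only []
      have b2 : 1 ≤ 1 + L / 3200 * |y| := by
        have : 0 ≤ L / 3200 * |y| := by positivity
        linarith only [this]
      calc (1 + L * |y|) ^ 8 ≤ (3200 * (1 + L / 3200 * |y|)) ^ 8 :=
            pow_le_pow_left₀ (by positivity) b1 8
        _ = 3200 ^ 8 * (1 + L / 3200 * |y|) ^ 8 := by rw [mul_pow]
        _ ≤ 3200 ^ 8 * (1 + L / 3200 * |y|) ^ 30 := by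
            refine mul_le_mul_of_nonneg_left ?_ (by positivity)
            exact pow_le_pow_right₀ b2 (by norm_num)
    have a1' : 0 ≤ 1 + 4 * ‖(-((K / L : ℝ) : ℂ) + y * I : ℂ)‖ := by positivity
    calc (1 + 4 * ‖(-((K / L : ℝ) : ℂ) + y * I : ℂ)‖) * nn * (1 + L * |y|) ^ 8
        ≤ (4 * (1 + |y|)) * nn * (3200 ^ 8 * (1 + L / 3200 * |y|) ^ 30) := by
          refine mul_le_mul ?_ a2 (by positivity) (by positivity)
          exact mul_le_mul_of_nonneg_right a1 hnn0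
      _ = 4 * 3200 ^ 8 * ((1 + L / 3200 * |y|) ^ 30 * (1 + |y|) ^ 1 * nn) := by ring
  have h0 : ∀ y : ℝ, AB_k (L / 3200) (K / L) y ≤ AB_k (L / 3200) (K / L) y * (1 + L * |y|) ^ 8 := by
    intro y
    refine le_mul_of_one_le_right (AB_k_nonneg _ _ _) ?_
    refine one_le_pow₀ ?_
    have : 0 ≤ L * |y| := by positivity
    linarith only [this]
  have hiG : Integrable (fun y => 4 * 3200 ^ 8 * G y) := hi.const_mul _
  have hc := AB_k_cont (L / 3200) (K / L) hx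
  have i2 : Integrable (fun y : ℝ => AB_k (L / 3200) (K / L) y * (1 + L * |y|) ^ 8) := by
    refine hiG.mono' ?_ (Filter.Eventually.of_forall fun y => ?_)
    · exact (hc.mul (by fun_prop)).aestronglyMeasurable
    · rw [Real.norm_of_nonneg (mul_nonneg (AB_k_nonneg _ _ _) (by positivity))]
      exact h1 y
  have i1 : Integrable (fun y : ℝ => AB_k (L / 3200) (K / L) y) := by
    refine i2.mono' hc.aestronglyMeasurable (Filter.Eventually.of_forall fun y => ?_)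
    rw [Real.norm_of_nonneg (AB_k_nonneg _ _ _)]
    exact h0 y
  have b2 : ∫ y : ℝ, AB_k (L / 3200) (K / L) y * (1 + L * |y|) ^ 8 ≤
      4 * 3200 ^ 8 * C * Real.exp 1 * 3201 * Real.exp (K / 100) := by
    calc ∫ y : ℝ, AB_k (L / 3200) (K / L) y * (1 + L * |y|) ^ 8
        ≤ ∫ y : ℝ, 4 * 3200 ^ 8 * G y := integral_mono i2 hiG h1
      _ = 4 * 3200 ^ 8 * ∫ y : ℝ, G y := integral_const_mul _ _
      _ ≤ 4 * 3200 ^ 8 * (C * Real.exp (K / 100) * Real.exp 1 * 3201) := by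
          refine mul_le_mul_of_nonneg_left hbd (by positivity)
      _ = 4 * 3200 ^ 8 * C * Real.exp 1 * 3201 * Real.exp (K / 100) := by ring
  exact ⟨i1, i2, (integral_mono i1 i2 h0).trans b2, b2⟩

/-- Cauchy–Schwarz for the third term. -/
theorem AB_third (h r x : ℝ) (hh : 0 < h) (hx : 0 < x)
    (hi : Integrable (fun y : ℝ => AB_k h x y)) (t : ℝ) (D : ℂ) (g : ℝ) (hg : 0 ≤ g) :
    ((∫ y : ℝ, AB_k h x y * ‖Sc h r (1 / 2 + (t + y) * I)‖) * ‖D‖) ^ 2 * g ≤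
      (∫ y : ℝ, AB_k h x y) *
        ∫ y : ℝ, AB_k h x y * (‖Sc h r (1 / 2 + (t + y) * I) * D‖ ^ 2 * g) := by
  obtain ⟨B, hB0, hB⟩ := AB_Sc_bdd h r hh (1 / 2)
  have hcont : Continuous (fun y : ℝ => Sc h r (1 / 2 + (t + y) * I)) := by
    have h1 := (AB_Sc_cont h r hh (1 / 2)).comp (continuous_const.add continuous_id : Continuous (fun y : ℝ => t + y))
    refine h1.congr (fun y => ?_)
    simp
  have hB' : ∀ y : ℝ, ‖Sc h r (1 / 2 + (t + y) * I)‖ ≤ B := by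
    intro y
    have := hB (t + y)
    push_cast at this
    exact this
  have hif : Integrable (fun y : ℝ => AB_k h x y * ‖Sc h r (1 / 2 + (t + y) * I)‖ ^ 2) := by
    refine (hi.mul_const (B ^ 2)).mono' ?_ (Filter.Eventually.of_forall fun y => ?_)
    · exact ((AB_k_cont h x hx).mul (hcont.norm.pow 2)).aestronglyMeasurable
    · rw [Real.norm_of_nonneg (mul_nonneg (AB_k_nonneg _ _ _) (by positivity))]
      refine mul_le_mul_of_nonneg_left ?_ (AB_k_nonneg _ _ _)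
      exact pow_le_pow_left₀ (norm_nonneg _) (hB' y) 2
  have hcs := cs_int (fun y => AB_k h x y) (fun y => ‖Sc h r (1 / 2 + (t + y) * I)‖) hi
    (fun y => AB_k_nonneg h x y) (fun y => norm_nonneg _) hcont.norm.aestronglyMeasurable hif
  have he : ∫ y : ℝ, AB_k h x y * (‖Sc h r (1 / 2 + (t + y) * I) * D‖ ^ 2 * g)
      = (∫ y : ℝ, AB_k h x y * ‖Sc h r (1 / 2 + (t + y) * I)‖ ^ 2) * (‖D‖ ^ 2 * g) := by
    rw [← integral_mul_const]
    refine integral_congr_ae (Filter.Eventually.of_forall fun y => ?_)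
    simp only [norm_mul]
    ring
  rw [he]
  have hn : 0 ≤ ‖D‖ ^ 2 * g := by positivity
  calc ((∫ y : ℝ, AB_k h x y * ‖Sc h r (1 / 2 + (t + y) * I)‖) * ‖D‖) ^ 2 * g
      = (∫ y : ℝ, AB_k h x y * ‖Sc h r (1 / 2 + (t + y) * I)‖) ^ 2 * (‖D‖ ^ 2 * g) := by ring
    _ ≤ ((∫ y : ℝ, AB_k h x y) *
          ∫ y : ℝ, AB_k h x y * ‖Sc h r (1 / 2 + (t + y) * I)‖ ^ 2) * (‖D‖ ^ 2 * g) :=
        mul_le_mul_of_nonneg_right hcs hn
    _ = _ := by ring

/-- Tonelli for the third term. -/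
theorem AB_ton (h r x T : ℝ) (hh : 0 < h) (hx : 0 < x) (hT : 1 ≤ T) (a : ℕ → ℂ)
    (ha : ∀ D, ‖a D‖ ≤ T) (τ W : ℝ) (hW : 0 < W)
    (hi : Integrable (fun y : ℝ => AB_k h x y))
    (Z : ℝ) (L : ℝ) (hi8 : Integrable (fun y : ℝ => AB_k h x y * (1 + L * |y|) ^ 8))
    (hm : ∀ y : ℝ, ∫ t : ℝ, ‖Sc h r (1 / 2 + (t + y) * I) * DP T a t‖ ^ 2 * gw τ W t
      ≤ Z * (1 + L * |y|) ^ 8) :
    Integrable (fun t : ℝ => ∫ y : ℝ, AB_k h x y *
      (‖Sc h r (1 / 2 + (t + y) * I) * DP T a t‖ ^ 2 * gw τ W t)) ∧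
    ∫ t : ℝ, ∫ y : ℝ, AB_k h x y *
      (‖Sc h r (1 / 2 + (t + y) * I) * DP T a t‖ ^ 2 * gw τ W t) ≤
      Z * ∫ y : ℝ, AB_k h x y * (1 + L * |y|) ^ 8 := by
  obtain ⟨B, hB0, hB⟩ := AB_Sc_bdd h r hh (1 / 2)
  have hB' : ∀ t y : ℝ, ‖Sc h r (1 / 2 + (t + y) * I)‖ ≤ B := by
    intro t y
    have := hB (t + y)
    push_cast at this
    exact this
  have hcont : Continuous (fun p : ℝ × ℝ => Sc h r (1 / 2 + (p.1 + p.2) * I)) := by
    have h1 := (AB_Sc_cont h r hh (1 / 2)).comp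
      (continuous_fst.add continuous_snd : Continuous (fun p : ℝ × ℝ => p.1 + p.2))
    refine h1.congr (fun y => ?_)
    simp
  have hcF : Continuous (fun p : ℝ × ℝ => AB_k h x p.2 *
      (‖Sc h r (1 / 2 + (p.1 + p.2) * I) * DP T a p.1‖ ^ 2 * gw τ W p.1)) := by
    refine ((AB_k_cont h x hx).comp continuous_snd).mul ?_
    refine Continuous.mul ?_ ((AB_gw_cont τ W).comp continuous_fst)
    exact ((hcont.mul ((AB_DP_cont T a).comp continuous_fst)).norm).pow 2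
  have hgi : Integrable (fun t : ℝ => gw τ W t) := by
    have h0 : Integrable (fun u : ℝ => Real.exp (-(1 : ℝ) * u ^ 2)) :=
      integrable_exp_neg_mul_sq (by norm_num)
    have h1 := (h0.comp_div hW.ne').comp_sub_right τ
    refine h1.congr (Filter.Eventually.of_forall fun t => ?_)
    simp [gw]
  have hint : Integrable (fun p : ℝ × ℝ => AB_k h x p.2 *
      (‖Sc h r (1 / 2 + (p.1 + p.2) * I) * DP T a p.1‖ ^ 2 * gw τ W p.1))
      (volume.prod volume) := by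
    have h2 : Integrable (fun p : ℝ × ℝ => ((B * T ^ 2) ^ 2 * gw τ W p.1) * AB_k h x p.2)
        (volume.prod volume) := (hgi.const_mul ((B * T ^ 2) ^ 2)).mul_prod hi
    refine h2.mono' hcF.aestronglyMeasurable (Filter.Eventually.of_forall fun p => ?_)
    have hk0 := AB_k_nonneg h x p.2
    have hg0 := (AB_gw_pos τ W p.1).le
    rw [Real.norm_of_nonneg (by positivity)]
    have h3 : ‖Sc h r (1 / 2 + (p.1 + p.2) * I) * DP T a p.1‖ ^ 2 ≤ (B * T ^ 2) ^ 2 := by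
      refine pow_le_pow_left₀ (norm_nonneg _) ?_ 2
      rw [norm_mul]
      exact mul_le_mul (hB' _ _) (AB_DP_le T hT a ha _) (norm_nonneg _) hB0
    calc AB_k h x p.2 * (‖Sc h r (1 / 2 + (p.1 + p.2) * I) * DP T a p.1‖ ^ 2 * gw τ W p.1)
        ≤ AB_k h x p.2 * ((B * T ^ 2) ^ 2 * gw τ W p.1) := by
          refine mul_le_mul_of_nonneg_left ?_ hk0
          exact mul_le_mul_of_nonneg_right h3 hg0
      _ = _ := by ring
  constructor
  · exact hint.integral_prod_left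
  · rw [integral_integral_swap (f := fun (t y : ℝ) => AB_k h x y *
      (‖Sc h r (1 / 2 + (t + y) * I) * DP T a t‖ ^ 2 * gw τ W t)) hint]
    rw [← integral_const_mul]
    refine integral_mono hint.integral_prod_right (hi8.const_mul Z) (fun y => ?_)
    simp only
    rw [integral_const_mul]
    calc AB_k h x y * ∫ t : ℝ, ‖Sc h r (1 / 2 + (t + y) * I) * DP T a t‖ ^ 2 * gw τ W t
        ≤ AB_k h x y * (Z * (1 + L * |y|) ^ 8) :=
          mul_le_mul_of_nonneg_left (hm y) (AB_k_nonneg _ _ _)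
      _ = _ := by ring

/-- The fourth term. -/
theorem AB_fourth (T : ℝ) (hT : 1 ≤ T) (a : ℕ → ℂ) (ha : ∀ D, ‖a D‖ ≤ T) (τ W t C : ℝ)
    (hW : 0 < W) (hWT : W ≤ T) :
    ((C * T ^ (-6 : ℝ) * (1 + |t| / T) ^ 101) * ‖DP T a t‖) ^ 2 * gw τ W t ≤
      (C ^ 2 * (1 + |τ| / T) ^ 202) * ((1 + |t - τ| / W) ^ 202 * gw τ W t) := by
  have hT0 : 0 < T := by linarith
  have hD := AB_DP_le T hT a ha t
  have hg := (AB_gw_pos τ W t).le
  have h1 : T ^ (-6 : ℝ) * ‖DP T a t‖ ≤ 1 := by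
    have e1 : T ^ (-6 : ℝ) = (T ^ 6)⁻¹ := by
      rw [Real.rpow_neg hT0.le]
      norm_cast
    rw [e1]
    have h6 : (0 : ℝ) < T ^ 6 := by positivity
    rw [inv_mul_le_iff₀ h6, mul_one]
    refine hD.trans ?_
    exact pow_le_pow_right₀ hT (by norm_num)
  have h2 : (1 + |t| / T) ≤ (1 + |τ| / T) * (1 + |t - τ| / W) := by
    have h3 : |t| ≤ |τ| + |t - τ| := by
      have : t = τ + (t - τ) := by ring
      calc |t| = |τ + (t - τ)| := by rw [← this]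
        _ ≤ |τ| + |t - τ| := abs_add_le _ _
    have h4 : |t| / T ≤ |τ| / T + |t - τ| / T := by
      rw [← add_div]
      exact div_le_div_of_nonneg_right h3 hT0.le
    have h5 : |t - τ| / T ≤ |t - τ| / W := div_le_div_of_nonneg_left (abs_nonneg _) hW hWT
    have h6 : 0 ≤ |τ| / T := by positivity
    have h7 : 0 ≤ |t - τ| / W := by positivity
    nlinarith only [h4, h5, mul_nonneg h6 h7]
  have h3 : (1 + |t| / T) ^ 202 ≤ (1 + |τ| / T) ^ 202 * (1 + |t - τ| / W) ^ 202 := by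
    rw [← mul_pow]
    exact pow_le_pow_left₀ (by positivity) h2 202
  have h0 : 0 ≤ T ^ (-6 : ℝ) * ‖DP T a t‖ := by positivity
  have h101 : (1 + |t| / T) ^ 202 = ((1 + |t| / T) ^ 101) ^ 2 := by rw [← pow_mul]
  have hu0 : 0 ≤ (1 + |t| / T) ^ 101 := by positivity
  have hv0 : 0 ≤ (1 + |τ| / T) ^ 202 := by positivity
  have hw0 : 0 ≤ (1 + |t - τ| / W) ^ 202 := by positivity
  rw [h101] at h3
  generalize (1 + |t| / T) ^ 101 = u at *
  generalize (1 + |τ| / T) ^ 202 = v at *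
  generalize (1 + |t - τ| / W) ^ 202 = w at *
  generalize T ^ (-6 : ℝ) = q at *
  generalize ‖DP T a t‖ = d at *
  generalize gw τ W t = g at *
  calc ((C * q * u) * d) ^ 2 * g
      = (C ^ 2 * u ^ 2) * (q * d) ^ 2 * g := by ring
    _ ≤ (C ^ 2 * u ^ 2) * 1 * g := by
        refine mul_le_mul_of_nonneg_right ?_ hg
        refine mul_le_mul_of_nonneg_left ?_ (by positivity)
        exact pow_le_one₀ h0 h1
    _ = C ^ 2 * (u ^ 2 * g) := by ring
    _ ≤ C ^ 2 * ((v * w) * g) := by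
        refine mul_le_mul_of_nonneg_left ?_ (by positivity)
        exact mul_le_mul_of_nonneg_right h3 hg
    _ = _ := by ring

theorem AB_zeta_cont (x : ℝ) (hx : x ≤ 1 / 4) :
    Continuous (fun t : ℝ => riemannZeta (1 / 2 + x + t * I)) := by
  rw [continuous_iff_continuousAt]
  intro t
  have h1 : (1 / 2 + x + t * I : ℂ) ≠ 1 := by
    intro h0
    have := congrArg Complex.re h0
    simp at this
    linarith
  have h2 : ContinuousAt riemannZeta (1 / 2 + x + t * I : ℂ) :=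
    (differentiableAt_riemannZeta h1).continuousAt
  have h3 : ContinuousAt (fun t : ℝ => (1 / 2 + x + t * I : ℂ)) t := by fun_prop
  exact ContinuousAt.comp (f := fun t : ℝ => (1 / 2 + x + t * I : ℂ)) h2 h3

/-- pointwise algebra -/
theorem AB_alg (zz p₁ p₂ p₃ p₄ d g X Y : ℝ) (hz : zz ≤ p₁ + 4 * p₂ + p₃ + p₄) (hzz : 0 ≤ zz)
    (hd : 0 ≤ d) (hg : 0 ≤ g) (hX : (p₃ * d) ^ 2 * g ≤ X) (hY : (p₄ * d) ^ 2 * g ≤ Y) :
    (zz * d) ^ 2 * g ≤ 4 * ((((p₁ * d) ^ 2 * g) + 16 * ((p₂ * d) ^ 2 * g) + X) + Y) := by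
  have e1 : (zz * d) ^ 2 ≤ 4 * ((p₁ * d) ^ 2 + 16 * (p₂ * d) ^ 2 + (p₃ * d) ^ 2 + (p₄ * d) ^ 2) := by
    have e2 : zz * d ≤ p₁ * d + 4 * (p₂ * d) + p₃ * d + p₄ * d := by
      calc zz * d ≤ (p₁ + 4 * p₂ + p₃ + p₄) * d := mul_le_mul_of_nonneg_right hz hd
        _ = _ := by ring
    have e3 : (zz * d) ^ 2 ≤ (p₁ * d + 4 * (p₂ * d) + p₃ * d + p₄ * d) ^ 2 :=
      pow_le_pow_left₀ (by positivity) e2 2
    refine e3.trans ?_
    generalize p₁ * d = a
    generalize p₂ * d = b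
    generalize p₃ * d = c
    generalize p₄ * d = e
    nlinarith only [sq_nonneg (a - 4 * b), sq_nonneg (a - c), sq_nonneg (a - e), sq_nonneg (4 * b - c), sq_nonneg (4 * b - e)]
  calc (zz * d) ^ 2 * g
      ≤ (4 * ((p₁ * d) ^ 2 + 16 * (p₂ * d) ^ 2 + (p₃ * d) ^ 2 + (p₄ * d) ^ 2)) * g :=
        mul_le_mul_of_nonneg_right e1 hg
    _ = 4 * ((((p₁ * d) ^ 2 * g) + 16 * ((p₂ * d) ^ 2 * g) + (p₃ * d) ^ 2 * g) +
        (p₄ * d) ^ 2 * g) := by ring
    _ ≤ _ := by linarith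

/-- final combination -/
theorem AB_comb (C₁ C₂ C₃ C₄ M K W Q R v I1 I2 I3 I4 kI : ℝ) (hC₁ : 0 < C₁) (hC₂ : 0 < C₂)
    (hC₃ : 0 < C₃) (hC₄ : 0 < C₄) (hM : 0 < M) (hK : 1 ≤ K) (hW : 0 < W) (hQ : 1 ≤ Q)
    (hR : 1 ≤ R) (hv0 : 0 ≤ v) (hv : v ≤ R)
    (h1 : I1 ≤ C₁ * (1 + K) ^ 8 * W * Q) (h2 : I2 ≤ C₂ * (1 + K) ^ 8 * W * Q)
    (hkI0 : 0 ≤ kI) (hkI : kI ≤ C₄ * Real.exp (K / 100))
    (h3 : I3 ≤ (C₁ * (1 + K) ^ 8 * W * Q) * (C₄ * Real.exp (K / 100)))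
    (h4 : I4 ≤ M * W) :
    4 * ((I1 + 16 * I2 + kI * I3) + (C₃ ^ 2 * v) * I4) ≤
      (2 + 4 * 40320 * Real.exp 1 * (C₁ + 16 * C₂ + C₄ ^ 2 * C₁ + C₃ ^ 2 * M)) *
        Real.exp ((2 + 4 * 40320 * Real.exp 1 * (C₁ + 16 * C₂ + C₄ ^ 2 * C₁ + C₃ ^ 2 * M)) * K) *
        W * Q * R := by
  have hQ0 : 0 < Q := by linarith
  have hK0 : 0 < K := by linarith
  have hR0 : 0 < R := by linarith
  set S : ℝ := C₁ + 16 * C₂ + C₄ ^ 2 * C₁ + C₃ ^ 2 * M with hS
  have hS0 : 0 < S := by positivity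
  have hP : (1 + K) ^ 8 ≤ 40320 * (Real.exp 1 * Real.exp K) := by
    have := Real.pow_div_factorial_le_exp (1 + K) (by positivity) 8
    rw [div_le_iff₀ (by positivity)] at this
    rw [Real.exp_add] at this
    have e : ((Nat.factorial 8 : ℕ) : ℝ) = 40320 := by norm_num [Nat.factorial]
    rw [e] at this
    linarith only [this]
  obtain ⟨E, hE⟩ : ∃ E : ℝ, E = Real.exp (2 * K) := ⟨_, rfl⟩
  have hE1 : 1 ≤ E := by rw [hE]; exact Real.one_le_exp (by positivity)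
  have hE0 : 0 < E := by linarith only [hE1]
  have hEK : Real.exp K ≤ E := by rw [hE]; exact Real.exp_le_exp.mpr (by linarith only [hK])
  have hEK2 : Real.exp (K / 100) * Real.exp (K / 100) * Real.exp K ≤ E := by
    rw [← Real.exp_add, ← Real.exp_add, hE]
    exact Real.exp_le_exp.mpr (by linarith)
  obtain ⟨c, hc⟩ : ∃ c : ℝ, c = 40320 * Real.exp 1 := ⟨_, rfl⟩
  have hc1 : 1 ≤ c := by
    have : (1 : ℝ) ≤ Real.exp 1 := Real.one_le_exp (by norm_num)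
    rw [hc]; linarith only [this]
  have hc0 : 0 < c := by linarith only [hc1]
  have hP' : (1 + K) ^ 8 ≤ c * Real.exp K := by rw [hc]; linarith only [hP]
  have hfin : E ≤ Real.exp ((2 + 4 * 40320 * Real.exp 1 * S) * K) := by
    rw [hE]
    refine Real.exp_le_exp.mpr ?_
    have : 0 ≤ 4 * 40320 * Real.exp 1 * S * K := by positivity
    linarith only [this]
  have hcS : 4 * S * c ≤ 2 + 4 * 40320 * Real.exp 1 * S := by rw [hc]; linarith only []
  obtain ⟨P, hPd⟩ : ∃ P : ℝ, P = (1 + K) ^ 8 := ⟨_, rfl⟩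
  have hP0 : 0 < P := by rw [hPd]; positivity
  rw [← hPd] at hP' h1 h2 h3
  have hPE : P ≤ c * E := hP'.trans (mul_le_mul_of_nonneg_left hEK hc0.le)
  have hWQ : 0 < W * Q := by positivity
  have hcE : 0 < c * E := by positivity
  -- term 1
  have t1 : I1 ≤ C₁ * (c * E) * (W * Q) * R := by
    calc I1 ≤ C₁ * P * W * Q := h1
      _ = C₁ * P * (W * Q) * 1 := by ring
      _ ≤ C₁ * (c * E) * (W * Q) * R := by
          refine mul_le_mul ?_ hR (by norm_num) (by positivity)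
          refine mul_le_mul_of_nonneg_right ?_ hWQ.le
          exact mul_le_mul_of_nonneg_left hPE hC₁.le
  have t2 : I2 ≤ C₂ * (c * E) * (W * Q) * R := by
    calc I2 ≤ C₂ * P * W * Q := h2
      _ = C₂ * P * (W * Q) * 1 := by ring
      _ ≤ C₂ * (c * E) * (W * Q) * R := by
          refine mul_le_mul ?_ hR (by norm_num) (by positivity)
          refine mul_le_mul_of_nonneg_right ?_ hWQ.le
          exact mul_le_mul_of_nonneg_left hPE hC₂.le
  have hek : 0 < Real.exp (K / 100) := Real.exp_pos _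
  obtain ⟨ek, hekd⟩ : ∃ ek : ℝ, ek = Real.exp (K / 100) := ⟨_, rfl⟩
  rw [← hekd] at hEK2 hkI h3 hek
  have t3 : kI * I3 ≤ (C₄ ^ 2 * C₁) * (c * E) * (W * Q) * R := by
    have b0 : 0 ≤ (C₁ * P * W * Q) * (C₄ * ek) := by positivity
    calc kI * I3 ≤ kI * ((C₁ * P * W * Q) * (C₄ * ek)) := mul_le_mul_of_nonneg_left h3 hkI0
      _ ≤ (C₄ * ek) * ((C₁ * P * W * Q) * (C₄ * ek)) := mul_le_mul_of_nonneg_right hkI b0
      _ = (C₄ ^ 2 * C₁) * (P * (ek * ek)) * (W * Q) * 1 := by ring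
      _ ≤ (C₄ ^ 2 * C₁) * (c * E) * (W * Q) * R := by
          refine mul_le_mul ?_ hR (by norm_num) (by positivity)
          refine mul_le_mul_of_nonneg_right ?_ hWQ.le
          refine mul_le_mul_of_nonneg_left ?_ (by positivity)
          calc P * (ek * ek) ≤ (c * Real.exp K) * (ek * ek) :=
                mul_le_mul_of_nonneg_right hP' (by positivity)
            _ = c * (ek * ek * Real.exp K) := by ring
            _ ≤ c * E := mul_le_mul_of_nonneg_left hEK2 hc0.le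
  have t4 : (C₃ ^ 2 * v) * I4 ≤ (C₃ ^ 2 * M) * (c * E) * (W * Q) * R := by
    have b0 : 0 ≤ C₃ ^ 2 * v := by positivity
    calc (C₃ ^ 2 * v) * I4 ≤ (C₃ ^ 2 * v) * (M * W) := mul_le_mul_of_nonneg_left h4 b0
      _ = (C₃ ^ 2 * M * (1 * 1) * (W * 1)) * v := by ring
      _ ≤ (C₃ ^ 2 * M * (c * E) * (W * Q)) * R := by
          refine mul_le_mul ?_ hv hv0 (by positivity)
          refine mul_le_mul ?_ ?_ (by positivity) (by positivity)
          · refine mul_le_mul_of_nonneg_left ?_ (by positivity)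
            exact mul_le_mul hc1 hE1 (by norm_num) hc0.le
          · exact mul_le_mul_of_nonneg_left hQ hW.le
      _ = _ := by ring
  have tot : 4 * ((I1 + 16 * I2 + kI * I3) + (C₃ ^ 2 * v) * I4) ≤
      4 * (S * (c * E) * (W * Q) * R) := by
    have : S * (c * E) * (W * Q) * R = C₁ * (c * E) * (W * Q) * R +
      16 * (C₂ * (c * E) * (W * Q) * R) + (C₄ ^ 2 * C₁) * (c * E) * (W * Q) * R +
      (C₃ ^ 2 * M) * (c * E) * (W * Q) * R := by rw [hS]; ring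
    rw [this]
    linarith only [t1, t2, t3, t4]
  refine tot.trans ?_
  have hS' : 0 < 2 + 4 * 40320 * Real.exp 1 * S := by positivity
  generalize 2 + 4 * 40320 * Real.exp 1 * S = U at *
  calc 4 * (S * (c * E) * (W * Q) * R) = (4 * S * c) * E * (W * Q) * R := by ring
    _ ≤ U * Real.exp (U * K) * (W * Q) * R := by
        refine mul_le_mul_of_nonneg_right ?_ (by linarith)
        refine mul_le_mul_of_nonneg_right ?_ hWQ.le
        exact mul_le_mul hcS hfin hE0.le (by positivity)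
    _ = _ := by ring

/-- PROOF. Multiply `afe` (with `x = K/L`) by `‖DP T a t‖`, square (`(a+b+c+d)² ≤ 4(a²+b²+c²+d²)`),
multiply by `gw` and integrate. First two terms: `mean_Sc`, `mean_Sd` with `x = K/L`, `y₀ = 0`. Third:
`cs_int` with `k(y) = (1+4|z|) ‖kn h z/z‖`, `z = -x+iy` (`∫ k ≤ C e^{K/100}` by `kn_int`,
`h|σ| = K/3200`, `σ² ≤ 1`), Tonelli, `mean_Sc` with `x = 0`, `y₀ = y`, and
`∫ (1+L|y|)^8 k(y) dy ≤ C e^{K/100}`. Fourth: `‖DP T a t‖ ≤ T^{11/10}`, and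
`(1+|t|/T)^{202} ≤ (1+|τ|/T)^{202} (1+|t-τ|/W)^{202}` for `W ≤ T`;
`∫ (1+|t-τ|/W)^{202} gw τ W t dt = C W`. `(1+K)^8 e^{K/50} ≤ C e^K`. -/
theorem AB : ∃ C : ℝ, 0 < C ∧ ∀ K : ℝ, 1 ≤ K → ∃ T₀ : ℝ, Real.exp 3200 ≤ T₀ ∧ ∀ T : ℝ, T₀ ≤ T →
    ∀ Q : ℝ, 1 ≤ Q → ∀ a : ℕ → ℂ, (∀ D : ℕ, T ^ (1 / 10 : ℝ) < D → a D = 0) →
    (∀ D, ‖a D‖ ≤ T) → DiagHyp T K Q a →
    ∀ τ W : ℝ, T ^ (9 / 10 : ℝ) ≤ W → W ≤ T →
    Integrable (fun t : ℝ => ‖riemannZeta (1 / 2 + (K / Real.log T : ℝ) + t * I) * DP T a t‖ ^ 2 *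
      gw τ W t) ∧
    ∫ t : ℝ, ‖riemannZeta (1 / 2 + (K / Real.log T : ℝ) + t * I) * DP T a t‖ ^ 2 * gw τ W t
      ≤ C * Real.exp (C * K) * W * Q * (1 + |τ| / T) ^ 300 := by
  obtain ⟨C₁, hC₁, T₁, hT₁, h₁⟩ := mean_Sc
  obtain ⟨C₂, hC₂, T₂, hT₂, h₂⟩ := mean_Sd
  obtain ⟨C₃, hC₃, h₃⟩ := afe
  obtain ⟨C₄, hC₄, h₄⟩ := AB_kernel
  obtain ⟨M, hM, h₅⟩ := AB_moment
  refine ⟨2 + 4 * 40320 * Real.exp 1 * (C₁ + 16 * C₂ + C₄ ^ 2 * C₁ + C₃ ^ 2 * M),
    by positivity, ?_⟩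
  intro K hK
  refine ⟨max (max T₁ T₂) (Real.exp (4 * K)), (hT₁.trans (le_max_left _ _)).trans (le_max_left _ _), ?_⟩
  intro T hT Q hQ a ha0 ha hdiag τ W hW hWT
  have hTT₁ : T₁ ≤ T := ((le_max_left _ _).trans (le_max_left _ _)).trans hT
  have hTT₂ : T₂ ≤ T := ((le_max_right _ _).trans (le_max_left _ _)).trans hT
  have hTe : Real.exp 3200 ≤ T := hT₁.trans hTT₁
  have hTK : Real.exp (4 * K) ≤ T := (le_max_right _ _).trans hT
  have hT0 : 0 < T := (Real.exp_pos _).trans_le hTe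
  have hT1 : 1 ≤ T := by
    have : (1 : ℝ) ≤ Real.exp 3200 := Real.one_le_exp (by norm_num)
    linarith only [hT₁, hTT₁, this]
  have hK0 : 0 < K := by linarith
  have hL1 : 3200 ≤ Real.log T := by
    rw [Real.le_log_iff_exp_le hT0]; exact hTe
  have hLK : 4 * K ≤ Real.log T := by
    rw [Real.le_log_iff_exp_le hT0]; exact hTK
  have hL0 : 0 < Real.log T := by linarith
  have hx0 : 0 < K / Real.log T := by positivity
  have hx4 : K / Real.log T ≤ 1 / 4 := by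
    rw [div_le_iff₀ hL0]; linarith
  have hW0 : 0 < W := lt_of_lt_of_le (by positivity) hW
  have hh0 : 0 < Real.log T / 3200 := by positivity
  obtain ⟨k1, k2, k3, k4⟩ := h₄ (Real.log T) K hL1 hK hx4
  -- the four pieces
  have iA := h₁ T hTT₁ K Q hK hQ a ha0 ha hdiag (K / Real.log T) 0 τ W hx0.le le_rfl hW
  have iB := h₂ T hTT₂ K Q hK hQ a ha0 ha hdiag (K / Real.log T) 0 τ W hx0.le le_rfl hW
  simp only [abs_zero, mul_zero, add_zero, one_pow, mul_one, Complex.ofReal_zero] at iA iB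
  have hm : ∀ y : ℝ, ∫ t : ℝ, ‖Sc (Real.log T / 3200) (11 / 20 * Real.log T)
      (1 / 2 + (t + y) * I) * DP T a t‖ ^ 2 * gw τ W t
      ≤ (C₁ * (1 + K) ^ 8 * W * Q) * (1 + Real.log T * |y|) ^ 8 := by
    intro y
    have := (h₁ T hTT₁ K Q hK hQ a ha0 ha hdiag 0 y τ W le_rfl hx0.le hW).2
    simp only [Complex.ofReal_zero, add_zero] at this
    exact this
  have hTon := AB_ton (Real.log T / 3200) (11 / 20 * Real.log T) (K / Real.log T) T hh0 hx0 hT1 a ha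
    τ W hW0 k1 (C₁ * (1 + K) ^ 8 * W * Q) (Real.log T) k2 hm
  have hMom := h₅ τ W hW0
  -- pointwise inequality
  have hpt : ∀ t : ℝ, ‖riemannZeta (1 / 2 + (K / Real.log T : ℝ) + t * I) * DP T a t‖ ^ 2 * gw τ W t
      ≤ 4 * (((‖Sc (Real.log T / 3200) (11 / 20 * Real.log T)
          (1 / 2 + (K / Real.log T : ℝ) + t * I) * DP T a t‖ ^ 2 * gw τ W t) +
        16 * (‖Sd (Real.log T / 3200) (11 / 20 * Real.log T)
          (1 / 2 + (K / Real.log T : ℝ) + t * I) * DP T a t‖ ^ 2 * gw τ W t) +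
        (∫ y : ℝ, AB_k (Real.log T / 3200) (K / Real.log T) y) *
          ∫ y : ℝ, AB_k (Real.log T / 3200) (K / Real.log T) y *
          (‖Sc (Real.log T / 3200) (11 / 20 * Real.log T) (1 / 2 + (t + y) * I) * DP T a t‖ ^ 2 *
            gw τ W t)) +
        (C₃ ^ 2 * (1 + |τ| / T) ^ 202) * ((1 + |t - τ| / W) ^ 202 * gw τ W t)) := by
    intro t
    have hg0 := (AB_gw_pos τ W t).le
    have hz := h₃ T hTe (K / Real.log T) t hx0 hx4
    have h3 := AB_third (Real.log T / 3200) (11 / 20 * Real.log T) (K / Real.log T) hh0 hx0 k1 t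
      (DP T a t) (gw τ W t) hg0
    have h4 := AB_fourth T hT1 a ha τ W t C₃ hW0 hWT
    simp only [norm_mul] at h3 ⊢
    exact AB_alg _ _ _ _ _ _ _ _ _ hz (norm_nonneg _) (norm_nonneg _) hg0 h3 h4
  have hR : 1 ≤ (1 + |τ| / T) := by
    have : 0 ≤ |τ| / T := by positivity
    linarith only [this]
  have hv0 : 0 ≤ (1 + |τ| / T) ^ 202 := by positivity
  have hvR : (1 + |τ| / T) ^ 202 ≤ (1 + |τ| / T) ^ 300 := pow_le_pow_right₀ hR (by norm_num)
  have hR1 : 1 ≤ (1 + |τ| / T) ^ 300 := one_le_pow₀ hR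
  have hcl : Continuous (fun t : ℝ =>
      ‖riemannZeta (1 / 2 + (K / Real.log T : ℝ) + t * I) * DP T a t‖ ^ 2 * gw τ W t) :=
    ((((AB_zeta_cont (K / Real.log T) hx4).mul (AB_DP_cont T a)).norm).pow 2).mul (AB_gw_cont τ W)
  generalize (1 + |τ| / T) ^ 202 = v at *
  generalize (1 + |τ| / T) ^ 300 = R at *
  obtain ⟨F4, hF4⟩ : ∃ F4 : ℝ → ℝ, F4 = fun t : ℝ => (1 + |t - τ| / W) ^ 202 * gw τ W t := ⟨_, rfl⟩
  obtain ⟨F3, hF3⟩ : ∃ F3 : ℝ → ℝ, F3 = fun t : ℝ =>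
      ∫ y : ℝ, AB_k (Real.log T / 3200) (K / Real.log T) y *
          (‖Sc (Real.log T / 3200) (11 / 20 * Real.log T) (1 / 2 + (t + y) * I) * DP T a t‖ ^ 2 *
            gw τ W t) := ⟨_, rfl⟩
  obtain ⟨F1, hF1⟩ : ∃ F1 : ℝ → ℝ, F1 = fun t : ℝ => ‖Sc (Real.log T / 3200) (11 / 20 * Real.log T)
          (1 / 2 + (K / Real.log T : ℝ) + t * I) * DP T a t‖ ^ 2 * gw τ W t := ⟨_, rfl⟩
  obtain ⟨F2, hF2⟩ : ∃ F2 : ℝ → ℝ, F2 = fun t : ℝ => ‖Sd (Real.log T / 3200) (11 / 20 * Real.log T)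
          (1 / 2 + (K / Real.log T : ℝ) + t * I) * DP T a t‖ ^ 2 * gw τ W t := ⟨_, rfl⟩
  obtain ⟨kI, hkI⟩ : ∃ kI : ℝ, kI = ∫ y : ℝ, AB_k (Real.log T / 3200) (K / Real.log T) y := ⟨_, rfl⟩
  have hkI0 : 0 ≤ kI := by rw [hkI]; exact integral_nonneg (fun y => AB_k_nonneg _ _ _)
  rw [← hF4] at hMom
  rw [← hF3] at hTon
  rw [← hF1] at iA
  rw [← hF2] at iB
  rw [← hkI] at k3
  have hpt' : ∀ t : ℝ, ‖riemannZeta (1 / 2 + (K / Real.log T : ℝ) + t * I) * DP T a t‖ ^ 2 * gw τ W t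
      ≤ 4 * ((F1 t + 16 * F2 t + kI * F3 t) + (C₃ ^ 2 * v) * F4 t) := by
    intro t
    rw [hF1, hF2, hF3, hF4, hkI]
    exact hpt t
  clear hpt
  have i12 : Integrable (fun t : ℝ => F1 t + 16 * F2 t) := iA.1.add (iB.1.const_mul 16)
  have i123 : Integrable (fun t : ℝ => F1 t + 16 * F2 t + kI * F3 t) :=
    i12.add (hTon.1.const_mul kI)
  have i4 : Integrable (fun t : ℝ => (C₃ ^ 2 * v) * F4 t) := hMom.1.const_mul _
  have iG : Integrable (fun t : ℝ => 4 * ((F1 t + 16 * F2 t + kI * F3 t) + (C₃ ^ 2 * v) * F4 t)) :=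
    (i123.add i4).const_mul 4
  have iL : Integrable (fun t : ℝ =>
      ‖riemannZeta (1 / 2 + (K / Real.log T : ℝ) + t * I) * DP T a t‖ ^ 2 * gw τ W t) := by
    refine iG.mono' hcl.aestronglyMeasurable (Filter.Eventually.of_forall fun t => ?_)
    have hg0 := (AB_gw_pos τ W t).le
    rw [Real.norm_of_nonneg (mul_nonneg (by positivity) hg0)]
    exact hpt' t
  refine ⟨iL, ?_⟩
  refine (integral_mono iL iG hpt').trans ?_
  have eG : ∫ t : ℝ, 4 * ((F1 t + 16 * F2 t + kI * F3 t) + (C₃ ^ 2 * v) * F4 t) =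
      4 * (((∫ t, F1 t) + 16 * (∫ t, F2 t) + kI * ∫ t, F3 t) + (C₃ ^ 2 * v) * ∫ t, F4 t) := by
    rw [integral_const_mul, integral_add i123 i4, integral_add i12 (hTon.1.const_mul kI),
      integral_add iA.1 (iB.1.const_mul 16), integral_const_mul, integral_const_mul,
      integral_const_mul]
  rw [eG]
  refine AB_comb C₁ C₂ C₃ C₄ M K W Q R v _ _ _ _ kI hC₁ hC₂ hC₃ hC₄ hM hK hW0 hQ hR1 hv0 hvR
    iA.2 iB.2 hkI0 k3 ?_ hMom.2
  refine hTon.2.trans ?_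
  refine mul_le_mul_of_nonneg_left k4 ?_
  have : 0 < Q := by linarith only [hQ]
  positivity

end Pool.Agent.H14.CO
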