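import Pool.Agent.H14.CO.Ch
import Pool.Agent.H95.GC.ZetaForm
import Pool.Agent.H95.GC.Reflect

/-!
# CO module ZetaG: the entire function `(s-1) ζ(s)` and its growth
-/

set_option autoImplicit false

namespace Pool.Agent.H14.CO

open Set MeasureTheory Complex

theorem Zt_eq (s : ℂ) (hs : s ≠ 1) : Zt s = (s - 1) * riemannZeta s := by
  unfold Zt
  rw [Function.update_of_ne hs]

/-- removable singularity at `1` (`riemannZeta_residue_one`). -/
theorem differentiable_Zt : Differentiable ℂ Zt := by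
  rw [← differentiableOn_univ, ← differentiableOn_compl_singleton_and_continuousAt_iff
    (c := (1 : ℂ)) Filter.univ_mem]
  constructor
  · intro s hs
    have hs1 : s ≠ 1 := by
      intro h
      exact hs.2 (by simp [h])
    have hd : DifferentiableAt ℂ (fun s : ℂ => (s - 1) * riemannZeta s) s :=
      (differentiableAt_id.sub_const 1).mul (differentiableAt_riemannZeta hs1)
    have he : Zt =ᶠ[nhds s] (fun s : ℂ => (s - 1) * riemannZeta s) := by
      have hn : ({1}ᶜ : Set ℂ) ∈ nhds s := isOpen_compl_singleton.mem_nhds (by simpa using hs1)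
      filter_upwards [hn] with z hz
      exact Zt_eq z (by simpa using hz)
    exact (hd.congr_of_eventuallyEq he).differentiableWithinAt
  · unfold Zt
    rw [continuousAt_update_same]
    exact riemannZeta_residue_one

private theorem ZetaG_sub_one (s : ℂ) : ‖s - 1‖ ≤ 1 + ‖s‖ := by
  calc ‖s - 1‖ ≤ ‖s‖ + ‖(1 : ℂ)‖ := norm_sub_le _ _
    _ = 1 + ‖s‖ := by rw [norm_one]; ring

private theorem ZetaG_compact : ∃ K : ℝ, 0 < K ∧ ∀ s : ℂ, -1 / 2 ≤ s.re → s.re ≤ 2 → |s.im| ≤ 1 →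
    ‖Zt s‖ ≤ K := by
  have hc : IsCompact (Metric.closedBall (0 : ℂ) 3) := isCompact_closedBall 0 3
  obtain ⟨K, hK⟩ := hc.exists_bound_of_continuousOn differentiable_Zt.continuous.continuousOn
  refine ⟨max K 1, lt_of_lt_of_le one_pos (le_max_right _ _), fun s h1 h2 h3 => ?_⟩
  refine (hK s ?_).trans (le_max_left _ _)
  rw [mem_closedBall_zero_iff]
  calc ‖s‖ ≤ |s.re| + |s.im| := Complex.norm_le_abs_re_add_abs_im s
    _ ≤ 2 + 1 := by
        have : |s.re| ≤ 2 := abs_le.mpr ⟨by linarith, h2⟩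
        linarith
    _ = 3 := by norm_num

/-- `‖(s-1) ζ(s)‖ ≤ C (1+‖s‖)^{B+3}` for `Re s ≥ -B`.

PROOF. `Re s ≥ -1/2`: `Pool.Agent.H95.GC.zeta_growth` for `|Im s| ≥ 1` (file H95/GC/ZetaForm), and for
`|Im s| ≤ 1` either `Pool.Agent.H95.GC.zeta_formula` or (for `Re s ≥ 2`) the bound `ζ = O(1)` and
compactness for `-1/2 ≤ Re s ≤ 2`. `-B ≤ Re s ≤ -1/2`: `ch_fe` with `w = 1 - s` and `ch_growth`,
`ζ(w)` bounded for `Re w ≥ 3/2` (`Pool.Agent.H95.GC.zeta_right_upper`). -/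
theorem Zt_growth (B : ℝ) (hB : 1 ≤ B) : ∃ C : ℝ, 0 < C ∧ ∀ s : ℂ, -B ≤ s.re →
    ‖Zt s‖ ≤ C * (1 + ‖s‖) ^ (B + 3) := by
  obtain ⟨K, hK0, hK⟩ := ZetaG_compact
  obtain ⟨C1, hC10, hC1⟩ := ch_growth (B + 1) (by linarith)
  refine ⟨K + 5 * C1 + 5, by positivity, fun s hs => ?_⟩
  have hn : 0 ≤ ‖s‖ := norm_nonneg s
  have hbase : (1 : ℝ) ≤ 1 + ‖s‖ := by linarith
  have hbase0 : (0 : ℝ) < 1 + ‖s‖ := by linarith
  have hP1 : (1 : ℝ) ≤ (1 + ‖s‖) ^ (B + 3) := Real.one_le_rpow hbase (by linarith)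
  have hP0 : (0 : ℝ) ≤ (1 + ‖s‖) ^ (B + 3) := by linarith
  by_cases hre : -1 / 2 ≤ s.re
  · by_cases him : 1 ≤ |s.im|
    · have hs1 : s ≠ 1 := by
        rintro rfl
        simp at him
        linarith
      rw [Zt_eq s hs1, norm_mul]
      have h2 := Pool.Agent.H95.GC.zeta_growth s hre him
      have h3 : (1 + ‖s‖) ^ (3 : ℕ) ≤ (1 + ‖s‖) ^ (B + 3) := by
        rw [← Real.rpow_natCast]
        exact Real.rpow_le_rpow_of_exponent_le hbase (by push_cast; linarith)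
      calc ‖s - 1‖ * ‖riemannZeta s‖ ≤ (1 + ‖s‖) * (2 * (1 + ‖s‖) ^ 2) :=
            mul_le_mul (ZetaG_sub_one s) h2 (norm_nonneg _) hbase0.le
        _ = 2 * (1 + ‖s‖) ^ (3 : ℕ) := by ring
        _ ≤ 2 * (1 + ‖s‖) ^ (B + 3) := by linarith
        _ ≤ (K + 5 * C1 + 5) * (1 + ‖s‖) ^ (B + 3) :=
            mul_le_mul_of_nonneg_right (by linarith) hP0
    · push Not at him
      by_cases hre2 : s.re ≤ 2
      · calc ‖Zt s‖ ≤ K := hK s hre hre2 him.le
          _ ≤ K * (1 + ‖s‖) ^ (B + 3) := le_mul_of_one_le_right hK0.le hP1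
          _ ≤ (K + 5 * C1 + 5) * (1 + ‖s‖) ^ (B + 3) :=
              mul_le_mul_of_nonneg_right (by linarith) hP0
      · push Not at hre2
        have hs1 : s ≠ 1 := by
          rintro rfl
          simp at hre2
        rw [Zt_eq s hs1, norm_mul]
        have h2 := Pool.Agent.H95.GC.zeta_right_upper s (by linarith)
        have h3 : (1 + ‖s‖) ≤ (1 + ‖s‖) ^ (B + 3) := by
          calc (1 + ‖s‖) = (1 + ‖s‖) ^ (1 : ℝ) := (Real.rpow_one _).symm
            _ ≤ (1 + ‖s‖) ^ (B + 3) :=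
              Real.rpow_le_rpow_of_exponent_le hbase (by linarith)
        calc ‖s - 1‖ * ‖riemannZeta s‖ ≤ (1 + ‖s‖) * 5 :=
              mul_le_mul (ZetaG_sub_one s) h2 (norm_nonneg _) hbase0.le
          _ ≤ 5 * (1 + ‖s‖) ^ (B + 3) := by linarith
          _ ≤ (K + 5 * C1 + 5) * (1 + ‖s‖) ^ (B + 3) :=
            mul_le_mul_of_nonneg_right (by linarith) hP0
  · push Not at hre
    have hs1 : s ≠ 1 := by
      rintro rfl
      simp at hre
      linarith
    set w : ℂ := 1 - s with hw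
    have hwre : w.re = 1 - s.re := by simp [hw]
    have hwim : w.im = -s.im := by simp [hw]
    have hw1 : w ≠ 1 := by
      intro h
      have := congrArg Complex.re h
      rw [hwre] at this
      simp at this
      linarith
    have hfe := ch_fe w (by rw [hwre]; linarith) hw1
    have hws : 1 - w = s := by rw [hw]; ring
    rw [hws] at hfe
    have hcg := hC1 w (by rw [hwre]; linarith) (by rw [hwre]; linarith)
    have hz := Pool.Agent.H95.GC.zeta_right_upper w (by rw [hwre]; linarith)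
    have him : |w.im| ≤ ‖s‖ := by
      rw [hwim, abs_neg]
      exact Complex.abs_im_le_norm s
    have h4 : (1 + |w.im|) ^ w.re ≤ (1 + ‖s‖) ^ (B + 1) := by
      calc (1 + |w.im|) ^ w.re ≤ (1 + ‖s‖) ^ w.re :=
            Real.rpow_le_rpow (by positivity) (by linarith) (by rw [hwre]; linarith)
        _ ≤ (1 + ‖s‖) ^ (B + 1) :=
            Real.rpow_le_rpow_of_exponent_le hbase (by rw [hwre]; linarith)
    have h5 : (1 + ‖s‖) * (1 + ‖s‖) ^ (B + 1) ≤ (1 + ‖s‖) ^ (B + 3) := by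
      calc (1 + ‖s‖) * (1 + ‖s‖) ^ (B + 1)
          = (1 + ‖s‖) ^ (1 : ℝ) * (1 + ‖s‖) ^ (B + 1) := by rw [Real.rpow_one]
        _ = (1 + ‖s‖) ^ (1 + (B + 1)) := (Real.rpow_add hbase0 _ _).symm
        _ ≤ (1 + ‖s‖) ^ (B + 3) :=
            Real.rpow_le_rpow_of_exponent_le hbase (by linarith)
    rw [Zt_eq s hs1, hfe, norm_mul, norm_mul]
    have h6 : ‖ch w‖ * ‖riemannZeta w‖ ≤ (C1 * (1 + ‖s‖) ^ (B + 1)) * 5 := by
      refine mul_le_mul (hcg.trans ?_) hz (norm_nonneg _) (by positivity)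
      exact mul_le_mul_of_nonneg_left h4 hC10.le
    calc ‖s - 1‖ * (‖ch w‖ * ‖riemannZeta w‖)
        ≤ (1 + ‖s‖) * ((C1 * (1 + ‖s‖) ^ (B + 1)) * 5) :=
          mul_le_mul (ZetaG_sub_one s) h6 (by positivity) hbase0.le
      _ = 5 * C1 * ((1 + ‖s‖) * (1 + ‖s‖) ^ (B + 1)) := by ring
      _ ≤ 5 * C1 * (1 + ‖s‖) ^ (B + 3) := mul_le_mul_of_nonneg_left h5 (by positivity)
      _ ≤ (K + 5 * C1 + 5) * (1 + ‖s‖) ^ (B + 3) :=
          mul_le_mul_of_nonneg_right (by linarith) hP0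

end Pool.Agent.H14.CO
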