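import Pool.Agent.H14.CO.CutSum
import Pool.Agent.H14.CO.ZetaG
import Pool.Agent.H95.GC.Reflect

/-!
# CO module AFE: an approximate functional equation as a pointwise upper bound for `|ζ|`

Notation: `L = log T`, `h = L/3200`, `r₀ = (11/20) L` (so the cut-offs live at `l ≈ Y = T^{11/20}`).
-/

set_option autoImplicit false

namespace Pool.Agent.H14.CO

open Set MeasureTheory Complex

/-- `∑_l l^{-s} vc h (r - log l)` -/
noncomputable def Sc (h r : ℝ) (s : ℂ) : ℂ :=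
  ∑' l : ℕ, ((l + 1 : ℕ) : ℂ) ^ (-s) * vc h (r - Real.log (l + 1 : ℕ))

/-- `∑_l l^{-s} vd h (r - log l)` -/
noncomputable def Sd (h r : ℝ) (s : ℂ) : ℂ :=
  ∑' l : ℕ, ((l + 1 : ℕ) : ℂ) ^ (-s) * vd h (r - Real.log (l + 1 : ℕ))

private theorem AFE_gauss (n : ℕ) (y : ℝ) :
    (1 + |y|) ^ n * Real.exp (-y ^ 2) ≤ Real.exp (((n : ℝ) + 2) ^ 2 / 4) / (1 + y ^ 2) := by
  have hy : 0 ≤ |y| := abs_nonneg y
  have h1 : (0 : ℝ) < 1 + y ^ 2 := by positivity
  have hsq : y ^ 2 = |y| ^ 2 := (sq_abs y).symm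
  rw [le_div_iff₀ h1]
  have h2 : 1 + y ^ 2 ≤ (1 + |y|) ^ 2 := by
    rw [hsq]; nlinarith
  have h3 : (1 + |y|) ^ (n + 2) ≤ Real.exp (((n : ℝ) + 2) * |y|) := by
    have h4 : 1 + |y| ≤ Real.exp |y| := by linarith [Real.add_one_le_exp |y|]
    calc (1 + |y|) ^ (n + 2) ≤ (Real.exp |y|) ^ (n + 2) := pow_le_pow_left₀ (by linarith) h4 _
      _ = Real.exp (((n : ℝ) + 2) * |y|) := by
        rw [← Real.exp_nat_mul]; push_cast; rfl
  calc (1 + |y|) ^ n * Real.exp (-y ^ 2) * (1 + y ^ 2)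
      ≤ (1 + |y|) ^ n * Real.exp (-y ^ 2) * (1 + |y|) ^ 2 :=
        mul_le_mul_of_nonneg_left h2 (by positivity)
    _ = (1 + |y|) ^ (n + 2) * Real.exp (-y ^ 2) := by ring
    _ ≤ Real.exp (((n : ℝ) + 2) * |y|) * Real.exp (-y ^ 2) :=
        mul_le_mul_of_nonneg_right h3 (Real.exp_pos _).le
    _ = Real.exp (((n : ℝ) + 2) * |y| - y ^ 2) := by rw [← Real.exp_add]; ring_nf
    _ ≤ Real.exp (((n : ℝ) + 2) ^ 2 / 4) := by
        apply Real.exp_le_exp.mpr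
        rw [hsq]
        nlinarith [sq_nonneg (((n : ℝ) + 2) / 2 - |y|)]

private theorem AFE_kn (h : ℝ) (hh : 0 ≤ h) (z : ℂ) :
    ‖kn h z‖ ≤ 2 ^ 32 * Real.exp (32 * h * |z.re| + z.re ^ 2) * Real.exp (-z.im ^ 2) := by
  have h1 := norm_kn_le h hh z
  have h2 : (1 : ℝ) ≤ (1 + h * ‖z‖) ^ 32 := one_le_pow₀ (by nlinarith [norm_nonneg z])
  calc ‖kn h z‖ ≤ ‖kn h z‖ * (1 + h * ‖z‖) ^ 32 := le_mul_of_one_le_right (norm_nonneg _) h2
    _ ≤ 2 ^ 32 * Real.exp (32 * h * |z.re| + z.re ^ 2 - z.im ^ 2) := h1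
    _ = 2 ^ 32 * Real.exp (32 * h * |z.re| + z.re ^ 2) * Real.exp (-z.im ^ 2) := by
        rw [sub_eq_add_neg, Real.exp_add]; ring

/-- bound for `kn` on a strip `|Re z| ≤ A`, with a polynomial factor in `Im z`. -/
private theorem AFE_kn_strip (h A : ℝ) (hh : 0 ≤ h) (n : ℕ) :
    ∃ C : ℝ, 0 < C ∧ ∀ z : ℂ, |z.re| ≤ A →
      (1 + |z.im|) ^ n * ‖kn h z‖ ≤ C / (1 + z.im ^ 2) := by
  refine ⟨2 ^ 32 * Real.exp (32 * h * A + A ^ 2) * Real.exp (((n : ℝ) + 2) ^ 2 / 4), by positivity,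
    fun z hz => ?_⟩
  have hA : 0 ≤ A := (abs_nonneg _).trans hz
  have h1 := AFE_kn h hh z
  have h2 : Real.exp (32 * h * |z.re| + z.re ^ 2) ≤ Real.exp (32 * h * A + A ^ 2) := by
    apply Real.exp_le_exp.mpr
    have h3 : 32 * h * |z.re| ≤ 32 * h * A := mul_le_mul_of_nonneg_left hz (by positivity)
    have h4 : z.re ^ 2 ≤ A ^ 2 := by
      rw [← sq_abs z.re]
      exact pow_le_pow_left₀ (abs_nonneg _) hz 2
    linarith
  have h5 : ‖kn h z‖ ≤ 2 ^ 32 * Real.exp (32 * h * A + A ^ 2) * Real.exp (-z.im ^ 2) :=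
    h1.trans (mul_le_mul_of_nonneg_right (mul_le_mul_of_nonneg_left h2 (by positivity))
      (Real.exp_pos _).le)
  calc (1 + |z.im|) ^ n * ‖kn h z‖
      ≤ (1 + |z.im|) ^ n * (2 ^ 32 * Real.exp (32 * h * A + A ^ 2) * Real.exp (-z.im ^ 2)) :=
        mul_le_mul_of_nonneg_left h5 (by positivity)
    _ = 2 ^ 32 * Real.exp (32 * h * A + A ^ 2) * ((1 + |z.im|) ^ n * Real.exp (-z.im ^ 2)) := by
        ring
    _ ≤ 2 ^ 32 * Real.exp (32 * h * A + A ^ 2) *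
        (Real.exp (((n : ℝ) + 2) ^ 2 / 4) / (1 + z.im ^ 2)) :=
        mul_le_mul_of_nonneg_left (AFE_gauss n z.im) (by positivity)
    _ = _ := by rw [mul_div_assoc]

/-- polynomial growth of `Zt (s + z)` for `z` in a strip. -/
private theorem AFE_Zt_strip (s : ℂ) (A : ℝ) :
    ∃ C : ℝ, 0 < C ∧ ∀ z : ℂ, -100 ≤ s.re + z.re → |z.re| ≤ A →
      ‖Zt (s + z)‖ ≤ C * (1 + |z.im|) ^ 103 := by
  obtain ⟨C, hC0, hC⟩ := Zt_growth 100 (by norm_num)
  refine ⟨C * (1 + ‖s‖ + |A|) ^ 103, by positivity, fun z h1 h2 => ?_⟩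
  have h3 := hC (s + z) (by simpa using h1)
  have h4 : (1 + ‖s + z‖) ^ ((100 : ℝ) + 3) = (1 + ‖s + z‖) ^ (103 : ℕ) := by
    rw [← Real.rpow_natCast]; norm_num
  rw [h4] at h3
  have h5 : 1 + ‖s + z‖ ≤ (1 + ‖s‖ + |A|) * (1 + |z.im|) := by
    have h6 : ‖s + z‖ ≤ ‖s‖ + (|z.re| + |z.im|) :=
      (norm_add_le _ _).trans (by linarith [Complex.norm_le_abs_re_add_abs_im z])
    have h7 : |z.re| ≤ |A| := h2.trans (le_abs_self A)
    have h8 : 0 ≤ (‖s‖ + |A|) * |z.im| := by positivity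
    have h9 : (1 + ‖s‖ + |A|) * (1 + |z.im|) =
        1 + ‖s‖ + |A| + |z.im| + (‖s‖ + |A|) * |z.im| := by ring
    rw [h9]
    linarith only [h6, h7, h8]
  calc ‖Zt (s + z)‖ ≤ C * (1 + ‖s + z‖) ^ 103 := h3
    _ ≤ C * ((1 + ‖s‖ + |A|) * (1 + |z.im|)) ^ 103 :=
        mul_le_mul_of_nonneg_left (pow_le_pow_left₀ (by positivity) h5 103) hC0.le
    _ = C * (1 + ‖s‖ + |A|) ^ 103 * (1 + |z.im|) ^ 103 := by rw [mul_pow, mul_assoc]

private theorem AFE_exp_norm (z : ℂ) (r : ℝ) : ‖Complex.exp (z * r)‖ = Real.exp (z.re * r) := by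
  rw [Complex.norm_exp]
  congr 1
  simp

/-- The total integrand without `1/z`. -/
private noncomputable def AFE_G (h r : ℝ) (s z : ℂ) : ℂ :=
  Zt (s + z) / (s - 1) * (Complex.exp (z * r) * kn h z)

private theorem AFE_G_diff (h r : ℝ) (s z : ℂ) : DifferentiableAt ℂ (AFE_G h r s) z := by
  unfold AFE_G
  have h1 : DifferentiableAt ℂ (fun z : ℂ => Zt (s + z)) z :=
    (differentiable_Zt (s + z)).comp z ((differentiableAt_id).const_add s)
  have h2 : DifferentiableAt ℂ (fun z : ℂ => Complex.exp (z * r)) z := by fun_prop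
  exact (h1.div_const _).mul (h2.mul (differentiable_kn h z))

private theorem AFE_G_bound (h r : ℝ) (hh : 0 < h) (s : ℂ) (hs1 : 1 / 2 < s.re) (hs2 : s.re ≤ 3 / 4) :
    ∃ C : ℝ, ∀ z : ℂ, -100 - s.re ≤ z.re → z.re ≤ 1 → ‖AFE_G h r s z‖ ≤ C / (1 + z.im ^ 2) := by
  obtain ⟨C1, hC10, hC1⟩ := AFE_Zt_strip s 101
  obtain ⟨C2, hC20, hC2⟩ := AFE_kn_strip h 101 hh.le 103
  refine ⟨C1 / ‖s - 1‖ * Real.exp (101 * |r|) * C2, fun z h1 h2 => ?_⟩
  have hz : |z.re| ≤ 101 := abs_le.mpr ⟨by linarith, by linarith⟩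
  have h3 := hC1 z (by linarith) hz
  have h4 := hC2 z hz
  have h5 : ‖Complex.exp (z * r)‖ ≤ Real.exp (101 * |r|) := by
    rw [AFE_exp_norm]
    apply Real.exp_le_exp.mpr
    calc z.re * r ≤ |z.re * r| := le_abs_self _
      _ = |z.re| * |r| := abs_mul _ _
      _ ≤ 101 * |r| := mul_le_mul_of_nonneg_right hz (abs_nonneg r)
  unfold AFE_G
  rw [norm_mul, norm_div, norm_mul]
  calc ‖Zt (s + z)‖ / ‖s - 1‖ * (‖Complex.exp (z * r)‖ * ‖kn h z‖)
      ≤ (C1 * (1 + |z.im|) ^ 103) / ‖s - 1‖ * (Real.exp (101 * |r|) * ‖kn h z‖) := by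
        gcongr
    _ = C1 / ‖s - 1‖ * Real.exp (101 * |r|) * ((1 + |z.im|) ^ 103 * ‖kn h z‖) := by ring
    _ ≤ C1 / ‖s - 1‖ * Real.exp (101 * |r|) * (C2 / (1 + z.im ^ 2)) :=
        mul_le_mul_of_nonneg_left h4 (by positivity)
    _ = _ := by rw [mul_div_assoc]

private theorem AFE_right_int (h r : ℝ) (hh : 0 < h) (s : ℂ) (hs1 : 1 / 2 < s.re) :
    Integrable (fun y : ℝ => riemannZeta (s + (((1 : ℝ) : ℂ) + y * I)) *
          (Complex.exp ((((1 : ℝ) : ℂ) + y * I) * r) *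
            (kn h (((1 : ℝ) : ℂ) + y * I) / (((1 : ℝ) : ℂ) + y * I)))) ∧
    Integrable (fun y : ℝ => riemannZeta (s + (((1 : ℝ) : ℂ) + y * I)) *
          (Complex.exp ((((1 : ℝ) : ℂ) + y * I) * r) * kn h (((1 : ℝ) : ℂ) + y * I))) := by
  obtain ⟨C2, hC20, hC2⟩ := AFE_kn_strip h 1 hh.le 0
  have hre : ∀ y : ℝ, (((1 : ℝ) : ℂ) + y * I).re = 1 := by intro y; simp
  have him : ∀ y : ℝ, (((1 : ℝ) : ℂ) + y * I).im = y := by intro y; simp
  have hzeta : ∀ y : ℝ, ‖riemannZeta (s + (((1 : ℝ) : ℂ) + y * I))‖ ≤ 5 := by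
    intro y
    apply Pool.Agent.H95.GC.zeta_right_upper
    rw [add_re, hre]; linarith
  have hkn : ∀ y : ℝ, ‖kn h (((1 : ℝ) : ℂ) + y * I)‖ ≤ C2 / (1 + y ^ 2) := by
    intro y
    have := hC2 (((1 : ℝ) : ℂ) + y * I) (by rw [hre]; simp)
    rw [him] at this
    simpa using this
  have hexp : ∀ y : ℝ, ‖Complex.exp ((((1 : ℝ) : ℂ) + y * I) * r)‖ = Real.exp r := by
    intro y; rw [AFE_exp_norm, hre, one_mul]
  have hone : ∀ y : ℝ, 1 ≤ ‖(((1 : ℝ) : ℂ) + y * I)‖ := by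
    intro y
    have := Complex.abs_re_le_norm (((1 : ℝ) : ℂ) + y * I)
    rw [hre, abs_one] at this
    exact this
  have hne : ∀ y : ℝ, (((1 : ℝ) : ℂ) + y * I) ≠ 0 := by
    intro y hy
    have := hone y
    rw [hy, norm_zero] at this
    linarith
  have hcz : ∀ y : ℝ, ContinuousAt (fun z : ℂ => riemannZeta (s + z)) (((1 : ℝ) : ℂ) + y * I) := by
    intro y
    have hn1 : s + (((1 : ℝ) : ℂ) + y * I) ≠ 1 := by
      intro hc
      have := congrArg Complex.re hc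
      rw [add_re, hre, one_re] at this
      linarith
    have h1 : DifferentiableAt ℂ (fun z : ℂ => riemannZeta (s + z)) (((1 : ℝ) : ℂ) + y * I) :=
      (differentiableAt_riemannZeta hn1).comp _ ((differentiableAt_id).const_add s)
    exact h1.continuousAt
  constructor
  · refine line_integrable (fun z => riemannZeta (s + z) * (Complex.exp (z * r) * (kn h z / z))) 1
      (fun y => ?_) (5 * (Real.exp r * C2)) (fun y => ?_)
    · refine (hcz y).mul (ContinuousAt.mul (by fun_prop) ?_)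
      exact ((differentiable_kn h _).continuousAt).div continuousAt_id (hne y)
    · rw [norm_mul, norm_mul, norm_div, hexp]
      have h6 : ‖kn h (((1 : ℝ) : ℂ) + y * I)‖ / ‖(((1 : ℝ) : ℂ) + y * I)‖ ≤ C2 / (1 + y ^ 2) :=
        (div_le_self (norm_nonneg _) (hone y)).trans (hkn y)
      calc _ ≤ 5 * (Real.exp r * (C2 / (1 + y ^ 2))) :=
            mul_le_mul (hzeta y) (mul_le_mul_of_nonneg_left h6 (Real.exp_pos r).le)
              (by positivity) (by norm_num)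
        _ = _ := by ring
  · refine line_integrable (fun z => riemannZeta (s + z) * (Complex.exp (z * r) * kn h z)) 1
      (fun y => ?_) (5 * (Real.exp r * C2)) (fun y => ?_)
    · refine (hcz y).mul (ContinuousAt.mul (by fun_prop) ?_)
      exact (differentiable_kn h _).continuousAt
    · rw [norm_mul, norm_mul, hexp]
      calc _ ≤ 5 * (Real.exp r * (C2 / (1 + y ^ 2))) :=
            mul_le_mul (hzeta y) (mul_le_mul_of_nonneg_left (hkn y) (Real.exp_pos r).le)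
              (by positivity) (by norm_num)
        _ = _ := by ring

/-- First step. For `1/2 < Re s ≤ 3/4`, `h ≥ 1`, any real `r`:
`ζ(s) = Sc h r s + Sd h r s / (s-1) - (1/2π) ∫_{Re (s+z) = -100} (Zt (s+z)/(s-1)) e^{zr} kn h z / z dy`.

PROOF. By `tsum_vc`, `tsum_vd` with `σ = 1`: the two sums are
`(1/2π) ∫_{(1)} ζ(s+z) (1 + z/(s-1)) e^{zr} kn h z/z dy = (1/2π) ∫_{(1)} (Zt (s+z)/(s-1)) e^{zr} kn h z / z dy`
(`(s+z-1) ζ(s+z) = Zt (s+z)`); `Zt` is entire, so `line_residue` on the strip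
`-100 - Re s ≤ Re z ≤ 1` (growth: `Zt_growth`) gives the value `Zt s/(s-1) = ζ(s)` at `z = 0` plus the
integral over the left line. -/
theorem afe_one (h r : ℝ) (hh : 0 < h) (s : ℂ) (hs1 : 1 / 2 < s.re) (hs2 : s.re ≤ 3 / 4) :
    riemannZeta s = Sc h r s + Sd h r s / (s - 1) -
      (1 / (2 * Real.pi) : ℝ) * ∫ y : ℝ, (Zt (s + ((-100 - s.re : ℝ) + y * I)) / (s - 1)) *
        (Complex.exp (((-100 - s.re : ℝ) + y * I) * r) *
          (kn h ((-100 - s.re : ℝ) + y * I) / ((-100 - s.re : ℝ) + y * I))) := by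
  have hsne : s ≠ 1 := by
    intro hc
    rw [hc, one_re] at hs2
    norm_num at hs2
  have hs0 : s - 1 ≠ 0 := sub_ne_zero.mpr hsne
  obtain ⟨C, hC⟩ := AFE_G_bound h r hh s hs1 hs2
  have hres := line_residue (AFE_G h r s) (-100 - s.re) 1 (by linarith) one_pos
    (fun z _ _ => AFE_G_diff h r s z) C hC
  have hG0 : AFE_G h r s 0 = riemannZeta s := by
    unfold AFE_G
    rw [add_zero, zero_mul, Complex.exp_zero, kn_zero, Zt_eq s hsne]
    field_simp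
  rw [hG0] at hres
  obtain ⟨hI1, hI2⟩ := AFE_right_int h r hh s hs1
  have hSc := tsum_vc h r hh s 1 one_pos (by linarith)
  have hSd := tsum_vd h r hh s 1 (by linarith)
  have hR : Sc h r s + Sd h r s / (s - 1) = (1 / (2 * Real.pi) : ℝ) *
      ∫ y : ℝ, AFE_G h r s (((1 : ℝ) : ℂ) + y * I) / (((1 : ℝ) : ℂ) + y * I) := by
    unfold Sc Sd
    rw [hSc, hSd, mul_div_assoc, ← mul_add, ← integral_div, ← integral_add hI1 (hI2.div_const _)]
    congr 1
    refine integral_congr_ae (Filter.Eventually.of_forall fun y => ?_)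
    simp only [AFE_G]
    have hre : (((1 : ℝ) : ℂ) + y * I).re = 1 := by simp
    have hz0 : (((1 : ℝ) : ℂ) + y * I) ≠ 0 := by
      intro hc
      have := congrArg Complex.re hc
      rw [hre, zero_re] at this
      norm_num at this
    have hn1 : s + (((1 : ℝ) : ℂ) + y * I) ≠ 1 := by
      intro hc
      have := congrArg Complex.re hc
      rw [add_re, hre, one_re] at this
      linarith
    rw [Zt_eq _ hn1]
    generalize (((1 : ℝ) : ℂ) + y * I) = z at *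
    field_simp
    ring
  have hL : ∫ y : ℝ, (Zt (s + ((-100 - s.re : ℝ) + y * I)) / (s - 1)) *
        (Complex.exp (((-100 - s.re : ℝ) + y * I) * r) *
          (kn h ((-100 - s.re : ℝ) + y * I) / ((-100 - s.re : ℝ) + y * I))) =
      ∫ y : ℝ, AFE_G h r s (((-100 - s.re : ℝ) : ℂ) + y * I) / (((-100 - s.re : ℝ) : ℂ) + y * I) := by
    refine integral_congr_ae (Filter.Eventually.of_forall fun y => ?_)
    simp only [AFE_G]
    rw [mul_div_assoc, mul_div_assoc]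
  rw [hL, hR, ← mul_sub, hres]
  have hpi : (Real.pi : ℂ) ≠ 0 := by exact_mod_cast Real.pi_ne_zero
  push_cast
  field_simp

private theorem AFE_term_norm (l : ℕ) (w : ℂ) :
    ‖((l + 1 : ℕ) : ℂ) ^ (-w)‖ = ((l + 1 : ℕ) : ℝ) ^ (-w.re) := by
  rw [Complex.norm_natCast_cpow_of_pos (Nat.succ_pos l), neg_re]

private theorem AFE_term_le (l : ℕ) (w : ℂ) (c : ℝ) (hc : c ≤ w.re) (v : ℂ) :
    ‖((l + 1 : ℕ) : ℂ) ^ (-w) * v‖ ≤ ‖((l + 1 : ℕ) : ℂ) ^ (-(c : ℂ)) * v‖ := by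
  rw [norm_mul, norm_mul, AFE_term_norm, AFE_term_norm, ofReal_re]
  refine mul_le_mul_of_nonneg_right ?_ (norm_nonneg _)
  exact Real.rpow_le_rpow_of_exponent_le
    (by exact_mod_cast Nat.succ_le_succ (Nat.zero_le l)) (by linarith)

private theorem AFE_Sc_bound (h r : ℝ) (hh : 0 < h) (c : ℝ) :
    ∃ K : ℝ, 0 ≤ K ∧ ∀ w : ℂ, c ≤ w.re → ‖Sc h r w‖ ≤ K := by
  refine ⟨∑' l : ℕ, ‖((l + 1 : ℕ) : ℂ) ^ (-(c : ℂ)) * vc h (r - Real.log (l + 1 : ℕ))‖,
    tsum_nonneg (fun _ => norm_nonneg _), fun w hw => ?_⟩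
  unfold Sc
  exact tsum_of_norm_bounded (summable_vc h r hh c).hasSum (fun l => AFE_term_le l w c hw _)

private theorem AFE_Sc_diff (h r : ℝ) (hh : 0 < h) : Differentiable ℂ (Sc h r) := by
  intro s
  have hU : IsOpen {w : ℂ | s.re - 1 < w.re} := isOpen_lt continuous_const Complex.continuous_re
  have hs : s ∈ {w : ℂ | s.re - 1 < w.re} := by
    change s.re - 1 < s.re
    linarith
  have hd : DifferentiableOn ℂ (fun w : ℂ => ∑' l : ℕ, ((l + 1 : ℕ) : ℂ) ^ (-w) *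
      vc h (r - Real.log (l + 1 : ℕ))) {w : ℂ | s.re - 1 < w.re} := by
    refine differentiableOn_tsum_of_summable_norm (summable_vc h r hh ((s.re - 1 : ℝ) : ℂ))
      (fun l => ?_) hU (fun l w hw => AFE_term_le l w _ (le_of_lt hw) _)
    intro w _
    have h1 : DifferentiableAt ℂ (fun w : ℂ => ((l + 1 : ℕ) : ℂ) ^ (-w)) w :=
      (differentiableAt_id.neg).const_cpow (Or.inl (Nat.cast_ne_zero.mpr (Nat.succ_ne_zero l)))
    exact (h1.mul_const _).differentiableWithinAt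
  exact (hd s hs).differentiableAt (hU.mem_nhds hs)

private theorem AFE_Sc_conj (h r : ℝ) (w : ℂ) :
    Sc h r ((starRingEnd ℂ) w) = (starRingEnd ℂ) (Sc h r w) := by
  unfold Sc
  rw [conj_tsum]
  refine tsum_congr fun l => ?_
  have harg : (((l + 1 : ℕ) : ℂ)).arg ≠ Real.pi := by
    rw [Complex.natCast_arg]; exact Real.pi_ne_zero.symm
  rw [map_mul, vc_conj, ← map_neg, Complex.cpow_conj _ _ harg, Complex.conj_natCast]

private theorem AFE_rest : ∃ C : ℝ, 0 < C ∧ ∀ h r : ℝ, 1 ≤ h → ∀ w : ℂ, w.re = 101 →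
    ‖riemannZeta w - Sc h r w‖ ≤ C * Real.exp (-(199 / 2) * r + 3184 * h) := by
  obtain ⟨C, hC0, hC⟩ := vc_bound' (199 / 2) (by norm_num)
  have hsum : Summable (fun l : ℕ => ((l + 1 : ℕ) : ℝ) ^ (-(3 / 2 : ℝ))) :=
    (summable_nat_add_iff 1).mpr (Real.summable_nat_rpow.mpr (by norm_num))
  have hS0 : 0 ≤ ∑' l : ℕ, ((l + 1 : ℕ) : ℝ) ^ (-(3 / 2 : ℝ)) :=
    tsum_nonneg fun l => by positivity
  refine ⟨C * (∑' l : ℕ, ((l + 1 : ℕ) : ℝ) ^ (-(3 / 2 : ℝ))) + 1, by positivity,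
    fun h r hh w hw => ?_⟩
  have hz : riemannZeta w = ∑' l : ℕ, ((l + 1 : ℕ) : ℂ) ^ (-w) := by
    rw [zeta_eq_tsum_one_div_nat_add_one_cpow (by rw [hw]; norm_num)]
    refine tsum_congr fun l => ?_
    rw [cpow_neg, one_div]; push_cast; rfl
  have hzs : Summable (fun l : ℕ => ((l + 1 : ℕ) : ℂ) ^ (-w)) := by
    refine Summable.of_norm ?_
    have h1 : (fun l : ℕ => ‖((l + 1 : ℕ) : ℂ) ^ (-w)‖) =
        fun l : ℕ => ((l + 1 : ℕ) : ℝ) ^ (-(101 : ℝ)) := by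
      funext l
      rw [AFE_term_norm, hw]
    rw [h1]
    exact (summable_nat_add_iff (f := fun l : ℕ => (l : ℝ) ^ (-(101 : ℝ))) 1).mpr
      (Real.summable_nat_rpow.mpr (by norm_num))
  have hvs : Summable (fun l : ℕ => ((l + 1 : ℕ) : ℂ) ^ (-w) *
      vc h (r - Real.log (l + 1 : ℕ))) := (summable_vc h r (by linarith) w).of_norm
  rw [hz]
  unfold Sc
  rw [← hzs.tsum_sub hvs]
  have hb : ∀ l : ℕ, ‖((l + 1 : ℕ) : ℂ) ^ (-w) - ((l + 1 : ℕ) : ℂ) ^ (-w) *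
      vc h (r - Real.log (l + 1 : ℕ))‖ ≤
      (C * Real.exp (-(199 / 2) * r + 3184 * h)) * ((l + 1 : ℕ) : ℝ) ^ (-(3 / 2 : ℝ)) := by
    intro l
    have hN : (0 : ℝ) < ((l + 1 : ℕ) : ℝ) := by exact_mod_cast Nat.succ_pos l
    have h1 : ((l + 1 : ℕ) : ℂ) ^ (-w) - ((l + 1 : ℕ) : ℂ) ^ (-w) *
        vc h (r - Real.log (l + 1 : ℕ)) = ((l + 1 : ℕ) : ℂ) ^ (-w) *
        (1 - vc h (r - Real.log (l + 1 : ℕ))) := by ring
    rw [h1, norm_mul, AFE_term_norm, hw]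
    have h2 := hC h (r - Real.log (l + 1 : ℕ)) hh
    have h3 : Real.exp (-(199 / 2) * (r - Real.log (l + 1 : ℕ)) + 32 * h * (199 / 2)) =
        Real.exp (-(199 / 2) * r + 3184 * h) * ((l + 1 : ℕ) : ℝ) ^ (199 / 2 : ℝ) := by
      rw [Real.rpow_def_of_pos hN, ← Real.exp_add]
      congr 1
      ring
    have h4 : ((l + 1 : ℕ) : ℝ) ^ (-(101 : ℝ)) * ((l + 1 : ℕ) : ℝ) ^ (199 / 2 : ℝ) =
        ((l + 1 : ℕ) : ℝ) ^ (-(3 / 2 : ℝ)) := by
      rw [← Real.rpow_add hN]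
      norm_num
    calc ((l + 1 : ℕ) : ℝ) ^ (-(101 : ℝ)) * ‖1 - vc h (r - Real.log (l + 1 : ℕ))‖
        ≤ ((l + 1 : ℕ) : ℝ) ^ (-(101 : ℝ)) *
          (C * Real.exp (-(199 / 2) * (r - Real.log (l + 1 : ℕ)) + 32 * h * (199 / 2))) :=
          mul_le_mul_of_nonneg_left h2 (by positivity)
      _ = (C * Real.exp (-(199 / 2) * r + 3184 * h)) *
          (((l + 1 : ℕ) : ℝ) ^ (-(101 : ℝ)) * ((l + 1 : ℕ) : ℝ) ^ (199 / 2 : ℝ)) := by
          rw [h3]; ring
      _ = _ := by rw [h4]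
  refine (tsum_of_norm_bounded ((hsum.mul_left _).hasSum) hb).trans ?_
  rw [tsum_mul_left]
  have := (Real.exp_pos (-(199 / 2) * r + 3184 * h)).le
  nlinarith

/-- integrand after the functional equation, the part with `Sc`. -/
private noncomputable def AFE_F (h r : ℝ) (s z : ℂ) : ℂ :=
  (s + z - 1) / (s - 1) * ch (1 - s - z) * Sc h r (1 - s - z) *
    (Complex.exp (z * r) * (kn h z / z))

private theorem AFE_F_diff (h r : ℝ) (hh : 0 < h) (s z : ℂ) (hz : z ≠ 0) (hw : 0 < (1 - s - z).re) :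
    DifferentiableAt ℂ (AFE_F h r s) z := by
  unfold AFE_F
  have h1 : DifferentiableAt ℂ (fun z : ℂ => (s + z - 1) / (s - 1)) z := by fun_prop
  have hin : DifferentiableAt ℂ (fun z : ℂ => 1 - s - z) z := by fun_prop
  have h2 : DifferentiableAt ℂ (fun z : ℂ => ch (1 - s - z)) z :=
    (differentiableAt_ch (1 - s - z) hw).comp z hin
  have h3 : DifferentiableAt ℂ (fun z : ℂ => Sc h r (1 - s - z)) z :=
    (AFE_Sc_diff h r hh (1 - s - z)).comp z hin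
  have h4 : DifferentiableAt ℂ (fun z : ℂ => Complex.exp (z * r)) z := by fun_prop
  have h5 : DifferentiableAt ℂ (fun z : ℂ => kn h z / z) z :=
    (differentiable_kn h z).div differentiableAt_id hz
  exact ((h1.mul h2).mul h3).mul (h4.mul h5)

private theorem AFE_frac (s z : ℂ) (hs : 1 / 4 ≤ ‖s - 1‖) :
    ‖(s + z - 1) / (s - 1)‖ ≤ 1 + 4 * ‖z‖ := by
  have h0 : s - 1 ≠ 0 := by
    intro hc
    rw [hc, norm_zero] at hs
    norm_num at hs
  have h1 : (s + z - 1) / (s - 1) = 1 + z / (s - 1) := by field_simp; ring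
  rw [h1]
  refine (norm_add_le _ _).trans ?_
  rw [norm_one, norm_div]
  have h2 : ‖z‖ / ‖s - 1‖ ≤ 4 * ‖z‖ := by
    rw [div_le_iff₀ (by linarith)]
    nlinarith [norm_nonneg z]
  linarith

private theorem AFE_one_add (z : ℂ) (hz : |z.re| ≤ 101) : 1 + 4 * ‖z‖ ≤ 405 * (1 + |z.im|) := by
  have := Complex.norm_le_abs_re_add_abs_im z
  have := abs_nonneg z.im
  linarith

private theorem AFE_alg1 (Y R Cc K E x k : ℝ) :
    (405 * Y) * (Cc * (R * Y ^ 101)) * K * (E * (k / x)) =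
      405 * (Cc * R) * K * (E / x) * (Y ^ 102 * k) := by ring

private theorem AFE_alg2 (Y k x K : ℝ) : (405 * Y) * (k / x) * K = 405 * K / x * (Y ^ 1 * k) := by
  ring

/-- bound of `AFE_F` on the strip. -/
private theorem AFE_F_bound (h r : ℝ) (hh : 0 < h) (x t : ℝ) (hx0 : 0 < x) (hx1 : x ≤ 1 / 4)
    (s : ℂ) (hs : s = 1 / 2 + x + t * I) (hs4 : 1 / 4 ≤ ‖s - 1‖) :
    ∃ C : ℝ, ∀ z : ℂ, -100 - s.re ≤ z.re → z.re ≤ -x → ‖AFE_F h r s z‖ ≤ C / (1 + z.im ^ 2) := by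
  have hsre : s.re = 1 / 2 + x := by rw [hs]; simp
  have hsim : s.im = t := by rw [hs]; simp
  obtain ⟨K, hK0, hK⟩ := AFE_Sc_bound h r hh (1 / 2)
  obtain ⟨Cc, hCc0, hCc⟩ := ch_growth 101 (by norm_num)
  obtain ⟨C2, hC20, hC2⟩ := AFE_kn_strip h 101 hh.le 102
  refine ⟨405 * (Cc * (1 + |t|) ^ 101) * K * (Real.exp (101 * |r|) / x) * C2, fun z h1 h2 => ?_⟩
  have hz : |z.re| ≤ 101 := abs_le.mpr ⟨by linarith, by linarith⟩
  have hwre : (1 - s - z).re = 1 - s.re - z.re := by simp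
  have hwim : (1 - s - z).im = -(t + z.im) := by simp [hsim]; ring
  have hw1 : 1 / 2 ≤ (1 - s - z).re := by rw [hwre]; linarith
  have hw2 : (1 - s - z).re ≤ 101 := by rw [hwre]; linarith
  have hy0 : 0 ≤ |z.im| := abs_nonneg _
  have ht0 : 0 ≤ |t| := abs_nonneg _
  have hch : ‖ch (1 - s - z)‖ ≤ Cc * ((1 + |t|) ^ 101 * (1 + |z.im|) ^ 101) := by
    refine (hCc _ hw1 hw2).trans (mul_le_mul_of_nonneg_left ?_ hCc0.le)
    have h3 : 1 + |(1 - s - z).im| ≤ (1 + |t|) * (1 + |z.im|) := by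
      rw [hwim, abs_neg]
      have e1 := abs_add_le t z.im
      have e2 := mul_nonneg ht0 hy0
      have e3 : (1 + |t|) * (1 + |z.im|) = 1 + |t| + |z.im| + |t| * |z.im| := by ring
      rw [e3]
      linarith only [e1, e2]
    calc (1 + |(1 - s - z).im|) ^ (1 - s - z).re ≤ (1 + |(1 - s - z).im|) ^ (101 : ℝ) :=
          Real.rpow_le_rpow_of_exponent_le (by linarith [abs_nonneg (1 - s - z).im]) hw2
      _ = (1 + |(1 - s - z).im|) ^ (101 : ℕ) := by rw [← Real.rpow_natCast]; norm_num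
      _ ≤ ((1 + |t|) * (1 + |z.im|)) ^ 101 := pow_le_pow_left₀ (by positivity) h3 101
      _ = _ := by rw [mul_pow]
  have hexp : ‖Complex.exp (z * r)‖ ≤ Real.exp (101 * |r|) := by
    rw [AFE_exp_norm]
    apply Real.exp_le_exp.mpr
    calc z.re * r ≤ |z.re * r| := le_abs_self _
      _ = |z.re| * |r| := abs_mul _ _
      _ ≤ 101 * |r| := mul_le_mul_of_nonneg_right hz (abs_nonneg r)
  have hzx : x ≤ ‖z‖ := by
    have h3 := Complex.abs_re_le_norm z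
    have h4 : -z.re ≤ |z.re| := neg_le_abs _
    linarith only [h2, h3, h4]
  have hkz : ‖kn h z / z‖ ≤ ‖kn h z‖ / x := by
    rw [norm_div]
    exact div_le_div_of_nonneg_left (norm_nonneg _) hx0 hzx
  have hkn := hC2 z hz
  unfold AFE_F
  rw [norm_mul, norm_mul, norm_mul, norm_mul]
  calc ‖(s + z - 1) / (s - 1)‖ * ‖ch (1 - s - z)‖ * ‖Sc h r (1 - s - z)‖ *
        (‖Complex.exp (z * r)‖ * ‖kn h z / z‖)
      ≤ (405 * (1 + |z.im|)) * (Cc * ((1 + |t|) ^ 101 * (1 + |z.im|) ^ 101)) * K *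
        (Real.exp (101 * |r|) * (‖kn h z‖ / x)) := by
        gcongr
        · exact (AFE_frac s z hs4).trans (AFE_one_add z hz)
        · exact hK _ hw1
    _ = 405 * (Cc * (1 + |t|) ^ 101) * K * (Real.exp (101 * |r|) / x) *
        ((1 + |z.im|) ^ 102 * ‖kn h z‖) := AFE_alg1 _ _ _ _ _ _ _
    _ ≤ 405 * (Cc * (1 + |t|) ^ 101) * K * (Real.exp (101 * |r|) / x) * (C2 / (1 + z.im ^ 2)) :=
        mul_le_mul_of_nonneg_left hkn (by positivity)
    _ = _ := by rw [mul_div_assoc]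

/-- The critical line part. -/
private theorem AFE_crit (h r : ℝ) (hh : 0 < h) (hr : 0 ≤ r) (x t : ℝ) (hx0 : 0 < x) (hx1 : x ≤ 1 / 4)
    (s : ℂ) (hs : s = 1 / 2 + x + t * I) (hs4 : 1 / 4 ≤ ‖s - 1‖) :
    ‖∫ y : ℝ, AFE_F h r s (((-x : ℝ) : ℂ) + y * I)‖ ≤
      ∫ y : ℝ, (1 + 4 * ‖(-x + y * I : ℂ)‖) * ‖kn h (-x + y * I) / (-x + y * I)‖ *
        ‖Sc h r (1 / 2 + (t + y) * I)‖ := by
  obtain ⟨K, hK0, hK⟩ := AFE_Sc_bound h r hh (1 / 2)
  obtain ⟨C2, hC20, hC2⟩ := AFE_kn_strip h 101 hh.le 1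
  have hcast : ((-x : ℝ) : ℂ) = -(x : ℂ) := by push_cast; rfl
  have hre : ∀ y : ℝ, (-(x : ℂ) + y * I).re = -x := by intro y; simp
  have him : ∀ y : ℝ, (-(x : ℂ) + y * I).im = y := by intro y; simp
  have hne : ∀ y : ℝ, (-(x : ℂ) + y * I) ≠ 0 := by
    intro y hc
    have := congrArg Complex.re hc
    rw [hre, zero_re] at this
    linarith
  have hzx : ∀ y : ℝ, x ≤ ‖(-(x : ℂ) + y * I)‖ := by
    intro y
    have h3 := Complex.abs_re_le_norm (-(x : ℂ) + y * I)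
    rw [hre, abs_neg, abs_of_pos hx0] at h3
    exact h3
  have hreS : ∀ y : ℝ, (1 / 2 + ((t : ℂ) + y) * I).re = 1 / 2 := by
    intro y
    simp
  have hint : Integrable (fun y : ℝ => (1 + 4 * ‖(-x + y * I : ℂ)‖) *
      ‖kn h (-x + y * I) / (-x + y * I)‖ * ‖Sc h r (1 / 2 + (t + y) * I)‖) := by
    refine Integrable.mono' (g := fun y : ℝ => 405 * K / x * C2 * (1 + y ^ 2)⁻¹)
      (integrable_inv_one_add_sq.const_mul _) ?_ ?_
    · refine Continuous.aestronglyMeasurable ?_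
      have hz : Continuous (fun y : ℝ => (-(x : ℂ) + y * I)) := by fun_prop
      have h1 : Continuous (fun y : ℝ => kn h (-(x : ℂ) + y * I)) :=
        (differentiable_kn h).continuous.comp hz
      have h2 : Continuous (fun y : ℝ => kn h (-(x : ℂ) + y * I) / (-(x : ℂ) + y * I)) :=
        h1.div hz hne
      have h3 : Continuous (fun y : ℝ => Sc h r (1 / 2 + ((t : ℂ) + y) * I)) :=
        (AFE_Sc_diff h r hh).continuous.comp (by fun_prop)
      exact ((continuous_const.add (continuous_const.mul hz.norm)).mul h2.norm).mul h3.norm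
    · refine Filter.Eventually.of_forall fun y => ?_
      have h0 : |(-(x : ℂ) + y * I).re| ≤ 101 := by
        rw [hre, abs_neg, abs_of_pos hx0]; linarith
      have h1 := AFE_one_add _ h0
      have h2 := hC2 _ h0
      have h3 := hK (1 / 2 + ((t : ℂ) + y) * I) (hreS y).ge
      have h4 : ‖kn h (-(x : ℂ) + y * I) / (-(x : ℂ) + y * I)‖ ≤ ‖kn h (-(x : ℂ) + y * I)‖ / x := by
        rw [norm_div]
        exact div_le_div_of_nonneg_left (norm_nonneg _) hx0 (hzx y)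
      rw [him] at h1 h2
      rw [Real.norm_of_nonneg (by positivity)]
      calc (1 + 4 * ‖(-(x : ℂ) + y * I)‖) * ‖kn h (-(x : ℂ) + y * I) / (-(x : ℂ) + y * I)‖ *
            ‖Sc h r (1 / 2 + ((t : ℂ) + y) * I)‖
          ≤ (405 * (1 + |y|)) * (‖kn h (-(x : ℂ) + y * I)‖ / x) * K := by
            gcongr
        _ = 405 * K / x * ((1 + |y|) ^ 1 * ‖kn h (-(x : ℂ) + y * I)‖) := AFE_alg2 _ _ _ _
        _ ≤ 405 * K / x * (C2 / (1 + y ^ 2)) :=
            mul_le_mul_of_nonneg_left h2 (by positivity)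
        _ = _ := by rw [div_eq_mul_inv C2, ← mul_assoc]
  refine norm_integral_le_of_norm_le hint (Filter.Eventually.of_forall fun y => ?_)
  rw [hcast]
  unfold AFE_F
  rw [norm_mul, norm_mul, norm_mul, norm_mul]
  have hw : (1 - s - (-(x : ℂ) + y * I)) = 1 / 2 + ((-(t + y) : ℝ) : ℂ) * I := by
    rw [hs]; push_cast; ring
  have hconj : (1 / 2 + ((-(t + y) : ℝ) : ℂ) * I) =
      (starRingEnd ℂ) (1 / 2 + ((t : ℂ) + y) * I) := by
    have h2 : (1 / 2 + ((t : ℂ) + y) * I) = (((1 / 2 : ℝ) : ℂ) + ((t + y : ℝ) : ℂ) * I) := by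
      push_cast; ring
    rw [h2, map_add, map_mul, conj_ofReal, conj_ofReal, conj_I]
    push_cast; ring
  have hch : ‖ch (1 - s - (-(x : ℂ) + y * I))‖ = 1 := by rw [hw, norm_ch_half]
  have hSc : ‖Sc h r (1 - s - (-(x : ℂ) + y * I))‖ = ‖Sc h r (1 / 2 + ((t : ℂ) + y) * I)‖ := by
    rw [hw, hconj, AFE_Sc_conj]
    exact RCLike.norm_conj _
  have hexp : ‖Complex.exp ((-(x : ℂ) + y * I) * r)‖ ≤ 1 := by
    rw [AFE_exp_norm, hre]
    apply Real.exp_le_one_iff.mpr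
    nlinarith
  rw [hch, hSc, mul_one]
  calc ‖(s + (-(x : ℂ) + y * I) - 1) / (s - 1)‖ * ‖Sc h r (1 / 2 + ((t : ℂ) + y) * I)‖ *
        (‖Complex.exp ((-(x : ℂ) + y * I) * r)‖ *
          ‖kn h (-(x : ℂ) + y * I) / (-(x : ℂ) + y * I)‖)
      ≤ (1 + 4 * ‖(-(x : ℂ) + y * I)‖) * ‖Sc h r (1 / 2 + ((t : ℂ) + y) * I)‖ *
        (1 * ‖kn h (-(x : ℂ) + y * I) / (-(x : ℂ) + y * I)‖) := by
        gcongr
        exact AFE_frac s _ hs4
    _ = _ := by ring

private theorem AFE_alg3 (Y R Cc Cr e1 e2 k : ℝ) :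
    (405 * Y) * (Cc * (R * Y ^ 101)) * (Cr * e1) * (e2 * k) =
      405 * Cc * Cr * R * (e1 * e2) * (Y ^ 102 * k) := by ring

/-- The remaining part on the far left line. -/
private theorem AFE_left : ∃ C : ℝ, 0 < C ∧ ∀ h r : ℝ, 1 ≤ h → 0 ≤ r → ∀ x t : ℝ, 0 < x →
    x ≤ 1 / 4 → ∀ s : ℂ, s = 1 / 2 + x + t * I → 1 / 4 ≤ ‖s - 1‖ →
    ‖∫ y : ℝ, (AFE_G h r s (((-100 - s.re : ℝ) : ℂ) + y * I) /
        (((-100 - s.re : ℝ) : ℂ) + y * I) - AFE_F h r s (((-100 - s.re : ℝ) : ℂ) + y * I))‖ ≤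
      C * (1 + |t|) ^ 101 * Real.exp (-200 * r + 6408 * h) := by
  obtain ⟨Cc, hCc0, hCc⟩ := ch_growth 101 (by norm_num)
  obtain ⟨Cr, hCr0, hCr⟩ := AFE_rest
  obtain ⟨Ck, hCk0, hCk⟩ := kn_int 102
  refine ⟨405 * Cc * Cr * Ck * 2 * Real.exp 10201, by positivity,
    fun h r hh hr x t hx0 hx1 s hs hs4 => ?_⟩
  have hsre : s.re = 1 / 2 + x := by rw [hs]; simp
  have hsim : s.im = t := by rw [hs]; simp
  obtain ⟨a, ha⟩ : ∃ a : ℝ, a = -100 - s.re := ⟨_, rfl⟩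
  rw [← ha]
  have ha1 : a = -(201 / 2 + x) := by rw [ha, hsre]; ring
  have ha2 : |a| = 201 / 2 + x := by rw [ha1, abs_neg, abs_of_pos (by linarith)]
  have ha3 : a ≠ 0 := by intro hc; rw [hc] at ha1; linarith
  have hE : Real.exp (-(199 / 2) * r + 3184 * h) * Real.exp (a * r) *
      Real.exp (32 * h * |a| + a ^ 2) ≤ Real.exp 10201 * Real.exp (-200 * r + 6408 * h) := by
    rw [← Real.exp_add, ← Real.exp_add, ← Real.exp_add]
    apply Real.exp_le_exp.mpr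
    rw [ha2, ha1]
    have h7 := mul_nonneg hx0.le hr
    have h8 := mul_nonneg (by linarith : (0 : ℝ) ≤ 1 / 4 - x) (by linarith : 0 ≤ h)
    have h9 : (201 / 2 + x) ^ 2 ≤ 10201 := by nlinarith only [hx0, hx1]
    have h10 : (-(201 / 2 + x)) ^ 2 = (201 / 2 + x) ^ 2 := by ring
    rw [h10]
    linarith
  have hF : 1 + 1 / (h * |a|) ≤ 2 := by
    have h5 : 1 ≤ h * |a| := by
      rw [ha2]
      have := mul_le_mul hh (by linarith : (1 : ℝ) ≤ 201 / 2 + x) zero_le_one (by linarith)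
      linarith
    have h6 : 1 / (h * |a|) ≤ 1 := by
      rw [div_le_one (by linarith)]; exact h5
    linarith
  obtain ⟨hI, hI2⟩ := hCk h a (by linarith) ha3
  have hpt : ∀ y : ℝ, ‖AFE_G h r s ((a : ℂ) + y * I) / ((a : ℂ) + y * I) -
      AFE_F h r s ((a : ℂ) + y * I)‖ ≤
      (405 * Cc * Cr * (1 + |t|) ^ 101 * (Real.exp (-(199 / 2) * r + 3184 * h) *
        Real.exp (a * r))) * ((1 + h * |y|) ^ 30 * (1 + |y|) ^ 102 *
        ‖kn h ((a : ℂ) + y * I) / ((a : ℂ) + y * I)‖) := by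
    intro y
    have hre : ((a : ℂ) + y * I).re = a := by simp
    have him : ((a : ℂ) + y * I).im = y := by simp
    generalize ((a : ℂ) + y * I) = z at hre him
    have hwre : (1 - s - z).re = 101 := by
      rw [sub_re, sub_re, one_re, hre, ha]; ring
    have hwim : (1 - s - z).im = -(t + y) := by
      rw [sub_im, sub_im, one_im, him, hsim]; ring
    have hw0 : 0 < (1 - s - z).re := by rw [hwre]; norm_num
    have hw1 : (1 - s - z) ≠ 1 := by
      intro hc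
      rw [hc, one_re] at hwre
      norm_num at hwre
    have hsz1 : s + z ≠ 1 := by
      intro hc
      have := congrArg Complex.re hc
      rw [add_re, hre, one_re, ha] at this
      norm_num at this
    have hfe := ch_fe (1 - s - z) hw0 hw1
    have hszw : 1 - (1 - s - z) = s + z := by ring
    rw [hszw] at hfe
    have hdiff : AFE_G h r s z / z - AFE_F h r s z =
        (s + z - 1) / (s - 1) * ch (1 - s - z) *
          (riemannZeta (1 - s - z) - Sc h r (1 - s - z)) *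
          (Complex.exp (z * r) * (kn h z / z)) := by
      unfold AFE_G AFE_F
      rw [Zt_eq _ hsz1, hfe]
      ring
    rw [hdiff, norm_mul, norm_mul, norm_mul, norm_mul]
    have hzre : |z.re| ≤ 101 := by rw [hre, ha2]; linarith
    have h1 := (AFE_frac s z hs4).trans (AFE_one_add z hzre)
    rw [him] at h1
    have ht0 : 0 ≤ |t| := abs_nonneg _
    have hy0 : 0 ≤ |y| := abs_nonneg _
    have h4 : (1 : ℝ) ≤ (1 + h * |y|) ^ 30 :=
      one_le_pow₀ (le_add_of_nonneg_right (mul_nonneg (by linarith) hy0))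
    have hch : ‖ch (1 - s - z)‖ ≤ Cc * ((1 + |t|) ^ 101 * (1 + |y|) ^ 101) := by
      refine (hCc _ (by rw [hwre]; norm_num) hwre.le).trans
        (mul_le_mul_of_nonneg_left ?_ hCc0.le)
      have h3 : 1 + |(1 - s - z).im| ≤ (1 + |t|) * (1 + |y|) := by
        rw [hwim, abs_neg]
        have e1 := abs_add_le t y
        have e2 := mul_nonneg ht0 hy0
        have e3 : (1 + |t|) * (1 + |y|) = 1 + |t| + |y| + |t| * |y| := by ring
        rw [e3]
        linarith only [e1, e2]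
      calc (1 + |(1 - s - z).im|) ^ (1 - s - z).re = (1 + |(1 - s - z).im|) ^ (101 : ℕ) := by
            rw [hwre, ← Real.rpow_natCast]; norm_num
        _ ≤ ((1 + |t|) * (1 + |y|)) ^ 101 := pow_le_pow_left₀ (by positivity) h3 101
        _ = _ := by rw [mul_pow]
    have hrest := hCr h r hh (1 - s - z) hwre
    have hexp : ‖Complex.exp (z * r)‖ = Real.exp (a * r) := by rw [AFE_exp_norm, hre]
    have hY : (1 + |y|) ^ 102 * ‖kn h z / z‖ ≤
        (1 + h * |y|) ^ 30 * (1 + |y|) ^ 102 * ‖kn h z / z‖ := by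
      calc (1 + |y|) ^ 102 * ‖kn h z / z‖ = 1 * (1 + |y|) ^ 102 * ‖kn h z / z‖ := by rw [one_mul]
        _ ≤ _ := by gcongr
    calc ‖(s + z - 1) / (s - 1)‖ * ‖ch (1 - s - z)‖ *
          ‖riemannZeta (1 - s - z) - Sc h r (1 - s - z)‖ *
          (‖Complex.exp (z * r)‖ * ‖kn h z / z‖)
        ≤ (405 * (1 + |y|)) * (Cc * ((1 + |t|) ^ 101 * (1 + |y|) ^ 101)) *
          (Cr * Real.exp (-(199 / 2) * r + 3184 * h)) *
          (Real.exp (a * r) * ‖kn h z / z‖) := by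
          rw [hexp]
          gcongr
      _ = 405 * Cc * Cr * (1 + |t|) ^ 101 * (Real.exp (-(199 / 2) * r + 3184 * h) *
          Real.exp (a * r)) * ((1 + |y|) ^ 102 * ‖kn h z / z‖) := AFE_alg3 _ _ _ _ _ _ _
      _ ≤ _ := mul_le_mul_of_nonneg_left hY (by positivity)
  refine (norm_integral_le_of_norm_le (hI.const_mul _) (Filter.Eventually.of_forall hpt)).trans ?_
  rw [integral_const_mul]
  have hE0 : 0 < Real.exp (-(199 / 2) * r + 3184 * h) * Real.exp (a * r) := by positivity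
  calc 405 * Cc * Cr * (1 + |t|) ^ 101 * (Real.exp (-(199 / 2) * r + 3184 * h) *
        Real.exp (a * r)) * ∫ y : ℝ, (1 + h * |y|) ^ 30 * (1 + |y|) ^ 102 *
        ‖kn h ((a : ℂ) + y * I) / ((a : ℂ) + y * I)‖
      ≤ 405 * Cc * Cr * (1 + |t|) ^ 101 * (Real.exp (-(199 / 2) * r + 3184 * h) *
        Real.exp (a * r)) * (Ck * Real.exp (32 * h * |a| + a ^ 2) * (1 + 1 / (h * |a|))) :=
        mul_le_mul_of_nonneg_left hI2 (by positivity)
    _ ≤ 405 * Cc * Cr * (1 + |t|) ^ 101 * (Real.exp (-(199 / 2) * r + 3184 * h) *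
        Real.exp (a * r)) * (Ck * Real.exp (32 * h * |a| + a ^ 2) * 2) := by
        gcongr
    _ = 405 * Cc * Cr * Ck * 2 * (1 + |t|) ^ 101 * (Real.exp (-(199 / 2) * r + 3184 * h) *
        Real.exp (a * r) * Real.exp (32 * h * |a| + a ^ 2)) := by
        generalize (1 + |t|) ^ 101 = R
        ring
    _ ≤ 405 * Cc * Cr * Ck * 2 * (1 + |t|) ^ 101 *
        (Real.exp 10201 * Real.exp (-200 * r + 6408 * h)) :=
        mul_le_mul_of_nonneg_left hE (by positivity)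
    _ = _ := by
        generalize (1 + |t|) ^ 101 = R
        ring

private theorem AFE_total_int (h r : ℝ) (hh : 0 < h) (s : ℂ) (hs1 : 1 / 2 < s.re)
    (hs2 : s.re ≤ 3 / 4) :
    Integrable (fun y : ℝ => AFE_G h r s (((-100 - s.re : ℝ) : ℂ) + y * I) /
        (((-100 - s.re : ℝ) : ℂ) + y * I)) := by
  obtain ⟨C, hC⟩ := AFE_G_bound h r hh s hs1 hs2
  have hre : ∀ y : ℝ, (((-100 - s.re : ℝ) : ℂ) + y * I).re = -100 - s.re := by intro y; simp
  have him : ∀ y : ℝ, (((-100 - s.re : ℝ) : ℂ) + y * I).im = y := by intro y; simp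
  have hone : ∀ y : ℝ, 1 ≤ ‖(((-100 - s.re : ℝ) : ℂ) + y * I)‖ := by
    intro y
    have h1 := Complex.abs_re_le_norm (((-100 - s.re : ℝ) : ℂ) + y * I)
    have h2 := neg_le_abs (((-100 - s.re : ℝ) : ℂ) + y * I).re
    rw [hre] at h1 h2
    linarith
  have hne : ∀ y : ℝ, (((-100 - s.re : ℝ) : ℂ) + y * I) ≠ 0 := by
    intro y hy
    have := hone y
    rw [hy, norm_zero] at this
    linarith
  refine line_integrable (fun z => AFE_G h r s z / z) (-100 - s.re) (fun y => ?_) C (fun y => ?_)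
  · exact ((AFE_G_diff h r s _).continuousAt).div continuousAt_id (hne y)
  · rw [norm_div]
    have h1 := hC (((-100 - s.re : ℝ) : ℂ) + y * I) (hre y).ge (by rw [hre]; linarith)
    rw [him] at h1
    exact (div_le_self (norm_nonneg _) (hone y)).trans h1

private theorem AFE_final_exp (L : ℝ) (hL : 0 ≤ L) :
    Real.exp (101 * L) * Real.exp (-200 * (11 / 20 * L) + 6408 * (L / 3200)) ≤
      Real.exp (L * (-6)) := by
  rw [← Real.exp_add]
  apply Real.exp_le_exp.mpr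
  linarith

private theorem AFE_pow_le (T t L : ℝ) (hT0 : 0 < T) (hT1 : 1 ≤ T) (hL : L = Real.log T) :
    (1 + |t|) ^ 101 ≤ Real.exp (101 * L) * (1 + |t| / T) ^ 101 := by
  have h1 : Real.exp (101 * L) = T ^ 101 := by
    rw [hL, ← Real.exp_log (pow_pos hT0 101), Real.log_pow]
    norm_num
  rw [h1, ← mul_pow]
  refine pow_le_pow_left₀ (by positivity) ?_ 101
  have h2 : T * (1 + |t| / T) = T + |t| := by field_simp
  rw [h2]
  linarith

/-- Second step: the remaining integral in `afe_one`.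

PROOF. On `Re (s+z) = -100`: `Zt (s+z) = (s+z-1) ζ(s+z) = (s+z-1) ch(w) ζ(w)`, `w = 1-s-z`,
`Re w = 101`, `ζ(w) = ∑ l^{-w} = Sc h r w + ∑ l^{-w} (1 - vc h (r - log l))`.
* Part with `Sc h r w`: the integrand `(s+z-1)/(s-1) ch(1-s-z) Sc h r (1-s-z) e^{zr} kn h z/z` is
  holomorphic for `-100 - Re s ≤ Re z ≤ 1/2 - Re s < 0` (`Re w ≥ 1/2 > 0`), polynomially bounded times
  `kn`: `line_shift` to `Re z = 1/2 - Re s`, where `‖ch w‖ = 1` (`norm_ch_half`),
  `|e^{zr}| = e^{(1/2 - Re s) r} ≤ 1`, `|(s+z-1)/(s-1)| ≤ 1 + |z|/|s-1| ≤ 1 + 4|z|`, and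
  `|Sc h r (1/2 - i v)| = |Sc h r (1/2 + i v)|` since `vc` is real.
* Part with `1 - vc`: `‖1 - vc h (r - log l)‖ ≤ C e^{-99.5 (r - log l) + 32·99.5 h}` (`vc_bound'`), so the
  sum over `l` is `≤ C e^{-99.5 r + 3184 h} ∑ l^{-101+99.5}`; `‖ch w‖ ≤ C (1+|t|+|y|)^101`
  (`ch_growth`), `|e^{zr}| = e^{-(100 + Re s) r} ≤ e^{-100.5 r}`,
  `∫ (1+|y|)^{103} ‖kn h z/z‖ dy ≤ C e^{32·100.75 h}`; with `r = 11L/20`, `h = L/3200`
  the total is `≤ C (1+|t|/T)^{101} T^{101 - (11/20)(200) + 0.995 + 1.0075}`, exponent `≤ -6`. -/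
theorem afe : ∃ C : ℝ, 0 < C ∧ ∀ T : ℝ, Real.exp 3200 ≤ T → ∀ x t : ℝ, 0 < x → x ≤ 1 / 4 →
    ‖riemannZeta (1 / 2 + x + t * I)‖ ≤
      ‖Sc (Real.log T / 3200) (11 / 20 * Real.log T) (1 / 2 + x + t * I)‖ +
      4 * ‖Sd (Real.log T / 3200) (11 / 20 * Real.log T) (1 / 2 + x + t * I)‖ +
      (∫ y : ℝ, (1 + 4 * ‖(-x + y * I : ℂ)‖) *
        ‖kn (Real.log T / 3200) (-x + y * I) / (-x + y * I)‖ *
        ‖Sc (Real.log T / 3200) (11 / 20 * Real.log T) (1 / 2 + (t + y) * I)‖) +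
      C * T ^ (-6 : ℝ) * (1 + |t| / T) ^ 101 := by
  obtain ⟨C, hC0, hC⟩ := AFE_left
  refine ⟨C, hC0, fun T hT x t hx0 hx1 => ?_⟩
  have hT0 : 0 < T := (Real.exp_pos _).trans_le hT
  have hT1 : 1 ≤ T := (Real.one_le_exp (by norm_num)).trans hT
  have hL : 3200 ≤ Real.log T := (Real.le_log_iff_exp_le hT0).mpr hT
  obtain ⟨L, hLd⟩ : ∃ L : ℝ, L = Real.log T := ⟨_, rfl⟩
  obtain ⟨h, hhd⟩ : ∃ h : ℝ, h = L / 3200 := ⟨_, rfl⟩
  obtain ⟨r, hrd⟩ : ∃ r : ℝ, r = 11 / 20 * L := ⟨_, rfl⟩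
  obtain ⟨s, hs⟩ : ∃ s : ℂ, s = 1 / 2 + x + t * I := ⟨_, rfl⟩
  rw [← hLd] at hL ⊢
  rw [← hhd, ← hrd, ← hs]
  have hh : 1 ≤ h := by rw [hhd]; linarith
  have hh0 : 0 < h := by linarith
  have hr : 0 ≤ r := by rw [hrd]; linarith
  have hsre : s.re = 1 / 2 + x := by rw [hs]; simp
  have hs4 : 1 / 4 ≤ ‖s - 1‖ := by
    have h1 := Complex.abs_re_le_norm (s - 1)
    have h2 := neg_le_abs (s - 1).re
    rw [sub_re, one_re, hsre] at h1 h2
    linarith
  have hleft := hC h r hh hr x t hx0 hx1 s hs hs4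
  have hcrit := AFE_crit h r hh0 hr x t hx0 hx1 s hs hs4
  have hone := afe_one h r hh0 s (by rw [hsre]; linarith) (by rw [hsre]; linarith)
  obtain ⟨CF, hCF⟩ := AFE_F_bound h r hh0 x t hx0 hx1 s hs hs4
  have hFd : ∀ z : ℂ, -100 - s.re ≤ z.re → z.re ≤ -x → DifferentiableAt ℂ (AFE_F h r s) z := by
    intro z h1 h2
    refine AFE_F_diff h r hh0 s z ?_ ?_
    · intro hc
      rw [hc, zero_re] at h2
      linarith
    · rw [sub_re, sub_re, one_re, hsre]; linarith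
  have hshift := line_shift (AFE_F h r s) (-100 - s.re) (-x) (by rw [hsre]; linarith) hFd CF hCF
  have hFint : Integrable (fun y : ℝ => AFE_F h r s (((-100 - s.re : ℝ) : ℂ) + y * I)) := by
    refine line_integrable (AFE_F h r s) (-100 - s.re) (fun y => ?_) CF (fun y => ?_)
    · exact (hFd _ (by simp) (by simp; linarith)).continuousAt
    · have := hCF (((-100 - s.re : ℝ) : ℂ) + y * I) (by simp) (by simp; linarith)
      have him : (((-100 - s.re : ℝ) : ℂ) + y * I).im = y := by simp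
      rwa [him] at this
  have hGint := AFE_total_int h r hh0 s (by rw [hsre]; linarith) (by rw [hsre]; linarith)
  have hLft : ∫ y : ℝ, (Zt (s + ((-100 - s.re : ℝ) + y * I)) / (s - 1)) *
        (Complex.exp (((-100 - s.re : ℝ) + y * I) * r) *
          (kn h ((-100 - s.re : ℝ) + y * I) / ((-100 - s.re : ℝ) + y * I))) =
      (∫ y : ℝ, (AFE_G h r s (((-100 - s.re : ℝ) : ℂ) + y * I) /
        (((-100 - s.re : ℝ) : ℂ) + y * I) - AFE_F h r s (((-100 - s.re : ℝ) : ℂ) + y * I))) +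
      ∫ y : ℝ, AFE_F h r s (((-x : ℝ) : ℂ) + y * I) := by
    rw [integral_sub hGint hFint, ← hshift, sub_add_cancel]
    refine integral_congr_ae (Filter.Eventually.of_forall fun y => ?_)
    simp only [AFE_G]
    rw [mul_div_assoc, mul_div_assoc]
  rw [hone, hLft]
  have hpi : ‖(((1 / (2 * Real.pi) : ℝ)) : ℂ)‖ ≤ 1 := by
    rw [Complex.norm_real, Real.norm_of_nonneg (by positivity), div_le_one (by positivity)]
    have := Real.pi_gt_three
    linarith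
  have hSd : ‖Sd h r s / (s - 1)‖ ≤ 4 * ‖Sd h r s‖ := by
    rw [norm_div, div_le_iff₀ (by linarith)]
    have := norm_nonneg (Sd h r s)
    nlinarith only [this, hs4]
  have hlast : C * (1 + |t|) ^ 101 * Real.exp (-200 * r + 6408 * h) ≤
      C * T ^ (-6 : ℝ) * (1 + |t| / T) ^ 101 := by
    have h1 := AFE_pow_le T t L hT0 hT1 hLd
    have h2 := AFE_final_exp L (by linarith)
    rw [← hrd, ← hhd] at h2
    have h3 : T ^ (-6 : ℝ) = Real.exp (L * (-6)) := by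
      rw [Real.rpow_def_of_pos hT0, ← hLd]
    have h4 : (0 : ℝ) ≤ (1 + |t| / T) ^ 101 := by positivity
    calc C * (1 + |t|) ^ 101 * Real.exp (-200 * r + 6408 * h)
        ≤ C * (Real.exp (101 * L) * (1 + |t| / T) ^ 101) * Real.exp (-200 * r + 6408 * h) := by
          refine mul_le_mul_of_nonneg_right (mul_le_mul_of_nonneg_left h1 hC0.le)
            (Real.exp_pos _).le
      _ = C * (Real.exp (101 * L) * Real.exp (-200 * r + 6408 * h)) * (1 + |t| / T) ^ 101 := by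
          generalize (1 + |t| / T) ^ 101 = R
          ring
      _ ≤ C * Real.exp (L * (-6)) * (1 + |t| / T) ^ 101 :=
          mul_le_mul_of_nonneg_right (mul_le_mul_of_nonneg_left h2 hC0.le) h4
      _ = _ := by rw [h3]
  generalize (∫ y : ℝ, (1 + 4 * ‖(-x + y * I : ℂ)‖) * ‖kn h (-x + y * I) / (-x + y * I)‖ *
        ‖Sc h r (1 / 2 + (t + y) * I)‖) = J at hcrit ⊢
  generalize (∫ y : ℝ, (AFE_G h r s (((-100 - s.re : ℝ) : ℂ) + y * I) /
        (((-100 - s.re : ℝ) : ℂ) + y * I) - AFE_F h r s (((-100 - s.re : ℝ) : ℂ) + y * I))) = P at hleft ⊢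
  generalize (∫ y : ℝ, AFE_F h r s (((-x : ℝ) : ℂ) + y * I)) = Q at hcrit ⊢
  have hP := hleft.trans hlast
  generalize C * T ^ (-6 : ℝ) * (1 + |t| / T) ^ 101 = E at hP ⊢
  clear hleft hlast
  calc ‖Sc h r s + Sd h r s / (s - 1) - ((1 / (2 * Real.pi) : ℝ) : ℂ) * (P + Q)‖
      ≤ ‖Sc h r s + Sd h r s / (s - 1)‖ + ‖((1 / (2 * Real.pi) : ℝ) : ℂ) * (P + Q)‖ :=
        norm_sub_le _ _
    _ ≤ (‖Sc h r s‖ + ‖Sd h r s / (s - 1)‖) + ‖P + Q‖ := by
        refine add_le_add (norm_add_le _ _) ?_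
        rw [norm_mul]
        exact mul_le_of_le_one_left (norm_nonneg _) hpi
    _ ≤ (‖Sc h r s‖ + 4 * ‖Sd h r s‖) + (E + J) := by
        refine add_le_add (add_le_add le_rfl hSd) ((norm_add_le _ _).trans (add_le_add hP hcrit))
    _ = _ := by ring

end Pool.Agent.H14.CO
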