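import Pool.Agent.H14.CO.BfDef
import Pool.Agent.H10.GoldLoc.Mertens

/-!
# CO module BfSum: a sum of a multiplicative function
-/

set_option autoImplicit false

namespace Pool.Agent.H14.CO

open Set MeasureTheory Complex

/-- the summand -/
private noncomputable def BfSum_G (f : ℕ) : ℝ := (f : ℝ) * (sg f ^ 2 * bf f) ^ 2

private lemma BfSum_rad_mul {m n : ℕ} (h : Nat.Coprime m n) : rad (m * n) = rad m * rad n := by
  unfold rad
  rw [h.primeFactors_mul, Finset.prod_union h.disjoint_primeFactors]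

private lemma BfSum_sg_mul {m n : ℕ} (h : Nat.Coprime m n) : sg (m * n) = sg m * sg n := by
  unfold sg
  rw [h.primeFactors_mul, Finset.prod_union h.disjoint_primeFactors]

private lemma BfSum_rad_coprime {m n : ℕ} (h : Nat.Coprime m n) : Nat.Coprime (rad m) n := by
  unfold rad
  rw [Nat.coprime_prod_left_iff]
  intro p hp
  exact h.coprime_dvd_left (Nat.dvd_of_mem_primeFactors hp)

private lemma BfSum_sum_mul {r s : ℕ} (h : Nat.Coprime r s) (F : ℕ → ℝ) :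
    ∑ g ∈ (r * s).divisors, F g = ∑ a ∈ r.divisors, ∑ b ∈ s.divisors, F (a * b) := by
  rw [← Finset.sum_product', Nat.divisors_mul, Finset.mul_def]
  rw [Finset.sum_image]
  exact h.mul_injOn_divisors

private lemma BfSum_bf_mul {m n : ℕ} (h : Nat.Coprime m n) : bf (m * n) = bf m * bf n := by
  have hrn : Nat.Coprime m (rad n) := (BfSum_rad_coprime h.symm).symm
  have hrm : Nat.Coprime (rad m) n := BfSum_rad_coprime h
  have hr : Nat.Coprime (rad m) (rad n) := BfSum_rad_coprime hrn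
  have key : ∀ a₁ ∈ (rad m).divisors, ∀ b₁ ∈ (rad n).divisors, ∀ a₂ ∈ (rad m).divisors,
      ∀ b₂ ∈ (rad n).divisors,
      (if m * n ∣ a₁ * b₁ * (a₂ * b₂) then 1 / (((a₁ * b₁ : ℕ) : ℝ) * ((a₂ * b₂ : ℕ) : ℝ)) else 0)
      = (if m ∣ a₁ * a₂ then 1 / ((a₁ : ℝ) * a₂) else 0)
        * (if n ∣ b₁ * b₂ then 1 / ((b₁ : ℝ) * b₂) else 0) := by
    intro a₁ ha₁ b₁ hb₁ a₂ ha₂ b₂ hb₂
    have ha₁' := Nat.dvd_of_mem_divisors ha₁
    have ha₂' := Nat.dvd_of_mem_divisors ha₂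
    have hb₁' := Nat.dvd_of_mem_divisors hb₁
    have hb₂' := Nat.dvd_of_mem_divisors hb₂
    have hmb : Nat.Coprime m (b₁ * b₂) :=
      Nat.Coprime.mul_right (hrn.coprime_dvd_right hb₁') (hrn.coprime_dvd_right hb₂')
    have hna : Nat.Coprime n (a₁ * a₂) :=
      Nat.Coprime.mul_right (hrm.symm.coprime_dvd_right ha₁') (hrm.symm.coprime_dvd_right ha₂')
    have heq : a₁ * b₁ * (a₂ * b₂) = (a₁ * a₂) * (b₁ * b₂) := by ring
    have hiff : m * n ∣ a₁ * b₁ * (a₂ * b₂) ↔ m ∣ a₁ * a₂ ∧ n ∣ b₁ * b₂ := by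
      rw [heq]
      constructor
      · intro hd
        constructor
        · exact hmb.dvd_of_dvd_mul_right ((Dvd.intro _ rfl).trans hd)
        · exact hna.dvd_of_dvd_mul_left ((Dvd.intro_left _ rfl).trans hd)
      · rintro ⟨h1, h2⟩
        exact Nat.mul_dvd_mul h1 h2
    by_cases h1 : m ∣ a₁ * a₂
    · by_cases h2 : n ∣ b₁ * b₂
      · rw [if_pos (hiff.2 ⟨h1, h2⟩), if_pos h1, if_pos h2]
        push_cast
        rw [div_mul_div_comm, one_mul]
        congr 1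
        ring
      · rw [if_neg (fun hh => h2 (hiff.1 hh).2), if_neg h2, mul_zero]
    · rw [if_neg (fun hh => h1 (hiff.1 hh).1), if_neg h1, zero_mul]
  calc bf (m * n)
      = ∑ a₁ ∈ (rad m).divisors, ∑ b₁ ∈ (rad n).divisors, ∑ a₂ ∈ (rad m).divisors,
          ∑ b₂ ∈ (rad n).divisors,
          (if m * n ∣ a₁ * b₁ * (a₂ * b₂) then
            1 / (((a₁ * b₁ : ℕ) : ℝ) * ((a₂ * b₂ : ℕ) : ℝ)) else 0) := by
        unfold bf
        rw [BfSum_rad_mul h, BfSum_sum_mul hr]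
        refine Finset.sum_congr rfl fun a₁ _ => Finset.sum_congr rfl fun b₁ _ => ?_
        rw [BfSum_sum_mul hr]
    _ = ∑ a₁ ∈ (rad m).divisors, ∑ b₁ ∈ (rad n).divisors, ∑ a₂ ∈ (rad m).divisors,
          ∑ b₂ ∈ (rad n).divisors, (if m ∣ a₁ * a₂ then 1 / ((a₁ : ℝ) * a₂) else 0)
            * (if n ∣ b₁ * b₂ then 1 / ((b₁ : ℝ) * b₂) else 0) := by
        refine Finset.sum_congr rfl fun a₁ ha₁ => Finset.sum_congr rfl fun b₁ hb₁ =>
          Finset.sum_congr rfl fun a₂ ha₂ => Finset.sum_congr rfl fun b₂ hb₂ => ?_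
        exact key a₁ ha₁ b₁ hb₁ a₂ ha₂ b₂ hb₂
    _ = bf m * bf n := by
        unfold bf
        rw [Finset.sum_mul]
        refine Finset.sum_congr rfl fun a₁ _ => ?_
        rw [Finset.sum_comm, Finset.sum_mul]
        refine Finset.sum_congr rfl fun a₂ _ => ?_
        rw [Finset.mul_sum]
        refine Finset.sum_congr rfl fun b₁ _ => ?_
        rw [Finset.mul_sum]

private lemma BfSum_G_mul {m n : ℕ} (h : Nat.Coprime m n) :
    BfSum_G (m * n) = BfSum_G m * BfSum_G n := by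
  unfold BfSum_G
  rw [BfSum_bf_mul h, BfSum_sg_mul h]
  push_cast
  ring

private lemma BfSum_G_nonneg (n : ℕ) : 0 ≤ BfSum_G n := by
  unfold BfSum_G
  positivity

private lemma BfSum_G_one : BfSum_G 1 = 1 := by
  unfold BfSum_G sg bf rad
  simp

private lemma BfSum_rad_pow {p k : ℕ} (hp : p.Prime) (hk : k ≠ 0) : rad (p ^ k) = p := by
  unfold rad
  rw [Nat.primeFactors_prime_pow hk hp, Finset.prod_singleton]

private lemma BfSum_sg_pow {p k : ℕ} (hp : p.Prime) (hk : k ≠ 0) :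
    sg (p ^ k) = (1 - 1 / (p : ℝ))⁻¹ := by
  unfold sg
  rw [Nat.primeFactors_prime_pow hk hp, Finset.prod_singleton]

private lemma BfSum_bf_pow {p k : ℕ} (hp : p.Prime) (hk : k ≠ 0) :
    bf (p ^ k) = (if p ^ k ∣ 1 then 1 else 0) + 2 * (if p ^ k ∣ p then 1 / (p : ℝ) else 0)
      + (if p ^ k ∣ p * p then 1 / ((p : ℝ) * p) else 0) := by
  unfold bf
  rw [BfSum_rad_pow hp hk, hp.divisors]
  have h1 : (1 : ℕ) ∉ ({p} : Finset ℕ) := by
    rw [Finset.mem_singleton]; exact hp.one_lt.ne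
  rw [Finset.sum_insert h1, Finset.sum_insert h1, Finset.sum_singleton, Finset.sum_singleton,
    Finset.sum_insert h1, Finset.sum_singleton]
  simp only [one_mul, mul_one, Nat.cast_one, div_one]
  ring

private lemma BfSum_G_p {p : ℕ} (hp : p.Prime) :
    BfSum_G (p ^ 1) = (p : ℝ) * (((1 - 1 / (p : ℝ))⁻¹) ^ 2 * (2 / p + 1 / (p * p))) ^ 2 := by
  unfold BfSum_G
  rw [BfSum_bf_pow hp one_ne_zero, BfSum_sg_pow hp one_ne_zero]
  have h1 : ¬ (p ^ 1 ∣ 1) := by rw [pow_one]; exact hp.one_lt.ne' ∘ Nat.dvd_one.1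
  rw [if_neg h1, if_pos (by rw [pow_one]), if_pos (by rw [pow_one]; exact Dvd.intro _ rfl), pow_one]
  ring

private lemma BfSum_G_p2 {p : ℕ} (hp : p.Prime) :
    BfSum_G (p ^ 2) = (p : ℝ) ^ 2 * (((1 - 1 / (p : ℝ))⁻¹) ^ 2 * (1 / (p * p))) ^ 2 := by
  unfold BfSum_G
  rw [BfSum_bf_pow hp two_ne_zero, BfSum_sg_pow hp two_ne_zero]
  have h1 : ¬ (p ^ 2 ∣ 1) := by
    intro h
    have := Nat.dvd_one.1 h
    have := hp.one_lt
    nlinarith
  have h2 : ¬ (p ^ 2 ∣ p) := by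
    intro h
    have := Nat.le_of_dvd hp.pos h
    have := hp.one_lt
    nlinarith
  rw [if_neg h1, if_neg h2, if_pos (by rw [sq])]
  push_cast
  ring

private lemma BfSum_G_pk {p k : ℕ} (hp : p.Prime) (hk : 3 ≤ k) : BfSum_G (p ^ k) = 0 := by
  unfold BfSum_G
  have hk0 : k ≠ 0 := by omega
  rw [BfSum_bf_pow hp hk0]
  have h3 : p ^ 3 ∣ p ^ k := pow_dvd_pow _ hk
  have h1 : ¬ (p ^ k ∣ 1) := by
    intro h
    have := Nat.le_of_dvd one_pos (h3.trans h)
    have := hp.one_lt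
    nlinarith [sq_nonneg p, pow_pos hp.pos 2, pow_lt_pow_left₀ hp.one_lt (by norm_num) (n := 3) (by norm_num)]
  have h2 : ¬ (p ^ k ∣ p) := by
    intro h
    have h5 := (Nat.pow_dvd_pow_iff_le_right hp.one_lt).1 (by rw [pow_one]; exact h3.trans h : p ^ 3 ∣ p ^ 1)
    omega
  have h4 : ¬ (p ^ k ∣ p * p) := by
    intro h
    rw [← sq] at h
    have h5 := (Nat.pow_dvd_pow_iff_le_right hp.one_lt).1 (h3.trans h)
    omega
  rw [if_neg h1, if_neg h2, if_neg h4]
  ring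

private lemma BfSum_tsum {p : ℕ} (hp : p.Prime) :
    ∑' n : ℕ, BfSum_G (p ^ n) = 1 + BfSum_G (p ^ 1) + BfSum_G (p ^ 2) := by
  rw [tsum_eq_sum (s := Finset.range 3)]
  · rw [Finset.sum_range_succ, Finset.sum_range_succ, Finset.sum_range_succ, Finset.sum_range_zero,
      pow_zero, BfSum_G_one]
    ring
  · intro b hb
    rw [Finset.mem_range, not_lt] at hb
    exact BfSum_G_pk hp hb

private lemma BfSum_summable {p : ℕ} (hp : p.Prime) :
    Summable (fun n : ℕ => ‖BfSum_G (p ^ n)‖) := by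
  apply summable_of_ne_finset_zero (s := Finset.range 3)
  intro b hb
  rw [Finset.mem_range, not_lt] at hb
  rw [BfSum_G_pk hp hb, norm_zero]

private lemma BfSum_local {p : ℕ} (hp : p.Prime) :
    BfSum_G (p ^ 1) + BfSum_G (p ^ 2) ≤ 4 / p + 216 / (p : ℝ) ^ 2 := by
  rw [BfSum_G_p hp, BfSum_G_p2 hp]
  have hp2 : (2 : ℝ) ≤ p := by exact_mod_cast hp.two_le
  have hp0 : (0 : ℝ) < p := by linarith
  set x : ℝ := 1 / (p : ℝ) with hx
  have hx0 : 0 < x := by positivity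
  have hx1 : x ≤ 1 / 2 := by
    rw [hx]; exact one_div_le_one_div_of_le (by norm_num) hp2
  set y : ℝ := (1 - x)⁻¹ with hy
  have hy1 : y ≤ 1 + 2 * x := by
    rw [hy, inv_le_comm₀ (by linarith) (by linarith)]
    rw [← one_div, div_le_iff₀ (by linarith)]
    nlinarith
  have hy0 : 0 < y := by rw [hy]; apply inv_pos.2; linarith
  have hy4 : y ^ 4 ≤ 1 + 30 * x := by
    have h1 : y ^ 4 ≤ (1 + 2 * x) ^ 4 := pow_le_pow_left₀ hy0.le hy1 4
    have h2 : (1 + 2 * x) ^ 4 ≤ 1 + 30 * x := by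
      nlinarith [mul_pos hx0 hx0, mul_nonneg hx0.le (sub_nonneg.2 hx1),
        mul_nonneg (mul_pos hx0 hx0).le (sub_nonneg.2 hx1),
        mul_nonneg (mul_pos (mul_pos hx0 hx0) hx0).le (sub_nonneg.2 hx1)]
    exact h1.trans h2
  have hp' : (p : ℝ) = 1 / x := by rw [hx]; field_simp
  have e1 : (p : ℝ) * (y ^ 2 * (2 / p + 1 / (p * p))) ^ 2 = y ^ 4 * (4 * x + 4 * x ^ 2 + x ^ 3) := by
    rw [hp']; field_simp; ring
  have e2 : (p : ℝ) ^ 2 * (y ^ 2 * (1 / (p * p))) ^ 2 = y ^ 4 * x ^ 2 := by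
    rw [hp']; field_simp
  have e3 : 4 / (p : ℝ) + 216 / (p : ℝ) ^ 2 = 4 * x + 216 * x ^ 2 := by
    rw [hx]; field_simp
  rw [e1, e2, e3]
  have h5 : y ^ 4 * (4 * x + 4 * x ^ 2 + x ^ 3) + y ^ 4 * x ^ 2
      ≤ (1 + 30 * x) * (4 * x + 5 * x ^ 2 + x ^ 3) := by
    have : y ^ 4 * (4 * x + 4 * x ^ 2 + x ^ 3) + y ^ 4 * x ^ 2
      = y ^ 4 * (4 * x + 5 * x ^ 2 + x ^ 3) := by ring
    rw [this]
    apply mul_le_mul_of_nonneg_right hy4
    positivity
  refine h5.trans ?_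
  nlinarith [mul_pos hx0 hx0, mul_nonneg hx0.le (sub_nonneg.2 hx1),
        mul_nonneg (mul_pos hx0 hx0).le (sub_nonneg.2 hx1),
        mul_nonneg (mul_pos (mul_pos hx0 hx0) hx0).le (sub_nonneg.2 hx1)]

private lemma BfSum_sq_sum (F : ℕ) : ∑ p ∈ (F + 1).primesBelow, 1 / (p : ℝ) ^ 2 ≤ 1 := by
  have h1 : ∀ N : ℕ, 1 ≤ N → ∑ k ∈ Finset.Ioc 1 N, 1 / (k : ℝ) ^ 2 ≤ 1 - 1 / (N : ℝ) := by
    intro N hN
    induction N, hN using Nat.le_induction with
    | base => simp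
    | succ n hn ih =>
      rw [Finset.sum_Ioc_succ_top hn]
      have hn0 : (0 : ℝ) < n := by exact_mod_cast hn
      have : 1 / ((n + 1 : ℕ) : ℝ) ^ 2 ≤ 1 / n - 1 / ((n + 1 : ℕ) : ℝ) := by
        push_cast
        rw [div_sub_div _ _ hn0.ne' (by positivity), div_le_div_iff₀ (by positivity) (by positivity)]
        nlinarith
      linarith
  rcases Nat.eq_zero_or_pos F with hF | hF
  · subst hF
    simp [Nat.primesBelow]
    rw [Finset.sum_eq_zero]
    · norm_num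
    · intro x hx
      simp at hx
      exact absurd (hx.1 ▸ hx.2) Nat.not_prime_zero
  · have h2 : ∑ p ∈ (F + 1).primesBelow, 1 / (p : ℝ) ^ 2 ≤ ∑ k ∈ Finset.Ioc 1 F, 1 / (k : ℝ) ^ 2 := by
      apply Finset.sum_le_sum_of_subset_of_nonneg
      · intro p hp
        rw [Nat.mem_primesBelow] at hp
        rw [Finset.mem_Ioc]
        exact ⟨hp.2.one_lt, by omega⟩
      · intros; positivity
    have h3 := h1 F hF
    have h4 : (0 : ℝ) ≤ 1 / F := by positivity
    linarith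

/-- the sum over `f ≤ F` is bounded by the Euler product -/
private lemma BfSum_euler (F : ℕ) :
    ∑ f ∈ Finset.Icc 1 F, BfSum_G f
      ≤ ∏ p ∈ (F + 1).primesBelow, (1 + BfSum_G (p ^ 1) + BfSum_G (p ^ 2)) := by
  obtain ⟨h1, h2⟩ := EulerProduct.summable_and_hasSum_smoothNumbers_prod_primesBelow_tsum
    (f := BfSum_G) BfSum_G_one (fun {m n} h => BfSum_G_mul h) (fun {p} hp => BfSum_summable hp) (F + 1)
  have h3 : ∏ p ∈ (F + 1).primesBelow, ∑' n : ℕ, BfSum_G (p ^ n)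
      = ∏ p ∈ (F + 1).primesBelow, (1 + BfSum_G (p ^ 1) + BfSum_G (p ^ 2)) := by
    apply Finset.prod_congr rfl
    intro p hp
    exact BfSum_tsum (Nat.prime_of_mem_primesBelow hp)
  rw [← h3]
  let i : Finset.Icc 1 F → (F + 1).smoothNumbers := fun x =>
    ⟨x.1, Nat.mem_smoothNumbers_of_lt (Finset.mem_Icc.1 x.2).1
      (Nat.lt_succ_of_le (Finset.mem_Icc.1 x.2).2)⟩
  have hi : Function.Injective i := by
    intro x y hxy
    have := congrArg Subtype.val hxy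
    exact Subtype.ext this
  have h4 : ∑ x : Finset.Icc 1 F, BfSum_G (i x : ℕ)
      ≤ ∏ p ∈ (F + 1).primesBelow, ∑' n : ℕ, BfSum_G (p ^ n) := by
    have h5 := sum_le_hasSum (f := fun m : (F + 1).smoothNumbers => BfSum_G m)
      (Finset.univ.map ⟨i, hi⟩) (fun m _ => BfSum_G_nonneg _) h2
    rw [Finset.sum_map] at h5
    exact h5
  rw [← Finset.sum_coe_sort]
  exact h4

private lemma BfSum_big : ∃ C : ℝ, 0 < C ∧ ∀ F : ℕ, 1024 ≤ F →
    ∑ f ∈ Finset.Icc 1 F, BfSum_G f ≤ C * Real.log F ^ 4 := by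
  obtain ⟨C, hC0, hC⟩ := Pool.Agent.H10.GoldLoc.exists_mertens
  refine ⟨Real.exp (4 * C + 216), Real.exp_pos _, ?_⟩
  intro F hF
  have hlog : 1 < Real.log F := by
    have h1 : (1024 : ℝ) ≤ F := by exact_mod_cast hF
    have h2 : Real.log 1024 ≤ Real.log F := Real.log_le_log (by norm_num) h1
    have h3 : Real.log 1024 = 10 * Real.log 2 := by
      rw [show (1024 : ℝ) = (2 : ℝ) ^ (10 : ℕ) by norm_num, Real.log_pow]; norm_num
    have := Real.log_two_gt_d9
    linarith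
  refine (BfSum_euler F).trans ?_
  calc ∏ p ∈ (F + 1).primesBelow, (1 + BfSum_G (p ^ 1) + BfSum_G (p ^ 2))
      ≤ ∏ p ∈ (F + 1).primesBelow, Real.exp (4 / p + 216 / (p : ℝ) ^ 2) := by
        apply Finset.prod_le_prod
        · intro p _
          have := BfSum_G_nonneg (p ^ 1)
          have := BfSum_G_nonneg (p ^ 2)
          linarith
        · intro p hp
          have h1 := BfSum_local (Nat.prime_of_mem_primesBelow hp)
          have h2 := Real.add_one_le_exp (4 / (p : ℝ) + 216 / (p : ℝ) ^ 2)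
          linarith
    _ = Real.exp (∑ p ∈ (F + 1).primesBelow, (4 / (p : ℝ) + 216 / (p : ℝ) ^ 2)) := by
        rw [Real.exp_sum]
    _ ≤ Real.exp (4 * (Real.log (Real.log F) + C) + 216) := by
        apply Real.exp_le_exp.2
        rw [Finset.sum_add_distrib]
        have h1 : ∑ p ∈ (F + 1).primesBelow, 4 / (p : ℝ) ≤ 4 * (Real.log (Real.log F) + C) := by
          have h2 := hC F hF
          have h3 : ∑ p ∈ (F + 1).primesBelow, 4 / (p : ℝ)
              = 4 * ∑ p ∈ Pool.Agent.H10.GoldLoc.PP 0 F, (1 : ℝ) / p := by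
            rw [Finset.mul_sum]
            have h4 : (F + 1).primesBelow = Pool.Agent.H10.GoldLoc.PP 0 F := by
              ext p
              rw [Nat.mem_primesBelow, Pool.Agent.H10.GoldLoc.mem_PP]
              constructor
              · rintro ⟨h5, h6⟩
                exact ⟨h6.pos, by omega, h6⟩
              · rintro ⟨_, h5, h6⟩
                exact ⟨by omega, h6⟩
            rw [h4]
            apply Finset.sum_congr rfl
            intro p _
            ring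
          rw [h3]
          linarith
        have h2 : ∑ p ∈ (F + 1).primesBelow, 216 / (p : ℝ) ^ 2 ≤ 216 := by
          have h3 := BfSum_sq_sum F
          have h4 : ∑ p ∈ (F + 1).primesBelow, 216 / (p : ℝ) ^ 2
              = 216 * ∑ p ∈ (F + 1).primesBelow, 1 / (p : ℝ) ^ 2 := by
            rw [Finset.mul_sum]
            apply Finset.sum_congr rfl
            intro p _
            ring
          rw [h4]
          linarith
        linarith
    _ = Real.exp (4 * C + 216) * Real.log F ^ 4 := by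
        have h1 : 4 * (Real.log (Real.log F) + C) + 216
          = (4 * C + 216) + ((4 : ℕ) : ℝ) * Real.log (Real.log F) := by push_cast; ring
        rw [h1, Real.exp_add, Real.exp_nat_mul, Real.exp_log (by linarith)]

/-- `∑_{f ≤ F} f b(f)² sg(f)^4 ≤ C (log F)^4`.

PROOF. `G(f) = f b(f)² sg(f)^4` is multiplicative, `G(p) = (4+4/p+1/p²)(1-1/p)^{-4}/p`,
`G(p²) = (1-1/p)^{-4}/p²`, `G(p^k) = 0` for `k ≥ 3` (`b(p)=2/p+1/p²`, `b(p²)=1/p²`). So
`∑_{f≤F} G(f) ≤ ∏_{p≤F} (1+G(p)+G(p²)) ≤ exp(∑_{p ≤ F} (4/p + C/p²)) ≤ C (log F)^4` by Mertens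
(`∑_{p≤F} 1/p ≤ log log F + C`: `Pool/Agent/H91/PK/MR.lean`, `MR_sum_inv`, or
`H91/GoldMertens3.lean`). -/
theorem bf_sum : ∃ C : ℝ, 0 < C ∧ ∀ F : ℕ, 2 ≤ F →
    ∑ f ∈ Finset.Icc 1 F, (f : ℝ) * (sg f ^ 2 * bf f) ^ 2 ≤ C * Real.log F ^ 4 := by
  obtain ⟨C, hC0, hC⟩ := BfSum_big
  refine ⟨C * 10 ^ 4, by positivity, ?_⟩
  intro F hF
  change ∑ f ∈ Finset.Icc 1 F, BfSum_G f ≤ _
  have hl2 : 0 < Real.log 2 := Real.log_pos (by norm_num)
  have hlF : Real.log 2 ≤ Real.log F := Real.log_le_log (by norm_num) (by exact_mod_cast hF)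
  rcases le_or_gt 1024 F with h | h
  · refine (hC F h).trans ?_
    have h1 : 0 ≤ Real.log F ^ 4 := by positivity
    nlinarith [mul_nonneg hC0.le h1]
  · have h1 : ∑ f ∈ Finset.Icc 1 F, BfSum_G f ≤ ∑ f ∈ Finset.Icc 1 1024, BfSum_G f :=
      Finset.sum_le_sum_of_subset_of_nonneg (Finset.Icc_subset_Icc_right h.le)
        (fun f _ _ => BfSum_G_nonneg f)
    have h2 := hC 1024 le_rfl
    have h3 : Real.log ((1024 : ℕ) : ℝ) = 10 * Real.log 2 := by
      rw [show ((1024 : ℕ) : ℝ) = (2 : ℝ) ^ (10 : ℕ) by norm_num, Real.log_pow]; norm_num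
    rw [h3] at h2
    have h4 : Real.log 2 ^ 4 ≤ Real.log F ^ 4 := pow_le_pow_left₀ hl2.le hlF 4
    calc ∑ f ∈ Finset.Icc 1 F, BfSum_G f ≤ C * (10 * Real.log 2) ^ 4 := h1.trans h2
      _ = C * 10 ^ 4 * Real.log 2 ^ 4 := by ring
      _ ≤ C * 10 ^ 4 * Real.log F ^ 4 := by
          apply mul_le_mul_of_nonneg_left h4
          positivity

end Pool.Agent.H14.CO
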