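import Pool.Agent.H14.CO.Cut

/-!
# CO module Diag: the square norm of a smoothly cut convolution

Notation: `L = log T`, `h = L/3200`, `r = (11/20) L`.
-/

set_option autoImplicit false

namespace Pool.Agent.H14.CO

open Set MeasureTheory Complex

/-- The hypothesis on the coefficients `a`: for all `z` with `1/L ≤ Re z ≤ (K+1)/L` and all `N`,
`∑_{n ≤ N} (1/n) |∑_{D ∣ n} a_D (n/D)^{-z}|² ≤ Q (1 + L‖z‖)^8`. -/
def DiagHyp (T K Q : ℝ) (a : ℕ → ℂ) : Prop :=
  ∀ z : ℂ, 1 / Real.log T ≤ z.re → z.re ≤ (K + 1) / Real.log T → ∀ N : ℕ,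
    ∑ n ∈ Finset.Icc 1 N, (1 / (n : ℝ)) * ‖∑ D ∈ n.divisors, a D * ((n / D : ℕ) : ℂ) ^ (-z)‖ ^ 2
      ≤ Q * (1 + Real.log T * ‖z‖) ^ 8

private theorem Diag_cs (f g : ℝ → ℝ) (hf : ∀ y, 0 ≤ f y) (h1 : Integrable f)
    (h2 : Integrable fun y => f y * g y) (h3 : Integrable fun y => f y * g y ^ 2) :
    (∫ y, f y * g y) ^ 2 ≤ (∫ y, f y) * ∫ y, f y * g y ^ 2 := by
  have key : ∀ t : ℝ, 0 ≤ (∫ y, f y) * (t * t) + (-2 * ∫ y, f y * g y) * t + ∫ y, f y * g y ^ 2 := by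
    intro t
    have e : (∫ y, f y) * (t * t) + (-2 * ∫ y, f y * g y) * t + ∫ y, f y * g y ^ 2 =
        ∫ y, f y * (t - g y) ^ 2 := by
      have : (fun y => f y * (t - g y) ^ 2) =
          fun y => (t * t) * f y + ((-2 * t) * (f y * g y) + f y * g y ^ 2) := by
        ext y; ring
      have h4 : Integrable fun y => ((-2 * t) * (f y * g y) + f y * g y ^ 2) := (h2.const_mul _).add h3
      have e1 : ∫ y, ((t * t) * f y + ((-2 * t) * (f y * g y) + f y * g y ^ 2)) =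
          (∫ y, (t * t) * f y) + ∫ y, ((-2 * t) * (f y * g y) + f y * g y ^ 2) :=
        integral_add (h1.const_mul _) h4
      have e2 : ∫ y, ((-2 * t) * (f y * g y) + f y * g y ^ 2) =
          (∫ y, (-2 * t) * (f y * g y)) + ∫ y, f y * g y ^ 2 := integral_add (h2.const_mul _) h3
      rw [this, e1, e2, integral_const_mul, integral_const_mul]
      ring
    rw [e]
    exact integral_nonneg fun y => mul_nonneg (hf y) (sq_nonneg _)
  have := discrim_le_zero key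
  unfold discrim at this
  nlinarith

private theorem Diag_pow {m : ℕ} (hm : 0 < m) (z : ℂ) (r : ℝ) :
    Complex.exp (z * ((r - Real.log m : ℝ) : ℂ)) = Complex.exp (z * r) * (m : ℂ) ^ (-z) := by
  have hm' : (m : ℂ) ≠ 0 := by exact_mod_cast hm.ne'
  rw [Complex.cpow_def_of_ne_zero hm', ← Complex.exp_add, Complex.ofReal_sub, Complex.natCast_log]
  congr 1
  ring

private theorem Diag_norm_pow {m : ℕ} (hm : 0 < m) (z : ℂ) (hz : 0 ≤ z.re) : ‖(m : ℂ) ^ (-z)‖ ≤ 1 := by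
  rw [Complex.norm_natCast_cpow_of_pos hm]
  apply Real.rpow_le_one_of_one_le_of_nonpos
  · exact_mod_cast hm
  · simp [hz]

private theorem Diag_alg (w Q c p q s : ℝ) :
    w * (Q * (c * (p * q) * s)) = c * (p * Q * q) * (s * w) := by ring

private theorem Diag_alg2 (w c p : ℝ) : w * (c * p * w) = w ^ 2 * c * p := by ring

private theorem Diag_gen {T K Q : ℝ} (hT : Real.exp 3200 ≤ T) (hK : 1 ≤ K) (hQ : 0 ≤ Q) (a : ℕ → ℂ)
    (ha : DiagHyp T K Q a) (x y₀ : ℝ) (hx : 0 ≤ x) (hx' : x ≤ K / Real.log T) (N : ℕ)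
    (k : ℝ → ℂ) (hk : Continuous k) (W : ℝ)
    (hi : Integrable fun y => (1 + Real.log T / 3200 * |y|) ^ 30 * ‖k y‖)
    (hW : ∫ y, (1 + Real.log T / 3200 * |y|) ^ 30 * ‖k y‖ ≤ W)
    (V : ℝ → ℂ) (κ : ℂ) (hκ : ‖κ‖ ≤ 1)
    (c : ℝ) (hc : c = 3200 ^ 8)
    (hV : ∀ ρ : ℝ, V ρ = κ * ∫ y : ℝ, Complex.exp ((((1 / Real.log T : ℝ) : ℂ) + y * I) * ρ) * k y) :
    ∑ n ∈ Finset.Icc 1 N, (1 / (n : ℝ)) *
      ‖∑ D ∈ n.divisors, a D * ((n / D : ℕ) : ℂ) ^ (-(x + y₀ * I : ℂ)) *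
        V (11 / 20 * Real.log T - Real.log (n / D : ℕ))‖ ^ 2
      ≤ (Real.exp 1 * W) ^ 2 * c * ((1 + K) ^ 8 * Q * (1 + Real.log T * |y₀|) ^ 8) := by
  have hc0 : 0 ≤ c := by rw [hc]; positivity
  have hT0 : 0 < T := (Real.exp_pos _).trans_le hT
  have hL : 3200 ≤ Real.log T := (Real.le_log_iff_exp_le hT0).2 hT
  set L := Real.log T with hLdef
  have hL0 : 0 < L := by linarith only [hL]
  set h := L / 3200 with hh
  have hh0 : 0 < h := by positivity
  set σ : ℝ := 1 / L with hσ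
  have hσ0 : 0 < σ := by positivity
  have hLσ : L * σ = 1 := by rw [hσ]; field_simp
  set r : ℝ := 11 / 20 * L with hr
  set w : ℝ → ℂ := fun y => Complex.exp (((σ : ℂ) + y * I) * r) * k y with hw
  have hwc : Continuous w := by
    rw [hw]
    exact Continuous.mul (by fun_prop) hk
  have hwn : ∀ y, ‖w y‖ ≤ Real.exp 1 * ‖k y‖ := by
    intro y
    rw [hw]
    simp only
    rw [norm_mul, Complex.norm_exp]
    apply mul_le_mul_of_nonneg_right _ (norm_nonneg _)
    apply Real.exp_le_exp.2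
    have : (((σ : ℂ) + y * I) * r).re = σ * r := by simp
    rw [this, hr]
    nlinarith only [hLσ]
  have hone : ∀ y : ℝ, (1 : ℝ) ≤ (1 + h * |y|) ^ 30 := by
    intro y
    apply one_le_pow₀
    have : 0 ≤ h * |y| := by positivity
    linarith
  have hwi : Integrable fun y => (1 + h * |y|) ^ 30 * ‖w y‖ := by
    refine (hi.const_mul (Real.exp 1)).mono' ?_ (Filter.Eventually.of_forall fun y => ?_)
    · exact (Continuous.mul (by fun_prop) hwc.norm).aestronglyMeasurable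
    · rw [Real.norm_eq_abs, abs_of_nonneg (mul_nonneg (by linarith [hone y]) (norm_nonneg _))]
      have := hwn y
      have := hone y
      nlinarith
  have hwI : ∫ y, (1 + h * |y|) ^ 30 * ‖w y‖ ≤ Real.exp 1 * W := by
    calc _ ≤ ∫ y, Real.exp 1 * ((1 + h * |y|) ^ 30 * ‖k y‖) := by
          apply integral_mono hwi (hi.const_mul _)
          intro y
          have := hwn y
          have := hone y
          simp only
          nlinarith
      _ = Real.exp 1 * ∫ y, ((1 + h * |y|) ^ 30 * ‖k y‖) := integral_const_mul _ _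
      _ ≤ _ := mul_le_mul_of_nonneg_left hW (Real.exp_pos _).le
  have hwi1 : Integrable fun y => ‖w y‖ := by
    refine hwi.mono' hwc.norm.aestronglyMeasurable (Filter.Eventually.of_forall fun y => ?_)
    rw [norm_norm]
    have := hone y
    have := norm_nonneg (w y)
    nlinarith
  have hwI1 : ∫ y, ‖w y‖ ≤ Real.exp 1 * W := by
    refine (integral_mono hwi1 hwi fun y => ?_).trans hwI
    have := hone y
    have := norm_nonneg (w y)
    simp only
    nlinarith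
  have hwI0 : 0 ≤ ∫ y, ‖w y‖ := integral_nonneg fun y => norm_nonneg _
  -- the inner functions
  set b : ℕ → ℝ → ℂ := fun n y => ∑ D ∈ n.divisors,
    a D * ((n / D : ℕ) : ℂ) ^ (-(((σ : ℂ) + y * I) + (x + y₀ * I))) with hb
  have hpos : ∀ n ∈ Finset.Icc 1 N, ∀ D ∈ n.divisors, 0 < n / D := by
    intro n hn D hD
    rw [Finset.mem_Icc] at hn
    exact Nat.div_pos (Nat.divisor_le hD) (Nat.pos_of_mem_divisors hD)
  have hbt : ∀ n ∈ Finset.Icc 1 N, ∀ D ∈ n.divisors,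
      Continuous fun y : ℝ => a D * ((n / D : ℕ) : ℂ) ^ (-(((σ : ℂ) + y * I) + (x + y₀ * I))) := by
    intro n hn D hD
    refine continuous_const.mul (Continuous.const_cpow (by fun_prop) (Or.inl ?_))
    exact_mod_cast (hpos n hn D hD).ne'
  have hbn : ∀ n ∈ Finset.Icc 1 N, ∀ D ∈ n.divisors, ∀ y : ℝ,
      ‖a D * ((n / D : ℕ) : ℂ) ^ (-(((σ : ℂ) + y * I) + (x + y₀ * I)))‖ ≤ ‖a D‖ := by
    intro n hn D hD y
    rw [norm_mul]
    apply mul_le_of_le_one_right (norm_nonneg _)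
    apply Diag_norm_pow (hpos n hn D hD)
    have : (((σ : ℂ) + y * I) + (x + y₀ * I)).re = σ + x := by simp
    rw [this]
    linarith
  have hbc : ∀ n ∈ Finset.Icc 1 N, Continuous (b n) := by
    intro n hn
    exact continuous_finsetSum _ fun D hD => hbt n hn D hD
  have hbb : ∀ n ∈ Finset.Icc 1 N, ∀ y, ‖b n y‖ ≤ ∑ D ∈ n.divisors, ‖a D‖ := by
    intro n hn y
    exact (norm_sum_le _ _).trans (Finset.sum_le_sum fun D hD => hbn n hn D hD y)
  -- the formula
  have hform : ∀ n ∈ Finset.Icc 1 N, ∑ D ∈ n.divisors, a D * ((n / D : ℕ) : ℂ) ^ (-(x + y₀ * I : ℂ)) *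
        V (r - Real.log (n / D : ℕ)) = κ * ∫ y, w y * b n y := by
    intro n hn
    have e1 : ∀ y, w y * b n y = ∑ D ∈ n.divisors,
        w y * (a D * ((n / D : ℕ) : ℂ) ^ (-(((σ : ℂ) + y * I) + (x + y₀ * I)))) := by
      intro y
      rw [hb]
      simp only
      rw [Finset.mul_sum]
    rw [integral_congr_ae (Filter.Eventually.of_forall e1), integral_finsetSum, Finset.mul_sum]
    · apply Finset.sum_congr rfl
      intro D hD
      rw [hV, mul_left_comm, ← integral_const_mul]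
      congr 2
      ext y
      have hm := hpos n hn D hD
      have hm' : ((n / D : ℕ) : ℂ) ≠ 0 := by exact_mod_cast hm.ne'
      have e2 : -(((σ : ℂ) + y * I) + (x + y₀ * I)) = -((σ : ℂ) + y * I) + -(x + y₀ * I) := by ring
      rw [Diag_pow hm, hw, e2, Complex.cpow_add _ _ hm']
      simp only
      ring
    · intro D hD
      refine (hwi1.const_mul ‖a D‖).mono' ((hwc.mul (hbt n hn D hD)).aestronglyMeasurable)
        (Filter.Eventually.of_forall fun y => ?_)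
      rw [norm_mul, mul_comm]
      exact mul_le_mul_of_nonneg_right (hbn n hn D hD y) (norm_nonneg _)
  -- integrability
  have hi1 : ∀ n ∈ Finset.Icc 1 N, Integrable fun y => ‖w y‖ * ‖b n y‖ := by
    intro n hn
    refine (hwi1.const_mul (∑ D ∈ n.divisors, ‖a D‖)).mono'
      ((hwc.norm.mul (hbc n hn).norm).aestronglyMeasurable) (Filter.Eventually.of_forall fun y => ?_)
    rw [Real.norm_eq_abs, abs_of_nonneg (by positivity), mul_comm]
    exact mul_le_mul_of_nonneg_right (hbb n hn y) (norm_nonneg _)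
  have hi2 : ∀ n ∈ Finset.Icc 1 N, Integrable fun y => ‖w y‖ * ‖b n y‖ ^ 2 := by
    intro n hn
    refine (hwi1.const_mul ((∑ D ∈ n.divisors, ‖a D‖) ^ 2)).mono'
      ((hwc.norm.mul ((hbc n hn).norm.pow 2)).aestronglyMeasurable)
      (Filter.Eventually.of_forall fun y => ?_)
    rw [Real.norm_eq_abs, abs_of_nonneg (by positivity), mul_comm]
    exact mul_le_mul_of_nonneg_right (pow_le_pow_left₀ (norm_nonneg _) (hbb n hn y) 2) (norm_nonneg _)
  have hterm : ∀ n ∈ Finset.Icc 1 N, ‖∑ D ∈ n.divisors, a D * ((n / D : ℕ) : ℂ) ^ (-(x + y₀ * I : ℂ)) *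
        V (r - Real.log (n / D : ℕ))‖ ^ 2 ≤ (∫ y, ‖w y‖) * ∫ y, ‖w y‖ * ‖b n y‖ ^ 2 := by
    intro n hn
    rw [hform n hn, norm_mul]
    have h1 : ‖∫ y, w y * b n y‖ ≤ ∫ y, ‖w y‖ * ‖b n y‖ := by
      refine (norm_integral_le_integral_norm _).trans (le_of_eq ?_)
      congr 1
      ext y
      exact norm_mul _ _
    have h2 : ‖κ‖ * ‖∫ y, w y * b n y‖ ≤ ∫ y, ‖w y‖ * ‖b n y‖ :=
      (mul_le_of_le_one_left (norm_nonneg _) hκ).trans h1
    refine (pow_le_pow_left₀ (by positivity) h2 2).trans ?_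
    exact Diag_cs (fun y => ‖w y‖) (fun y => ‖b n y‖) (fun y => norm_nonneg _) hwi1 (hi1 n hn) (hi2 n hn)
  -- the sum over `n`
  have hsum : ∀ y : ℝ, ∑ n ∈ Finset.Icc 1 N, (1 / (n : ℝ)) * (‖w y‖ * ‖b n y‖ ^ 2) ≤
      c * ((1 + K) ^ 8 * Q * (1 + L * |y₀|) ^ 8) * ((1 + h * |y|) ^ 30 * ‖w y‖) := by
    intro y
    have e : ∑ n ∈ Finset.Icc 1 N, (1 / (n : ℝ)) * (‖w y‖ * ‖b n y‖ ^ 2) =
        ‖w y‖ * ∑ n ∈ Finset.Icc 1 N, (1 / (n : ℝ)) * ‖b n y‖ ^ 2 := by
      rw [Finset.mul_sum]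
      exact Finset.sum_congr rfl fun n _ => by ring
    have hre : (((σ : ℂ) + y * I) + (x + y₀ * I)).re = σ + x := by simp
    have h1 := ha (((σ : ℂ) + y * I) + (x + y₀ * I)) (by rw [hre]; linarith)
      (by
        rw [hre]
        have : (K + 1) / L = K / L + 1 / L := by ring
        rw [this]
        linarith) N
    have hA : L * ‖((σ : ℂ) + y * I) + (x + y₀ * I)‖ ≤ 1 + L * |y| + K + L * |y₀| := by
      have n1 : ‖((σ : ℂ) + y * I) + (x + y₀ * I)‖ ≤ σ + |y| + (x + |y₀|) := by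
        refine (norm_add_le _ _).trans (add_le_add ((norm_add_le _ _).trans ?_)
          ((norm_add_le _ _).trans ?_))
        · rw [norm_mul, Complex.norm_I, mul_one, Complex.norm_real, Complex.norm_real, Real.norm_eq_abs,
            Real.norm_eq_abs, abs_of_pos hσ0]
        · rw [norm_mul, Complex.norm_I, mul_one, Complex.norm_real, Complex.norm_real, Real.norm_eq_abs,
            Real.norm_eq_abs, abs_of_nonneg hx]
      have n2 : L * x ≤ K := by
        rw [le_div_iff₀ hL0] at hx'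
        linarith
      have n3 := mul_le_mul_of_nonneg_left n1 hL0.le
      nlinarith only [hLσ, n2, n3]
    have hLh : L = 3200 * h := by rw [hh]; ring
    have hy0 : 0 ≤ h * |y| := by positivity
    have hy1 : 0 ≤ L * |y₀| := by positivity
    have hB : 1 + L * ‖((σ : ℂ) + y * I) + (x + y₀ * I)‖ ≤
        3200 * ((1 + K) * (1 + L * |y₀|) * (1 + h * |y|)) := by
      have e1 : L * |y| = 3200 * (h * |y|) := by rw [hLh]; ring
      have e2 : (1 + K) * (1 + L * |y₀|) * (1 + h * |y|) ≥ 1 + K + L * |y₀| + h * |y| := by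
        have p1 : 0 ≤ K * (L * |y₀|) := by positivity
        have p2 : 0 ≤ K * (h * |y|) := by positivity
        have p3 : 0 ≤ (L * |y₀|) * (h * |y|) := by positivity
        have p4 : 0 ≤ K * (L * |y₀|) * (h * |y|) := by positivity
        nlinarith only [p1, p2, p3, p4]
      nlinarith only [hK, hA, hy1, e1, e2]
    have hB8 : (1 + L * ‖((σ : ℂ) + y * I) + (x + y₀ * I)‖) ^ 8 ≤
        c * ((1 + K) ^ 8 * (1 + L * |y₀|) ^ 8) * (1 + h * |y|) ^ 30 := by
      refine (pow_le_pow_left₀ (by positivity) hB 8).trans ?_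
      rw [mul_pow, mul_pow, mul_pow, ← mul_assoc, ← hc]
      apply mul_le_mul_of_nonneg_left _ (by positivity)
      exact pow_le_pow_right₀ (by linarith) (by norm_num)
    have h2 := mul_le_mul_of_nonneg_left hB8 hQ
    rw [e]
    refine (mul_le_mul_of_nonneg_left (h1.trans h2) (norm_nonneg (w y))).trans (le_of_eq ?_)
    exact Diag_alg _ _ _ _ _ _
  calc ∑ n ∈ Finset.Icc 1 N, (1 / (n : ℝ)) *
      ‖∑ D ∈ n.divisors, a D * ((n / D : ℕ) : ℂ) ^ (-(x + y₀ * I : ℂ)) *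
        V (r - Real.log (n / D : ℕ))‖ ^ 2
      ≤ ∑ n ∈ Finset.Icc 1 N, (1 / (n : ℝ)) * ((∫ y, ‖w y‖) * ∫ y, ‖w y‖ * ‖b n y‖ ^ 2) :=
        Finset.sum_le_sum fun n hn => mul_le_mul_of_nonneg_left (hterm n hn) (by positivity)
    _ = (∫ y, ‖w y‖) * ∫ y, ∑ n ∈ Finset.Icc 1 N, (1 / (n : ℝ)) * (‖w y‖ * ‖b n y‖ ^ 2) := by
        rw [integral_finsetSum _ fun n hn => (hi2 n hn).const_mul _, Finset.mul_sum]
        apply Finset.sum_congr rfl
        intro n _
        rw [integral_const_mul]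
        ring
    _ ≤ (∫ y, ‖w y‖) * ∫ y, c * ((1 + K) ^ 8 * Q * (1 + L * |y₀|) ^ 8) *
          ((1 + h * |y|) ^ 30 * ‖w y‖) := by
        apply mul_le_mul_of_nonneg_left _ hwI0
        apply integral_mono _ (hwi.const_mul _) hsum
        exact integrable_finsetSum _ fun n hn => (hi2 n hn).const_mul _
    _ = (∫ y, ‖w y‖) * (c * ((1 + K) ^ 8 * Q * (1 + L * |y₀|) ^ 8) *
          ∫ y, ((1 + h * |y|) ^ 30 * ‖w y‖)) := by
        rw [integral_const_mul]
    _ ≤ (Real.exp 1 * W) * (c * ((1 + K) ^ 8 * Q * (1 + L * |y₀|) ^ 8) * (Real.exp 1 * W)) := by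
        apply mul_le_mul hwI1 (mul_le_mul_of_nonneg_left hwI (by positivity)) _ (hwI0.trans hwI1)
        apply mul_nonneg (by positivity)
        exact integral_nonneg fun y => mul_nonneg (by linarith [hone y]) (norm_nonneg _)
    _ = _ := Diag_alg2 _ _ _

private theorem Diag_two_pi : ‖(((1 / (2 * Real.pi) : ℝ)) : ℂ)‖ ≤ 1 := by
  rw [Complex.norm_real, Real.norm_eq_abs, abs_of_pos (by positivity)]
  rw [div_le_one (by positivity)]
  have := Real.pi_gt_three
  linarith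

private theorem Diag_kcont (h σ : ℝ) : Continuous (fun y : ℝ => kn h ((σ : ℂ) + y * I)) :=
  (differentiable_kn h).continuous.comp (by fun_prop)

private theorem Diag_exp {L : ℝ} (hL : 3200 ≤ L) :
    Real.exp (32 * (L / 3200) * |1 / L| + (1 / L) ^ 2) ≤ Real.exp 2 := by
  have hL0 : 0 < L := by linarith
  apply Real.exp_le_exp.2
  rw [abs_of_pos (by positivity)]
  have e1 : 32 * (L / 3200) * (1 / L) = 1 / 100 := by field_simp; norm_num
  have e2 : (1 / L) ^ 2 ≤ 1 := by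
    apply pow_le_one₀ (by positivity)
    rw [div_le_one hL0]
    linarith
  rw [e1]
  linarith only [e2]

/-- PROOF. `vc h (r - log m) = (1/2π) ∫ e^{z r} m^{-z} kn h z/z dy` on `Re z = 1/L` (`vc_line`), so
`c_n := ∑_{D∣n} a_D (n/D)^{-(x+iy₀)} vc h (r - log (n/D)) = (1/2π) ∫ e^{zr} (kn h z/z) b_n(z) dy`,
`b_n(z) = ∑_{D∣n} a_D (n/D)^{-(z+x+iy₀)}`. Minkowski (norm of a Bochner integral with values in
`EuclideanSpace`, or `cs_int` for each `n` and exchange of the finite sum with the integral):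
`∑ |c_n|²/n ≤ (∫ |e^{zr}| |kn h z/z|) (∫ |e^{zr}| |kn h z/z| ∑_n |b_n(z)|²/n dy)`,
`|e^{zr}| = e^{11/20}`, `∑ |b_n|²/n ≤ Q (1+L|z+x+iy₀|)^8 ≤ Q (1+K)^8 (1+L|z|)^8 (1+L|y₀|)^8`
(`Re (z + x) ∈ [1/L,(K+1)/L]`), `(1+L|z|)^8 ≤ C (1+h|y|)^8` (`L = 3200 h`, `L Re z = 1`), `kn_int`
(`h |σ| = 1/3200`). -/
theorem diag_vc : ∃ C : ℝ, 0 < C ∧ ∀ T K Q : ℝ, Real.exp 3200 ≤ T → 1 ≤ K → 0 ≤ Q → ∀ a : ℕ → ℂ,
    DiagHyp T K Q a → ∀ x y₀ : ℝ, 0 ≤ x → x ≤ K / Real.log T → ∀ N : ℕ,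
    ∑ n ∈ Finset.Icc 1 N, (1 / (n : ℝ)) *
      ‖∑ D ∈ n.divisors, a D * ((n / D : ℕ) : ℂ) ^ (-(x + y₀ * I : ℂ)) *
        vc (Real.log T / 3200) (11 / 20 * Real.log T - Real.log (n / D : ℕ))‖ ^ 2
      ≤ C * (1 + K) ^ 8 * Q * (1 + Real.log T * |y₀|) ^ 8 := by
  obtain ⟨C, hC, H⟩ := kn_int 0
  refine ⟨(Real.exp 1 * (C * Real.exp 2 * 3201)) ^ 2 * 3200 ^ 8, by positivity, ?_⟩
  intro T K Q hT hK hQ a ha x y₀ hx hx' N
  have hT0 : 0 < T := (Real.exp_pos _).trans_le hT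
  have hL : 3200 ≤ Real.log T := (Real.le_log_iff_exp_le hT0).2 hT
  have hL0 : 0 < Real.log T := by linarith
  have hσ : 0 < 1 / Real.log T := by positivity
  obtain ⟨h1, h2⟩ := H (Real.log T / 3200) (1 / Real.log T) (by positivity) hσ.ne'
  simp only [pow_zero, mul_one] at h1 h2
  have h3 : C * Real.exp (32 * (Real.log T / 3200) * |1 / Real.log T| + (1 / Real.log T) ^ 2) *
      (1 + 1 / (Real.log T / 3200 * |1 / Real.log T|)) ≤ C * Real.exp 2 * 3201 := by
    apply mul_le_mul (mul_le_mul_of_nonneg_left (Diag_exp hL) hC.le) _ (by positivity) (by positivity)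
    rw [abs_of_pos hσ]
    have : Real.log T / 3200 * (1 / Real.log T) = 1 / 3200 := by field_simp
    rw [this]
    norm_num
  have hne : ∀ y : ℝ, (((1 / Real.log T : ℝ) : ℂ) + y * I) ≠ 0 := by
    intro y hy
    have := congrArg Complex.re hy
    simp only [add_re, ofReal_re, mul_re, I_re, mul_zero, ofReal_im, I_im, mul_one, sub_self,
      add_zero, zero_re] at this
    exact hσ.ne' this
  have key := Diag_gen hT hK hQ a ha x y₀ hx hx' N
    (fun y => kn (Real.log T / 3200) (((1 / Real.log T : ℝ) : ℂ) + y * I) /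
      (((1 / Real.log T : ℝ) : ℂ) + y * I))
    ((Diag_kcont _ _).div (by fun_prop) hne) _ h1 (h2.trans h3)
    (vc (Real.log T / 3200)) _ Diag_two_pi _ rfl (fun ρ => vc_line _ ρ _ (by positivity) hσ)
  refine key.trans (le_of_eq ?_)
  ring

/-- the same for `vd` (use `kn_int'`; there is even an extra factor `1/h²`). -/
theorem diag_vd : ∃ C : ℝ, 0 < C ∧ ∀ T K Q : ℝ, Real.exp 3200 ≤ T → 1 ≤ K → 0 ≤ Q → ∀ a : ℕ → ℂ,
    DiagHyp T K Q a → ∀ x y₀ : ℝ, 0 ≤ x → x ≤ K / Real.log T → ∀ N : ℕ,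
    ∑ n ∈ Finset.Icc 1 N, (1 / (n : ℝ)) *
      ‖∑ D ∈ n.divisors, a D * ((n / D : ℕ) : ℂ) ^ (-(x + y₀ * I : ℂ)) *
        vd (Real.log T / 3200) (11 / 20 * Real.log T - Real.log (n / D : ℕ))‖ ^ 2
      ≤ C * (1 + K) ^ 8 * Q * (1 + Real.log T * |y₀|) ^ 8 := by
  obtain ⟨C, hC, H⟩ := kn_int' 0
  refine ⟨(Real.exp 1 * (C * Real.exp 2)) ^ 2 * 3200 ^ 8, by positivity, ?_⟩
  intro T K Q hT hK hQ a ha x y₀ hx hx' N
  have hT0 : 0 < T := (Real.exp_pos _).trans_le hT
  have hL : 3200 ≤ Real.log T := (Real.le_log_iff_exp_le hT0).2 hT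
  have hL0 : 0 < Real.log T := by linarith
  obtain ⟨h1, h2⟩ := H (Real.log T / 3200) (1 / Real.log T) (by positivity)
  simp only [pow_zero, mul_one] at h1 h2
  have h3 : C * Real.exp (32 * (Real.log T / 3200) * |1 / Real.log T| + (1 / Real.log T) ^ 2) /
      (Real.log T / 3200) ≤ C * Real.exp 2 := by
    refine (div_le_self (by positivity) (by linarith only [hL])).trans ?_
    exact mul_le_mul_of_nonneg_left (Diag_exp hL) hC.le
  have key := Diag_gen hT hK hQ a ha x y₀ hx hx' N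
    (fun y => kn (Real.log T / 3200) (((1 / Real.log T : ℝ) : ℂ) + y * I))
    (Diag_kcont _ _) _ h1 (h2.trans h3)
    (vd (Real.log T / 3200)) _ Diag_two_pi _ rfl (fun ρ => vd_line _ ρ _ (by positivity))
  refine key.trans (le_of_eq ?_)
  ring

end Pool.Agent.H14.CO
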