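import Pool.Agent.H14.CO.Defs

/-!
# CO module Gcd: diagonalisation of the quadratic form with the lcm
-/

set_option autoImplicit false

namespace Pool.Agent.H14.CO

open Set MeasureTheory Complex

/-- the arithmetic function `n ↦ n^s` -/
private noncomputable def Gcd_pw (s : ℝ) : ArithmeticFunction ℝ :=
  ⟨fun n => if n = 0 then 0 else (n : ℝ) ^ s, by simp⟩

private theorem Gcd_pw_apply (s : ℝ) {n : ℕ} (hn : n ≠ 0) : Gcd_pw s n = (n : ℝ) ^ s := by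
  show (if n = 0 then (0 : ℝ) else (n : ℝ) ^ s) = (n : ℝ) ^ s
  rw [if_neg hn]

/-- the Jordan function with real exponent -/
private noncomputable def Gcd_J (s : ℝ) : ArithmeticFunction ℝ :=
  ((ArithmeticFunction.moebius : ArithmeticFunction ℤ) : ArithmeticFunction ℝ) * Gcd_pw s

private theorem Gcd_zetaJ (s : ℝ) {n : ℕ} (hn : n ≠ 0) :
    ∑ f ∈ n.divisors, Gcd_J s f = (n : ℝ) ^ s := by
  have h1 : ((ArithmeticFunction.zeta : ArithmeticFunction ℕ) : ArithmeticFunction ℝ) * Gcd_J s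
      = Gcd_pw s := by
    unfold Gcd_J
    rw [← mul_assoc, ArithmeticFunction.coe_zeta_mul_coe_moebius, one_mul]
  rw [← ArithmeticFunction.coe_zeta_mul_apply, h1, Gcd_pw_apply s hn]

private theorem Gcd_pw_mult (s : ℝ) : (Gcd_pw s).IsMultiplicative := by
  refine ArithmeticFunction.IsMultiplicative.iff_ne_zero.2 ⟨?_, ?_⟩
  · rw [Gcd_pw_apply s one_ne_zero]
    simp
  · intro m n hm hn _
    rw [Gcd_pw_apply s hm, Gcd_pw_apply s hn, Gcd_pw_apply s (mul_ne_zero hm hn)]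
    push_cast
    exact Real.mul_rpow (Nat.cast_nonneg _) (Nat.cast_nonneg _)

private theorem Gcd_J_mult (s : ℝ) : (Gcd_J s).IsMultiplicative :=
  ArithmeticFunction.isMultiplicative_moebius.intCast.mul (Gcd_pw_mult s)

private theorem Gcd_J_prime_pow {s : ℝ} (hs : 0 ≤ s) {p : ℕ} (hp : p.Prime) (k : ℕ) :
    0 ≤ Gcd_J s (p ^ k) := by
  rcases k with _ | k
  · rw [pow_zero, (Gcd_J_mult s).map_one]
    exact zero_le_one
  · have h1 := Gcd_zetaJ s (n := p ^ (k + 1)) (pow_ne_zero _ hp.ne_zero)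
    have h2 := Gcd_zetaJ s (n := p ^ k) (pow_ne_zero _ hp.ne_zero)
    rw [Nat.sum_divisors_prime_pow hp] at h1 h2
    rw [Finset.sum_range_succ, h2] at h1
    have h3 : ((p ^ k : ℕ) : ℝ) ^ s ≤ ((p ^ (k + 1) : ℕ) : ℝ) ^ s := by
      refine Real.rpow_le_rpow (Nat.cast_nonneg _) ?_ hs
      exact_mod_cast Nat.pow_le_pow_right hp.pos (Nat.le_succ k)
    linarith

private theorem Gcd_J_nonneg {s : ℝ} (hs : 0 ≤ s) (n : ℕ) : 0 ≤ Gcd_J s n := by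
  rcases eq_or_ne n 0 with rfl | hn
  · rw [ArithmeticFunction.map_zero]
  · rw [ArithmeticFunction.IsMultiplicative.multiplicative_factorization _ (Gcd_J_mult s) hn]
    refine Finset.prod_nonneg fun p hp => ?_
    exact Gcd_J_prime_pow hs (Nat.prime_of_mem_primeFactors (by simpa using hp)) _

private theorem Gcd_J_le {s : ℝ} (hs : 0 ≤ s) {n : ℕ} (hn : n ≠ 0) : Gcd_J s n ≤ (n : ℝ) ^ s := by
  rw [← Gcd_zetaJ s hn]
  exact Finset.single_le_sum (f := fun f => Gcd_J s f) (fun f _ => Gcd_J_nonneg hs f)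
    (Nat.mem_divisors_self n hn)

private theorem Gcd_summable (s : ℝ) (hs : 1 < s) : Summable (fun m : ℕ => (m : ℝ) ^ (-s)) :=
  Real.summable_nat_rpow.2 (by linarith)

private theorem Gcd_hasSum_mult (s : ℝ) (hs : 1 < s) (L : ℕ) (hL : L ≠ 0) :
    HasSum (fun n : ℕ => if L ∣ n then (n : ℝ) ^ (-s) else 0)
      ((L : ℝ) ^ (-s) * ∑' m : ℕ, (m : ℝ) ^ (-s)) := by
  have hinj : Function.Injective (fun m : ℕ => L * m) := fun a b h =>
    Nat.eq_of_mul_eq_mul_left (Nat.pos_of_ne_zero hL) h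
  rw [← hinj.hasSum_iff]
  · have h1 := (Gcd_summable s hs).hasSum.mul_left ((L : ℝ) ^ (-s))
    have h2 : ((fun n : ℕ => if L ∣ n then (n : ℝ) ^ (-s) else 0) ∘ fun m : ℕ => L * m)
        = fun m : ℕ => (L : ℝ) ^ (-s) * (m : ℝ) ^ (-s) := by
      funext m
      show (if L ∣ L * m then ((L * m : ℕ) : ℝ) ^ (-s) else 0) = _
      rw [if_pos (dvd_mul_right L m)]
      push_cast
      exact Real.mul_rpow (Nat.cast_nonneg _) (Nat.cast_nonneg _)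
    rw [h2]
    exact h1
  · intro n hn
    rw [if_neg]
    rintro ⟨m, rfl⟩
    exact hn ⟨m, rfl⟩

private theorem Gcd_zeta_le (s : ℝ) (hs : 1 < s) : ∑' m : ℕ, (m : ℝ) ^ (-s) ≤ 1 + 1 / (s - 1) := by
  refine (Gcd_summable s hs).tsum_le_of_sum_range_le fun n => ?_
  have hmono : ∑ i ∈ Finset.range n, (i : ℝ) ^ (-s) ≤
      ∑ i ∈ Finset.range (n + 2), (i : ℝ) ^ (-s) :=
    Finset.sum_le_sum_of_subset_of_nonneg (Finset.range_mono (by omega))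
      fun i _ _ => Real.rpow_nonneg (Nat.cast_nonneg _) _
  refine hmono.trans ?_
  rw [Finset.sum_range_succ', Finset.sum_range_succ']
  have h0 : ((0 : ℕ) : ℝ) ^ (-s) = 0 := by
    rw [Nat.cast_zero]
    exact Real.zero_rpow (by linarith)
  have h1 : (((0 + 1 : ℕ) : ℝ)) ^ (-s) = 1 := by simp
  rw [h0, h1, add_zero, add_comm]
  refine add_le_add_right ?_ 1
  have hanti : AntitoneOn (fun x : ℝ => x ^ (-s)) (Set.Icc (1 : ℝ) (1 + n)) := by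
    intro x hx y _ hxy
    exact Real.rpow_le_rpow_of_nonpos (by linarith [hx.1]) hxy (by linarith)
  have h2 := hanti.sum_le_integral
  have h3 : ∑ i ∈ Finset.range n, (((i + 1 + 1 : ℕ) : ℝ)) ^ (-s) =
      ∑ i ∈ Finset.range n, (fun x : ℝ => x ^ (-s)) (1 + ((i + 1 : ℕ) : ℝ)) := by
    refine Finset.sum_congr rfl fun i _ => ?_
    show _ = (1 + ((i + 1 : ℕ) : ℝ)) ^ (-s)
    congr 1
    push_cast
    ring
  rw [h3]
  refine h2.trans ?_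
  have hn1 : (1 : ℝ) ≤ 1 + n := by
    have : (0 : ℝ) ≤ n := Nat.cast_nonneg n
    linarith
  rw [integral_rpow]
  · rw [Real.one_rpow]
    have h4 : 0 ≤ (1 + (n : ℝ)) ^ (-s + 1) := Real.rpow_nonneg (by linarith) _
    have h5 : ((1 + (n : ℝ)) ^ (-s + 1) - 1) / (-s + 1) = (1 - (1 + (n : ℝ)) ^ (-s + 1)) / (s - 1) := by
      have h6 : -s + 1 ≠ 0 := by linarith
      have h7 : s - 1 ≠ 0 := by linarith
      field_simp
      ring
    rw [h5]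
    exact div_le_div_of_nonneg_right (by linarith) (by linarith)
  · right
    constructor
    · linarith
    · rw [Set.uIcc_of_le hn1]
      intro h
      linarith [h.1]

private theorem Gcd_lcm (s : ℝ) (D D' : ℕ) (hD : D ≠ 0) (hD' : D' ≠ 0) :
    ((Nat.lcm D D' : ℕ) : ℝ) ^ (-s) =
      (D : ℝ) ^ (-s) * (D' : ℝ) ^ (-s) * ((Nat.gcd D D' : ℕ) : ℝ) ^ s := by
  have hg : 0 < Nat.gcd D D' := Nat.gcd_pos_of_pos_left _ (Nat.pos_of_ne_zero hD)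
  have hl : 0 < Nat.lcm D D' := Nat.lcm_pos (Nat.pos_of_ne_zero hD) (Nat.pos_of_ne_zero hD')
  have h1 : ((Nat.gcd D D' : ℕ) : ℝ) * ((Nat.lcm D D' : ℕ) : ℝ) = (D : ℝ) * (D' : ℝ) := by
    exact_mod_cast Nat.gcd_mul_lcm D D'
  have h2 : ((Nat.gcd D D' : ℕ) : ℝ) ^ (-s) * ((Nat.lcm D D' : ℕ) : ℝ) ^ (-s) =
      (D : ℝ) ^ (-s) * (D' : ℝ) ^ (-s) := by
    rw [← Real.mul_rpow (Nat.cast_nonneg _) (Nat.cast_nonneg _), h1,
      Real.mul_rpow (Nat.cast_nonneg _) (Nat.cast_nonneg _)]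
  rw [← h2]
  have h3 : ((Nat.gcd D D' : ℕ) : ℝ) ^ (-s) * ((Nat.gcd D D' : ℕ) : ℝ) ^ s = 1 := by
    have hg' : (0 : ℝ) < ((Nat.gcd D D' : ℕ) : ℝ) := by exact_mod_cast hg
    rw [← Real.rpow_add hg']
    simp
  calc ((Nat.lcm D D' : ℕ) : ℝ) ^ (-s)
      = (((Nat.gcd D D' : ℕ) : ℝ) ^ (-s) * ((Nat.gcd D D' : ℕ) : ℝ) ^ s) *
        ((Nat.lcm D D' : ℕ) : ℝ) ^ (-s) := by rw [h3, one_mul]
    _ = _ := by ring

private theorem Gcd_quad (s : ℝ) (M : ℕ) (c : ℕ → ℝ) :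
    ∑ D ∈ Finset.Icc 1 M, ∑ D' ∈ Finset.Icc 1 M,
      c D * c D' * ((Nat.lcm D D' : ℕ) : ℝ) ^ (-s) =
    ∑ f ∈ Finset.Icc 1 M, Gcd_J s f *
      (∑ D ∈ (Finset.Icc 1 M).filter (fun D => f ∣ D), c D * (D : ℝ) ^ (-s)) ^ 2 := by
  have h1 : ∀ D ∈ Finset.Icc 1 M, ∀ D' ∈ Finset.Icc 1 M,
      c D * c D' * ((Nat.lcm D D' : ℕ) : ℝ) ^ (-s) =
      ∑ f ∈ Finset.Icc 1 M, if f ∣ D ∧ f ∣ D' then
        Gcd_J s f * ((c D * (D : ℝ) ^ (-s)) * (c D' * (D' : ℝ) ^ (-s))) else 0 := by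
    intro D hD D' hD'
    rw [Finset.mem_Icc] at hD hD'
    have hD0 : D ≠ 0 := by omega
    have hD0' : D' ≠ 0 := by omega
    have hg0 : Nat.gcd D D' ≠ 0 := Nat.gcd_ne_zero_left hD0
    rw [← Finset.sum_filter]
    have h2 : (Finset.Icc 1 M).filter (fun f => f ∣ D ∧ f ∣ D') = (Nat.gcd D D').divisors := by
      ext f
      rw [Finset.mem_filter, Finset.mem_Icc, Nat.mem_divisors]
      constructor
      · rintro ⟨_, h3, h4⟩
        exact ⟨Nat.dvd_gcd h3 h4, hg0⟩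
      · rintro ⟨h3, _⟩
        have h4 : f ∣ D := h3.trans (Nat.gcd_dvd_left _ _)
        have h5 : f ∣ D' := h3.trans (Nat.gcd_dvd_right _ _)
        refine ⟨⟨Nat.pos_of_dvd_of_pos h4 (by omega), (Nat.le_of_dvd (by omega) h4).trans hD.2⟩,
          h4, h5⟩
    rw [h2, ← Finset.sum_mul, Gcd_zetaJ s hg0, Gcd_lcm s D D' hD0 hD0']
    ring
  rw [Finset.sum_congr rfl fun D hD => Finset.sum_congr rfl fun D' hD' => h1 D hD D' hD']
  rw [Finset.sum_congr rfl fun D _ => Finset.sum_comm, Finset.sum_comm]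
  refine Finset.sum_congr rfl fun f _ => ?_
  rw [sq, Finset.sum_mul_sum, Finset.mul_sum, Finset.sum_filter]
  refine Finset.sum_congr rfl fun D _ => ?_
  by_cases hfD : f ∣ D
  · rw [if_pos hfD, Finset.mul_sum, Finset.sum_filter]
    refine Finset.sum_congr rfl fun D' _ => ?_
    by_cases hfD' : f ∣ D'
    · rw [if_pos ⟨hfD, hfD'⟩, if_pos hfD']
    · rw [if_neg (fun h => hfD' h.2), if_neg hfD']
  · rw [if_neg hfD]
    exact Finset.sum_eq_zero fun D' _ => if_neg fun h => hfD h.1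

private theorem Gcd_filter (n M : ℕ) (hn : n ≠ 0) :
    n.divisors.filter (fun D => D ≤ M) = (Finset.Icc 1 M).filter (fun D => D ∣ n) := by
  ext D
  simp only [Finset.mem_filter, Nat.mem_divisors, Finset.mem_Icc]
  constructor
  · rintro ⟨⟨h1, _⟩, h2⟩
    exact ⟨⟨Nat.pos_of_dvd_of_pos h1 (Nat.pos_of_ne_zero hn), h2⟩, h1⟩
  · rintro ⟨⟨_, h2⟩, h1⟩
    exact ⟨⟨h1, hn⟩, h2⟩

private theorem Gcd_real (s : ℝ) (hs : 1 < s) (M N : ℕ) (c : ℕ → ℝ) :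
    ∑ n ∈ Finset.Icc 1 N, (n : ℝ) ^ (-s) *
        (∑ D ∈ (Finset.Icc 1 M).filter (fun D => D ∣ n), c D) ^ 2
      ≤ (1 + 1 / (s - 1)) * ∑ f ∈ Finset.Icc 1 M, (f : ℝ) ^ s *
        (∑ D ∈ (Finset.Icc 1 M).filter (fun D => f ∣ D), c D * (D : ℝ) ^ (-s)) ^ 2 := by
  set Z := ∑' m : ℕ, (m : ℝ) ^ (-s) with hZ
  have hZ0 : 0 ≤ Z := tsum_nonneg fun m => Real.rpow_nonneg (Nat.cast_nonneg _) _
  have hhas : HasSum (fun n : ℕ => (n : ℝ) ^ (-s) *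
      (∑ D ∈ (Finset.Icc 1 M).filter (fun D => D ∣ n), c D) ^ 2)
      (∑ D ∈ Finset.Icc 1 M, ∑ D' ∈ Finset.Icc 1 M,
        c D * c D' * (((Nat.lcm D D' : ℕ) : ℝ) ^ (-s) * Z)) := by
    have h1 : (fun n : ℕ => (n : ℝ) ^ (-s) *
      (∑ D ∈ (Finset.Icc 1 M).filter (fun D => D ∣ n), c D) ^ 2) =
        fun n : ℕ => ∑ D ∈ Finset.Icc 1 M, ∑ D' ∈ Finset.Icc 1 M,
          c D * c D' * (if Nat.lcm D D' ∣ n then (n : ℝ) ^ (-s) else 0) := by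
      funext n
      rw [sq, Finset.sum_mul_sum, Finset.mul_sum, Finset.sum_filter]
      refine Finset.sum_congr rfl fun D _ => ?_
      by_cases hD : D ∣ n
      · rw [if_pos hD, Finset.mul_sum, Finset.sum_filter]
        refine Finset.sum_congr rfl fun D' _ => ?_
        by_cases hD' : D' ∣ n
        · rw [if_pos hD', if_pos (Nat.lcm_dvd hD hD')]
          ring
        · rw [if_neg hD', if_neg fun h => hD' ((Nat.dvd_lcm_right D D').trans h), mul_zero]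
      · rw [if_neg hD]
        refine (Finset.sum_eq_zero fun D' _ => ?_).symm
        rw [if_neg fun h => hD ((Nat.dvd_lcm_left D D').trans h), mul_zero]
    rw [h1]
    refine hasSum_sum fun D hD => hasSum_sum fun D' hD' => ?_
    rw [Finset.mem_Icc] at hD hD'
    exact (Gcd_hasSum_mult s hs (Nat.lcm D D')
      (Nat.lcm_ne_zero (by omega) (by omega))).mul_left (c D * c D')
  have hle : ∑ n ∈ Finset.Icc 1 N, (n : ℝ) ^ (-s) *
        (∑ D ∈ (Finset.Icc 1 M).filter (fun D => D ∣ n), c D) ^ 2 ≤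
      ∑ D ∈ Finset.Icc 1 M, ∑ D' ∈ Finset.Icc 1 M,
        c D * c D' * (((Nat.lcm D D' : ℕ) : ℝ) ^ (-s) * Z) :=
    sum_le_hasSum _ (fun n _ => mul_nonneg (Real.rpow_nonneg (Nat.cast_nonneg _) _)
      (sq_nonneg _)) hhas
  refine hle.trans ?_
  have h2 : ∑ D ∈ Finset.Icc 1 M, ∑ D' ∈ Finset.Icc 1 M,
        c D * c D' * (((Nat.lcm D D' : ℕ) : ℝ) ^ (-s) * Z) =
      Z * ∑ D ∈ Finset.Icc 1 M, ∑ D' ∈ Finset.Icc 1 M,
        c D * c D' * ((Nat.lcm D D' : ℕ) : ℝ) ^ (-s) := by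
    rw [Finset.mul_sum]
    refine Finset.sum_congr rfl fun D _ => ?_
    rw [Finset.mul_sum]
    refine Finset.sum_congr rfl fun D' _ => ?_
    ring
  rw [h2, Gcd_quad]
  have h3 : ∑ f ∈ Finset.Icc 1 M, Gcd_J s f *
      (∑ D ∈ (Finset.Icc 1 M).filter (fun D => f ∣ D), c D * (D : ℝ) ^ (-s)) ^ 2 ≤
      ∑ f ∈ Finset.Icc 1 M, (f : ℝ) ^ s *
        (∑ D ∈ (Finset.Icc 1 M).filter (fun D => f ∣ D), c D * (D : ℝ) ^ (-s)) ^ 2 := by
    refine Finset.sum_le_sum fun f hf => ?_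
    rw [Finset.mem_Icc] at hf
    exact mul_le_mul_of_nonneg_right (Gcd_J_le (by linarith) (by omega)) (sq_nonneg _)
  have h4 : 0 ≤ ∑ f ∈ Finset.Icc 1 M, (f : ℝ) ^ s *
        (∑ D ∈ (Finset.Icc 1 M).filter (fun D => f ∣ D), c D * (D : ℝ) ^ (-s)) ^ 2 :=
    Finset.sum_nonneg fun f _ => mul_nonneg (Real.rpow_nonneg (Nat.cast_nonneg _) _) (sq_nonneg _)
  calc Z * _ ≤ Z * _ := mul_le_mul_of_nonneg_left h3 hZ0
    _ ≤ _ := mul_le_mul_of_nonneg_right (Gcd_zeta_le s hs) h4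

private theorem Gcd_cpow (s : ℝ) (D : ℕ) : (D : ℂ) ^ (-(s : ℂ)) = (((D : ℝ) ^ (-s) : ℝ) : ℂ) := by
  rw [Complex.ofReal_cpow (Nat.cast_nonneg D)]
  push_cast
  rfl

private theorem Gcd_normsq (z : ℂ) : ‖z‖ ^ 2 = z.re ^ 2 + z.im ^ 2 := by
  rw [Complex.sq_norm, Complex.normSq_apply]
  ring

/-- For real `s > 1` and `c` supported on `[1, M]`,
`∑_{n ≤ N} n^{-s} |∑_{D ∣ n, D ≤ M} c_D|² ≤ (1 + 1/(s-1)) ∑_{f ≤ M} f^s |∑_{f ∣ D ≤ M} c_D D^{-s}|²`.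

PROOF. The left side is at most the sum over all `n ≥ 1`, which equals
`∑_{D,D'} c_D conj(c_{D'}) ∑_{[D,D'] ∣ n} n^{-s} = ζ(s) ∑_{D,D'} c_D conj(c_{D'}) [D,D']^{-s}`,
`[D,D']^{-s} = (D D')^{-s} (D,D')^s = (D D')^{-s} ∑_{f ∣ (D,D')} J(f)`, `J = μ * id^s`,
`0 ≤ J(f) = f^s ∏_{p∣f} (1 - p^{-s}) ≤ f^s`, giving `ζ(s) ∑_f J(f) |∑_{f∣D} c_D D^{-s}|²`;
`ζ(s) ≤ 1 + 1/(s-1)`. -/
theorem gcd_form (s : ℝ) (hs : 1 < s) (M N : ℕ) (c : ℕ → ℂ) :
    ∑ n ∈ Finset.Icc 1 N, (n : ℝ) ^ (-s) *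
        ‖∑ D ∈ n.divisors.filter (fun D => D ≤ M), c D‖ ^ 2
      ≤ (1 + 1 / (s - 1)) * ∑ f ∈ Finset.Icc 1 M, (f : ℝ) ^ s *
        ‖∑ D ∈ (Finset.Icc 1 M).filter (fun D => f ∣ D), c D * (D : ℂ) ^ (-(s : ℂ))‖ ^ 2 := by
  have h1 := Gcd_real s hs M N (fun D => (c D).re)
  have h2 := Gcd_real s hs M N (fun D => (c D).im)
  have hL : ∑ n ∈ Finset.Icc 1 N, (n : ℝ) ^ (-s) *
        ‖∑ D ∈ n.divisors.filter (fun D => D ≤ M), c D‖ ^ 2 =
      ∑ n ∈ Finset.Icc 1 N, (n : ℝ) ^ (-s) *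
        (∑ D ∈ (Finset.Icc 1 M).filter (fun D => D ∣ n), (c D).re) ^ 2 +
      ∑ n ∈ Finset.Icc 1 N, (n : ℝ) ^ (-s) *
        (∑ D ∈ (Finset.Icc 1 M).filter (fun D => D ∣ n), (c D).im) ^ 2 := by
    rw [← Finset.sum_add_distrib]
    refine Finset.sum_congr rfl fun n hn => ?_
    rw [Finset.mem_Icc] at hn
    rw [Gcd_filter n M (by omega), Gcd_normsq, Complex.re_sum, Complex.im_sum, mul_add]
  have hR : ∑ f ∈ Finset.Icc 1 M, (f : ℝ) ^ s *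
        ‖∑ D ∈ (Finset.Icc 1 M).filter (fun D => f ∣ D), c D * (D : ℂ) ^ (-(s : ℂ))‖ ^ 2 =
      ∑ f ∈ Finset.Icc 1 M, (f : ℝ) ^ s *
        (∑ D ∈ (Finset.Icc 1 M).filter (fun D => f ∣ D), (c D).re * (D : ℝ) ^ (-s)) ^ 2 +
      ∑ f ∈ Finset.Icc 1 M, (f : ℝ) ^ s *
        (∑ D ∈ (Finset.Icc 1 M).filter (fun D => f ∣ D), (c D).im * (D : ℝ) ^ (-s)) ^ 2 := by
    rw [← Finset.sum_add_distrib]
    refine Finset.sum_congr rfl fun f _ => ?_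
    rw [Gcd_normsq, Complex.re_sum, Complex.im_sum, mul_add]
    congr 3
    · refine Finset.sum_congr rfl fun D _ => ?_
      rw [Gcd_cpow, Complex.re_mul_ofReal]
    · refine Finset.sum_congr rfl fun D _ => ?_
      rw [Gcd_cpow, Complex.im_mul_ofReal]
  rw [hL, hR, mul_add]
  exact add_le_add h1 h2

end Pool.Agent.H14.CO
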