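import Pool.Agent.H14.CO.Cut

/-!
# CO module CutSum: smoothly cut zeta sums as vertical integrals
-/

set_option autoImplicit false

namespace Pool.Agent.H14.CO

open Set MeasureTheory Complex

private theorem CutSum_term (r σ y : ℝ) (s : ℂ) (l : ℕ) :
    ((l + 1 : ℕ) : ℂ) ^ (-s) * Complex.exp ((σ + y * I) * ((r - Real.log (l + 1 : ℕ) : ℝ) : ℂ)) =
      (1 / ((l : ℂ) + 1) ^ (s + (σ + y * I))) * Complex.exp ((σ + y * I) * r) := by
  have h1 : ((l : ℂ) + 1) ≠ 0 := Nat.cast_add_one_ne_zero l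
  have h2 : Complex.log ((l : ℂ) + 1) = ((Real.log (l + 1 : ℕ) : ℝ) : ℂ) := by
    have := Complex.natCast_log (n := l + 1)
    rw [this]
    push_cast
    rfl
  push_cast
  rw [Complex.cpow_def_of_ne_zero h1, Complex.cpow_def_of_ne_zero h1, one_div, ← Complex.exp_neg,
    ← Complex.exp_add, ← Complex.exp_add, h2]
  congr 1
  push_cast
  ring

private theorem CutSum_norm (r σ y : ℝ) (s : ℂ) (l : ℕ) (w : ℂ) :
    ‖(1 / ((l : ℂ) + 1) ^ (s + (σ + y * I))) * (Complex.exp ((σ + y * I) * r) * w)‖ =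
      1 / ((l : ℝ) + 1) ^ (s.re + σ) * (Real.exp (σ * r) * ‖w‖) := by
  have h1 : (0 : ℝ) < (l : ℝ) + 1 := by positivity
  have h2 : ((l : ℂ) + 1) = (((l : ℝ) + 1 : ℝ) : ℂ) := by push_cast; rfl
  rw [norm_mul, norm_mul, norm_div, norm_one, h2, Complex.norm_cpow_eq_rpow_re_of_pos h1, Complex.norm_exp]
  congr 2
  · congr 1
    simp
  · congr 1
    simp

private theorem CutSum_int (h σ : ℝ) (hh : 0 < h) (hσ : σ ≠ 0) :
    Integrable (fun y : ℝ => kn h (σ + y * I) / (σ + y * I)) := by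
  obtain ⟨C, hC, hk⟩ := kn_int 0
  have h1 := (hk h σ hh hσ).1
  refine h1.mono' ?_ (Filter.Eventually.of_forall fun y => ?_)
  · refine Continuous.aestronglyMeasurable ?_
    refine Continuous.div ?_ (by fun_prop) ?_
    · exact (differentiable_kn h).continuous.comp (by fun_prop)
    · intro y hy
      have := congrArg Complex.re hy
      simp at this
      exact hσ this
  · have : 1 ≤ (1 + h * |y|) ^ 30 := one_le_pow₀ (by nlinarith [abs_nonneg y, mul_nonneg hh.le (abs_nonneg y)])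
    simp only [pow_zero, mul_one]
    exact le_mul_of_one_le_left (norm_nonneg _) this

private theorem CutSum_int' (h σ : ℝ) (hh : 0 < h) :
    Integrable (fun y : ℝ => kn h (σ + y * I)) := by
  obtain ⟨C, hC, hk⟩ := kn_int' 0
  have h1 := (hk h σ hh).1
  refine h1.mono' ?_ (Filter.Eventually.of_forall fun y => ?_)
  · refine Continuous.aestronglyMeasurable ?_
    exact (differentiable_kn h).continuous.comp (by fun_prop)
  · have : 1 ≤ (1 + h * |y|) ^ 30 := one_le_pow₀ (by nlinarith [abs_nonneg y, mul_nonneg hh.le (abs_nonneg y)])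
    simp only [pow_zero, mul_one]
    exact le_mul_of_one_le_left (norm_nonneg _) this

private theorem CutSum_summ {a : ℝ} (ha : 1 < a) : Summable (fun l : ℕ => 1 / ((l : ℝ) + 1) ^ a) := by
  have h1 := (summable_nat_add_iff 1).2 (Real.summable_one_div_nat_rpow.2 ha)
  refine h1.congr fun l => ?_
  push_cast
  rfl

private theorem CutSum_gen (r σ : ℝ) (s : ℂ) (hs : 1 < s.re + σ) (g : ℝ → ℂ) (hg : Integrable g) :
    (Summable fun l : ℕ => ‖((l + 1 : ℕ) : ℂ) ^ (-s) * ((1 / (2 * Real.pi) : ℝ) *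
      ∫ y : ℝ, Complex.exp ((σ + y * I) * ((r - Real.log (l + 1 : ℕ) : ℝ) : ℂ)) * g y)‖) ∧
    ∑' l : ℕ, ((l + 1 : ℕ) : ℂ) ^ (-s) * ((1 / (2 * Real.pi) : ℝ) *
      ∫ y : ℝ, Complex.exp ((σ + y * I) * ((r - Real.log (l + 1 : ℕ) : ℝ) : ℂ)) * g y)
      = (1 / (2 * Real.pi) : ℝ) * ∫ y : ℝ, riemannZeta (s + (σ + y * I)) *
          (Complex.exp ((σ + y * I) * r) * g y) := by
  set F : ℕ → ℝ → ℂ := fun l y =>
    (1 / ((l : ℂ) + 1) ^ (s + (σ + y * I))) * (Complex.exp ((σ + y * I) * r) * g y) with hF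
  have hnorm : ∀ l y, ‖F l y‖ = 1 / ((l : ℝ) + 1) ^ (s.re + σ) * (Real.exp (σ * r) * ‖g y‖) :=
    fun l y => CutSum_norm r σ y s l (g y)
  have hterm : ∀ l : ℕ, ((l + 1 : ℕ) : ℂ) ^ (-s) * ((1 / (2 * Real.pi) : ℝ) *
      ∫ y : ℝ, Complex.exp ((σ + y * I) * ((r - Real.log (l + 1 : ℕ) : ℝ) : ℂ)) * g y) =
      (1 / (2 * Real.pi) : ℝ) * ∫ y : ℝ, F l y := by
    intro l
    rw [mul_left_comm, ← integral_const_mul]
    congr 2
    funext y
    rw [← mul_assoc, CutSum_term r σ y s l, hF]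
    ring
  have hFi : ∀ l, Integrable (F l) := by
    intro l
    have h0 : ((l : ℂ) + 1) ≠ 0 := Nat.cast_add_one_ne_zero l
    have h1 : Integrable (fun y => 1 / ((l : ℝ) + 1) ^ (s.re + σ) * (Real.exp (σ * r) * ‖g y‖)) :=
      (hg.norm.const_mul _).const_mul _
    refine h1.mono' ?_ (Filter.Eventually.of_forall fun y => (hnorm l y).le)
    refine AEStronglyMeasurable.mul ?_ (AEStronglyMeasurable.mul ?_ hg.aestronglyMeasurable)
    · refine Continuous.aestronglyMeasurable ?_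
      refine Continuous.div continuous_const ?_ ?_
      · exact Continuous.const_cpow (by fun_prop) (Or.inl h0)
      · intro y
        rw [Complex.cpow_def_of_ne_zero h0]
        exact Complex.exp_ne_zero _
    · refine Continuous.aestronglyMeasurable ?_
      fun_prop
  have hint : ∀ l, ∫ y, ‖F l y‖ = 1 / ((l : ℝ) + 1) ^ (s.re + σ) * (Real.exp (σ * r) * ∫ y, ‖g y‖) := by
    intro l
    rw [← integral_const_mul, ← integral_const_mul]
    exact integral_congr_ae (Filter.Eventually.of_forall fun y => hnorm l y)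
  have hsum : Summable fun l => ∫ y, ‖F l y‖ := by
    simp_rw [hint]
    exact (CutSum_summ hs).mul_right _
  constructor
  · refine Summable.of_nonneg_of_le (fun l => norm_nonneg _) (fun l => ?_)
      (hsum.mul_left ‖(((1 / (2 * Real.pi) : ℝ)) : ℂ)‖)
    rw [hterm l, norm_mul]
    exact mul_le_mul_of_nonneg_left (norm_integral_le_integral_norm _) (norm_nonneg _)
  · have h1 := hasSum_integral_of_summable_integral_norm hFi hsum
    simp_rw [hterm]
    rw [tsum_mul_left, h1.tsum_eq]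
    congr 2
    funext y
    simp only [hF]
    rw [tsum_mul_right]
    congr 1
    have h2 : 1 < (s + (σ + y * I)).re := by simpa using hs
    rw [zeta_eq_tsum_one_div_nat_add_one_cpow h2]

/-- `∑_l l^{-s} vc h (r - log l) = (1/2π) ∫ ζ(s+z) e^{z r} kn h z / z dy`, `z = σ + iy`,
`σ > 0`, `Re s + σ > 1` (Fubini; absolutely convergent). -/
theorem tsum_vc (h r : ℝ) (hh : 0 < h) (s : ℂ) (σ : ℝ) (hσ : 0 < σ) (hs : 1 < s.re + σ) :
    ∑' l : ℕ, ((l + 1 : ℕ) : ℂ) ^ (-s) * vc h (r - Real.log (l + 1 : ℕ))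
      = (1 / (2 * Real.pi) : ℝ) * ∫ y : ℝ, riemannZeta (s + (σ + y * I)) *
          (Complex.exp ((σ + y * I) * r) * (kn h (σ + y * I) / (σ + y * I))) := by
  rw [← (CutSum_gen r σ s hs _ (CutSum_int h σ hh hσ.ne')).2]
  refine tsum_congr fun l => ?_
  rw [vc_line h _ σ hh hσ]

theorem tsum_vd (h r : ℝ) (hh : 0 < h) (s : ℂ) (σ : ℝ) (hs : 1 < s.re + σ) :
    ∑' l : ℕ, ((l + 1 : ℕ) : ℂ) ^ (-s) * vd h (r - Real.log (l + 1 : ℕ))
      = (1 / (2 * Real.pi) : ℝ) * ∫ y : ℝ, riemannZeta (s + (σ + y * I)) *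
          (Complex.exp ((σ + y * I) * r) * kn h (σ + y * I)) := by
  rw [← (CutSum_gen r σ s hs _ (CutSum_int' h σ hh)).2]
  refine tsum_congr fun l => ?_
  rw [vd_line h _ σ hh]

/-- absolute convergence for every `s` (take `B` large in `vc_bound`). -/
theorem summable_vc (h r : ℝ) (hh : 0 < h) (s : ℂ) :
    Summable (fun l : ℕ => ‖((l + 1 : ℕ) : ℂ) ^ (-s) * vc h (r - Real.log (l + 1 : ℕ))‖) := by
  have hσ : 0 < |s.re| + 2 := by positivity
  have hs : 1 < s.re + (|s.re| + 2) := by linarith [neg_abs_le s.re]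
  refine (CutSum_gen r (|s.re| + 2) s hs _ (CutSum_int h _ hh hσ.ne')).1.congr fun l => ?_
  rw [vc_line h _ _ hh hσ]

theorem summable_vd (h r : ℝ) (hh : 0 < h) (s : ℂ) :
    Summable (fun l : ℕ => ‖((l + 1 : ℕ) : ℂ) ^ (-s) * vd h (r - Real.log (l + 1 : ℕ))‖) := by
  have hs : 1 < s.re + (|s.re| + 2) := by linarith [neg_abs_le s.re]
  refine (CutSum_gen r (|s.re| + 2) s hs _ (CutSum_int' h (|s.re| + 2) hh)).1.congr fun l => ?_
  rw [vd_line h _ (|s.re| + 2) hh]

end Pool.Agent.H14.CO
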