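import Pool.Agent.H14.CO.Defs

/-!
# CO module LamB: basic properties of the weights
-/

set_option autoImplicit false

namespace Pool.Agent.H14.CO

open Set MeasureTheory Complex

private theorem LamB_log (z₀ : ℝ) (hz : 1 < z₀) (d : ℕ) (hd : 0 < d) :
    Real.log (z₀ ^ 2 / d) = Real.log z₀ + Real.log (z₀ / d) := by
  have hz0 : 0 < z₀ := by linarith
  have hd0 : (0 : ℝ) < d := Nat.cast_pos.2 hd
  rw [← Real.log_mul hz0.ne' (by positivity)]
  congr 1
  ring

theorem abs_lam_le (z₀ : ℝ) (hz : 1 < z₀) (d : ℕ) : |lam z₀ d| ≤ 1 := by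
  rcases Nat.eq_zero_or_pos d with rfl | hd
  · simp [lam]
  · have hl : 0 < Real.log z₀ := Real.log_pos hz
    have h1 := LamB_log z₀ hz d hd
    have hμ : |((ArithmeticFunction.moebius d : ℤ) : ℝ)| ≤ 1 := by
      have := ArithmeticFunction.abs_moebius_le_one (n := d)
      exact_mod_cast this
    unfold lam
    rw [h1, abs_div, abs_mul, abs_of_pos hl, div_le_one hl]
    have h2 : |max 0 (Real.log z₀ + Real.log (z₀ / d)) - max 0 (Real.log (z₀ / d))| ≤
        Real.log z₀ := by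
      rw [abs_le]
      constructor
      · have : max 0 (Real.log (z₀ / d)) ≤ max 0 (Real.log z₀ + Real.log (z₀ / d)) :=
          max_le_max le_rfl (by linarith)
        linarith
      · have : max 0 (Real.log z₀ + Real.log (z₀ / d)) ≤
            Real.log z₀ + max 0 (Real.log (z₀ / d)) :=
          max_le (by linarith [le_max_left 0 (Real.log (z₀ / d))])
            (by linarith [le_max_right 0 (Real.log (z₀ / d))])
        linarith
    calc |((ArithmeticFunction.moebius d : ℤ) : ℝ)| *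
          |max 0 (Real.log z₀ + Real.log (z₀ / d)) - max 0 (Real.log (z₀ / d))| ≤
          1 * Real.log z₀ := mul_le_mul hμ h2 (abs_nonneg _) zero_le_one
      _ = Real.log z₀ := one_mul _

theorem lam_eq_zero (z₀ : ℝ) (hz : 1 < z₀) (d : ℕ) (hd : z₀ ^ 2 ≤ d) : lam z₀ d = 0 := by
  have hz0 : 0 < z₀ := by linarith
  have hd0 : (0 : ℝ) < d := lt_of_lt_of_le (by positivity) hd
  have h1 : Real.log (z₀ ^ 2 / d) ≤ 0 :=
    Real.log_nonpos (by positivity) ((div_le_one hd0).2 hd)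
  have h2 : Real.log (z₀ / d) ≤ 0 := by
    refine Real.log_nonpos (by positivity) ((div_le_one hd0).2 (le_trans ?_ hd))
    nlinarith
  unfold lam
  rw [max_eq_left h1, max_eq_left h2]
  simp

theorem lam_small (z₀ : ℝ) (hz : 1 < z₀) (d : ℕ) (hd : (d : ℝ) ≤ z₀) :
    lam z₀ d = ((ArithmeticFunction.moebius d : ℤ) : ℝ) := by
  rcases Nat.eq_zero_or_pos d with rfl | hd0
  · simp [lam]
  · have hl : 0 < Real.log z₀ := Real.log_pos hz
    have h1 := LamB_log z₀ hz d hd0
    have hd1 : (0 : ℝ) < d := Nat.cast_pos.2 hd0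
    have h2 : 0 ≤ Real.log (z₀ / d) := Real.log_nonneg ((one_le_div hd1).2 hd)
    unfold lam
    rw [h1, max_eq_right h2, max_eq_right (by linarith)]
    field_simp
    ring

theorem differentiable_Mo (z₀ : ℝ) : Differentiable ℂ (Mo z₀) := by
  have h : Mo z₀ = fun s => ∑ d ∈ Finset.Icc 1 ⌊z₀ ^ 2⌋₊, (lam z₀ d : ℂ) * (d : ℂ) ^ (-s) := rfl
  rw [h]
  refine Differentiable.fun_sum fun d hd => ?_
  have hd0 : (d : ℂ) ≠ 0 := Nat.cast_ne_zero.2 (by have := (Finset.mem_Icc.1 hd).1; omega)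
  exact (differentiable_neg.const_cpow (Or.inl hd0)).const_mul _

theorem continuous_Mo (z₀ : ℝ) : Continuous (Mo z₀) := (differentiable_Mo z₀).continuous

/-- crude bound (number of terms times the largest). -/
theorem norm_Mo_le (z₀ : ℝ) (hz : 1 < z₀) (s : ℂ) : ‖Mo z₀ s‖ ≤ z₀ ^ (2 + 2 * |s.re|) := by
  have hz0 : 0 < z₀ := by linarith
  have h1 : ‖Mo z₀ s‖ ≤ ∑ d ∈ Finset.Icc 1 ⌊z₀ ^ 2⌋₊, z₀ ^ (2 * |s.re|) := by
    unfold Mo
    refine (norm_sum_le _ _).trans (Finset.sum_le_sum fun d hd => ?_)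
    have hd1 : 1 ≤ d := (Finset.mem_Icc.1 hd).1
    have hd2 : (d : ℝ) ≤ z₀ ^ 2 := by
      have := (Finset.mem_Icc.1 hd).2
      exact (Nat.le_floor_iff (by positivity)).1 this
    have hd3 : (1 : ℝ) ≤ d := by exact_mod_cast hd1
    rw [norm_mul, Complex.norm_real, Real.norm_eq_abs, Complex.norm_natCast_cpow_of_pos hd1]
    have h2 : (d : ℝ) ^ (-s).re ≤ z₀ ^ (2 * |s.re|) := by
      calc (d : ℝ) ^ (-s).re ≤ (d : ℝ) ^ |s.re| := by
            refine Real.rpow_le_rpow_of_exponent_le hd3 ?_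
            rw [Complex.neg_re]
            exact neg_le_abs _
        _ ≤ (z₀ ^ 2) ^ |s.re| := Real.rpow_le_rpow (by positivity) hd2 (abs_nonneg _)
        _ = z₀ ^ (2 * |s.re|) := by
            rw [Real.rpow_mul hz0.le]
            norm_num
    calc |lam z₀ d| * (d : ℝ) ^ (-s).re ≤ 1 * z₀ ^ (2 * |s.re|) :=
          mul_le_mul (abs_lam_le z₀ hz d) h2 (by positivity) zero_le_one
      _ = z₀ ^ (2 * |s.re|) := one_mul _
  refine h1.trans ?_
  rw [Finset.sum_const, Nat.card_Icc, Nat.add_sub_cancel, nsmul_eq_mul, Real.rpow_add hz0]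
  refine mul_le_mul_of_nonneg_right ?_ (by positivity)
  refine (Nat.floor_le (by positivity)).trans (le_of_eq ?_)
  norm_num

end Pool.Agent.H14.CO
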