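import Pool.Agent.H14.CO.MVT
import Pool.Agent.H14.CO.LamB

/-!
# CO module MoB: mean square of the mollifier
-/

set_option autoImplicit false

namespace Pool.Agent.H14.CO

open Set MeasureTheory Complex

/-- The coefficients of the mollifier at `1/2 + w`. -/
private noncomputable def MoB_a (z₀ : ℝ) (w : ℂ) (d : ℕ) : ℂ :=
  (lam z₀ d : ℂ) * (d : ℂ) ^ (-(1 / 2 + w))

private theorem MoB_Mo_eq (z₀ : ℝ) (w : ℂ) (t : ℝ) :
    Mo z₀ (pt w t) = ∑ n ∈ Finset.Icc 1 ⌊z₀ ^ 2⌋₊, MoB_a z₀ w n * (n : ℂ) ^ (-(t * I)) := by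
  unfold Mo
  refine Finset.sum_congr rfl fun d hd => ?_
  have hd1 : 1 ≤ d := (Finset.mem_Icc.mp hd).1
  have hd0 : (d : ℂ) ≠ 0 := by
    have : d ≠ 0 := by omega
    exact_mod_cast this
  unfold MoB_a pt
  rw [mul_assoc, ← Complex.cpow_add _ _ hd0]
  congr 2
  ring

private theorem MoB_norm_a (z₀ : ℝ) (w : ℂ) (d : ℕ) (hd : 1 ≤ d) :
    ‖MoB_a z₀ w d‖ ^ 2 = |lam z₀ d| ^ 2 * (d : ℝ) ^ (-(1 + 2 * w.re)) := by
  unfold MoB_a
  have hd0 : (0 : ℝ) < d := by exact_mod_cast hd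
  rw [norm_mul, mul_pow, Complex.norm_real, Real.norm_eq_abs,
    Complex.norm_natCast_cpow_of_pos (by omega)]
  congr 1
  rw [← Real.rpow_natCast, ← Real.rpow_mul hd0.le]
  congr 1
  simp
  ring

private theorem MoB_harm (N : ℕ) :
    ∑ d ∈ Finset.Icc 1 N, (1 / (d : ℝ)) ≤ 1 + Real.log N := by
  have h := harmonic_le_one_add_log N
  rw [harmonic_eq_sum_Icc] at h
  push_cast at h
  simpa [one_div] using h

/-- numerical facts about `z₀ = T ^ θ`. -/
private theorem MoB_basic (θ : ℝ) (hθ0 : 0 < θ) (hθ1 : θ ≤ 1 / 40) (T : ℝ) (hT : 256 ≤ T) :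
    1 < T ^ θ ∧ (1 : ℝ) ≤ Real.log T ∧ 1 ≤ ⌊(T ^ θ) ^ 2⌋₊ ∧
    ((⌊(T ^ θ) ^ 2⌋₊ : ℕ) : ℝ) ≤ T ^ (2 * θ) ∧
    Real.log ((⌊(T ^ θ) ^ 2⌋₊ : ℕ) : ℝ) ≤ 2 * θ * Real.log T ∧
    8 * (4 * ((⌊(T ^ θ) ^ 2⌋₊ : ℕ) : ℝ) * (1 + Real.log ((⌊(T ^ θ) ^ 2⌋₊ : ℕ) : ℝ)))
      ≤ T ^ (9 / 10 : ℝ) := by
  have hT1 : (1 : ℝ) < T := by linarith
  have hT0 : (0 : ℝ) < T := by linarith
  have hz : 1 < T ^ θ := Real.one_lt_rpow hT1 hθ0
  have hL : (1 : ℝ) ≤ Real.log T := by
    rw [Real.le_log_iff_exp_le hT0]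
    have := Real.exp_one_lt_d9
    linarith
  have hsq : (T ^ θ) ^ 2 = T ^ (2 * θ) := by
    rw [← Real.rpow_natCast, ← Real.rpow_mul hT0.le]
    congr 1
    push_cast
    ring
  have hN1 : 1 ≤ ⌊(T ^ θ) ^ 2⌋₊ := by
    rw [Nat.one_le_floor_iff]
    nlinarith only [hz]
  have hNle : ((⌊(T ^ θ) ^ 2⌋₊ : ℕ) : ℝ) ≤ T ^ (2 * θ) := by
    rw [← hsq]
    exact Nat.floor_le (by positivity)
  have hNpos : (0 : ℝ) < ((⌊(T ^ θ) ^ 2⌋₊ : ℕ) : ℝ) := by exact_mod_cast hN1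
  have hlogN : Real.log ((⌊(T ^ θ) ^ 2⌋₊ : ℕ) : ℝ) ≤ 2 * θ * Real.log T := by
    have h1 := Real.log_le_log hNpos hNle
    rwa [Real.log_rpow hT0] at h1
  refine ⟨hz, hL, hN1, hNle, hlogN, ?_⟩
  have h20 : T ^ (2 * θ) ≤ T ^ (1 / 20 : ℝ) :=
    Real.rpow_le_rpow_of_exponent_le hT1.le (by linarith only [hθ1])
  have hlog20 : Real.log T ≤ T ^ (1 / 20 : ℝ) / (1 / 20) :=
    Real.log_le_rpow_div hT0.le (by norm_num)
  have hone : (1 : ℝ) ≤ T ^ (1 / 20 : ℝ) := Real.one_le_rpow hT1.le (by norm_num)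
  have hlog : Real.log ((⌊(T ^ θ) ^ 2⌋₊ : ℕ) : ℝ) ≤ T ^ (1 / 20 : ℝ) := by
    have : 2 * θ * Real.log T ≤ (1 / 20) * Real.log T := by
      apply mul_le_mul_of_nonneg_right (by linarith only [hθ1]) (by linarith)
    linarith
  have hlog0 : 0 ≤ Real.log ((⌊(T ^ θ) ^ 2⌋₊ : ℕ) : ℝ) :=
    Real.log_nonneg (by exact_mod_cast hN1)
  have h10 : T ^ (1 / 20 : ℝ) * T ^ (1 / 20 : ℝ) = T ^ (1 / 10 : ℝ) := by
    rw [← Real.rpow_add hT0]
    norm_num
  have h910 : T ^ (9 / 10 : ℝ) = T ^ (1 / 10 : ℝ) * T ^ (8 / 10 : ℝ) := by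
    rw [← Real.rpow_add hT0]
    norm_num
  have h64 : (64 : ℝ) ≤ T ^ (8 / 10 : ℝ) := by
    have h1 : (256 : ℝ) ^ (8 / 10 : ℝ) ≤ T ^ (8 / 10 : ℝ) :=
      Real.rpow_le_rpow (by norm_num) hT (by norm_num)
    have h2 : (64 : ℝ) ≤ (256 : ℝ) ^ (8 / 10 : ℝ) := by
      have h3 : (256 : ℝ) = 2 ^ (8 : ℝ) := by
        rw [show (8 : ℝ) = ((8 : ℕ) : ℝ) by norm_num, Real.rpow_natCast]
        norm_num
      rw [h3, ← Real.rpow_mul (by norm_num)]
      have h4 : (64 : ℝ) = 2 ^ (6 : ℝ) := by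
        rw [show (6 : ℝ) = ((6 : ℕ) : ℝ) by norm_num, Real.rpow_natCast]
        norm_num
      rw [h4]
      exact Real.rpow_le_rpow_of_exponent_le (by norm_num) (by norm_num)
    linarith only [h1, h2]
  set n : ℝ := ((⌊(T ^ θ) ^ 2⌋₊ : ℕ) : ℝ) with hn
  set y : ℝ := T ^ (1 / 20 : ℝ) with hy
  have hny : n ≤ y := hNle.trans h20
  have h1 : n * (1 + Real.log n) ≤ y * (2 * y) := by
    apply mul_le_mul hny (by linarith only [hone, hlog]) (by linarith only [hlog0]) (by linarith only [hone])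
  calc 8 * (4 * n * (1 + Real.log n)) = 32 * (n * (1 + Real.log n)) := by ring
    _ ≤ 32 * (y * (2 * y)) := by linarith only [h1]
    _ = 64 * T ^ (1 / 10 : ℝ) := by rw [← h10]; ring
    _ ≤ T ^ (9 / 10 : ℝ) := by
        rw [h910]
        have : 0 < T ^ (1 / 10 : ℝ) := Real.rpow_pos_of_pos hT0 _
        nlinarith only [h64, h10]

/-- PROOF. `gauss_mvt` with `N = ⌊z₀²⌋`, `z₀² = T^{2θ} ≤ T^{1/20}`, coefficients
`lam d * d^{-1/2-w}`: `∑ |lam d|² d^{-1-2 Re w} ≤ z₀^{4K/L} (1 + 2 log z₀)`. -/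
theorem mo_upper (θ : ℝ) (hθ0 : 0 < θ) (hθ1 : θ ≤ 1 / 40) : ∃ C : ℝ, 0 < C ∧ ∃ T₀ : ℝ, 1 < T₀ ∧
    ∀ T : ℝ, T₀ ≤ T → ∀ K : ℝ, 1 ≤ K → ∀ τ W : ℝ, T ^ (9 / 10 : ℝ) ≤ W → ∀ w : ℂ,
    |w.re| ≤ K / Real.log T →
    Integrable (fun t : ℝ => ‖Mo (T ^ θ) (pt w t)‖ ^ 2 * gw τ W t) ∧
    ∫ t : ℝ, ‖Mo (T ^ θ) (pt w t)‖ ^ 2 * gw τ W t ≤ C * Real.exp (C * K) * W * Real.log T := by
  refine ⟨4, by norm_num, 256, by norm_num, ?_⟩
  intro T hT K hK τ W hW w hw
  obtain ⟨hz, hL, hN1, hNle, hlogN, hbig⟩ := MoB_basic θ hθ0 hθ1 T hT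
  have hT0 : (0 : ℝ) < T := by linarith only [hT]
  have hW0 : 0 < W := lt_of_lt_of_le (Real.rpow_pos_of_pos hT0 _) hW
  set N : ℕ := ⌊(T ^ θ) ^ 2⌋₊ with hN
  have hNlog0 : 0 ≤ Real.log (N : ℝ) := Real.log_nonneg (by exact_mod_cast hN1)
  have hcond : 4 * (N : ℝ) * (1 + Real.log N) ≤ W := by
    have : 0 ≤ 4 * (N : ℝ) * (1 + Real.log N) := by positivity
    linarith only [hW, hW0, hbig]
  obtain ⟨hint, -, hup⟩ := gauss_mvt N hN1 (MoB_a (T ^ θ) w) W τ hcond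
  have hfun : (fun t : ℝ => ‖Mo (T ^ θ) (pt w t)‖ ^ 2 * gw τ W t) =
      fun t : ℝ => ‖∑ n ∈ Finset.Icc 1 N, MoB_a (T ^ θ) w n * (n : ℂ) ^ (-(t * I))‖ ^ 2
        * gw τ W t := by
    funext t
    rw [MoB_Mo_eq]
  rw [hfun]
  refine ⟨hint, hup.trans ?_⟩
  have hsum : ∑ n ∈ Finset.Icc 1 N, ‖MoB_a (T ^ θ) w n‖ ^ 2
      ≤ Real.exp (K / 10) * (1 + Real.log N) := by
    calc ∑ n ∈ Finset.Icc 1 N, ‖MoB_a (T ^ θ) w n‖ ^ 2
        ≤ ∑ n ∈ Finset.Icc 1 N, Real.exp (K / 10) * (1 / (n : ℝ)) := by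
          refine Finset.sum_le_sum fun d hd => ?_
          have hd1 : 1 ≤ d := (Finset.mem_Icc.mp hd).1
          have hdN : d ≤ N := (Finset.mem_Icc.mp hd).2
          have hd0 : (0 : ℝ) < d := by exact_mod_cast hd1
          have hd1' : (1 : ℝ) ≤ d := by exact_mod_cast hd1
          rw [MoB_norm_a _ _ _ hd1]
          have hl : |lam (T ^ θ) d| ^ 2 ≤ 1 := by
            have := abs_lam_le (T ^ θ) hz d
            have h0 := abs_nonneg (lam (T ^ θ) d)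
            nlinarith only [this, h0]
          have hpow : (d : ℝ) ^ (-(1 + 2 * w.re)) ≤ Real.exp (K / 10) * (1 / (d : ℝ)) := by
            have hlogd : Real.log d ≤ 2 * θ * Real.log T := by
              refine le_trans (Real.log_le_log hd0 ?_) hlogN
              exact_mod_cast hdN
            have hlogd0 : 0 ≤ Real.log (d : ℝ) := Real.log_nonneg hd1'
            have hw' : -w.re ≤ K / Real.log T := (neg_le_abs _).trans hw
            have hkey : -(2 * w.re) * Real.log d ≤ K / 10 := by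
              have h1 : -(2 * w.re) * Real.log d ≤ 2 * (K / Real.log T) * Real.log d := by
                apply mul_le_mul_of_nonneg_right _ hlogd0
                linarith only [hw']
              have h2 : 2 * (K / Real.log T) * Real.log d
                  ≤ 2 * (K / Real.log T) * (2 * θ * Real.log T) := by
                apply mul_le_mul_of_nonneg_left hlogd
                positivity
              have h3 : 2 * (K / Real.log T) * (2 * θ * Real.log T) = 4 * θ * K := by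
                field_simp
                ring
              have h4 : 4 * θ * K ≤ K / 10 := by
                nlinarith only [hθ1, hK]
              linarith only [h1, h2, h3, h4]
            have : (d : ℝ) ^ (-(1 + 2 * w.re)) = Real.exp (-(2 * w.re) * Real.log d) * (1 / d) := by
              rw [Real.rpow_def_of_pos hd0]
              rw [show (1 / (d : ℝ)) = Real.exp (-Real.log d) by
                rw [Real.exp_neg, Real.exp_log hd0, one_div]]
              rw [← Real.exp_add]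
              congr 1
              ring
            rw [this]
            apply mul_le_mul_of_nonneg_right (Real.exp_le_exp.mpr hkey)
            positivity
          calc |lam (T ^ θ) d| ^ 2 * (d : ℝ) ^ (-(1 + 2 * w.re))
              ≤ 1 * (Real.exp (K / 10) * (1 / (d : ℝ))) := by
                apply mul_le_mul hl hpow (by positivity) (by norm_num)
            _ = _ := one_mul _
      _ = Real.exp (K / 10) * ∑ n ∈ Finset.Icc 1 N, (1 / (n : ℝ)) := by rw [Finset.mul_sum]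
      _ ≤ Real.exp (K / 10) * (1 + Real.log N) := by
          apply mul_le_mul_of_nonneg_left (MoB_harm N) (Real.exp_pos _).le
  have hlog1 : 1 + Real.log (N : ℝ) ≤ 2 * Real.log T := by
    have : 2 * θ * Real.log T ≤ 1 * Real.log T := by
      apply mul_le_mul_of_nonneg_right (by linarith only [hθ1]) (by linarith only [hL])
    linarith only [hL, hlogN, this]
  have hexp : Real.exp (K / 10) ≤ Real.exp (4 * K) := Real.exp_le_exp.mpr (by linarith only [hK])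
  calc 2 * W * ∑ n ∈ Finset.Icc 1 N, ‖MoB_a (T ^ θ) w n‖ ^ 2
      ≤ 2 * W * (Real.exp (4 * K) * (2 * Real.log T)) := by
        apply mul_le_mul_of_nonneg_left _ (by positivity)
        refine hsum.trans ?_
        apply mul_le_mul hexp hlog1 (by linarith only [hNlog0]) (Real.exp_pos _).le
    _ = 4 * Real.exp (4 * K) * W * Real.log T := by ring

/-- Right of the critical line without loss: for `Re w ≥ 0`, `≤ C W L`. -/
theorem mo_upper_right (θ : ℝ) (hθ0 : 0 < θ) (hθ1 : θ ≤ 1 / 40) : ∃ C : ℝ, 0 < C ∧ ∃ T₀ : ℝ, 1 < T₀ ∧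
    ∀ T : ℝ, T₀ ≤ T → ∀ τ W : ℝ, T ^ (9 / 10 : ℝ) ≤ W → ∀ w : ℂ, 0 ≤ w.re →
    Integrable (fun t : ℝ => ‖Mo (T ^ θ) (pt w t)‖ ^ 2 * gw τ W t) ∧
    ∫ t : ℝ, ‖Mo (T ^ θ) (pt w t)‖ ^ 2 * gw τ W t ≤ C * W * Real.log T := by
  refine ⟨4, by norm_num, 256, by norm_num, ?_⟩
  intro T hT τ W hW w hw
  obtain ⟨hz, hL, hN1, hNle, hlogN, hbig⟩ := MoB_basic θ hθ0 hθ1 T hT
  have hT0 : (0 : ℝ) < T := by linarith only [hT]
  have hW0 : 0 < W := lt_of_lt_of_le (Real.rpow_pos_of_pos hT0 _) hW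
  set N : ℕ := ⌊(T ^ θ) ^ 2⌋₊ with hN
  have hNlog0 : 0 ≤ Real.log (N : ℝ) := Real.log_nonneg (by exact_mod_cast hN1)
  have hcond : 4 * (N : ℝ) * (1 + Real.log N) ≤ W := by
    have : 0 ≤ 4 * (N : ℝ) * (1 + Real.log N) := by positivity
    linarith
  obtain ⟨hint, -, hup⟩ := gauss_mvt N hN1 (MoB_a (T ^ θ) w) W τ hcond
  have hfun : (fun t : ℝ => ‖Mo (T ^ θ) (pt w t)‖ ^ 2 * gw τ W t) =
      fun t : ℝ => ‖∑ n ∈ Finset.Icc 1 N, MoB_a (T ^ θ) w n * (n : ℂ) ^ (-(t * I))‖ ^ 2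
        * gw τ W t := by
    funext t
    rw [MoB_Mo_eq]
  rw [hfun]
  refine ⟨hint, hup.trans ?_⟩
  have hsum : ∑ n ∈ Finset.Icc 1 N, ‖MoB_a (T ^ θ) w n‖ ^ 2 ≤ 1 + Real.log N := by
    refine le_trans (Finset.sum_le_sum fun d hd => ?_) (MoB_harm N)
    have hd1 : 1 ≤ d := (Finset.mem_Icc.mp hd).1
    have hd0 : (0 : ℝ) < d := by exact_mod_cast hd1
    have hd1' : (1 : ℝ) ≤ d := by exact_mod_cast hd1
    rw [MoB_norm_a _ _ _ hd1]
    have hl : |lam (T ^ θ) d| ^ 2 ≤ 1 := by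
      have := abs_lam_le (T ^ θ) hz d
      have h0 := abs_nonneg (lam (T ^ θ) d)
      nlinarith only [hθ0, this, h0]
    have hpow : (d : ℝ) ^ (-(1 + 2 * w.re)) ≤ 1 / (d : ℝ) := by
      have h1 : (d : ℝ) ^ (-(1 + 2 * w.re)) ≤ (d : ℝ) ^ (-1 : ℝ) :=
        Real.rpow_le_rpow_of_exponent_le hd1' (by linarith)
      rwa [Real.rpow_neg_one, ← one_div] at h1
    calc |lam (T ^ θ) d| ^ 2 * (d : ℝ) ^ (-(1 + 2 * w.re))
        ≤ 1 * (1 / (d : ℝ)) := by
          apply mul_le_mul hl hpow (by positivity) (by norm_num)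
      _ = _ := one_mul _
  have hlog1 : 1 + Real.log (N : ℝ) ≤ 2 * Real.log T := by
    have : 2 * θ * Real.log T ≤ 1 * Real.log T := by
      apply mul_le_mul_of_nonneg_right (by linarith only [hθ1]) (by linarith only [hL])
    linarith only [hL, hlogN, this]
  calc 2 * W * ∑ n ∈ Finset.Icc 1 N, ‖MoB_a (T ^ θ) w n‖ ^ 2
      ≤ 2 * W * (2 * Real.log T) := by
        apply mul_le_mul_of_nonneg_left (hsum.trans hlog1) (by positivity)
    _ = 4 * W * Real.log T := by ring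

private theorem MoB_inv_sq (N : ℕ) : ∑ b ∈ Finset.Icc 1 N, (1 / (b : ℝ) ^ 2) ≤ 2 := by
  have h : ∀ N : ℕ, 1 ≤ N → ∑ b ∈ Finset.Icc 1 N, (1 / (b : ℝ) ^ 2) ≤ 2 - 1 / (N : ℝ) := by
    intro N hN
    induction N, hN using Nat.le_induction with
    | base => norm_num
    | succ n hn ih =>
      rw [Finset.sum_Icc_succ_top (by omega)]
      have hn0 : (0 : ℝ) < n := by exact_mod_cast hn
      push_cast
      have h1 : 1 / ((n : ℝ) + 1) ^ 2 ≤ 1 / (n : ℝ) - 1 / ((n : ℝ) + 1) := by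
        rw [div_sub_div _ _ (by positivity) (by positivity), div_le_div_iff₀ (by positivity) (by positivity)]
        nlinarith
      linarith
  rcases Nat.eq_zero_or_pos N with h0 | h0
  · subst h0
    simp
  · have h1 := h N h0
    have : (0 : ℝ) ≤ 1 / (N : ℝ) := by positivity
    linarith only [h1, this]

/-- `(1/2) log (N + 1) ≤ ∑_{d ≤ N} μ²(d)/d`. -/
private theorem MoB_sqfree (N : ℕ) :
    Real.log (N + 1) ≤ 2 * ∑ d ∈ (Finset.Icc 1 N).filter Squarefree, (1 / (d : ℝ)) := by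
  have hf : ∀ n : ℕ, ∃ p : ℕ × ℕ, p.2 ^ 2 * p.1 = n ∧ Squarefree p.1 := by
    intro n
    obtain ⟨a, b, hab, ha⟩ := Nat.sq_mul_squarefree n
    exact ⟨(a, b), hab, ha⟩
  choose g hg1 hg2 using hf
  have hlog : Real.log (N + 1) ≤ ∑ n ∈ Finset.Icc 1 N, (1 / (n : ℝ)) := by
    have h := log_add_one_le_harmonic N
    rw [harmonic_eq_sum_Icc] at h
    push_cast at h
    simpa [one_div] using h
  have hinj : Set.InjOn g (Finset.Icc 1 N : Finset ℕ) := by
    intro a _ b _ hab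
    rw [← hg1 a, ← hg1 b, hab]
  have hsum : ∑ n ∈ Finset.Icc 1 N, (1 / (n : ℝ)) ≤
      ∑ p ∈ ((Finset.Icc 1 N).filter Squarefree) ×ˢ (Finset.Icc 1 N),
        (1 / (p.1 : ℝ)) * (1 / (p.2 : ℝ) ^ 2) := by
    have h1 : ∑ n ∈ Finset.Icc 1 N, (1 / (n : ℝ)) =
        ∑ n ∈ Finset.Icc 1 N, (1 / ((g n).1 : ℝ)) * (1 / ((g n).2 : ℝ) ^ 2) := by
      refine Finset.sum_congr rfl fun n _ => ?_
      have : (n : ℝ) = ((g n).2 : ℝ) ^ 2 * ((g n).1 : ℝ) := by
        exact_mod_cast (hg1 n).symm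
      rw [this, one_div_mul_one_div, mul_comm]
    rw [h1, ← Finset.sum_image (f := fun p : ℕ × ℕ => (1 / (p.1 : ℝ)) * (1 / (p.2 : ℝ) ^ 2)) hinj]
    refine Finset.sum_le_sum_of_subset_of_nonneg ?_ (fun p _ _ => by positivity)
    intro p hp
    obtain ⟨n, hn, rfl⟩ := Finset.mem_image.mp hp
    have hn1 := (Finset.mem_Icc.mp hn).1
    have hnN := (Finset.mem_Icc.mp hn).2
    have e := hg1 n
    have hp1 : (g n).1 ≠ 0 := by
      intro h
      rw [h, mul_zero] at e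
      omega
    have hp2 : (g n).2 ≠ 0 := by
      intro h
      rw [h] at e
      simp at e
      omega
    have hle1 : (g n).1 ≤ n := by
      calc (g n).1 = 1 * (g n).1 := (one_mul _).symm
        _ ≤ (g n).2 ^ 2 * (g n).1 := Nat.mul_le_mul_right _ (Nat.one_le_pow _ _ (by omega))
        _ = n := e
    have hle2 : (g n).2 ≤ n := by
      calc (g n).2 ≤ (g n).2 ^ 2 := Nat.le_self_pow (by norm_num) _
        _ = (g n).2 ^ 2 * 1 := (mul_one _).symm
        _ ≤ (g n).2 ^ 2 * (g n).1 := Nat.mul_le_mul_left _ (by omega)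
        _ = n := e
    rw [Finset.mem_product, Finset.mem_filter, Finset.mem_Icc, Finset.mem_Icc]
    exact ⟨⟨⟨by omega, by omega⟩, hg2 n⟩, ⟨by omega, by omega⟩⟩
  rw [Finset.sum_product] at hsum
  simp_rw [← Finset.mul_sum] at hsum
  rw [← Finset.sum_mul] at hsum
  have h2 := MoB_inv_sq N
  have h3 : 0 ≤ ∑ d ∈ (Finset.Icc 1 N).filter Squarefree, (1 / (d : ℝ)) :=
    Finset.sum_nonneg fun _ _ => by positivity
  calc Real.log (N + 1) ≤ _ := hlog
    _ ≤ _ := hsum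
    _ ≤ (∑ d ∈ (Finset.Icc 1 N).filter Squarefree, (1 / (d : ℝ))) * 2 :=
        mul_le_mul_of_nonneg_left h2 h3
    _ = _ := mul_comm _ _

/-- PROOF. `gauss_mvt` (lower) with width `W₁ = W/8` at `w = 0`:
`≥ (3/2) W₁ S`, `S = ∑ |lam d|²/d ≥ ∑_{d ≤ z₀} μ²(d)/d ≥ (1/2) log z₀`
(`∑_{n≤x} 1/n ≤ (∑_{d≤x} μ²(d)/d)(∑ 1/m²)`). The part `|t-τ| > W` of that Gaussian integral is at most
`e^{-32} ∫ ‖Mo‖² gw τ (√2 W₁) ≤ e^{-32} 2√2 W₁ S` since
`gw τ W₁ t ≤ e^{-32} gw τ (√2 W₁) t` for `|t - τ| ≥ 8 W₁`. -/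
theorem mo_lower (θ : ℝ) (hθ0 : 0 < θ) (hθ1 : θ ≤ 1 / 40) : ∃ c : ℝ, 0 < c ∧ ∃ T₀ : ℝ, 1 < T₀ ∧
    ∀ T : ℝ, T₀ ≤ T → ∀ τ W : ℝ, T ^ (9 / 10 : ℝ) ≤ W →
    c * W * Real.log T ≤ ∫ t in (τ - W)..(τ + W), ‖Mo (T ^ θ) (pt 0 t)‖ ^ 2 := by
  refine ⟨θ / 16, by positivity, 256, by norm_num, ?_⟩
  intro T hT τ W hW
  obtain ⟨hz, hL, hN1, hNle, hlogN, hbig⟩ := MoB_basic θ hθ0 hθ1 T hT
  have hT0 : (0 : ℝ) < T := by linarith only [hT]
  have hW0 : 0 < W := lt_of_lt_of_le (Real.rpow_pos_of_pos hT0 _) hW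
  set N : ℕ := ⌊(T ^ θ) ^ 2⌋₊ with hN
  have hNlog0 : 0 ≤ Real.log (N : ℝ) := Real.log_nonneg (by exact_mod_cast hN1)
  set W₁ : ℝ := W / 8 with hW₁
  have hW₁0 : 0 < W₁ := by positivity
  have hcond1 : 4 * (N : ℝ) * (1 + Real.log N) ≤ W₁ := by
    rw [hW₁]
    linarith
  have hs2 : (1 : ℝ) ≤ Real.sqrt 2 := by
    rw [Real.one_le_sqrt]
    norm_num
  have hs2' : Real.sqrt 2 ≤ 2 := by
    rw [Real.sqrt_le_left (by norm_num)]
    norm_num
  have hcond2 : 4 * (N : ℝ) * (1 + Real.log N) ≤ Real.sqrt 2 * W₁ := by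
    nlinarith only [hW, hW0, hbig, hW₁, hs2]
  obtain ⟨hint1, hlow, -⟩ := gauss_mvt N hN1 (MoB_a (T ^ θ) 0) W₁ τ hcond1
  obtain ⟨hint2, -, hup⟩ := gauss_mvt N hN1 (MoB_a (T ^ θ) 0) (Real.sqrt 2 * W₁) τ hcond2
  set S : ℝ := ∑ n ∈ Finset.Icc 1 N, ‖MoB_a (T ^ θ) 0 n‖ ^ 2 with hS
  have hS0 : 0 ≤ S := Finset.sum_nonneg fun _ _ => by positivity
  set f : ℝ → ℝ := fun t => ‖∑ n ∈ Finset.Icc 1 N, MoB_a (T ^ θ) 0 n * (n : ℂ) ^ (-(t * I))‖ ^ 2
    with hf
  have hfeq : ∀ t : ℝ, f t = ‖Mo (T ^ θ) (pt 0 t)‖ ^ 2 := fun t => by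
    rw [MoB_Mo_eq]
  have hf0 : ∀ t, 0 ≤ f t := fun t => by positivity
  have hfc : Continuous f := by
    have : f = fun t : ℝ => ‖Mo (T ^ θ) (pt 0 t)‖ ^ 2 := funext hfeq
    rw [this]
    have hpt : Continuous (fun t : ℝ => pt 0 t) := by
      unfold pt
      fun_prop
    exact ((continuous_Mo (T ^ θ)).comp hpt).norm.pow 2
  -- lower bound of S
  have hSlow : θ * Real.log T ≤ 2 * S := by
    have h1 := MoB_sqfree ⌊T ^ θ⌋₊
    have h2 : θ * Real.log T ≤ Real.log ((⌊T ^ θ⌋₊ : ℝ) + 1) := by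
      rw [← Real.log_rpow hT0]
      exact Real.log_le_log (by positivity) (Nat.lt_floor_add_one _).le
    have h3 : ∑ d ∈ (Finset.Icc 1 ⌊T ^ θ⌋₊).filter Squarefree, (1 / (d : ℝ)) ≤ S := by
      have hsub : (Finset.Icc 1 ⌊T ^ θ⌋₊).filter Squarefree ⊆ Finset.Icc 1 N := by
        intro d hd
        have hd' := (Finset.mem_filter.mp hd).1
        rw [Finset.mem_Icc] at hd' ⊢
        refine ⟨hd'.1, hd'.2.trans ?_⟩
        rw [hN]
        apply Nat.floor_le_floor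
        nlinarith only [hz]
      calc ∑ d ∈ (Finset.Icc 1 ⌊T ^ θ⌋₊).filter Squarefree, (1 / (d : ℝ))
          = ∑ d ∈ (Finset.Icc 1 ⌊T ^ θ⌋₊).filter Squarefree, ‖MoB_a (T ^ θ) 0 d‖ ^ 2 := by
            refine Finset.sum_congr rfl fun d hd => ?_
            obtain ⟨hd', hsq⟩ := Finset.mem_filter.mp hd
            rw [Finset.mem_Icc] at hd'
            have hdle : (d : ℝ) ≤ T ^ θ := (Nat.le_floor_iff (by positivity)).mp hd'.2
            rw [MoB_norm_a _ _ _ hd'.1, lam_small (T ^ θ) hz d hdle]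
            have hmu : |((ArithmeticFunction.moebius d : ℤ) : ℝ)| ^ 2 = 1 := by
              rw [sq_abs]
              have : (ArithmeticFunction.moebius d : ℤ) ^ 2 = 1 := by
                rw [ArithmeticFunction.moebius_sq]
                simp [hsq]
              exact_mod_cast this
            rw [hmu, one_mul]
            simp [Real.rpow_neg_one]
        _ ≤ S := Finset.sum_le_sum_of_subset_of_nonneg hsub (fun _ _ _ => by positivity)
    linarith only [h1, h2, h3]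
  -- pointwise inequality
  have hpt : ∀ t : ℝ, f t * gw τ W₁ t ≤
      (Set.Ioc (τ - W) (τ + W)).indicator f t
        + Real.exp (-32) * (f t * gw τ (Real.sqrt 2 * W₁) t) := by
    intro t
    have hg1 : gw τ W₁ t ≤ 1 := by
      unfold gw
      rw [Real.exp_le_one_iff]
      have : 0 ≤ ((t - τ) / W₁) ^ 2 := by positivity
      linarith only [this]
    by_cases ht : t ∈ Set.Ioc (τ - W) (τ + W)
    · rw [Set.indicator_of_mem ht]
      have h1 : f t * gw τ W₁ t ≤ f t * 1 := mul_le_mul_of_nonneg_left hg1 (hf0 t)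
      have h2 : 0 ≤ Real.exp (-32) * (f t * gw τ (Real.sqrt 2 * W₁) t) := by
        have : 0 ≤ gw τ (Real.sqrt 2 * W₁) t := (Real.exp_pos _).le
        have := hf0 t
        positivity
      linarith only [h1, h2]
    · rw [Set.indicator_of_notMem ht, zero_add]
      have h8 : 64 ≤ ((t - τ) / W₁) ^ 2 := by
        rw [Set.mem_Ioc, not_and_or, not_lt, not_le] at ht
        have habs : W ≤ |t - τ| := by
          rcases ht with h | h
          · rw [le_abs]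
            right
            linarith only [h]
          · rw [le_abs]
            left
            linarith only [h]
        rw [div_pow, le_div_iff₀ (by positivity), ← sq_abs (t - τ)]
        have : W₁ = W / 8 := rfl
        rw [this]
        have h3 : W ^ 2 ≤ |t - τ| ^ 2 := by
          apply pow_le_pow_left₀ hW0.le habs
        nlinarith only [h3]
      have hgle : gw τ W₁ t ≤ Real.exp (-32) * gw τ (Real.sqrt 2 * W₁) t := by
        unfold gw
        rw [← Real.exp_add]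
        apply Real.exp_le_exp.mpr
        have hsq2 : Real.sqrt 2 ^ 2 = 2 := Real.sq_sqrt (by norm_num)
        have : ((t - τ) / (Real.sqrt 2 * W₁)) ^ 2 = ((t - τ) / W₁) ^ 2 / 2 := by
          rw [div_pow, div_pow, mul_pow, hsq2]
          field_simp
        rw [this]
        linarith only [h8]
      calc f t * gw τ W₁ t ≤ f t * (Real.exp (-32) * gw τ (Real.sqrt 2 * W₁) t) :=
            mul_le_mul_of_nonneg_left hgle (hf0 t)
        _ = _ := by ring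
  have hindint : Integrable ((Set.Ioc (τ - W) (τ + W)).indicator f) := by
    rw [integrable_indicator_iff measurableSet_Ioc]
    exact (hfc.integrableOn_Icc (a := τ - W) (b := τ + W)).mono_set Set.Ioc_subset_Icc_self
  have hmain : ∫ t : ℝ, f t * gw τ W₁ t ≤
      (∫ t in (τ - W)..(τ + W), f t)
        + Real.exp (-32) * ∫ t : ℝ, f t * gw τ (Real.sqrt 2 * W₁) t := by
    have h1 : ∫ t : ℝ, f t * gw τ W₁ t ≤ ∫ t : ℝ, ((Set.Ioc (τ - W) (τ + W)).indicator f t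
        + Real.exp (-32) * (f t * gw τ (Real.sqrt 2 * W₁) t)) :=
      integral_mono hint1 (hindint.add (hint2.const_mul _)) hpt
    rw [integral_add hindint (hint2.const_mul _), integral_const_mul,
      integral_indicator measurableSet_Ioc] at h1
    rwa [intervalIntegral.integral_of_le (by linarith only [hW0])]
  have hfin : ∫ t in (τ - W)..(τ + W), ‖Mo (T ^ θ) (pt 0 t)‖ ^ 2 = ∫ t in (τ - W)..(τ + W), f t := by
    congr 1
    funext t
    exact (hfeq t).symm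
  rw [hfin]
  have he : Real.exp (-32) ≤ 1 / 33 := by
    have h1 : (33 : ℝ) ≤ Real.exp 32 := by
      have := Real.add_one_le_exp (32 : ℝ)
      linarith only [this]
    rw [Real.exp_neg, ← one_div]
    exact one_div_le_one_div_of_le (by norm_num) h1
  have he0 : 0 ≤ Real.exp (-32) := (Real.exp_pos _).le
  have hI2 : ∫ t : ℝ, f t * gw τ (Real.sqrt 2 * W₁) t ≤ 4 * W₁ * S := by
    refine hup.trans ?_
    have : 2 * (Real.sqrt 2 * W₁) ≤ 4 * W₁ := by nlinarith only [hθ1, hW0, hW₁, hs2, hs2']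
    exact mul_le_mul_of_nonneg_right this hS0
  have hWS : 0 ≤ W₁ * S := by positivity
  have h4 : Real.exp (-32) * ∫ t : ℝ, f t * gw τ (Real.sqrt 2 * W₁) t ≤ 1 / 33 * (4 * (W₁ * S)) := by
    calc Real.exp (-32) * ∫ t : ℝ, f t * gw τ (Real.sqrt 2 * W₁) t
        ≤ Real.exp (-32) * (4 * W₁ * S) := mul_le_mul_of_nonneg_left hI2 he0
      _ ≤ 1 / 33 * (4 * (W₁ * S)) := by
        rw [mul_assoc 4]
        exact mul_le_mul_of_nonneg_right he (by positivity)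
  have h5 : W₁ * S ≤ ∫ t in (τ - W)..(τ + W), f t := by
    have h6 : 3 / 2 * W₁ * S = 3 / 2 * (W₁ * S) := by ring
    rw [h6] at hlow
    linarith only [hlow, hmain, hWS, h4]
  have h7 : θ / 16 * W * Real.log T ≤ W₁ * S := by
    have h8 : W₁ * S = W / 16 * (2 * S) := by
      rw [hW₁]
      ring
    rw [h8]
    calc θ / 16 * W * Real.log T = W / 16 * (θ * Real.log T) := by ring
      _ ≤ W / 16 * (2 * S) := mul_le_mul_of_nonneg_left hSlow (by positivity)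
  exact h7.trans h5

end Pool.Agent.H14.CO
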