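import Pool.Agent.H14.CO.Line
import Pool.Agent.H14.CO.Kern
import Pool.Agent.H14.CO.CutSum
import Pool.Agent.H14.CO.ZetaG
import Pool.Agent.H14.CO.MoB

/-!
# CO module Az: the smoothly truncated zeta sum at a zero
-/

set_option autoImplicit false

namespace Pool.Agent.H14.CO

open Set MeasureTheory Complex

/-- The integrand: `(Zt (ρ+z)/(ρ-1)) e^{z r} kn h z / z`. -/
noncomputable def azI (h r : ℝ) (ρ z : ℂ) : ℂ :=
  Zt (ρ + z) / (ρ - 1) * (Complex.exp (z * r) * (kn h z / z))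

/-- `az h r ρ = (1/2π) ∫ azI dy` over `Re z = 1`. -/
noncomputable def az (h r : ℝ) (ρ : ℂ) : ℂ :=
  (1 / (2 * Real.pi) : ℝ) * ∫ y : ℝ, azI h r ρ (1 + y * I)

/-! ### auxiliary: functions of polynomial growth in a strip -/

private theorem Az_re (σ y : ℝ) : ((σ : ℂ) + y * I).re = σ := by simp

private theorem Az_im (σ y : ℝ) : ((σ : ℂ) + y * I).im = y := by simp

private theorem Az_ne (σ y : ℝ) (hσ : σ ≠ 0) : ((σ : ℂ) + y * I) ≠ 0 := by
  intro h
  have := congrArg Complex.re h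
  rw [Az_re] at this
  exact hσ (by simpa using this)

private theorem Az_norm_exp (z : ℂ) (r : ℝ) : ‖Complex.exp (z * r)‖ = Real.exp (z.re * r) := by
  rw [Complex.norm_exp]
  congr 1
  simp

private theorem Az_two_pi : ‖(((1 / (2 * Real.pi) : ℝ)) : ℂ)‖ ≤ 1 := by
  rw [Complex.norm_real, Real.norm_eq_abs, abs_of_pos (by positivity)]
  rw [div_le_one (by positivity)]
  have := Real.pi_gt_three
  linarith

/-- polynomial growth in the strip `|Re z| ≤ S` -/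
private def Az_PG (S : ℝ) (F : ℂ → ℂ) : Prop :=
  ∃ (C : ℝ) (n : ℕ), 0 ≤ C ∧ ∀ z : ℂ, |z.re| ≤ S → ‖F z‖ ≤ C * (1 + ‖z‖) ^ n

private theorem Az_PG_mul {S : ℝ} {F G : ℂ → ℂ} (hF : Az_PG S F) (hG : Az_PG S G) :
    Az_PG S (fun z => F z * G z) := by
  obtain ⟨C, n, hC, hF⟩ := hF
  obtain ⟨D, m, hD, hG⟩ := hG
  refine ⟨C * D, n + m, by positivity, fun z hz => ?_⟩
  rw [norm_mul]
  calc ‖F z‖ * ‖G z‖ ≤ (C * (1 + ‖z‖) ^ n) * (D * (1 + ‖z‖) ^ m) :=
        mul_le_mul (hF z hz) (hG z hz) (norm_nonneg _) (by positivity)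
    _ = C * D * (1 + ‖z‖) ^ (n + m) := by rw [pow_add]; ring

private theorem Az_PG_id (S : ℝ) : Az_PG S (fun z => z) :=
  ⟨1, 1, zero_le_one, fun z _ => by rw [pow_one]; linarith⟩

private theorem Az_PG_Zt (S : ℝ) (ρ : ℂ) : Az_PG S (fun z => Zt (ρ + z) / (ρ - 1)) := by
  obtain ⟨C, hC, H⟩ := Zt_growth (1 + |S| + |ρ.re|)
    (by have := abs_nonneg S; have := abs_nonneg ρ.re; linarith)
  refine ⟨C * (1 + ‖ρ‖) ^ (⌈(1 + |S| + |ρ.re|) + 3⌉₊) / ‖ρ - 1‖, ⌈(1 + |S| + |ρ.re|) + 3⌉₊,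
    by positivity, fun z hz => ?_⟩
  have h1 : -(1 + |S| + |ρ.re|) ≤ (ρ + z).re := by
    rw [Complex.add_re]
    have h2 := neg_abs_le ρ.re
    have h3 := neg_abs_le z.re
    have h4 := le_abs_self S
    linarith
  have h2 := H (ρ + z) h1
  have h3 : (1 : ℝ) ≤ 1 + ‖ρ + z‖ := by have := norm_nonneg (ρ + z); linarith
  have h4 : (1 + ‖ρ + z‖) ^ ((1 + |S| + |ρ.re|) + 3) ≤
      (1 + ‖ρ + z‖) ^ (⌈(1 + |S| + |ρ.re|) + 3⌉₊) := by
    rw [← Real.rpow_natCast]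
    exact Real.rpow_le_rpow_of_exponent_le h3 (Nat.le_ceil _)
  have h5 : 1 + ‖ρ + z‖ ≤ (1 + ‖ρ‖) * (1 + ‖z‖) := by
    have h6 := norm_add_le ρ z
    have h7 : 0 ≤ ‖ρ‖ * ‖z‖ := by positivity
    nlinarith
  have h6 : (1 + ‖ρ + z‖) ^ (⌈(1 + |S| + |ρ.re|) + 3⌉₊) ≤
      (1 + ‖ρ‖) ^ (⌈(1 + |S| + |ρ.re|) + 3⌉₊) * (1 + ‖z‖) ^ (⌈(1 + |S| + |ρ.re|) + 3⌉₊) := by
    rw [← mul_pow]
    exact pow_le_pow_left₀ (by positivity) h5 _
  rw [norm_div, div_mul_eq_mul_div]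
  apply div_le_div_of_nonneg_right _ (norm_nonneg _)
  calc ‖Zt (ρ + z)‖ ≤ C * (1 + ‖ρ + z‖) ^ ((1 + |S| + |ρ.re|) + 3) := h2
    _ ≤ C * ((1 + ‖ρ‖) ^ (⌈(1 + |S| + |ρ.re|) + 3⌉₊) *
          (1 + ‖z‖) ^ (⌈(1 + |S| + |ρ.re|) + 3⌉₊)) :=
        mul_le_mul_of_nonneg_left (h4.trans h6) hC.le
    _ = _ := by ring

private theorem Az_norm_Mo_le (z₀ : ℝ) (s w : ℂ) (S : ℝ) (hw : |w.re| ≤ S) :
    ‖Mo z₀ (s + w)‖ ≤ ∑ d ∈ Finset.Icc 1 ⌊z₀ ^ 2⌋₊, |lam z₀ d| * (d : ℝ) ^ (|s.re| + S) := by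
  unfold Mo
  refine (norm_sum_le _ _).trans (Finset.sum_le_sum fun d hd => ?_)
  have hd1 : 1 ≤ d := (Finset.mem_Icc.1 hd).1
  have hd0 : (0 : ℝ) < d := by exact_mod_cast hd1
  have hd2 : (1 : ℝ) ≤ d := by exact_mod_cast hd1
  rw [norm_mul, Complex.norm_real, Real.norm_eq_abs]
  apply mul_le_mul_of_nonneg_left _ (abs_nonneg _)
  rw [show ((d : ℕ) : ℂ) = ((d : ℝ) : ℂ) by push_cast; rfl,
    Complex.norm_cpow_eq_rpow_re_of_pos hd0]
  apply Real.rpow_le_rpow_of_exponent_le hd2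
  rw [Complex.neg_re, Complex.add_re]
  have h2 := neg_abs_le s.re
  have h3 := neg_abs_le w.re
  linarith

private theorem Az_PG_Mo (S : ℝ) (z₀ : ℝ) (s : ℂ) : Az_PG S (fun z => Mo z₀ (s + z)) := by
  refine ⟨∑ d ∈ Finset.Icc 1 ⌊z₀ ^ 2⌋₊, |lam z₀ d| * (d : ℝ) ^ (|s.re| + S), 0,
    Finset.sum_nonneg fun d _ => by positivity, fun z hz => ?_⟩
  rw [pow_zero, mul_one]
  exact Az_norm_Mo_le z₀ s z S hz

private theorem Az_poly (k : ℕ) (y : ℝ) :
    (1 + |y|) ^ k * Real.exp (-y ^ 2) ≤ (k.factorial : ℝ) * Real.exp 2 := by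
  have h1 : (0 : ℝ) ≤ 1 + |y| := by positivity
  have h2 := Real.pow_div_factorial_le_exp (1 + |y|) h1 k
  have hk : (0 : ℝ) < k.factorial := by exact_mod_cast k.factorial_pos
  rw [div_le_iff₀ hk] at h2
  have h3 : Real.exp (1 + |y|) * Real.exp (-y ^ 2) ≤ Real.exp 2 := by
    rw [← Real.exp_add]
    apply Real.exp_le_exp.2
    have h4 : |y| ^ 2 = y ^ 2 := sq_abs y
    nlinarith [sq_nonneg (|y| - 1), abs_nonneg y]
  calc (1 + |y|) ^ k * Real.exp (-y ^ 2)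
      ≤ (Real.exp (1 + |y|) * k.factorial) * Real.exp (-y ^ 2) :=
        mul_le_mul_of_nonneg_right h2 (Real.exp_pos _).le
    _ = (k.factorial : ℝ) * (Real.exp (1 + |y|) * Real.exp (-y ^ 2)) := by ring
    _ ≤ _ := mul_le_mul_of_nonneg_left h3 hk.le

/-- decay of `F z e^{z r} kn h z` in a strip, uniformly for bounded `r`. -/
private theorem Az_decay {S : ℝ} {F : ℂ → ℂ} (hF : Az_PG S F) (h R : ℝ) (hh : 0 < h) :
    ∃ C : ℝ, 0 ≤ C ∧ ∀ z : ℂ, |z.re| ≤ S → ∀ r : ℝ, |r| ≤ R →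
      ‖F z * (Complex.exp (z * r) * kn h z)‖ ≤ C / (1 + z.im ^ 2) := by
  obtain ⟨C, n, hC, hF⟩ := hF
  by_cases hS : 0 ≤ S
  swap
  · exact ⟨0, le_rfl, fun z hz => absurd ((abs_nonneg _).trans hz) hS⟩
  refine ⟨C * (1 + S) ^ n * Real.exp (S * |R|) * (2 ^ 32 * Real.exp (32 * h * S + S ^ 2)) *
    (((n + 2).factorial : ℝ) * Real.exp 2), by positivity, fun z hz r hr => ?_⟩
  have hy : (0 : ℝ) < 1 + z.im ^ 2 := by positivity
  rw [le_div_iff₀ hy, norm_mul, norm_mul, Az_norm_exp]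
  -- bounds of the factors
  have h1 : 1 + ‖z‖ ≤ (1 + S) * (1 + |z.im|) := by
    have h2 := Complex.norm_le_abs_re_add_abs_im z
    have h3 : 0 ≤ S * |z.im| := by positivity
    nlinarith
  have h2 : ‖F z‖ ≤ C * ((1 + S) ^ n * (1 + |z.im|) ^ n) := by
    refine (hF z hz).trans (mul_le_mul_of_nonneg_left ?_ hC)
    rw [← mul_pow]
    exact pow_le_pow_left₀ (by positivity) h1 n
  have h3 : Real.exp (z.re * r) ≤ Real.exp (S * |R|) := by
    apply Real.exp_le_exp.2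
    calc z.re * r ≤ |z.re * r| := le_abs_self _
      _ = |z.re| * |r| := abs_mul _ _
      _ ≤ S * |R| := mul_le_mul hz (hr.trans (le_abs_self _)) (abs_nonneg _) hS
  have h4 : ‖kn h z‖ ≤ 2 ^ 32 * Real.exp (32 * h * S + S ^ 2) * Real.exp (-z.im ^ 2) := by
    have h1 := norm_kn_le h hh.le z
    have h2 : (1 : ℝ) ≤ (1 + h * ‖z‖) ^ 32 := by
      apply one_le_pow₀
      have : 0 ≤ h * ‖z‖ := by positivity
      linarith
    have h3 : ‖kn h z‖ ≤ ‖kn h z‖ * (1 + h * ‖z‖) ^ 32 :=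
      le_mul_of_one_le_right (norm_nonneg _) h2
    refine (h3.trans h1).trans ?_
    rw [mul_assoc (2 ^ 32 : ℝ), ← Real.exp_add]
    apply mul_le_mul_of_nonneg_left _ (by positivity)
    apply Real.exp_le_exp.2
    have h4 : 32 * h * |z.re| ≤ 32 * h * S := mul_le_mul_of_nonneg_left hz (by positivity)
    have h5 : z.re ^ 2 ≤ S ^ 2 := by
      rw [← sq_abs z.re]
      exact pow_le_pow_left₀ (abs_nonneg _) hz 2
    linarith
  have h5 : 1 + z.im ^ 2 ≤ (1 + |z.im|) ^ 2 := by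
    have h6 : |z.im| ^ 2 = z.im ^ 2 := sq_abs _
    nlinarith [abs_nonneg z.im]
  have h6 := Az_poly (n + 2) z.im
  calc ‖F z‖ * (Real.exp (z.re * r) * ‖kn h z‖) * (1 + z.im ^ 2)
      ≤ (C * ((1 + S) ^ n * (1 + |z.im|) ^ n)) * (Real.exp (S * |R|) *
          (2 ^ 32 * Real.exp (32 * h * S + S ^ 2) * Real.exp (-z.im ^ 2))) * (1 + |z.im|) ^ 2 := by
        apply mul_le_mul _ h5 hy.le (by positivity)
        apply mul_le_mul h2 _ (by positivity) (by positivity)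
        exact mul_le_mul h3 h4 (norm_nonneg _) (Real.exp_pos _).le
    _ = C * (1 + S) ^ n * Real.exp (S * |R|) * (2 ^ 32 * Real.exp (32 * h * S + S ^ 2)) *
          ((1 + |z.im|) ^ (n + 2) * Real.exp (-z.im ^ 2)) := by
        rw [pow_add]; ring
    _ ≤ _ := mul_le_mul_of_nonneg_left h6 (by positivity)

/-- integrability on a line of `F z (e^{z r} kn h z / z)`, with an explicit integrable majorant
uniform for bounded `r`. -/
private theorem Az_line_bound {σ : ℝ} (hσ : σ ≠ 0) {F : ℂ → ℂ} (hF : Az_PG |σ| F) (h R : ℝ)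
    (hh : 0 < h) : ∃ C : ℝ, 0 ≤ C ∧ ∀ y r : ℝ, |r| ≤ R →
      ‖F (σ + y * I) * (Complex.exp ((σ + y * I) * r) * (kn h (σ + y * I) / (σ + y * I)))‖
        ≤ C / (1 + y ^ 2) := by
  obtain ⟨C, hC, H⟩ := Az_decay hF h R hh
  have hσ' : 0 < |σ| := abs_pos.2 hσ
  refine ⟨C / |σ|, by positivity, fun y r hr => ?_⟩
  have h1 := H (σ + y * I) (by rw [Az_re]) r hr
  rw [Az_im] at h1
  have h2 : |σ| ≤ ‖(σ : ℂ) + y * I‖ := by
    have := Complex.abs_re_le_norm ((σ : ℂ) + y * I)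
    rwa [Az_re] at this
  rw [← mul_div_assoc, ← mul_div_assoc, norm_div]
  calc _ ≤ ‖F (σ + y * I) * (Complex.exp ((σ + y * I) * r) * kn h (σ + y * I))‖ / |σ| :=
        div_le_div_of_nonneg_left (norm_nonneg _) hσ' h2
    _ ≤ C / (1 + y ^ 2) / |σ| := div_le_div_of_nonneg_right h1 hσ'.le
    _ = _ := by rw [div_div, div_div, mul_comm]

private theorem Az_cont {σ : ℝ} (hσ : σ ≠ 0) {F : ℂ → ℂ} (hF : Continuous F) (h r : ℝ) :
    Continuous fun y : ℝ => F (σ + y * I) *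
      (Complex.exp ((σ + y * I) * r) * (kn h (σ + y * I) / (σ + y * I))) := by
  have h1 : Continuous fun y : ℝ => (σ : ℂ) + y * I := by fun_prop
  apply (hF.comp h1).mul
  apply Continuous.mul (by fun_prop)
  exact ((differentiable_kn h).continuous.comp h1).div h1 (fun y => Az_ne σ y hσ)

private theorem Az_majorant (C : ℝ) : Integrable (fun y : ℝ => C / (1 + y ^ 2)) := by
  simp only [div_eq_mul_inv]
  exact integrable_inv_one_add_sq.const_mul C

private theorem Az_integrable {σ : ℝ} (hσ : σ ≠ 0) {F : ℂ → ℂ} (hFc : Continuous F)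
    (hF : Az_PG |σ| F) (h r : ℝ) (hh : 0 < h) : Integrable fun y : ℝ => F (σ + y * I) *
      (Complex.exp ((σ + y * I) * r) * (kn h (σ + y * I) / (σ + y * I))) := by
  obtain ⟨C, -, H⟩ := Az_line_bound hσ hF h |r| hh
  exact (Az_majorant C).mono' (Az_cont hσ hFc h r).aestronglyMeasurable
    (Filter.Eventually.of_forall fun y => H y r le_rfl)

/-- differentiation under the integral sign -/
private theorem Az_hasDeriv {σ : ℝ} (hσ : σ ≠ 0) {F : ℂ → ℂ} (hFc : Continuous F)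
    (hF : Az_PG |σ| F) (h : ℝ) (hh : 0 < h) (r : ℝ) :
    HasDerivAt (fun r : ℝ => ∫ y : ℝ, F (σ + y * I) *
      (Complex.exp ((σ + y * I) * r) * (kn h (σ + y * I) / (σ + y * I))))
      (∫ y : ℝ, F (σ + y * I) *
      (Complex.exp ((σ + y * I) * r) * (kn h (σ + y * I) / (σ + y * I))) * (σ + y * I)) r := by
  have hF' : Az_PG |σ| (fun z => F z * z) := Az_PG_mul hF (Az_PG_id _)
  obtain ⟨C, hC, H⟩ := Az_line_bound hσ hF' h (|r| + 1) hh
  refine (hasDerivAt_integral_of_dominated_loc_of_deriv_le (bound := fun y => C / (1 + y ^ 2))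
    (F := fun (r : ℝ) (y : ℝ) => F (σ + y * I) *
      (Complex.exp ((σ + y * I) * r) * (kn h (σ + y * I) / (σ + y * I))))
    (F' := fun (r : ℝ) (y : ℝ) => F (σ + y * I) *
      (Complex.exp ((σ + y * I) * r) * (kn h (σ + y * I) / (σ + y * I))) * (σ + y * I))
    (Metric.ball_mem_nhds r one_pos) ?_ (Az_integrable hσ hFc hF h r hh) ?_ ?_
    (Az_majorant C) ?_).2
  · exact Filter.Eventually.of_forall fun r' => (Az_cont hσ hFc h r').aestronglyMeasurable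
  · exact ((Az_cont hσ hFc h r).mul (by fun_prop)).aestronglyMeasurable
  · refine Filter.Eventually.of_forall fun y r' hr' => ?_
    have h1 : |r'| ≤ |r| + 1 := by
      have h2 : |r' - r| < 1 := by simpa [Real.dist_eq] using hr'
      have h3 := abs_sub_abs_le_abs_sub r' r
      linarith
    have h2 := H y r' h1
    rw [show F (σ + y * I) * (Complex.exp ((σ + y * I) * r') *
      (kn h (σ + y * I) / (σ + y * I))) * (σ + y * I) = F (σ + y * I) * (σ + y * I) *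
      (Complex.exp ((σ + y * I) * r') * (kn h (σ + y * I) / (σ + y * I))) by ring]
    exact h2
  · refine Filter.Eventually.of_forall fun y r' _ => ?_
    have h1 : HasDerivAt (fun r : ℝ => Complex.exp ((σ + y * I) * (r : ℂ)))
        (Complex.exp ((σ + y * I) * (r' : ℂ)) * ((σ + y * I) * 1)) r' := by
      have h2 : HasDerivAt (fun r : ℝ => ((σ : ℂ) + y * I) * (r : ℂ)) ((σ + y * I) * 1) r' :=
        (HasDerivAt.ofReal_comp (hasDerivAt_id r')).const_mul _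
      exact h2.cexp
    have h3 := (h1.mul_const (kn h (σ + y * I) / (σ + y * I))).const_mul (F (σ + y * I))
    refine h3.congr_deriv ?_
    ring

/-- if the numerator vanishes at `0` the line may be moved anywhere -/
private theorem Az_shift {F : ℂ → ℂ} (hF : Differentiable ℂ F) (hP : ∀ S, Az_PG S F) (h0 : F 0 = 0)
    (h r : ℝ) (hh : 0 < h) (a b : ℝ) (ha : a ≠ 0) (hb : b ≠ 0) :
    (∫ y : ℝ, F (a + y * I) *
      (Complex.exp ((a + y * I) * r) * (kn h (a + y * I) / (a + y * I)))) =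
    ∫ y : ℝ, F (b + y * I) *
      (Complex.exp ((b + y * I) * r) * (kn h (b + y * I) / (b + y * I))) := by
  have key : ∀ a b : ℝ, a < 0 → 0 < b →
    (∫ y : ℝ, F (b + y * I) *
      (Complex.exp ((b + y * I) * r) * (kn h (b + y * I) / (b + y * I)))) =
    ∫ y : ℝ, F (a + y * I) *
      (Complex.exp ((a + y * I) * r) * (kn h (a + y * I) / (a + y * I))) := by
    intro a b ha hb
    obtain ⟨C, -, H⟩ := Az_decay (hP (|a| + |b|)) h |r| hh
    have h1 := line_residue (fun z : ℂ => F z * (Complex.exp (z * r) * kn h z)) a b ha hb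
      (fun z _ _ => (hF z).mul (((differentiableAt_id.mul_const _).cexp).mul
        (differentiable_kn h z))) C
      (fun z hz hz' => H z (by
        have h1 := neg_abs_le a
        have h2 := le_abs_self b
        have h3 := abs_nonneg a
        have h4 := abs_nonneg b
        rw [abs_le]
        constructor <;> linarith) r le_rfl)
    simp only [h0, zero_mul, mul_zero] at h1
    have e : ∀ c y : ℝ, F (c + y * I) *
        (Complex.exp ((c + y * I) * r) * (kn h (c + y * I) / (c + y * I))) =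
        F (c + y * I) * (Complex.exp ((c + y * I) * r) * kn h (c + y * I)) / (c + y * I) := by
      intro c y
      rw [← mul_div_assoc, ← mul_div_assoc]
    simp only [e]
    exact sub_eq_zero.1 h1
  rcases lt_or_gt_of_ne ha with ha' | ha' <;> rcases lt_or_gt_of_ne hb with hb' | hb'
  · rw [← key a 1 ha' one_pos, key b 1 hb' one_pos]
  · exact (key a b ha' hb').symm
  · exact key b a hb' ha'
  · rw [key (-1) a (by norm_num) ha', ← key (-1) b (by norm_num) hb']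

private theorem Az_diff (ρ : ℂ) : Differentiable ℂ (fun z => Zt (ρ + z) / (ρ - 1)) := by
  have h1 : Differentiable ℂ (fun z => Zt (ρ + z)) :=
    differentiable_Zt.comp ((differentiable_const ρ).add differentiable_id)
  exact h1.div_const _

private theorem Az_Zt_zero (ρ : ℂ) (hρ : riemannZeta ρ = 0) (hρ1 : ρ.re < 1) :
    Zt (ρ + 0) / (ρ - 1) = 0 := by
  have h1 : ρ ≠ 1 := by
    intro h
    rw [h] at hρ1
    simp at hρ1
  rw [add_zero, Zt_eq ρ h1, hρ, mul_zero, zero_div]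

private theorem Az_ofReal_one : ((1 : ℝ) : ℂ) = 1 := Complex.ofReal_one

/-- At a zero `ρ` the integrand is entire, so the line may be moved anywhere (`line_residue` +
`line_shift`, residue `Zt ρ = 0`). -/
theorem az_line (h r : ℝ) (hh : 0 < h) (ρ : ℂ) (hρ : riemannZeta ρ = 0) (hρ0 : 1 / 2 ≤ ρ.re)
    (hρ1 : ρ.re < 1) (σ : ℝ) (hσ : σ ≠ 0) :
    az h r ρ = (1 / (2 * Real.pi) : ℝ) * ∫ y : ℝ, azI h r ρ (σ + y * I) := by
  unfold az azI
  congr 1
  have := Az_shift (Az_diff ρ) (fun S => Az_PG_Zt S ρ) (Az_Zt_zero ρ hρ hρ1) h r hh 1 σ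
    one_ne_zero hσ
  simpa only [Complex.ofReal_one] using this

private theorem Az_norm_bound (B σ n : ℝ) (hB : 1 ≤ B) (hn : 0 ≤ n) (hσ : |σ| = B) (ρ : ℂ)
    (hρ : 1 ≤ |ρ.im|) (C : ℝ) (hC : 0 < C)
    (H : ∀ y : ℝ, ‖Zt (ρ + (σ + y * I))‖ ≤ C * (1 + ‖ρ + (σ + y * I)‖) ^ n)
    (D : ℝ) (hD : 0 < D) (h r : ℝ) (hh : 1 ≤ h)
    (hk1 : Integrable (fun y : ℝ => (1 + h * |y|) ^ 30 * (1 + |y|) ^ ⌈n⌉₊ *
      ‖kn h (σ + y * I) / (σ + y * I)‖))
    (hk2 : ∫ y : ℝ, (1 + h * |y|) ^ 30 * (1 + |y|) ^ ⌈n⌉₊ *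
      ‖kn h (σ + y * I) / (σ + y * I)‖
      ≤ D * Real.exp (32 * h * |σ| + σ ^ 2) * (1 + 1 / (h * |σ|))) :
    ‖((1 / (2 * Real.pi) : ℝ) : ℂ) * ∫ y : ℝ, azI h r ρ (σ + y * I)‖ ≤
      (C * (2 + B) ^ n * (D * Real.exp (B ^ 2) * 2)) * ‖ρ‖ ^ n *
        Real.exp (σ * r + 32 * h * B) := by
  have hρn : 1 ≤ ‖ρ‖ := hρ.trans (Complex.abs_im_le_norm ρ)
  have hρ1 : 1 ≤ ‖ρ - 1‖ := by
    have := Complex.abs_im_le_norm (ρ - 1)
    rw [Complex.sub_im, Complex.one_im, sub_zero] at this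
    exact hρ.trans this
  have hh0 : 0 < h := by linarith
  have hB0 : 0 < B := by linarith
  -- pointwise bound
  have hpt : ∀ y : ℝ, ‖azI h r ρ (σ + y * I)‖ ≤ C * (2 + B) ^ n * ‖ρ‖ ^ n * Real.exp (σ * r) *
      ((1 + h * |y|) ^ 30 * (1 + |y|) ^ ⌈n⌉₊ * ‖kn h (σ + y * I) / (σ + y * I)‖) := by
    intro y
    unfold azI
    rw [norm_mul, norm_mul, norm_div (Zt _), Az_norm_exp, Az_re]
    have h1 : ‖Zt (ρ + (σ + y * I))‖ / ‖ρ - 1‖ ≤
        C * ((2 + B) ^ n * ‖ρ‖ ^ n * (1 + |y|) ^ ⌈n⌉₊) := by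
      refine (div_le_self (norm_nonneg _) hρ1).trans ((H y).trans ?_)
      apply mul_le_mul_of_nonneg_left _ hC.le
      have h2 : 1 + ‖ρ + (σ + y * I)‖ ≤ (2 + B) * ‖ρ‖ * (1 + |y|) := by
        have h3 := norm_add_le ρ (σ + y * I)
        have h4 := Complex.norm_le_abs_re_add_abs_im ((σ : ℂ) + y * I)
        rw [Az_re, Az_im, hσ] at h4
        have h5 : 0 ≤ |y| := abs_nonneg y
        have h6 : (2 + B) * ‖ρ‖ * (1 + |y|) = (2 + B) * ‖ρ‖ + (2 + B) * ‖ρ‖ * |y| := by ring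
        have h7 : 1 + ‖ρ‖ + B ≤ (2 + B) * ‖ρ‖ := by nlinarith
        have h8 : |y| ≤ (2 + B) * ‖ρ‖ * |y| := by
          apply le_mul_of_one_le_left h5
          nlinarith
        linarith
      calc (1 + ‖ρ + (σ + y * I)‖) ^ n ≤ ((2 + B) * ‖ρ‖ * (1 + |y|)) ^ n :=
            Real.rpow_le_rpow (by positivity) h2 hn
        _ = (2 + B) ^ n * ‖ρ‖ ^ n * (1 + |y|) ^ n := by
            rw [Real.mul_rpow (by positivity) (by positivity),
              Real.mul_rpow (by positivity) (by positivity)]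
        _ ≤ (2 + B) ^ n * ‖ρ‖ ^ n * (1 + |y|) ^ ⌈n⌉₊ := by
            apply mul_le_mul_of_nonneg_left _ (by positivity)
            rw [← Real.rpow_natCast]
            exact Real.rpow_le_rpow_of_exponent_le (by have := abs_nonneg y; linarith)
              (Nat.le_ceil _)
    have h9 : (1 : ℝ) ≤ (1 + h * |y|) ^ 30 := by
      apply one_le_pow₀
      have : 0 ≤ h * |y| := by positivity
      linarith
    calc ‖Zt (ρ + (σ + y * I))‖ / ‖ρ - 1‖ *
          (Real.exp (σ * r) * ‖kn h (σ + y * I) / (σ + y * I)‖)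
        ≤ C * ((2 + B) ^ n * ‖ρ‖ ^ n * (1 + |y|) ^ ⌈n⌉₊) *
          (Real.exp (σ * r) * ‖kn h (σ + y * I) / (σ + y * I)‖) :=
          mul_le_mul_of_nonneg_right h1 (by positivity)
      _ = C * (2 + B) ^ n * ‖ρ‖ ^ n * Real.exp (σ * r) *
          (1 * (1 + |y|) ^ ⌈n⌉₊ * ‖kn h (σ + y * I) / (σ + y * I)‖) := by ring
      _ ≤ _ := by
          apply mul_le_mul_of_nonneg_left _ (by positivity)
          apply mul_le_mul_of_nonneg_right _ (norm_nonneg _)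
          exact mul_le_mul_of_nonneg_right h9 (by positivity)
  have hint : ‖∫ y : ℝ, azI h r ρ (σ + y * I)‖ ≤ C * (2 + B) ^ n * ‖ρ‖ ^ n * Real.exp (σ * r) *
      (D * Real.exp (32 * h * |σ| + σ ^ 2) * (1 + 1 / (h * |σ|))) := by
    calc _ ≤ ∫ y : ℝ, C * (2 + B) ^ n * ‖ρ‖ ^ n * Real.exp (σ * r) *
          ((1 + h * |y|) ^ 30 * (1 + |y|) ^ ⌈n⌉₊ * ‖kn h (σ + y * I) / (σ + y * I)‖) :=
          norm_integral_le_of_norm_le (hk1.const_mul _) (Filter.Eventually.of_forall hpt)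
      _ = C * (2 + B) ^ n * ‖ρ‖ ^ n * Real.exp (σ * r) * ∫ y : ℝ,
          (1 + h * |y|) ^ 30 * (1 + |y|) ^ ⌈n⌉₊ * ‖kn h (σ + y * I) / (σ + y * I)‖ := by
          rw [integral_const_mul]
      _ ≤ _ := mul_le_mul_of_nonneg_left hk2 (by positivity)
  have h1 : (1 : ℝ) + 1 / (h * |σ|) ≤ 2 := by
    rw [hσ]
    have : 1 / (h * B) ≤ 1 := by
      rw [div_le_one (by positivity)]
      nlinarith
    linarith
  have h2 : σ ^ 2 = B ^ 2 := by rw [← sq_abs, hσ]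
  rw [norm_mul]
  calc _ ≤ 1 * ‖∫ y : ℝ, azI h r ρ (σ + y * I)‖ :=
        mul_le_mul_of_nonneg_right Az_two_pi (norm_nonneg _)
    _ ≤ C * (2 + B) ^ n * ‖ρ‖ ^ n * Real.exp (σ * r) *
      (D * Real.exp (32 * h * |σ| + σ ^ 2) * (1 + 1 / (h * |σ|))) := by rw [one_mul]; exact hint
    _ ≤ C * (2 + B) ^ n * ‖ρ‖ ^ n * Real.exp (σ * r) *
      (D * Real.exp (32 * h * |σ| + σ ^ 2) * 2) := by
        apply mul_le_mul_of_nonneg_left _ (by positivity)
        exact mul_le_mul_of_nonneg_left h1 (by positivity)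
    _ = _ := by
        rw [hσ, h2, Real.exp_add, Real.exp_add]
        ring

/-- decay for `r → -∞` (line `Re z = B`; `kn_int`, `Zt_growth`). -/
theorem az_right (B : ℝ) (hB : 1 ≤ B) : ∃ C : ℝ, 0 < C ∧ ∀ h r : ℝ, 1 ≤ h → ∀ ρ : ℂ,
    riemannZeta ρ = 0 → 1 / 2 ≤ ρ.re → ρ.re < 1 → 1 ≤ |ρ.im| →
    ‖az h r ρ‖ ≤ C * ‖ρ‖ ^ 4 * Real.exp (B * r + 32 * h * B) := by
  obtain ⟨C, hC, HC⟩ := Zt_growth 1 le_rfl
  obtain ⟨D, hD, HD⟩ := kn_int ⌈(4 : ℝ)⌉₊
  refine ⟨C * (2 + B) ^ (4 : ℝ) * (D * Real.exp (B ^ 2) * 2), by positivity,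
    fun h r hh ρ hρ h1 h2 h3 => ?_⟩
  have hB0 : B ≠ 0 := by linarith
  have hh0 : 0 < h := by linarith
  obtain ⟨k1, k2⟩ := HD h B hh0 hB0
  rw [az_line h r hh0 ρ hρ h1 h2 B hB0]
  have := Az_norm_bound B B 4 hB (by norm_num) (abs_of_pos (by linarith)) ρ h3 C hC
    (fun y => by
      have h4 := HC (ρ + (B + y * I)) (by
        rw [Complex.add_re, Az_re]
        linarith)
      rw [show (1 : ℝ) + 3 = 4 by norm_num] at h4
      exact h4) D hD h r hh k1 k2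
  rw [← Real.rpow_natCast ‖ρ‖ 4]
  exact this

/-- decay for `r → +∞` (line `Re z = -B`; `Zt_growth B`: `‖Zt (ρ+z)‖ ≤ C (1+‖ρ‖+‖z‖)^{B+3}`). -/
theorem az_left (B : ℝ) (hB : 1 ≤ B) : ∃ C : ℝ, 0 < C ∧ ∀ h r : ℝ, 1 ≤ h → ∀ ρ : ℂ,
    riemannZeta ρ = 0 → 1 / 2 ≤ ρ.re → ρ.re < 1 → 1 ≤ |ρ.im| →
    ‖az h r ρ‖ ≤ C * ‖ρ‖ ^ (B + 3) * Real.exp (-B * r + 32 * h * B) := by
  obtain ⟨C, hC, HC⟩ := Zt_growth B hB
  obtain ⟨D, hD, HD⟩ := kn_int ⌈B + 3⌉₊
  refine ⟨C * (2 + B) ^ (B + 3) * (D * Real.exp (B ^ 2) * 2), by positivity,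
    fun h r hh ρ hρ h1 h2 h3 => ?_⟩
  have hB0 : -B ≠ 0 := by
    intro h
    linarith
  have hh0 : 0 < h := by linarith
  obtain ⟨k1, k2⟩ := HD h (-B) hh0 hB0
  rw [az_line h r hh0 ρ hρ h1 h2 (-B) hB0]
  exact Az_norm_bound B (-B) (B + 3) hB (by linarith)
    (by rw [abs_neg, abs_of_pos (by linarith)]) ρ h3 C hC
    (fun y => HC (ρ + ((-B : ℝ) + y * I)) (by
        rw [Complex.add_re, Az_re]
        linarith)) D hD h r hh k1 k2

/-- `az` as a smoothed Dirichlet series (`tsum_vc`, `tsum_vd` with `σ = 1`;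
`Zt (ρ+z)/(ρ-1) = ζ(ρ+z)(1 + z/(ρ-1))`). -/
theorem az_series (h r : ℝ) (hh : 0 < h) (ρ : ℂ) (hρ0 : 1 / 2 ≤ ρ.re) (hρ1 : ρ.re < 1) :
    az h r ρ = ∑' l : ℕ, ((l + 1 : ℕ) : ℂ) ^ (-ρ) *
      (vc h (r - Real.log (l + 1 : ℕ)) + vd h (r - Real.log (l + 1 : ℕ)) / (ρ - 1)) := by
  have hne : ρ - 1 ≠ 0 := by
    intro h0
    have := congrArg Complex.re h0
    rw [Complex.sub_re, Complex.one_re, Complex.zero_re] at this
    linarith
  have e1 : ∀ l : ℕ, ((l + 1 : ℕ) : ℂ) ^ (-ρ) *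
      (vc h (r - Real.log (l + 1 : ℕ)) + vd h (r - Real.log (l + 1 : ℕ)) / (ρ - 1)) =
      ((l + 1 : ℕ) : ℂ) ^ (-ρ) * vc h (r - Real.log (l + 1 : ℕ)) +
      ((l + 1 : ℕ) : ℂ) ^ (-ρ) * vd h (r - Real.log (l + 1 : ℕ)) * (ρ - 1)⁻¹ := by
    intro l
    rw [div_eq_mul_inv]
    ring
  simp only [e1]
  rw [(summable_vc h r hh ρ).of_norm.tsum_add ((summable_vd h r hh ρ).of_norm.mul_right _),
    tsum_mul_right, tsum_vc h r hh ρ 1 one_pos (by linarith),
    tsum_vd h r hh ρ 1 (by linarith)]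
  unfold az
  rw [mul_assoc, ← mul_add]
  congr 1
  -- the pointwise identity
  have hz1 : ∀ y : ℝ, ρ + (1 + y * I) ≠ 1 := by
    intro y h0
    have := congrArg Complex.re h0
    simp at this
    linarith
  have hzn : ∀ y : ℝ, 1 / 2 ≤ ‖ρ + (1 + y * I) - 1‖ := by
    intro y
    refine le_trans ?_ ((le_abs_self _).trans (Complex.abs_re_le_norm _))
    simp
    linarith
  have hζ : ∀ y : ℝ, riemannZeta (ρ + (1 + y * I)) =
      Zt (ρ + (1 + y * I)) / (ρ + (1 + y * I) - 1) := by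
    intro y
    rw [Zt_eq _ (hz1 y), mul_div_cancel_left₀ _ (sub_ne_zero.2 (hz1 y))]
  -- continuity of `ζ` on the line
  have hc1 : Continuous fun y : ℝ => (1 : ℂ) + y * I := by fun_prop
  have hcζ : Continuous fun y : ℝ => riemannZeta (ρ + (1 + y * I)) := by
    simp only [hζ]
    apply Continuous.div
    · exact differentiable_Zt.continuous.comp (continuous_const.add hc1)
    · exact (continuous_const.add hc1).sub continuous_const
    · intro y
      exact sub_ne_zero.2 (hz1 y)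
  have hck : Continuous fun y : ℝ => kn h (1 + y * I) := (differentiable_kn h).continuous.comp hc1
  have hy0 : ∀ y : ℝ, (1 : ℂ) + y * I ≠ 0 := by
    intro y
    simpa using Az_ne 1 y one_ne_zero
  -- bounds
  have hI1 : Integrable fun y : ℝ => riemannZeta (ρ + (1 + y * I)) *
      (Complex.exp ((1 + y * I) * r) * (kn h (1 + y * I) / (1 + y * I))) := by
    have h1 := Az_integrable (σ := 1) one_ne_zero (F := fun z : ℂ => Zt (ρ + z))
      (differentiable_Zt.continuous.comp (continuous_const.add continuous_id)) (by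
        have h2 := Az_PG_mul (Az_PG_Zt |(1 : ℝ)| ρ)
          (⟨‖ρ - 1‖, 0, norm_nonneg _, fun z _ => by simp⟩ : Az_PG |(1 : ℝ)| (fun _ => ρ - 1))
        simpa only [div_mul_cancel₀ _ hne] using h2) h r hh
    simp only [Complex.ofReal_one] at h1
    refine (h1.norm.const_mul 2).mono' ?_ ?_
    · apply Continuous.aestronglyMeasurable
      apply hcζ.mul
      apply Continuous.mul (by fun_prop)
      exact hck.div hc1 hy0
    · refine Filter.Eventually.of_forall fun y => ?_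
      rw [hζ y, div_mul_eq_mul_div, norm_div,
        div_le_iff₀ (lt_of_lt_of_le (by norm_num) (hzn y))]
      have h2 := hzn y
      have h3 : 0 ≤ ‖Zt (ρ + (1 + y * I)) *
          (Complex.exp ((1 + y * I) * r) * (kn h (1 + y * I) / (1 + y * I)))‖ := norm_nonneg _
      nlinarith
  have hI2 : Integrable fun y : ℝ => riemannZeta (ρ + (1 + y * I)) *
      (Complex.exp ((1 + y * I) * r) * kn h (1 + y * I)) := by
    have h1 := Az_integrable (σ := 1) one_ne_zero (F := fun z : ℂ => Zt (ρ + z) * z)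
      ((differentiable_Zt.continuous.comp (continuous_const.add continuous_id)).mul
        continuous_id) (by
        have h2 := Az_PG_mul (Az_PG_mul (Az_PG_Zt |(1 : ℝ)| ρ)
          (⟨‖ρ - 1‖, 0, norm_nonneg _, fun z _ => by simp⟩ : Az_PG |(1 : ℝ)| (fun _ => ρ - 1)))
          (Az_PG_id _)
        simpa only [div_mul_cancel₀ _ hne] using h2) h r hh
    simp only [Complex.ofReal_one] at h1
    refine (h1.norm.const_mul 2).mono' ?_ ?_
    · apply Continuous.aestronglyMeasurable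
      apply hcζ.mul
      exact Continuous.mul (by fun_prop) hck
    · refine Filter.Eventually.of_forall fun y => ?_
      have h4 : Zt (ρ + (1 + y * I)) * (1 + y * I) *
          (Complex.exp ((1 + y * I) * r) * (kn h (1 + y * I) / (1 + y * I))) =
          Zt (ρ + (1 + y * I)) * (Complex.exp ((1 + y * I) * r) * kn h (1 + y * I)) := by
        have := hy0 y
        field_simp
      rw [h4, hζ y, div_mul_eq_mul_div, norm_div,
        div_le_iff₀ (lt_of_lt_of_le (by norm_num) (hzn y))]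
      have h2 := hzn y
      have h3 : 0 ≤ ‖Zt (ρ + (1 + y * I)) *
          (Complex.exp ((1 + y * I) * r) * kn h (1 + y * I))‖ := norm_nonneg _
      nlinarith
  simp only [Complex.ofReal_one]
  rw [← integral_mul_const, ← integral_add hI1 (hI2.mul_const _)]
  congr 1
  ext y
  unfold azI
  rw [Zt_eq _ (hz1 y)]
  have := hy0 y
  field_simp
  ring

theorem az_deriv (h : ℝ) (hh : 0 < h) (ρ : ℂ) (r : ℝ) :
    HasDerivAt (fun r : ℝ => az h r ρ)
      ((1 / (2 * Real.pi) : ℝ) * ∫ y : ℝ, azI h r ρ (1 + y * I) * (1 + y * I)) r := by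
  have h1 := Az_hasDeriv (σ := 1) one_ne_zero (Az_diff ρ).continuous (Az_PG_Zt _ ρ) h hh r
  simp only [Complex.ofReal_one] at h1
  exact h1.const_mul _

/-- The truncated mollified sum `A(u) = ∑_m λ_m m^{-s} az h (ν - u - log m) ρ`. -/
noncomputable def Am (z₀ h ν : ℝ) (s ρ : ℂ) (u : ℝ) : ℂ :=
  ∑ m ∈ Finset.Icc 1 ⌊z₀ ^ 2⌋₊, (lam z₀ m : ℂ) * (m : ℂ) ^ (-s) * az h (ν - u - Real.log m) ρ

/-- `A(u) = (1/2π) ∫ Mo (s+z) azI h (ν-u) ρ z dy` on every line `Re z = σ ≠ 0`. -/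
theorem Am_line (z₀ h ν : ℝ) (hh : 0 < h) (s ρ : ℂ) (hρ : riemannZeta ρ = 0) (hρ0 : 1 / 2 ≤ ρ.re)
    (hρ1 : ρ.re < 1) (u σ : ℝ) (hσ : σ ≠ 0) :
    Am z₀ h ν s ρ u = (1 / (2 * Real.pi) : ℝ) *
      ∫ y : ℝ, Mo z₀ (s + (σ + y * I)) * azI h (ν - u) ρ (σ + y * I) := by
  have e1 : ∀ y : ℝ, Mo z₀ (s + (σ + y * I)) * azI h (ν - u) ρ (σ + y * I) =
      ∑ m ∈ Finset.Icc 1 ⌊z₀ ^ 2⌋₊, (lam z₀ m : ℂ) * (m : ℂ) ^ (-s) *
        azI h (ν - u - Real.log m) ρ (σ + y * I) := by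
    intro y
    unfold Mo
    rw [Finset.sum_mul]
    refine Finset.sum_congr rfl fun m hm => ?_
    have hm1 : 1 ≤ m := (Finset.mem_Icc.1 hm).1
    have hm0 : (m : ℂ) ≠ 0 := by exact_mod_cast (by omega : m ≠ 0)
    have hmr : (0 : ℝ) ≤ m := by positivity
    unfold azI
    have h2 : Complex.exp ((σ + y * I) * ((ν - u - Real.log m : ℝ) : ℂ)) =
        Complex.exp ((σ + y * I) * ((ν - u : ℝ) : ℂ)) * (m : ℂ) ^ (-((σ : ℂ) + y * I)) := by
      rw [Complex.cpow_def_of_ne_zero hm0, ← Complex.exp_add]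
      congr 1
      push_cast [Complex.ofReal_log hmr]
      ring
    rw [h2, neg_add, Complex.cpow_add _ _ hm0]
    ring
  simp only [e1]
  unfold Am
  rw [integral_finsetSum]
  · rw [Finset.mul_sum]
    refine Finset.sum_congr rfl fun m _ => ?_
    rw [integral_const_mul, az_line h _ hh ρ hρ hρ0 hρ1 σ hσ]
    ring
  · intro m _
    exact (Az_integrable hσ (Az_diff ρ).continuous (Az_PG_Zt _ ρ) h _ hh).const_mul _

private theorem Az_Mo_cont (z₀ : ℝ) (s : ℂ) : Continuous (fun z => Mo z₀ (s + z)) := by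
  unfold Mo
  refine continuous_finsetSum _ fun m hm => ?_
  have hm1 : 1 ≤ m := (Finset.mem_Icc.1 hm).1
  have hm0 : (m : ℂ) ≠ 0 := by exact_mod_cast (by omega : m ≠ 0)
  apply continuous_const.mul
  exact Continuous.const_cpow (by fun_prop) (Or.inl hm0)

/-- its derivative in `u`. -/
theorem Am_deriv (z₀ h ν : ℝ) (hh : 0 < h) (s ρ : ℂ) (hρ : riemannZeta ρ = 0) (hρ0 : 1 / 2 ≤ ρ.re)
    (hρ1 : ρ.re < 1) (u σ : ℝ) (hσ : σ ≠ 0) :
    HasDerivAt (Am z₀ h ν s ρ) (-((1 / (2 * Real.pi) : ℝ) *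
      ∫ y : ℝ, Mo z₀ (s + (σ + y * I)) * azI h (ν - u) ρ (σ + y * I) * (σ + y * I))) u := by
  have e0 : Am z₀ h ν s ρ = fun u => (1 / (2 * Real.pi) : ℝ) *
      ∫ y : ℝ, Mo z₀ (s + (σ + y * I)) * azI h (ν - u) ρ (σ + y * I) := by
    ext u
    exact Am_line z₀ h ν hh s ρ hρ hρ0 hρ1 u σ hσ
  have h1 := Az_hasDeriv hσ (F := fun z => Mo z₀ (s + z) * (Zt (ρ + z) / (ρ - 1)))
    ((Az_Mo_cont z₀ s).mul (Az_diff ρ).continuous) (Az_PG_mul (Az_PG_Mo _ z₀ s) (Az_PG_Zt _ ρ))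
    h hh (ν - u)
  have h2 : HasDerivAt (fun u : ℝ => ν - u) (-1) u := by
    simpa using (hasDerivAt_id u).const_sub ν
  have h3 := (HasDerivAt.scomp u h1 h2).const_mul (((1 / (2 * Real.pi) : ℝ)) : ℂ)
  rw [e0]
  have e1 : (fun u : ℝ => (((1 / (2 * Real.pi) : ℝ)) : ℂ) *
      ∫ y : ℝ, Mo z₀ (s + (σ + y * I)) * azI h (ν - u) ρ (σ + y * I)) =
      fun u : ℝ => (((1 / (2 * Real.pi) : ℝ)) : ℂ) *
        ((fun r : ℝ => ∫ y : ℝ, Mo z₀ (s + (σ + y * I)) * (Zt (ρ + (σ + y * I)) / (ρ - 1)) *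
        (Complex.exp ((σ + y * I) * r) * (kn h (σ + y * I) / (σ + y * I)))) ∘
        (fun u : ℝ => ν - u)) u := by
    ext u
    simp only [Function.comp, azI]
    congr 2
    ext y
    ring
  rw [e1]
  refine h3.congr_deriv ?_
  rw [neg_smul, one_smul, mul_neg]
  congr 3
  ext y
  unfold azI
  ring

/-- the derivative is continuous (dominated convergence in the formula of `az_deriv`). -/
theorem continuous_deriv_Am (z₀ h ν : ℝ) (hh : 0 < h) (s ρ : ℂ) :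
    Continuous (deriv (Am z₀ h ν s ρ)) := by
  -- the derivative of `az`
  have hc : Continuous fun r : ℝ =>
      (((1 / (2 * Real.pi) : ℝ)) : ℂ) * ∫ y : ℝ, azI h r ρ (1 + y * I) * (1 + y * I) := by
    apply continuous_const.mul
    have h1 : ∀ r : ℝ, ContinuousAt (fun r : ℝ => ∫ y : ℝ, azI h r ρ (1 + y * I) *
        (1 + y * I)) r := by
      intro r
      have h2 := (Az_hasDeriv (σ := 1) one_ne_zero
        (F := fun z => Zt (ρ + z) / (ρ - 1) * z)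
        ((Az_diff ρ).continuous.mul continuous_id) (Az_PG_mul (Az_PG_Zt _ ρ) (Az_PG_id _))
        h hh r).continuousAt
      simp only [Complex.ofReal_one] at h2
      have e : (fun r : ℝ => ∫ y : ℝ, azI h r ρ (1 + y * I) * (1 + y * I)) =
          fun r : ℝ => ∫ y : ℝ, Zt (ρ + (1 + y * I)) / (ρ - 1) * (1 + y * I) *
            (Complex.exp ((1 + y * I) * r) * (kn h (1 + y * I) / (1 + y * I))) := by
        ext r
        congr 1
        ext y
        unfold azI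
        ring
      rw [e]
      exact h2
    exact continuous_iff_continuousAt.2 h1
  have hd : ∀ u : ℝ, HasDerivAt (Am z₀ h ν s ρ)
      (∑ m ∈ Finset.Icc 1 ⌊z₀ ^ 2⌋₊, (lam z₀ m : ℂ) * (m : ℂ) ^ (-s) *
        (-((((1 / (2 * Real.pi) : ℝ)) : ℂ) *
          ∫ y : ℝ, azI h (ν - u - Real.log m) ρ (1 + y * I) * (1 + y * I)))) u := by
    intro u
    unfold Am
    apply HasDerivAt.fun_sum
    intro m _
    apply HasDerivAt.const_mul
    have h2 : HasDerivAt (fun u : ℝ => ν - u - Real.log m) (-1) u := by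
      simpa using ((hasDerivAt_id u).const_sub ν).sub_const (Real.log m)
    have h3 := HasDerivAt.scomp u (az_deriv h hh ρ (ν - u - Real.log m)) h2
    rw [neg_smul, one_smul] at h3
    exact h3
  have e : deriv (Am z₀ h ν s ρ) = fun u =>
      (∑ m ∈ Finset.Icc 1 ⌊z₀ ^ 2⌋₊, (lam z₀ m : ℂ) * (m : ℂ) ^ (-s) *
        (-((((1 / (2 * Real.pi) : ℝ)) : ℂ) *
          ∫ y : ℝ, azI h (ν - u - Real.log m) ρ (1 + y * I) * (1 + y * I)))) := by
    ext u
    exact (hd u).deriv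
  rw [e]
  refine continuous_finsetSum _ fun m _ => ?_
  apply continuous_const.mul
  apply Continuous.neg
  exact hc.comp (by fun_prop)

end Pool.Agent.H14.CO
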