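import Pool.Agent.H14.CO.AB
import Pool.Agent.H14.CO.AR

/-!
# CO module CB: mean square of `ζ M M` to the right of the critical line
-/

set_option autoImplicit false

namespace Pool.Agent.H14.CO

open Set MeasureTheory Complex

private theorem CB_pow (θ T : ℝ) (hθ1 : θ ≤ 1 / 40) (hT : 1 < T) :
    (T ^ θ) ^ 4 ≤ T ^ (1 / 10 : ℝ) := by
  rw [← Real.rpow_natCast, ← Real.rpow_mul (by linarith)]
  exact Real.rpow_le_rpow_of_exponent_le hT.le (by push_cast; linarith)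

private theorem CB_supp (θ T : ℝ) (hθ0 : 0 < θ) (hθ1 : θ ≤ 1 / 40) (hT : 1 < T) (w₁ w₂ : ℂ) (D : ℕ)
    (hD : T ^ (1 / 10 : ℝ) < D) : aa (T ^ θ) w₁ w₂ D = 0 := by
  have hz : 1 < T ^ θ := Real.one_lt_rpow hT hθ0
  refine Finset.sum_eq_zero fun d hd => ?_
  rw [Nat.mem_divisorsAntidiagonal] at hd
  have h4 := CB_pow θ T hθ1 hT
  rcases le_or_gt ((T ^ θ) ^ 2) d.1 with h | h
  · rw [lam_eq_zero _ hz _ h]; simp
  · have h2 : (T ^ θ) ^ 2 ≤ d.2 := by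
      by_contra h3
      rw [not_le] at h3
      have h5 : (D : ℝ) = d.1 * d.2 := by exact_mod_cast hd.1.symm
      have h6 : (d.1 : ℝ) * d.2 ≤ (T ^ θ) ^ 2 * (T ^ θ) ^ 2 := by gcongr
      have h7 : (T ^ θ) ^ 2 * (T ^ θ) ^ 2 = (T ^ θ) ^ 4 := by ring
      linarith
    rw [lam_eq_zero _ hz _ h2]; simp

private theorem CB_cpow (L K : ℝ) (hK : 0 ≤ K / L) (w : ℂ) (hw : |w.re| ≤ K / L) (d : ℕ) (hd : 1 ≤ d) :
    ‖(d : ℂ) ^ (-w)‖ ≤ (d : ℝ) ^ (K / L) := by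
  have hd0 : (0 : ℝ) < d := by exact_mod_cast hd
  have hd1 : (1 : ℝ) ≤ d := by exact_mod_cast hd
  have h1 : ((d : ℝ) : ℂ) = (d : ℂ) := by push_cast; rfl
  rw [← h1, Complex.norm_cpow_eq_rpow_re_of_pos hd0]
  refine Real.rpow_le_rpow_of_exponent_le hd1 ?_
  rw [Complex.neg_re]
  exact (neg_le_abs _).trans hw

private theorem CB_bound (θ T K : ℝ) (hθ0 : 0 < θ) (hθ1 : θ ≤ 1 / 40) (hT : 1 < T) (hK : 0 ≤ K)
    (hTK : Real.exp K ≤ T) (w₁ w₂ : ℂ) (hw₁ : |w₁.re| ≤ K / Real.log T) (hw₂ : |w₂.re| ≤ K / Real.log T)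
    (D : ℕ) : ‖aa (T ^ θ) w₁ w₂ D‖ ≤ T := by
  rcases lt_or_ge (T ^ (1 / 10 : ℝ)) D with hD | hD
  · rw [CB_supp θ T hθ0 hθ1 hT w₁ w₂ D hD, norm_zero]
    linarith
  have hz : 1 < T ^ θ := Real.one_lt_rpow hT hθ0
  have hL : 0 < Real.log T := Real.log_pos hT
  have hKL : 0 ≤ K / Real.log T := by positivity
  rcases Nat.eq_zero_or_pos D with h0 | h0
  · subst h0
    unfold aa
    simp
    linarith
  have hD1 : (1 : ℝ) ≤ D := by exact_mod_cast h0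
  have hterm : ∀ d ∈ D.divisorsAntidiagonal, ‖(lam (T ^ θ) d.1 : ℂ) * (d.1 : ℂ) ^ (-w₁) *
      ((lam (T ^ θ) d.2 : ℂ) * (d.2 : ℂ) ^ (-w₂))‖ ≤ (D : ℝ) ^ (K / Real.log T) := by
    intro d hd
    rw [Nat.mem_divisorsAntidiagonal] at hd
    have h1 : 1 ≤ d.1 := by
      rcases Nat.eq_zero_or_pos d.1 with h | h
      · rw [h, zero_mul] at hd; omega
      · exact h
    have h2 : 1 ≤ d.2 := by
      rcases Nat.eq_zero_or_pos d.2 with h | h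
      · rw [h, mul_zero] at hd; omega
      · exact h
    have h3 := CB_cpow _ _ hKL w₁ hw₁ d.1 h1
    have h4 := CB_cpow _ _ hKL w₂ hw₂ d.2 h2
    have h5 : ‖(lam (T ^ θ) d.1 : ℂ)‖ ≤ 1 := by
      rw [Complex.norm_real]; exact abs_lam_le _ hz _
    have h6 : ‖(lam (T ^ θ) d.2 : ℂ)‖ ≤ 1 := by
      rw [Complex.norm_real]; exact abs_lam_le _ hz _
    rw [norm_mul, norm_mul, norm_mul]
    calc ‖(lam (T ^ θ) d.1 : ℂ)‖ * ‖(d.1 : ℂ) ^ (-w₁)‖ * (‖(lam (T ^ θ) d.2 : ℂ)‖ * ‖(d.2 : ℂ) ^ (-w₂)‖)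
        ≤ 1 * (d.1 : ℝ) ^ (K / Real.log T) * (1 * (d.2 : ℝ) ^ (K / Real.log T)) := by gcongr
      _ = ((d.1 : ℝ) * d.2) ^ (K / Real.log T) := by
          rw [Real.mul_rpow (Nat.cast_nonneg _) (Nat.cast_nonneg _)]; ring
      _ = (D : ℝ) ^ (K / Real.log T) := by
          congr 1
          exact_mod_cast hd.1
  have hcard : (D.divisorsAntidiagonal.card : ℝ) ≤ D := by
    have : D.divisorsAntidiagonal.card = D.divisors.card := by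
      rw [← Nat.map_div_right_divisors, Finset.card_map]
    rw [this]
    exact_mod_cast Nat.card_divisors_le_self D
  have hT0 : 0 < T := by linarith
  have hpow : (D : ℝ) ^ (K / Real.log T) ≤ Real.exp (K / 10) := by
    calc (D : ℝ) ^ (K / Real.log T) ≤ (T ^ (1 / 10 : ℝ)) ^ (K / Real.log T) := by gcongr
      _ = Real.exp (K / 10) := by
          rw [← Real.rpow_mul hT0.le, Real.rpow_def_of_pos hT0]
          congr 1
          field_simp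
  calc ‖aa (T ^ θ) w₁ w₂ D‖ ≤ ∑ d ∈ D.divisorsAntidiagonal, (D : ℝ) ^ (K / Real.log T) :=
        (norm_sum_le _ _).trans (Finset.sum_le_sum hterm)
    _ = (D.divisorsAntidiagonal.card : ℝ) * (D : ℝ) ^ (K / Real.log T) := by
        rw [Finset.sum_const, nsmul_eq_mul]
    _ ≤ T ^ (1 / 10 : ℝ) * Real.exp (K / 10) := by
        have := hcard.trans hD
        gcongr
    _ ≤ T ^ (1 / 10 : ℝ) * T ^ (9 / 10 : ℝ) := by
        have h1 : Real.exp (K / 10) ≤ Real.exp (K * (9 / 10)) := Real.exp_le_exp.2 (by linarith)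
        have h2 : Real.exp (K * (9 / 10)) = (Real.exp K) ^ (9 / 10 : ℝ) := by rw [Real.exp_mul]
        have h3 : (Real.exp K) ^ (9 / 10 : ℝ) ≤ T ^ (9 / 10 : ℝ) := by gcongr
        rw [h2] at h1
        have h4 := h1.trans h3
        gcongr
    _ = T := by
        rw [← Real.rpow_add hT0]
        norm_num

private theorem CB_DP (θ T : ℝ) (hθ0 : 0 < θ) (hθ1 : θ ≤ 1 / 40) (hT : 1 < T) (w₁ w₂ : ℂ) (t : ℝ) :
    DP T (aa (T ^ θ) w₁ w₂) t = Mo (T ^ θ) (pt w₁ t) * Mo (T ^ θ) (pt w₂ t) := by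
  have hz : 1 < T ^ θ := Real.one_lt_rpow hT hθ0
  have hfl : T ^ (1 / 10 : ℝ) < ((⌊T ^ (1 / 10 : ℝ)⌋₊ + 1 : ℕ) : ℝ) := by
    push_cast
    exact Nat.lt_floor_add_one _
  have h1 := Mo_mul (T ^ θ) hz (1 / 2 + t * I) w₁ w₂ (⌊T ^ (1 / 10 : ℝ)⌋₊ + 1)
    ((CB_pow θ T hθ1 hT).trans hfl.le)
  have h2 : pt w₁ t = 1 / 2 + t * I + w₁ := by unfold pt; ring
  have h3 : pt w₂ t = 1 / 2 + t * I + w₂ := by unfold pt; ring
  rw [h2, h3, h1, Finset.sum_Icc_succ_top (by omega), CB_supp θ T hθ0 hθ1 hT w₁ w₂ _ hfl, zero_mul, add_zero,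
    DP]

private theorem CB_mono {T K Q Q' : ℝ} {a : ℕ → ℂ} (hT : 1 < T) (hQ : Q ≤ Q') (h : DiagHyp T K Q a) :
    DiagHyp T K Q' a := by
  intro z h1 h2 N
  have hL : 0 < Real.log T := Real.log_pos hT
  refine (h z h1 h2 N).trans ?_
  gcongr

/-- PROOF. `AB` for `a = aa (T^θ) w₁ w₂` (`DP T a t = Mo (pt w₁ t) Mo (pt w₂ t)` by `Mo_mul`,
`z₀^4 = T^{4θ} ≤ T^{1/10}`, `‖aa D‖ ≤ τ(D) D^{2K/L}`-type crude bound `≤ T` for `T ≥ T₀(K)`,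
support from `lam_eq_zero`) and `AR`. -/
theorem CB (θ : ℝ) (hθ0 : 0 < θ) (hθ1 : θ ≤ 1 / 40) : ∃ C : ℝ, 0 < C ∧ ∀ K : ℝ, 1 ≤ K →
    ∃ T₀ : ℝ, Real.exp 3200 ≤ T₀ ∧ ∀ T : ℝ, T₀ ≤ T → ∀ τ W : ℝ, T ^ (9 / 10 : ℝ) ≤ W → W ≤ T →
    ∀ w₁ w₂ : ℂ, |w₁.re| ≤ K / Real.log T → |w₂.re| ≤ K / Real.log T →
    Integrable (fun t : ℝ => ‖riemannZeta (pt (K / Real.log T : ℝ) t) *
      (Mo (T ^ θ) (pt w₁ t) * Mo (T ^ θ) (pt w₂ t))‖ ^ 2 * gw τ W t) ∧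
    ∫ t : ℝ, ‖riemannZeta (pt (K / Real.log T : ℝ) t) *
      (Mo (T ^ θ) (pt w₁ t) * Mo (T ^ θ) (pt w₂ t))‖ ^ 2 * gw τ W t
      ≤ C * Real.exp (C * K) * W * Real.log T * ((1 + Real.log T * ‖w₁‖) ^ 4 *
        (1 + Real.log T * ‖w₂‖) ^ 4) * (1 + |τ| / T) ^ 300 := by
  obtain ⟨C₁, hC₁, hAB⟩ := AB
  obtain ⟨C₂, hC₂, T₂, hT₂, hAR⟩ := AR θ hθ0 hθ1
  set C₃ := max C₂ 1 with hC₃
  have hC₃1 : 1 ≤ C₃ := le_max_right _ _
  have hC₂₃ : C₂ ≤ C₃ := le_max_left _ _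
  refine ⟨C₁ * C₃ + C₁ + C₃, by positivity, fun K hK => ?_⟩
  have h7 : C₁ * K + C₃ * K ≤ (C₁ * C₃ + C₁ + C₃) * K := by
    have h0 : 0 ≤ C₁ * C₃ * K := by positivity
    calc C₁ * K + C₃ * K ≤ C₁ * K + C₃ * K + C₁ * C₃ * K := le_add_of_nonneg_right h0
      _ = (C₁ * C₃ + C₁ + C₃) * K := by ring
  obtain ⟨T₁, hT₁, hAB⟩ := hAB K hK
  refine ⟨max T₁ (max T₂ (Real.exp K)), hT₁.trans (le_max_left _ _), fun T hT τ W hW1 hW2 w₁ w₂ hw₁ hw₂ => ?_⟩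
  have hTT₁ : T₁ ≤ T := (le_max_left _ _).trans hT
  have hTT₂ : T₂ ≤ T := ((le_max_left _ _).trans (le_max_right _ _)).trans hT
  have hTK : Real.exp K ≤ T := ((le_max_right _ _).trans (le_max_right _ _)).trans hT
  have hT1 : 1 < T := lt_of_lt_of_le hT₂ hTT₂
  have hT0 : 0 < T := by linarith
  have hL3200 : 3200 ≤ Real.log T := by
    rw [Real.le_log_iff_exp_le hT0]
    exact hT₁.trans hTT₁
  have hL0 : 0 < Real.log T := by linarith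
  have hW0 : 0 < W := lt_of_lt_of_le (by positivity) hW1
  set Q := C₃ * Real.exp (C₃ * K) * Real.log T * (1 + Real.log T * ‖w₁‖) ^ 4 *
      (1 + Real.log T * ‖w₂‖) ^ 4 with hQ
  have h1 : DiagHyp T K Q (aa (T ^ θ) w₁ w₂) := by
    refine CB_mono hT1 ?_ (hAR T hTT₂ K hK w₁ w₂ hw₁ hw₂)
    rw [hQ]
    have : C₂ * K ≤ C₃ * K := by gcongr
    have := Real.exp_le_exp.2 this
    gcongr
  have hQ1 : 1 ≤ Q := by
    have h2 : 1 ≤ Real.exp (C₃ * K) := Real.one_le_exp (by positivity)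
    have h3 : 1 ≤ (1 + Real.log T * ‖w₁‖) ^ 4 := one_le_pow₀ (by linarith [mul_nonneg hL0.le (norm_nonneg w₁)])
    have h4 : 1 ≤ (1 + Real.log T * ‖w₂‖) ^ 4 := one_le_pow₀ (by linarith [mul_nonneg hL0.le (norm_nonneg w₂)])
    rw [hQ]
    refine one_le_mul_of_one_le_of_one_le (one_le_mul_of_one_le_of_one_le (one_le_mul_of_one_le_of_one_le
      (one_le_mul_of_one_le_of_one_le hC₃1 h2) (by linarith)) h3) h4
  have h5 := hAB T hTT₁ Q hQ1 (aa (T ^ θ) w₁ w₂) (CB_supp θ T hθ0 hθ1 hT1 w₁ w₂)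
    (CB_bound θ T K hθ0 hθ1 hT1 (by linarith) hTK w₁ w₂ hw₁ hw₂) h1 τ W hW1 hW2
  simp only [CB_DP θ T hθ0 hθ1 hT1 w₁ w₂] at h5
  refine ⟨h5.1, h5.2.trans ?_⟩
  have hPτ : (0 : ℝ) ≤ (1 + |τ| / T) ^ 300 := by positivity
  refine mul_le_mul_of_nonneg_right ?_ hPτ
  have h6 : C₁ * Real.exp (C₁ * K) * W * Q = (C₁ * C₃) * (Real.exp (C₁ * K) * Real.exp (C₃ * K)) * W * Real.log T *
      ((1 + Real.log T * ‖w₁‖) ^ 4 * (1 + Real.log T * ‖w₂‖) ^ 4) := by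
    rw [hQ]; ring
  rw [h6, ← Real.exp_add]
  have h8 := Real.exp_le_exp.2 h7
  have h9 : C₁ * C₃ ≤ C₁ * C₃ + C₁ + C₃ := by linarith
  gcongr

end Pool.Agent.H14.CO
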