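import Pool.Agent.H14.CO.CB
import Pool.Agent.H14.CO.Chi

/-!
# CO module CBL: mean square of `ζ M M` to the left of the critical line
-/

set_option autoImplicit false

namespace Pool.Agent.H14.CO

open Set MeasureTheory Complex

private theorem CBL_re_pt (w : ℂ) (t : ℝ) : (pt w t).re = 1 / 2 + w.re := by
  unfold pt
  simp

private theorem CBL_im_pt (w : ℂ) (t : ℝ) : (pt w t).im = w.im + t := by
  unfold pt
  simp

private theorem CBL_continuous_pt (w : ℂ) : Continuous (fun t : ℝ => pt w t) := by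
  unfold pt
  fun_prop

private theorem CBL_continuous_Mo_pt (z : ℝ) (w : ℂ) : Continuous (fun t : ℝ => Mo z (pt w t)) :=
  (continuous_Mo z).comp (CBL_continuous_pt w)

private theorem CBL_continuous_zeta (x : ℝ) (hx : |x| ≤ 1 / 4) :
    Continuous (fun t : ℝ => riemannZeta (pt (x : ℂ) t)) := by
  rw [continuous_iff_continuousAt]
  intro t
  have hne : pt (x : ℂ) t ≠ 1 := by
    intro h
    have h1 := congrArg Complex.re h
    rw [CBL_re_pt] at h1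
    simp at h1
    have := abs_le.mp hx
    linarith
  exact ContinuousAt.comp (f := fun t : ℝ => pt (x : ℂ) t) (g := riemannZeta)
    (differentiableAt_riemannZeta hne).continuousAt (CBL_continuous_pt _).continuousAt

private theorem CBL_zeta_small : ∃ C : ℝ, 0 < C ∧ ∀ x t : ℝ, |x| ≤ 1 / 4 → |t| ≤ 1 →
    ‖riemannZeta (pt (x : ℂ) t)‖ ≤ C := by
  have hK : IsCompact ((Icc (-(1 / 4) : ℝ) (1 / 4)) ×ˢ (Icc (-1 : ℝ) 1)) :=
    isCompact_Icc.prod isCompact_Icc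
  have hc : ContinuousOn (fun p : ℝ × ℝ => riemannZeta (pt (p.1 : ℂ) p.2))
      ((Icc (-(1 / 4) : ℝ) (1 / 4)) ×ˢ (Icc (-1 : ℝ) 1)) := by
    intro p hp
    have hp1 := hp.1
    rw [mem_Icc] at hp1
    have hne : pt (p.1 : ℂ) p.2 ≠ 1 := by
      intro h
      have h1 := congrArg Complex.re h
      rw [CBL_re_pt] at h1
      simp at h1
      linarith
    apply ContinuousAt.continuousWithinAt
    have hcont : Continuous (fun p : ℝ × ℝ => pt (p.1 : ℂ) p.2) := by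
      unfold pt
      fun_prop
    exact ContinuousAt.comp (f := fun p : ℝ × ℝ => pt (p.1 : ℂ) p.2) (g := riemannZeta)
      (differentiableAt_riemannZeta hne).continuousAt hcont.continuousAt
  obtain ⟨C, hC⟩ := hK.exists_bound_of_continuousOn hc
  refine ⟨max C 1, lt_max_of_lt_right one_pos, ?_⟩
  intro x t hx ht
  have h := hC (x, t) ⟨by rw [mem_Icc]; exact abs_le.mp hx, by rw [mem_Icc]; exact abs_le.mp ht⟩
  exact h.trans (le_max_left _ _)

private theorem CBL_gauss (r : ℝ) :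
    (1 + r) * Real.exp (-r ^ 2) ≤ 2 * Real.exp (-(r / 2) ^ 2) := by
  have h1 : Real.exp (-(r / 2) ^ 2) = Real.exp (3 / 4 * r ^ 2) * Real.exp (-r ^ 2) := by
    rw [← Real.exp_add]
    congr 1
    ring
  rw [h1, ← mul_assoc]
  apply mul_le_mul_of_nonneg_right _ (Real.exp_pos _).le
  have h2 := Real.add_one_le_exp (3 / 4 * r ^ 2)
  nlinarith [sq_nonneg (r - 1 / 3)]

private theorem CBL_pow (T K t : ℝ) (hT0 : 0 < T) (hL : 0 < Real.log T)
    (hx : 0 < K / Real.log T) (hx2 : 2 * (K / Real.log T) ≤ 1) (ht0 : 0 < |t|) :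
    (|t| ^ (K / Real.log T)) ^ 2 ≤ Real.exp (2 * K) * (1 + |t| / T) := by
  have e1 : (|t| ^ (K / Real.log T)) ^ 2 = |t| ^ (2 * (K / Real.log T)) := by
    rw [← Real.rpow_natCast, ← Real.rpow_mul ht0.le]
    congr 1
    push_cast
    ring
  have e2 : |t| ^ (2 * (K / Real.log T)) ≤ (T * (1 + |t| / T)) ^ (2 * (K / Real.log T)) := by
    apply Real.rpow_le_rpow ht0.le _ (by positivity)
    rw [mul_add, mul_div_cancel₀ _ hT0.ne']
    linarith
  have e3 : T ^ (2 * (K / Real.log T)) = Real.exp (2 * K) := by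
    rw [Real.rpow_def_of_pos hT0]
    congr 1
    field_simp
  have e4 : (1 + |t| / T) ^ (2 * (K / Real.log T)) ≤ 1 + |t| / T := by
    have h1 : 1 ≤ 1 + |t| / T := by
      have : 0 ≤ |t| / T := by positivity
      linarith
    calc (1 + |t| / T) ^ (2 * (K / Real.log T)) ≤ (1 + |t| / T) ^ (1 : ℝ) :=
          Real.rpow_le_rpow_of_exponent_le h1 (by linarith)
      _ = 1 + |t| / T := Real.rpow_one _
  rw [e1]
  refine e2.trans ?_
  rw [Real.mul_rpow hT0.le (by positivity), e3]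
  exact mul_le_mul_of_nonneg_left e4 (Real.exp_pos _).le

private theorem CBL_r (T τ W t : ℝ) (hW0 : 0 < W) (hWT : W ≤ T) :
    1 + |t| / T ≤ (1 + |τ| / T) * (1 + |(t - τ) / W|) := by
  have hT0 : 0 < T := hW0.trans_le hWT
  have h1 : |t| ≤ |τ| + |t - τ| := by
    calc |t| = |τ + (t - τ)| := by ring_nf
      _ ≤ |τ| + |t - τ| := abs_add_le _ _
  have h2 : |(t - τ) / W| = |t - τ| / W := by rw [abs_div, abs_of_pos hW0]
  have h3 : |t - τ| / T ≤ |t - τ| / W :=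
    div_le_div_of_nonneg_left (abs_nonneg _) hW0 hWT
  have h4 : |t| / T ≤ |τ| / T + |t - τ| / T := by
    rw [← add_div]
    exact div_le_div_of_nonneg_right h1 hT0.le
  have h5 : 0 ≤ |t - τ| / W := by positivity
  have h6 : 0 ≤ |τ| / T := by positivity
  rw [h2]
  have h7 := mul_nonneg h6 h5
  have h8 : (1 + |τ| / T) * (1 + |t - τ| / W) =
      1 + |τ| / T + |t - τ| / W + |τ| / T * (|t - τ| / W) := by ring
  rw [h8]
  linarith

private theorem CBL_g (τ W t : ℝ) :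
    (1 + |(t - τ) / W|) * gw τ W t ≤ 2 * gw τ (2 * W) t := by
  have h := CBL_gauss |(t - τ) / W|
  unfold gw
  have e1 : -((t - τ) / W) ^ 2 = -|(t - τ) / W| ^ 2 := by rw [sq_abs]
  have e2 : -((t - τ) / (2 * W)) ^ 2 = -(|(t - τ) / W| / 2) ^ 2 := by
    rw [div_pow |(t - τ) / W|, sq_abs]
    ring
  rw [e1, e2]
  exact h

private theorem CBL_alg1 (C₁ C₂ K W L P Q : ℝ) :
    (2 * C₂ ^ 2 * Real.exp (2 * K) * Q) * (C₁ * Real.exp (C₁ * K) * (2 * W) * L * P * Q ^ 300) =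
      (4 * C₂ ^ 2 * C₁) * (Real.exp ((2 + C₁) * K) * (W * L * P * Q ^ 301)) := by
  rw [add_mul, Real.exp_add, pow_succ Q 300]
  generalize Q ^ 300 = R
  ring

private theorem CBL_alg2 {X Y a b C E E' W L P R : ℝ} (h1 : X ≤ a * (E * (W * L * P * R)))
    (h2 : Y ≤ b * (E * (W * L * P * R))) (h3 : a + b ≤ C) (hC : 0 ≤ C) (h4 : E ≤ E')
    (hE : 0 ≤ E) (h5 : 0 ≤ W * L * P * R) : X + Y ≤ C * E' * W * L * P * R := by
  calc X + Y ≤ (a + b) * (E * (W * L * P * R)) := by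
        rw [add_mul]
        exact add_le_add h1 h2
    _ ≤ C * (E' * (W * L * P * R)) := by
        apply mul_le_mul h3 _ (by positivity) hC
        exact mul_le_mul_of_nonneg_right h4 h5
    _ = _ := by ring

private theorem CBL_alg3 {C₃ E W L P R : ℝ} (hW : 0 ≤ W) (hL : 1 ≤ L) (hP : 1 ≤ P) (hR : 1 ≤ R)
    (hE : 1 ≤ E) : 2 * (C₃ ^ 2 * W) ≤ (2 * C₃ ^ 2) * (E * (W * L * P * R)) := by
  have h1 : 1 ≤ E * (L * P * R) := one_le_mul_of_one_le_of_one_le hE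
    (one_le_mul_of_one_le_of_one_le (one_le_mul_of_one_le_of_one_le hL hP) hR)
  have h2 : 0 ≤ 2 * (C₃ ^ 2 * W) := by positivity
  calc 2 * (C₃ ^ 2 * W) = 2 * (C₃ ^ 2 * W) * 1 := (mul_one _).symm
    _ ≤ 2 * (C₃ ^ 2 * W) * (E * (L * P * R)) := mul_le_mul_of_nonneg_left h1 h2
    _ = _ := by ring

private theorem CBL_small_aux {f g C P W : ℝ} (hf : 0 ≤ f) (h5 : f ≤ C * P)
    (hg : g ≤ 1) (h6 : P ^ 2 ≤ W) : f ^ 2 * g ≤ C ^ 2 * W := by
  calc f ^ 2 * g ≤ f ^ 2 * 1 := mul_le_mul_of_nonneg_left hg (sq_nonneg _)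
    _ = f ^ 2 := mul_one _
    _ ≤ (C * P) ^ 2 := pow_le_pow_left₀ hf h5 2
    _ = C ^ 2 * P ^ 2 := by ring
    _ ≤ C ^ 2 * W := mul_le_mul_of_nonneg_left h6 (sq_nonneg _)

private theorem CBL_big_aux {C a z m u r g g' Q E : ℝ} (ha : 0 ≤ a)
    (hg0 : 0 ≤ g) (hQ : 0 ≤ Q) (hE : 0 ≤ E)
    (h1 : a ≤ C * u * z) {v : ℝ} (h2 : u ^ 2 ≤ E * v) (h3 : v ≤ Q * r)
    (h4 : r * g ≤ 2 * g') : (a * m) ^ 2 * g ≤ (2 * C ^ 2 * E * Q) * ((z * m) ^ 2 * g') := by
  calc (a * m) ^ 2 * g = a ^ 2 * (m ^ 2 * g) := by ring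
    _ ≤ (C * u * z) ^ 2 * (m ^ 2 * g) :=
        mul_le_mul_of_nonneg_right (pow_le_pow_left₀ ha h1 2) (by positivity)
    _ = (C ^ 2 * z ^ 2 * m ^ 2 * g) * u ^ 2 := by ring
    _ ≤ (C ^ 2 * z ^ 2 * m ^ 2 * g) * (E * (Q * r)) := by
        apply mul_le_mul_of_nonneg_left _ (by positivity)
        exact h2.trans (mul_le_mul_of_nonneg_left h3 hE)
    _ = (C ^ 2 * z ^ 2 * m ^ 2 * E * Q) * (r * g) := by ring
    _ ≤ (C ^ 2 * z ^ 2 * m ^ 2 * E * Q) * (2 * g') :=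
        mul_le_mul_of_nonneg_left h4 (by positivity)
    _ = _ := by ring

/-- Left line: PROOF. Substitute `t' = t + Im w₀`-type shifts; here the statement is for
`w₀ = -K/L` (real): `chi_bound` with `x = K/L ≤ 1/4`: for `|t| ≥ 1`,
`‖ζ(pt (-K/L) t)‖² ≤ C |t|^{2K/L} ‖ζ(pt (K/L) t)‖²`, `|t|^{2K/L} ≤ e^{2K} (1+|t|/T)` if `2K ≤ L`,
`(1+|t|/T) ≤ (1+|τ|/T)(1+|t-τ|/W)` and `(1+r) e^{-r²} ≤ 2 e^{-r²/4}`, i.e.
`(1+|t-τ|/W) gw τ W t ≤ 2 gw τ (2W) t`; then `CB` with width `2W ≤ T`. For `|t| ≤ 1`: `‖ζ‖ ≤ C`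
near `1/2` (compactness), `‖Mo‖ ≤ 2 z₀^{2}`-crude: `≤ C T^{8θ} ≤ W` as `8θ ≤ 1/5`. -/
theorem CB_left (θ : ℝ) (hθ0 : 0 < θ) (hθ1 : θ ≤ 1 / 40) : ∃ C : ℝ, 0 < C ∧ ∀ K : ℝ, 1 ≤ K →
    ∃ T₀ : ℝ, Real.exp 3200 ≤ T₀ ∧ ∀ T : ℝ, T₀ ≤ T → ∀ τ W : ℝ, T ^ (9 / 10 : ℝ) ≤ W → W ≤ T / 2 →
    ∀ w₁ w₂ : ℂ, |w₁.re| ≤ K / Real.log T → |w₂.re| ≤ K / Real.log T →
    Integrable (fun t : ℝ => ‖riemannZeta (pt (-(K / Real.log T) : ℝ) t) *
      (Mo (T ^ θ) (pt w₁ t) * Mo (T ^ θ) (pt w₂ t))‖ ^ 2 * gw τ W t) ∧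
    ∫ t : ℝ, ‖riemannZeta (pt (-(K / Real.log T) : ℝ) t) *
      (Mo (T ^ θ) (pt w₁ t) * Mo (T ^ θ) (pt w₂ t))‖ ^ 2 * gw τ W t
      ≤ C * Real.exp (C * K) * W * Real.log T * ((1 + Real.log T * ‖w₁‖) ^ 4 *
        (1 + Real.log T * ‖w₂‖) ^ 4) * (1 + |τ| / T) ^ 301 := by
  obtain ⟨C₁, hC₁, hCB⟩ := CB θ hθ0 hθ1
  obtain ⟨C₂, hC₂, hchi⟩ := chi_bound
  obtain ⟨C₃, hC₃, hsm⟩ := CBL_zeta_small
  refine ⟨4 * C₂ ^ 2 * C₁ + 2 * C₃ ^ 2 + 2 + C₁, by positivity, ?_⟩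
  intro K hK
  obtain ⟨T₁, hT₁, hT⟩ := hCB K hK
  refine ⟨max T₁ (Real.exp (4 * K)), le_max_of_le_left hT₁, ?_⟩
  intro T hTT τ W hW1 hW2 w₁ w₂ hw₁ hw₂
  have hTT₁ : T₁ ≤ T := (le_max_left _ _).trans hTT
  have hTK : Real.exp (4 * K) ≤ T := (le_max_right _ _).trans hTT
  have hT0 : 0 < T := (Real.exp_pos _).trans_le hTK
  have hL : 4 * K ≤ Real.log T := (Real.le_log_iff_exp_le hT0).mpr hTK
  have hL4 : 4 ≤ Real.log T := by linarith
  have hT1 : 1 ≤ T := by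
    have h := Real.add_one_le_exp (4 * K)
    linarith
  set L := Real.log T with hLdef
  set x := K / L with hxdef
  have hLpos : 0 < L := by linarith
  have hxpos : 0 < x := by positivity
  have hx4 : x ≤ 1 / 4 := by
    rw [hxdef, div_le_div_iff₀ hLpos (by norm_num)]
    linarith
  have hxabs : |x| ≤ 1 / 4 := by rwa [abs_of_pos hxpos]
  have hW0 : 0 < W := (Real.rpow_pos_of_pos hT0 _).trans_le hW1
  have hW1' : T ^ (9 / 10 : ℝ) ≤ 2 * W := by linarith [Real.rpow_pos_of_pos hT0 (9 / 10 : ℝ)]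
  have hW2' : 2 * W ≤ T := by linarith
  set FR : ℝ → ℝ := fun t => ‖riemannZeta (pt (x : ℂ) t) *
      (Mo (T ^ θ) (pt w₁ t) * Mo (T ^ θ) (pt w₂ t))‖ ^ 2 * gw τ (2 * W) t with hFR
  set FL : ℝ → ℝ := fun t => ‖riemannZeta (pt (-x : ℝ) t) *
      (Mo (T ^ θ) (pt w₁ t) * Mo (T ^ θ) (pt w₂ t))‖ ^ 2 * gw τ W t with hFL
  set Q : ℝ := 1 + |τ| / T with hQ
  have hQ1 : 1 ≤ Q := by
    have : 0 ≤ |τ| / T := by positivity
    linarith
  set A : ℝ := 2 * C₂ ^ 2 * Real.exp (2 * K) * Q with hA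
  have hA0 : 0 ≤ A := by positivity
  -- crude bound of the mollifiers
  have hz1 : 1 < T ^ θ := by
    apply Real.one_lt_rpow _ hθ0
    have := Real.add_one_le_exp (4 * K)
    linarith
  have hMo : ∀ w : ℂ, |w.re| ≤ x → ∀ t : ℝ, ‖Mo (T ^ θ) (pt w t)‖ ≤ T ^ (4 * θ) := by
    intro w hw t
    refine (norm_Mo_le _ hz1 _).trans ?_
    rw [← Real.rpow_mul hT0.le]
    apply Real.rpow_le_rpow_of_exponent_le hT1
    have h1 : |(pt w t).re| ≤ 1 := by
      rw [CBL_re_pt]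
      have := abs_le.mp hw
      rw [abs_le]
      constructor <;> linarith
    calc θ * (2 + 2 * |(pt w t).re|) ≤ θ * 4 := mul_le_mul_of_nonneg_left (by linarith) hθ0.le
      _ = 4 * θ := by ring
  set B : ℝ := C₃ ^ 2 * W with hB
  have hB0 : 0 ≤ B := by positivity
  have hsmall : ∀ t : ℝ, |t| ≤ 1 → FL t ≤ B := by
    intro t ht
    have h1 : ‖riemannZeta (pt (-x : ℝ) t)‖ ≤ C₃ := hsm (-x) t (by rwa [abs_neg]) ht
    have h2 := hMo w₁ hw₁ t
    have h3 := hMo w₂ hw₂ t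
    have h4 : gw τ W t ≤ 1 := by
      unfold gw
      rw [Real.exp_le_one_iff]
      have := sq_nonneg ((t - τ) / W)
      linarith
    have h5 : ‖riemannZeta (pt (-x : ℝ) t) * (Mo (T ^ θ) (pt w₁ t) * Mo (T ^ θ) (pt w₂ t))‖ ≤
        C₃ * (T ^ (4 * θ) * T ^ (4 * θ)) := by
      rw [norm_mul, norm_mul]
      apply mul_le_mul h1 _ (by positivity) hC₃.le
      exact mul_le_mul h2 h3 (norm_nonneg _) (by positivity)
    have h6 : (T ^ (4 * θ) * T ^ (4 * θ)) ^ 2 ≤ W := by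
      rw [← Real.rpow_add hT0, ← Real.rpow_natCast, ← Real.rpow_mul hT0.le]
      refine le_trans ?_ hW1
      apply Real.rpow_le_rpow_of_exponent_le hT1
      push_cast
      linarith
    exact CBL_small_aux (norm_nonneg _) h5 h4 h6
  have hbig : ∀ t : ℝ, 1 ≤ |t| → FL t ≤ A * FR t := by
    intro t ht
    have hζ : ‖riemannZeta (pt (-x : ℝ) t)‖ ≤ C₂ * |t| ^ x * ‖riemannZeta (pt (x : ℂ) t)‖ := by
      have h := hchi x t hxabs ht
      have e1 : (1 / 2 - (x : ℂ) + t * I) = pt (-x : ℝ) t := by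
        unfold pt
        push_cast
        ring
      have e2 : (1 / 2 + (x : ℂ) + t * I) = pt (x : ℂ) t := by
        unfold pt
        ring
      rw [e1, e2] at h
      exact h
    have ht0 : 0 < |t| := by linarith
    have hpow : (|t| ^ x) ^ 2 ≤ Real.exp (2 * K) * (1 + |t| / T) :=
      CBL_pow T K t hT0 hLpos hxpos (by linarith) ht0
    have hr : 1 + |t| / T ≤ Q * (1 + |(t - τ) / W|) := CBL_r T τ W t hW0 (by linarith)
    have hg : (1 + |(t - τ) / W|) * gw τ W t ≤ 2 * gw τ (2 * W) t := CBL_g τ W t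
    set m : ℝ := ‖Mo (T ^ θ) (pt w₁ t) * Mo (T ^ θ) (pt w₂ t)‖ with hm
    set z : ℝ := ‖riemannZeta (pt (x : ℂ) t)‖ with hz
    have hgw0 : 0 ≤ gw τ W t := (Real.exp_pos _).le
    have hfl : FL t = (‖riemannZeta (pt (-x : ℝ) t)‖ * m) ^ 2 * gw τ W t := by
      rw [← norm_mul]
    have hfr : FR t = (z * m) ^ 2 * gw τ (2 * W) t := by
      rw [← norm_mul]
    rw [hfl, hfr]
    exact CBL_big_aux (norm_nonneg _) hgw0 (zero_le_one.trans hQ1) (Real.exp_pos _).le hζ hpow hr hg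
  set G : ℝ → ℝ := fun t => A * FR t + (Icc (-1 : ℝ) 1).indicator (fun _ => B) t with hG
  have hFR0 : ∀ t, 0 ≤ FR t := fun t => mul_nonneg (sq_nonneg _) (Real.exp_pos _).le
  have hFL0 : ∀ t, 0 ≤ FL t := fun t => mul_nonneg (sq_nonneg _) (Real.exp_pos _).le
  have hFG : ∀ t, FL t ≤ G t := by
    intro t
    rw [hG]
    simp only []
    by_cases ht : |t| ≤ 1
    · rw [indicator_of_mem (by rw [mem_Icc]; exact abs_le.mp ht)]
      have := hsmall t ht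
      have := mul_nonneg hA0 (hFR0 t)
      linarith
    · have h1 := hbig t (by linarith)
      have h2 : 0 ≤ (Icc (-1 : ℝ) 1).indicator (fun _ => B) t :=
        indicator_nonneg (fun _ _ => hB0) t
      linarith
  have hindint : Integrable ((Icc (-1 : ℝ) 1).indicator (fun _ => B)) := by
    rw [integrable_indicator_iff measurableSet_Icc]
    exact integrableOn_const (by simp)
  set P : ℝ := (1 + L * ‖w₁‖) ^ 4 * (1 + L * ‖w₂‖) ^ 4 with hP
  have hP1 : 1 ≤ P := by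
    have h1 : 1 ≤ 1 + L * ‖w₁‖ := by
      have : 0 ≤ L * ‖w₁‖ := by positivity
      linarith
    have h2 : 1 ≤ 1 + L * ‖w₂‖ := by
      have : 0 ≤ L * ‖w₂‖ := by positivity
      linarith
    exact one_le_mul_of_one_le_of_one_le (one_le_pow₀ h1) (one_le_pow₀ h2)
  have hE : Real.exp ((2 + C₁) * K) ≤
      Real.exp ((4 * C₂ ^ 2 * C₁ + 2 * C₃ ^ 2 + 2 + C₁) * K) := by
    apply Real.exp_le_exp.mpr
    apply mul_le_mul_of_nonneg_right _ (by linarith)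
    have : 0 ≤ 4 * C₂ ^ 2 * C₁ := by positivity
    have : 0 ≤ 2 * C₃ ^ 2 := by positivity
    linarith
  have hE1 : 1 ≤ Real.exp ((2 + C₁) * K) := by
    apply Real.one_le_exp
    positivity
  have hfac : (4 * C₂ ^ 2 * C₁) + (2 * C₃ ^ 2) ≤ 4 * C₂ ^ 2 * C₁ + 2 * C₃ ^ 2 + 2 + C₁ := by
    linarith
  have hQ301 : 1 ≤ Q ^ 301 := one_le_pow₀ hQ1
  have hR2 : 2 * B ≤ (2 * C₃ ^ 2) * (Real.exp ((2 + C₁) * K) * (W * L * P * Q ^ 301)) :=
    CBL_alg3 hW0.le (by linarith only [hL4]) hP1 hQ301 hE1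
  have hpos : 0 ≤ W * L * P * Q ^ 301 :=
    mul_nonneg (mul_nonneg (mul_nonneg hW0.le hLpos.le) (zero_le_one.trans hP1))
      (zero_le_one.trans hQ301)
  have hTgt := hT T hTT₁ τ (2 * W) hW1' hW2' w₁ w₂ hw₁ hw₂
  clear hT
  have hint : Integrable FR := hTgt.1
  have hGint : Integrable G := (hint.const_mul A).add hindint
  have hcont : Continuous FL := by
    rw [hFL]
    have h1 := CBL_continuous_zeta (-x) (by rwa [abs_neg])
    have h2 := CBL_continuous_Mo_pt (T ^ θ) w₁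
    have h3 := CBL_continuous_Mo_pt (T ^ θ) w₂
    have h4 : Continuous (fun t => gw τ W t) := by
      unfold gw
      fun_prop
    exact ((h1.mul (h2.mul h3)).norm.pow 2).mul h4
  have hFLint : Integrable FL := by
    apply hGint.mono' hcont.aestronglyMeasurable
    filter_upwards with t
    rw [Real.norm_of_nonneg (hFL0 t)]
    exact hFG t
  refine ⟨hFLint, ?_⟩
  have hI : ∫ t, FL t ≤ A * (∫ t, FR t) + 2 * B := by
    calc ∫ t, FL t ≤ ∫ t, G t := integral_mono hFLint hGint hFG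
      _ = A * (∫ t, FR t) + 2 * B := by
        rw [hG, integral_add (hint.const_mul A) hindint, integral_const_mul,
          integral_indicator measurableSet_Icc, setIntegral_const]
        simp
        norm_num
  refine hI.trans ?_
  have hbd : ∫ t, FR t ≤ C₁ * Real.exp (C₁ * K) * (2 * W) * L * P * Q ^ 300 := hTgt.2
  clear hTgt
  have hR1 : A * (∫ t, FR t) ≤ (4 * C₂ ^ 2 * C₁) * (Real.exp ((2 + C₁) * K) * (W * L * P * Q ^ 301)) :=
    (mul_le_mul_of_nonneg_left hbd hA0).trans (le_of_eq (CBL_alg1 C₁ C₂ K W L P Q))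
  exact CBL_alg2 hR1 hR2 hfac (by positivity) hE (by positivity) hpos

end Pool.Agent.H14.CO
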