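import Pool.Agent.H14.CO.LamB

/-!
# CO module CloseFar: `ζ M` on the line `Re s = 2`
-/

set_option autoImplicit false

namespace Pool.Agent.H14.CO

open Set MeasureTheory Complex

private theorem CloseFar_card (k : ℕ) : k.divisors.card ≤ 2 * Nat.sqrt k := by
  have hsub : k.divisors ⊆ (Finset.Icc 1 (Nat.sqrt k)) ∪
      (Finset.Icc 1 (Nat.sqrt k)).image (fun e => k / e) := by
    intro d hd
    rw [Nat.mem_divisors] at hd
    obtain ⟨⟨e, he⟩, hk⟩ := hd
    have hd0 : 0 < d := by
      rcases Nat.eq_zero_or_pos d with h | h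
      · exfalso
        apply hk
        rw [he, h, zero_mul]
      · exact h
    have he0 : 0 < e := by
      rcases Nat.eq_zero_or_pos e with h | h
      · exfalso
        apply hk
        rw [he, h, mul_zero]
      · exact h
    rw [Finset.mem_union]
    by_cases h : d ≤ Nat.sqrt k
    · left
      rw [Finset.mem_Icc]
      exact ⟨hd0, h⟩
    · right
      rw [Finset.mem_image]
      refine ⟨e, ?_, ?_⟩
      · rw [Finset.mem_Icc]
        refine ⟨he0, ?_⟩
        by_contra h2
        have h3 : (Nat.sqrt k + 1) * (Nat.sqrt k + 1) ≤ d * e :=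
          Nat.mul_le_mul (by omega) (by omega)
        have h4 := Nat.lt_succ_sqrt k
        rw [← he] at h3
        exact absurd (lt_of_lt_of_le h4 h3) (lt_irrefl _)
      · rw [he]
        exact Nat.mul_div_cancel _ he0
  calc k.divisors.card ≤ _ := Finset.card_le_card hsub
    _ ≤ (Finset.Icc 1 (Nat.sqrt k)).card + ((Finset.Icc 1 (Nat.sqrt k)).image (fun e => k / e)).card :=
        Finset.card_union_le _ _
    _ ≤ (Finset.Icc 1 (Nat.sqrt k)).card + (Finset.Icc 1 (Nat.sqrt k)).card :=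
        Nat.add_le_add_left Finset.card_image_le _
    _ = 2 * Nat.sqrt k := by
        rw [Nat.card_Icc]
        omega

/-- coefficients of `ζ M` -/
private noncomputable def CloseFar_a (z₀ : ℝ) (k : ℕ) : ℝ := ∑ d ∈ k.divisors, lam z₀ d

private theorem CloseFar_abs (z₀ : ℝ) (hz : 1 < z₀) (k : ℕ) :
    |CloseFar_a z₀ k| ≤ 2 * Real.sqrt k := by
  unfold CloseFar_a
  calc |∑ d ∈ k.divisors, lam z₀ d| ≤ ∑ d ∈ k.divisors, |lam z₀ d| :=
        Finset.abs_sum_le_sum_abs _ _
    _ ≤ ∑ _d ∈ k.divisors, (1 : ℝ) := Finset.sum_le_sum fun d _ => abs_lam_le z₀ hz d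
    _ = (k.divisors.card : ℝ) := by simp
    _ ≤ ((2 * Nat.sqrt k : ℕ) : ℝ) := by exact_mod_cast CloseFar_card k
    _ ≤ 2 * Real.sqrt k := by
        push_cast
        have := Real.nat_sqrt_le_real_sqrt (a := k)
        linarith

private theorem CloseFar_a_eq (z₀ : ℝ) (hz : 1 < z₀) (k : ℕ) (hk : (k : ℝ) ≤ z₀) :
    CloseFar_a z₀ k = if k = 1 then 1 else 0 := by
  unfold CloseFar_a
  have h1 : ∀ d ∈ k.divisors, lam z₀ d = ((ArithmeticFunction.moebius d : ℤ) : ℝ) := by
    intro d hd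
    apply lam_small z₀ hz
    have h2 : d ≤ k := Nat.divisor_le hd
    have h3 : (d : ℝ) ≤ k := by exact_mod_cast h2
    linarith
  rw [Finset.sum_congr rfl h1]
  have h4 : ∑ d ∈ k.divisors, (ArithmeticFunction.moebius d : ℤ) = if k = 1 then 1 else 0 := by
    rw [← ArithmeticFunction.coe_mul_zeta_apply, ArithmeticFunction.moebius_mul_coe_zeta,
      ArithmeticFunction.one_apply]
  have h5 : ((∑ d ∈ k.divisors, (ArithmeticFunction.moebius d : ℤ) : ℤ) : ℝ) =
      ∑ d ∈ k.divisors, ((ArithmeticFunction.moebius d : ℤ) : ℝ) := by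
    push_cast
    rfl
  rw [← h5, h4]
  split_ifs <;> simp

private theorem CloseFar_hasSum (z₀ : ℝ) (hz : 1 < z₀) (s : ℂ) (hs : s.re = 2) :
    HasSum (fun k : ℕ => if k = 0 then (0 : ℂ) else (CloseFar_a z₀ k : ℂ) / (k : ℂ) ^ s)
      (riemannZeta s * Mo z₀ s) := by
  have hs1 : 1 < s.re := by rw [hs]; norm_num
  set f : ℕ → ℂ := fun n => (lam z₀ n : ℂ) with hf
  have hzero : ∀ n ∉ Finset.Icc 1 ⌊z₀ ^ 2⌋₊, LSeries.term f s n = 0 := by
    intro n hn
    rcases Nat.eq_zero_or_pos n with h | h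
    · rw [h, LSeries.term_zero]
    · rw [LSeries.term_of_ne_zero (by omega)]
      have h1 : ⌊z₀ ^ 2⌋₊ < n := by
        by_contra h2
        apply hn
        rw [Finset.mem_Icc]
        omega
      have h2 : z₀ ^ 2 < n := (Nat.floor_lt (by positivity)).mp h1
      rw [hf]
      simp only []
      rw [lam_eq_zero z₀ hz n h2.le]
      simp
  have hfs : LSeriesSummable f s := summable_of_ne_finset_zero hzero
  have hMo : LSeries f s = Mo z₀ s := by
    unfold LSeries Mo
    rw [tsum_eq_sum hzero]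
    apply Finset.sum_congr rfl
    intro n hn
    rw [Finset.mem_Icc] at hn
    rw [LSeries.term_of_ne_zero (by omega), cpow_neg, div_eq_mul_inv]
  have h1s : LSeriesSummable 1 s := LSeriesSummable_one_iff.mpr hs1
  have hconv := LSeriesHasSum.convolution hfs.LSeriesHasSum h1s.LSeriesHasSum
  rw [hMo, LSeries_one_eq_riemannZeta hs1, mul_comm] at hconv
  have hfun : (fun k : ℕ => if k = 0 then (0 : ℂ) else (CloseFar_a z₀ k : ℂ) / (k : ℂ) ^ s) =
      LSeries.term (LSeries.convolution f 1) s := by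
    funext k
    by_cases hk : k = 0
    · rw [if_pos hk, hk, LSeries.term_zero]
    · rw [if_neg hk, LSeries.term_of_ne_zero hk, LSeries.convolution_def]
      simp only [Pi.one_apply, mul_one]
      have hsum : ∑ p ∈ k.divisorsAntidiagonal, f p.1 = ∑ d ∈ k.divisors, f d := by
        rw [Nat.sum_divisorsAntidiagonal (fun d _ => f d)]
      rw [hsum]
      unfold CloseFar_a
      push_cast
      rfl
  rw [hfun]
  exact hconv

private theorem CloseFar_step (n : ℕ) (hn : 1 ≤ n) :
    1 / Real.sqrt (n + 1) ^ 3 ≤ 2 * (1 / Real.sqrt n - 1 / Real.sqrt (n + 1)) := by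
  have hn0 : (0 : ℝ) < n := by exact_mod_cast hn
  set a := Real.sqrt n with ha
  set b := Real.sqrt (n + 1) with hb
  have ha0 : 0 < a := Real.sqrt_pos.mpr hn0
  have hb0 : 0 < b := Real.sqrt_pos.mpr (by positivity)
  have hab : a ≤ b := Real.sqrt_le_sqrt (by linarith)
  have ha2 : a ^ 2 = n := Real.sq_sqrt hn0.le
  have hb2 : b ^ 2 = n + 1 := Real.sq_sqrt (by positivity)
  have h1 : (b - a) * (b + a) = 1 := by
    have : (b - a) * (b + a) = b ^ 2 - a ^ 2 := by ring
    rw [this, ha2, hb2]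
    ring
  have h2 : 1 / a - 1 / b = 1 / (a * b * (b + a)) := by
    rw [div_sub_div _ _ ha0.ne' hb0.ne', div_eq_div_iff (by positivity) (by positivity)]
    calc (1 * b - a * 1) * (a * b * (b + a)) = ((b - a) * (b + a)) * (a * b) := by ring
      _ = 1 * (a * b) := by rw [h1]
  rw [h2, mul_one_div, div_le_div_iff₀ (by positivity) (by positivity)]
  have h3 : a * b * (b + a) ≤ b * b * (b + b) := by
    apply mul_le_mul _ (by linarith) (by positivity) (by positivity)
    exact mul_le_mul_of_nonneg_right hab hb0.le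
  calc 1 * (a * b * (b + a)) = a * b * (b + a) := one_mul _
    _ ≤ b * b * (b + b) := h3
    _ = 2 * b ^ 3 := by ring

private noncomputable def CloseFar_g (N k : ℕ) : ℝ :=
  if N < k then 4 * (1 / Real.sqrt ((k - 1 : ℕ) : ℝ) - 1 / Real.sqrt k) else 0

private theorem CloseFar_g_nonneg (N k : ℕ) (hN : 1 ≤ N) : 0 ≤ CloseFar_g N k := by
  unfold CloseFar_g
  split_ifs with h
  · have h1 : (0 : ℝ) < ((k - 1 : ℕ) : ℝ) := by
      have : 0 < k - 1 := by omega
      exact_mod_cast this
    have h2 : ((k - 1 : ℕ) : ℝ) ≤ k := by exact_mod_cast Nat.sub_le k 1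
    have h3 : 1 / Real.sqrt k ≤ 1 / Real.sqrt ((k - 1 : ℕ) : ℝ) :=
      one_div_le_one_div_of_le (Real.sqrt_pos.mpr h1) (Real.sqrt_le_sqrt h2)
    linarith
  · exact le_refl _

private theorem CloseFar_g_hasSum (N : ℕ) (hN : 1 ≤ N) :
    HasSum (CloseFar_g N) (4 / Real.sqrt N) := by
  rw [hasSum_iff_tendsto_nat_of_nonneg (fun k => CloseFar_g_nonneg N k hN)]
  rw [← Filter.tendsto_add_atTop_iff_nat (N + 1)]
  have hpart : ∀ n : ℕ, ∑ k ∈ Finset.range (n + (N + 1)), CloseFar_g N k =
      4 / Real.sqrt N - 4 / Real.sqrt ((N + n : ℕ) : ℝ) := by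
    intro n
    induction n with
    | zero =>
      rw [zero_add, add_zero, sub_self]
      apply Finset.sum_eq_zero
      intro k hk
      rw [Finset.mem_range] at hk
      unfold CloseFar_g
      rw [if_neg (by omega)]
    | succ n ih =>
      have e : n + 1 + (N + 1) = (n + (N + 1)) + 1 := by ring
      rw [e, Finset.sum_range_succ, ih]
      unfold CloseFar_g
      rw [if_pos (by omega)]
      have e1 : n + (N + 1) - 1 = N + n := by omega
      have e2 : n + (N + 1) = N + (n + 1) := by omega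
      rw [e1, e2]
      ring
  simp only [hpart]
  have h1 : Filter.Tendsto (fun n : ℕ => 4 / Real.sqrt ((N + n : ℕ) : ℝ)) Filter.atTop (nhds 0) := by
    apply Filter.Tendsto.div_atTop tendsto_const_nhds
    apply Real.tendsto_sqrt_atTop.comp
    apply tendsto_natCast_atTop_atTop.comp
    apply Filter.tendsto_atTop_mono (f := fun n => n) (fun n => by omega) Filter.tendsto_id
  have h2 := (tendsto_const_nhds (x := 4 / Real.sqrt (N : ℝ))).sub h1
  rw [sub_zero] at h2
  exact h2

/-- `|ζ(s) M(s) - 1| ≤ 6 z₀^{-1/2}` for `Re s = 2`.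

PROOF. `ζ(s) M(s) = ∑ a_k k^{-s}`, `a_k = ∑_{d ∣ k} lam d`, `a_1 = 1`, `a_k = ∑_{d∣k} μ(d) = 0` for
`1 < k ≤ z₀` (`lam_small`), `|a_k| ≤ τ(k) ≤ 2√k`; `∑_{k > z₀} 2 k^{-3/2} ≤ 6 z₀^{-1/2}`. -/
theorem close_far (z₀ : ℝ) (hz : 2 ≤ z₀) (s : ℂ) (hs : s.re = 2) :
    ‖riemannZeta s * Mo z₀ s - 1‖ ≤ 6 * z₀ ^ (-(1 / 2) : ℝ) := by
  have hz1 : 1 < z₀ := by linarith
  set N := ⌊z₀⌋₊ with hN
  have hN2 : 2 ≤ N := Nat.le_floor (by exact_mod_cast hz)
  have hNz : (N : ℝ) ≤ z₀ := Nat.floor_le (by linarith)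
  have hzN : z₀ < N + 1 := Nat.lt_floor_add_one z₀
  have hNR : (2 : ℝ) ≤ N := by exact_mod_cast hN2
  have h1 := CloseFar_hasSum z₀ hz1 s hs
  have h2 : HasSum (fun k : ℕ => if k = 1 then (1 : ℂ) else 0) 1 := hasSum_ite_eq 1 1
  have h3 := h1.sub h2
  have h4 : ∀ k : ℕ, ‖(if k = 0 then (0 : ℂ) else (CloseFar_a z₀ k : ℂ) / (k : ℂ) ^ s) -
      (if k = 1 then (1 : ℂ) else 0)‖ ≤ CloseFar_g N k := by
    intro k
    by_cases hkN : k ≤ N
    · have hg : CloseFar_g N k = 0 := by
        unfold CloseFar_g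
        rw [if_neg (by omega)]
      rw [hg]
      by_cases hk0 : k = 0
      · rw [if_pos hk0, if_neg (by omega)]
        simp
      · have hkR : (k : ℝ) ≤ z₀ := by
          have : (k : ℝ) ≤ N := by exact_mod_cast hkN
          linarith
        rw [if_neg hk0, CloseFar_a_eq z₀ hz1 k hkR]
        by_cases hk1 : k = 1
        · rw [if_pos hk1, if_pos hk1, hk1]
          simp
        · rw [if_neg hk1, if_neg hk1]
          simp
    · have hk : N < k := by omega
      have hg : CloseFar_g N k = 4 * (1 / Real.sqrt ((k - 1 : ℕ) : ℝ) - 1 / Real.sqrt k) := by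
        unfold CloseFar_g
        rw [if_pos hk]
      rw [hg, if_neg (by omega), if_neg (by omega), sub_zero, norm_div,
        Complex.norm_natCast_cpow_of_pos (by omega), hs, Complex.norm_real, Real.norm_eq_abs]
      have hk0 : (0 : ℝ) < k := by
        have : 0 < k := by omega
        exact_mod_cast this
      have hstep := CloseFar_step (k - 1) (by omega)
      have hcast : (((k - 1 : ℕ) : ℝ) + 1) = k := by
        have : k - 1 + 1 = k := by omega
        exact_mod_cast this
      rw [hcast] at hstep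
      have hsq : Real.sqrt k ^ 2 = k := Real.sq_sqrt hk0.le
      have hs0 : 0 < Real.sqrt k := Real.sqrt_pos.mpr hk0
      have h5 : |CloseFar_a z₀ k| / (k : ℝ) ^ (2 : ℝ) ≤ 2 * (1 / Real.sqrt k ^ 3) := by
        have e : (k : ℝ) ^ (2 : ℝ) = Real.sqrt k ^ 4 := by
          have e1 : (k : ℝ) ^ (2 : ℝ) = (k : ℝ) ^ 2 := by
            rw [← Real.rpow_natCast]
            norm_num
          rw [e1]
          nth_rewrite 1 [← hsq]
          ring
        rw [e, mul_one_div, div_le_div_iff₀ (by positivity) (by positivity)]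
        calc |CloseFar_a z₀ k| * Real.sqrt k ^ 3 ≤ (2 * Real.sqrt k) * Real.sqrt k ^ 3 :=
              mul_le_mul_of_nonneg_right (CloseFar_abs z₀ hz1 k) (by positivity)
          _ = 2 * Real.sqrt k ^ 4 := by ring
      linarith
  have h5 := h3.norm_le_of_bounded (CloseFar_g_hasSum N (by omega)) h4
  refine h5.trans ?_
  have hz0 : 0 < z₀ := by linarith
  have e : z₀ ^ (-(1 / 2) : ℝ) = 1 / Real.sqrt z₀ := by
    rw [Real.rpow_neg hz0.le, Real.sqrt_eq_rpow]
    exact (one_div _).symm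
  rw [e, mul_one_div, div_le_div_iff₀ (Real.sqrt_pos.mpr (by linarith)) (Real.sqrt_pos.mpr hz0)]
  have h6 : Real.sqrt z₀ ≤ 3 / 2 * Real.sqrt N := by
    rw [Real.sqrt_le_left (by positivity), mul_pow, Real.sq_sqrt (by linarith)]
    linarith
  linarith

end Pool.Agent.H14.CO
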