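import Pool.Agent.H14.CO.U
import Pool.Agent.H14.CO.MoB
import Pool.Agent.H14.CO.CloseFar
import Pool.Agent.H14.CO.ZetaG

/-!
# CO module Close: `ζ M` is close to `1` at distance `b / log T` to the right of the critical line,
in mean square with respect to `|M(1/2+it)|² dt`
-/

set_option autoImplicit false

namespace Pool.Agent.H14.CO

open Set MeasureTheory Complex

/-- auxiliary function. -/
noncomputable def Close_G (z₀ : ℝ) (u : ℂ) : ℂ := (Zt u * Mo z₀ u - (u - 1)) / (u + 1)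

theorem Close_ne (u : ℂ) (hu : 0 ≤ u.re) : u + 1 ≠ 0 := by
  intro h
  have := congrArg Complex.re h
  simp at this
  linarith

theorem Close_G_eq (z₀ : ℝ) (u : ℂ) (hu : u ≠ 1) :
    Close_G z₀ u = (u - 1) / (u + 1) * (riemannZeta u * Mo z₀ u - 1) := by
  unfold Close_G
  rw [Zt_eq u hu]
  ring

theorem Close_norm_le (u : ℂ) (hu : 0 ≤ u.re) : ‖(u - 1) / (u + 1)‖ ≤ 1 := by
  have h1 : u + 1 ≠ 0 := Close_ne u hu
  have h1' : 0 < ‖u + 1‖ := norm_pos_iff.mpr h1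
  rw [norm_div, div_le_one h1']
  have h2 : ‖u - 1‖ ^ 2 ≤ ‖u + 1‖ ^ 2 := by
    rw [← Complex.normSq_eq_norm_sq, ← Complex.normSq_eq_norm_sq, Complex.normSq_apply,
      Complex.normSq_apply]
    simp
    nlinarith
  exact le_of_sq_le_sq h2 (norm_nonneg _)

theorem Close_G_upper (z₀ : ℝ) (u : ℂ) (hu : u ≠ 1) (hu' : 0 ≤ u.re) :
    ‖Close_G z₀ u‖ ≤ ‖riemannZeta u * Mo z₀ u - 1‖ := by
  rw [Close_G_eq z₀ u hu, norm_mul]
  exact mul_le_of_le_one_left (norm_nonneg _) (Close_norm_le u hu')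

theorem Close_G_lower (z₀ : ℝ) (u : ℂ) (hu : 10 ≤ |u.im|) :
    ‖riemannZeta u * Mo z₀ u - 1‖ ≤ 2 * ‖Close_G z₀ u‖ := by
  have hu1 : u ≠ 1 := by
    rintro rfl
    simp at hu
    linarith
  have h10 : 10 ≤ ‖u + 1‖ := by
    have := Complex.abs_im_le_norm (u + 1)
    simp at this
    linarith
  have h1' : 0 < ‖u + 1‖ := by linarith
  have h2 : ‖u + 1‖ - 2 ≤ ‖u - 1‖ := by
    have : ‖u + 1‖ ≤ ‖u - 1‖ + ‖(2 : ℂ)‖ := by
      have h3 : u + 1 = (u - 1) + 2 := by ring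
      calc ‖u + 1‖ = ‖(u - 1) + 2‖ := by rw [← h3]
        _ ≤ _ := norm_add_le _ _
    simp at this
    linarith
  have h3 : 1 / 2 ≤ ‖(u - 1) / (u + 1)‖ := by
    rw [norm_div, le_div_iff₀ h1']
    linarith only [h10, h2]
  rw [Close_G_eq z₀ u hu1, norm_mul]
  have := norm_nonneg (riemannZeta u * Mo z₀ u - 1)
  nlinarith only [h3, this]

theorem Close_G_diff (z₀ : ℝ) (u : ℂ) (hu : 0 ≤ u.re) : DifferentiableAt ℂ (Close_G z₀) u := by
  unfold Close_G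
  apply DifferentiableAt.div
  · apply DifferentiableAt.sub
    · exact (differentiable_Zt u).mul (differentiable_Mo z₀ u)
    · exact differentiableAt_id.sub (differentiableAt_const _)
  · exact differentiableAt_id.add (differentiableAt_const _)
  · exact Close_ne u hu

theorem Close_G_growth (z₀ : ℝ) (hz : 1 < z₀) : ∃ A : ℝ, 0 < A ∧ ∀ u : ℂ, 0 ≤ u.re → u.re ≤ 2 →
    ‖Close_G z₀ u‖ ≤ A * (1 + |u.im|) ^ 4 := by
  obtain ⟨C, hC, hZ⟩ := Zt_growth 1 le_rfl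
  refine ⟨C * 81 * z₀ ^ (6 : ℝ) + 3, by positivity, fun u h0 h2 => ?_⟩
  have h1' : 1 ≤ ‖u + 1‖ := by
    have := Complex.re_le_norm (u + 1)
    simp at this
    linarith
  have hy : 0 ≤ |u.im| := abs_nonneg _
  have hun : ‖u‖ ≤ 2 + |u.im| := by
    have := Complex.norm_le_abs_re_add_abs_im u
    rw [abs_of_nonneg h0] at this
    linarith
  have hZu : ‖Zt u‖ ≤ C * (3 * (1 + |u.im|)) ^ 4 := by
    have h := hZ u (by linarith)
    have h4 : (1 + ‖u‖) ^ ((1 : ℝ) + 3) = (1 + ‖u‖) ^ 4 := by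
      rw [← Real.rpow_natCast]
      norm_num
    rw [h4] at h
    refine h.trans ?_
    gcongr
    linarith
  have hM : ‖Mo z₀ u‖ ≤ z₀ ^ (6 : ℝ) := by
    refine (norm_Mo_le z₀ hz u).trans ?_
    apply Real.rpow_le_rpow_of_exponent_le hz.le
    rw [abs_of_nonneg h0]
    linarith
  have h1y : 1 ≤ (1 + |u.im|) := by linarith
  have h1y4 : (1 + |u.im|) ≤ (1 + |u.im|) ^ 4 := by
    calc (1 + |u.im|) = (1 + |u.im|) ^ 1 := by ring
      _ ≤ (1 + |u.im|) ^ 4 := pow_le_pow_right₀ h1y (by norm_num)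
  have hu1 : ‖u - 1‖ ≤ 3 * (1 + |u.im|) ^ 4 := by
    calc ‖u - 1‖ ≤ ‖u‖ + ‖(1 : ℂ)‖ := norm_sub_le _ _
      _ ≤ 3 * (1 + |u.im|) := by rw [norm_one]; linarith
      _ ≤ _ := by linarith
  unfold Close_G
  rw [norm_div]
  calc ‖Zt u * Mo z₀ u - (u - 1)‖ / ‖u + 1‖ ≤ ‖Zt u * Mo z₀ u - (u - 1)‖ :=
        div_le_self (norm_nonneg _) h1'
    _ ≤ ‖Zt u * Mo z₀ u‖ + ‖u - 1‖ := norm_sub_le _ _
    _ ≤ C * (3 * (1 + |u.im|)) ^ 4 * z₀ ^ (6 : ℝ) + 3 * (1 + |u.im|) ^ 4 := by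
        apply add_le_add _ hu1
        rw [norm_mul]
        apply mul_le_mul hZu hM (norm_nonneg _) (by positivity)
    _ = _ := by ring

theorem Close_G_cont (z₀ : ℝ) (c : ℂ) (hc : 0 ≤ c.re) :
    Continuous (fun v : ℝ => Close_G z₀ (c + v * I)) := by
  rw [continuous_iff_continuousAt]
  intro v
  have h1 : 0 ≤ (c + v * I).re := by simpa using hc
  have h2 : ContinuousAt (Close_G z₀) (c + v * I) := (Close_G_diff z₀ _ h1).continuousAt
  have h3 : ContinuousAt (fun v : ℝ => c + v * I) v := by fun_prop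
  exact ContinuousAt.comp (f := fun v : ℝ => c + v * I) (g := Close_G z₀) h2 h3

theorem Close_pow (t y : ℝ) (k : ℕ) : (1 + |t + y|) ^ k ≤ (1 + |t|) ^ k * (1 + |y|) ^ k := by
  rw [← mul_pow]
  have h1 : |t + y| ≤ |t| + |y| := abs_add_le t y
  have h2 : 0 ≤ |t| := abs_nonneg t
  have h3 : 0 ≤ |y| := abs_nonneg y
  gcongr
  nlinarith

/-- Tonelli for the convolution type integrals. -/
theorem Close_tonelli (κ g m : ℝ → ℝ) (α β A : ℝ) (k : ℕ) (hκ0 : ∀ y, 0 ≤ κ y)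
    (hκm : Continuous κ) (hκ : Integrable (fun y => κ y * (1 + |y|) ^ k))
    (hg : Continuous g) (hg0 : ∀ v, 0 ≤ g v) (hgA : ∀ v, g v ≤ A * (1 + |v|) ^ k)
    (hm : Continuous m) (hm0 : ∀ t, 0 ≤ m t) (B : ℝ → ℝ)
    (hB : ∀ y, ∫ t in Ioc α β, m t * g (t + y) ≤ B y) (hBi : Integrable (fun y => κ y * B y)) :
    Integrable (fun t => m t * ∫ y, κ y * g (t + y)) (volume.restrict (Ioc α β)) ∧
    ∫ t in Ioc α β, m t * ∫ y, κ y * g (t + y) ≤ ∫ y, κ y * B y := by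
  have hA : 0 ≤ A := by
    have := (hg0 0).trans (hgA 0)
    simpa using this
  set μ := (volume.restrict (Ioc α β)) with hμ
  have hF : Integrable (Function.uncurry fun (t y : ℝ) => m t * (κ y * g (t + y)))
      (μ.prod volume) := by
    have hb : Integrable (fun z : ℝ × ℝ => (m z.1 * A * (1 + |z.1|) ^ k) *
        (κ z.2 * (1 + |z.2|) ^ k)) (μ.prod volume) := by
      apply Integrable.mul_prod (f := fun t : ℝ => m t * A * (1 + |t|) ^ k)
        (g := fun y : ℝ => κ y * (1 + |y|) ^ k) _ hκ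
      have hc : Continuous (fun t : ℝ => m t * A * (1 + |t|) ^ k) := by fun_prop
      exact (hc.integrableOn_Icc (a := α) (b := β)).mono_set Ioc_subset_Icc_self
    refine hb.mono' ?_ ?_
    · have : Continuous (Function.uncurry fun (t y : ℝ) => m t * (κ y * g (t + y))) := by
        simp only [Function.uncurry_def]
        fun_prop
      exact this.aestronglyMeasurable
    · refine Filter.Eventually.of_forall fun z => ?_
      simp only [Function.uncurry_def]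
      rw [Real.norm_eq_abs, abs_of_nonneg (mul_nonneg (hm0 _) (mul_nonneg (hκ0 _) (hg0 _)))]
      have h1 := hgA (z.1 + z.2)
      have h2 := Close_pow z.1 z.2 k
      have h3 : g (z.1 + z.2) ≤ A * ((1 + |z.1|) ^ k * (1 + |z.2|) ^ k) :=
        h1.trans (mul_le_mul_of_nonneg_left h2 hA)
      calc m z.1 * (κ z.2 * g (z.1 + z.2))
          ≤ m z.1 * (κ z.2 * (A * ((1 + |z.1|) ^ k * (1 + |z.2|) ^ k))) :=
            mul_le_mul_of_nonneg_left (mul_le_mul_of_nonneg_left h3 (hκ0 _)) (hm0 _)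
        _ = _ := by ring
  have e1 : (fun t => m t * ∫ y, κ y * g (t + y)) =
      fun t => ∫ y, m t * (κ y * g (t + y)) := by
    funext t
    rw [integral_const_mul]
  constructor
  · rw [e1]
    exact hF.integral_prod_left
  · rw [e1]
    rw [integral_integral_swap hF]
    apply integral_mono_of_nonneg
    · refine Filter.Eventually.of_forall fun y => ?_
      apply integral_nonneg
      intro t
      exact mul_nonneg (hm0 _) (mul_nonneg (hκ0 _) (hg0 _))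
    · exact hBi
    · refine Filter.Eventually.of_forall fun y => ?_
      have e2 : (∫ t, m t * (κ y * g (t + y)) ∂μ) = κ y * ∫ t in Ioc α β, m t * g (t + y) := by
        rw [← integral_const_mul]
        congr 1
        funext t
        ring
      simp only
      rw [e2]
      exact mul_le_mul_of_nonneg_left (hB y) (hκ0 y)

/-- the kernel. -/
noncomputable def Close_k (h σ y : ℝ) : ℝ := ‖kn h (σ + y * I) / (σ + y * I)‖

theorem Close_k_nonneg (h σ y : ℝ) : 0 ≤ Close_k h σ y := norm_nonneg _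

theorem Close_k_cont (h σ : ℝ) (hσ : σ ≠ 0) : Continuous (Close_k h σ) := by
  unfold Close_k
  apply Continuous.norm
  apply Continuous.div
  · exact (differentiable_kn h).continuous.comp (by fun_prop)
  · fun_prop
  · intro y hy
    have := congrArg Complex.re hy
    simp at this
    exact hσ this

theorem Close_k_int (k : ℕ) : ∃ C : ℝ, 0 < C ∧ ∀ h σ : ℝ, 0 < h → σ ≠ 0 →
    Integrable (fun y : ℝ => Close_k h σ y * ((1 + h * |y|) ^ 30 * (1 + |y|) ^ k)) ∧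
    Integrable (fun y : ℝ => Close_k h σ y * (1 + |y|) ^ k) ∧
    Integrable (fun y : ℝ => Close_k h σ y) ∧
    ∫ y : ℝ, Close_k h σ y * ((1 + h * |y|) ^ 30 * (1 + |y|) ^ k)
      ≤ C * Real.exp (32 * h * |σ| + σ ^ 2) * (1 + 1 / (h * |σ|)) ∧
    ∫ y : ℝ, Close_k h σ y
      ≤ C * Real.exp (32 * h * |σ| + σ ^ 2) * (1 + 1 / (h * |σ|)) := by
  obtain ⟨C, hC, H⟩ := kn_int k
  refine ⟨C, hC, fun h σ hh hσ => ?_⟩
  obtain ⟨h1, h2⟩ := H h σ hh hσ
  have e : (fun y : ℝ => Close_k h σ y * ((1 + h * |y|) ^ 30 * (1 + |y|) ^ k)) =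
      (fun y : ℝ => (1 + h * |y|) ^ 30 * (1 + |y|) ^ k * ‖kn h (σ + y * I) / (σ + y * I)‖) := by
    funext y
    unfold Close_k
    ring
  have i1 : Integrable (fun y : ℝ => Close_k h σ y * ((1 + h * |y|) ^ 30 * (1 + |y|) ^ k)) := by
    rw [e]; exact h1
  have hc := Close_k_cont h σ hσ
  have b1 : ∀ y : ℝ, 1 ≤ (1 + h * |y|) ^ 30 := fun y =>
    one_le_pow₀ (by have := mul_nonneg hh.le (abs_nonneg y); linarith only [this])
  have b2 : ∀ y : ℝ, 1 ≤ (1 + |y|) ^ k := fun y =>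
    one_le_pow₀ (by have := abs_nonneg y; linarith)
  have i2 : Integrable (fun y : ℝ => Close_k h σ y * (1 + |y|) ^ k) := by
    refine i1.mono' ?_ ?_
    · have : Continuous (fun y : ℝ => Close_k h σ y * (1 + |y|) ^ k) := by fun_prop
      exact this.aestronglyMeasurable
    · refine Filter.Eventually.of_forall fun y => ?_
      have hp : 0 ≤ (1 + |y|) ^ k := zero_le_one.trans (b2 y)
      rw [Real.norm_eq_abs, abs_of_nonneg (mul_nonneg (Close_k_nonneg _ _ _) hp)]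
      apply mul_le_mul_of_nonneg_left _ (Close_k_nonneg _ _ _)
      exact le_mul_of_one_le_left hp (b1 y)
  have i3 : Integrable (fun y : ℝ => Close_k h σ y) := by
    refine i2.mono' hc.aestronglyMeasurable ?_
    refine Filter.Eventually.of_forall fun y => ?_
    rw [Real.norm_eq_abs, abs_of_nonneg (Close_k_nonneg _ _ _)]
    exact le_mul_of_one_le_right (Close_k_nonneg _ _ _) (b2 y)
  refine ⟨i1, i2, i3, ?_, ?_⟩
  · rw [e]; exact h2
  · refine le_trans ?_ h2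
    rw [← e]
    apply integral_mono i3 i1
    intro y
    simp only
    apply le_mul_of_one_le_right (Close_k_nonneg _ _ _)
    have := b1 y
    have := b2 y
    nlinarith

/-- the squared function on a line. -/
noncomputable def Close_g (z₀ a : ℝ) (w : ℂ) (v : ℝ) : ℝ :=
  ‖Close_G z₀ ((1 / 2 + a + w.im * I) + v * I)‖ ^ 2

theorem Close_g_cont (z₀ a : ℝ) (w : ℂ) (ha : 0 ≤ a) : Continuous (Close_g z₀ a w) := by
  unfold Close_g
  have := Close_G_cont z₀ (1 / 2 + a + w.im * I) (by simp; linarith only [ha])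
  fun_prop

theorem Close_g_growth (z₀ a : ℝ) (w : ℂ) (hz : 1 < z₀) (ha : 0 ≤ a) (ha2 : a ≤ 3 / 2) :
    ∃ A : ℝ, ∀ v, Close_g z₀ a w v ≤ A * (1 + |v|) ^ 8 := by
  obtain ⟨A, hA, H⟩ := Close_G_growth z₀ hz
  refine ⟨(A * (1 + |w.im|) ^ 4) ^ 2, fun v => ?_⟩
  unfold Close_g
  have h := H ((1 / 2 + a + w.im * I) + v * I) (by simp; linarith) (by simp; linarith)
  have h1 : ((1 / 2 + a + w.im * I) + v * I : ℂ).im = w.im + v := by simp
  rw [h1] at h
  have h2 := Close_pow w.im v 4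
  have h3 : ‖Close_G z₀ ((1 / 2 + a + w.im * I) + v * I)‖ ≤
      A * ((1 + |w.im|) ^ 4 * (1 + |v|) ^ 4) :=
    h.trans (mul_le_mul_of_nonneg_left h2 hA.le)
  calc ‖Close_G z₀ ((1 / 2 + a + w.im * I) + v * I)‖ ^ 2
      ≤ (A * ((1 + |w.im|) ^ 4 * (1 + |v|) ^ 4)) ^ 2 :=
        pow_le_pow_left₀ (norm_nonneg _) h3 2
    _ = _ := by ring

theorem Close_point (z₀ : ℝ) (hz : 1 < z₀) (a b : ℝ) (ha : 0 ≤ a) (hb : b ≤ 3 / 2)
    (h lm : ℝ) (hh : 0 < h) (w : ℂ) (hwa : a < w.re) (hwb : w.re < b) (t : ℝ) :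
    ‖Close_G z₀ (pt w t)‖ ^ 2 ≤
      Real.exp (-2 * lm * (w.re - a)) *
        ((∫ y : ℝ, Close_k h (a - w.re) y) *
        ∫ y : ℝ, Close_k h (a - w.re) y * Close_g z₀ a w (t + y)) +
      Real.exp (2 * lm * (b - w.re)) *
        ((∫ y : ℝ, Close_k h (b - w.re) y) *
        ∫ y : ℝ, Close_k h (b - w.re) y * Close_g z₀ b w (t + y)) := by
  obtain ⟨A, hA, H⟩ := Close_G_growth z₀ hz
  have key := interp (fun w' => Close_G z₀ (pt w' t)) a b
    (by
      intro z hza hzb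
      have h1 : 0 ≤ (pt z t).re := by unfold pt; simp; linarith only [ha, hwa, hza]
      have h2 := Close_G_diff z₀ (pt z t) h1
      have h3 : DifferentiableAt ℂ (fun w' : ℂ => pt w' t) z := by
        unfold pt
        fun_prop
      exact DifferentiableAt.comp (f := fun w' : ℂ => pt w' t) (g := Close_G z₀) z h2 h3)
    (A * (1 + |t|) ^ 4) 4
    (by
      intro z hza hzb
      have h := H (pt z t) (by unfold pt; simp; linarith only [ha, hza]) (by unfold pt; simp; linarith)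
      have h1 : (pt z t).im = t + z.im := by unfold pt; simp; ring
      rw [h1] at h
      have h2 := Close_pow t z.im 4
      calc ‖Close_G z₀ (pt z t)‖ ≤ A * (1 + |t + z.im|) ^ 4 := h
        _ ≤ A * ((1 + |t|) ^ 4 * (1 + |z.im|) ^ 4) := mul_le_mul_of_nonneg_left h2 hA.le
        _ = _ := by ring)
    h lm hh w hwa hwb
  have e : ∀ (x y : ℝ), ‖Close_G z₀ (pt ((x : ℂ) + (w.im + y) * I) t)‖ ^ 2 =
      Close_g z₀ x w (t + y) := by
    intro x y
    unfold Close_g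
    congr 3
    unfold pt
    push_cast
    ring
  simp only [e] at key
  exact key

theorem Close_gw (τ W t : ℝ) (hW : 0 < W) (h1 : τ - W < t) (h2 : t ≤ τ + W) :
    1 ≤ Real.exp 1 * gw τ W t := by
  unfold gw
  rw [← Real.exp_add]
  apply Real.one_le_exp
  have h3 : ((t - τ) / W) ^ 2 ≤ 1 := by
    rw [div_pow, div_le_one (by positivity)]
    apply sq_le_sq'
    · linarith
    · linarith
  linarith

theorem Close_gw_nonneg (τ W t : ℝ) : 0 ≤ gw τ W t := (Real.exp_pos _).le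

theorem Close_m_cont (z₀ : ℝ) : Continuous (fun t : ℝ => ‖Mo z₀ (pt 0 t)‖ ^ 2) := by
  have h1 : Continuous (fun t : ℝ => pt 0 t) := by
    unfold pt
    fun_prop
  have := (continuous_Mo z₀).comp h1
  have h2 : Continuous (fun t : ℝ => Mo z₀ (pt 0 t)) := this
  fun_prop

/-- general domination of a window integral by a Gaussian one. -/
theorem Close_win (f F : ℝ → ℝ) (τ W : ℝ) (hf0 : ∀ t, 0 ≤ f t)
    (hF0 : ∀ t, 0 ≤ F t) (hF : Integrable F)
    (hfF : ∀ t, τ - W < t → t ≤ τ + W → f t ≤ F t) :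
    ∫ t in Ioc (τ - W) (τ + W), f t ≤ ∫ t, F t := by
  calc ∫ t in Ioc (τ - W) (τ + W), f t ≤ ∫ t in Ioc (τ - W) (τ + W), F t := by
        apply integral_mono_of_nonneg
        · exact Filter.Eventually.of_forall hf0
        · exact hF.integrableOn
        · exact ae_restrict_of_forall_mem measurableSet_Ioc fun t ht => hfF t ht.1 ht.2
    _ ≤ ∫ t, F t := setIntegral_le_integral hF (Filter.Eventually.of_forall hF0)

theorem Close_mwin (z₀ τ W M : ℝ) (hW : 0 < W)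
    (hi : Integrable (fun t : ℝ => ‖Mo z₀ (pt 0 t)‖ ^ 2 * gw τ W t))
    (hM : ∫ t : ℝ, ‖Mo z₀ (pt 0 t)‖ ^ 2 * gw τ W t ≤ M) :
    ∫ t in Ioc (τ - W) (τ + W), ‖Mo z₀ (pt 0 t)‖ ^ 2 ≤ Real.exp 1 * M := by
  calc ∫ t in Ioc (τ - W) (τ + W), ‖Mo z₀ (pt 0 t)‖ ^ 2
      ≤ ∫ t, Real.exp 1 * (‖Mo z₀ (pt 0 t)‖ ^ 2 * gw τ W t) := by
        apply Close_win
        · intro t; positivity
        · intro t
          have := Close_gw_nonneg τ W t
          positivity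
        · exact hi.const_mul _
        · intro t h1 h2
          have h3 := Close_gw τ W t hW h1 h2
          have h4 : 0 ≤ ‖Mo z₀ (pt 0 t)‖ ^ 2 := by positivity
          calc ‖Mo z₀ (pt 0 t)‖ ^ 2 = ‖Mo z₀ (pt 0 t)‖ ^ 2 * 1 := by ring
            _ ≤ ‖Mo z₀ (pt 0 t)‖ ^ 2 * (Real.exp 1 * gw τ W t) :=
              mul_le_mul_of_nonneg_left h3 h4
            _ = _ := by ring
    _ = Real.exp 1 * ∫ t, (‖Mo z₀ (pt 0 t)‖ ^ 2 * gw τ W t) := integral_const_mul _ _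
    _ ≤ _ := mul_le_mul_of_nonneg_left hM (Real.exp_pos _).le

theorem Close_nearwin (z₀ τ W M N a y : ℝ) (w : ℂ) (hW : 0 < W) (ha : 0 ≤ a) (ha2 : a < 1 / 2)
    (hi : Integrable (fun t : ℝ => ‖Mo z₀ (pt 0 t)‖ ^ 2 * gw τ W t))
    (hM : ∫ t : ℝ, ‖Mo z₀ (pt 0 t)‖ ^ 2 * gw τ W t ≤ M)
    (hi' : Integrable (fun t : ℝ => ‖riemannZeta (pt (a + (w.im + y) * I) t) *
      (Mo z₀ (pt (a + (w.im + y) * I) t) * Mo z₀ (pt 0 t))‖ ^ 2 * gw τ W t))
    (hN : ∫ t : ℝ, ‖riemannZeta (pt (a + (w.im + y) * I) t) *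
      (Mo z₀ (pt (a + (w.im + y) * I) t) * Mo z₀ (pt 0 t))‖ ^ 2 * gw τ W t ≤ N) :
    ∫ t in Ioc (τ - W) (τ + W), ‖Mo z₀ (pt 0 t)‖ ^ 2 * Close_g z₀ a w (t + y) ≤
      2 * Real.exp 1 * (N + M) := by
  calc ∫ t in Ioc (τ - W) (τ + W), ‖Mo z₀ (pt 0 t)‖ ^ 2 * Close_g z₀ a w (t + y)
      ≤ ∫ t, 2 * Real.exp 1 * ((‖riemannZeta (pt (a + (w.im + y) * I) t) *
      (Mo z₀ (pt (a + (w.im + y) * I) t) * Mo z₀ (pt 0 t))‖ ^ 2 * gw τ W t) +
        (‖Mo z₀ (pt 0 t)‖ ^ 2 * gw τ W t)) := by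
        apply Close_win
        · intro t
          unfold Close_g
          positivity
        · intro t
          have := Close_gw_nonneg τ W t
          positivity
        · exact (hi'.add hi).const_mul _
        · intro t h1 h2
          have h3 := Close_gw τ W t hW h1 h2
          have hg := Close_gw_nonneg τ W t
          obtain ⟨u, hu⟩ : ∃ u, u = pt (a + (w.im + y) * I) t := ⟨_, rfl⟩
          have hre : u.re = 1 / 2 + a := by
            rw [hu]; unfold pt; simp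
          have hu1 : u ≠ 1 := by
            intro h
            rw [h] at hre
            simp at hre
            linarith
          have e : Close_g z₀ a w (t + y) = ‖Close_G z₀ u‖ ^ 2 := by
            unfold Close_g
            rw [hu]
            congr 3
            unfold pt
            push_cast
            ring
          have h4 := Close_G_upper z₀ u hu1 (by rw [hre]; linarith only [ha])
          rw [e, ← hu]
          obtain ⟨q, hq⟩ : ∃ q, q = Mo z₀ (pt 0 t) := ⟨_, rfl⟩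
          rw [← hq]
          have h5 : ‖q‖ ^ 2 * ‖Close_G z₀ u‖ ^ 2 ≤
              2 * (‖riemannZeta u * (Mo z₀ u * q)‖ ^ 2 + ‖q‖ ^ 2) := by
            calc ‖q‖ ^ 2 * ‖Close_G z₀ u‖ ^ 2
                ≤ ‖q‖ ^ 2 * ‖riemannZeta u * Mo z₀ u - 1‖ ^ 2 :=
                  mul_le_mul_of_nonneg_left (pow_le_pow_left₀ (norm_nonneg _) h4 2)
                    (by positivity)
              _ = ‖riemannZeta u * (Mo z₀ u * q) - q‖ ^ 2 := by
                  rw [← mul_pow, ← norm_mul]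
                  congr 2
                  ring
              _ ≤ (‖riemannZeta u * (Mo z₀ u * q)‖ + ‖q‖) ^ 2 :=
                  pow_le_pow_left₀ (norm_nonneg _) (norm_sub_le _ _) 2
              _ ≤ _ := by
                  nlinarith only [sq_nonneg (‖riemannZeta u * (Mo z₀ u * q)‖ - ‖q‖)]
          have h6 : 0 ≤ 2 * (‖riemannZeta u * (Mo z₀ u * q)‖ ^ 2 + ‖q‖ ^ 2) := by positivity
          calc ‖q‖ ^ 2 * ‖Close_G z₀ u‖ ^ 2
              ≤ 2 * (‖riemannZeta u * (Mo z₀ u * q)‖ ^ 2 + ‖q‖ ^ 2) * 1 := by rw [mul_one]; exact h5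
            _ ≤ 2 * (‖riemannZeta u * (Mo z₀ u * q)‖ ^ 2 + ‖q‖ ^ 2) *
                (Real.exp 1 * gw τ W t) := mul_le_mul_of_nonneg_left h3 h6
            _ = _ := by ring
    _ = 2 * Real.exp 1 * ∫ t, ((‖riemannZeta (pt (a + (w.im + y) * I) t) *
      (Mo z₀ (pt (a + (w.im + y) * I) t) * Mo z₀ (pt 0 t))‖ ^ 2 * gw τ W t) +
        (‖Mo z₀ (pt 0 t)‖ ^ 2 * gw τ W t)) := integral_const_mul _ _
    _ ≤ _ := by
        rw [integral_add hi' hi]
        apply mul_le_mul_of_nonneg_left _ (by positivity)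
        linarith

theorem Close_farwin (z₀ τ W M y : ℝ) (w : ℂ) (hz : 2 ≤ z₀)
    (hM : ∫ t in Ioc (τ - W) (τ + W), ‖Mo z₀ (pt 0 t)‖ ^ 2 ≤ M) :
    ∫ t in Ioc (τ - W) (τ + W), ‖Mo z₀ (pt 0 t)‖ ^ 2 * Close_g z₀ (3 / 2 : ℝ) w (t + y) ≤
      36 * z₀⁻¹ * M := by
  have hz0 : 0 < z₀ := by linarith
  have hp : ∀ t : ℝ, Close_g z₀ (3 / 2 : ℝ) w (t + y) ≤ 36 * z₀⁻¹ := by
    intro t
    unfold Close_g
    obtain ⟨u, hu⟩ : ∃ u : ℂ, u = (1 / 2 + ((3 / 2 : ℝ) : ℂ) + w.im * I) + ((t + y : ℝ) : ℂ) * I :=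
      ⟨_, rfl⟩
    rw [← hu]
    have hre : u.re = 2 := by
      rw [hu]; simp; norm_num
    have hu1 : u ≠ 1 := by
      intro h
      rw [h] at hre
      simp at hre
    have h4 := Close_G_upper z₀ u hu1 (by rw [hre]; norm_num)
    have h5 := h4.trans (close_far z₀ hz u hre)
    calc ‖Close_G z₀ u‖ ^ 2 ≤ (6 * z₀ ^ (-(1 / 2) : ℝ)) ^ 2 :=
          pow_le_pow_left₀ (norm_nonneg _) h5 2
      _ = 36 * z₀⁻¹ := by
          rw [mul_pow, ← Real.rpow_natCast (z₀ ^ (-(1 / 2) : ℝ)), ← Real.rpow_mul hz0.le]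
          norm_num
          exact Real.rpow_neg_one z₀
  calc ∫ t in Ioc (τ - W) (τ + W), ‖Mo z₀ (pt 0 t)‖ ^ 2 * Close_g z₀ (3 / 2 : ℝ) w (t + y)
      ≤ ∫ t in Ioc (τ - W) (τ + W), ‖Mo z₀ (pt 0 t)‖ ^ 2 * (36 * z₀⁻¹) := by
        apply integral_mono_of_nonneg
        · refine Filter.Eventually.of_forall fun t => ?_
          simp only [Pi.zero_apply]
          unfold Close_g
          positivity
        · have hc : Continuous (fun t : ℝ => ‖Mo z₀ (pt 0 t)‖ ^ 2 * (36 * z₀⁻¹)) :=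
            (Close_m_cont z₀).mul continuous_const
          exact (hc.integrableOn_Icc (a := τ - W) (b := τ + W)).mono_set Ioc_subset_Icc_self
        · refine Filter.Eventually.of_forall fun t => ?_
          simp only
          exact mul_le_mul_of_nonneg_left (hp t) (by positivity)
    _ = (∫ t in Ioc (τ - W) (τ + W), ‖Mo z₀ (pt 0 t)‖ ^ 2) * (36 * z₀⁻¹) :=
        integral_mul_const _ _
    _ ≤ M * (36 * z₀⁻¹) := mul_le_mul_of_nonneg_right hM (by positivity)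
    _ = _ := by ring

/-- constant of the near line bound. -/
noncomputable def Close_C (CU Cm : ℝ) : ℝ :=
  2 * Real.exp 1 * (16 * 5 ^ 301 * (CU * Real.exp CU) + Cm)

theorem Close_C_pos (CU Cm : ℝ) (hCU : 0 < CU) (hCm : 0 < Cm) : 0 < Close_C CU Cm := by
  unfold Close_C
  positivity

/-- pointwise size of the near line bound. -/
theorem Close_size (CU Cm L T τ h h₁ y : ℝ) (w w₀ : ℂ) (W : ℝ) (hCU : 0 < CU) (hCm : 0 < Cm)
    (hL : 0 < L) (hT : 1 ≤ T) (hW : 0 ≤ W) (hτ0 : 0 ≤ τ) (hτ : τ ≤ 3 * T) (hh : 0 < h)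
    (hh1 : h * h₁ = 1) (hh1w : h₁ ≤ ‖w‖) (hw : |w.im| ≤ 1)
    (hw₀ : w₀ = ((1 / L : ℝ) : ℂ) + (w.im + y) * I) :
    2 * Real.exp 1 * (CU * Real.exp (CU * 1) * W * L * ((1 + L * ‖w₀ - w₀‖) ^ 4 *
        (1 + L * ‖w₀ - 0‖) ^ 4) * (1 + |τ + w₀.im| / T) ^ 301 + Cm * W * L) ≤
      Close_C CU Cm * W * L *
        (1 + L * ‖w‖) ^ 8 * ((1 + h * |y|) ^ 30 * (1 + |y|) ^ 301) := by
  unfold Close_C
  have hy : 0 ≤ |y| := abs_nonneg y
  have hwn : 0 ≤ ‖w‖ := norm_nonneg w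
  have hhy : 0 ≤ h * |y| := mul_nonneg hh.le hy
  have hLw : 0 ≤ L * ‖w‖ := mul_nonneg hL.le hwn
  have e0 : ‖w₀ - w₀‖ = 0 := by simp
  have e1 : L * ‖w₀ - 0‖ ≤ 1 + L * ‖w‖ + L * |y| := by
    rw [sub_zero, hw₀]
    have h1 : ‖((1 / L : ℝ) : ℂ) + (w.im + y) * I‖ ≤ 1 / L + (‖w‖ + |y|) := by
      refine (norm_add_le _ _).trans ?_
      have h2 : ‖((1 / L : ℝ) : ℂ)‖ = 1 / L := by
        rw [Complex.norm_real, Real.norm_eq_abs, abs_of_pos (by positivity)]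
      have h3 : ‖((w.im : ℂ) + y) * I‖ ≤ ‖w‖ + |y| := by
        rw [norm_mul, Complex.norm_I, mul_one]
        have h4 : ((w.im : ℂ) + y) = ((w.im + y : ℝ) : ℂ) := by push_cast; ring
        rw [h4, Complex.norm_real, Real.norm_eq_abs]
        exact (abs_add_le _ _).trans (by gcongr; exact Complex.abs_im_le_norm w)
      linarith only [h2, h3]
    calc L * ‖((1 / L : ℝ) : ℂ) + (w.im + y) * I‖ ≤ L * (1 / L + (‖w‖ + |y|)) :=
          mul_le_mul_of_nonneg_left h1 hL.le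
      _ = 1 + L * ‖w‖ + L * |y| := by field_simp; ring
  have e2 : L * |y| ≤ (L * ‖w‖) * (h * |y|) := by
    have h1 : 1 ≤ h * ‖w‖ := by
      rw [← hh1]
      exact mul_le_mul_of_nonneg_left hh1w hh.le
    calc L * |y| = (L * |y|) * 1 := by ring
      _ ≤ (L * |y|) * (h * ‖w‖) := mul_le_mul_of_nonneg_left h1 (by positivity)
      _ = _ := by ring
  have e3 : 1 + L * ‖w₀ - 0‖ ≤ 2 * (1 + L * ‖w‖) ^ 2 * (1 + h * |y|) := by
    nlinarith only [hhy, hLw, e1, e2, mul_nonneg (mul_nonneg hLw hLw) hhy]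
  have e4 : (1 + L * ‖w₀ - 0‖) ^ 4 ≤ 16 * (1 + L * ‖w‖) ^ 8 * (1 + h * |y|) ^ 4 := by
    calc (1 + L * ‖w₀ - 0‖) ^ 4 ≤ (2 * (1 + L * ‖w‖) ^ 2 * (1 + h * |y|)) ^ 4 := by
          apply pow_le_pow_left₀ _ e3
          positivity
      _ = _ := by ring
  have e5 : (1 + |τ + w₀.im| / T) ^ 301 ≤ 5 ^ 301 * (1 + |y|) ^ 301 := by
    rw [← mul_pow]
    apply pow_le_pow_left₀ (by positivity)
    have h1 : w₀.im = w.im + y := by rw [hw₀]; simp
    have h2 : |τ + w₀.im| ≤ 3 * T + 1 + |y| := by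
      rw [h1]
      calc |τ + (w.im + y)| ≤ |τ| + |w.im + y| := abs_add_le _ _
        _ ≤ |τ| + (|w.im| + |y|) := by gcongr; exact abs_add_le _ _
        _ ≤ _ := by rw [abs_of_nonneg hτ0]; linarith
    have h3 : |τ + w₀.im| / T ≤ 4 + |y| := by
      rw [div_le_iff₀ (by linarith only [hT])]
      have e10 := mul_le_mul_of_nonneg_left hT hy
      have e11 : (4 + |y|) * T = 4 * T + |y| * T := by ring
      rw [e11]
      linarith only [h2, e10, hT]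
    linarith only [h3, hy]
  have e6 : (1 + h * |y|) ^ 4 ≤ (1 + h * |y|) ^ 30 :=
    pow_le_pow_right₀ (by linarith only [hhy]) (by norm_num)
  have e7 : 1 ≤ (1 + L * ‖w‖) ^ 8 := one_le_pow₀ (by linarith only [hLw])
  have e8 : 1 ≤ (1 + h * |y|) ^ 30 := one_le_pow₀ (by linarith only [hhy])
  have e9 : 1 ≤ (1 + |y|) ^ 301 := one_le_pow₀ (by linarith only [hy])
  have hWL : 0 ≤ W * L := mul_nonneg hW hL.le
  obtain ⟨P, hP⟩ : ∃ P, P = (1 + L * ‖w‖) ^ 8 := ⟨_, rfl⟩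
  obtain ⟨Q, hQ⟩ : ∃ Q, Q = (1 + h * |y|) ^ 30 := ⟨_, rfl⟩
  obtain ⟨R, hR⟩ : ∃ R, R = (1 + |y|) ^ 301 := ⟨_, rfl⟩
  obtain ⟨Z, hZ⟩ : ∃ Z : ℝ, Z = 5 ^ 301 := ⟨_, rfl⟩
  have hZ0 : 0 ≤ Z := by rw [hZ]; positivity
  have g1 : (1 + L * ‖w₀ - w₀‖) ^ 4 = 1 := by rw [e0]; simp
  rw [g1, one_mul, mul_one, mul_assoc _ (_ ^ 4) (_ ^ 301)]
  rw [← hP, ← hQ, ← hR, ← hZ]
  rw [← hP] at e4 e7
  rw [← hQ] at e6 e8
  rw [← hR] at e5 e9
  rw [← hZ] at e5
  have g2 : (1 + L * ‖w₀ - 0‖) ^ 4 ≤ 16 * P * Q :=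
    e4.trans (mul_le_mul_of_nonneg_left e6 (by positivity))
  have g3 : (1 + L * ‖w₀ - 0‖) ^ 4 * (1 + |τ + w₀.im| / T) ^ 301 ≤ (16 * P * Q) * (Z * R) :=
    mul_le_mul g2 e5 (by positivity) (by positivity)
  have g4 : (1 : ℝ) ≤ P * (Q * R) :=
    one_le_mul_of_one_le_of_one_le e7 (one_le_mul_of_one_le_of_one_le e8 e9)
  obtain ⟨U₁, hU₁⟩ : ∃ U₁, U₁ = (1 + L * ‖w₀ - 0‖) ^ 4 := ⟨_, rfl⟩
  obtain ⟨V₁, hV₁⟩ : ∃ V₁, V₁ = (1 + |τ + w₀.im| / T) ^ 301 := ⟨_, rfl⟩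
  rw [← hU₁, ← hV₁] at g3
  rw [← hU₁, ← hV₁]
  clear hU₁ hV₁ e1 e2 e3 e4 e5 e6 g1 g2 hP hQ hR hZ
  obtain ⟨E, hE⟩ : ∃ E, E = Real.exp 1 := ⟨_, rfl⟩
  have hE0 : 0 < E := by rw [hE]; exact Real.exp_pos 1
  obtain ⟨D, hD⟩ : ∃ D, D = CU * Real.exp CU := ⟨_, rfl⟩
  have hD0 : 0 < D := by rw [hD]; exact mul_pos hCU (Real.exp_pos _)
  rw [← hE, ← hD]
  calc 2 * E * (D * W * L * (U₁ * V₁) + Cm * W * L)
      = 2 * E * ((D * (W * L)) * (U₁ * V₁) + (Cm * (W * L)) * 1) := by ring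
    _ ≤ 2 * E * ((D * (W * L)) * ((16 * P * Q) * (Z * R)) +
        (Cm * (W * L)) * (P * (Q * R))) := by
        apply mul_le_mul_of_nonneg_left _ (by positivity)
        apply add_le_add
        · exact mul_le_mul_of_nonneg_left g3 (by positivity)
        · exact mul_le_mul_of_nonneg_left g4 (by positivity)
    _ = _ := by ring

/-- the kernel integrals, explicit form for the two lines. -/
theorem Close_kbd (Ck h σ X : ℝ) (hCk : 0 < Ck) (h1 : 1 ≤ h * |σ|)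
    (hX : 32 * h * |σ| + σ ^ 2 ≤ X) :
    Ck * Real.exp (32 * h * |σ| + σ ^ 2) * (1 + 1 / (h * |σ|)) ≤ 2 * Ck * Real.exp X := by
  have h2 : 1 / (h * |σ|) ≤ 1 := by
    rw [div_le_one (by linarith)]
    exact h1
  have h3 : 0 ≤ 1 / (h * |σ|) := by
    apply div_nonneg zero_le_one
    linarith
  calc Ck * Real.exp (32 * h * |σ| + σ ^ 2) * (1 + 1 / (h * |σ|))
      ≤ Ck * Real.exp X * 2 := by
        gcongr
        linarith
    _ = _ := by ring

/-- Final numerical combination. -/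
theorem Close_final (c₁ L b Ea Eb Ia Ib Na Nb E1 E2 X Cn Cf Z P W J : ℝ)
    (hEb0 : 0 ≤ Eb) (hE2 : 0 ≤ E2) (hX : 0 ≤ X)
    (hCf : 0 ≤ Cf) (hP : 1 ≤ P) (hWL : 0 ≤ W * L)
    (hIa : Ia ≤ E1) (hIa0 : 0 ≤ Ia) (hIb : Ib ≤ E2 * X)
    (hNa : Na ≤ Cn * W * L * P * E1)
    (hNb : Nb ≤ (36 * Z * (Cf * W * L)) * (E2 * X)) (hNb0 : 0 ≤ Nb) (hNa0 : 0 ≤ Na)
    (hEa : Ea ≤ Real.exp (-c₁ * b)) (hEX : Eb * (X * X) * Z ≤ Real.exp (-c₁ * b))
    (hJ : J ≤ 4 * (Ea * (Ia * Na) + Eb * (Ib * Nb))) :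
    J ≤ 4 * (E1 * (Cn * E1) + E2 * E2 * (36 * Cf)) * P * Real.exp (-c₁ * b) * W * L := by
  have hE1 : 0 ≤ E1 := hIa0.trans hIa
  have h1 : Ia * Na ≤ E1 * (Cn * W * L * P * E1) := mul_le_mul hIa hNa hNa0 hE1
  have h1' : 0 ≤ E1 * (Cn * W * L * P * E1) := le_trans (mul_nonneg hIa0 hNa0) h1
  have h2 : Ea * (Ia * Na) ≤ Real.exp (-c₁ * b) * (E1 * (Cn * W * L * P * E1)) :=
    mul_le_mul hEa h1 (mul_nonneg hIa0 hNa0) (Real.exp_pos _).le
  have h3 : Ib * Nb ≤ (E2 * X) * ((36 * Z * (Cf * W * L)) * (E2 * X)) :=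
    mul_le_mul hIb hNb hNb0 (by positivity)
  have h4 : Eb * (Ib * Nb) ≤ Eb * ((E2 * X) * ((36 * Z * (Cf * W * L)) * (E2 * X))) :=
    mul_le_mul_of_nonneg_left h3 hEb0
  have h5 : Eb * ((E2 * X) * ((36 * Z * (Cf * W * L)) * (E2 * X))) =
      (Eb * (X * X) * Z) * (E2 * E2 * (36 * Cf) * (W * L)) := by ring
  have h6 : (Eb * (X * X) * Z) * (E2 * E2 * (36 * Cf) * (W * L)) ≤
      Real.exp (-c₁ * b) * (E2 * E2 * (36 * Cf) * (W * L)) :=
    mul_le_mul_of_nonneg_right hEX (by positivity)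
  have h7 : Real.exp (-c₁ * b) * (E2 * E2 * (36 * Cf) * (W * L)) ≤
      Real.exp (-c₁ * b) * (E2 * E2 * (36 * Cf) * (W * L)) * P := by
    apply le_mul_of_one_le_right _ hP
    have := (Real.exp_pos (-c₁ * b)).le
    positivity
  calc J ≤ 4 * (Ea * (Ia * Na) + Eb * (Ib * Nb)) := hJ
    _ ≤ 4 * (Real.exp (-c₁ * b) * (E1 * (Cn * W * L * P * E1)) +
        Real.exp (-c₁ * b) * (E2 * E2 * (36 * Cf) * (W * L)) * P) := by
        linarith
    _ = _ := by ring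

/-- PROOF. Fix `t`, `s = 1/2+it`; `interp` for
`G(w') = (Zt (s+w') Mo (s+w') - (s+w'-1))/(s+w'+1) = ((s+w'-1)/(s+w'+1)) (ζ M (s+w') - 1)` on
`1/L ≤ Re w' ≤ 3/2`, at `w' = w`, with `h = 1/h₁`, `h₁ = Re w - 1/L ≥ (b-1)/L`, `lm = c₁ L`,
`c₁ = θ/12`. On both lines `|(s+w'-1)/(s+w'+1)| ≤ 1`; at `w` it is `≥ 1/2` since
`|Im (s+w)| ≥ T/4 ≥ 10`.
Near line (`Re w' = 1/L`): weight `e^{-2 lm h₁} = e^{-2c₁(L Re w - 1)} ≤ e^{-c₁ b}`; `kn_int` with
`h|σ| = 1`; `‖(ζM-1) M(s)‖² ≤ 2‖ζ M M(s)‖² + 2‖M(s)‖²`, integrate over `t` against `gw τ W`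
(`gw ≥ e^{-1}` on the window): `U` with `K = 1`, `w₀ = w₁ = 1/L + i(Im w + y)`, `w₂ = 0` and
`mo_upper`: `≤ C W L (1+L‖w₀‖)^4`, `1+L‖w₀‖ ≤ 2(1+L‖w‖)(1+L|y|)`, `L = h (L h₁) ≤ h L‖w‖`, so
`(1+L|y|)^4 ≤ (1+L‖w‖)^4 (1+h|y|)^4`.
Far line (`Re w' = 3/2`): `|ζM-1| ≤ 6 T^{-θ/2}` (`close_far`), `σ = 3/2 - Re w ≤ 3/2`,
`(∫κ)² ≤ C e^{64·(3/2)/h₁} ≤ C T^{96/(b-1)}`, `e^{2 lm σ} ≤ T^{3c₁} = T^{θ/4}`; with
`b ≥ b₀ = 1 + 800/θ` (`96/(b-1) ≤ θ/8`) the total is `≤ C T^{-θ + θ/4 + θ/8} W L ≤ e^{-c b} W L` for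
`T ≥ T₀(b)`. -/
theorem closeness (θ : ℝ) (hθ0 : 0 < θ) (hθ1 : θ ≤ 1 / 40) : ∃ C c b₀ : ℝ, 0 < C ∧ 0 < c ∧ 2 ≤ b₀ ∧
    ∀ b : ℝ, b₀ ≤ b → ∃ T₀ : ℝ, Real.exp 3200 ≤ T₀ ∧ ∀ T : ℝ, T₀ ≤ T →
    ∀ τ W : ℝ, T ^ (9 / 10 : ℝ) ≤ W → W ≤ T / 4 → T / 2 ≤ τ → τ ≤ 3 * T →
    ∀ w : ℂ, b / Real.log T ≤ w.re → w.re ≤ 1 / 8 → |w.im| ≤ 1 →
    ∫ t in (τ - W)..(τ + W), ‖(riemannZeta (pt w t) * Mo (T ^ θ) (pt w t) - 1) *
      Mo (T ^ θ) (pt 0 t)‖ ^ 2
      ≤ C * (1 + Real.log T * ‖w‖) ^ 8 * Real.exp (-c * b) * W * Real.log T := by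
  obtain ⟨CU, hCU, HU⟩ := U θ hθ0 hθ1
  obtain ⟨TU, hTU, HU⟩ := HU 1 le_rfl
  obtain ⟨Cm, hCm, Tm, hTm, Hm⟩ := mo_upper_right θ hθ0 hθ1
  obtain ⟨Ck, hCk, Hk⟩ := Close_k_int 301
  obtain ⟨Ck8, hCk8, Hk8⟩ := Close_k_int 8
  obtain ⟨E1, hE1⟩ : ∃ E1, E1 = 2 * Ck * Real.exp 33 := ⟨_, rfl⟩
  obtain ⟨E2, hE2⟩ : ∃ E2, E2 = 2 * Ck * Real.exp (9 / 4) := ⟨_, rfl⟩
  obtain ⟨Cn, hCn⟩ : ∃ Cn, Cn = Close_C CU Cm := ⟨_, rfl⟩
  obtain ⟨Cf, hCf⟩ : ∃ Cf, Cf = Real.exp 1 * Cm := ⟨_, rfl⟩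
  have hE1p : 0 < E1 := by rw [hE1]; positivity
  have hE2p : 0 < E2 := by rw [hE2]; positivity
  have hCnp : 0 < Cn := by rw [hCn]; exact Close_C_pos CU Cm hCU hCm
  have hCfp : 0 < Cf := by rw [hCf]; positivity
  have h800 : 0 < 800 / θ := by positivity
  have h800' : 1 ≤ 800 / θ := by
    rw [le_div_iff₀ hθ0]
    linarith
  refine ⟨4 * (E1 * (Cn * E1) + E2 * E2 * (36 * Cf)), θ / 12, 1 + 800 / θ, by positivity,
    by positivity, by linarith only [h800'], fun b hb => ?_⟩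
  refine ⟨max (max (Real.exp 3200) (Real.exp b)) (max (max TU Tm) (Real.exp (1 / θ))),
    (le_max_left _ _).trans (le_max_left _ _), ?_⟩
  intro T hT τ W hW hW4 hτ1 hτ2 w hw1 hw2 hw3
  have hT1 : Real.exp 3200 ≤ T := ((le_max_left _ _).trans (le_max_left _ _)).trans hT
  have hT2 : Real.exp b ≤ T := ((le_max_right _ _).trans (le_max_left _ _)).trans hT
  have hT3 : TU ≤ T := (((le_max_left _ _).trans (le_max_left _ _)).trans (le_max_right _ _)).trans hT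
  have hT4 : Tm ≤ T := (((le_max_right _ _).trans (le_max_left _ _)).trans (le_max_right _ _)).trans hT
  have hT5 : Real.exp (1 / θ) ≤ T := ((le_max_right _ _).trans (le_max_right _ _)).trans hT
  have hTbig : 3201 ≤ T := by
    have := Real.add_one_le_exp (3200 : ℝ)
    linarith only [hT1, this]
  have hT0 : 0 < T := by linarith only [hTbig]
  obtain ⟨L, hL⟩ : ∃ L, L = Real.log T := ⟨_, rfl⟩
  have hL1 : 3200 ≤ L := by
    rw [hL, Real.le_log_iff_exp_le hT0]; exact hT1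
  have hL2 : b ≤ L := by
    rw [hL, Real.le_log_iff_exp_le hT0]; exact hT2
  have hL3 : 1 / θ ≤ L := by
    rw [hL, Real.le_log_iff_exp_le hT0]; exact hT5
  have hL0 : 0 < L := by linarith
  obtain ⟨z₀, hz₀⟩ : ∃ z₀, z₀ = T ^ θ := ⟨_, rfl⟩
  have hz₀' : z₀ = Real.exp (θ * L) := by
    rw [hz₀, Real.rpow_def_of_pos hT0, hL, mul_comm]
  have hz2 : 2 ≤ z₀ := by
    rw [hz₀']
    have h1 : 1 ≤ θ * L := by
      rw [div_le_iff₀ hθ0] at hL3
      linarith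
    have h2 := Real.add_one_le_exp (θ * L)
    linarith only [h1, h2]
  have hz1 : 1 < z₀ := by linarith only [hz2]
  have hWpos : 0 < W := lt_of_lt_of_le (Real.rpow_pos_of_pos hT0 _) hW
  rw [← hL] at hw1
  rw [← hL, ← hz₀]
  -- the parameters
  have hb1 : 1 + 800 / θ ≤ b := hb
  have hb2 : 2 ≤ b := by linarith only [h800', hb]
  have hwre : b ≤ L * w.re := by
    rw [div_le_iff₀ hL0] at hw1
    linarith only [hw1]
  obtain ⟨h₁, hh₁⟩ : ∃ h₁, h₁ = w.re - 1 / L := ⟨_, rfl⟩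
  have hLh₁ : L * h₁ = L * w.re - 1 := by
    rw [hh₁]; field_simp
  have hh₁p : 0 < h₁ := by
    have : 0 < L * h₁ := by rw [hLh₁]; linarith only [h800', hb, hwre]
    exact (mul_pos_iff_of_pos_left hL0).mp this
  have h1L : 0 < 1 / L := by positivity
  have hh₁8 : h₁ ≤ 1 / 8 := by linarith only [hw2, hh₁, h1L]
  obtain ⟨h, hh⟩ : ∃ h, h = 1 / h₁ := ⟨_, rfl⟩
  have hhp : 0 < h := by rw [hh]; positivity
  have hhh₁ : h * h₁ = 1 := by rw [hh]; field_simp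
  have hwa : 1 / L < w.re := by linarith only [hh₁, hh₁p]
  have hwb : w.re < 3 / 2 := by linarith only [hw2]
  have hσa : (1 / L - w.re) ≠ 0 := by linarith only [hh₁, hh₁p]
  have hσb : (3 / 2 - w.re) ≠ 0 := by linarith only [hw2]
  have hσa' : |1 / L - w.re| = h₁ := by
    rw [abs_of_neg (by linarith only [hh₁, hh₁p])]; linarith only [hh₁]
  have hσb' : |3 / 2 - w.re| = 3 / 2 - w.re := abs_of_pos (by linarith only [hw2])
  obtain ⟨ka1, ka2, ka3, ka4, ka5⟩ := Hk h (1 / L - w.re) hhp hσa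
  obtain ⟨kb1, kb2, kb3, kb4, kb5⟩ := Hk h (3 / 2 - w.re) hhp hσb
  have ka8 := (Hk8 h (1 / L - w.re) hhp hσa).2.1
  have kb8 := (Hk8 h (3 / 2 - w.re) hhp hσb).2.1
  have bda : Ck * Real.exp (32 * h * |1 / L - w.re| + (1 / L - w.re) ^ 2) *
      (1 + 1 / (h * |1 / L - w.re|)) ≤ E1 := by
    rw [hE1]
    apply Close_kbd _ _ _ _ hCk
    · rw [hσa', hhh₁]
    · rw [hσa', mul_assoc, hhh₁]
      have : (1 / L - w.re) ^ 2 ≤ 1 := by
        rw [← sq_abs, hσa']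
        exact pow_le_one₀ hh₁p.le (by linarith only [hh₁8])
      linarith only [this]
  obtain ⟨X, hX⟩ : ∃ X, X = Real.exp (48 * L / (b - 1)) := ⟨_, rfl⟩
  have hXp : 0 < X := by rw [hX]; exact Real.exp_pos _
  have hb3 : 0 < b - 1 := by linarith only [hb2]
  have hh48 : h ≤ L / (b - 1) := by
    rw [hh, div_le_div_iff₀ hh₁p hb3]
    linarith only [hLh₁, hwre]
  have bdb : Ck * Real.exp (32 * h * |3 / 2 - w.re| + (3 / 2 - w.re) ^ 2) *
      (1 + 1 / (h * |3 / 2 - w.re|)) ≤ E2 * X := by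
    have e : E2 * X = 2 * Ck * Real.exp (9 / 4 + 48 * L / (b - 1)) := by
      rw [hE2, hX, Real.exp_add]; ring
    rw [e]
    apply Close_kbd _ _ _ _ hCk
    · rw [hσb']
      have h8 : 1 ≤ 3 / 2 - w.re := by linarith only [hw2]
      have h9 : 1 ≤ h := by
        rw [hh, le_div_iff₀ hh₁p]
        linarith only [hh₁8]
      exact one_le_mul_of_one_le_of_one_le h9 h8
    · rw [hσb']
      have hs1 : 0 ≤ w.re := by linarith only [hwa, h1L]
      have hs2 : 0 ≤ 3 / 2 - w.re := by linarith only [hw2]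
      have hs3 : 3 / 2 - w.re ≤ 3 / 2 := by linarith only [hs1]
      have h10 : (3 / 2 - w.re) ^ 2 ≤ 9 / 4 :=
        (pow_le_pow_left₀ hs2 hs3 2).trans_eq (by norm_num)
      have h11 : 32 * h * (3 / 2 - w.re) ≤ 48 * L / (b - 1) := by
        calc 32 * h * (3 / 2 - w.re) ≤ 32 * h * (3 / 2) :=
              mul_le_mul_of_nonneg_left hs3 (by positivity)
          _ = 48 * h := by ring
          _ ≤ 48 * (L / (b - 1)) := by linarith only [hh48]
          _ = _ := by ring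
      linarith only [h10, h11]
  -- mean squares
  obtain ⟨im, Im⟩ := Hm T hT4 τ W hW 0 (by simp)
  rw [← hL] at Im
  rw [← hz₀] at im Im
  have mw := Close_mwin z₀ τ W (Cm * W * L) hWpos im Im
  -- near line
  have hmc := Close_m_cont z₀
  have hwn : h₁ ≤ ‖w‖ := by
    have := Complex.re_le_norm w
    linarith only [this, hh₁, h1L]
  have hbn : ∀ y : ℝ, ∫ t in Ioc (τ - W) (τ + W), ‖Mo z₀ (pt 0 t)‖ ^ 2 *
      Close_g z₀ (1 / L) w (t + y) ≤
      Cn * W * L * (1 + L * ‖w‖) ^ 8 * ((1 + h * |y|) ^ 30 * (1 + |y|) ^ 301) := by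
    intro y
    obtain ⟨w₀, hw₀⟩ : ∃ w₀ : ℂ, w₀ = ((1 / L : ℝ) : ℂ) + (w.im + y) * I := ⟨_, rfl⟩
    have hw₀re : w₀.re = 1 / L := by rw [hw₀]; simp
    have hw₀re' : |w₀.re| ≤ 1 / Real.log T := by
      rw [hw₀re, ← hL, abs_of_pos h1L]
    obtain ⟨iU, IU⟩ := HU T hT3 τ W hW (by linarith only [hW4, hT0]) w₀ w₀ 0 hw₀re' hw₀re'
      (by rw [← hL]; simpa using h1L.le)
    rw [← hL] at IU
    rw [← hz₀] at iU IU
    rw [hw₀] at iU
    have h2 := Close_nearwin z₀ τ W (Cm * W * L) (CU * Real.exp (CU * 1) * W * L *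
      ((1 + L * ‖w₀ - w₀‖) ^ 4 * (1 + L * ‖w₀ - 0‖) ^ 4) * (1 + |τ + w₀.im| / T) ^ 301)
      (1 / L) y w hWpos h1L.le (by rw [div_lt_div_iff₀ hL0 (by norm_num)]; linarith only [hL1]) im Im
      iU (by rw [← hw₀]; exact IU)
    refine h2.trans ?_
    rw [hCn]
    exact Close_size CU Cm L T τ h h₁ y w w₀ W hCU hCm hL0 (by linarith only [hTbig]) hWpos.le
      (by linarith only [hτ1, hT0])
      hτ2 hhp hhh₁ hwn hw3 hw₀
  obtain ⟨Aa, hAa⟩ := Close_g_growth z₀ (1 / L) w hz1 h1L.le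
    (by rw [div_le_div_iff₀ hL0 (by norm_num)]; linarith only [hL1])
  obtain ⟨Ab, hAb⟩ := Close_g_growth z₀ (3 / 2) w hz1 (by norm_num) le_rfl
  obtain ⟨Tni, Tn⟩ := Close_tonelli (Close_k h (1 / L - w.re)) (Close_g z₀ (1 / L) w)
    (fun t : ℝ => ‖Mo z₀ (pt 0 t)‖ ^ 2) (τ - W) (τ + W) Aa 8 (Close_k_nonneg _ _)
    (Close_k_cont _ _ hσa) ka8 (Close_g_cont z₀ _ w h1L.le)
    (fun v => by unfold Close_g; positivity) hAa hmc (fun t => by positivity)
    (fun y => Cn * W * L * (1 + L * ‖w‖) ^ 8 * ((1 + h * |y|) ^ 30 * (1 + |y|) ^ 301)) hbn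
    (by
      have := ka1.const_mul (Cn * W * L * (1 + L * ‖w‖) ^ 8)
      refine this.congr (Filter.Eventually.of_forall fun y => ?_)
      simp only
      rw [mul_left_comm])
  obtain ⟨Tfi, Tf⟩ := Close_tonelli (Close_k h (3 / 2 - w.re)) (Close_g z₀ (3 / 2) w)
    (fun t : ℝ => ‖Mo z₀ (pt 0 t)‖ ^ 2) (τ - W) (τ + W) Ab 8 (Close_k_nonneg _ _)
    (Close_k_cont _ _ hσb) kb8 (Close_g_cont z₀ _ w (by norm_num))
    (fun v => by unfold Close_g; positivity) hAb hmc (fun t => by positivity)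
    (fun _ => 36 * z₀⁻¹ * (Cf * W * L))
    (fun y => Close_farwin z₀ τ W _ y w hz2 (mw.trans_eq (by rw [hCf]; ring)))
    (kb3.mul_const _)
  have hNa : ∫ t in Ioc (τ - W) (τ + W), ‖Mo z₀ (pt 0 t)‖ ^ 2 *
      ∫ y, Close_k h (1 / L - w.re) y * Close_g z₀ (1 / L) w (t + y) ≤
      Cn * W * L * (1 + L * ‖w‖) ^ 8 * E1 := by
    refine Tn.trans ?_
    have e : (fun y : ℝ => Close_k h (1 / L - w.re) y *
        (Cn * W * L * (1 + L * ‖w‖) ^ 8 * ((1 + h * |y|) ^ 30 * (1 + |y|) ^ 301))) =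
        fun y : ℝ => (Cn * W * L * (1 + L * ‖w‖) ^ 8) * (Close_k h (1 / L - w.re) y *
        ((1 + h * |y|) ^ 30 * (1 + |y|) ^ 301)) := by
      funext y
      rw [mul_left_comm]
    rw [e, integral_const_mul]
    apply mul_le_mul_of_nonneg_left (ka4.trans bda)
    positivity
  have hNb : ∫ t in Ioc (τ - W) (τ + W), ‖Mo z₀ (pt 0 t)‖ ^ 2 *
      ∫ y, Close_k h (3 / 2 - w.re) y * Close_g z₀ (3 / 2) w (t + y) ≤
      (36 * z₀⁻¹ * (Cf * W * L)) * (E2 * X) := by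
    refine Tf.trans ?_
    rw [integral_mul_const, mul_comm]
    apply mul_le_mul_of_nonneg_left (kb5.trans bdb)
    have : 0 < z₀ := by linarith only [hz2]
    positivity
  have hNa0 : 0 ≤ ∫ t in Ioc (τ - W) (τ + W), ‖Mo z₀ (pt 0 t)‖ ^ 2 *
      ∫ y, Close_k h (1 / L - w.re) y * Close_g z₀ (1 / L) w (t + y) := by
    apply integral_nonneg
    intro t
    apply mul_nonneg (by positivity)
    apply integral_nonneg
    intro y
    apply mul_nonneg (Close_k_nonneg _ _ _)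
    unfold Close_g
    positivity
  have hNb0 : 0 ≤ ∫ t in Ioc (τ - W) (τ + W), ‖Mo z₀ (pt 0 t)‖ ^ 2 *
      ∫ y, Close_k h (3 / 2 - w.re) y * Close_g z₀ (3 / 2) w (t + y) := by
    apply integral_nonneg
    intro t
    apply mul_nonneg (by positivity)
    apply integral_nonneg
    intro y
    apply mul_nonneg (Close_k_nonneg _ _ _)
    unfold Close_g
    positivity
  have hIa0 : 0 ≤ ∫ y, Close_k h (1 / L - w.re) y :=
    integral_nonneg fun y => Close_k_nonneg _ _ _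
  have hIb0 : 0 ≤ ∫ y, Close_k h (3 / 2 - w.re) y :=
    integral_nonneg fun y => Close_k_nonneg _ _ _
  obtain ⟨Ea, hEa⟩ : ∃ Ea, Ea = Real.exp (-2 * (θ / 12 * L) * (w.re - 1 / L)) := ⟨_, rfl⟩
  obtain ⟨Eb, hEb⟩ : ∃ Eb, Eb = Real.exp (2 * (θ / 12 * L) * (3 / 2 - w.re)) := ⟨_, rfl⟩
  have hEa' : Ea ≤ Real.exp (-(θ / 12) * b) := by
    rw [hEa, Real.exp_le_exp]
    have e : -2 * (θ / 12 * L) * (w.re - 1 / L) = -(θ / 12) * (2 * (L * w.re - 1)) := by
      field_simp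
    rw [e]
    have h1 : b ≤ 2 * (L * w.re - 1) := by linarith only [hwre, hb2]
    exact mul_le_mul_of_nonpos_left h1 (by linarith only [hθ0])
  have hEX : Eb * (X * X) * z₀⁻¹ ≤ Real.exp (-(θ / 12) * b) := by
    rw [hEb, hX, hz₀', ← Real.exp_neg, ← Real.exp_add, ← Real.exp_add, ← Real.exp_add,
      Real.exp_le_exp]
    have hw0 : 0 ≤ w.re := by linarith only [hwa, h1L]
    have h1 : 2 * (θ / 12 * L) * (3 / 2 - w.re) ≤ θ * L / 4 := by
      calc 2 * (θ / 12 * L) * (3 / 2 - w.re) = (θ * L / 6) * (3 / 2 - w.re) := by ring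
        _ ≤ (θ * L / 6) * (3 / 2) :=
          mul_le_mul_of_nonneg_left (by linarith only [hw0]) (by positivity)
        _ = _ := by ring
    have h2 : 48 * L / (b - 1) ≤ 48 * L * θ / 800 := by
      rw [div_le_div_iff₀ hb3 (by norm_num)]
      have h3 : 800 ≤ θ * (b - 1) := by
        have : 800 / θ ≤ b - 1 := by linarith only [hb1]
        rw [div_le_iff₀ hθ0] at this
        linarith only [this]
      calc 48 * L * 800 ≤ 48 * L * (θ * (b - 1)) :=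
            mul_le_mul_of_nonneg_left h3 (by positivity)
        _ = _ := by ring
    have h3 : θ * b ≤ θ * L := mul_le_mul_of_nonneg_left hL2 hθ0.le
    have h4 : 0 ≤ θ * L := by positivity
    linarith only [h1, h2, h3, h4]
  have hp1 : 1 ≤ (1 + L * ‖w‖) ^ 8 := by
    apply one_le_pow₀
    have : 0 ≤ L * ‖w‖ := by positivity
    linarith only [this]
  rw [intervalIntegral.integral_of_le (by linarith only [hWpos])]
  apply Close_final (θ / 12) L b Ea Eb _ _ _ _ E1 E2 X Cn Cf z₀⁻¹ _ W _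
    (by rw [hEb]; positivity) hE2p.le hXp.le hCfp.le
    hp1 (by positivity) (ka5.trans bda) hIa0 (kb5.trans bdb) hNa hNb
    hNb0 hNa0 hEa' hEX
  -- the pointwise comparison
  calc ∫ t in Ioc (τ - W) (τ + W), ‖(riemannZeta (pt w t) * Mo z₀ (pt w t) - 1) *
      Mo z₀ (pt 0 t)‖ ^ 2
      ≤ ∫ t in Ioc (τ - W) (τ + W), 4 * (Ea * ((∫ y, Close_k h (1 / L - w.re) y) *
        (‖Mo z₀ (pt 0 t)‖ ^ 2 *
          ∫ y, Close_k h (1 / L - w.re) y * Close_g z₀ (1 / L) w (t + y))) +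
        Eb * ((∫ y, Close_k h (3 / 2 - w.re) y) * (‖Mo z₀ (pt 0 t)‖ ^ 2 *
          ∫ y, Close_k h (3 / 2 - w.re) y * Close_g z₀ (3 / 2) w (t + y)))) := by
        apply integral_mono_of_nonneg
        · refine Filter.Eventually.of_forall fun t => ?_
          simp only [Pi.zero_apply]
          positivity
        · exact (((Tni.const_mul _).const_mul _).add ((Tfi.const_mul _).const_mul _)).const_mul _
        · apply ae_restrict_of_forall_mem measurableSet_Ioc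
          intro t ht
          have him : 10 ≤ |(pt w t).im| := by
            have e : (pt w t).im = w.im + t := by unfold pt; simp
            rw [e]
            have h1 := (abs_le.mp hw3).1
            have h2 := ht.1
            have h3 : 10 ≤ w.im + t := by linarith only [h1, h2, hτ1, hW4, hTbig]
            exact h3.trans (le_abs_self _)
          have h1 := Close_G_lower z₀ (pt w t) him
          have h2 := Close_point z₀ hz1 (1 / L) (3 / 2) h1L.le le_rfl h (θ / 12 * L) hhp w hwa hwb t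
          rw [← hEa, ← hEb] at h2
          obtain ⟨q, hq⟩ : ∃ q, q = ‖Mo z₀ (pt 0 t)‖ ^ 2 := ⟨_, rfl⟩
          have hq0 : 0 ≤ q := by rw [hq]; positivity
          simp only
          rw [norm_mul, mul_pow, ← hq]
          have h3 : ‖riemannZeta (pt w t) * Mo z₀ (pt w t) - 1‖ ^ 2 ≤
              4 * ‖Close_G z₀ (pt w t)‖ ^ 2 := by
            calc ‖riemannZeta (pt w t) * Mo z₀ (pt w t) - 1‖ ^ 2
                ≤ (2 * ‖Close_G z₀ (pt w t)‖) ^ 2 := pow_le_pow_left₀ (norm_nonneg _) h1 2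
              _ = _ := by ring
          have h4 := mul_le_mul_of_nonneg_right
            (h3.trans (mul_le_mul_of_nonneg_left h2 (by norm_num : (0 : ℝ) ≤ 4))) hq0
          refine h4.trans (le_of_eq ?_)
          ring
    _ = _ := by
        rw [integral_const_mul, integral_add ((Tni.const_mul _).const_mul _)
          ((Tfi.const_mul _).const_mul _), integral_const_mul, integral_const_mul,
          integral_const_mul, integral_const_mul]

end Pool.Agent.H14.CO
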