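import Pool.Agent.H14.CO.CoreOut

/-!
# CO: Cauchy–Schwarz on the window and splitting of the pairing integral
-/

set_option autoImplicit false

namespace Pool.Agent.H14.CO

open Set MeasureTheory Complex Pool.Agent.H95.GC

theorem cs_sq {α : Type*} [MeasurableSpace α] (μ : Measure α) (f k : α → ℝ)
    (hf : Integrable (fun x => f x ^ 2) μ) (hk : Integrable (fun x => k x ^ 2) μ)
    (hfk : Integrable (fun x => f x * k x) μ) :
    (∫ x, f x * k x ∂μ) ^ 2 ≤ (∫ x, f x ^ 2 ∂μ) * ∫ x, k x ^ 2 ∂μ := by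
  set P := ∫ x, f x ^ 2 ∂μ
  set Q := ∫ x, k x ^ 2 ∂μ
  set R := ∫ x, f x * k x ∂μ
  have h : ∀ x : ℝ, 0 ≤ P * (x * x) + (-2 * R) * x + Q := by
    intro x
    have h1 : ∫ a, (x * f a - k a) ^ 2 ∂μ = P * (x * x) + (-2 * R) * x + Q := by
      have h2 : ∀ a, (x * f a - k a) ^ 2 = x ^ 2 * f a ^ 2 + (-2 * x) * (f a * k a) + k a ^ 2 := by
        intro a; ring
      simp_rw [h2]
      have i12 : Integrable (fun a => x ^ 2 * f a ^ 2 + (-2 * x) * (f a * k a)) μ :=
        (hf.const_mul _).add (hfk.const_mul _)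
      rw [integral_add i12 hk,
        integral_add (hf.const_mul _) (hfk.const_mul _), integral_const_mul, integral_const_mul]
      ring
    rw [← h1]
    exact integral_nonneg fun a => sq_nonneg _
  have h3 := discrim_le_zero h
  rw [discrim] at h3
  nlinarith

theorem continuous_Ft (z₀ h ν : ℝ) (hh : 0 < h) (n₀ : ℕ) (t : ℕ → ℝ) (ρ : ℕ → ℂ)
    (hρ : ∀ i < n₀, riemannZeta (ρ i) = 0 ∧ 1 / 2 ≤ (ρ i).re ∧ (ρ i).re < 1) :
    Continuous (Ft z₀ h ν n₀ t ρ) := by
  unfold Ft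
  refine continuous_finsetSum _ fun i hi => ?_
  obtain ⟨h1, h2, h3⟩ := hρ i (Finset.mem_range.1 hi)
  have h4 : Continuous (Am z₀ h ν (pt 0 (t i)) (ρ i)) :=
    continuous_iff_continuousAt.2 fun u => (hasDerivAt_Am _ _ _ hh _ _ h1 h2 h3 u).continuousAt
  have h5 : Continuous fun u : ℝ => Complex.exp (-ρ i * u) := by fun_prop
  exact continuous_const.mul (h5.mul h4)

/-- bounded measurable on a bounded interval -/
theorem integrableOn_bdd (f : ℝ → ℝ) (hf : Measurable f) (a b C : ℝ)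
    (hC : ∀ u ∈ Ioc a b, |f u| ≤ C) : IntegrableOn f (Ioc a b) := by
  refine Measure.integrableOn_of_bounded (M := C) (by rw [Real.volume_Ioc]; exact ENNReal.ofReal_ne_top)
    hf.aestronglyMeasurable ?_
  exact (ae_restrict_iff' measurableSet_Ioc).2 (Filter.Eventually.of_forall fun u hu => hC u hu)

theorem mid_part (δ n n' : ℝ) (hδ0 : 0 < δ) (hδ1 : δ ≤ 1) (hn : n ≤ n') (F : ℝ → ℂ)
    (hF : Continuous F) :
    ‖∫ u in Ioc n n', (g δ u : ℂ) * F u‖ ^ 2 ≤
      (∫ u in n..n', g δ u ^ 2 * Real.exp (-u)) * ∫ u in n..n', ‖F u‖ ^ 2 * Real.exp u := by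
  rw [intervalIntegral.integral_of_le hn, intervalIntegral.integral_of_le hn]
  set μ := (volume.restrict (Ioc n n'))
  set f : ℝ → ℝ := fun u => |g δ u| * Real.exp (-u / 2) with hf
  set k : ℝ → ℝ := fun u => ‖F u‖ * Real.exp (u / 2) with hk
  have hgm := measurable_g δ
  have hgb : ∀ u ∈ Ioc n n', |g δ u| ≤ Real.exp n' + 1 := fun u hu =>
    (abs_g_le δ u hδ0 hδ1).trans (by linarith [Real.exp_le_exp.2 hu.2])
  obtain ⟨M, hM⟩ := (isCompact_Icc (a := n) (b := n')).exists_bound_of_continuousOn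
    (f := fun u => (F u)) hF.continuousOn
  have hfm : Measurable f := by
    have : Measurable fun u => |g δ u| := hgm.abs
    exact this.mul (by fun_prop)
  have hkm : Measurable k := (by fun_prop : Continuous k).measurable
  have hexp : ∀ u ∈ Ioc n n', Real.exp (-u / 2) ≤ Real.exp (-n / 2) := fun u hu =>
    Real.exp_le_exp.2 (by linarith [hu.1])
  have hexp' : ∀ u ∈ Ioc n n', Real.exp (u / 2) ≤ Real.exp (n' / 2) := fun u hu =>
    Real.exp_le_exp.2 (by linarith [hu.2])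
  have hfb : ∀ u ∈ Ioc n n', |f u| ≤ (Real.exp n' + 1) * Real.exp (-n / 2) := by
    intro u hu
    rw [hf]; simp only
    rw [abs_of_nonneg (by positivity)]
    exact mul_le_mul (hgb u hu) (hexp u hu) (Real.exp_pos _).le (by positivity)
  have hkb : ∀ u ∈ Ioc n n', |k u| ≤ |M| * Real.exp (n' / 2) := by
    intro u hu
    rw [hk]; simp only
    rw [abs_of_nonneg (by positivity)]
    exact mul_le_mul ((hM u ⟨hu.1.le, hu.2⟩).trans (le_abs_self M)) (hexp' u hu)
      (Real.exp_pos _).le (abs_nonneg _)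
  have i1 : Integrable (fun u => f u ^ 2) μ := by
    refine integrableOn_bdd _ (hfm.pow_const 2) n n' (((Real.exp n' + 1) * Real.exp (-n / 2)) ^ 2) ?_
    intro u hu
    rw [abs_pow]
    exact pow_le_pow_left₀ (abs_nonneg _) (hfb u hu) 2
  have i2 : Integrable (fun u => k u ^ 2) μ := by
    refine integrableOn_bdd _ (hkm.pow_const 2) n n' ((|M| * Real.exp (n' / 2)) ^ 2) ?_
    intro u hu
    rw [abs_pow]
    exact pow_le_pow_left₀ (abs_nonneg _) (hkb u hu) 2
  have i3 : Integrable (fun u => f u * k u) μ := by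
    refine integrableOn_bdd (fun u => f u * k u) (hfm.mul hkm) n n'
      (((Real.exp n' + 1) * Real.exp (-n / 2)) * (|M| * Real.exp (n' / 2))) ?_
    intro u hu
    rw [abs_mul]
    exact mul_le_mul (hfb u hu) (hkb u hu) (abs_nonneg _) (by positivity)
  have hcs := cs_sq μ f k i1 i2 i3
  have e1 : ∀ u, f u ^ 2 = g δ u ^ 2 * Real.exp (-u) := by
    intro u
    rw [hf]; simp only
    rw [mul_pow, sq_abs, ← Real.exp_nat_mul]
    congr 2; push_cast; ring
  have e2 : ∀ u, k u ^ 2 = ‖F u‖ ^ 2 * Real.exp u := by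
    intro u
    rw [hk]; simp only
    rw [mul_pow, ← Real.exp_nat_mul]
    congr 2; push_cast; ring
  have e3 : ∀ u, ‖(g δ u : ℂ) * F u‖ = f u * k u := by
    intro u
    rw [hf, hk]; simp only
    rw [norm_mul, Complex.norm_real, Real.norm_eq_abs]
    have : Real.exp (-u / 2) * Real.exp (u / 2) = 1 := by
      rw [← Real.exp_add, ← Real.exp_zero]; congr 1; ring
    linear_combination (-(|g δ u| * ‖F u‖)) * this
  simp_rw [e1, e2] at hcs
  have h4 : ‖∫ u in Ioc n n', (g δ u : ℂ) * F u‖ ≤ ∫ u, f u * k u ∂μ := by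
    refine (norm_integral_le_integral_norm _).trans (le_of_eq ?_)
    exact integral_congr_ae (Filter.Eventually.of_forall fun u => e3 u)
  exact (pow_le_pow_left₀ (norm_nonneg _) h4 2).trans hcs

/-- splitting of the pairing integral -/
theorem split_int (δ n n' : ℝ) (hδ0 : 0 < δ) (hδ1 : δ ≤ 1) (hn : 0 ≤ n) (hnn : n ≤ n') (F : ℝ → ℂ)
    (hF : Integrable (fun u : ℝ => (g δ u : ℂ) * F u)) :
    ∫ u : ℝ, (g δ u : ℂ) * F u = (∫ u in Ioc (-1 : ℝ) n, (g δ u : ℂ) * F u) +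
      (∫ u in Ioc n n', (g δ u : ℂ) * F u) + ∫ u in Ioi n', (g δ u : ℂ) * F u := by
  set G : ℝ → ℂ := fun u => (g δ u : ℂ) * F u with hG
  have h0 : ∫ u in Iic (-1 : ℝ), G u = 0 := by
    rw [setIntegral_eq_zero_of_forall_eq_zero]
    intro u hu
    simp only [hG]
    rw [g_eq_zero δ u hδ0 hδ1 hu]; simp
  have h1 : ∫ u : ℝ, G u = (∫ u in Iic (-1 : ℝ), G u) + ∫ u in Ioi (-1 : ℝ), G u :=
    (intervalIntegral.integral_Iic_add_Ioi hF.integrableOn hF.integrableOn).symm
  have h2 : ∫ u in Ioi (-1 : ℝ), G u = (∫ u in Ioc (-1 : ℝ) n, G u) + ∫ u in Ioi n, G u := by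
    rw [← Ioc_union_Ioi_eq_Ioi (show (-1 : ℝ) ≤ n by linarith)]
    exact setIntegral_union (Ioc_disjoint_Ioi le_rfl) measurableSet_Ioi hF.integrableOn hF.integrableOn
  have h3 : ∫ u in Ioi n, G u = (∫ u in Ioc n n', G u) + ∫ u in Ioi n', G u := by
    rw [← Ioc_union_Ioi_eq_Ioi hnn]
    exact setIntegral_union (Ioc_disjoint_Ioi le_rfl) measurableSet_Ioi hF.integrableOn hF.integrableOn
  rw [h1, h0, h2, h3]
  ring

end Pool.Agent.H14.CO
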