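import Pool.Agent.H14.CO.Zeros
import Pool.Agent.H14.CO.CoreCS

/-!
# CO module Core2: the lower bound of constant order
-/

set_option autoImplicit false

namespace Pool.Agent.H14.CO

open Set MeasureTheory Complex Pool.Agent.H95.GC

theorem core2 (κ : ℝ) (hκ0 : 0 < κ) (hκ1 : κ ≤ 1) : ∃ c : ℝ, 0 < c ∧ ∀ A : ℝ, 0 < A →
    ∃ T₀ : ℝ, 1 ≤ T₀ ∧ ∀ T : ℝ, T₀ ≤ T →
    ∀ n : ℝ, 0 ≤ n → n ≤ A * Real.log T → ∀ δ : ℝ, 1 / (40 * T) ≤ δ → δ ≤ 1 / (20 * T) →
    c * Real.log T / T ≤ ∫ u in n..(n + (1 + κ) * Real.log T),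
      (M (Real.exp u) (δ * Real.exp u)) ^ 2 * Real.exp (-u) := by
  set θ : ℝ := κ / 40 with hθ
  have hθ0 : 0 < θ := by positivity
  have hθ1 : θ ≤ 1 / 40 := by rw [hθ]; linarith
  obtain ⟨G, c₁, C₁, hG, hc₁, hC₁, T₁, hT₁e, hzer⟩ := zeros_global θ hθ0 hθ1
  obtain ⟨C₂, hC₂, T₂, hT₂e, hen⟩ := energy θ κ C₁ G hθ0 hθ1 hκ0 hκ1 hC₁ hG
  refine ⟨c₁ ^ 2 / (320 ^ 2 * C₂), by positivity, ?_⟩
  intro A hA
  set B : ℝ := 8 / κ * (A + 60) with hBdef
  have hBκ : B * κ = 8 * (A + 60) := by rw [hBdef]; field_simp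
  have hB480 : 480 ≤ B := by
    rw [hBdef, div_mul_eq_mul_div, le_div_iff₀ hκ0]
    linarith only [hκ1, hA]
  have hB1 : 1 ≤ B := by linarith
  obtain ⟨Cp, hCp, hpair⟩ := pair_one B hB1
  obtain ⟨Cl, hCl, hleft⟩ := az_left B hB1
  obtain ⟨Cr, hCr, hright⟩ := az_right B hB1
  set D : ℝ := 4 * Cp + 24 * (Cl * 4 ^ (B + 3)) * (A + 1) + 6144 * Cr with hD
  have hD0 : 0 < D := by positivity
  refine ⟨max (max T₁ T₂) (max (max (Real.exp (4 * G)) (Real.exp (256 / κ))) (max 100 (320 * D / c₁))),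
    le_max_of_le_right (le_max_of_le_right (le_max_of_le_left (by norm_num))), ?_⟩
  intro T hT n hn hnA δ hδ1 hδ2
  have hTa : T₁ ≤ T := (le_max_left _ _).trans ((le_max_left _ _).trans hT)
  have hTb : T₂ ≤ T := (le_max_right _ _).trans ((le_max_left _ _).trans hT)
  have hTc : Real.exp (4 * G) ≤ T :=
    (le_max_left _ _).trans ((le_max_left _ _).trans ((le_max_right _ _).trans hT))
  have hTd : Real.exp (256 / κ) ≤ T :=
    (le_max_right _ _).trans ((le_max_left _ _).trans ((le_max_right _ _).trans hT))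
  have hTe : 100 ≤ T := (le_max_left _ _).trans ((le_max_right _ _).trans ((le_max_right _ _).trans hT))
  have hTf : 320 * D / c₁ ≤ T :=
    (le_max_right _ _).trans ((le_max_right _ _).trans ((le_max_right _ _).trans hT))
  have hT0 : 0 < T := by linarith
  have hT1 : 1 < T := by linarith
  set L := Real.log T with hL
  have hexpL : Real.exp L = T := Real.exp_log hT0
  have hLG : 4 * G ≤ L := by rw [hL, Real.le_log_iff_exp_le hT0]; exact hTc
  have hLκ : 256 / κ ≤ L := by rw [hL, Real.le_log_iff_exp_le hT0]; exact hTd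
  have hL1 : 1 ≤ L := by linarith only [hG, hLG]
  have hLT : L ≤ T := by
    have := Real.log_le_sub_one_of_pos hT0
    linarith
  set h := κ * L / 256 with hh
  have hh1 : 1 ≤ h := by
    rw [div_le_iff₀ hκ0] at hLκ
    rw [hh, le_div_iff₀ (by norm_num)]; linarith
  have hhpos : 0 < h := by linarith
  set z₀ := T ^ θ with hz₀
  have hz1 : 1 < z₀ := Real.one_lt_rpow hT1 hθ0
  have hz0 : 0 < z₀ := by linarith
  have hlogz : Real.log z₀ = κ * L / 40 := by
    rw [hz₀, Real.log_rpow hT0, hθ]; ring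
  have hzk : ∀ k : ℕ, k ≤ 5 → z₀ ^ k ≤ T := by
    intro k hk
    calc z₀ ^ k = Real.exp (k * (κ * L / 40)) := by
          rw [← hlogz, Real.exp_nat_mul, Real.exp_log hz0]
      _ ≤ Real.exp L := by
          apply Real.exp_le_exp.2
          have hk' : (k : ℝ) ≤ 5 := by exact_mod_cast hk
          have hk0 : (0 : ℝ) ≤ k := Nat.cast_nonneg k
          have h1 : κ * L ≤ L := mul_le_of_le_one_left (by linarith only [hL1]) hκ1
          have h2 : 0 ≤ κ * L := by positivity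
          have h3 := mul_le_mul_of_nonneg_right hk' h2
          have h4 : (k : ℝ) * (κ * L / 40) = k * (κ * L) / 40 := by ring
          rw [h4]
          linarith only [h1, h3, hL1]
      _ = T := hexpL
  have hδ0 : 0 < δ := lt_of_lt_of_le (by positivity) hδ1
  have hδT : δ ≤ 1 / 2000 := by
    refine hδ2.trans ?_
    rw [div_le_div_iff₀ (by positivity) (by norm_num)]
    linarith only [hTe]
  have hδ1' : δ ≤ 1 := by linarith
  have hδ2' : δ ≤ 1 / 2 := by linarith only [hδT]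
  -- the family
  obtain ⟨n₀, t, ρ, hf1, hf2, hf3, hf4, hf5⟩ := hzer T hTa
  have hFam : Fam θ G C₁ T n₀ t ρ := ⟨hf1, hf2, hf5⟩
  set ν : ℝ := n + L * (1 + 3 * κ / 10) with hν
  set n' : ℝ := n + (1 + κ) * L with hn'
  have hκL : 0 ≤ κ * L := by positivity
  have hnn' : n ≤ n' := by
    have h1 : (1 + κ) * L = L + κ * L := by ring
    rw [hn', h1]; linarith only [hκL, hL1]
  have hn'0 : 0 ≤ n' := hn.trans hnn'
  -- zeros: sizes
  have hρ : ∀ i < n₀, riemannZeta (ρ i) = 0 ∧ 1 / 2 ≤ (ρ i).re ∧ (ρ i).re < 1 ∧ 1 ≤ |(ρ i).im| ∧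
      ‖ρ i‖ ≤ 4 * T := by
    intro i hi
    obtain ⟨a1, a2, a3, a4, a5⟩ := hf1 i hi
    obtain ⟨b1, b2, b3, b4⟩ := hFam.re_lt hLG hG hi
    rw [abs_le] at b4
    refine ⟨a3, a4, b2, ?_, ?_⟩
    · rw [abs_of_nonneg (by linarith only [hTe, a1, b4])]; linarith only [hTe, a1, b4]
    · refine (Complex.norm_le_abs_re_add_abs_im _).trans ?_
      rw [abs_of_nonneg (by linarith only [a4] : (0 : ℝ) ≤ (ρ i).re),
        abs_of_nonneg (by linarith only [hTe, hδT, a1, b4] : (0 : ℝ) ≤ (ρ i).im)]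
      linarith only [hTe, a2, b2, b4]
  have hn₀ : (n₀ : ℝ) ≤ 4 * T ^ 2 := by
    refine hf4.trans ?_
    have h1 := mul_le_mul_of_nonneg_left hLT (show 0 ≤ 4 * T by positivity)
    calc 4 * T * L ≤ 4 * T * T := h1
      _ = 4 * T ^ 2 := by ring
  set e : ℝ := Real.exp (-(A + 60) * L) with he
  have he0 : 0 < e := Real.exp_pos _
  have heA : e * Real.exp (A * L) = 1 / T ^ 60 := by
    rw [he, ← Real.exp_add]
    have : -(A + 60) * L + A * L = -((60 : ℕ) * L) := by push_cast; ring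
    rw [this, Real.exp_neg, Real.exp_nat_mul, hexpL, one_div]
  have heT : e ≤ 1 / T ^ 60 := by
    rw [← heA]
    refine le_mul_of_one_le_right he0.le (Real.one_le_exp (by positivity))
  have hν1 : ν - 2 * Real.log z₀ - 32 * h = n + L * (1 + κ / 8) := by
    rw [hν, hlogz, hh]; ring
  have hν2 : ν - n' + 32 * h = -(23 / 40) * (κ * L) := by
    rw [hν, hn', hh]; ring
  -- the pairing
  set F := Ft z₀ h ν n₀ t ρ with hF
  have hFint : Integrable (fun u : ℝ => (g δ u : ℂ) * F u) ∧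
      ‖(∫ u : ℝ, (g δ u : ℂ) * F u) - ∑ i ∈ Finset.range n₀,
        ((‖Mo z₀ (pt 0 (t i))‖ ^ 2 : ℝ) : ℂ) * Wt δ (ρ i)‖ ≤ 4 * Cp * T ^ 4 * e := by
    have hp : ∀ i ∈ Finset.range n₀, Integrable (fun u : ℝ => (g δ u : ℂ) *
        (Complex.exp (-ρ i * u) * Am z₀ h ν (pt 0 (t i)) (ρ i) u)) ∧
        ‖(∫ u : ℝ, (g δ u : ℂ) * (Complex.exp (-ρ i * u) * Am z₀ h ν (pt 0 (t i)) (ρ i) u)) -
          Mo z₀ (pt 0 (t i)) * Wt δ (ρ i)‖ ≤ Cp * T * e := by
      intro i hi
      obtain ⟨r1, r2, r3, r4, r5⟩ := hρ i (Finset.mem_range.1 hi)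
      obtain ⟨p1, p2⟩ := hpair z₀ h ν δ hz1 hh1 hδ0 hδ2' (pt 0 (t i)) (ρ i)
        (by rw [pt_zero_re]; norm_num) r2 r3 r4
      refine ⟨p1, p2.trans ?_⟩
      have q1 : Real.exp (-B * (ν - 2 * Real.log z₀) + 32 * h * B) ≤ e := by
        apply Real.exp_le_exp.2
        have : -B * (ν - 2 * Real.log z₀) + 32 * h * B =
            -B * (ν - 2 * Real.log z₀ - 32 * h) := by ring
        rw [this, hν1]
        have q2 : B * (n + L * (1 + κ / 8)) = B * n + B * L + B * κ * L / 8 := by ring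
        have q3 : 0 ≤ B * n := by positivity
        have q4 : 0 ≤ B * L := by positivity
        rw [hBκ] at q2
        linarith only [q2, q3, q4]
      calc Cp * z₀ ^ 2 * δ * Real.exp (-B * (ν - 2 * Real.log z₀) + 32 * h * B)
          ≤ Cp * T * 1 * e := by
            have := hzk 2 (by norm_num)
            gcongr
        _ = Cp * T * e := by ring
    have hpt : ∀ u : ℝ, (g δ u : ℂ) * F u = ∑ i ∈ Finset.range n₀,
        (starRingEnd ℂ) (Mo z₀ (pt 0 (t i))) * ((g δ u : ℂ) *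
          (Complex.exp (-ρ i * u) * Am z₀ h ν (pt 0 (t i)) (ρ i) u)) := by
      intro u
      rw [hF, Ft, Finset.mul_sum]
      exact Finset.sum_congr rfl fun i _ => by ring
    have hfun : (fun u : ℝ => (g δ u : ℂ) * F u) = fun u => ∑ i ∈ Finset.range n₀,
        (starRingEnd ℂ) (Mo z₀ (pt 0 (t i))) * ((g δ u : ℂ) *
          (Complex.exp (-ρ i * u) * Am z₀ h ν (pt 0 (t i)) (ρ i) u)) := funext hpt
    constructor
    · rw [hfun]
      exact integrable_finsetSum _ fun i hi => (hp i hi).1.const_mul _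
    · rw [hfun, integral_finsetSum _ fun i hi => (hp i hi).1.const_mul _,
        ← Finset.sum_sub_distrib]
      calc _ ≤ ∑ i ∈ Finset.range n₀, T * (Cp * T * e) := by
            refine (norm_sum_le _ _).trans (Finset.sum_le_sum fun i hi => ?_)
            rw [integral_const_mul]
            have m1 : ((‖Mo z₀ (pt 0 (t i))‖ ^ 2 : ℝ) : ℂ) =
                (starRingEnd ℂ) (Mo z₀ (pt 0 (t i))) * Mo z₀ (pt 0 (t i)) := by
              rw [RCLike.conj_mul]
              push_cast; rfl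
            rw [m1, mul_assoc, ← mul_sub, norm_mul, RCLike.norm_conj]
            have m2 : ‖Mo z₀ (pt 0 (t i))‖ ≤ T := by
              refine (norm_Mo_le z₀ hz1 _).trans ?_
              rw [pt_zero_re, abs_of_pos (by norm_num : (0 : ℝ) < 1 / 2)]
              have := hzk 3 (by norm_num)
              rw [← Real.rpow_natCast] at this
              refine le_trans (le_of_eq ?_) this
              congr 1
              norm_num
            exact mul_le_mul m2 (hp i hi).2 (norm_nonneg _) hT0.le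
        _ = (n₀ : ℝ) * (T * (Cp * T * e)) := by
            rw [Finset.sum_const, nsmul_eq_mul, Finset.card_range]
        _ ≤ 4 * T ^ 2 * (T * (Cp * T * e)) :=
            mul_le_mul_of_nonneg_right hn₀ (by positivity)
        _ = _ := by ring
  obtain ⟨hFi, hFs⟩ := hFint
  -- lower bound of the diagonal
  have hdiag : c₁ * L ^ 2 / 160 ≤ ‖∑ i ∈ Finset.range n₀,
        ((‖Mo z₀ (pt 0 (t i))‖ ^ 2 : ℝ) : ℂ) * Wt δ (ρ i)‖ := by
    refine le_trans ?_ (Complex.re_le_norm _)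
    rw [Complex.re_sum]
    have d1 : ∀ i ∈ Finset.range n₀, ‖Mo z₀ (pt 0 (t i))‖ ^ 2 * (δ / 4) ≤
        (((‖Mo z₀ (pt 0 (t i))‖ ^ 2 : ℝ) : ℂ) * Wt δ (ρ i)).re := by
      intro i hi
      obtain ⟨r1, r2, r3, r4, r5⟩ := hρ i (Finset.mem_range.1 hi)
      rw [Complex.re_ofReal_mul]
      apply mul_le_mul_of_nonneg_left _ (by positivity)
      apply Wt_re δ hδ0 hδ2'
      calc ‖ρ i‖ * δ ≤ (4 * T) * (1 / (20 * T)) := mul_le_mul r5 hδ2 hδ0.le (by positivity)
        _ = 1 / 5 := by field_simp; norm_num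
        _ ≤ 1 / 4 := by norm_num
    refine le_trans ?_ (Finset.sum_le_sum d1)
    rw [← Finset.sum_mul]
    calc c₁ * L ^ 2 / 160 = (c₁ * T * L ^ 2) * (1 / (40 * T) / 4) := by field_simp; norm_num
      _ ≤ (∑ i ∈ Finset.range n₀, ‖Mo z₀ (pt 0 (t i))‖ ^ 2) * (δ / 4) := by
          refine mul_le_mul hf3 (by linarith only [hδ1]) (by positivity) ?_
          exact Finset.sum_nonneg fun i _ => by positivity
  -- left and right parts
  have hlp : ‖∫ u in Ioc (-1 : ℝ) n, (g δ u : ℂ) * F u‖ ≤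
      24 * (Cl * 4 ^ (B + 3)) * (A + 1) * T ^ 7 * (1 / T ^ 60) := by
    have k1 : ∀ i < n₀, ∀ r : ℝ, ν - n - 2 * Real.log z₀ ≤ r →
        ‖az h r (ρ i)‖ ≤ Cl * 4 ^ (B + 3) * T ^ 3 * e := by
      intro i hi r hr
      obtain ⟨r1, r2, r3, r4, r5⟩ := hρ i hi
      refine (hleft h r hh1 (ρ i) r1 r2 r3 r4).trans ?_
      have s1 : ‖ρ i‖ ^ (B + 3) ≤ 4 ^ (B + 3) * (Real.exp (B * L) * T ^ 3) := by
        calc ‖ρ i‖ ^ (B + 3) ≤ (4 * T) ^ (B + 3) :=
              Real.rpow_le_rpow (norm_nonneg _) r5 (by linarith only [hB480])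
          _ = 4 ^ (B + 3) * T ^ (B + 3) := Real.mul_rpow (by norm_num) hT0.le
          _ = _ := by
              congr 1
              rw [Real.rpow_add hT0, Real.rpow_def_of_pos hT0, ← hL, mul_comm L B]
              congr 1
              rw [← Real.rpow_natCast]; norm_num
      have s2 : Real.exp (-B * r + 32 * h * B) ≤ Real.exp (-(B * L)) * e := by
        rw [he, ← Real.exp_add]
        apply Real.exp_le_exp.2
        have s3 : B * (ν - n - 2 * Real.log z₀ - 32 * h) ≤ B * (r - 32 * h) :=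
          mul_le_mul_of_nonneg_left (by linarith only [hr]) (by linarith only [hB480])
        have s4 : ν - n - 2 * Real.log z₀ - 32 * h = L * (1 + κ / 8) := by linarith only [hh, hlogz, hν]
        rw [s4] at s3
        have s5 : B * (L * (1 + κ / 8)) = B * L + B * κ * L / 8 := by ring
        rw [s5, hBκ] at s3
        linarith only [s3]
      calc Cl * ‖ρ i‖ ^ (B + 3) * Real.exp (-B * r + 32 * h * B)
          ≤ Cl * (4 ^ (B + 3) * (Real.exp (B * L) * T ^ 3)) * (Real.exp (-(B * L)) * e) := by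
            gcongr
        _ = Cl * 4 ^ (B + 3) * T ^ 3 * e * (Real.exp (B * L) * Real.exp (-(B * L))) := by ring
        _ = _ := by
            rw [← Real.exp_add, add_neg_cancel, Real.exp_zero, mul_one]
    refine (left_part z₀ h ν δ n _ hz1 hδ0 hδ1' hn n₀ t ρ
      (fun i hi => ⟨(hρ i hi).2.1, (hρ i hi).2.2.1⟩) k1).trans ?_
    have k2 : Real.exp n + 1 ≤ 2 * Real.exp (A * L) := by
      have := Real.exp_le_exp.2 hnA
      have := Real.one_le_exp (show 0 ≤ A * L by positivity)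
      linarith
    have k3 : n + 1 ≤ (A + 1) * T := by
      have h1 : A * L ≤ A * T := mul_le_mul_of_nonneg_left hLT hA.le
      have h2 : (A + 1) * T = A * T + T := by ring
      rw [h2]; linarith only [h1, hnA, hT1]
    have k5 := hzk 5 (by norm_num)
    calc _ ≤ (4 * T ^ 2 * (3 * T * (Cl * 4 ^ (B + 3) * T ^ 3 * e))) * (2 * Real.exp (A * L)) *
          ((A + 1) * T) := by gcongr
      _ = 24 * (Cl * 4 ^ (B + 3)) * (A + 1) * T ^ 7 * (e * Real.exp (A * L)) := by ring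
      _ = _ := by rw [heA]
  have hrp : ‖∫ u in Ioi n', (g δ u : ℂ) * F u‖ ≤ 6144 * Cr * T ^ 9 * (1 / T ^ 60) := by
    have k1 : ∀ i < n₀, ∀ r : ℝ, r ≤ ν - n' →
        ‖az h r (ρ i)‖ ≤ (256 * Cr * T ^ 4 * e) * Real.exp (2 * (r - (ν - n'))) := by
      intro i hi r hr
      obtain ⟨r1, r2, r3, r4, r5⟩ := hρ i hi
      refine (hright h r hh1 (ρ i) r1 r2 r3 r4).trans ?_
      have s1 : ‖ρ i‖ ^ 4 ≤ 256 * T ^ 4 := by
        calc ‖ρ i‖ ^ 4 ≤ (4 * T) ^ 4 := pow_le_pow_left₀ (norm_nonneg _) r5 4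
          _ = _ := by ring
      have s2 : Real.exp (B * r + 32 * h * B) ≤ e * Real.exp (2 * (r - (ν - n'))) := by
        rw [he, ← Real.exp_add]
        apply Real.exp_le_exp.2
        have s3 : B * (r - (ν - n')) ≤ 2 * (r - (ν - n')) :=
          mul_le_mul_of_nonpos_right (by linarith only [hB480]) (by linarith only [hr])
        have s4 : B * r + 32 * h * B = B * (r - (ν - n')) + B * (ν - n' + 32 * h) := by ring
        rw [s4, hν2]
        have s5 : B * (-(23 / 40) * (κ * L)) = -(23 / 40) * (B * κ) * L := by ring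
        rw [s5, hBκ]
        have s6 : 0 ≤ (A + 60) * L := by positivity
        linarith only [hG, hn, hnA, hLG, s3]
      calc Cr * ‖ρ i‖ ^ 4 * Real.exp (B * r + 32 * h * B)
          ≤ Cr * (256 * T ^ 4) * (e * Real.exp (2 * (r - (ν - n')))) := by gcongr
        _ = _ := by ring
    refine (right_part z₀ h ν δ n' _ hz1 hδ0 hδ1' hn'0 n₀ t ρ (by positivity)
      (fun i hi => ⟨(hρ i hi).2.1, (hρ i hi).2.2.1⟩) k1).trans ?_
    have k2 : Real.exp n' ≤ Real.exp (A * L) * T ^ 2 := by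
      have : Real.exp (A * L) * T ^ 2 = Real.exp (A * L + 2 * L) := by
        rw [Real.exp_add]
        congr 1
        calc T ^ 2 = Real.exp L ^ 2 := by rw [hexpL]
          _ = Real.exp (2 * L) := by rw [← Real.exp_nat_mul]; norm_num
      rw [this]
      apply Real.exp_le_exp.2
      have h1 : κ * L ≤ L := mul_le_of_le_one_left (by linarith only [hL1]) hκ1
      have h2 : (1 + κ) * L = L + κ * L := by ring
      rw [hn', h2]
      linarith only [h1, hnA]
    have k5 := hzk 5 (by norm_num)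
    calc _ ≤ (4 * T ^ 2 * (3 * T * (256 * Cr * T ^ 4 * e))) * (2 * (Real.exp (A * L) * T ^ 2)) := by
          gcongr
      _ = 6144 * Cr * T ^ 9 * (e * Real.exp (A * L)) := by ring
      _ = _ := by rw [heA]
  -- total of the small terms
  have hTpow : ∀ k : ℕ, k ≤ 9 → T ^ k * (1 / T ^ 60) ≤ 1 / T := by
    intro k hk
    rw [mul_one_div, div_le_div_iff₀ (by positivity) hT0, one_mul, ← pow_succ]
    exact pow_le_pow_right₀ hT1.le (by omega)
  have hsmall : 4 * Cp * T ^ 4 * e + 24 * (Cl * 4 ^ (B + 3)) * (A + 1) * T ^ 7 * (1 / T ^ 60) +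
      6144 * Cr * T ^ 9 * (1 / T ^ 60) ≤ c₁ * L ^ 2 / 320 := by
    have t1 : 4 * Cp * T ^ 4 * e ≤ 4 * Cp * (1 / T) := by
      calc 4 * Cp * T ^ 4 * e ≤ 4 * Cp * T ^ 4 * (1 / T ^ 60) := by gcongr
        _ = 4 * Cp * (T ^ 4 * (1 / T ^ 60)) := by ring
        _ ≤ _ := mul_le_mul_of_nonneg_left (hTpow 4 (by norm_num)) (by positivity)
    have t2 : 24 * (Cl * 4 ^ (B + 3)) * (A + 1) * T ^ 7 * (1 / T ^ 60) ≤
        24 * (Cl * 4 ^ (B + 3)) * (A + 1) * (1 / T) := by
      calc _ = 24 * (Cl * 4 ^ (B + 3)) * (A + 1) * (T ^ 7 * (1 / T ^ 60)) := by ring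
        _ ≤ _ := mul_le_mul_of_nonneg_left (hTpow 7 (by norm_num)) (by positivity)
    have t3 : 6144 * Cr * T ^ 9 * (1 / T ^ 60) ≤ 6144 * Cr * (1 / T) := by
      calc _ = 6144 * Cr * (T ^ 9 * (1 / T ^ 60)) := by ring
        _ ≤ _ := mul_le_mul_of_nonneg_left (hTpow 9 (by norm_num)) (by positivity)
    have t4 : D * (1 / T) ≤ c₁ / 320 := by
      rw [mul_one_div, div_le_div_iff₀ hT0 (by norm_num)]
      rw [div_le_iff₀ hc₁] at hTf
      linarith only [hTf]
    have t5 : c₁ / 320 ≤ c₁ * L ^ 2 / 320 := by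
      have : (1 : ℝ) ≤ L ^ 2 := one_le_pow₀ hL1
      have := mul_le_mul_of_nonneg_left this hc₁.le
      linarith only [this]
    have t6 : D * (1 / T) = 4 * Cp * (1 / T) + 24 * (Cl * 4 ^ (B + 3)) * (A + 1) * (1 / T) +
        6144 * Cr * (1 / T) := by rw [hD]; ring
    linarith only [t1, t2, t3, t4, t5]
  -- the middle part
  have hmid : c₁ * L ^ 2 / 320 ≤ ‖∫ u in Ioc n n', (g δ u : ℂ) * F u‖ := by
    have hsp := split_int δ n n' hδ0 hδ1' hn hnn' F hFi
    set Sg := ∑ i ∈ Finset.range n₀, ((‖Mo z₀ (pt 0 (t i))‖ ^ 2 : ℝ) : ℂ) * Wt δ (ρ i) with hSg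
    set I1 := ∫ u in Ioc (-1 : ℝ) n, (g δ u : ℂ) * F u
    set I2 := ∫ u in Ioc n n', (g δ u : ℂ) * F u
    set I3 := ∫ u in Ioi n', (g δ u : ℂ) * F u
    set I0 := ∫ u : ℝ, (g δ u : ℂ) * F u
    have u1 : Sg = (Sg - I0) + (I1 + I2 + I3) := by rw [← hsp]; ring
    have u2 : ‖Sg‖ ≤ ‖Sg - I0‖ + (‖I1‖ + ‖I2‖ + ‖I3‖) := by
      calc ‖Sg‖ = ‖(Sg - I0) + (I1 + I2 + I3)‖ := by rw [← u1]
        _ ≤ ‖Sg - I0‖ + ‖I1 + I2 + I3‖ := norm_add_le _ _
        _ ≤ _ := by
            have := norm_add_le (I1 + I2) I3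
            have := norm_add_le I1 I2
            linarith
    rw [norm_sub_rev] at u2
    linarith only [hsmall, hdiag, hlp, hrp, hFs, u2]
  have hm := mid_part δ n n' hδ0 hδ1' hnn' F (continuous_Ft z₀ h ν hhpos n₀ t ρ
    (fun i hi => ⟨(hρ i hi).1, (hρ i hi).2.1, (hρ i hi).2.2.1⟩))
  have hE := hen T hTb n₀ t ρ hFam ν n hn (by
    have h1 : κ * L ≤ L := mul_le_of_le_one_left (by linarith only [hL1]) hκ1
    have h2 : L * (1 + 3 * κ / 10) = L + 3 / 10 * (κ * L) := by ring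
    rw [hν, h2]
    linarith only [h1, hL1])
  set I := ∫ u in n..n', g δ u ^ 2 * Real.exp (-u) with hI
  have hI0 : 0 ≤ I := intervalIntegral.integral_nonneg hnn' fun u _ => by positivity
  have hfin : (c₁ * L ^ 2 / 320) ^ 2 ≤ I * (C₂ * T * L ^ 3) :=
    (pow_le_pow_left₀ (by positivity) hmid 2).trans (hm.trans (mul_le_mul_of_nonneg_left hE hI0))
  show c₁ ^ 2 / (320 ^ 2 * C₂) * L / T ≤ I
  have hL0 : 0 < L := by linarith only [hG, hLG]
  have hP : 0 < C₂ * T * L ^ 3 := by positivity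
  have hfin2 : (c₁ * L ^ 2 / 320) ^ 2 / (C₂ * T * L ^ 3) ≤ I := by
    rw [div_le_iff₀ hP]; exact hfin
  refine le_trans (le_of_eq ?_) hfin2
  field_simp

end Pool.Agent.H14.CO
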