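import Pool.Agent.H14.CO.Az
import Pool.Agent.H14.CO.Interp

/-!
# CO module EnBound: square sums of the truncated mollified sums
-/

set_option autoImplicit false

namespace Pool.Agent.H14.CO

open Set MeasureTheory Complex

theorem EnBound_sum (n : ℕ) (w : ℕ → ℝ) (hw : ∀ i < n, 0 ≤ w i) (f : ℕ → ℝ → ℝ)
    (hf0 : ∀ i y, 0 ≤ f i y) (hfm : ∀ i, Measurable (f i)) (a : ℕ → ℂ) (k g : ℝ → ℝ)
    (hk0 : ∀ y, 0 ≤ k y) (hk : Integrable k) (D c : ℝ) (hc : 0 ≤ c)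
    (hg : Integrable (fun y => k y * g y))
    (hS : ∀ y, ∑ i ∈ Finset.range n, w i * f i y ^ 2 ≤ D * g y)
    (ha : ∀ i < n, 0 < w i → Integrable (fun y => k y * f i y) →
      ‖a i‖ ≤ c * ∫ y, k y * f i y) :
    ∑ i ∈ Finset.range n, w i * ‖a i‖ ^ 2 ≤ c ^ 2 * (∫ y, k y) * (D * ∫ y, k y * g y) := by
  have hI0 : 0 ≤ ∫ y, k y := integral_nonneg hk0
  have hone : ∀ i < n, ∀ y, w i * f i y ^ 2 ≤ D * g y := by
    intro i hi y
    refine le_trans ?_ (hS y)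
    exact Finset.single_le_sum (f := fun i => w i * f i y ^ 2)
      (fun j hj => mul_nonneg (hw j (Finset.mem_range.1 hj)) (sq_nonneg _)) (Finset.mem_range.2 hi)
  have hi2 : ∀ i < n, Integrable (fun y => k y * (w i * f i y ^ 2)) := by
    intro i hi
    refine (hg.const_mul D).mono' ?_ ?_
    · exact hk.aestronglyMeasurable.mul
        (((hfm i).pow_const 2).const_mul (w i)).aestronglyMeasurable
    · refine Filter.Eventually.of_forall fun y => ?_
      rw [Real.norm_eq_abs, abs_of_nonneg (mul_nonneg (hk0 y)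
        (mul_nonneg (hw i hi) (sq_nonneg _)))]
      calc k y * (w i * f i y ^ 2) ≤ k y * (D * g y) :=
            mul_le_mul_of_nonneg_left (hone i hi y) (hk0 y)
        _ = D * (k y * g y) := by ring
  have hterm : ∀ i ∈ Finset.range n, w i * ‖a i‖ ^ 2 ≤
      c ^ 2 * (∫ y, k y) * ∫ y, k y * (w i * f i y ^ 2) := by
    intro i hi
    rw [Finset.mem_range] at hi
    rcases (hw i hi).eq_or_lt with h0 | h0
    · rw [← h0]; simp
    have e1 : Integrable (fun y => k y * f i y ^ 2) := by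
      have := (hi2 i hi).const_mul (w i)⁻¹
      refine this.congr (Filter.Eventually.of_forall fun y => ?_)
      field_simp
    have e2 : Integrable (fun y => k y * f i y) := by
      refine (hk.add e1).mono' (hk.aestronglyMeasurable.mul (hfm i).aestronglyMeasurable) ?_
      refine Filter.Eventually.of_forall fun y => ?_
      rw [Real.norm_eq_abs, abs_of_nonneg (mul_nonneg (hk0 y) (hf0 i y)), Pi.add_apply]
      have : f i y ≤ 1 + f i y ^ 2 := by nlinarith [sq_nonneg (f i y - 1)]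
      calc k y * f i y ≤ k y * (1 + f i y ^ 2) := mul_le_mul_of_nonneg_left this (hk0 y)
        _ = _ := by ring
    have e3 := ha i hi h0 e2
    have e4 := cs_int k (f i) hk hk0 (hf0 i) (hfm i).aestronglyMeasurable e1
    have e5 : 0 ≤ ∫ y, k y * f i y := integral_nonneg fun y => mul_nonneg (hk0 y) (hf0 i y)
    have e6 : ∫ y, k y * (w i * f i y ^ 2) = w i * ∫ y, k y * f i y ^ 2 := by
      rw [← integral_const_mul]
      congr 1
      funext y
      ring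
    rw [e6]
    calc w i * ‖a i‖ ^ 2 ≤ w i * (c * ∫ y, k y * f i y) ^ 2 :=
          mul_le_mul_of_nonneg_left (pow_le_pow_left₀ (norm_nonneg _) e3 2) h0.le
      _ = (w i * c ^ 2) * (∫ y, k y * f i y) ^ 2 := by ring
      _ ≤ (w i * c ^ 2) * ((∫ y, k y) * ∫ y, k y * f i y ^ 2) :=
          mul_le_mul_of_nonneg_left e4 (by positivity)
      _ = _ := by ring
  calc ∑ i ∈ Finset.range n, w i * ‖a i‖ ^ 2
      ≤ ∑ i ∈ Finset.range n, c ^ 2 * (∫ y, k y) * ∫ y, k y * (w i * f i y ^ 2) :=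
        Finset.sum_le_sum hterm
    _ = c ^ 2 * (∫ y, k y) * ∫ y, ∑ i ∈ Finset.range n, k y * (w i * f i y ^ 2) := by
        rw [← Finset.mul_sum, integral_finsetSum]
        intro i hi
        exact hi2 i (Finset.mem_range.1 hi)
    _ ≤ c ^ 2 * (∫ y, k y) * (D * ∫ y, k y * g y) := by
        refine mul_le_mul_of_nonneg_left ?_ (by positivity)
        rw [← integral_const_mul]
        refine integral_mono (integrable_finsetSum _ fun i hi => hi2 i (Finset.mem_range.1 hi))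
          (hg.const_mul D) fun y => ?_
        simp only
        rw [← Finset.mul_sum]
        calc k y * ∑ i ∈ Finset.range n, w i * f i y ^ 2 ≤ k y * (D * g y) :=
              mul_le_mul_of_nonneg_left (hS y) (hk0 y)
          _ = D * (k y * g y) := by ring

theorem EnBound_core (p q : ℕ) (hq : q = p + 1) (P : ℝ) (hP : P = 2 ^ (q + 1)) (κ L h σ C₀ T : ℝ) (hκ0 : 0 < κ) (hκ1 : κ ≤ 1) (hC₀ : 0 < C₀) (hT : 0 ≤ T)
    (hL : 3200 ≤ L) (hh : h = κ * L / 256) (hσ : σ = 2 / L)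
    (n : ℕ) (w : ℕ → ℝ) (hw : ∀ i < n, 0 ≤ w i) (f : ℕ → ℝ → ℝ)
    (hf0 : ∀ i y, 0 ≤ f i y) (hfm : ∀ i, Measurable (f i)) (a : ℕ → ℂ) (K : ℝ → ℝ)
    (hK0 : ∀ y, 0 ≤ K y) (hKm : Measurable K)
    (hKi : Integrable (fun y : ℝ => (1 + h * |y|) ^ 30 * (1 + |y|) ^ q * K y))
    (hS : ∀ y : ℝ, ∑ i ∈ Finset.range n, w i * f i y ^ 2 ≤
      C₀ * T * L ^ 2 * (1 + L * ‖(σ : ℂ) + y * I‖) ^ 4 * (1 + ‖(σ : ℂ) + y * I‖) ^ p)
    (ha : ∀ i < n, 0 < w i → Integrable (fun y : ℝ => ((1 + ‖(σ : ℂ) + y * I‖) * K y) * f i y) →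
      ‖a i‖ ≤ Real.exp 6 * ∫ y : ℝ, ((1 + ‖(σ : ℂ) + y * I‖) * K y) * f i y) :
    ∑ i ∈ Finset.range n, w i * ‖a i‖ ^ 2 ≤
      Real.exp 12 * P * (256 / κ) ^ 4 * C₀ * T * L ^ 2 *
        (∫ y : ℝ, (1 + h * |y|) ^ 30 * (1 + |y|) ^ q * K y) ^ 2 := by
  have hL0 : 0 < L := by linarith
  have hh0 : 0 < h := by rw [hh]; positivity
  have hσ0 : 0 < σ := by rw [hσ]; positivity
  have hσ1 : σ ≤ 1 := by rw [hσ, div_le_one hL0]; linarith
  have hLσ : L * σ = 2 := by rw [hσ]; field_simp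
  have hLh : L = 256 / κ * h := by rw [hh]; field_simp
  have hκi : 3 ≤ 256 / κ := by rw [le_div_iff₀ hκ0]; linarith
  set J := ∫ y : ℝ, (1 + h * |y|) ^ 30 * (1 + |y|) ^ q * K y with hJ
  have hnc : Continuous fun y : ℝ => ‖(σ : ℂ) + y * I‖ := by fun_prop
  have hz1 : ∀ y : ℝ, ‖(σ : ℂ) + y * I‖ ≤ σ + |y| := by
    intro y
    refine (norm_add_le _ _).trans ?_
    rw [norm_mul, Complex.norm_I, mul_one, Complex.norm_real, Complex.norm_real,
      Real.norm_eq_abs, Real.norm_eq_abs, abs_of_pos hσ0]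
  have hz2 : ∀ y : ℝ, 1 + ‖(σ : ℂ) + y * I‖ ≤ 2 * (1 + |y|) := by
    intro y
    have := hz1 y
    have := abs_nonneg y
    linarith
  have hz3 : ∀ y : ℝ, 1 + L * ‖(σ : ℂ) + y * I‖ ≤ 256 / κ * (1 + h * |y|) := by
    intro y
    have h1 : L * ‖(σ : ℂ) + y * I‖ ≤ L * (σ + |y|) := mul_le_mul_of_nonneg_left (hz1 y) hL0.le
    have h2 : L * |y| = 256 / κ * (h * |y|) := by
      calc L * |y| = (256 / κ * h) * |y| := by rw [← hLh]
        _ = _ := by ring
    calc 1 + L * ‖(σ : ℂ) + y * I‖ ≤ 1 + (L * σ + L * |y|) := by linarith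
      _ = 3 + 256 / κ * (h * |y|) := by rw [hLσ, h2]; ring
      _ ≤ 256 / κ * (1 + h * |y|) := by linarith
  have hn0 : ∀ y : ℝ, 0 ≤ ‖(σ : ℂ) + y * I‖ := fun y => norm_nonneg _
  have hha : ∀ y : ℝ, 0 ≤ h * |y| := fun y => mul_nonneg hh0.le (abs_nonneg y)
  set k : ℝ → ℝ := fun y => (1 + ‖(σ : ℂ) + y * I‖) * K y with hk
  set g : ℝ → ℝ := fun y => (1 + L * ‖(σ : ℂ) + y * I‖) ^ 4 * (1 + ‖(σ : ℂ) + y * I‖) ^ p with hg
  have hk0 : ∀ y, 0 ≤ k y := fun y => mul_nonneg (by have := hn0 y; linarith) (hK0 y)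
  have hkm : Measurable k := ((continuous_const.add hnc).measurable).mul hKm
  have hgm : Measurable g := by
    have : Continuous g := by fun_prop
    exact this.measurable
  have hW1 : ∀ y : ℝ, 1 ≤ (1 + h * |y|) ^ 30 := fun y => one_le_pow₀ (by have := hha y; linarith)
  have hkle : ∀ y, k y ≤ 2 * ((1 + h * |y|) ^ 30 * (1 + |y|) ^ q * K y) := by
    intro y
    have h1 : (1 + |y|) ≤ (1 + |y|) ^ q :=
      le_self_pow₀ (by have := abs_nonneg y; linarith) (by omega)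
    calc k y ≤ 2 * (1 + |y|) * K y := mul_le_mul_of_nonneg_right (hz2 y) (hK0 y)
      _ ≤ 2 * (1 * (1 + |y|) ^ q) * K y := by
          refine mul_le_mul_of_nonneg_right ?_ (hK0 y)
          rw [one_mul]; linarith
      _ ≤ 2 * ((1 + h * |y|) ^ 30 * (1 + |y|) ^ q) * K y := by
          refine mul_le_mul_of_nonneg_right ?_ (hK0 y)
          refine mul_le_mul_of_nonneg_left ?_ (by norm_num)
          exact mul_le_mul_of_nonneg_right (hW1 y) (by positivity)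
      _ = _ := by ring
  have hkgle : ∀ y, k y * g y ≤ 2 ^ q * (256 / κ) ^ 4 *
      ((1 + h * |y|) ^ 30 * (1 + |y|) ^ q * K y) := by
    intro y
    have h1 : (1 + ‖(σ : ℂ) + y * I‖) ^ q ≤ (2 * (1 + |y|)) ^ q :=
      pow_le_pow_left₀ (by have := hn0 y; linarith) (hz2 y) q
    have h2 : (1 + L * ‖(σ : ℂ) + y * I‖) ^ 4 ≤ (256 / κ * (1 + h * |y|)) ^ 4 :=
      pow_le_pow_left₀ (by have := mul_nonneg hL0.le (hn0 y); linarith) (hz3 y) 4
    have h3 : (1 + h * |y|) ^ 4 ≤ (1 + h * |y|) ^ 30 :=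
      pow_le_pow_right₀ (by have := hha y; linarith) (by norm_num)
    have h4 : (1 + L * ‖(σ : ℂ) + y * I‖) ^ 4 ≤ (256 / κ) ^ 4 * (1 + h * |y|) ^ 30 := by
      rw [mul_pow] at h2
      exact h2.trans (mul_le_mul_of_nonneg_left h3 (by positivity))
    calc k y * g y = ((1 + L * ‖(σ : ℂ) + y * I‖) ^ 4 * (1 + ‖(σ : ℂ) + y * I‖) ^ q) * K y := by
          simp only [hk, hg]; rw [hq, pow_succ _ p]; ring
      _ ≤ (((256 / κ) ^ 4 * (1 + h * |y|) ^ 30) * (2 * (1 + |y|)) ^ q) * K y := by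
          refine mul_le_mul_of_nonneg_right ?_ (hK0 y)
          exact mul_le_mul h4 h1 (pow_nonneg (by have := hn0 y; linarith) _)
            (mul_nonneg (by positivity) (pow_nonneg (by have := hha y; linarith) _))
      _ = _ := by rw [mul_pow]; ring
  have hki : Integrable k := by
    refine (hKi.const_mul 2).mono' hkm.aestronglyMeasurable ?_
    refine Filter.Eventually.of_forall fun y => ?_
    rw [Real.norm_eq_abs, abs_of_nonneg (hk0 y)]
    exact hkle y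
  have hg0 : ∀ y, 0 ≤ g y := fun y => mul_nonneg
    (pow_nonneg (by have := mul_nonneg hL0.le (hn0 y); linarith) _)
    (pow_nonneg (by have := hn0 y; linarith) _)
  have hkgi : Integrable (fun y => k y * g y) := by
    refine (hKi.const_mul (2 ^ q * (256 / κ) ^ 4)).mono' (hkm.mul hgm).aestronglyMeasurable ?_
    refine Filter.Eventually.of_forall fun y => ?_
    rw [Real.norm_eq_abs, abs_of_nonneg (mul_nonneg (hk0 y) (hg0 y))]
    exact hkgle y
  have hmain := EnBound_sum n w hw f hf0 hfm a k g hk0 hki (C₀ * T * L ^ 2) (Real.exp 6)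
    (Real.exp_pos _).le hkgi (fun y => (hS y).trans (le_of_eq (by simp only [hg]; ring))) ha
  have hJ0 : 0 ≤ J := integral_nonneg fun y => mul_nonneg (mul_nonneg
    (pow_nonneg (by have := hha y; linarith) _) (by positivity)) (hK0 y)
  have h1 : ∫ y, k y ≤ 2 * J := by
    rw [hJ, ← integral_const_mul]
    exact integral_mono hki (hKi.const_mul 2) hkle
  have h2 : ∫ y, k y * g y ≤ 2 ^ q * (256 / κ) ^ 4 * J := by
    rw [hJ, ← integral_const_mul]
    exact integral_mono hkgi (hKi.const_mul _) hkgle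
  have h3 : 0 ≤ ∫ y, k y := integral_nonneg hk0
  have h4 : 0 ≤ ∫ y, k y * g y := integral_nonneg fun y => mul_nonneg (hk0 y) (hg0 y)
  have hD : 0 ≤ C₀ * T * L ^ 2 := by positivity
  have hexp : Real.exp 6 ^ 2 = Real.exp 12 := by
    rw [← Real.exp_nat_mul]; norm_num
  calc ∑ i ∈ Finset.range n, w i * ‖a i‖ ^ 2
      ≤ Real.exp 6 ^ 2 * (∫ y, k y) * (C₀ * T * L ^ 2 * ∫ y, k y * g y) := hmain
    _ ≤ Real.exp 6 ^ 2 * (2 * J) * (C₀ * T * L ^ 2 * (2 ^ q * (256 / κ) ^ 4 * J)) := by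
        refine mul_le_mul (mul_le_mul_of_nonneg_left h1 (by positivity))
          (mul_le_mul_of_nonneg_left h2 hD) (mul_nonneg hD h4) (by positivity)
    _ = Real.exp 12 * P * (256 / κ) ^ 4 * C₀ * T * L ^ 2 * J ^ 2 := by
        rw [hexp, hP, pow_succ]; ring

/-- the zeta factor on a vertical line is measurable -/
theorem EnBound_meas (σ : ℝ) (z₀ : ℝ) (s ρ : ℂ) :
    Measurable (fun y : ℝ => ‖riemannZeta (ρ + ((σ : ℂ) + y * I)) * Mo z₀ (s + ((σ : ℂ) + y * I))‖) := by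
  have h1 : Measurable (fun y : ℝ => riemannZeta (ρ + ((σ : ℂ) + y * I))) := by
    refine measurable_of_continuousOn_compl_singleton (-ρ.im) fun y hy => ?_
    refine ContinuousAt.continuousWithinAt ?_
    have hne : ρ + ((σ : ℂ) + y * I) ≠ 1 := by
      intro h0
      apply hy
      have := congrArg Complex.im h0
      simp at this
      show y = -ρ.im
      linarith
    refine ContinuousAt.comp (f := fun y : ℝ => ρ + ((σ : ℂ) + y * I)) (g := riemannZeta) ?_ ?_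
    · exact (differentiableAt_riemannZeta hne).continuousAt
    · exact (by fun_prop : Continuous fun y : ℝ => ρ + ((σ : ℂ) + y * I)).continuousAt
  have h2 : Continuous (fun y : ℝ => Mo z₀ (s + ((σ : ℂ) + y * I))) := by
    unfold Mo
    refine continuous_finsetSum _ fun d hd => ?_
    have hd0 : (d : ℂ) ≠ 0 := by
      rw [Finset.mem_Icc] at hd
      exact Nat.cast_ne_zero.2 (by omega)
    refine continuous_const.mul ?_
    refine Continuous.const_cpow (by fun_prop) (Or.inl hd0)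
  exact (h1.mul h2.measurable).norm

/-- pointwise bound of the integrand off the pole -/
theorem EnBound_pt (z₀ h r σ : ℝ) (s ρ : ℂ) (hρ : 1 ≤ ‖ρ - 1‖) (hr : σ * r ≤ 6) (y : ℝ)
    (hne : ρ + ((σ : ℂ) + y * I) ≠ 1) :
    ‖Mo z₀ (s + (σ + y * I)) * azI h r ρ (σ + y * I)‖ ≤
      Real.exp 6 * (((1 + ‖(σ : ℂ) + y * I‖) * ‖kn h (σ + y * I) / (σ + y * I)‖) *
        ‖riemannZeta (ρ + ((σ : ℂ) + y * I)) * Mo z₀ (s + ((σ : ℂ) + y * I))‖) := by
  set z : ℂ := (σ : ℂ) + y * I with hz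
  have hre : (z * (r : ℂ)).re = σ * r := by simp [hz]
  have h1 : ‖Zt (ρ + z) / (ρ - 1)‖ ≤ (1 + ‖z‖) * ‖riemannZeta (ρ + z)‖ := by
    rw [Zt_eq _ hne, norm_div, norm_mul, div_le_iff₀ (by linarith)]
    have h2 : ‖ρ + z - 1‖ ≤ (1 + ‖z‖) * ‖ρ - 1‖ := by
      calc ‖ρ + z - 1‖ = ‖(ρ - 1) + z‖ := by congr 1; ring
        _ ≤ ‖ρ - 1‖ + ‖z‖ := norm_add_le _ _
        _ ≤ ‖ρ - 1‖ + ‖z‖ * ‖ρ - 1‖ := by
            have := mul_le_mul_of_nonneg_left hρ (norm_nonneg z)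
            linarith
        _ = _ := by ring
    calc ‖ρ + z - 1‖ * ‖riemannZeta (ρ + z)‖ ≤ ((1 + ‖z‖) * ‖ρ - 1‖) * ‖riemannZeta (ρ + z)‖ :=
          mul_le_mul_of_nonneg_right h2 (norm_nonneg _)
      _ = _ := by ring
  have h3 : ‖Complex.exp (z * r)‖ ≤ Real.exp 6 := by
    rw [Complex.norm_exp, hre]
    exact Real.exp_le_exp.2 hr
  unfold azI
  rw [norm_mul, norm_mul, norm_mul (Complex.exp _), norm_mul (riemannZeta _)]
  have h4 : 0 ≤ ‖kn h z / z‖ := norm_nonneg _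
  have h5 : 0 ≤ ‖Mo z₀ (s + z)‖ := norm_nonneg _
  calc ‖Mo z₀ (s + z)‖ * (‖Zt (ρ + z) / (ρ - 1)‖ * (‖Complex.exp (z * r)‖ * ‖kn h z / z‖))
      ≤ ‖Mo z₀ (s + z)‖ * (((1 + ‖z‖) * ‖riemannZeta (ρ + z)‖) * (Real.exp 6 * ‖kn h z / z‖)) := by
        refine mul_le_mul_of_nonneg_left ?_ h5
        exact mul_le_mul h1 (mul_le_mul_of_nonneg_right h3 h4) (by positivity) (by positivity)
    _ = _ := by ring

/-- PROOF. `Am_line` with `σ = 2/L`: `‖Zt (ρ+z)/(ρ-1)‖ ≤ ‖ζ(ρ+z)‖ (1+‖z‖)` (`ρ + z ≠ 1`, `‖ρ-1‖ ≥ 1`),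
`|e^{z(ν-u)}| ≤ e^{6}`, so with `k(y) = (1+‖z‖)‖kn h z/z‖` and `cs_int`
`‖Am‖² ≤ e^{12} (∫ k)(∫ k ‖ζ(ρ+z) Mo (s+z)‖² dy)`; sum over `i`, use `hE` and `kn_int`
(`L = 256 h/κ`, so `(1+L‖z‖)^4 ≤ C_κ (1+h|y|)^4`, `h|σ| = κ/128`). Derivative: `Am_deriv`, `kn_int'`:
`(∫ k')² ≤ C/h²`. -/
theorem en_bound (θ κ C₀ G : ℝ) (hθ0 : 0 < θ) (hθ1 : θ ≤ 1 / 40) (hκ0 : 0 < κ) (hκ1 : κ ≤ 1)
    (hC₀ : 0 < C₀) (hG : 1 ≤ G) : ∃ C : ℝ, 0 < C ∧ ∃ T₀ : ℝ, Real.exp (3200 / κ) ≤ T₀ ∧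
    ∀ T : ℝ, T₀ ≤ T → ∀ (n : ℕ) (t : ℕ → ℝ) (ρ : ℕ → ℂ),
      (∀ i < n, T / 2 ≤ t i ∧ t i ≤ 3 * T ∧ riemannZeta (ρ i) = 0 ∧ 1 / 2 ≤ (ρ i).re ∧
        ‖ρ i - pt 0 (t i)‖ ≤ G / Real.log T) →
      (∀ z : ℂ, z.re = 2 / Real.log T →
        ∑ i ∈ Finset.range n, ‖Mo (T ^ θ) (pt 0 (t i))‖ ^ 2 *
            ‖riemannZeta (ρ i + z) * Mo (T ^ θ) (pt 0 (t i) + z)‖ ^ 2
          ≤ C₀ * T * Real.log T ^ 2 * (1 + Real.log T * ‖z‖) ^ 4 * (1 + ‖z‖) ^ 301) →
      ∀ ν u : ℝ, ν - u ≤ 3 * Real.log T →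
        ∑ i ∈ Finset.range n, ‖Mo (T ^ θ) (pt 0 (t i))‖ ^ 2 *
          ‖Am (T ^ θ) (κ * Real.log T / 256) ν (pt 0 (t i)) (ρ i) u‖ ^ 2
            ≤ C * T * Real.log T ^ 2 ∧
        ∑ i ∈ Finset.range n, ‖Mo (T ^ θ) (pt 0 (t i))‖ ^ 2 *
          ‖deriv (Am (T ^ θ) (κ * Real.log T / 256) ν (pt 0 (t i)) (ρ i)) u‖ ^ 2
            ≤ C * T := by
  obtain ⟨C₁, hC₁, hk1⟩ := kn_int 302
  obtain ⟨C₂, hC₂, hk2⟩ := kn_int' 302
  obtain ⟨P, hP⟩ : ∃ P : ℝ, P = 2 ^ (302 + 1) := ⟨_, rfl⟩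
  have hP0 : 0 < P := by rw [hP]; exact pow_pos (by norm_num) _
  set Q : ℝ := Real.exp 12 * P * (256 / κ) ^ 4 * C₀ with hQ
  have hQ0 : 0 < Q := by positivity
  set A1 : ℝ := C₁ * Real.exp 1 * (1 + 128 / κ) with hA1
  set A2 : ℝ := C₂ * Real.exp 1 * (256 / κ) with hA2
  have hA10 : 0 < A1 := by positivity
  have hA20 : 0 < A2 := by positivity
  refine ⟨Q * (A1 ^ 2 + A2 ^ 2), by positivity, Real.exp (3200 / κ) + 2 * G + 4, by linarith, ?_⟩
  intro T hT n t ρ hi hE ν u hνu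
  have hT1 : Real.exp (3200 / κ) ≤ T := by linarith
  have hT0 : 0 < T := lt_of_lt_of_le (Real.exp_pos _) hT1
  set L := Real.log T with hL
  have hL1 : 3200 / κ ≤ L := by
    rw [hL, ← Real.log_exp (3200 / κ)]
    exact Real.log_le_log (Real.exp_pos _) hT1
  have hL2 : 3200 ≤ L := by
    refine le_trans ?_ hL1
    rw [le_div_iff₀ hκ0]
    nlinarith
  have hL0 : 0 < L := by linarith
  set h := κ * L / 256 with hh
  have hh0 : 0 < h := by positivity
  set σ : ℝ := 2 / L with hσ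
  have hσ0 : 0 < σ := by positivity
  have hσne : σ ≠ 0 := hσ0.ne'
  have hσ1 : σ ≤ 1 / 2 := by
    rw [hσ, div_le_iff₀ hL0]; linarith
  have hhσ : h * σ = κ / 128 := by rw [hh, hσ]; field_simp; norm_num
  have habs : |σ| = σ := abs_of_pos hσ0
  have hexp : Real.exp (32 * h * |σ| + σ ^ 2) ≤ Real.exp 1 := by
    refine Real.exp_le_exp.2 ?_
    rw [habs, mul_assoc, hhσ]
    nlinarith
  have hr : σ * (ν - u) ≤ 6 := by
    calc σ * (ν - u) ≤ σ * (3 * L) := mul_le_mul_of_nonneg_left hνu hσ0.le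
      _ = 6 := by rw [hσ]; field_simp; norm_num
  -- facts about the zeros
  have hρ1 : ∀ i < n, (ρ i).re < 1 := by
    intro i hin
    by_contra hcon
    exact riemannZeta_ne_zero_of_one_le_re (not_lt.1 hcon) (hi i hin).2.2.1
  have hρn : ∀ i < n, 1 ≤ ‖ρ i - 1‖ := by
    intro i hin
    obtain ⟨h1, -, -, -, h5⟩ := hi i hin
    have h6 : G / L ≤ G := div_le_self (by linarith) (by linarith)
    have h7 := (Complex.abs_im_le_norm (ρ i - pt 0 (t i))).trans (h5.trans h6)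
    have h8 : (ρ i - pt 0 (t i)).im = (ρ i).im - t i := by simp [pt]
    rw [h8, abs_le] at h7
    have h9 : 1 ≤ (ρ i).im := by linarith [Real.exp_pos (3200 / κ)]
    have h10 := Complex.abs_im_le_norm (ρ i - 1)
    have h11 : (ρ i - 1).im = (ρ i).im := by simp
    rw [h11] at h10
    exact (h9.trans (le_abs_self _)).trans h10
  set w : ℕ → ℝ := fun i => ‖Mo (T ^ θ) (pt 0 (t i))‖ ^ 2 with hw
  set f : ℕ → ℝ → ℝ := fun i y =>
    ‖riemannZeta (ρ i + ((σ : ℂ) + y * I)) * Mo (T ^ θ) (pt 0 (t i) + ((σ : ℂ) + y * I))‖ with hf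
  have hw0 : ∀ i < n, 0 ≤ w i := fun i _ => sq_nonneg _
  have hf0 : ∀ i y, 0 ≤ f i y := fun i y => norm_nonneg _
  have hfm : ∀ i, Measurable (f i) := fun i => EnBound_meas σ (T ^ θ) (pt 0 (t i)) (ρ i)
  have hS : ∀ y : ℝ, ∑ i ∈ Finset.range n, w i * f i y ^ 2 ≤
      C₀ * T * L ^ 2 * (1 + L * ‖(σ : ℂ) + y * I‖) ^ 4 * (1 + ‖(σ : ℂ) + y * I‖) ^ 301 := by
    intro y
    have := hE ((σ : ℂ) + y * I) (by simp [hσ])
    simpa only [hw, hf] using this
  have hzne : ∀ y : ℝ, (σ : ℂ) + y * I ≠ 0 := by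
    intro y h0
    have := congrArg Complex.re h0
    simp at this
    exact hσne this
  have hcz : Continuous fun y : ℝ => (σ : ℂ) + y * I := by fun_prop
  have hckn : Continuous fun y : ℝ => kn h ((σ : ℂ) + y * I) :=
    (differentiable_kn h).continuous.comp hcz
  have hae : ∀ i, ∀ᵐ y : ℝ, ρ i + ((σ : ℂ) + y * I) ≠ 1 := by
    intro i
    have h1 : ∀ᵐ y : ℝ, y ≠ -(ρ i).im := by
      rw [ae_iff]
      simp
    filter_upwards [h1] with y hy h0
    apply hy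
    have := congrArg Complex.im h0
    simp at this
    linarith
  have h2π : 1 / (2 * Real.pi) ≤ 1 := by
    rw [div_le_one (by positivity)]
    linarith [Real.pi_gt_three]
  have h2π0 : 0 ≤ 1 / (2 * Real.pi) := by positivity
  constructor
  · -- the function
    obtain ⟨hi1, hi2⟩ := hk1 h σ hh0 hσne
    have hres := EnBound_core 301 302 (by norm_num) P hP κ L h σ C₀ T hκ0 hκ1 hC₀ hT0.le hL2 hh hσ n w hw0 f hf0 hfm
      (fun i => Am (T ^ θ) h ν (pt 0 (t i)) (ρ i) u)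
      (fun y => ‖kn h (σ + y * I) / (σ + y * I)‖) (fun y => norm_nonneg _)
      ((hckn.div hcz hzne).norm.measurable) hi1 hS (by
        intro i hin _ hint
        obtain ⟨-, -, h3, h4, -⟩ := hi i hin
        rw [Am_line (T ^ θ) h ν hh0 (pt 0 (t i)) (ρ i) h3 h4 (hρ1 i hin) u σ hσne]
        rw [norm_mul, Complex.norm_real, Real.norm_eq_abs, abs_of_nonneg h2π0]
        calc 1 / (2 * Real.pi) * ‖∫ y : ℝ, Mo (T ^ θ) (pt 0 (t i) + (σ + y * I)) *
              azI h (ν - u) (ρ i) (σ + y * I)‖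
            ≤ 1 * ∫ y : ℝ, ‖Mo (T ^ θ) (pt 0 (t i) + (σ + y * I)) *
              azI h (ν - u) (ρ i) (σ + y * I)‖ :=
              mul_le_mul h2π (norm_integral_le_integral_norm _) (norm_nonneg _) (by norm_num)
          _ = ∫ y : ℝ, ‖Mo (T ^ θ) (pt 0 (t i) + (σ + y * I)) *
              azI h (ν - u) (ρ i) (σ + y * I)‖ := one_mul _
          _ ≤ ∫ y : ℝ, Real.exp 6 * (((1 + ‖(σ : ℂ) + y * I‖) *
              ‖kn h (σ + y * I) / (σ + y * I)‖) * f i y) := by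
              refine integral_mono_of_nonneg (Filter.Eventually.of_forall fun y => norm_nonneg _)
                (hint.const_mul _) ?_
              filter_upwards [hae i] with y hy
              exact EnBound_pt (T ^ θ) h (ν - u) σ (pt 0 (t i)) (ρ i) (hρn i hin) hr y hy
          _ = _ := integral_const_mul _ _)
    refine hres.trans ?_
    have hJ : ∫ y : ℝ, (1 + h * |y|) ^ 30 * (1 + |y|) ^ 302 * ‖kn h (σ + y * I) / (σ + y * I)‖ ≤
        A1 := by
      refine hi2.trans ?_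
      have e1 : 1 / (h * |σ|) = 128 / κ := by rw [habs, hhσ]; field_simp
      rw [e1, hA1]
      refine mul_le_mul_of_nonneg_right ?_ (by positivity)
      exact mul_le_mul_of_nonneg_left hexp hC₁.le
    have hJ0 : 0 ≤ ∫ y : ℝ, (1 + h * |y|) ^ 30 * (1 + |y|) ^ 302 *
        ‖kn h (σ + y * I) / (σ + y * I)‖ := integral_nonneg fun y => by positivity
    have hJ2 := pow_le_pow_left₀ hJ0 hJ 2
    calc Real.exp 12 * P * (256 / κ) ^ 4 * C₀ * T * L ^ 2 *
          (∫ y : ℝ, (1 + h * |y|) ^ 30 * (1 + |y|) ^ 302 * ‖kn h (σ + y * I) / (σ + y * I)‖) ^ 2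
        = Q * T * L ^ 2 * (∫ y : ℝ, (1 + h * |y|) ^ 30 * (1 + |y|) ^ 302 *
          ‖kn h (σ + y * I) / (σ + y * I)‖) ^ 2 := by rw [hQ]
      _ ≤ Q * T * L ^ 2 * A1 ^ 2 := mul_le_mul_of_nonneg_left hJ2 (by positivity)
      _ ≤ Q * T * L ^ 2 * (A1 ^ 2 + A2 ^ 2) :=
          mul_le_mul_of_nonneg_left (by have := sq_nonneg A2; linarith) (by positivity)
      _ = Q * (A1 ^ 2 + A2 ^ 2) * T * L ^ 2 := by ring
  · -- the derivative
    obtain ⟨hi1, hi2⟩ := hk2 h σ hh0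
    have hres := EnBound_core 301 302 (by norm_num) P hP κ L h σ C₀ T hκ0 hκ1 hC₀ hT0.le hL2 hh hσ n w hw0 f hf0 hfm
      (fun i => deriv (Am (T ^ θ) h ν (pt 0 (t i)) (ρ i)) u)
      (fun y => ‖kn h (σ + y * I)‖) (fun y => norm_nonneg _)
      (hckn.norm.measurable) hi1 hS (by
        intro i hin _ hint
        obtain ⟨-, -, h3, h4, -⟩ := hi i hin
        rw [(Am_deriv (T ^ θ) h ν hh0 (pt 0 (t i)) (ρ i) h3 h4 (hρ1 i hin) u σ hσne).deriv]
        rw [norm_neg, norm_mul, Complex.norm_real, Real.norm_eq_abs, abs_of_nonneg h2π0]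
        calc 1 / (2 * Real.pi) * ‖∫ y : ℝ, Mo (T ^ θ) (pt 0 (t i) + (σ + y * I)) *
              azI h (ν - u) (ρ i) (σ + y * I) * (σ + y * I)‖
            ≤ 1 * ∫ y : ℝ, ‖Mo (T ^ θ) (pt 0 (t i) + (σ + y * I)) *
              azI h (ν - u) (ρ i) (σ + y * I) * (σ + y * I)‖ :=
              mul_le_mul h2π (norm_integral_le_integral_norm _) (norm_nonneg _) (by norm_num)
          _ = ∫ y : ℝ, ‖Mo (T ^ θ) (pt 0 (t i) + (σ + y * I)) *
              azI h (ν - u) (ρ i) (σ + y * I) * (σ + y * I)‖ := one_mul _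
          _ ≤ ∫ y : ℝ, Real.exp 6 * (((1 + ‖(σ : ℂ) + y * I‖) *
              ‖kn h (σ + y * I)‖) * f i y) := by
              refine integral_mono_of_nonneg (Filter.Eventually.of_forall fun y => norm_nonneg _)
                (hint.const_mul _) ?_
              filter_upwards [hae i] with y hy
              have e1 := EnBound_pt (T ^ θ) h (ν - u) σ (pt 0 (t i)) (ρ i) (hρn i hin) hr y hy
              rw [norm_mul]
              have e2 : ‖kn h ((σ : ℂ) + y * I)‖ = ‖kn h (σ + y * I) / (σ + y * I)‖ *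
                  ‖(σ : ℂ) + y * I‖ := by
                rw [norm_div, div_mul_cancel₀ _ (norm_ne_zero_iff.2 (hzne y))]
              calc ‖Mo (T ^ θ) (pt 0 (t i) + (σ + y * I)) * azI h (ν - u) (ρ i) (σ + y * I)‖ *
                    ‖(σ : ℂ) + y * I‖
                  ≤ (Real.exp 6 * (((1 + ‖(σ : ℂ) + y * I‖) *
                    ‖kn h (σ + y * I) / (σ + y * I)‖) * f i y)) * ‖(σ : ℂ) + y * I‖ :=
                    mul_le_mul_of_nonneg_right e1 (norm_nonneg _)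
                _ = _ := by rw [e2]; ring
          _ = _ := integral_const_mul _ _)
    refine hres.trans ?_
    have hJ : ∫ y : ℝ, (1 + h * |y|) ^ 30 * (1 + |y|) ^ 302 * ‖kn h (σ + y * I)‖ ≤ A2 / L := by
      refine hi2.trans ?_
      have e1 : C₂ * Real.exp (32 * h * |σ| + σ ^ 2) / h ≤ C₂ * Real.exp 1 / h :=
        div_le_div_of_nonneg_right (mul_le_mul_of_nonneg_left hexp hC₂.le) hh0.le
      refine e1.trans (le_of_eq ?_)
      rw [hA2, hh]
      field_simp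
    have hJ0 : 0 ≤ ∫ y : ℝ, (1 + h * |y|) ^ 30 * (1 + |y|) ^ 302 *
        ‖kn h (σ + y * I)‖ := integral_nonneg fun y => by positivity
    have hJ2 := pow_le_pow_left₀ hJ0 hJ 2
    calc Real.exp 12 * P * (256 / κ) ^ 4 * C₀ * T * L ^ 2 *
          (∫ y : ℝ, (1 + h * |y|) ^ 30 * (1 + |y|) ^ 302 * ‖kn h (σ + y * I)‖) ^ 2
        = Q * T * L ^ 2 * (∫ y : ℝ, (1 + h * |y|) ^ 30 * (1 + |y|) ^ 302 *
          ‖kn h (σ + y * I)‖) ^ 2 := by rw [hQ]
      _ ≤ Q * T * L ^ 2 * (A2 / L) ^ 2 := mul_le_mul_of_nonneg_left hJ2 (by positivity)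
      _ = Q * T * A2 ^ 2 := by field_simp
      _ ≤ Q * T * (A1 ^ 2 + A2 ^ 2) :=
          mul_le_mul_of_nonneg_left (by have := sq_nonneg A1; linarith) (by positivity)
      _ = Q * (A1 ^ 2 + A2 ^ 2) * T := by ring

end Pool.Agent.H14.CO
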