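import Pool.Agent.H14.CO.LSamp
import Pool.Agent.H14.CO.EnBound

/-!
# CO: the test function and its energy
-/

set_option autoImplicit false

namespace Pool.Agent.H14.CO

open Set MeasureTheory Complex

/-- the test function -/
noncomputable def Ft (z₀ h ν : ℝ) (n₀ : ℕ) (t : ℕ → ℝ) (ρ : ℕ → ℂ) (u : ℝ) : ℂ :=
  ∑ i ∈ Finset.range n₀, (starRingEnd ℂ) (Mo z₀ (pt 0 (t i))) *
    (Complex.exp (-ρ i * u) * Am z₀ h ν (pt 0 (t i)) (ρ i) u)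

theorem hasDerivAt_Am (z₀ h ν : ℝ) (hh : 0 < h) (s ρ : ℂ) (hρ : riemannZeta ρ = 0)
    (hρ0 : 1 / 2 ≤ ρ.re) (hρ1 : ρ.re < 1) (u : ℝ) :
    HasDerivAt (Am z₀ h ν s ρ) (deriv (Am z₀ h ν s ρ) u) u :=
  (Am_deriv z₀ h ν hh s ρ hρ hρ0 hρ1 u 1 one_ne_zero).differentiableAt.hasDerivAt

/-- the hypotheses on the family -/
def Fam (θ G C₀ T : ℝ) (n₀ : ℕ) (t : ℕ → ℝ) (ρ : ℕ → ℂ) : Prop :=
  (∀ i < n₀, T / 2 ≤ t i ∧ t i ≤ 3 * T ∧ riemannZeta (ρ i) = 0 ∧ 1 / 2 ≤ (ρ i).re ∧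
    ‖ρ i - pt 0 (t i)‖ ≤ G / Real.log T) ∧
  (∀ i < n₀, ∀ j < n₀, i ≠ j → 1 / Real.log T ≤ |(ρ i).im - (ρ j).im|) ∧
  ∀ z : ℂ, z.re = 2 / Real.log T →
    ∑ i ∈ Finset.range n₀, ‖Mo (T ^ θ) (pt 0 (t i))‖ ^ 2 *
        ‖riemannZeta (ρ i + z) * Mo (T ^ θ) (pt 0 (t i) + z)‖ ^ 2
      ≤ C₀ * T * Real.log T ^ 2 * (1 + Real.log T * ‖z‖) ^ 4 * (1 + ‖z‖) ^ 301

theorem pt_zero_re (t : ℝ) : (pt 0 t).re = 1 / 2 := by
  simp [pt]

theorem pt_zero_im (t : ℝ) : (pt 0 t).im = t := by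
  simp [pt]

/-- real part of the zeros -/
theorem Fam.re_lt {θ G C₀ T : ℝ} {n₀ : ℕ} {t : ℕ → ℝ} {ρ : ℕ → ℂ} (hF : Fam θ G C₀ T n₀ t ρ)
    (hL : 4 * G ≤ Real.log T) (hG : 1 ≤ G) {i : ℕ} (hi : i < n₀) :
    (ρ i).re ≤ 1 / 2 + G / Real.log T ∧ (ρ i).re < 1 ∧ 0 ≤ (ρ i).re - 1 / 2 ∧
      |(ρ i).im - t i| ≤ 1 / 4 := by
  obtain ⟨_, _, _, h4, h5⟩ := hF.1 i hi
  have hLpos : 0 < Real.log T := by linarith
  have hq : G / Real.log T ≤ 1 / 4 := by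
    rw [div_le_iff₀ hLpos]; linarith
  have h6 : |(ρ i).re - 1 / 2| ≤ G / Real.log T := by
    have := Complex.abs_re_le_norm (ρ i - pt 0 (t i))
    rw [sub_re, pt_zero_re] at this
    exact this.trans h5
  have h7 : |(ρ i).im - t i| ≤ G / Real.log T := by
    have := Complex.abs_im_le_norm (ρ i - pt 0 (t i))
    rw [sub_im, pt_zero_im] at this
    exact this.trans h5
  rw [abs_le] at h6
  refine ⟨by linarith [h6.2], by linarith [h6.2], by linarith, h7.trans hq⟩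

/-- The energy bound. -/
theorem energy (θ κ C₀ G : ℝ) (hθ0 : 0 < θ) (hθ1 : θ ≤ 1 / 40) (hκ0 : 0 < κ) (hκ1 : κ ≤ 1)
    (hC₀ : 0 < C₀) (hG : 1 ≤ G) : ∃ C : ℝ, 0 < C ∧ ∃ T₀ : ℝ, Real.exp (3200 / κ) ≤ T₀ ∧
    ∀ T : ℝ, T₀ ≤ T → ∀ (n₀ : ℕ) (t : ℕ → ℝ) (ρ : ℕ → ℂ), Fam θ G C₀ T n₀ t ρ →
      ∀ ν n : ℝ, 0 ≤ n → ν - n ≤ 3 * Real.log T →
        ∫ u in n..(n + (1 + κ) * Real.log T),
          ‖Ft (T ^ θ) (κ * Real.log T / 256) ν n₀ t ρ u‖ ^ 2 * Real.exp u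
          ≤ C * T * Real.log T ^ 3 := by
  obtain ⟨C₂, hC₂, T₂, hT₂e, hen⟩ := en_bound θ κ C₀ G hθ0 hθ1 hκ0 hκ1 hC₀ hG
  obtain ⟨C₃, hC₃, hls⟩ := ls_amp
  refine ⟨C₃ * 3 * (C₂ + 4 * (2 * G ^ 2 * C₂ + 2 * C₂)), by positivity, max T₂ (Real.exp (4 * G)),
    le_max_of_le_left hT₂e, ?_⟩
  intro T hT n₀ t ρ hF ν n hn hνn
  have hTa : T₂ ≤ T := (le_max_left _ _).trans hT
  have hTb : Real.exp (4 * G) ≤ T := (le_max_right _ _).trans hT
  have hT0 : 0 < T := (Real.exp_pos _).trans_le hTb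
  set L := Real.log T with hL
  have hLG : 4 * G ≤ L := by rw [hL, Real.le_log_iff_exp_le hT0]; exact hTb
  have hL1 : 4 ≤ L := by linarith
  have hLpos : 0 < L := by linarith
  set h := κ * L / 256 with hh
  have hhpos : 0 < h := by rw [hh]; positivity
  set ℓ := (1 + κ) * L with hℓ
  have hℓ0 : 0 ≤ ℓ := by positivity
  have hℓ2 : ℓ ≤ 2 * L := by rw [hℓ]; nlinarith
  -- abbreviations
  set b : ℕ → ℂ := fun i => (starRingEnd ℂ) (Mo (T ^ θ) (pt 0 (t i))) with hb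
  set A : ℕ → ℝ → ℂ := fun i u => Am (T ^ θ) h ν (pt 0 (t i)) (ρ i) u with hA
  set β : ℕ → ℝ := fun i => (ρ i).re - 1 / 2 with hβ
  have hβi : ∀ i < n₀, 0 ≤ β i ∧ β i ≤ G / L := by
    intro i hi
    obtain ⟨h1, h2, h3, h4⟩ := hF.re_lt hLG hG hi
    exact ⟨h3, by simp only [hβ]; linarith⟩
  have hnb : ∀ i, ‖b i‖ = ‖Mo (T ^ θ) (pt 0 (t i))‖ := by
    intro i; simp only [hb]; exact RCLike.norm_conj _
  set f : ℕ → ℝ → ℂ := fun i u => b i * (Complex.exp (-(β i : ℂ) * u) * A i u) with hf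
  set f' : ℕ → ℝ → ℂ := fun i u => b i * (Complex.exp (-(β i : ℂ) * u) * (-(β i : ℂ)) * A i u +
    Complex.exp (-(β i : ℂ) * u) * deriv (A i) u) with hf'
  have hAd : ∀ i < n₀, ∀ u : ℝ, HasDerivAt (A i) (deriv (A i) u) u := by
    intro i hi u
    obtain ⟨_, _, h3, h4, _⟩ := hF.1 i hi
    obtain ⟨h1, h2, _, _⟩ := hF.re_lt hLG hG hi
    exact hasDerivAt_Am _ _ _ hhpos _ _ h3 h4 h2 u
  have hAc : ∀ i < n₀, Continuous (A i) := fun i hi =>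
    continuous_iff_continuousAt.2 fun u => (hAd i hi u).continuousAt
  have hAc' : ∀ i, Continuous (deriv (A i)) := fun i => continuous_deriv_Am _ _ _ hhpos _ _
  have hfd : ∀ i < n₀, ∀ u : ℝ, HasDerivAt (f i) (f' i u) u := by
    intro i hi u
    have h1 : HasDerivAt (fun u : ℝ => (-(β i : ℂ)) * (u : ℂ)) (-(β i : ℂ)) u := by
      simpa using (Complex.ofRealCLM.hasDerivAt (x := u)).const_mul (-(β i : ℂ))
    have h2 := h1.cexp
    have h3 := (h2.mul (hAd i hi u)).const_mul (b i)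
    exact h3
  have hfc' : ∀ i < n₀, Continuous (f' i) := by
    intro i hi
    have h1 := hAc i hi
    have h2 := hAc' i
    simp only [hf']
    fun_prop
  have hexp : ∀ i < n₀, ∀ u : ℝ, 0 ≤ u → ‖Complex.exp (-(β i : ℂ) * u)‖ ≤ 1 := by
    intro i hi u hu
    rw [Complex.norm_exp]
    have : (-(β i : ℂ) * u).re = -(β i * u) := by
      rw [← ofReal_neg, ← ofReal_mul, ofReal_re]; ring
    rw [this, Real.exp_le_one_iff]
    have := mul_nonneg (hβi i hi).1 hu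
    linarith
  have hls' := hls n₀ (fun i => (ρ i).im) L (by linarith) hF.2.1 f f' n ℓ hℓ0 hfd hfc'
  -- the integrand
  have hint : ∀ u : ℝ, ‖Ft (T ^ θ) h ν n₀ t ρ u‖ ^ 2 * Real.exp u =
      ‖∑ i ∈ Finset.range n₀, Complex.exp (-(((ρ i).im : ℝ) * u * I)) * f i u‖ ^ 2 := by
    intro u
    have h1 : ∑ i ∈ Finset.range n₀, Complex.exp (-(((ρ i).im : ℝ) * u * I)) * f i u
        = Complex.exp ((u / 2 : ℝ)) * Ft (T ^ θ) h ν n₀ t ρ u := by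
      rw [Ft, Finset.mul_sum]
      refine Finset.sum_congr rfl fun i _ => ?_
      simp only [hf, hb, hA, hβ]
      have h2 : Complex.exp (-ρ i * u) * Complex.exp ((u / 2 : ℝ)) =
          Complex.exp (-(((ρ i).im : ℝ) * u * I)) *
            Complex.exp (-(((ρ i).re - 1 / 2 : ℝ) : ℂ) * u) := by
        rw [← Complex.exp_add, ← Complex.exp_add]
        congr 1
        conv_lhs => rw [← Complex.re_add_im (ρ i)]
        push_cast
        ring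
      linear_combination (-(starRingEnd ℂ) (Mo (T ^ θ) (pt 0 (t i))) *
        Am (T ^ θ) h ν (pt 0 (t i)) (ρ i) u) * h2
    rw [h1, norm_mul, mul_pow, Complex.norm_exp, ofReal_re, ← Real.exp_nat_mul]
    have : ((2 : ℕ) : ℝ) * (u / 2) = u := by push_cast; ring
    rw [this]; ring
  have hstep : ∫ u in n..(n + ℓ), ‖Ft (T ^ θ) h ν n₀ t ρ u‖ ^ 2 * Real.exp u
      ≤ C₃ * (L + ℓ) * (∑ i ∈ Finset.range n₀, ‖f i n‖ ^ 2 +
        ℓ * ∫ v in n..(n + ℓ), ∑ i ∈ Finset.range n₀, ‖f' i v‖ ^ 2) := by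
    refine le_trans (le_of_eq ?_) hls'
    exact intervalIntegral.integral_congr fun u _ => hint u
  -- first sum
  have hs1 : ∑ i ∈ Finset.range n₀, ‖f i n‖ ^ 2 ≤ C₂ * T * L ^ 2 := by
    refine le_trans (Finset.sum_le_sum fun i hi => ?_) (hen T hTa n₀ t ρ hF.1 hF.2.2 ν n hνn).1
    have hi' := Finset.mem_range.1 hi
    simp only [hf]
    rw [norm_mul, norm_mul, hnb, mul_pow, mul_pow]
    have h1 := hexp i hi' n hn
    have h2 : ‖Complex.exp (-(β i : ℂ) * n)‖ ^ 2 ≤ 1 := pow_le_one₀ (norm_nonneg _) h1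
    exact mul_le_mul_of_nonneg_left (mul_le_of_le_one_left (by positivity) h2) (by positivity)
  -- second
  have hs2 : ∀ v ∈ Icc n (n + ℓ), ∑ i ∈ Finset.range n₀, ‖f' i v‖ ^ 2
      ≤ (2 * G ^ 2 * C₂ + 2 * C₂) * T := by
    intro v hv
    have hv0 : 0 ≤ v := hn.trans hv.1
    have hνv : ν - v ≤ 3 * L := by linarith [hv.1]
    obtain ⟨e1, e2⟩ := hen T hTa n₀ t ρ hF.1 hF.2.2 ν v hνv
    have hterm : ∀ i ∈ Finset.range n₀, ‖f' i v‖ ^ 2 ≤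
        2 * (G / L) ^ 2 * (‖Mo (T ^ θ) (pt 0 (t i))‖ ^ 2 * ‖A i v‖ ^ 2) +
        2 * (‖Mo (T ^ θ) (pt 0 (t i))‖ ^ 2 * ‖deriv (A i) v‖ ^ 2) := by
      intro i hi
      have hi' := Finset.mem_range.1 hi
      have h1 := hexp i hi' v hv0
      have h3 : ‖f' i v‖ ≤ ‖b i‖ * (G / L * ‖A i v‖ + ‖deriv (A i) v‖) := by
        simp only [hf']
        rw [norm_mul]
        refine mul_le_mul_of_nonneg_left ?_ (norm_nonneg _)
        refine (norm_add_le _ _).trans (add_le_add ?_ ?_)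
        · rw [norm_mul, norm_mul, norm_neg, Complex.norm_real, Real.norm_eq_abs,
            abs_of_nonneg (hβi i hi').1]
          refine mul_le_mul_of_nonneg_right ?_ (norm_nonneg _)
          calc _ ≤ 1 * β i := mul_le_mul_of_nonneg_right h1 (hβi i hi').1
            _ ≤ G / L := by rw [one_mul]; exact (hβi i hi').2
        · rw [norm_mul]
          exact mul_le_of_le_one_left (norm_nonneg _) h1
      have h4 : ‖f' i v‖ ^ 2 ≤ (‖b i‖ * (G / L * ‖A i v‖ + ‖deriv (A i) v‖)) ^ 2 :=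
        pow_le_pow_left₀ (norm_nonneg _) h3 2
      refine h4.trans ?_
      rw [hnb, mul_pow]
      have h5 : (G / L * ‖A i v‖ + ‖deriv (A i) v‖) ^ 2 ≤
          2 * (G / L * ‖A i v‖) ^ 2 + 2 * ‖deriv (A i) v‖ ^ 2 := by
        nlinarith [sq_nonneg (G / L * ‖A i v‖ - ‖deriv (A i) v‖)]
      calc ‖Mo (T ^ θ) (pt 0 (t i))‖ ^ 2 * (G / L * ‖A i v‖ + ‖deriv (A i) v‖) ^ 2
          ≤ ‖Mo (T ^ θ) (pt 0 (t i))‖ ^ 2 *
            (2 * (G / L * ‖A i v‖) ^ 2 + 2 * ‖deriv (A i) v‖ ^ 2) :=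
            mul_le_mul_of_nonneg_left h5 (by positivity)
        _ = _ := by ring
    calc ∑ i ∈ Finset.range n₀, ‖f' i v‖ ^ 2
        ≤ ∑ i ∈ Finset.range n₀, (2 * (G / L) ^ 2 *
          (‖Mo (T ^ θ) (pt 0 (t i))‖ ^ 2 * ‖A i v‖ ^ 2) +
          2 * (‖Mo (T ^ θ) (pt 0 (t i))‖ ^ 2 * ‖deriv (A i) v‖ ^ 2)) :=
          Finset.sum_le_sum hterm
      _ = 2 * (G / L) ^ 2 * ∑ i ∈ Finset.range n₀,
            (‖Mo (T ^ θ) (pt 0 (t i))‖ ^ 2 * ‖A i v‖ ^ 2) +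
          2 * ∑ i ∈ Finset.range n₀,
            (‖Mo (T ^ θ) (pt 0 (t i))‖ ^ 2 * ‖deriv (A i) v‖ ^ 2) := by
          rw [Finset.sum_add_distrib, Finset.mul_sum, Finset.mul_sum]
      _ ≤ 2 * (G / L) ^ 2 * (C₂ * T * L ^ 2) + 2 * (C₂ * T) := by
          gcongr
      _ = _ := by field_simp
  have hs3 : ∫ v in n..(n + ℓ), ∑ i ∈ Finset.range n₀, ‖f' i v‖ ^ 2
      ≤ ℓ * ((2 * G ^ 2 * C₂ + 2 * C₂) * T) := by
    have hc : Continuous fun v => ∑ i ∈ Finset.range n₀, ‖f' i v‖ ^ 2 :=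
      continuous_finset_sum _ fun i hi => ((hfc' i (Finset.mem_range.1 hi)).norm.pow 2)
    calc ∫ v in n..(n + ℓ), ∑ i ∈ Finset.range n₀, ‖f' i v‖ ^ 2
        ≤ ∫ _ in n..(n + ℓ), ((2 * G ^ 2 * C₂ + 2 * C₂) * T) :=
          intervalIntegral.integral_mono_on (by linarith) (hc.intervalIntegrable _ _)
            intervalIntegrable_const hs2
      _ = _ := by rw [intervalIntegral.integral_const, smul_eq_mul]; ring
  refine hstep.trans ?_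
  have hp : 0 ≤ (2 * G ^ 2 * C₂ + 2 * C₂) * T := by positivity
  calc C₃ * (L + ℓ) * (∑ i ∈ Finset.range n₀, ‖f i n‖ ^ 2 +
        ℓ * ∫ v in n..(n + ℓ), ∑ i ∈ Finset.range n₀, ‖f' i v‖ ^ 2)
      ≤ C₃ * (L + 2 * L) * (C₂ * T * L ^ 2 +
        2 * L * (2 * L * ((2 * G ^ 2 * C₂ + 2 * C₂) * T))) := by
        have h0 : 0 ≤ ∑ i ∈ Finset.range n₀, ‖f i n‖ ^ 2 +
          ℓ * ∫ v in n..(n + ℓ), ∑ i ∈ Finset.range n₀, ‖f' i v‖ ^ 2 := by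
          refine add_nonneg (Finset.sum_nonneg fun i _ => by positivity)
            (mul_nonneg hℓ0 (intervalIntegral.integral_nonneg (by linarith) fun v _ =>
              Finset.sum_nonneg fun i _ => by positivity))
        refine mul_le_mul (by gcongr) (add_le_add hs1 ?_) h0 (by positivity)
        calc ℓ * ∫ v in n..(n + ℓ), ∑ i ∈ Finset.range n₀, ‖f' i v‖ ^ 2
            ≤ ℓ * (ℓ * ((2 * G ^ 2 * C₂ + 2 * C₂) * T)) := mul_le_mul_of_nonneg_left hs3 hℓ0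
          _ ≤ 2 * L * (2 * L * ((2 * G ^ 2 * C₂ + 2 * C₂) * T)) := by gcongr
    _ = _ := by ring

end Pool.Agent.H14.CO
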