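import Pool.Agent.H14.CO.CorePair

/-!
# CO: the test function outside the window
-/

set_option autoImplicit false

namespace Pool.Agent.H14.CO

open Set MeasureTheory Complex Pool.Agent.H95.GC

theorem norm_Am_le (z₀ h ν : ℝ) (hz : 1 < z₀) (s ρ : ℂ) (hs : 0 ≤ s.re) (u K : ℝ)
    (hK : ∀ r : ℝ, ν - u - 2 * Real.log z₀ ≤ r → r ≤ ν - u → ‖az h r ρ‖ ≤ K) :
    ‖Am z₀ h ν s ρ u‖ ≤ z₀ ^ 2 * K := by
  have hz0 : 0 < z₀ := by linarith
  have hlz : 0 < Real.log z₀ := Real.log_pos hz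
  have hK0 : 0 ≤ K := (norm_nonneg _).trans (hK (ν - u) (by linarith) le_rfl)
  rw [Am]
  calc _ ≤ ∑ m ∈ Finset.Icc 1 ⌊z₀ ^ 2⌋₊, K := by
        refine (norm_sum_le _ _).trans (Finset.sum_le_sum fun m hm => ?_)
        have hm1 : 1 ≤ m := (Finset.mem_Icc.1 hm).1
        have hm0 : (0 : ℝ) < m := by exact_mod_cast hm1
        have h1 : (m : ℝ) ≤ z₀ ^ 2 := (Nat.le_floor_iff (by positivity)).1 (Finset.mem_Icc.1 hm).2
        have h3 : Real.log m ≤ 2 * Real.log z₀ := by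
          calc Real.log m ≤ Real.log (z₀ ^ 2) := Real.log_le_log hm0 h1
            _ = 2 * Real.log z₀ := by rw [Real.log_pow]; norm_num
        have h4 : 0 ≤ Real.log m := Real.log_nonneg (by exact_mod_cast hm1)
        have h2 : ‖(lam z₀ m : ℂ) * (m : ℂ) ^ (-s)‖ ≤ 1 := by
          rw [norm_mul, Complex.norm_real, Real.norm_eq_abs]
          exact mul_le_one₀ (abs_lam_le z₀ hz m) (norm_nonneg _) (cpow_norm_half m hm1 s hs)
        rw [norm_mul]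
        exact (mul_le_of_le_one_left (norm_nonneg _) h2).trans
          (hK _ (by linarith) (by linarith))
    _ = ((Finset.Icc 1 ⌊z₀ ^ 2⌋₊).card : ℝ) * K := by
        rw [Finset.sum_const, nsmul_eq_mul]
    _ ≤ z₀ ^ 2 * K := mul_le_mul_of_nonneg_right (card_le z₀ hz) hK0

theorem norm_Ft_le (z₀ h ν : ℝ) (hz : 1 < z₀) (n₀ : ℕ) (t : ℕ → ℝ) (ρ : ℕ → ℂ) (u K : ℝ)
    (hu : -1 ≤ u) (hρ : ∀ i < n₀, 1 / 2 ≤ (ρ i).re ∧ (ρ i).re < 1)
    (hK : ∀ i < n₀, ∀ r : ℝ, ν - u - 2 * Real.log z₀ ≤ r → r ≤ ν - u → ‖az h r (ρ i)‖ ≤ K) :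
    ‖Ft z₀ h ν n₀ t ρ u‖ ≤ n₀ * (3 * z₀ ^ 5 * K) := by
  have hz0 : 0 < z₀ := by linarith
  rw [Ft]
  calc _ ≤ ∑ i ∈ Finset.range n₀, (3 * z₀ ^ 5 * K) := by
        refine (norm_sum_le _ _).trans (Finset.sum_le_sum fun i hi => ?_)
        have hi' := Finset.mem_range.1 hi
        obtain ⟨h1, h2⟩ := hρ i hi'
        have hA := norm_Am_le z₀ h ν hz (pt 0 (t i)) (ρ i) (by rw [pt_zero_re]; norm_num) u K
          (hK i hi')
        have hM : ‖(starRingEnd ℂ) (Mo z₀ (pt 0 (t i)))‖ ≤ z₀ ^ 3 := by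
          rw [RCLike.norm_conj]
          refine (norm_Mo_le z₀ hz _).trans (le_of_eq ?_)
          rw [pt_zero_re, ← Real.rpow_natCast]
          congr 1
          rw [abs_of_pos (by norm_num : (0 : ℝ) < 1 / 2)]
          norm_num
        have hE : ‖Complex.exp (-ρ i * u)‖ ≤ 3 := by
          rw [Complex.norm_exp]
          have e1 : (-ρ i * (u : ℂ)).re = -((ρ i).re * u) := by
            rw [Complex.mul_re]; simp
          rw [e1]
          have e2 : -((ρ i).re * u) ≤ 1 := by nlinarith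
          calc Real.exp (-((ρ i).re * u)) ≤ Real.exp 1 := Real.exp_le_exp.2 e2
            _ ≤ 3 := by linarith [Real.exp_one_lt_d9]
        rw [norm_mul, norm_mul]
        have hA0 : 0 ≤ z₀ ^ 2 * K := (norm_nonneg _).trans hA
        calc _ ≤ z₀ ^ 3 * (3 * (z₀ ^ 2 * K)) := by
              refine mul_le_mul hM (mul_le_mul hE hA (norm_nonneg _) (by norm_num))
                (by positivity) (by positivity)
          _ = _ := by ring
    _ = _ := by rw [Finset.sum_const, nsmul_eq_mul, Finset.card_range]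

/-- Left part: `-1 ≤ u ≤ n`. -/
theorem left_part (z₀ h ν δ n K : ℝ) (hz : 1 < z₀) (hδ0 : 0 < δ) (hδ1 : δ ≤ 1) (hn : 0 ≤ n)
    (n₀ : ℕ) (t : ℕ → ℝ) (ρ : ℕ → ℂ)
    (hρ : ∀ i < n₀, 1 / 2 ≤ (ρ i).re ∧ (ρ i).re < 1)
    (hK : ∀ i < n₀, ∀ r : ℝ, ν - n - 2 * Real.log z₀ ≤ r → ‖az h r (ρ i)‖ ≤ K) :
    ‖∫ u in Ioc (-1 : ℝ) n, (g δ u : ℂ) * Ft z₀ h ν n₀ t ρ u‖ ≤
      (n₀ * (3 * z₀ ^ 5 * K)) * (Real.exp n + 1) * (n + 1) := by
  have h1 : ∀ u ∈ Ioc (-1 : ℝ) n, ‖(g δ u : ℂ) * Ft z₀ h ν n₀ t ρ u‖ ≤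
      (n₀ * (3 * z₀ ^ 5 * K)) * (Real.exp n + 1) := by
    intro u hu
    rw [norm_mul, Complex.norm_real, Real.norm_eq_abs, mul_comm]
    have h2 := norm_Ft_le z₀ h ν hz n₀ t ρ u K hu.1.le hρ
      (fun i hi r hr1 _ => hK i hi r (by linarith [hu.2]))
    have h3 := abs_g_le δ u hδ0 hδ1
    have h4 : Real.exp u ≤ Real.exp n := Real.exp_le_exp.2 hu.2
    exact mul_le_mul h2 (by linarith) (abs_nonneg _) ((norm_nonneg _).trans h2)
  have h5 := norm_setIntegral_le_of_norm_le_const (μ := volume) (s := Ioc (-1 : ℝ) n)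
    (by rw [Real.volume_Ioc]; exact ENNReal.ofReal_lt_top) h1
  refine h5.trans (le_of_eq ?_)
  rw [Measure.real, Real.volume_Ioc, ENNReal.toReal_ofReal (by linarith)]
  ring

/-- Right part: `u > n'`. -/
theorem right_part (z₀ h ν δ n' K : ℝ) (hz : 1 < z₀) (hδ0 : 0 < δ) (hδ1 : δ ≤ 1) (hn : 0 ≤ n')
    (n₀ : ℕ) (t : ℕ → ℝ) (ρ : ℕ → ℂ) (hK0 : 0 ≤ K)
    (hρ : ∀ i < n₀, 1 / 2 ≤ (ρ i).re ∧ (ρ i).re < 1)
    (hK : ∀ i < n₀, ∀ r : ℝ, r ≤ ν - n' → ‖az h r (ρ i)‖ ≤ K * Real.exp (2 * (r - (ν - n')))) :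
    ‖∫ u in Ioi n', (g δ u : ℂ) * Ft z₀ h ν n₀ t ρ u‖ ≤
      (n₀ * (3 * z₀ ^ 5 * K)) * (2 * Real.exp n') := by
  have hz0 : 0 < z₀ := by linarith
  have h1 : ∀ u ∈ Ioi n', ‖(g δ u : ℂ) * Ft z₀ h ν n₀ t ρ u‖ ≤
      ((n₀ * (3 * z₀ ^ 5 * K)) * (2 * Real.exp (2 * n'))) * Real.exp (-u) := by
    intro u hu
    have hu' : n' < u := hu
    rw [norm_mul, Complex.norm_real, Real.norm_eq_abs, mul_comm]
    have h2 := norm_Ft_le z₀ h ν hz n₀ t ρ u (K * Real.exp (-2 * (u - n'))) (by linarith) hρ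
      (fun i hi r _ hr2 => by
        refine (hK i hi r (by linarith)).trans ?_
        apply mul_le_mul_of_nonneg_left _ hK0
        apply Real.exp_le_exp.2
        linarith)
    have h3 := abs_g_le δ u hδ0 hδ1
    have h4 : 1 ≤ Real.exp u := Real.one_le_exp (by linarith)
    have h5 : |g δ u| ≤ 2 * Real.exp u := by linarith
    calc ‖Ft z₀ h ν n₀ t ρ u‖ * |g δ u|
        ≤ (n₀ * (3 * z₀ ^ 5 * (K * Real.exp (-2 * (u - n'))))) * (2 * Real.exp u) :=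
          mul_le_mul h2 h5 (abs_nonneg _) ((norm_nonneg _).trans h2)
      _ = ((n₀ * (3 * z₀ ^ 5 * K)) * 2) * (Real.exp (-2 * (u - n')) * Real.exp u) := by ring
      _ = ((n₀ * (3 * z₀ ^ 5 * K)) * 2) * (Real.exp (2 * n') * Real.exp (-u)) := by
          rw [← Real.exp_add, ← Real.exp_add]
          congr 2
          ring
      _ = _ := by ring
  have h6 : IntegrableOn (fun u : ℝ => ((n₀ * (3 * z₀ ^ 5 * K)) * (2 * Real.exp (2 * n'))) *
      Real.exp (-u)) (Ioi n') := (integrableOn_exp_neg_Ioi n').const_mul _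
  have h7 := norm_integral_le_of_norm_le h6
    ((ae_restrict_iff' measurableSet_Ioi).2 (Filter.Eventually.of_forall h1))
  refine h7.trans (le_of_eq ?_)
  rw [integral_const_mul, integral_exp_neg_Ioi]
  have : Real.exp (2 * n') * Real.exp (-n') = Real.exp n' := by
    rw [← Real.exp_add]; congr 1; ring
  calc _ = ((n₀ * (3 * z₀ ^ 5 * K)) * 2) * (Real.exp (2 * n') * Real.exp (-n')) := by ring
    _ = _ := by rw [this]; ring

end Pool.Agent.H14.CO
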