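import Pool.Agent.H14.CO.Rel
import Pool.Agent.H14.CO.CoreEn
import Pool.Agent.H95.GC.CoreB

/-!
# CO: pairing the window function with the test function
-/

set_option autoImplicit false

namespace Pool.Agent.H14.CO

open Set MeasureTheory Complex Pool.Agent.H95.GC

/-- the local factor at a zero -/
noncomputable def Wt (δ : ℝ) (ρ : ℂ) : ℂ :=
  ∫ v in Ioo (-Real.log (1 + δ / 2)) (-Real.log (1 - δ / 2)), Complex.exp (-ρ * v)

theorem cpow_norm_half (m : ℕ) (hm : 1 ≤ m) (s : ℂ) (hs : 0 ≤ s.re) : ‖(m : ℂ) ^ (-s)‖ ≤ 1 := by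
  have hm0 : (0 : ℝ) < m := by exact_mod_cast hm
  have h1 : ((m : ℝ) : ℂ) = (m : ℂ) := by simp
  rw [← h1, Complex.norm_cpow_eq_rpow_re_of_pos hm0, neg_re]
  exact Real.rpow_le_one_of_one_le_of_nonpos (by exact_mod_cast hm) (by linarith)

theorem card_le (z₀ : ℝ) (hz : 1 < z₀) : ((Finset.Icc 1 ⌊z₀ ^ 2⌋₊).card : ℝ) ≤ z₀ ^ 2 := by
  rw [Nat.card_Icc, Nat.add_sub_cancel]
  exact Nat.floor_le (by positivity)

theorem pair_one (B : ℝ) (hB : 1 ≤ B) : ∃ C : ℝ, 0 < C ∧ ∀ z₀ h ν δ : ℝ, 1 < z₀ → 1 ≤ h →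
    0 < δ → δ ≤ 1 / 2 → ∀ s ρ : ℂ, 0 ≤ s.re → 1 / 2 ≤ ρ.re → ρ.re < 1 → 1 ≤ |ρ.im| →
    Integrable (fun u : ℝ => (g δ u : ℂ) * (Complex.exp (-ρ * u) * Am z₀ h ν s ρ u)) ∧
    ‖(∫ u : ℝ, (g δ u : ℂ) * (Complex.exp (-ρ * u) * Am z₀ h ν s ρ u)) - Mo z₀ s * Wt δ ρ‖
      ≤ C * z₀ ^ 2 * δ * Real.exp (-B * (ν - 2 * Real.log z₀) + 32 * h * B) := by
  obtain ⟨C, hC, hrel⟩ := rel B hB
  refine ⟨C, hC, ?_⟩
  intro z₀ h ν δ hz hh hδ0 hδ1 s ρ hs hρ0 hρ1 hρ2
  have hz0 : 0 < z₀ := by linarith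
  have hlz : 0 < Real.log z₀ := Real.log_pos hz
  set S := Finset.Icc 1 ⌊z₀ ^ 2⌋₊ with hS
  have hlog : ∀ m ∈ S, Real.log m ≤ 2 * Real.log z₀ := by
    intro m hm
    rw [hS, Finset.mem_Icc] at hm
    have hm0 : (0 : ℝ) < m := by exact_mod_cast hm.1
    have h1 : (m : ℝ) ≤ z₀ ^ 2 := (Nat.le_floor_iff (by positivity)).1 hm.2
    calc Real.log m ≤ Real.log (z₀ ^ 2) := Real.log_le_log hm0 h1
      _ = 2 * Real.log z₀ := by rw [Real.log_pow]; norm_num
  have hr : ∀ m ∈ S, Integrable (fun u : ℝ => (g δ u : ℂ) * Complex.exp (-ρ * u) *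
        az h (ν - Real.log m - u) ρ) ∧
      ‖(∫ u : ℝ, (g δ u : ℂ) * Complex.exp (-ρ * u) * az h (ν - Real.log m - u) ρ) - Wt δ ρ‖
        ≤ C * δ * Real.exp (-B * (ν - 2 * Real.log z₀) + 32 * h * B) := by
    intro m hm
    obtain ⟨h1, h2⟩ := hrel h (ν - Real.log m) δ hh hδ0 hδ1 ρ hρ0 hρ1 hρ2
    refine ⟨h1, h2.trans ?_⟩
    apply mul_le_mul_of_nonneg_left _ (by positivity)
    apply Real.exp_le_exp.2
    have := hlog m hm
    nlinarith
  have hpt : ∀ u : ℝ, (g δ u : ℂ) * (Complex.exp (-ρ * u) * Am z₀ h ν s ρ u) =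
      ∑ m ∈ S, (lam z₀ m : ℂ) * (m : ℂ) ^ (-s) * ((g δ u : ℂ) * Complex.exp (-ρ * u) *
        az h (ν - Real.log m - u) ρ) := by
    intro u
    rw [Am, Finset.mul_sum, Finset.mul_sum]
    refine Finset.sum_congr rfl fun m _ => ?_
    have : ν - u - Real.log m = ν - Real.log m - u := by ring
    rw [this]; ring
  have hfun : (fun u : ℝ => (g δ u : ℂ) * (Complex.exp (-ρ * u) * Am z₀ h ν s ρ u)) =
      fun u => ∑ m ∈ S, (lam z₀ m : ℂ) * (m : ℂ) ^ (-s) * ((g δ u : ℂ) * Complex.exp (-ρ * u) *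
        az h (ν - Real.log m - u) ρ) := funext hpt
  constructor
  · rw [hfun]
    exact integrable_finsetSum _ fun m hm => (hr m hm).1.const_mul _
  · rw [hfun, integral_finsetSum _ fun m hm => (hr m hm).1.const_mul _]
    have h1 : Mo z₀ s * Wt δ ρ = ∑ m ∈ S, (lam z₀ m : ℂ) * (m : ℂ) ^ (-s) * Wt δ ρ := by
      rw [Mo, Finset.sum_mul]
    rw [h1, ← Finset.sum_sub_distrib]
    calc _ ≤ ∑ m ∈ S, C * δ * Real.exp (-B * (ν - 2 * Real.log z₀) + 32 * h * B) := by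
          refine (norm_sum_le _ _).trans (Finset.sum_le_sum fun m hm => ?_)
          rw [integral_const_mul, ← mul_sub, norm_mul]
          have hm1 : 1 ≤ m := (Finset.mem_Icc.1 hm).1
          have h2 : ‖(lam z₀ m : ℂ) * (m : ℂ) ^ (-s)‖ ≤ 1 := by
            rw [norm_mul, Complex.norm_real, Real.norm_eq_abs]
            exact mul_le_one₀ (abs_lam_le z₀ hz m) (norm_nonneg _) (cpow_norm_half m hm1 s hs)
          exact (mul_le_of_le_one_left (norm_nonneg _) h2).trans (hr m hm).2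
      _ = (S.card : ℝ) * (C * δ * Real.exp (-B * (ν - 2 * Real.log z₀) + 32 * h * B)) := by
          rw [Finset.sum_const, nsmul_eq_mul]
      _ ≤ z₀ ^ 2 * (C * δ * Real.exp (-B * (ν - 2 * Real.log z₀) + 32 * h * B)) :=
          mul_le_mul_of_nonneg_right (card_le z₀ hz) (by positivity)
      _ = _ := by ring

/-- real part of the local factor -/
theorem Wt_re (δ : ℝ) (hδ0 : 0 < δ) (hδ1 : δ ≤ 1 / 2) (s : ℂ) (hs : ‖s‖ * δ ≤ 1 / 4) :
    δ / 4 ≤ (Wt δ s).re := by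
  have hl1 : 0 ≤ Real.log (1 + δ / 2) := Real.log_nonneg (by linarith)
  have hl2 : Real.log (1 + δ / 2) ≤ δ / 2 := by
    have := Real.log_le_sub_one_of_pos (show 0 < 1 + δ / 2 by linarith)
    linarith
  have hl3 : Real.log (1 - δ / 2) ≤ -(δ / 2) := by
    have := Real.log_le_sub_one_of_pos (show 0 < 1 - δ / 2 by linarith)
    linarith
  have hl4 : -δ ≤ Real.log (1 - δ / 2) := by
    rw [Real.le_log_iff_exp_le (by linarith), Real.exp_neg]
    have h1 : 1 + δ ≤ Real.exp δ := by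
      have := Real.add_one_le_exp δ; linarith
    have h2 : (Real.exp δ)⁻¹ ≤ (1 + δ)⁻¹ := inv_anti₀ (by linarith) h1
    have h3 : (1 + δ)⁻¹ ≤ 1 - δ / 2 := by
      rw [inv_le_iff_one_le_mul₀ (by linarith)]
      nlinarith
    linarith
  have hab : -Real.log (1 + δ / 2) ≤ -Real.log (1 - δ / 2) := by linarith
  have hint : IntegrableOn (fun v : ℝ => Complex.exp (-s * v))
      (Ioo (-Real.log (1 + δ / 2)) (-Real.log (1 - δ / 2))) := by
    apply IntegrableOn.mono_set (t := Icc (-Real.log (1 + δ / 2)) (-Real.log (1 - δ / 2))) _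
      Ioo_subset_Icc_self
    exact (by fun_prop : Continuous (fun v : ℝ => Complex.exp (-s * v))).continuousOn.integrableOn_Icc
  have hre : ∀ v ∈ Ioo (-Real.log (1 + δ / 2)) (-Real.log (1 - δ / 2)),
      (1 / 2 : ℝ) ≤ (Complex.exp (-s * v)).re := by
    intro v hv
    have hv1 : |v| ≤ δ := by
      rw [abs_le]; constructor <;> linarith [hv.1, hv.2]
    have h1 : ‖-s * (v : ℂ)‖ ≤ 1 / 4 := by
      rw [norm_mul, norm_neg, Complex.norm_real, Real.norm_eq_abs]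
      calc ‖s‖ * |v| ≤ ‖s‖ * δ := mul_le_mul_of_nonneg_left hv1 (norm_nonneg _)
        _ ≤ 1 / 4 := hs
    have h2 : ‖Complex.exp (-s * v) - 1‖ ≤ 2 * ‖-s * (v : ℂ)‖ :=
      Complex.norm_exp_sub_one_le (by linarith)
    have h3 : |(Complex.exp (-s * v) - 1).re| ≤ 1 / 2 :=
      (Complex.abs_re_le_norm _).trans (by linarith)
    rw [Complex.sub_re, Complex.one_re, abs_le] at h3
    linarith [h3.1]
  have h4 : (Wt δ s).re = ∫ v in Ioo (-Real.log (1 + δ / 2)) (-Real.log (1 - δ / 2)),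
      (Complex.exp (-s * v)).re := by
    exact (integral_re hint).symm
  have h5 : ∫ v in Ioo (-Real.log (1 + δ / 2)) (-Real.log (1 - δ / 2)), (1 / 2 : ℝ)
      ≤ ∫ v in Ioo (-Real.log (1 + δ / 2)) (-Real.log (1 - δ / 2)),
      (Complex.exp (-s * v)).re := by
    apply setIntegral_mono_on _ hint.re measurableSet_Ioo hre
    apply integrableOn_const (by simp)
  have h6 : ∫ v in Ioo (-Real.log (1 + δ / 2)) (-Real.log (1 - δ / 2)), (1 / 2 : ℝ)
      = (-Real.log (1 - δ / 2) - -Real.log (1 + δ / 2)) * (1 / 2) := by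
    rw [setIntegral_const, smul_eq_mul, Measure.real, Real.volume_Ioo,
      ENNReal.toReal_ofReal (by linarith)]
  rw [h4]
  linarith

end Pool.Agent.H14.CO
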