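import Pool.Agent.H14.CO.Line
import Pool.Agent.H14.CO.Kern

/-!
# CO module Cut: the cut-off functions `vc`, `vd`
-/

set_option autoImplicit false

namespace Pool.Agent.H14.CO

open Set MeasureTheory Complex

/-- `vc h r = (1/2π) ∫ exp(z r) kn h z / z dy`, `z = 1 + iy`: a smooth cut-off function, near `1` for
`r → +∞` and near `0` for `r → -∞` (think `r = log (Y / l)`). -/
noncomputable def vc (h r : ℝ) : ℂ :=
  (1 / (2 * Real.pi) : ℝ) * ∫ y : ℝ, Complex.exp ((1 + y * I) * r) * (kn h (1 + y * I) / (1 + y * I))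

/-- `vd h r = (1/2π) ∫ exp(z r) kn h z dy`, `z = 1 + iy`. -/
noncomputable def vd (h r : ℝ) : ℂ :=
  (1 / (2 * Real.pi) : ℝ) * ∫ y : ℝ, Complex.exp ((1 + y * I) * r) * kn h (1 + y * I)

private theorem Cut_re (σ y : ℝ) : ((σ : ℂ) + y * I).re = σ := by simp

private theorem Cut_im (σ y : ℝ) : ((σ : ℂ) + y * I).im = y := by simp

private theorem Cut_norm_exp (z : ℂ) (r : ℝ) : ‖Complex.exp (z * r)‖ = Real.exp (z.re * r) := by
  rw [Complex.norm_exp]
  congr 1
  simp

private theorem Cut_ne (σ y : ℝ) (hσ : σ ≠ 0) : ((σ : ℂ) + y * I) ≠ 0 := by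
  intro h
  have := congrArg Complex.re h
  rw [Cut_re] at this
  exact hσ (by simpa using this)

/-- decay in a strip -/
private theorem Cut_decay (h r S : ℝ) (hh : 0 < h) (z : ℂ) (hz : |z.re| ≤ S) :
    ‖Complex.exp (z * r) * kn h z‖ ≤
      (Real.exp (S * |r|) * (2 ^ 32 * Real.exp (32 * h * S + S ^ 2))) / (1 + z.im ^ 2) := by
  have hS : 0 ≤ S := (abs_nonneg _).trans hz
  rw [norm_mul, Cut_norm_exp, mul_div_assoc]
  apply mul_le_mul _ _ (norm_nonneg _) (Real.exp_pos _).le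
  · apply Real.exp_le_exp.2
    calc z.re * r ≤ |z.re * r| := le_abs_self _
      _ = |z.re| * |r| := abs_mul _ _
      _ ≤ S * |r| := mul_le_mul_of_nonneg_right hz (abs_nonneg _)
  · have h1 := norm_kn_le h hh.le z
    have h2 : (1 : ℝ) ≤ (1 + h * ‖z‖) ^ 32 := by
      apply one_le_pow₀
      have : 0 ≤ h * ‖z‖ := by positivity
      linarith
    have h3 : ‖kn h z‖ ≤ ‖kn h z‖ * (1 + h * ‖z‖) ^ 32 := le_mul_of_one_le_right (norm_nonneg _) h2
    refine (h3.trans h1).trans ?_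
    rw [show 32 * h * |z.re| + z.re ^ 2 - z.im ^ 2 = (32 * h * |z.re| + z.re ^ 2) + (- z.im ^ 2) by ring,
      Real.exp_add, mul_div_assoc]
    apply mul_le_mul_of_nonneg_left _ (by positivity)
    rw [div_eq_mul_inv]
    apply mul_le_mul _ _ (Real.exp_pos _).le (Real.exp_pos _).le
    · apply Real.exp_le_exp.2
      have h4 : 32 * h * |z.re| ≤ 32 * h * S := mul_le_mul_of_nonneg_left hz (by positivity)
      have h5 : z.re ^ 2 ≤ S ^ 2 := by
        rw [← sq_abs z.re]
        exact pow_le_pow_left₀ (abs_nonneg _) hz 2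
      linarith
    · rw [Real.exp_neg]
      apply inv_anti₀ (by positivity)
      have := Real.add_one_le_exp (z.im ^ 2)
      linarith

private theorem Cut_diff (h r : ℝ) : Differentiable ℂ (fun z : ℂ => Complex.exp (z * r) * kn h z) := by
  intro z
  exact ((differentiableAt_id.mul_const _).cexp).mul (differentiable_kn h z)

/-- the line may be moved (`line_shift`). -/
theorem vc_line (h r σ : ℝ) (hh : 0 < h) (hσ : 0 < σ) :
    vc h r = (1 / (2 * Real.pi) : ℝ) *
      ∫ y : ℝ, Complex.exp ((σ + y * I) * r) * (kn h (σ + y * I) / (σ + y * I)) := by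
  have key : ∀ a b : ℝ, 0 < a → a ≤ b →
      ∫ y : ℝ, Complex.exp (((a : ℂ) + y * I) * r) * (kn h ((a : ℂ) + y * I) / ((a : ℂ) + y * I)) =
      ∫ y : ℝ, Complex.exp (((b : ℂ) + y * I) * r) * (kn h ((b : ℂ) + y * I) / ((b : ℂ) + y * I)) := by
    intro a b ha hab
    refine line_shift (fun z : ℂ => Complex.exp (z * r) * (kn h z / z)) a b hab ?_
      ((Real.exp (b * |r|) * (2 ^ 32 * Real.exp (32 * h * b + b ^ 2))) / a) ?_
    · intro z hz _
      have hz0 : z ≠ 0 := by
        intro h0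
        rw [h0] at hz
        simp at hz
        linarith
      exact ((differentiableAt_id.mul_const _).cexp).mul ((differentiable_kn h z).div differentiableAt_id hz0)
    · intro z hz hz'
      have hz0 : z ≠ 0 := by
        intro h0
        rw [h0] at hz
        simp at hz
        linarith
      have h1 := Cut_decay h r b hh z (by rw [abs_of_pos (by linarith)]; exact hz')
      have h2 : a ≤ ‖z‖ := hz.trans ((le_abs_self _).trans (Complex.abs_re_le_norm z))
      rw [← mul_div_assoc, norm_div, div_div, mul_comm a, ← div_div]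
      calc ‖Complex.exp (z * r) * kn h z‖ / ‖z‖ ≤ ‖Complex.exp (z * r) * kn h z‖ / a :=
            div_le_div_of_nonneg_left (norm_nonneg _) ha h2
        _ ≤ _ := div_le_div_of_nonneg_right h1 ha.le
  unfold vc
  congr 1
  rcases le_total 1 σ with h1 | h1
  · have := key 1 σ one_pos h1
    simpa using this
  · have := key σ 1 hσ h1
    simpa using this.symm

/-- crossing the pole at `0` (`line_residue`, `kn h 0 = 1`). -/
theorem vc_line_neg (h r σ : ℝ) (hh : 0 < h) (hσ : σ < 0) :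
    vc h r = 1 + (1 / (2 * Real.pi) : ℝ) *
      ∫ y : ℝ, Complex.exp ((σ + y * I) * r) * (kn h (σ + y * I) / (σ + y * I)) := by
  have h1 := line_residue (fun z : ℂ => Complex.exp (z * r) * kn h z) σ 1 hσ one_pos
    (fun z _ _ => Cut_diff h r z)
    (Real.exp ((1 + |σ|) * |r|) * (2 ^ 32 * Real.exp (32 * h * (1 + |σ|) + (1 + |σ|) ^ 2)))
    (fun z hz hz' => Cut_decay h r (1 + |σ|) hh z (by
      rw [abs_le]
      rw [abs_of_neg hσ]
      constructor <;> linarith))
  simp only [Complex.ofReal_one, zero_mul, Complex.exp_zero, kn_zero, mul_one] at h1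
  have e : ∀ s : ℂ, ∀ y : ℝ, Complex.exp ((s + y * I) * r) * (kn h (s + y * I) / (s + y * I)) =
      Complex.exp ((s + y * I) * r) * kn h (s + y * I) / (s + y * I) := fun s y => (mul_div_assoc _ _ _).symm
  unfold vc
  simp only [e]
  rw [sub_eq_iff_eq_add] at h1
  rw [h1, mul_add]
  congr 1
  push_cast
  have : (Real.pi : ℂ) ≠ 0 := by exact_mod_cast Real.pi_ne_zero
  field_simp

theorem vd_line (h r σ : ℝ) (hh : 0 < h) :
    vd h r = (1 / (2 * Real.pi) : ℝ) *
      ∫ y : ℝ, Complex.exp ((σ + y * I) * r) * kn h (σ + y * I) := by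
  have key : ∀ a b : ℝ, a ≤ b →
      ∫ y : ℝ, Complex.exp (((a : ℂ) + y * I) * r) * kn h ((a : ℂ) + y * I) =
      ∫ y : ℝ, Complex.exp (((b : ℂ) + y * I) * r) * kn h ((b : ℂ) + y * I) := by
    intro a b hab
    refine line_shift (fun z : ℂ => Complex.exp (z * r) * kn h z) a b hab ?_
      (Real.exp ((|a| + |b|) * |r|) * (2 ^ 32 * Real.exp (32 * h * (|a| + |b|) + (|a| + |b|) ^ 2))) ?_
    · intro z _ _
      exact Cut_diff h r z
    · intro z hz hz'
      apply Cut_decay h r (|a| + |b|) hh z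
      have h1 := neg_abs_le a
      have h2 := le_abs_self b
      have h3 := abs_nonneg a
      have h4 := abs_nonneg b
      rw [abs_le]
      constructor <;> linarith
  unfold vd
  congr 1
  rcases le_total 1 σ with h1 | h1
  · have := key 1 σ h1
    simpa using this
  · have := key σ 1 h1
    simpa using this.symm

private theorem Cut_cont (h σ : ℝ) : Continuous (fun y : ℝ => kn h ((σ : ℂ) + y * I)) :=
  (differentiable_kn h).continuous.comp (by fun_prop)

private theorem Cut_cont' (h σ : ℝ) (hσ : σ ≠ 0) :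
    Continuous (fun y : ℝ => kn h ((σ : ℂ) + y * I) / ((σ : ℂ) + y * I)) :=
  (Cut_cont h σ).div (by fun_prop) (fun y => Cut_ne σ y hσ)

private theorem Cut_weight (h y : ℝ) (hh : 0 ≤ h) (x : ℝ) (hx : 0 ≤ x) :
    x ≤ (1 + h * |y|) ^ 30 * (1 + |y|) ^ 0 * x := by
  rw [pow_zero, mul_one]
  apply le_mul_of_one_le_left hx
  apply one_le_pow₀
  have : 0 ≤ h * |y| := by positivity
  linarith

private theorem Cut_int : ∃ C : ℝ, 0 < C ∧ ∀ h σ : ℝ, 0 < h → σ ≠ 0 →
    Integrable (fun y : ℝ => ‖kn h (σ + y * I) / (σ + y * I)‖) ∧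
    ∫ y : ℝ, ‖kn h (σ + y * I) / (σ + y * I)‖
      ≤ C * Real.exp (32 * h * |σ| + σ ^ 2) * (1 + 1 / (h * |σ|)) := by
  obtain ⟨C, hC, H⟩ := kn_int 0
  refine ⟨C, hC, fun h σ hh hσ => ?_⟩
  obtain ⟨h1, h2⟩ := H h σ hh hσ
  have h3 : Integrable (fun y : ℝ => ‖kn h (σ + y * I) / (σ + y * I)‖) := by
    refine h1.mono' (Cut_cont' h σ hσ).norm.aestronglyMeasurable (Filter.Eventually.of_forall fun y => ?_)
    rw [norm_norm]
    exact Cut_weight h y hh.le _ (norm_nonneg _)
  refine ⟨h3, le_trans ?_ h2⟩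
  exact integral_mono h3 h1 fun y => Cut_weight h y hh.le _ (norm_nonneg _)

private theorem Cut_int' : ∃ C : ℝ, 0 < C ∧ ∀ h σ : ℝ, 0 < h →
    Integrable (fun y : ℝ => ‖kn h (σ + y * I)‖) ∧
    ∫ y : ℝ, ‖kn h (σ + y * I)‖ ≤ C * Real.exp (32 * h * |σ| + σ ^ 2) / h := by
  obtain ⟨C, hC, H⟩ := kn_int' 0
  refine ⟨C, hC, fun h σ hh => ?_⟩
  obtain ⟨h1, h2⟩ := H h σ hh
  have h3 : Integrable (fun y : ℝ => ‖kn h (σ + y * I)‖) := by
    refine h1.mono' (Cut_cont h σ).norm.aestronglyMeasurable (Filter.Eventually.of_forall fun y => ?_)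
    rw [norm_norm]
    exact Cut_weight h y hh.le _ (norm_nonneg _)
  refine ⟨h3, le_trans ?_ h2⟩
  exact integral_mono h3 h1 fun y => Cut_weight h y hh.le _ (norm_nonneg _)

private theorem Cut_norm_integral (f : ℝ → ℂ) (r σ : ℝ) :
    ‖∫ y : ℝ, Complex.exp (((σ : ℂ) + y * I) * r) * f y‖ ≤ Real.exp (σ * r) * ∫ y : ℝ, ‖f y‖ := by
  refine (norm_integral_le_integral_norm _).trans (le_of_eq ?_)
  rw [← integral_const_mul]
  congr 1
  ext y
  rw [norm_mul, Cut_norm_exp, Cut_re]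

private theorem Cut_two_pi : ‖(((1 / (2 * Real.pi) : ℝ)) : ℂ)‖ ≤ 1 := by
  rw [Complex.norm_real, Real.norm_eq_abs, abs_of_pos (by positivity)]
  rw [div_le_one (by positivity)]
  have := Real.pi_gt_three
  linarith

/-- `‖vc h r‖ ≤ C e^{B r + 32 h B}` (line `Re z = B`, `kn_int`). -/
theorem vc_bound (B : ℝ) (hB : 0 < B) : ∃ C : ℝ, 0 < C ∧ ∀ h r : ℝ, 1 ≤ h →
    ‖vc h r‖ ≤ C * Real.exp (B * r + 32 * h * B) := by
  obtain ⟨C, hC, H⟩ := Cut_int
  refine ⟨C * Real.exp (B ^ 2) * (1 + 1 / B), by positivity, fun h r hh => ?_⟩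
  have hh0 : 0 < h := by linarith
  obtain ⟨-, h2⟩ := H h B hh0 hB.ne'
  rw [vc_line h r B hh0 hB, norm_mul]
  have h3 := Cut_norm_integral (fun y => kn h ((B : ℂ) + y * I) / ((B : ℂ) + y * I)) r B
  have h4 : (1 + 1 / (h * |B|)) ≤ 1 + 1 / B := by
    rw [abs_of_pos hB]
    have : 1 / (h * B) ≤ 1 / B := one_div_le_one_div_of_le hB (by nlinarith)
    linarith
  calc _ ≤ 1 * ‖∫ y : ℝ, Complex.exp (((B : ℂ) + y * I) * r) * (kn h ((B : ℂ) + y * I) / ((B : ℂ) + y * I))‖ :=
        mul_le_mul_of_nonneg_right Cut_two_pi (norm_nonneg _)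
    _ ≤ Real.exp (B * r) * (C * Real.exp (32 * h * |B| + B ^ 2) * (1 + 1 / (h * |B|))) := by
        rw [one_mul]
        exact h3.trans (mul_le_mul_of_nonneg_left h2 (Real.exp_pos _).le)
    _ ≤ Real.exp (B * r) * (C * Real.exp (32 * h * |B| + B ^ 2) * (1 + 1 / B)) := by
        apply mul_le_mul_of_nonneg_left _ (Real.exp_pos _).le
        exact mul_le_mul_of_nonneg_left h4 (by positivity)
    _ = _ := by
        rw [abs_of_pos hB, Real.exp_add, Real.exp_add]
        ring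

/-- `‖1 - vc h r‖ ≤ C e^{-B r + 32 h B}` (line `Re z = -B`). -/
theorem vc_bound' (B : ℝ) (hB : 0 < B) : ∃ C : ℝ, 0 < C ∧ ∀ h r : ℝ, 1 ≤ h →
    ‖1 - vc h r‖ ≤ C * Real.exp (-B * r + 32 * h * B) := by
  obtain ⟨C, hC, H⟩ := Cut_int
  refine ⟨C * Real.exp (B ^ 2) * (1 + 1 / B), by positivity, fun h r hh => ?_⟩
  have hh0 : 0 < h := by linarith
  obtain ⟨-, h2⟩ := H h (-B) hh0 (by linarith)
  rw [vc_line_neg h r (-B) hh0 (by linarith), sub_add_cancel_left, norm_neg, norm_mul]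
  have h3 := Cut_norm_integral (fun y => kn h (((-B : ℝ) : ℂ) + y * I) / (((-B : ℝ) : ℂ) + y * I)) r (-B)
  have hab : |(-B)| = B := by rw [abs_neg, abs_of_pos hB]
  have h4 : (1 + 1 / (h * |(-B)|)) ≤ 1 + 1 / B := by
    rw [hab]
    have : 1 / (h * B) ≤ 1 / B := one_div_le_one_div_of_le hB (by nlinarith)
    linarith
  calc _ ≤ 1 * ‖∫ y : ℝ, Complex.exp ((((-B : ℝ) : ℂ) + y * I) * r) *
          (kn h (((-B : ℝ) : ℂ) + y * I) / (((-B : ℝ) : ℂ) + y * I))‖ :=
        mul_le_mul_of_nonneg_right Cut_two_pi (norm_nonneg _)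
    _ ≤ Real.exp (-B * r) * (C * Real.exp (32 * h * |(-B)| + (-B) ^ 2) * (1 + 1 / (h * |(-B)|))) := by
        rw [one_mul]
        exact h3.trans (mul_le_mul_of_nonneg_left h2 (Real.exp_pos _).le)
    _ ≤ Real.exp (-B * r) * (C * Real.exp (32 * h * |(-B)| + (-B) ^ 2) * (1 + 1 / B)) := by
        apply mul_le_mul_of_nonneg_left _ (Real.exp_pos _).le
        exact mul_le_mul_of_nonneg_left h4 (by positivity)
    _ = _ := by
        rw [hab, Real.exp_add, Real.exp_add, neg_sq]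
        ring

/-- `‖vd h r‖ ≤ C e^{B r + 32 h |B|}`, any real `B`. -/
theorem vd_bound (B : ℝ) : ∃ C : ℝ, 0 < C ∧ ∀ h r : ℝ, 1 ≤ h →
    ‖vd h r‖ ≤ C * Real.exp (B * r + 32 * h * |B|) := by
  obtain ⟨C, hC, H⟩ := Cut_int'
  refine ⟨C * Real.exp (B ^ 2), by positivity, fun h r hh => ?_⟩
  have hh0 : 0 < h := by linarith
  obtain ⟨-, h2⟩ := H h B hh0
  rw [vd_line h r B hh0, norm_mul]
  have h3 := Cut_norm_integral (fun y => kn h ((B : ℂ) + y * I)) r B
  have h4 : C * Real.exp (32 * h * |B| + B ^ 2) / h ≤ C * Real.exp (32 * h * |B| + B ^ 2) :=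
    div_le_self (by positivity) hh
  calc _ ≤ 1 * ‖∫ y : ℝ, Complex.exp (((B : ℂ) + y * I) * r) * kn h ((B : ℂ) + y * I)‖ :=
        mul_le_mul_of_nonneg_right Cut_two_pi (norm_nonneg _)
    _ ≤ Real.exp (B * r) * (C * Real.exp (32 * h * |B| + B ^ 2)) := by
        rw [one_mul]
        exact h3.trans (mul_le_mul_of_nonneg_left (h2.trans h4) (Real.exp_pos _).le)
    _ = _ := by
        rw [Real.exp_add, Real.exp_add]
        ring

private theorem Cut_conj_pt (y : ℝ) :
    (starRingEnd ℂ) (1 + (y : ℂ) * I) = 1 + ((-y : ℝ) : ℂ) * I := by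
  apply Complex.ext <;> simp

/-- `vc` is real. -/
theorem vc_conj (h r : ℝ) : (starRingEnd ℂ) (vc h r) = vc h r := by
  unfold vc
  rw [map_mul, Complex.conj_ofReal, ← integral_conj]
  congr 1
  rw [← integral_neg_eq_self
    (fun y : ℝ => Complex.exp ((1 + y * I) * r) * (kn h (1 + y * I) / (1 + y * I)))]
  congr 1
  ext y
  rw [map_mul, map_div₀, ← Complex.exp_conj, map_mul, ← kn_conj, Complex.conj_ofReal, Cut_conj_pt]

theorem vd_conj (h r : ℝ) : (starRingEnd ℂ) (vd h r) = vd h r := by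
  unfold vd
  rw [map_mul, Complex.conj_ofReal, ← integral_conj]
  congr 1
  rw [← integral_neg_eq_self
    (fun y : ℝ => Complex.exp ((1 + y * I) * r) * kn h (1 + y * I))]
  congr 1
  ext y
  rw [map_mul, ← Complex.exp_conj, map_mul, ← kn_conj, Complex.conj_ofReal, Cut_conj_pt]

private theorem Cut_continuous (f : ℝ → ℂ) (hf : Continuous f) (hi : Integrable fun y => ‖f y‖) :
    Continuous fun r : ℝ => ∫ y : ℝ, Complex.exp ((1 + y * I) * r) * f y := by
  have e : (fun r : ℝ => ∫ y : ℝ, Complex.exp ((1 + y * I) * r) * f y) =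
      fun r : ℝ => Complex.exp r * ∫ y : ℝ, Complex.exp (y * I * r) * f y := by
    ext r
    rw [← integral_const_mul]
    congr 1
    ext y
    rw [← mul_assoc, ← Complex.exp_add]
    congr 2
    ring
  rw [e]
  apply Continuous.mul (by fun_prop)
  apply continuous_of_dominated (bound := fun y => ‖f y‖)
  · intro r
    exact (Continuous.mul (by fun_prop) hf).aestronglyMeasurable
  · intro r
    refine Filter.Eventually.of_forall fun y => ?_
    rw [norm_mul, Cut_norm_exp]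
    simp
  · exact hi
  · refine Filter.Eventually.of_forall fun y => ?_
    fun_prop

theorem continuous_vc (h : ℝ) (hh : 0 < h) : Continuous (vc h) := by
  obtain ⟨C, -, H⟩ := Cut_int
  have h1 := (H h 1 hh one_ne_zero).1
  have h2 := Cut_cont' h 1 one_ne_zero
  simp only [Complex.ofReal_one] at h1 h2
  exact continuous_const.mul (Cut_continuous _ h2 h1)

theorem continuous_vd (h : ℝ) (hh : 0 < h) : Continuous (vd h) := by
  obtain ⟨C, -, H⟩ := Cut_int'
  have h1 := (H h 1 hh).1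
  have h2 := Cut_cont h 1
  simp only [Complex.ofReal_one] at h1 h2
  exact continuous_const.mul (Cut_continuous _ h2 h1)

end Pool.Agent.H14.CO
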