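import Pool.Agent.H95.GC.Defs

/-!
# Project CO (constant order lower bound for `V(X;H)`, problem MP_0575cc_nt): definitions
-/

set_option autoImplicit false

namespace Pool.Agent.H14.CO

open Set MeasureTheory Complex

/-- The entire function `sinh w / w` (value `1` at `0`). -/
noncomputable def shc (w : ℂ) : ℂ := dslope Complex.sinh 0 w

/-- The entire numerator of the kernel: `(sinh (h z) / (h z))^32 * exp (z^2)`; `kn h 0 = 1`. -/
noncomputable def kn (h : ℝ) (z : ℂ) : ℂ := shc (h * z) ^ 32 * Complex.exp (z ^ 2)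

/-- The entire function `(s - 1) ζ(s)`. -/
noncomputable def Zt : ℂ → ℂ := Function.update (fun s => (s - 1) * riemannZeta s) 1 1

/-- The factor of the functional equation `ζ(1 - w) = ch w * ζ(w)`. -/
noncomputable def ch (w : ℂ) : ℂ :=
  2 * (2 * Real.pi : ℂ) ^ (-w) * Complex.Gamma w * Complex.cos (Real.pi * w / 2)

/-- Gaussian weight of width `W` centred at `τ`. -/
noncomputable def gw (τ W t : ℝ) : ℝ := Real.exp (-((t - τ) / W) ^ 2)

/-- Barban–Vehov weights: `μ(d)` for `d ≤ z₀`, decreasing to `0` at `d = z₀^2`. -/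
noncomputable def lam (z₀ : ℝ) (d : ℕ) : ℝ :=
  ((ArithmeticFunction.moebius d : ℤ) : ℝ) *
    (max 0 (Real.log (z₀ ^ 2 / d)) - max 0 (Real.log (z₀ / d))) / Real.log z₀

/-- The mollifier `∑_{d ≤ z₀^2} λ_d d^{-s}`. -/
noncomputable def Mo (z₀ : ℝ) (s : ℂ) : ℂ :=
  ∑ d ∈ Finset.Icc 1 ⌊z₀ ^ 2⌋₊, (lam z₀ d : ℂ) * (d : ℂ) ^ (-s)

/-- The point `1/2 + i t + w`. -/
noncomputable def pt (w : ℂ) (t : ℝ) : ℂ := 1 / 2 + w + t * I

end Pool.Agent.H14.CO
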