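import Pool.Agent.H14.CO.U
import Pool.Agent.H14.CO.MoB

/-!
# CO module EnSum: the discrete mean square at separated points (local version)
-/

set_option autoImplicit false

namespace Pool.Agent.H14.CO

open Set MeasureTheory Complex

/-- the kernel `L e^{-y²} (1+L|y|)^{-32}`. -/
private noncomputable def kk (L y : ℝ) : ℝ := L * Real.exp (-y ^ 2) / (1 + L * |y|) ^ 32

private theorem kk_nonneg {L : ℝ} (hL : 0 ≤ L) (y : ℝ) : 0 ≤ kk L y := by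
  unfold kk
  positivity

private theorem kk_continuous {L : ℝ} (hL : 0 ≤ L) : Continuous (kk L) := by
  unfold kk
  refine Continuous.div (by fun_prop) (by fun_prop) fun y => ?_
  have : 0 ≤ L * |y| := by positivity
  positivity

private theorem ker_le {L G : ℝ} (hL : 1 ≤ L) (_hG : 1 ≤ G) (hGL : (G + 1) / L ≤ 1) {σ : ℝ}
    (h1 : 1 / L ≤ |σ|) (h2 : |σ| ≤ (G + 1) / L) (y : ℝ) :
    ‖kn L (σ + y * I) / (σ + y * I)‖ ≤
      (2 ^ 32 * Real.exp (32 * (G + 1) + 1)) * kk L y := by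
  have hL0 : 0 < L := by linarith
  have hre : ((σ : ℂ) + y * I).re = σ := by simp
  have him : ((σ : ℂ) + y * I).im = y := by simp
  have h3 := norm_kn_le L hL0.le ((σ : ℂ) + y * I)
  rw [hre, him] at h3
  have hy : |y| ≤ ‖(σ : ℂ) + y * I‖ := by
    have := Complex.abs_im_le_norm ((σ : ℂ) + y * I)
    rwa [him] at this
  have hs : |σ| ≤ ‖(σ : ℂ) + y * I‖ := by
    have := Complex.abs_re_le_norm ((σ : ℂ) + y * I)
    rwa [hre] at this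
  have hz : 1 / L ≤ ‖(σ : ℂ) + y * I‖ := h1.trans hs
  have hz0 : 0 < ‖(σ : ℂ) + y * I‖ := lt_of_lt_of_le (by positivity) hz
  have h4 : ‖kn L (σ + y * I)‖ * (1 + L * |y|) ^ 32 ≤
      2 ^ 32 * Real.exp (32 * (G + 1) + 1) * Real.exp (-y ^ 2) := by
    calc ‖kn L (σ + y * I)‖ * (1 + L * |y|) ^ 32
        ≤ ‖kn L (σ + y * I)‖ * (1 + L * ‖(σ : ℂ) + y * I‖) ^ 32 := by gcongr
      _ ≤ 2 ^ 32 * Real.exp (32 * L * |σ| + σ ^ 2 - y ^ 2) := h3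
      _ ≤ 2 ^ 32 * Real.exp ((32 * (G + 1) + 1) + (-y ^ 2)) := by
          have h5 : L * |σ| ≤ G + 1 := by
            have := mul_le_mul_of_nonneg_left h2 hL0.le
            rwa [mul_div_cancel₀ _ hL0.ne'] at this
          have h6 : σ ^ 2 ≤ 1 := by
            rw [← sq_abs]
            have := h2.trans hGL
            nlinarith only [hGL, h2, abs_nonneg σ]
          have h7 : 32 * L * |σ| + σ ^ 2 - y ^ 2 ≤ (32 * (G + 1) + 1) + (-y ^ 2) := by nlinarith only [h5, h6]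
          gcongr
      _ = 2 ^ 32 * Real.exp (32 * (G + 1) + 1) * Real.exp (-y ^ 2) := by
          rw [Real.exp_add]; ring
  have hp : 0 < (1 + L * |y|) ^ 32 := by positivity
  rw [norm_div, div_le_iff₀ hz0]
  have h8 : ‖kn L (σ + y * I)‖ ≤
      2 ^ 32 * Real.exp (32 * (G + 1) + 1) * Real.exp (-y ^ 2) / (1 + L * |y|) ^ 32 := by
    rw [le_div_iff₀ hp]; exact h4
  refine h8.trans ?_
  unfold kk
  have h9 : 1 ≤ L * ‖(σ : ℂ) + y * I‖ := by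
    have := mul_le_mul_of_nonneg_left hz hL0.le
    rwa [mul_one_div_cancel hL0.ne'] at this
  have h10 : 0 ≤ 2 ^ 32 * Real.exp (32 * (G + 1) + 1) * Real.exp (-y ^ 2) / (1 + L * |y|) ^ 32 := by
    positivity
  calc 2 ^ 32 * Real.exp (32 * (G + 1) + 1) * Real.exp (-y ^ 2) / (1 + L * |y|) ^ 32
      ≤ (2 ^ 32 * Real.exp (32 * (G + 1) + 1) * Real.exp (-y ^ 2) / (1 + L * |y|) ^ 32) *
        (L * ‖(σ : ℂ) + y * I‖) := le_mul_of_one_le_right h10 h9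
    _ = _ := by ring

private theorem int_inv_sq {L : ℝ} (hL : 0 < L) :
    Integrable (fun y : ℝ => L * (1 + (L * y) ^ 2)⁻¹) ∧ ∫ y : ℝ, L * (1 + (L * y) ^ 2)⁻¹ = Real.pi := by
  constructor
  · exact ((integrable_inv_one_add_sq.comp_mul_left' hL.ne')).const_mul L
  · rw [integral_const_mul, Measure.integral_comp_mul_left (fun x : ℝ => (1 + x ^ 2)⁻¹) L,
      integral_univ_inv_one_add_sq, abs_of_pos (inv_pos.2 hL), smul_eq_mul, ← mul_assoc,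
      mul_inv_cancel₀ hL.ne', one_mul]

private theorem pow_inv_le {L : ℝ} (hL : 0 < L) (y : ℝ) {m : ℕ} (hm : 2 ≤ m) :
    ((1 + L * |y|) ^ m)⁻¹ ≤ (1 + (L * y) ^ 2)⁻¹ := by
  have h0 : 0 ≤ L * |y| := by positivity
  have h1 : (1 + L * |y|) ^ 2 ≤ (1 + L * |y|) ^ m := pow_le_pow_right₀ (by linarith) hm
  have h2 : (L * y) ^ 2 = (L * |y|) ^ 2 := by rw [mul_pow, mul_pow, sq_abs]
  rw [h2]
  apply inv_anti₀ (by positivity)
  nlinarith only [h0, h1]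

private theorem kk_le {L : ℝ} (hL : 0 < L) (y : ℝ) : kk L y ≤ L * (1 + (L * y) ^ 2)⁻¹ := by
  unfold kk
  rw [div_eq_mul_inv]
  have h1 := pow_inv_le hL y (m := 32) (by norm_num)
  have h2 : Real.exp (-y ^ 2) ≤ 1 := by
    rw [Real.exp_le_one_iff]
    nlinarith only []
  have h3 : 0 ≤ ((1 + L * |y|) ^ 32)⁻¹ := by positivity
  calc L * Real.exp (-y ^ 2) * ((1 + L * |y|) ^ 32)⁻¹ ≤ L * 1 * ((1 + L * |y|) ^ 32)⁻¹ := by gcongr
    _ ≤ L * 1 * (1 + (L * y) ^ 2)⁻¹ := by gcongr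
    _ = _ := by ring

private theorem kk_integrable {L : ℝ} (hL : 0 < L) : Integrable (kk L) := by
  refine (int_inv_sq hL).1.mono' (kk_continuous hL.le).aestronglyMeasurable ?_
  refine Filter.Eventually.of_forall fun y => ?_
  rw [Real.norm_of_nonneg (kk_nonneg hL.le y)]
  exact kk_le hL y

private theorem kk_int {L : ℝ} (hL : 0 < L) : ∫ y : ℝ, kk L y ≤ 4 := by
  have h1 : ∫ y : ℝ, kk L y ≤ ∫ y : ℝ, L * (1 + (L * y) ^ 2)⁻¹ :=
    integral_mono (kk_integrable hL) (int_inv_sq hL).1 fun y => kk_le hL y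
  rw [(int_inv_sq hL).2] at h1
  linarith [Real.pi_le_four]

/-- separated points. -/
private theorem sep_sum : ∃ C : ℝ, 0 < C ∧ ∀ (L : ℝ), 0 < L → ∀ (S : Finset ℕ) (t : ℕ → ℝ),
    (∀ i ∈ S, ∀ j ∈ S, i ≠ j → 1 / L ≤ |t i - t j|) → ∀ u : ℝ,
    ∑ i ∈ S, ((1 + L * |u - t i|) ^ 16)⁻¹ ≤ C := by
  have hs : Summable fun m : ℤ => 4 * ((1 + |(m : ℝ)|) ^ 2)⁻¹ := by
    apply Summable.mul_left
    have h0 : Summable fun n : ℕ => ((1 + |(n : ℝ)|) ^ 2)⁻¹ := by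
      have h1 : Summable fun n : ℕ => ((n : ℝ) ^ 2)⁻¹ := Real.summable_nat_pow_inv.2 (by norm_num)
      have h2 := (summable_nat_add_iff 1).2 h1
      refine h2.congr fun n => ?_
      rw [abs_of_nonneg (Nat.cast_nonneg n)]
      push_cast
      ring
    refine Summable.of_nat_of_neg (by simpa using h0) ?_
    simpa using h0
  refine ⟨(∑' m : ℤ, 4 * ((1 + |(m : ℝ)|) ^ 2)⁻¹) + 1, ?_, ?_⟩
  · have : 0 ≤ ∑' m : ℤ, 4 * ((1 + |(m : ℝ)|) ^ 2)⁻¹ := tsum_nonneg fun m => by positivity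
    linarith
  intro L hL S t hsep u
  have hinj : Set.InjOn (fun i => ⌊L * (t i - u)⌋) (S : Set ℕ) := by
    intro i hi j hj hij
    by_contra hne
    have h1 := hsep i hi j hj hne
    have h2 : |L * (t i - u) - L * (t j - u)| < 1 := Int.abs_sub_lt_one_of_floor_eq_floor hij
    have h3 : L * (t i - u) - L * (t j - u) = L * (t i - t j) := by ring
    rw [h3, abs_mul, abs_of_pos hL] at h2
    have h4 := mul_le_mul_of_nonneg_left h1 hL.le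
    rw [mul_one_div_cancel hL.ne'] at h4
    linarith
  have hterm : ∀ i ∈ S, ((1 + L * |u - t i|) ^ 16)⁻¹ ≤
      4 * ((1 + |((⌊L * (t i - u)⌋ : ℤ) : ℝ)|) ^ 2)⁻¹ := by
    intro i _
    have h1 : L * |u - t i| = |L * (t i - u)| := by
      rw [abs_mul, abs_of_pos hL, abs_sub_comm]
    rw [h1]
    set a := L * (t i - u) with ha
    have h2 : |((⌊a⌋ : ℤ) : ℝ)| ≤ |a| + 1 := by
      have h3 : ((⌊a⌋ : ℤ) : ℝ) ≤ a := Int.floor_le a
      have h4 : a < (⌊a⌋ : ℤ) + 1 := Int.lt_floor_add_one a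
      rw [abs_le]
      constructor
      · have := neg_abs_le a
        linarith
      · have := le_abs_self a
        linarith
    have h5 : 0 ≤ |a| := abs_nonneg a
    have h6 : (1 + |a|) ^ 2 ≤ (1 + |a|) ^ 16 := pow_le_pow_right₀ (by linarith) (by norm_num)
    have h7 : (1 + |((⌊a⌋ : ℤ) : ℝ)|) ^ 2 ≤ 4 * (1 + |a|) ^ 2 := by
      have h8 : 0 ≤ |((⌊a⌋ : ℤ) : ℝ)| := abs_nonneg _
      nlinarith only [h2, h5, h8]
    have h9 : 0 < (1 + |((⌊a⌋ : ℤ) : ℝ)|) ^ 2 := by positivity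
    have h10 : 0 < (1 + |a|) ^ 16 := by positivity
    rw [← div_eq_mul_inv, inv_eq_one_div, div_le_div_iff₀ h10 h9]
    nlinarith only [h6, h7]
  calc ∑ i ∈ S, ((1 + L * |u - t i|) ^ 16)⁻¹
      ≤ ∑ i ∈ S, 4 * ((1 + |((⌊L * (t i - u)⌋ : ℤ) : ℝ)|) ^ 2)⁻¹ := Finset.sum_le_sum hterm
    _ = ∑ m ∈ S.image (fun i => ⌊L * (t i - u)⌋), 4 * ((1 + |(m : ℝ)|) ^ 2)⁻¹ :=
        (Finset.sum_image (f := fun m : ℤ => 4 * ((1 + |(m : ℝ)|) ^ 2)⁻¹) hinj).symm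
    _ ≤ ∑' m : ℤ, 4 * ((1 + |(m : ℝ)|) ^ 2)⁻¹ := hs.sum_le_tsum _ fun m _ => by positivity
    _ ≤ _ := by linarith

private theorem ofReal_integral_le (f : ℝ → ℝ) (hf : ∀ y, 0 ≤ f y) :
    ENNReal.ofReal (∫ y, f y) ≤ ∫⁻ y, ENNReal.ofReal (f y) := by
  by_cases h : Integrable f
  · rw [ofReal_integral_eq_lintegral_ofReal h (Filter.Eventually.of_forall hf)]
  · rw [integral_undef h, ENNReal.ofReal_zero]
    exact zero_le

/-- `interp` with `lm = 0`, `h = L`. -/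
private theorem point {L G : ℝ} (hL : 1 ≤ L) (hG : 1 ≤ G) (hGL : (G + 1) / L ≤ 1) (F : ℂ → ℂ)
    (a b : ℝ) (hF : ∀ z : ℂ, a ≤ z.re → z.re ≤ b → DifferentiableAt ℂ F z) (A : ℝ) (k : ℕ)
    (hA : ∀ z : ℂ, a ≤ z.re → z.re ≤ b → ‖F z‖ ≤ A * (1 + |z.im|) ^ k) (w : ℂ)
    (h1 : 1 / L ≤ w.re - a) (h2 : w.re - a ≤ (G + 1) / L)
    (h3 : 1 / L ≤ b - w.re) (h4 : b - w.re ≤ (G + 1) / L) :
    ENNReal.ofReal (‖F w‖ ^ 2) ≤
      ENNReal.ofReal (4 * (2 ^ 32 * Real.exp (32 * (G + 1) + 1)) ^ 2) *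
        ((∫⁻ y : ℝ, ENNReal.ofReal (kk L y * ‖F (a + (w.im + y) * I)‖ ^ 2)) +
          ∫⁻ y : ℝ, ENNReal.ofReal (kk L y * ‖F (b + (w.im + y) * I)‖ ^ 2)) := by
  have hL0 : 0 < L := by linarith
  have hLi : 0 < 1 / L := by positivity
  have h5 := interp F a b hF A k hA L 0 hL0 w (by linarith) (by linarith)
  set C₁ := 2 ^ 32 * Real.exp (32 * (G + 1) + 1) with hC₁
  have hC₁0 : 0 ≤ C₁ := by positivity
  simp only [mul_zero, zero_mul, Real.exp_zero, one_mul] at h5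
  -- one side
  have side : ∀ (σ c : ℝ), 1 / L ≤ |σ| → |σ| ≤ (G + 1) / L →
      ENNReal.ofReal ((∫ y : ℝ, ‖kn L ((σ : ℝ) + y * I) / ((σ : ℝ) + y * I)‖) *
        ∫ y : ℝ, ‖kn L ((σ : ℝ) + y * I) / ((σ : ℝ) + y * I)‖ *
          ‖F (c + (w.im + y) * I)‖ ^ 2) ≤
      ENNReal.ofReal (4 * C₁ ^ 2) *
        ∫⁻ y : ℝ, ENNReal.ofReal (kk L y * ‖F (c + (w.im + y) * I)‖ ^ 2) := by
    intro σ c hσ1 hσ2
    have hk : ∀ y : ℝ, ‖kn L ((σ : ℝ) + y * I) / ((σ : ℝ) + y * I)‖ ≤ C₁ * kk L y :=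
      fun y => ker_le hL hG hGL hσ1 hσ2 y
    have hP : ∫ y : ℝ, ‖kn L ((σ : ℝ) + y * I) / ((σ : ℝ) + y * I)‖ ≤ 4 * C₁ := by
      calc ∫ y : ℝ, ‖kn L ((σ : ℝ) + y * I) / ((σ : ℝ) + y * I)‖
          ≤ ∫ y : ℝ, C₁ * kk L y :=
            integral_mono_of_nonneg (Filter.Eventually.of_forall fun y => norm_nonneg _)
              ((kk_integrable hL0).const_mul C₁) (Filter.Eventually.of_forall hk)
        _ = C₁ * ∫ y : ℝ, kk L y := integral_const_mul _ _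
        _ ≤ C₁ * 4 := by gcongr; exact kk_int hL0
        _ = 4 * C₁ := by ring
    set Q := ∫ y : ℝ, ‖kn L ((σ : ℝ) + y * I) / ((σ : ℝ) + y * I)‖ *
          ‖F (c + (w.im + y) * I)‖ ^ 2 with hQ
    have hQ0 : 0 ≤ Q := integral_nonneg fun y => by positivity
    calc ENNReal.ofReal ((∫ y : ℝ, ‖kn L ((σ : ℝ) + y * I) / ((σ : ℝ) + y * I)‖) * Q)
        ≤ ENNReal.ofReal (4 * C₁ * Q) :=
          ENNReal.ofReal_le_ofReal (mul_le_mul_of_nonneg_right hP hQ0)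
      _ = ENNReal.ofReal (4 * C₁) * ENNReal.ofReal Q := ENNReal.ofReal_mul (by positivity)
      _ ≤ ENNReal.ofReal (4 * C₁) * ∫⁻ y : ℝ, ENNReal.ofReal
            (‖kn L ((σ : ℝ) + y * I) / ((σ : ℝ) + y * I)‖ * ‖F (c + (w.im + y) * I)‖ ^ 2) := by
          gcongr
          exact ofReal_integral_le _ fun y => by positivity
      _ ≤ ENNReal.ofReal (4 * C₁) * ∫⁻ y : ℝ, ENNReal.ofReal C₁ * ENNReal.ofReal
            (kk L y * ‖F (c + (w.im + y) * I)‖ ^ 2) := by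
          gcongr with y
          rw [← ENNReal.ofReal_mul hC₁0]
          apply ENNReal.ofReal_le_ofReal
          calc ‖kn L ((σ : ℝ) + y * I) / ((σ : ℝ) + y * I)‖ * ‖F (c + (w.im + y) * I)‖ ^ 2
              ≤ (C₁ * kk L y) * ‖F (c + (w.im + y) * I)‖ ^ 2 :=
                mul_le_mul_of_nonneg_right (hk y) (by positivity)
            _ = _ := by ring
      _ = ENNReal.ofReal (4 * C₁) * (ENNReal.ofReal C₁ * ∫⁻ y : ℝ, ENNReal.ofReal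
            (kk L y * ‖F (c + (w.im + y) * I)‖ ^ 2)) := by
          rw [lintegral_const_mul' _ _ ENNReal.ofReal_ne_top]
      _ = ENNReal.ofReal (4 * C₁ ^ 2) * ∫⁻ y : ℝ, ENNReal.ofReal
            (kk L y * ‖F (c + (w.im + y) * I)‖ ^ 2) := by
          rw [← mul_assoc, ← ENNReal.ofReal_mul (by positivity)]
          congr 2
          ring
  have ea : |a - w.re| = w.re - a := by
    rw [abs_of_nonpos (by linarith only [h1, hLi])]; ring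
  have eb : |b - w.re| = b - w.re := abs_of_nonneg (by linarith only [h3, hLi])
  calc ENNReal.ofReal (‖F w‖ ^ 2) ≤ _ := ENNReal.ofReal_le_ofReal h5
    _ ≤ _ := ENNReal.ofReal_add_le
    _ ≤ _ := add_le_add (side (a - w.re) a (by rw [ea]; exact h1) (by rw [ea]; exact h2))
        (side (b - w.re) b (by rw [eb]; exact h3) (by rw [eb]; exact h4))
    _ = _ := by rw [mul_add]

/-- growth of `ζ` in the strip `1/2 ≤ Re s ≤ 3/4`. -/
private theorem zeta_strip : ∃ A : ℝ, 0 < A ∧ ∀ s : ℂ, 1 / 2 ≤ s.re → s.re ≤ 3 / 4 →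
    ‖riemannZeta s‖ ≤ A * (1 + |s.im|) ^ 4 := by
  obtain ⟨C, hC, h⟩ := Zt_growth 1 le_rfl
  refine ⟨64 * C, by positivity, fun s h1 h2 => ?_⟩
  have hs : s ≠ 1 := by
    intro h3
    rw [h3] at h2
    norm_num at h2
  have h4 := h s (by linarith)
  rw [Zt_eq s hs, norm_mul] at h4
  have h5 : 1 / 4 ≤ ‖s - 1‖ := by
    have h6 := Complex.abs_re_le_norm (s - 1)
    rw [Complex.sub_re, Complex.one_re, abs_of_nonpos (by linarith only [h2])] at h6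
    linarith
  have h7 : ‖s‖ ≤ 1 + |s.im| := by
    have := Complex.norm_le_abs_re_add_abs_im s
    rw [abs_of_nonneg (by linarith : (0 : ℝ) ≤ s.re)] at this
    linarith
  have h8 : (1 + ‖s‖) ^ ((1 : ℝ) + 3) ≤ 16 * (1 + |s.im|) ^ 4 := by
    have h9 : ((1 : ℝ) + 3) = ((4 : ℕ) : ℝ) := by norm_num
    rw [h9, Real.rpow_natCast]
    calc (1 + ‖s‖) ^ 4 ≤ (2 * (1 + |s.im|)) ^ 4 := by
          gcongr
          nlinarith only [h7, abs_nonneg s.im]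
      _ = 16 * (1 + |s.im|) ^ 4 := by ring
  have h10 : 1 / 4 * ‖riemannZeta s‖ ≤ C * (16 * (1 + |s.im|) ^ 4) :=
    calc 1 / 4 * ‖riemannZeta s‖ ≤ ‖s - 1‖ * ‖riemannZeta s‖ := by gcongr
      _ ≤ C * (1 + ‖s‖) ^ ((1 : ℝ) + 3) := h4
      _ ≤ _ := by gcongr
  linarith only [h10]

private theorem zeta_diff (s : ℂ) (h : s.re ≤ 3 / 4) : DifferentiableAt ℂ riemannZeta s := by
  apply differentiableAt_riemannZeta
  intro h3
  rw [h3] at h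
  norm_num at h

private theorem Mo_diff (z₀ : ℝ) : Differentiable ℂ (Mo z₀) := by
  unfold Mo
  refine Differentiable.fun_sum fun d hd => ?_
  have hd1 : 1 ≤ d := (Finset.mem_Icc.1 hd).1
  have hd0 : (d : ℂ) ≠ 0 := by
    have : d ≠ 0 := by omega
    exact_mod_cast this
  refine Differentiable.const_mul ?_ _
  intro s
  exact (differentiableAt_id.neg).const_cpow (Or.inl hd0)

private theorem Mo_bdd (z₀ : ℝ) : ∃ A : ℝ, 0 ≤ A ∧ ∀ s : ℂ, 0 ≤ s.re → ‖Mo z₀ s‖ ≤ A := by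
  refine ⟨∑ d ∈ Finset.Icc 1 ⌊z₀ ^ 2⌋₊, |lam z₀ d|, Finset.sum_nonneg fun d _ => abs_nonneg _,
    fun s hs => ?_⟩
  unfold Mo
  refine (norm_sum_le _ _).trans (Finset.sum_le_sum fun d hd => ?_)
  have hd1 : 1 ≤ d := (Finset.mem_Icc.1 hd).1
  rw [norm_mul, Complex.norm_real, Real.norm_eq_abs]
  have h1 : ‖(d : ℂ) ^ (-s)‖ ≤ 1 := by
    rw [Complex.norm_natCast_cpow_of_pos (by omega), Complex.neg_re]
    exact Real.rpow_le_one_of_one_le_of_nonpos (by exact_mod_cast hd1) (by linarith)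
  calc |lam z₀ d| * ‖(d : ℂ) ^ (-s)‖ ≤ |lam z₀ d| * 1 := by gcongr
    _ = _ := mul_one _

/-- the product of two kernels, algebra. -/
private theorem kprod_alg {g X P Q a b c d : ℝ} (hg : 1 ≤ g) (hX : 1 ≤ X) (hP : 1 ≤ P)
    (hQ : 1 ≤ Q) (hden : X ≤ g * (Q * P)) (ha : 0 ≤ a) (hd : 0 ≤ d) (hb : a ≤ b * (c * d))
    (hbc : 0 ≤ b * (c * d)) (L : ℝ) :
    L ^ 2 * a * ((Q ^ 32 * P ^ 32)⁻¹) ≤
      (g ^ 16 * b) * (L ^ 2 * (X ^ 16)⁻¹ * c) * ((P ^ 16)⁻¹ * d) := by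
  have hg0 : 0 < g := by linarith
  have hX0 : 0 < X := by linarith
  have hP0 : 0 < P := by linarith
  have hQ0 : 0 < Q := by linarith
  have h1 : X ^ 16 * P ^ 16 ≤ g ^ 16 * (Q ^ 32 * P ^ 32) := by
    have h2 : X ^ 16 ≤ (g * (Q * P)) ^ 16 := pow_le_pow_left₀ hX0.le hden 16
    have h3 : Q ^ 16 ≤ Q ^ 32 := pow_le_pow_right₀ hQ (by norm_num)
    calc X ^ 16 * P ^ 16 ≤ (g * (Q * P)) ^ 16 * P ^ 16 := by gcongr
      _ = g ^ 16 * (Q ^ 16 * (P ^ 16 * P ^ 16)) := by rw [mul_pow, mul_pow]; ring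
      _ ≤ g ^ 16 * (Q ^ 32 * (P ^ 16 * P ^ 16)) := by gcongr
      _ = _ := by rw [← pow_add]
  have hinv : (Q ^ 32 * P ^ 32)⁻¹ ≤ g ^ 16 * (X ^ 16 * P ^ 16)⁻¹ := by
    rw [inv_eq_one_div, ← div_eq_mul_inv, div_le_div_iff₀ (by positivity) (by positivity), one_mul]
    exact h1
  calc L ^ 2 * a * ((Q ^ 32 * P ^ 32)⁻¹)
      ≤ L ^ 2 * (b * (c * d)) * (g ^ 16 * (X ^ 16 * P ^ 16)⁻¹) := by gcongr
    _ = _ := by
        rw [mul_inv]
        ring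

/-- the product of two kernels. -/
private theorem kprod {L G : ℝ} (hL : 1 ≤ L) (hG : 1 ≤ G) {δ : ℝ} (hδ : |δ| ≤ G / L) (p x : ℝ) :
    kk L p * kk L (p + x - δ) ≤
      ((1 + G) ^ 16 * Real.exp (G ^ 2)) * (L ^ 2 * ((1 + L * |x|) ^ 16)⁻¹ * Real.exp (-x ^ 2 / 6)) *
        (((1 + L * |p|) ^ 16)⁻¹ * Real.exp (-p ^ 2 / 2)) := by
  have hL0 : 0 < L := by linarith
  set q := p + x - δ with hq
  have hδG : |δ| ≤ G := hδ.trans (div_le_self (by linarith) hL)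
  have hLδ : L * |δ| ≤ G := by
    have := mul_le_mul_of_nonneg_left hδ hL0.le
    rwa [mul_div_cancel₀ _ hL0.ne'] at this
  have hx : x = q - p + δ := by rw [hq]; ring
  have habs : |x| ≤ |q| + |p| + |δ| := by
    rw [hx]
    calc |q - p + δ| ≤ |q - p| + |δ| := abs_add_le _ _
      _ ≤ |q| + |p| + |δ| := by
        have := abs_sub q p
        linarith
  -- denominators
  have h2 : 0 ≤ L * |q| := by positivity
  have h3 : 0 ≤ L * |p| := by positivity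
  have h3' : 0 ≤ L * |x| := by positivity
  have hden : (1 + L * |x|) ≤ (1 + G) * ((1 + L * |q|) * (1 + L * |p|)) := by
    have h1 : L * |x| ≤ L * |q| + L * |p| + G := by
      calc L * |x| ≤ L * (|q| + |p| + |δ|) := by gcongr
        _ = L * |q| + L * |p| + L * |δ| := by ring
        _ ≤ _ := by linarith
    nlinarith only [h2, h1, mul_nonneg h2 h3, mul_nonneg (by linarith : (0:ℝ) ≤ G) h2, mul_nonneg (by linarith : (0:ℝ) ≤ G) h3, mul_nonneg (by linarith : (0:ℝ) ≤ G) (mul_nonneg h2 h3)]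
  have hexp : Real.exp (-p ^ 2) * Real.exp (-q ^ 2) ≤
      Real.exp (G ^ 2) * (Real.exp (-x ^ 2 / 6) * Real.exp (-p ^ 2 / 2)) := by
    rw [← Real.exp_add, ← Real.exp_add, ← Real.exp_add]
    apply Real.exp_le_exp.2
    have h1 : x ^ 2 ≤ 3 * (q ^ 2 + p ^ 2 + δ ^ 2) := by
      rw [hx]
      nlinarith only [sq_nonneg (q + p), sq_nonneg (q - δ), sq_nonneg (p + δ)]
    have h2 : δ ^ 2 ≤ G ^ 2 := by
      rw [← sq_abs]
      exact pow_le_pow_left₀ (abs_nonneg _) hδG 2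
    nlinarith only [h1, h2, sq_nonneg q, sq_nonneg G]
  have h4 := kprod_alg (g := 1 + G) (X := 1 + L * |x|) (P := 1 + L * |p|) (Q := 1 + L * |q|)
    (a := Real.exp (-p ^ 2) * Real.exp (-q ^ 2)) (b := Real.exp (G ^ 2))
    (c := Real.exp (-x ^ 2 / 6)) (d := Real.exp (-p ^ 2 / 2)) (by linarith) (by linarith)
    (by linarith) (by linarith) hden (by positivity) (by positivity) hexp (by positivity) L
  refine le_trans (le_of_eq ?_) h4
  unfold kk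
  rw [div_mul_div_comm, div_eq_mul_inv, mul_comm ((1 + L * |p|) ^ 32)]
  congr 1
  ring

/-- the Gaussian weight. -/
private theorem gauss_le {τ W t u : ℝ} (hW : 1 ≤ W) (ht : |t - τ| ≤ W) :
    Real.exp (-(u - t) ^ 2 / 2) ≤ 3 * gw τ (4 * W) u := by
  unfold gw
  have h1 : (u - τ) ^ 2 ≤ 2 * (u - t) ^ 2 + 2 * W ^ 2 := by
    have h2 : (t - τ) ^ 2 ≤ W ^ 2 := by
      rw [← sq_abs]
      exact pow_le_pow_left₀ (abs_nonneg _) ht 2
    nlinarith [sq_nonneg ((u - t) - (t - τ))]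
  have h3 : ((u - τ) / (4 * W)) ^ 2 ≤ (u - t) ^ 2 / 2 + 1 := by
    rw [div_pow, div_le_iff₀ (by positivity)]
    nlinarith only [h1, sq_nonneg (u - t), mul_nonneg (sq_nonneg (u - t)) (by nlinarith : (0:ℝ) ≤ W ^ 2 - 1), sq_nonneg W]
  calc Real.exp (-(u - t) ^ 2 / 2) ≤ Real.exp (1 + -((u - τ) / (4 * W)) ^ 2) := by
        apply Real.exp_le_exp.2
        linarith only [h3]
    _ = Real.exp 1 * Real.exp (-((u - τ) / (4 * W)) ^ 2) := Real.exp_add _ _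
    _ ≤ 3 * Real.exp (-((u - τ) / (4 * W)) ^ 2) := by
        gcongr
        exact Real.exp_one_lt_three.le

private theorem poly_gauss_aux (n : ℕ) : ∃ C : ℝ, 0 < C ∧ ∀ x : ℝ,
    (1 + |x|) ^ n * Real.exp (-x ^ 2 / 6) ≤ C := by
  refine ⟨(Nat.factorial n : ℝ) * Real.exp (5 / 2), by positivity, fun x => ?_⟩
  have h1 := Real.pow_div_factorial_le_exp (x := 1 + |x|) (by positivity) n
  rw [div_le_iff₀ (by positivity)] at h1
  calc (1 + |x|) ^ n * Real.exp (-x ^ 2 / 6)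
      ≤ (Real.exp (1 + |x|) * (Nat.factorial n : ℝ)) * Real.exp (-x ^ 2 / 6) := by gcongr
    _ = (Nat.factorial n : ℝ) * Real.exp ((1 + |x|) + -x ^ 2 / 6) := by
        rw [Real.exp_add (1 + |x|) (-x ^ 2 / 6)]; ring
    _ ≤ _ := by
        gcongr
        have : x ^ 2 = |x| ^ 2 := (sq_abs x).symm
        nlinarith only [this, sq_nonneg (|x| - 3)]

private theorem poly_gauss : ∃ C : ℝ, 0 < C ∧ ∀ x : ℝ,
    (1 + |x|) ^ 301 * Real.exp (-x ^ 2 / 6) ≤ C := poly_gauss_aux 301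

/-- the sum over the points of the products of two kernels. -/
private theorem sum_kprod : ∃ C : ℝ, 0 < C ∧ ∀ (L G : ℝ), 1 ≤ L → 1 ≤ G → ∀ τ W : ℝ, 1 ≤ W →
    ∀ (S : Finset ℕ) (t r : ℕ → ℝ), (∀ i ∈ S, |t i - τ| ≤ W ∧ |r i - t i| ≤ G / L) →
    (∀ i ∈ S, ∀ j ∈ S, i ≠ j → 1 / L ≤ |t i - t j|) → ∀ u x : ℝ,
    ∑ i ∈ S, kk L (u - t i) * kk L (x + (u - r i)) ≤
      (C * ((1 + G) ^ 16 * Real.exp (G ^ 2))) *
        (L ^ 2 * ((1 + L * |x|) ^ 16)⁻¹ * Real.exp (-x ^ 2 / 6)) * gw τ (4 * W) u := by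
  obtain ⟨C, hC, h⟩ := sep_sum
  refine ⟨3 * C, by positivity, fun L G hL hG τ W hW S t r hS hsep u x => ?_⟩
  have hL0 : 0 < L := by linarith
  have hgw : 0 ≤ gw τ (4 * W) u := (Real.exp_pos _).le
  set E := ((1 + G) ^ 16 * Real.exp (G ^ 2)) with hE
  set D := (L ^ 2 * ((1 + L * |x|) ^ 16)⁻¹ * Real.exp (-x ^ 2 / 6)) with hD
  have hE0 : 0 ≤ E := by positivity
  have hD0 : 0 ≤ D := by positivity
  have h1 : ∀ i ∈ S, kk L (u - t i) * kk L (x + (u - r i)) ≤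
      (E * D * (3 * gw τ (4 * W) u)) * ((1 + L * |u - t i|) ^ 16)⁻¹ := by
    intro i hi
    have h2 := kprod hL hG (hS i hi).2 (u - t i) x
    have e1 : u - t i + x - (r i - t i) = x + (u - r i) := by ring
    rw [e1] at h2
    refine h2.trans ?_
    have h3 := gauss_le (u := u) hW (hS i hi).1
    have h4 : 0 ≤ ((1 + L * |u - t i|) ^ 16)⁻¹ := by positivity
    calc E * D * (((1 + L * |u - t i|) ^ 16)⁻¹ * Real.exp (-(u - t i) ^ 2 / 2))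
        ≤ E * D * (((1 + L * |u - t i|) ^ 16)⁻¹ * (3 * gw τ (4 * W) u)) := by gcongr
      _ = _ := by ring
  calc ∑ i ∈ S, kk L (u - t i) * kk L (x + (u - r i))
      ≤ ∑ i ∈ S, (E * D * (3 * gw τ (4 * W) u)) * ((1 + L * |u - t i|) ^ 16)⁻¹ :=
        Finset.sum_le_sum h1
    _ = (E * D * (3 * gw τ (4 * W) u)) * ∑ i ∈ S, ((1 + L * |u - t i|) ^ 16)⁻¹ :=
        (Finset.mul_sum _ _ _).symm
    _ ≤ (E * D * (3 * gw τ (4 * W) u)) * C := by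
        gcongr
        exact h L hL0 S t hsep u
    _ = _ := by ring

private theorem gw_continuous (τ W : ℝ) : Continuous (gw τ W) := by
  unfold gw
  fun_prop

/-- exchange of the order of integration. -/
private theorem tonelli {C L τ W : ℝ} (hC : 0 ≤ C) (hL : 1 ≤ L) (S : Finset ℕ) (t r : ℕ → ℝ)
    (hk : ∀ u x : ℝ, ∑ i ∈ S, kk L (u - t i) * kk L (x + (u - r i)) ≤
      C * (L ^ 2 * ((1 + L * |x|) ^ 16)⁻¹ * Real.exp (-x ^ 2 / 6)) * gw τ (4 * W) u)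
    (Z N : ℝ → ℝ) (hZ : Continuous Z) (hN : Continuous N) (hZ0 : ∀ y, 0 ≤ Z y)
    (hN0 : ∀ y, 0 ≤ N y) (v : ℝ) :
    ∑ i ∈ S, (∫⁻ y : ℝ, ENNReal.ofReal (kk L y * Z (r i + v + y))) *
        (∫⁻ y : ℝ, ENNReal.ofReal (kk L y * N (t i + y))) ≤
      ∫⁻ x : ℝ, ENNReal.ofReal (C * (L ^ 2 * ((1 + L * |x|) ^ 16)⁻¹ * Real.exp (-x ^ 2 / 6))) *
        ∫⁻ u : ℝ, ENNReal.ofReal (Z (u + (v + x)) * N u * gw τ (4 * W) u) := by
  have hL0 : 0 ≤ L := by linarith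
  have hkc := kk_continuous hL0
  have hgc := gw_continuous τ (4 * W)
  have h1 : ∀ i, (∫⁻ y : ℝ, ENNReal.ofReal (kk L y * Z (r i + v + y))) *
        (∫⁻ y : ℝ, ENNReal.ofReal (kk L y * N (t i + y))) =
      ∫⁻ u : ℝ, ENNReal.ofReal (kk L (u - t i) * N u) *
        ∫⁻ y : ℝ, ENNReal.ofReal (kk L y * Z (r i + v + y)) := by
    intro i
    have h2 : (∫⁻ y : ℝ, ENNReal.ofReal (kk L y * N (t i + y))) =
        ∫⁻ u : ℝ, ENNReal.ofReal (kk L (u - t i) * N u) := by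
      rw [← lintegral_sub_right_eq_self _ (t i)]
      congr 1
      ext u
      rw [add_sub_cancel]
    rw [h2, mul_comm, lintegral_mul_const]
    exact (by fun_prop : Continuous fun u => kk L (u - t i) * N u).measurable.ennreal_ofReal
  have h3 : ∀ i (u : ℝ), (∫⁻ y : ℝ, ENNReal.ofReal (kk L y * Z (r i + v + y))) =
      ∫⁻ x : ℝ, ENNReal.ofReal (kk L (x + (u - r i)) * Z (u + (v + x))) := by
    intro i u
    rw [← lintegral_add_right_eq_self _ (u - r i)]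
    congr 1
    ext x
    congr 3
    ring
  calc ∑ i ∈ S, (∫⁻ y : ℝ, ENNReal.ofReal (kk L y * Z (r i + v + y))) *
        (∫⁻ y : ℝ, ENNReal.ofReal (kk L y * N (t i + y)))
      = ∑ i ∈ S, ∫⁻ u : ℝ, ENNReal.ofReal (kk L (u - t i) * N u) *
        ∫⁻ y : ℝ, ENNReal.ofReal (kk L y * Z (r i + v + y)) := Finset.sum_congr rfl fun i _ => h1 i
    _ = ∫⁻ u : ℝ, ∑ i ∈ S, ENNReal.ofReal (kk L (u - t i) * N u) *
        ∫⁻ y : ℝ, ENNReal.ofReal (kk L y * Z (r i + v + y)) := by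
        rw [lintegral_finsetSum]
        intro i _
        exact ((by fun_prop : Continuous fun u => kk L (u - t i) * N u).measurable.ennreal_ofReal).mul_const _
    _ ≤ ∫⁻ u : ℝ, ∫⁻ x : ℝ, ENNReal.ofReal
          (C * (L ^ 2 * ((1 + L * |x|) ^ 16)⁻¹ * Real.exp (-x ^ 2 / 6))) *
          ENNReal.ofReal (Z (u + (v + x)) * N u * gw τ (4 * W) u) := by
        refine lintegral_mono fun u => ?_
        have h4 : ∑ i ∈ S, ENNReal.ofReal (kk L (u - t i) * N u) *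
            ∫⁻ y : ℝ, ENNReal.ofReal (kk L y * Z (r i + v + y)) =
            ∫⁻ x : ℝ, ∑ i ∈ S, ENNReal.ofReal (kk L (u - t i) * N u) *
              ENNReal.ofReal (kk L (x + (u - r i)) * Z (u + (v + x))) := by
          rw [lintegral_finsetSum]
          · refine Finset.sum_congr rfl fun i _ => ?_
            rw [h3 i u, lintegral_const_mul' _ _ ENNReal.ofReal_ne_top]
          · intro i _
            exact ((by fun_prop : Continuous fun x => kk L (x + (u - r i)) *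
              Z (u + (v + x))).measurable.ennreal_ofReal).const_mul _
        show ∑ i ∈ S, ENNReal.ofReal (kk L (u - t i) * N u) *
            ∫⁻ y : ℝ, ENNReal.ofReal (kk L y * Z (r i + v + y)) ≤ _
        rw [h4]
        refine lintegral_mono fun x => ?_
        show ∑ i ∈ S, ENNReal.ofReal (kk L (u - t i) * N u) *
              ENNReal.ofReal (kk L (x + (u - r i)) * Z (u + (v + x))) ≤ _
        have h5 : ∀ i ∈ S, ENNReal.ofReal (kk L (u - t i) * N u) *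
              ENNReal.ofReal (kk L (x + (u - r i)) * Z (u + (v + x))) =
            ENNReal.ofReal ((kk L (u - t i) * kk L (x + (u - r i))) * (Z (u + (v + x)) * N u)) := by
          intro i _
          rw [← ENNReal.ofReal_mul (mul_nonneg (kk_nonneg hL0 _) (hN0 _))]
          congr 1
          ring
        rw [Finset.sum_congr rfl h5, ← ENNReal.ofReal_sum_of_nonneg
          (fun i _ => mul_nonneg (mul_nonneg (kk_nonneg hL0 _) (kk_nonneg hL0 _))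
            (mul_nonneg (hZ0 _) (hN0 _))),
          ← ENNReal.ofReal_mul (by positivity), ← Finset.sum_mul]
        apply ENNReal.ofReal_le_ofReal
        calc (∑ i ∈ S, kk L (u - t i) * kk L (x + (u - r i))) * (Z (u + (v + x)) * N u)
            ≤ (C * (L ^ 2 * ((1 + L * |x|) ^ 16)⁻¹ * Real.exp (-x ^ 2 / 6)) * gw τ (4 * W) u) *
              (Z (u + (v + x)) * N u) :=
              mul_le_mul_of_nonneg_right (hk u x) (mul_nonneg (hZ0 _) (hN0 _))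
          _ = _ := by ring
    _ = ∫⁻ x : ℝ, ∫⁻ u : ℝ, ENNReal.ofReal
          (C * (L ^ 2 * ((1 + L * |x|) ^ 16)⁻¹ * Real.exp (-x ^ 2 / 6))) *
          ENNReal.ofReal (Z (u + (v + x)) * N u * gw τ (4 * W) u) := by
        refine lintegral_lintegral_swap ?_
        have hden : Continuous fun p : ℝ × ℝ => ((1 + L * |p.2|) ^ 16)⁻¹ := by
          refine Continuous.inv₀ (by fun_prop) fun p => ?_
          have : 0 ≤ L * |p.2| := by positivity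
          positivity
        have hA : Continuous fun p : ℝ × ℝ =>
            C * (L ^ 2 * ((1 + L * |p.2|) ^ 16)⁻¹ * Real.exp (-p.2 ^ 2 / 6)) := by
          have : Continuous fun p : ℝ × ℝ => Real.exp (-p.2 ^ 2 / 6) := by fun_prop
          fun_prop
        have hB : Continuous fun p : ℝ × ℝ => Z (p.1 + (v + p.2)) * N p.1 * gw τ (4 * W) p.1 := by
          fun_prop
        exact (hA.measurable.ennreal_ofReal.mul hB.measurable.ennreal_ofReal).aemeasurable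
    _ = _ := by
        refine lintegral_congr fun x => ?_
        rw [lintegral_const_mul' _ _ ENNReal.ofReal_ne_top]

private theorem alg1 {κ a b c : ℝ} (hκ : 0 ≤ κ) (ha : 0 ≤ a) (h : b ≤ κ + a) :
    1 + b ≤ (1 + κ) * (1 + a) := by
  nlinarith [mul_nonneg hκ ha]

private theorem alg2 {κ a b c : ℝ} (hκ : 0 ≤ κ) (ha : 0 ≤ a) (hc : 0 ≤ c) (h : b ≤ κ + (c + a)) :
    1 + b ≤ (1 + κ) * ((1 + c) * (1 + a)) := by
  nlinarith [mul_nonneg hκ ha, mul_nonneg hκ hc, mul_nonneg hc ha,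
    mul_nonneg hκ (mul_nonneg hc ha)]

private theorem alg3 {a b c : ℝ} (ha : 0 ≤ a) (hc : 0 ≤ c) (h : b ≤ 3 + (c + a)) :
    1 + b ≤ 4 * ((1 + c) * (1 + a)) := by
  nlinarith [mul_nonneg hc ha]

private theorem alg4 (C L X16 e B k X Zn Y V c4 : ℝ) (n : ℕ) (hc4 : c4 = 4 ^ n) :
    C * (L ^ 2 * X16 * e) * (B * ((k * X) ^ 4 * (k * (Zn * X)) ^ 4) * (4 * (Y * V)) ^ n) =
    (C * B * k ^ 8 * Zn ^ 4 * L ^ 2) * (X16 * X ^ 8) * ((c4 * Y ^ n) * (V ^ n * e)) := by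
  rw [mul_pow 4 (Y * V) n, mul_pow Y V n, ← hc4]
  generalize Y ^ n = y
  generalize V ^ n = v
  ring

private theorem alg5 (C L q B k Zn y Cp c4 : ℝ) :
    (C * B * k ^ 8 * Zn ^ 4 * L ^ 2) * q * ((c4 * y) * Cp) =
    (C * Cp * (B * k ^ 8 * c4) * L * (Zn ^ 4 * y)) * (L * q) := by
  ring

/-- the bound for one pair of lines. -/
private theorem pair_bound {z₀ B K T τ W L κ C Cp : ℝ} {z : ℂ} (n : ℕ) (hL : 1 ≤ L) (hT : 1 ≤ T)
    (hτ : |τ| ≤ 3 * T) (hC : 0 ≤ C) (hB : 0 ≤ B) (hκ : 0 ≤ κ)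
    (hCp : ∀ x : ℝ, (1 + |x|) ^ n * Real.exp (-x ^ 2 / 6) ≤ Cp)
    (hU : ∀ w₀ w₁ w₂ : ℂ, |w₀.re| ≤ K / L → |w₁.re| ≤ K / L → |w₂.re| ≤ K / L →
      Integrable (fun t : ℝ => ‖riemannZeta (pt w₀ t) * (Mo z₀ (pt w₁ t) * Mo z₀ (pt w₂ t))‖ ^ 2 *
        gw τ (4 * W) t) ∧
      ∫ t : ℝ, ‖riemannZeta (pt w₀ t) * (Mo z₀ (pt w₁ t) * Mo z₀ (pt w₂ t))‖ ^ 2 * gw τ (4 * W) t
        ≤ B * ((1 + L * ‖w₀ - w₁‖) ^ 4 * (1 + L * ‖w₀ - w₂‖) ^ 4) *
          (1 + |τ + w₀.im| / T) ^ n)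
    (σ σ' : ℝ) (h0 : |σ - 1 / 2| ≤ K / L) (h1 : |σ' - 1 / 2 + z.re| ≤ K / L)
    (h2 : |σ' - 1 / 2| ≤ K / L) (h3 : |σ - σ' - z.re| ≤ κ / L) (h4 : |σ - σ'| ≤ κ / L) :
    ∫⁻ x : ℝ, ENNReal.ofReal (C * (L ^ 2 * ((1 + L * |x|) ^ 16)⁻¹ * Real.exp (-x ^ 2 / 6))) *
        ∫⁻ u : ℝ, ENNReal.ofReal (‖riemannZeta (σ + ((u + (z.im + x) : ℝ) : ℂ) * I)‖ ^ 2 *
          ‖Mo z₀ (σ' + (u : ℂ) * I + z) * Mo z₀ (σ' + (u : ℂ) * I)‖ ^ 2 * gw τ (4 * W) u) ≤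
      ENNReal.ofReal ((C * Cp * (B * (1 + κ) ^ 8 * (4 : ℝ) ^ n)) * (4 * L) *
        ((1 + L * ‖z‖) ^ 4 * (1 + ‖z‖) ^ n)) := by
  have hL0 : 0 < L := by linarith
  obtain ⟨c4, hc4⟩ : ∃ c4 : ℝ, c4 = (4 : ℝ) ^ n := ⟨_, rfl⟩
  have hc40 : 0 ≤ c4 := by rw [hc4]; positivity
  have hCp0 : 0 ≤ Cp := le_trans (by positivity) (hCp 0)
  rw [← hc4]
  set Zn := 1 + L * ‖z‖ with hZn
  set Y := 1 + ‖z‖ with hY
  have hZn1 : 1 ≤ Zn := by
    have : 0 ≤ L * ‖z‖ := by positivity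
    linarith
  have hY1 : 1 ≤ Y := by
    have := norm_nonneg z
    linarith
  have key : ∀ x : ℝ,
      ENNReal.ofReal (C * (L ^ 2 * ((1 + L * |x|) ^ 16)⁻¹ * Real.exp (-x ^ 2 / 6))) *
        ∫⁻ u : ℝ, ENNReal.ofReal (‖riemannZeta (σ + ((u + (z.im + x) : ℝ) : ℂ) * I)‖ ^ 2 *
          ‖Mo z₀ (σ' + (u : ℂ) * I + z) * Mo z₀ (σ' + (u : ℂ) * I)‖ ^ 2 * gw τ (4 * W) u) ≤
      ENNReal.ofReal ((C * Cp * (B * (1 + κ) ^ 8 * c4) * L * (Zn ^ 4 * Y ^ n)) *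
        (L * (1 + (L * x) ^ 2)⁻¹)) := by
    intro x
    obtain ⟨w₀, hw₀⟩ : ∃ w : ℂ, w = ((σ - 1 / 2 : ℝ) : ℂ) + ((z.im + x : ℝ) : ℂ) * I := ⟨_, rfl⟩
    obtain ⟨w₁, hw₁⟩ : ∃ w : ℂ, w = ((σ' - 1 / 2 : ℝ) : ℂ) + z := ⟨_, rfl⟩
    obtain ⟨w₂, hw₂⟩ : ∃ w : ℂ, w = ((σ' - 1 / 2 : ℝ) : ℂ) := ⟨_, rfl⟩
    have r0 : w₀.re = σ - 1 / 2 := by simp [hw₀]
    have i0 : w₀.im = z.im + x := by simp [hw₀]
    have r1 : w₁.re = σ' - 1 / 2 + z.re := by simp [hw₁]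
    have r2 : w₂.re = σ' - 1 / 2 := by simp [hw₂]
    obtain ⟨hint, hbd⟩ := hU w₀ w₁ w₂ (by rw [r0]; exact h0) (by rw [r1]; exact h1)
      (by rw [r2]; exact h2)
    have hfun : (fun t : ℝ => ‖riemannZeta (pt w₀ t) * (Mo z₀ (pt w₁ t) * Mo z₀ (pt w₂ t))‖ ^ 2 *
        gw τ (4 * W) t) = fun u : ℝ => ‖riemannZeta (σ + ((u + (z.im + x) : ℝ) : ℂ) * I)‖ ^ 2 *
          ‖Mo z₀ (σ' + (u : ℂ) * I + z) * Mo z₀ (σ' + (u : ℂ) * I)‖ ^ 2 * gw τ (4 * W) u := by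
      funext u
      have e0 : pt w₀ u = σ + ((u + (z.im + x) : ℝ) : ℂ) * I := by
        unfold pt; rw [hw₀]; push_cast; ring
      have e1 : pt w₁ u = σ' + (u : ℂ) * I + z := by
        unfold pt; rw [hw₁]; push_cast; ring
      have e2 : pt w₂ u = σ' + (u : ℂ) * I := by
        unfold pt; rw [hw₂]; push_cast; ring
      rw [e0, e1, e2, norm_mul, mul_pow]
    rw [hfun] at hint hbd
    have hgw0 : ∀ u, 0 ≤ gw τ (4 * W) u := fun u => (Real.exp_pos _).le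
    rw [← ofReal_integral_eq_lintegral_ofReal hint (Filter.Eventually.of_forall fun u =>
      mul_nonneg (by positivity) (hgw0 u))]
    rw [← ENNReal.ofReal_mul (by positivity)]
    apply ENNReal.ofReal_le_ofReal
    have habs : ‖w₀ - w₁‖ ≤ κ / L + |x| := by
      refine (Complex.norm_le_abs_re_add_abs_im _).trans ?_
      have e1 : (w₀ - w₁).re = σ - σ' - z.re := by rw [Complex.sub_re, r0, r1]; ring
      have e2 : (w₀ - w₁).im = x := by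
        rw [Complex.sub_im, i0]; simp [hw₁]
      rw [e1, e2]
      linarith only [h3]
    have habs2 : ‖w₀ - w₂‖ ≤ κ / L + (‖z‖ + |x|) := by
      refine (Complex.norm_le_abs_re_add_abs_im _).trans ?_
      have e1 : (w₀ - w₂).re = σ - σ' := by rw [Complex.sub_re, r0, r2]; ring
      have e2 : (w₀ - w₂).im = z.im + x := by
        rw [Complex.sub_im, i0]; simp [hw₂]
      rw [e1, e2]
      have h5 : |z.im + x| ≤ ‖z‖ + |x| :=
        (abs_add_le _ _).trans (by linarith only [Complex.abs_im_le_norm z])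
      linarith
    set X := 1 + L * |x| with hX
    set V := 1 + |x| with hV
    have hx0 : 0 ≤ |x| := abs_nonneg x
    have hX1 : 1 ≤ X := by
      have : 0 ≤ L * |x| := by positivity
      linarith only [this]
    have hV1 : 1 ≤ V := by linarith only [hx0]
    have hz0 : 0 ≤ ‖z‖ := norm_nonneg z
    have b1 : 1 + L * ‖w₀ - w₁‖ ≤ (1 + κ) * X := by
      have h6 : L * ‖w₀ - w₁‖ ≤ κ + L * |x| := by
        have := mul_le_mul_of_nonneg_left habs hL0.le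
        rw [mul_add, mul_div_cancel₀ _ hL0.ne'] at this
        exact this
      exact alg1 (c := 0) hκ (by positivity) h6
    have b2 : 1 + L * ‖w₀ - w₂‖ ≤ (1 + κ) * (Zn * X) := by
      have h6 : L * ‖w₀ - w₂‖ ≤ κ + (L * ‖z‖ + L * |x|) := by
        have := mul_le_mul_of_nonneg_left habs2 hL0.le
        rw [mul_add, mul_div_cancel₀ _ hL0.ne', mul_add] at this
        exact this
      exact alg2 hκ (by positivity) (by positivity) h6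
    have b3 : 1 + |τ + w₀.im| / T ≤ 4 * (Y * V) := by
      rw [i0]
      have h6 : |τ + (z.im + x)| ≤ 3 * T + (‖z‖ + |x|) := by
        have h7 : |τ + (z.im + x)| ≤ |τ| + (|z.im| + |x|) :=
          (abs_add_le _ _).trans (by linarith only [abs_add_le z.im x])
        linarith only [hτ, h7, Complex.abs_im_le_norm z]
      have h8 : |τ + (z.im + x)| / T ≤ 3 + (‖z‖ + |x|) := by
        rw [div_le_iff₀ (by linarith only [hT])]
        have h9 : 0 ≤ (‖z‖ + |x|) * (T - 1) := mul_nonneg (by positivity) (by linarith only [hT])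
        have h10 : (3 + (‖z‖ + |x|)) * T = 3 * T + (‖z‖ + |x|) + (‖z‖ + |x|) * (T - 1) := by ring
        rw [h10]
        linarith only [h6, h9]
      exact alg3 hx0 hz0 h8
    have hin : ((X ^ 16)⁻¹) * X ^ 8 ≤ (1 + (L * x) ^ 2)⁻¹ := by
      have h9 : ((X ^ 16)⁻¹) * X ^ 8 = (X ^ 8)⁻¹ := by
        have hX0 : X ≠ 0 := by linarith
        field_simp
      rw [h9]
      exact pow_inv_le hL0 x (by norm_num)
    have hgauss := hCp x
    have hX0' : 0 ≤ (X ^ 16)⁻¹ := by positivity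
    calc C * (L ^ 2 * (X ^ 16)⁻¹ * Real.exp (-x ^ 2 / 6)) * _
        ≤ C * (L ^ 2 * (X ^ 16)⁻¹ * Real.exp (-x ^ 2 / 6)) *
          (B * (((1 + κ) * X) ^ 4 * ((1 + κ) * (Zn * X)) ^ 4) * (4 * (Y * V)) ^ n) := by
          refine mul_le_mul_of_nonneg_left (hbd.trans ?_) (by positivity)
          gcongr
      _ = (C * B * (1 + κ) ^ 8 * Zn ^ 4 * L ^ 2) * ((((X ^ 16)⁻¹) * X ^ 8)) *
            ((c4 * Y ^ n) * (V ^ n * Real.exp (-x ^ 2 / 6))) := alg4 _ _ _ _ _ _ _ _ _ _ _ n hc4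
      _ ≤ (C * B * (1 + κ) ^ 8 * Zn ^ 4 * L ^ 2) * ((1 + (L * x) ^ 2)⁻¹) *
            ((c4 * Y ^ n) * Cp) := by
          gcongr
      _ = _ := alg5 _ _ _ _ _ _ _ _ _
  set M := C * Cp * (B * (1 + κ) ^ 8 * c4) * L * (Zn ^ 4 * Y ^ n) with hM
  have hM0 : 0 ≤ M := by positivity
  calc _ ≤ ∫⁻ x : ℝ, ENNReal.ofReal (M * (L * (1 + (L * x) ^ 2)⁻¹)) := lintegral_mono key
    _ = ENNReal.ofReal (∫ x : ℝ, M * (L * (1 + (L * x) ^ 2)⁻¹)) := by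
        rw [ofReal_integral_eq_lintegral_ofReal ((int_inv_sq hL0).1.const_mul M)
          (Filter.Eventually.of_forall fun x => by positivity)]
    _ ≤ _ := by
        apply ENNReal.ofReal_le_ofReal
        rw [integral_const_mul, (int_inv_sq hL0).2]
        calc M * Real.pi ≤ M * 4 := by gcongr; exact Real.pi_le_four
          _ = _ := by rw [hM]; ring

private theorem ratio_le {a L : ℝ} {b : ℝ} (hL : 0 < L) (h : a ≤ b) : a / L ≤ b / L :=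
  div_le_div_of_nonneg_right h hL.le

/-- the sum for fixed `L`, `z₀`. -/
private theorem main_sum : ∃ C : ℝ, 0 < C ∧ ∀ (z₀ G K₀ B T τ W L Cp : ℝ) (z : ℂ) (n : ℕ),
    1 ≤ G → 2 ≤ K₀ → 1 ≤ T → 1 ≤ W → |τ| ≤ 3 * T → 4 * (K₀ + G + 2) ≤ L → 0 ≤ B →
    (∀ x : ℝ, (1 + |x|) ^ n * Real.exp (-x ^ 2 / 6) ≤ Cp) →
    (∀ w₀ w₁ w₂ : ℂ, |w₀.re| ≤ (K₀ + G + 2) / L → |w₁.re| ≤ (K₀ + G + 2) / L →
      |w₂.re| ≤ (K₀ + G + 2) / L →
      Integrable (fun t : ℝ => ‖riemannZeta (pt w₀ t) * (Mo z₀ (pt w₁ t) * Mo z₀ (pt w₂ t))‖ ^ 2 *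
        gw τ (4 * W) t) ∧
      ∫ t : ℝ, ‖riemannZeta (pt w₀ t) * (Mo z₀ (pt w₁ t) * Mo z₀ (pt w₂ t))‖ ^ 2 * gw τ (4 * W) t
        ≤ B * ((1 + L * ‖w₀ - w₁‖) ^ 4 * (1 + L * ‖w₀ - w₂‖) ^ 4) *
          (1 + |τ + w₀.im| / T) ^ n) →
    ∀ (S : Finset ℕ) (t : ℕ → ℝ) (ρ : ℕ → ℂ),
    (∀ i ∈ S, |t i - τ| ≤ W ∧ 1 / 2 ≤ (ρ i).re ∧ ‖ρ i - pt 0 (t i)‖ ≤ G / L) →
    (∀ i ∈ S, ∀ j ∈ S, i ≠ j → 1 / L ≤ |t i - t j|) → z.re = K₀ / L →
    ∑ i ∈ S, ‖Mo z₀ (pt 0 (t i))‖ ^ 2 *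
        ‖riemannZeta (ρ i + z) * Mo z₀ (pt 0 (t i) + z)‖ ^ 2
      ≤ ((4 * (2 ^ 32 * Real.exp (32 * (G + 1) + 1)) ^ 2) ^ 2 * 4 *
          ((C * ((1 + G) ^ 16 * Real.exp (G ^ 2))) * Cp *
            (B * (1 + (2 * K₀ + G + 2)) ^ 8 * (4 : ℝ) ^ n))) * (4 * L) *
        ((1 + L * ‖z‖) ^ 4 * (1 + ‖z‖) ^ n) := by
  obtain ⟨C, hC, hsum⟩ := sum_kprod
  obtain ⟨A, hA, hzA⟩ := zeta_strip
  refine ⟨C, hC, ?_⟩
  intro z₀ G K₀ B T τ W L Cp z n hG hK₀ hT hW hτ hL4 hB hCp hU S t ρ hS hsep hz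
  have hL : 1 ≤ L := by linarith
  have hL0 : 0 < L := by linarith
  have hGL : (G + 1) / L ≤ 1 := by rw [div_le_one hL0]; linarith
  obtain ⟨C₂, hC₂⟩ : ∃ c : ℝ, c = 4 * (2 ^ 32 * Real.exp (32 * (G + 1) + 1)) ^ 2 := ⟨_, rfl⟩
  have hC₂0 : 0 ≤ C₂ := by rw [hC₂]; positivity
  obtain ⟨C₃, hC₃⟩ : ∃ c : ℝ, c = C * ((1 + G) ^ 16 * Real.exp (G ^ 2)) := ⟨_, rfl⟩
  have hC₃0 : 0 ≤ C₃ := by rw [hC₃]; positivity
  rw [← hC₂, ← hC₃]
  -- the lines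
  obtain ⟨a, ha⟩ : ∃ a : ℝ, a = 1 / 2 + (K₀ - 1) / L := ⟨_, rfl⟩
  obtain ⟨b, hb⟩ : ∃ b : ℝ, b = 1 / 2 + (K₀ + G + 1) / L := ⟨_, rfl⟩
  obtain ⟨a', ha'⟩ : ∃ a : ℝ, a = 1 / 2 - 1 / L := ⟨_, rfl⟩
  obtain ⟨b', hb'⟩ : ∃ b : ℝ, b = 1 / 2 + 1 / L := ⟨_, rfl⟩
  have hLi : 0 < 1 / L := by positivity
  have hLi8 : 1 / L ≤ 1 / 20 := by
    rw [div_le_div_iff₀ hL0 (by norm_num)]; linarith only [hG, hK₀, hL4]
  have e1 : (K₀ - 1) / L = K₀ / L - 1 / L := by rw [sub_div]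
  have e2 : (K₀ + G + 1) / L = K₀ / L + G / L + 1 / L := by rw [add_div, add_div]
  have e3 : (K₀ + G + 2) / L = K₀ / L + G / L + 2 * (1 / L) := by rw [add_div, add_div]; ring
  have e4 : (2 * K₀ + G + 2) / L = 2 * (K₀ / L) + G / L + 2 * (1 / L) := by
    rw [add_div, add_div]; ring
  have e5 : (G + 1) / L = G / L + 1 / L := by rw [add_div]
  have hK2 : 2 * (1 / L) ≤ K₀ / L := by
    rw [← mul_div_assoc, mul_one]; exact ratio_le hL0 hK₀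
  have hG1 : 1 / L ≤ G / L := ratio_le hL0 hG
  have hbig : (K₀ + G + 2) / L ≤ 1 / 4 := by
    rw [div_le_iff₀ hL0]; linarith only [hL4]
  have hb34 : b ≤ 3 / 4 := by rw [hb, e2]; rw [e3] at hbig; linarith only [hLi, hbig]
  have ha12 : 1 / 2 ≤ a := by rw [ha, e1]; linarith only [hLi, hK2]
  have hab : a ≤ b := by rw [ha, hb, e1, e2]; linarith only [hLi, hG1]
  -- continuity
  have hZc : ∀ σ : ℝ, 1 / 2 ≤ σ → σ ≤ 3 / 4 →
      Continuous fun u : ℝ => ‖riemannZeta (σ + ((u : ℝ) : ℂ) * I)‖ ^ 2 := by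
    intro σ _ hσ2
    refine Continuous.pow (Continuous.norm ?_) 2
    rw [continuous_iff_continuousAt]
    intro u
    have h1 : ContinuousAt riemannZeta (σ + ((u : ℝ) : ℂ) * I) :=
      (zeta_diff _ (by simpa using hσ2)).continuousAt
    exact ContinuousAt.comp (f := fun u : ℝ => (σ : ℂ) + ((u : ℝ) : ℂ) * I) h1
      (by fun_prop : Continuous fun u : ℝ => (σ : ℂ) + ((u : ℝ) : ℂ) * I).continuousAt
  have hMc : Continuous (Mo z₀) := (Mo_diff z₀).continuous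
  have hNc : ∀ σ' : ℝ, Continuous fun u : ℝ =>
      ‖Mo z₀ (σ' + (u : ℂ) * I + z) * Mo z₀ (σ' + (u : ℂ) * I)‖ ^ 2 := by
    intro σ'
    fun_prop
  -- pointwise bounds
  have hp1 : ∀ i ∈ S, ENNReal.ofReal (‖riemannZeta (ρ i + z)‖ ^ 2) ≤ ENNReal.ofReal C₂ *
      ((∫⁻ y : ℝ, ENNReal.ofReal (kk L y *
          ‖riemannZeta (a + (((ρ i).im + z.im + y : ℝ) : ℂ) * I)‖ ^ 2)) +
        ∫⁻ y : ℝ, ENNReal.ofReal (kk L y *
          ‖riemannZeta (b + (((ρ i).im + z.im + y : ℝ) : ℂ) * I)‖ ^ 2)) := by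
    intro i hi
    obtain ⟨_, h2, h3⟩ := hS i hi
    have h4 : |(ρ i).re - 1 / 2| ≤ G / L := by
      have h5 := (Complex.abs_re_le_norm (ρ i - pt 0 (t i))).trans h3
      have h6 : (ρ i - pt 0 (t i)).re = (ρ i).re - 1 / 2 := by
        unfold pt; simp
      rwa [h6] at h5
    have h5 : (ρ i).re ≤ 1 / 2 + G / L := by
      have := (abs_le.1 h4).2
      linarith only [this]
    have hre : (ρ i + z).re = (ρ i).re + K₀ / L := by rw [Complex.add_re, hz]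
    have him : (ρ i + z).im = (ρ i).im + z.im := Complex.add_im _ _
    have h6 := point hL hG hGL riemannZeta a b
      (fun w _ h => zeta_diff w (h.trans hb34)) A 4
      (fun w h h' => hzA w (ha12.trans h) (h'.trans hb34)) (ρ i + z)
      (by rw [hre, ha, e1]; linarith only [h2]) (by rw [hre, ha, e1, e5]; linarith only [h5])
      (by rw [hre, hb, e2]; linarith only [h5]) (by rw [hre, hb, e2, e5]; linarith only [h2])
    rw [← hC₂, him] at h6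
    have h7 : ∀ (σ : ℝ) (y : ℝ), (σ : ℂ) + (((((ρ i).im + z.im : ℝ)) : ℂ) + (y : ℂ)) * I =
        σ + (((ρ i).im + z.im + y : ℝ) : ℂ) * I := by
      intro σ y; push_cast; ring
    simp only [h7] at h6
    exact h6
  obtain ⟨A', hA'0, hA'⟩ := Mo_bdd z₀
  have hp2 : ∀ i ∈ S, ENNReal.ofReal (‖Mo z₀ (pt 0 (t i) + z) * Mo z₀ (pt 0 (t i))‖ ^ 2) ≤
      ENNReal.ofReal C₂ *
      ((∫⁻ y : ℝ, ENNReal.ofReal (kk L y *
          ‖Mo z₀ (a' + ((t i + y : ℝ) : ℂ) * I + z) * Mo z₀ (a' + ((t i + y : ℝ) : ℂ) * I)‖ ^ 2)) +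
        ∫⁻ y : ℝ, ENNReal.ofReal (kk L y *
          ‖Mo z₀ (b' + ((t i + y : ℝ) : ℂ) * I + z) *
            Mo z₀ (b' + ((t i + y : ℝ) : ℂ) * I)‖ ^ 2)) := by
    intro i _
    have hre : (pt 0 (t i)).re = 1 / 2 := by unfold pt; simp
    have him : (pt 0 (t i)).im = t i := by unfold pt; simp
    have hzre : 0 ≤ z.re := by rw [hz]; positivity
    have h6 := point hL hG hGL (fun w => Mo z₀ (w + z) * Mo z₀ w) a' b'
      (fun w _ _ => by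
        have h1 : DifferentiableAt ℂ (fun w => Mo z₀ (w + z)) w :=
          ((Mo_diff z₀).comp (differentiable_id.add_const z)) w
        exact h1.mul (Mo_diff z₀ w)) (A' * A') 0
      (fun w h _ => by
        rw [pow_zero, mul_one, norm_mul]
        have h1 : 0 ≤ w.re := by rw [ha'] at h; linarith only [hLi, hLi8, h]
        exact mul_le_mul (hA' _ (by rw [Complex.add_re]; linarith only [hz, ha', hLi, hK2, h])) (hA' _ h1) (norm_nonneg _)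
          hA'0) (pt 0 (t i))
      (by rw [hre, ha']; linarith only []) (by rw [hre, ha', e5]; linarith only [hLi, hG1])
      (by rw [hre, hb']; linarith only []) (by rw [hre, hb', e5]; linarith only [hLi, hG1])
    rw [← hC₂, him] at h6
    have h7 : ∀ (σ : ℝ) (y : ℝ), (σ : ℂ) + (((t i : ℝ) : ℂ) + (y : ℂ)) * I =
        σ + ((t i + y : ℝ) : ℂ) * I := by
      intro σ y; push_cast; ring
    simp only [h7] at h6
    exact h6
  -- the abbreviations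
  obtain ⟨E, hE⟩ : ∃ E : ℝ → ℕ → ENNReal, ∀ σ i, E σ i = ∫⁻ y : ℝ, ENNReal.ofReal (kk L y *
          ‖riemannZeta (σ + (((ρ i).im + z.im + y : ℝ) : ℂ) * I)‖ ^ 2) := ⟨_, fun _ _ => rfl⟩
  obtain ⟨E', hE'⟩ : ∃ E : ℝ → ℕ → ENNReal, ∀ σ i, E σ i = ∫⁻ y : ℝ, ENNReal.ofReal (kk L y *
          ‖Mo z₀ (σ + ((t i + y : ℝ) : ℂ) * I + z) * Mo z₀ (σ + ((t i + y : ℝ) : ℂ) * I)‖ ^ 2) :=
    ⟨_, fun _ _ => rfl⟩
  simp only [← hE] at hp1
  simp only [← hE'] at hp2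
  obtain ⟨R, hR⟩ : ∃ R : ℝ, R = (C₃ * Cp * (B * (1 + (2 * K₀ + G + 2)) ^ 8 * (4 : ℝ) ^ n)) *
      (4 * L) * ((1 + L * ‖z‖) ^ 4 * (1 + ‖z‖) ^ n) := ⟨_, rfl⟩
  have hCp0 : 0 ≤ Cp := le_trans (by positivity) (hCp 0)
  have hR0 : 0 ≤ R := by
    rw [hR]
    have : 0 ≤ 1 + (2 * K₀ + G + 2) := by linarith only [hG, hK₀]
    positivity
  have hr : ∀ i ∈ S, |t i - τ| ≤ W ∧ |(ρ i).im - t i| ≤ G / L := by
    intro i hi
    obtain ⟨h1, _, h3⟩ := hS i hi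
    refine ⟨h1, ?_⟩
    have h5 := (Complex.abs_im_le_norm (ρ i - pt 0 (t i))).trans h3
    have h6 : (ρ i - pt 0 (t i)).im = (ρ i).im - t i := by
      unfold pt; simp
    rwa [h6] at h5
  have hpair : ∀ σ σ' : ℝ, (1 / 2 ≤ σ ∧ σ ≤ 3 / 4) → |σ - 1 / 2| ≤ (K₀ + G + 2) / L →
      |σ' - 1 / 2 + z.re| ≤ (K₀ + G + 2) / L → |σ' - 1 / 2| ≤ (K₀ + G + 2) / L →
      |σ - σ' - z.re| ≤ (2 * K₀ + G + 2) / L → |σ - σ'| ≤ (2 * K₀ + G + 2) / L →
      ∑ i ∈ S, E σ i * E' σ' i ≤ ENNReal.ofReal R := by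
    intro σ σ' hσ h0 h1 h2 h3 h4
    have h5 := tonelli (τ := τ) (W := W) hC₃0 hL S t (fun i => (ρ i).im)
      (by
        intro u x
        rw [hC₃]
        exact hsum L G hL hG τ W hW S t (fun i => (ρ i).im) hr hsep u x)
      (fun u : ℝ => ‖riemannZeta (σ + ((u : ℝ) : ℂ) * I)‖ ^ 2)
      (fun u : ℝ => ‖Mo z₀ (σ' + (u : ℂ) * I + z) * Mo z₀ (σ' + (u : ℂ) * I)‖ ^ 2)
      (hZc σ hσ.1 hσ.2) (hNc σ') (fun _ => by positivity) (fun _ => by positivity) z.im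
    have h6 := pair_bound n hL hT hτ hC₃0 hB (by linarith only [hG, hK₀] : 0 ≤ 2 * K₀ + G + 2) hCp hU σ σ'
      h0 h1 h2 h3 h4
    rw [hR]
    refine le_trans (le_of_eq ?_) (h5.trans h6)
    refine Finset.sum_congr rfl fun i _ => ?_
    rw [hE, hE']
  have q1 : ∀ σ, (σ = a ∨ σ = b) → ∀ σ', (σ' = a' ∨ σ' = b') →
      ∑ i ∈ S, E σ i * E' σ' i ≤ ENNReal.ofReal R := by
    intro σ hσ σ' hσ'
    have hK0 : 0 ≤ K₀ / L := by linarith only [hLi, hK2]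
    have hG0 : 0 ≤ G / L := by linarith only [hLi, hG1]
    have hσ1 : 1 / 2 + (K₀ / L - 1 / L) ≤ σ ∧ σ ≤ 1 / 2 + (K₀ / L + G / L + 1 / L) := by
      rcases hσ with rfl | rfl
      · rw [ha, e1]; constructor <;> linarith only [hLi, hG1]
      · rw [hb, e2]; constructor <;> linarith only [hLi, hG1]
    have hσ2 : 1 / 2 - 1 / L ≤ σ' ∧ σ' ≤ 1 / 2 + 1 / L := by
      rcases hσ' with rfl | rfl
      · rw [ha']; constructor <;> linarith only [hLi]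
      · rw [hb']; constructor <;> linarith only [hLi]
    obtain ⟨s1, s2⟩ := hσ1
    obtain ⟨s3, s4⟩ := hσ2
    rw [e3] at hbig
    refine hpair σ σ' ⟨by linarith only [hLi, hK2, s1], by linarith only [hLi, hbig, s2]⟩ ?_ ?_ ?_ ?_ ?_
    · rw [abs_le, e3]; constructor <;> linarith only [hLi, hK2, hG1, s1, s2]
    · rw [abs_le, e3, hz]; constructor <;> linarith only [hLi, hK2, hG1, s3, s4]
    · rw [abs_le, e3]; constructor <;> linarith only [hLi, hK2, hG1, s3, s4]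
    · rw [abs_le, e4, hz]; constructor <;> linarith only [hLi, hK2, hG1, s1, s4, s2, s3]
    · rw [abs_le, e4]; constructor <;> linarith only [hLi, hK2, hG1, s1, s4, s2, s3]
  -- conclusion
  have hterm : ∀ i ∈ S, ENNReal.ofReal (‖Mo z₀ (pt 0 (t i))‖ ^ 2 *
        ‖riemannZeta (ρ i + z) * Mo z₀ (pt 0 (t i) + z)‖ ^ 2) ≤
      (ENNReal.ofReal C₂ * ENNReal.ofReal C₂) * ((E a i * E' a' i + E a i * E' b' i) +
        (E b i * E' a' i + E b i * E' b' i)) := by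
    intro i hi
    have h1 : ‖Mo z₀ (pt 0 (t i))‖ ^ 2 *
        ‖riemannZeta (ρ i + z) * Mo z₀ (pt 0 (t i) + z)‖ ^ 2 =
        ‖riemannZeta (ρ i + z)‖ ^ 2 * ‖Mo z₀ (pt 0 (t i) + z) * Mo z₀ (pt 0 (t i))‖ ^ 2 := by
      rw [norm_mul, norm_mul]; ring
    rw [h1, ENNReal.ofReal_mul (by positivity)]
    calc _ ≤ (ENNReal.ofReal C₂ * (E a i + E b i)) * (ENNReal.ofReal C₂ * (E' a' i + E' b' i)) :=
          mul_le_mul' (hp1 i hi) (hp2 i hi)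
      _ = _ := by ring
  have hfin : ENNReal.ofReal (∑ i ∈ S, ‖Mo z₀ (pt 0 (t i))‖ ^ 2 *
        ‖riemannZeta (ρ i + z) * Mo z₀ (pt 0 (t i) + z)‖ ^ 2) ≤
      ENNReal.ofReal (C₂ * C₂ * (4 * R)) := by
    rw [ENNReal.ofReal_sum_of_nonneg (fun i _ => by positivity)]
    calc _ ≤ ∑ i ∈ S, (ENNReal.ofReal C₂ * ENNReal.ofReal C₂) *
          ((E a i * E' a' i + E a i * E' b' i) + (E b i * E' a' i + E b i * E' b' i)) :=
          Finset.sum_le_sum hterm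
      _ = (ENNReal.ofReal C₂ * ENNReal.ofReal C₂) *
          ((∑ i ∈ S, E a i * E' a' i + ∑ i ∈ S, E a i * E' b' i) +
            (∑ i ∈ S, E b i * E' a' i + ∑ i ∈ S, E b i * E' b' i)) := by
          rw [← Finset.mul_sum, Finset.sum_add_distrib, Finset.sum_add_distrib,
            Finset.sum_add_distrib]
      _ ≤ (ENNReal.ofReal C₂ * ENNReal.ofReal C₂) *
          ((ENNReal.ofReal R + ENNReal.ofReal R) + (ENNReal.ofReal R + ENNReal.ofReal R)) := by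
          gcongr
          · exact q1 a (Or.inl rfl) a' (Or.inl rfl)
          · exact q1 a (Or.inl rfl) b' (Or.inr rfl)
          · exact q1 b (Or.inr rfl) a' (Or.inl rfl)
          · exact q1 b (Or.inr rfl) b' (Or.inr rfl)
      _ = _ := by
          rw [← ENNReal.ofReal_add hR0 hR0, ← ENNReal.ofReal_add (by positivity) (by positivity),
            ← ENNReal.ofReal_mul hC₂0, ← ENNReal.ofReal_mul (by positivity)]
          congr 1
          ring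
  have h9 := (ENNReal.ofReal_le_ofReal_iff (by positivity)).1 hfin
  refine h9.trans (le_of_eq ?_)
  rw [hR]
  generalize (4 : ℝ) ^ n = c4
  generalize (1 + ‖z‖) ^ n = y
  ring

/-- `s_i = 1/2 + i t_i` (`= pt 0 (t i)`), `‖ρ_i - s_i‖ ≤ G/L` with `Re ρ_i ≥ 1/2`, `Re z = K₀/L`,
`K₀ ≥ 2`.

PROOF. (a) `interp` for `G(w) = Zt w/(…)`… simply `ζ` on the strip between the lines
`a = 1/2 + (K₀-1)/L`, `b = 1/2 + (K₀+G+1)/L` (to the left of `1`; `ζ` has polynomial growth there by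
`Zt_growth`; near `Im = 0` it is bounded as the strip is away from `1`), `lm = 0`, `h = L`, at
`w = ρ_i + z`: by `norm_kn_le`
(`|σ| ∈ [1/L, (G+2)/L]`, kernel `≤ C_G L (1+L|y|)^{-32} e^{-y²}`)
`‖ζ(ρ_i+z)‖² ≤ C_G ∫ L (1+L|y - Im ρ_i - v|)^{-32} e^{-(…)²} (‖ζ(a+iy)‖²+‖ζ(b+iy)‖²) dy`, `v = Im z`
(`a, b` here as real parts).
(b) `interp` for `w ↦ Mo (w+z) Mo w` at `w = s_i` with the lines `Re = 1/2 ± 1/L`, `h = L`:
`‖M(s_i+z) M(s_i)‖² ≤ C ∫ L (1+L|y'-t_i|)^{-32} e^{-(y'-t_i)²} (…at 1/2 ± 1/L + iy') dy'`.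
(c) Multiply, put `y = y' + v + x`: since `|y - Im ρ_i - v| + |y' - t_i| + G/L ≥ |x|`,
`(1+L|y-Im ρ_i - v|)^{-32} (1+L|y'-t_i|)^{-32} ≤ C_G (1+L|x|)^{-16} (1+L|y'-t_i|)^{-16}`. Sum over `i`:
`∑_i (1+L|y'-t_i|)^{-16} e^{-(y'-t_i)²} ≤ C gw τ (4W) y'` (separation `1/L`, `|t_i - τ| ≤ W`, `W ≥ 1`).
So the sum is `≤ C_G L² ∫ (1+L|x|)^{-16} ∫ ‖ζ(σ + i(y'+v+x)) M(σ'+iy'+z) M(σ'+iy')‖² gw τ (4W) y' dy' dx`
over the four choices `σ ∈ {a,b}`, `σ' = 1/2 ± 1/L`; `U` with `w₀ = σ - 1/2 + i(v+x)`,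
`w₁ = σ'-1/2+z`, `w₂ = σ' - 1/2`, `K = K₀+G+2`, width `4W ≤ T/2`: inner
`≤ C_G W L (1+L|x|)^4 (1+L‖z‖)^4 (1+L|x|)^4 (1+(|τ|+|v|+|x|)/T)^{301}`. The Gaussian decay in `x`
must be kept as well: `e^{-(y-Im ρ_i - v)²/2} e^{-(y'-t_i)²/2} ≤ C e^{-x²/8}`. Total
`≤ C_G L² · (1/L) · W L (1+L‖z‖)^4 (1+‖z‖)^{301}` as `|τ| ≤ 3T`. -/
theorem ensum_local (θ : ℝ) (hθ0 : 0 < θ) (hθ1 : θ ≤ 1 / 40) (G K₀ : ℝ) (hG : 1 ≤ G) (hK₀ : 2 ≤ K₀) :
    ∃ C : ℝ, 0 < C ∧ ∃ T₀ : ℝ, Real.exp 3200 ≤ T₀ ∧ ∀ T : ℝ, T₀ ≤ T →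
    ∀ τ W : ℝ, T ^ (9 / 10 : ℝ) ≤ W → 4 * W ≤ T / 2 → |τ| ≤ 3 * T →
    ∀ (S : Finset ℕ) (t : ℕ → ℝ) (ρ : ℕ → ℂ),
    (∀ i ∈ S, |t i - τ| ≤ W ∧ 1 / 2 ≤ (ρ i).re ∧ ‖ρ i - pt 0 (t i)‖ ≤ G / Real.log T) →
    (∀ i ∈ S, ∀ j ∈ S, i ≠ j → 1 / Real.log T ≤ |t i - t j|) →
    ∀ z : ℂ, z.re = K₀ / Real.log T →
    ∑ i ∈ S, ‖Mo (T ^ θ) (pt 0 (t i))‖ ^ 2 *
        ‖riemannZeta (ρ i + z) * Mo (T ^ θ) (pt 0 (t i) + z)‖ ^ 2
      ≤ C * W * Real.log T ^ 2 * (1 + Real.log T * ‖z‖) ^ 4 * (1 + ‖z‖) ^ 301 := by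
  obtain ⟨CU, hCU, hU⟩ := U θ hθ0 hθ1
  obtain ⟨TU, hTU, hU'⟩ := hU (K₀ + G + 2) (by linarith)
  obtain ⟨C, hC, hmain⟩ := main_sum
  obtain ⟨Cp, hCp0, hCp⟩ := poly_gauss
  obtain ⟨c4, hc4⟩ : ∃ c4 : ℝ, c4 = (4 : ℝ) ^ 301 := ⟨_, rfl⟩
  have hc40 : 0 < c4 := by rw [hc4]; positivity
  have hk0 : 0 < 1 + (2 * K₀ + G + 2) := by linarith
  have h1G : 0 < 1 + G := by linarith
  refine ⟨((4 * (2 ^ 32 * Real.exp (32 * (G + 1) + 1)) ^ 2) ^ 2 * 4 *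
          ((C * ((1 + G) ^ 16 * Real.exp (G ^ 2))) * Cp *
            ((CU * Real.exp (CU * (K₀ + G + 2)) * 4) * (1 + (2 * K₀ + G + 2)) ^ 8 * c4))) * 4,
    by positivity, max (max (Real.exp 3200) TU) (Real.exp (4 * (K₀ + G + 2))),
    (le_max_left _ _).trans (le_max_left _ _), ?_⟩
  intro T hT τ W hW1 hW2 hτ S t ρ hS hsep z hz
  have hT1 : Real.exp 3200 ≤ T := ((le_max_left _ _).trans (le_max_left _ _)).trans hT
  have hT2 : TU ≤ T := ((le_max_right _ _).trans (le_max_left _ _)).trans hT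
  have hT3 : Real.exp (4 * (K₀ + G + 2)) ≤ T := (le_max_right _ _).trans hT
  have hT0 : 0 < T := (Real.exp_pos _).trans_le hT1
  have hTone : 1 ≤ T := le_trans (Real.one_le_exp (by norm_num)) hT1
  have hL : 4 * (K₀ + G + 2) ≤ Real.log T := by
    rw [Real.le_log_iff_exp_le hT0]; exact hT3
  have hL0 : 0 < Real.log T := by linarith only [hG, hK₀, hL]
  have hWone : 1 ≤ W := le_trans (Real.one_le_rpow hTone (by norm_num)) hW1
  have hW0 : 0 < W := by linarith only [hWone]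
  have h1 := hmain (T ^ θ) G K₀ (CU * Real.exp (CU * (K₀ + G + 2)) * (4 * W) * Real.log T) T τ W
    (Real.log T) Cp z 301 hG hK₀ hTone hWone hτ hL (by positivity) hCp
    (fun w₀ w₁ w₂ h0 h1 h2 => hU' T hT2 τ (4 * W) (by linarith only [hW1, hWone]) hW2 w₀ w₁ w₂ h0 h1 h2)
    S t ρ hS hsep hz
  refine h1.trans (le_of_eq ?_)
  rw [← hc4]
  generalize (1 + ‖z‖) ^ 301 = y
  generalize (4 * (2 ^ 32 * Real.exp (32 * (G + 1) + 1)) ^ 2) ^ 2 = g1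
  generalize (1 + G) ^ 16 * Real.exp (G ^ 2) = g2
  generalize (1 + (2 * K₀ + G + 2)) ^ 8 = g3
  generalize Real.exp (CU * (K₀ + G + 2)) = g4
  ring

end Pool.Agent.H14.CO
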