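import Pool.Agent.H14.CO.FinalA
import Pool.Agent.H95.GC.Subdiv

/-!
# CO: the two conclusions from the core inequality
-/

set_option autoImplicit false

namespace Pool.Agent.H14.CO

open Set MeasureTheory Pool.Agent.H95.GC

/-- the conclusion of `core2` -/
def CoreHyp (κ c₀ : ℝ) : Prop := ∀ A : ℝ, 0 < A →
    ∃ T₀ : ℝ, 1 ≤ T₀ ∧ ∀ T : ℝ, T₀ ≤ T →
    ∀ n : ℝ, 0 ≤ n → n ≤ A * Real.log T → ∀ δ : ℝ, 1 / (40 * T) ≤ δ → δ ≤ 1 / (20 * T) →
    c₀ * Real.log T / T ≤ ∫ u in n..(n + (1 + κ) * Real.log T),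
      (M (Real.exp u) (δ * Real.exp u)) ^ 2 * Real.exp (-u)

theorem int_u (δ a b : ℝ) (hδ : 0 ≤ δ) : IntegrableOn
    (fun u : ℝ => (M (Real.exp u) (δ * Real.exp u)) ^ 2 * Real.exp (-u)) (Icc a b) := by
  refine Measure.integrableOn_of_bounded (M := (δ * Real.exp b + 1) ^ 2 * Real.exp (-a))
    (by simp) ?_ ?_
  · exact ((meas_M2 _ _ Real.measurable_exp (Real.measurable_exp.const_mul δ)).mul
      (Real.measurable_exp.comp measurable_neg)).aestronglyMeasurable
  · refine (ae_restrict_iff' measurableSet_Icc).2 (Filter.Eventually.of_forall fun u hu => ?_)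
    rw [Real.norm_eq_abs, abs_of_nonneg (by positivity)]
    have h1 := M2_le (Real.exp u) (δ * Real.exp u) (by positivity)
    have h2 : (δ * Real.exp u + 1) ^ 2 ≤ (δ * Real.exp b + 1) ^ 2 := by
      apply pow_le_pow_left₀ (by positivity)
      have := mul_le_mul_of_nonneg_left (Real.exp_le_exp.2 hu.2) hδ
      linarith
    exact mul_le_mul (h1.trans h2) (Real.exp_le_exp.2 (by linarith [hu.1])) (Real.exp_pos _).le
      (by positivity)

theorem ext_u (δ n n₁ n₂ : ℝ) (hδ : 0 ≤ δ) (h1 : n ≤ n₁) (h2 : n₁ ≤ n₂) :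
    ∫ u in n..n₁, (M (Real.exp u) (δ * Real.exp u)) ^ 2 * Real.exp (-u) ≤
      ∫ u in n..n₂, (M (Real.exp u) (δ * Real.exp u)) ^ 2 * Real.exp (-u) := by
  rw [intervalIntegral.integral_of_le h1, intervalIntegral.integral_of_le (h1.trans h2)]
  apply setIntegral_mono_set
  · exact (int_u _ _ _ hδ).mono_set Ioc_subset_Icc_self
  · exact Filter.Eventually.of_forall fun x => by positivity
  · exact Filter.Eventually.of_forall (Ioc_subset_Ioc le_rfl h2)

theorem final_i (κ κ' c₀ : ℝ) (hκ' : 0 < κ') (hκκ : κ' ≤ κ) (hc₀ : 0 < c₀)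
    (hcore : CoreHyp κ' c₀) : ∀ A : ℝ, 0 < A →
    ∃ T₀ : ℝ, 1 ≤ T₀ ∧ ∀ T : ℝ, T₀ ≤ T → ∀ N : ℝ, 1 ≤ N → N ≤ T ^ A →
      10 * c₀ * Real.log T ≤ ∫ X in N..(N * T ^ (1 + κ)), V X (X / T) / (X / T) / X := by
  intro A hA
  obtain ⟨T₁, hT₁1, hcore⟩ := hcore (2 * A + 1) (by positivity)
  refine ⟨max (20 * T₁) 6400, le_max_of_le_right (by norm_num), ?_⟩
  intro T hT N hN1 hNA
  have hTa : 20 * T₁ ≤ T := (le_max_left _ _).trans hT
  have he2 : 6400 ≤ T := (le_max_right _ _).trans hT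
  have hT0 : 0 < T := by linarith
  set T' : ℝ := T / 20 with hT'
  have hT'0 : 0 < T' := by positivity
  have hT'2 : T₁ ≤ T' := by rw [hT']; linarith
  have hN0 : 0 < N := by linarith
  have hlogT' : Real.log T ≤ 2 * Real.log T' := by
    have h1 : T ≤ T' ^ 2 := by
      rw [hT']
      nlinarith
    calc Real.log T ≤ Real.log (T' ^ 2) := Real.log_le_log hT0 h1
      _ = 2 * Real.log T' := by rw [Real.log_pow]; norm_num
  have hlogs : Real.log T = Real.log T' + Real.log 20 := by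
    rw [← Real.log_mul hT'0.ne' (by norm_num)]; congr 1; rw [hT']; ring
  have hlog1 : 1 ≤ Real.log T' := by
    rw [Real.le_log_iff_exp_le hT'0]
    have := Real.exp_one_lt_d9
    rw [hT']; linarith
  have hlog2 : Real.log 2 ≤ 1 := by
    have := Real.log_two_lt_d9; linarith
  have hlog220 : Real.log 2 ≤ Real.log 20 := Real.log_le_log (by norm_num) (by norm_num)
  have hlog20 : 0 ≤ Real.log 20 := Real.log_nonneg (by norm_num)
  set n : ℝ := Real.log (2 * N) with hn
  have hn0 : 0 ≤ n := Real.log_nonneg (by linarith)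
  have hn1 : n = Real.log 2 + Real.log N := Real.log_mul (by norm_num) hN0.ne'
  have hnA : n ≤ (2 * A + 1) * Real.log T' := by
    have h3 : Real.log N ≤ A * Real.log T := by
      calc Real.log N ≤ Real.log (T ^ A) := Real.log_le_log hN0 hNA
        _ = A * Real.log T := Real.log_rpow hT0 A
    have h4 : A * Real.log T ≤ A * (2 * Real.log T') := mul_le_mul_of_nonneg_left hlogT' hA.le
    nlinarith
  set N' := N * T ^ (1 + κ) with hN'
  have hTκ : 0 < T ^ (1 + κ) := Real.rpow_pos_of_pos hT0 _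
  have hTκ2 : 2 ≤ T ^ (1 + κ) := by
    calc (2 : ℝ) ≤ T ^ (1 : ℝ) := by rw [Real.rpow_one]; linarith
      _ ≤ T ^ (1 + κ) := Real.rpow_le_rpow_of_exponent_le (by linarith) (by linarith)
  have hNN : 2 * N ≤ N' := by
    rw [hN', mul_comm 2 N]; exact mul_le_mul_of_nonneg_left hTκ2 hN0.le
  have hlogN' : Real.log N' = Real.log N + (1 + κ) * Real.log T := by
    rw [hN', Real.log_mul hN0.ne' hTκ.ne', Real.log_rpow hT0]
  have hupper : n + (1 + κ') * Real.log T' ≤ Real.log N' := by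
    rw [hlogN', hn1]
    have h1 : κ' * Real.log T' ≤ κ * Real.log T' := mul_le_mul_of_nonneg_right hκκ (by linarith)
    have h2 : 0 ≤ κ * Real.log 20 := mul_nonneg (by linarith) hlog20
    rw [hlogs]
    nlinarith
  have hδT : 1 / (40 * T') = 1 / (2 * T) := by rw [hT']; field_simp; norm_num
  have hδT2 : 1 / (20 * T') = 1 / T := by rw [hT']; field_simp
  have key := var_window T N N' (c₀ * Real.log T' / T') hT0 hN0 hNN (by
    intro δ hδ1 hδ2
    have hδ0 : 0 ≤ δ := le_trans (by positivity) hδ1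
    refine (hcore T' hT'2 n hn0 hnA δ (by rw [hδT]; exact hδ1) (by rw [hδT2]; exact hδ2)).trans ?_
    exact ext_u δ _ _ _ hδ0 (by nlinarith) hupper)
  refine le_trans ?_ key
  have e1 : T * (c₀ * Real.log T' / T') = 20 * c₀ * Real.log T' := by
    rw [hT']; field_simp
  rw [e1]
  nlinarith

theorem num_ii (c₀ T T' X Y H W : ℝ) (hc₀ : 0 < c₀) (hT0 : 0 < T) (hT' : T' = T / 40)
    (hX : X = 4 / 5 * Y) (hY0 : 0 < Y) (hW0 : 0 ≤ W) (hH2 : H ≤ 14 / 5 * (Y / T))
    (h5 : c₀ * Y ^ 2 ≤ 18 * (X * W) * T') : c₀ / 2 * H ≤ W := by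
  have h7 : c₀ * Y ^ 2 ≤ (9 / 25 * (W * T)) * Y := by
    calc c₀ * Y ^ 2 ≤ 18 * (X * W) * T' := h5
      _ = _ := by rw [hX, hT']; ring
  have h8 : c₀ * Y ≤ 9 / 25 * (W * T) := by
    have h9 : (c₀ * Y) * Y ≤ (9 / 25 * (W * T)) * Y := by
      calc (c₀ * Y) * Y = c₀ * Y ^ 2 := by ring
        _ ≤ _ := h7
    exact le_of_mul_le_mul_right h9 hY0
  have hHY : T * H ≤ 14 / 5 * Y := by
    calc T * H ≤ T * (14 / 5 * (Y / T)) := mul_le_mul_of_nonneg_left hH2 hT0.le
      _ = 14 / 5 * Y := by field_simp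
  have h10 : c₀ / 2 * H * T ≤ W * T := by
    have h11 : c₀ * (T * H) ≤ c₀ * (14 / 5 * Y) := mul_le_mul_of_nonneg_left hHY hc₀.le
    have h12 : 0 ≤ W * T := by positivity
    nlinarith
  exact le_of_mul_le_mul_right h10 hT0

theorem final_ii (κ κ' c₀ : ℝ) (hκ' : 0 < κ') (hκκ : κ' ≤ κ) (hκ1 : κ' ≤ 1) (hc₀ : 0 < c₀)
    (hcore : CoreHyp κ' c₀) : ∀ A : ℝ, 0 < A →
    ∃ T₀ : ℝ, 1 ≤ T₀ ∧ ∀ T : ℝ, T₀ ≤ T → ∀ N : ℝ, 1 ≤ N → N ≤ T ^ A →
      ∃ X H : ℝ, N ≤ X ∧ X ≤ N * T ^ (1 + κ) ∧ X / T ≤ H ∧ H ≤ 4 * (X / T) ∧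
        ∀ m : ℕ, 1 ≤ m → c₀ / 2 * H / (m : ℝ) ^ 2 ≤ V X (H / m) := by
  intro A hA
  obtain ⟨T₁, hT₁1, hcore⟩ := hcore (2 * A + 1) (by positivity)
  refine ⟨max (40 * T₁) 6400, le_max_of_le_right (by norm_num), ?_⟩
  intro T hT N hN1 hNA
  have hTa : 40 * T₁ ≤ T := (le_max_left _ _).trans hT
  have he2 : 6400 ≤ T := (le_max_right _ _).trans hT
  have hT0 : 0 < T := by linarith
  have hT1 : 1 ≤ T := by linarith
  set T' : ℝ := T / 40 with hT'
  have hT'0 : 0 < T' := by positivity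
  have hT'1 : 1 ≤ T' := by rw [hT']; linarith
  have hT'2 : T₁ ≤ T' := by rw [hT']; linarith
  have hN0 : 0 < N := by linarith
  have hlogT' : Real.log T ≤ 2 * Real.log T' := by
    have h1 : T ≤ T' ^ 2 := by
      rw [hT']
      nlinarith
    calc Real.log T ≤ Real.log (T' ^ 2) := Real.log_le_log hT0 h1
      _ = 2 * Real.log T' := by rw [Real.log_pow]; norm_num
  have hlog1 : 1 ≤ Real.log T' := by
    rw [Real.le_log_iff_exp_le hT'0]
    have := Real.exp_one_lt_d9
    rw [hT']; linarith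
  set n : ℝ := Real.log (5 / 4 * N) with hn
  have hn0 : 0 ≤ n := Real.log_nonneg (by linarith)
  have hexpn : Real.exp n = 5 / 4 * N := Real.exp_log (by linarith)
  have hnA : n ≤ (2 * A + 1) * Real.log T' := by
    have h1 : n = Real.log (5 / 4) + Real.log N := Real.log_mul (by norm_num) hN0.ne'
    have h2 : Real.log (5 / 4) ≤ 1 := by
      have := Real.log_le_sub_one_of_pos (show (0 : ℝ) < 5 / 4 by norm_num)
      linarith
    have h3 : Real.log N ≤ A * Real.log T := by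
      calc Real.log N ≤ Real.log (T ^ A) := Real.log_le_log hN0 hNA
        _ = A * Real.log T := Real.log_rpow hT0 A
    have h4 : A * Real.log T ≤ A * (2 * Real.log T') := mul_le_mul_of_nonneg_left hlogT' hA.le
    nlinarith
  set n' : ℝ := n + (1 + κ') * Real.log T' with hn'
  have hnn' : n ≤ n' := by
    rw [hn']
    have : 0 ≤ (1 + κ') * Real.log T' := by positivity
    linarith
  have hδT : 1 / (40 * T') = 1 / T := by rw [hT']; field_simp
  have hδT2 : 1 / (20 * T') = 2 * (1 / T) := by rw [hT']; field_simp; norm_num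
  obtain ⟨Y, H, hY1, hY2, hH1, hH2, hineq⟩ := blocks (fun x H => M x H ^ 2)
    (by
      have h : Function.uncurry (fun x H => M x H ^ 2) = fun p => (Function.uncurry M p) ^ 2 := by
        funext p; rfl
      rw [h]
      exact measurable_M.pow_const 2)
    (fun x H => sq_nonneg _)
    (fun x H hH => M2_le x H hH)
    (1 / T) n n' (c₀ * Real.log T' / T') (by positivity) hnn' (by positivity)
    (by
      intro δ hδ
      exact hcore T' hT'2 n hn0 hnA δ (by rw [hδT]; exact hδ.1) (by rw [hδT2]; exact hδ.2))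
  rw [hexpn] at hY1
  have hY0 : 0 < Y := by linarith
  have hH0 : 0 < H := lt_of_lt_of_le (by positivity) hH1
  have h1T : (1 / T) * Y = Y / T := by ring
  rw [h1T] at hH1 hH2
  refine ⟨4 / 5 * Y, H, by linarith, ?_, ?_, ?_, ?_⟩
  · -- X ≤ N T^(1+κ)
    have h1 : Y ≤ 5 / 4 * N * T ^ (1 + κ) := by
      refine hY2.trans ?_
      rw [hn', Real.exp_add, hexpn]
      apply mul_le_mul_of_nonneg_left _ (by linarith)
      calc Real.exp ((1 + κ') * Real.log T') = T' ^ (1 + κ') := by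
            rw [Real.rpow_def_of_pos hT'0]; congr 1; ring
        _ ≤ T ^ (1 + κ') := Real.rpow_le_rpow hT'0.le (by rw [hT']; linarith) (by linarith)
        _ ≤ T ^ (1 + κ) := Real.rpow_le_rpow_of_exponent_le hT1 (by linarith)
    calc 4 / 5 * Y ≤ 4 / 5 * (5 / 4 * N * T ^ (1 + κ)) := by linarith
      _ = N * T ^ (1 + κ) := by ring
  · calc 4 / 5 * Y / T ≤ Y / T := by
          apply div_le_div_of_nonneg_right _ hT0.le
          linarith
      _ ≤ H := hH1
  · calc H ≤ 14 / 5 * (Y / T) := hH2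
      _ ≤ 4 * (4 / 5 * Y / T) := by
          have : 0 < Y / T := by positivity
          have h2 : 4 / 5 * Y / T = 4 / 5 * (Y / T) := by ring
          rw [h2]; linarith
  · intro m hm
    have hm0 : (0 : ℝ) < m := by exact_mod_cast hm
    have hsub := subdiv Y H m hm hH0 (by
      have h1 : Y / T ≤ Y / 7 := by
        apply div_le_div_of_nonneg_left hY0.le (by norm_num) (by linarith)
      linarith)
    set X : ℝ := 4 / 5 * Y with hX
    have hX0 : 0 < X := by rw [hX]; positivity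
    have hV : ∫ x in X..(2 * X), M x (H / m) ^ 2 = X * V X (H / m) := by
      unfold V
      field_simp
    rw [hV] at hsub
    have hV0 : 0 ≤ V X (H / m) := by
      unfold V
      apply mul_nonneg (by positivity)
      apply intervalIntegral.integral_nonneg (by linarith)
      intro x _
      positivity
    set l := Real.log T' with hl
    set W := (m : ℝ) ^ 2 * V X (H / m) with hW
    have hW0 : 0 ≤ W := by positivity
    have hLpos : 0 ≤ 6 * (n' - n + 1) := by linarith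
    have h1 : c₀ * l / T' * Y ^ 2 ≤ 6 * (n' - n + 1) * (X * W) := by
      refine hineq.trans ?_
      have h2 := mul_le_mul_of_nonneg_left hsub hLpos
      calc _ ≤ _ := h2
        _ = _ := by rw [hW]; ring
    have hL : n' - n + 1 ≤ 3 * l := by
      rw [hn']
      have : κ' * l ≤ 1 * l := mul_le_mul_of_nonneg_right hκ1 (by linarith)
      nlinarith
    have h4 : c₀ * l / T' * Y ^ 2 ≤ 18 * l * (X * W) := by
      calc c₀ * l / T' * Y ^ 2 ≤ 6 * (n' - n + 1) * (X * W) := h1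
        _ ≤ 6 * (3 * l) * (X * W) := by
            apply mul_le_mul_of_nonneg_right _ (by positivity)
            linarith
        _ = _ := by ring
    have hl0 : 0 < l := by linarith
    have h5 : c₀ * Y ^ 2 ≤ 18 * (X * W) * T' := by
      have h6 : c₀ * l / T' * Y ^ 2 = c₀ * Y ^ 2 / T' * l := by ring
      have h7 : 18 * l * (X * W) = 18 * (X * W) * l := by ring
      rw [h6, h7] at h4
      have h8 := le_of_mul_le_mul_right h4 hl0
      rwa [div_le_iff₀ hT'0] at h8
    have h13 : c₀ / 2 * H ≤ W := num_ii c₀ T T' X Y H W hc₀ hT0 hT' hX hY0 hW0 hH2 h5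
    rw [div_le_iff₀ (by positivity)]
    calc c₀ / 2 * H ≤ W := h13
      _ = _ := by rw [hW]; ring

end Pool.Agent.H14.CO
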