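import Pool.Agent.H14.CO.Core2
import Pool.Agent.H14.CO.FinalB

/-!
# CO module Final: the theorem in terms of the variance `V(X;H)`
-/

set_option autoImplicit false

namespace Pool.Agent.H14.CO

open Set MeasureTheory Complex Pool.Agent.H95.GC

/-- (i) `∫_N^{N T^{1+κ}} V(X; X/T)/(X/T) dX/X ≥ c log T`; (ii) some `X` in the window and some
`H ∈ [X/T, 4X/T]` have `V(X; H/m) ≥ c H/m²` for all `m ≥ 1`. -/
theorem final (κ : ℝ) (hκ0 : 0 < κ) : ∃ c : ℝ, 0 < c ∧ ∀ A : ℝ, 0 < A →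
    ∃ T₀ : ℝ, 1 ≤ T₀ ∧ ∀ T : ℝ, T₀ ≤ T → ∀ N : ℝ, 1 ≤ N → N ≤ T ^ A →
      c * Real.log T ≤ ∫ X in N..(N * T ^ (1 + κ)), V X (X / T) / (X / T) / X ∧
      ∃ X H : ℝ, N ≤ X ∧ X ≤ N * T ^ (1 + κ) ∧ X / T ≤ H ∧ H ≤ 4 * (X / T) ∧
        ∀ m : ℕ, 1 ≤ m → c * H / (m : ℝ) ^ 2 ≤ V X (H / m) := by
  have hκ' : 0 < min κ 1 := lt_min hκ0 one_pos
  obtain ⟨c₀, hc₀, hcore⟩ := core2 (min κ 1) hκ' (min_le_right _ _)
  refine ⟨c₀ / 2, by positivity, ?_⟩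
  intro A hA
  obtain ⟨T₁, hT₁, h1⟩ := final_i κ (min κ 1) c₀ hκ' (min_le_left _ _) hc₀ hcore A hA
  obtain ⟨T₂, hT₂, h2⟩ := final_ii κ (min κ 1) c₀ hκ' (min_le_left _ _) (min_le_right _ _) hc₀
    hcore A hA
  refine ⟨max T₁ T₂, hT₁.trans (le_max_left _ _), ?_⟩
  intro T hT N hN1 hNA
  refine ⟨?_, h2 T ((le_max_right _ _).trans hT) N hN1 hNA⟩
  refine le_trans ?_ (h1 T ((le_max_left _ _).trans hT) N hN1 hNA)
  have hT1 : 1 ≤ T := hT₁.trans ((le_max_left _ _).trans hT)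
  have hlog : 0 ≤ Real.log T := Real.log_nonneg hT1
  have : c₀ / 2 ≤ 10 * c₀ := by linarith
  exact mul_le_mul_of_nonneg_right this hlog

end Pool.Agent.H14.CO
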