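import Pool.Agent.H95.GC.Blocks
import Pool.Agent.H95.GC.Ident

/-!
# CO: from windows `δ y` to the variance `V(X; X/T)` averaged over `X`
-/

set_option autoImplicit false

namespace Pool.Agent.H14.CO

open Set MeasureTheory Pool.Agent.H95.GC

theorem meas_M2 (f g : ℝ → ℝ) (hf : Measurable f) (hg : Measurable g) :
    Measurable fun x => (M (f x) (g x)) ^ 2 := by
  have h : (fun x => M (f x) (g x)) = Function.uncurry M ∘ fun x : ℝ => (f x, g x) := by
    funext x; rfl
  have h2 : Measurable fun x => M (f x) (g x) := by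
    rw [h]
    exact measurable_M.comp (hf.prodMk hg)
  exact h2.pow_const 2

theorem M2_le (x H : ℝ) (hH : 0 ≤ H) : (M x H) ^ 2 ≤ (H + 1) ^ 2 := by
  have := pow_le_pow_left₀ (abs_nonneg _) (abs_M_le x H hH) 2
  rwa [sq_abs] at this

/-- the function `x ↦ M(x; δx)² / x²` is integrable on compact subintervals of `(0,∞)` -/
theorem int_M2 (δ a b : ℝ) (hδ : 0 ≤ δ) (ha : 0 < a) :
    IntegrableOn (fun x : ℝ => (M x (δ * x)) ^ 2 / x ^ 2) (Icc a b) := by
  refine Measure.integrableOn_of_bounded (M := (δ * b + 1) ^ 2 / a ^ 2) (by simp) ?_ ?_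
  · exact ((meas_M2 _ _ measurable_id (measurable_id.const_mul δ)).div
      (measurable_id.pow_const 2)).aestronglyMeasurable
  · refine (ae_restrict_iff' measurableSet_Icc).2 (Filter.Eventually.of_forall fun x hx => ?_)
    have hx0 : 0 < x := lt_of_lt_of_le ha hx.1
    rw [Real.norm_eq_abs, abs_of_nonneg (by positivity)]
    have h1 := M2_le x (δ * x) (by positivity)
    have h2 : (δ * x + 1) ^ 2 ≤ (δ * b + 1) ^ 2 := by
      apply pow_le_pow_left₀ (by positivity)
      have := mul_le_mul_of_nonneg_left hx.2 hδ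
      linarith
    have h3 : a ^ 2 ≤ x ^ 2 := pow_le_pow_left₀ ha.le hx.1 2
    exact div_le_div₀ (by positivity) (h1.trans h2) (by positivity) h3

/-- exponential substitution -/
theorem exp_sub (δ a b : ℝ) (hab : a ≤ b) :
    ∫ u in a..b, (M (Real.exp u) (δ * Real.exp u)) ^ 2 * Real.exp (-u) =
      ∫ x in Real.exp a..Real.exp b, (M x (δ * x)) ^ 2 / x ^ 2 := by
  rw [intervalIntegral.integral_of_le hab, intervalIntegral.integral_of_le (Real.exp_le_exp.2 hab),
    ← integral_Icc_eq_integral_Ioc, ← integral_Icc_eq_integral_Ioc, ← blocks_image_exp,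
    integral_image_eq_integral_abs_deriv_smul measurableSet_Icc
      (fun x _ => (Real.hasDerivAt_exp x).hasDerivWithinAt) Real.exp_injective.injOn]
  apply integral_congr_ae
  refine Filter.Eventually.of_forall fun u => ?_
  simp only [smul_eq_mul, abs_of_pos (Real.exp_pos u)]
  rw [Real.exp_neg]
  have := (Real.exp_pos u).ne'
  field_simp

/-- one value of the scaling parameter -/
theorem one_scale (T N N' s : ℝ) (hT : 0 < T) (hN : 0 < N) (hNN : 2 * N ≤ N') (hs1 : 1 ≤ s)
    (hs2 : s ≤ 2) :
    ∫ x in (2 * N)..N', (M x (1 / (s * T) * x)) ^ 2 / x ^ 2 ≤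
      ∫ X in N..N', (M (X * s) (X / T)) ^ 2 / X ^ 2 := by
  have hs0 : 0 < s := by linarith
  set g : ℝ → ℝ := fun x => (M x (1 / (s * T) * x)) ^ 2 / x ^ 2 with hg
  have hδ : 0 ≤ 1 / (s * T) := by positivity
  have h1 : ∀ X : ℝ, (M (X * s) (X / T)) ^ 2 / X ^ 2 = s ^ 2 * g (X * s) := by
    intro X
    simp only [hg]
    have e1 : 1 / (s * T) * (X * s) = X / T := by field_simp
    rw [e1, mul_pow]
    rcases eq_or_ne X 0 with rfl | hX
    · simp
    · field_simp
  have h2 : ∫ X in N..N', (M (X * s) (X / T)) ^ 2 / X ^ 2 = s * ∫ x in (N * s)..(N' * s), g x := by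
    simp_rw [h1]
    rw [intervalIntegral.integral_const_mul, intervalIntegral.integral_comp_mul_right g hs0.ne',
      smul_eq_mul]
    field_simp
  have hNs : N * s ≤ 2 * N := by nlinarith
  have hNs' : N' ≤ N' * s := by nlinarith
  have h3 : ∫ x in (2 * N)..N', g x ≤ ∫ x in (N * s)..(N' * s), g x := by
    rw [intervalIntegral.integral_of_le hNN, intervalIntegral.integral_of_le (by linarith)]
    apply setIntegral_mono_set
    · exact (int_M2 _ _ _ hδ (by positivity)).mono_set Ioc_subset_Icc_self
    · exact Filter.Eventually.of_forall fun x => by simp only [hg]; positivity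
    · exact Filter.Eventually.of_forall (Ioc_subset_Ioc hNs hNs')
  have h4 : 0 ≤ ∫ x in (N * s)..(N' * s), g x :=
    intervalIntegral.integral_nonneg (by linarith) fun x _ => by simp only [hg]; positivity
  rw [h2]
  refine h3.trans ?_
  nlinarith

theorem var_window (T N N' B : ℝ) (hT : 0 < T) (hN : 0 < N) (hNN : 2 * N ≤ N')
    (h : ∀ δ : ℝ, 1 / (2 * T) ≤ δ → δ ≤ 1 / T →
      B ≤ ∫ u in (Real.log (2 * N))..(Real.log N'),
        (M (Real.exp u) (δ * Real.exp u)) ^ 2 * Real.exp (-u)) :
    T * B ≤ ∫ X in N..N', V X (X / T) / (X / T) / X := by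
  have hN'0 : 0 < N' := by linarith
  have hNN' : N ≤ N' := by linarith
  -- the integrand
  set f : ℝ → ℝ → ℝ := fun X s => (M (X * s) (X / T)) ^ 2 / X ^ 2 with hf
  have hfm : Measurable (Function.uncurry f) := by
    have h1 : Measurable fun p : ℝ × ℝ => ((p.1 * p.2, p.1 / T) : ℝ × ℝ) := by fun_prop
    have h2 : Measurable fun p : ℝ × ℝ => (M (p.1 * p.2) (p.1 / T)) ^ 2 := by
      have h3 : (fun p : ℝ × ℝ => (M (p.1 * p.2) (p.1 / T))) =
          Function.uncurry M ∘ fun p : ℝ × ℝ => (p.1 * p.2, p.1 / T) := by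
        funext p; rfl
      have h4 : Measurable fun p : ℝ × ℝ => (M (p.1 * p.2) (p.1 / T)) := by
        rw [h3]; exact measurable_M.comp h1
      exact h4.pow_const 2
    exact h2.div (measurable_fst.pow_const 2)
  have hV : ∀ X ∈ Ioc N N', V X (X / T) / (X / T) / X = T * ∫ s in Ioc (1 : ℝ) 2, f X s := by
    intro X hX
    have hX0 : 0 < X := lt_trans hN hX.1
    have h1 : ∫ x in X..2 * X, (M x (X / T)) ^ 2 = X * ∫ s in (1 : ℝ)..2, (M (X * s) (X / T)) ^ 2 := by
      have h2 := intervalIntegral.integral_comp_mul_left (a := 1) (b := 2)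
        (fun x => (M x (X / T)) ^ 2) hX0.ne'
      rw [h2, smul_eq_mul, mul_one, mul_comm X 2]
      field_simp
    unfold V
    rw [h1, ← intervalIntegral.integral_of_le (by norm_num : (1 : ℝ) ≤ 2)]
    simp only [hf]
    rw [intervalIntegral.integral_div]
    field_simp
  have hint : IntegrableOn (Function.uncurry f) (Ioc N N' ×ˢ Ioc (1 : ℝ) 2) := by
    refine Measure.integrableOn_of_bounded (M := (N' / T + 1) ^ 2 / N ^ 2) ?_ ?_ ?_
    · rw [Measure.volume_eq_prod, Measure.prod_prod]
      exact ENNReal.mul_ne_top (by simp) (by simp)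
    · exact hfm.aestronglyMeasurable
    · refine (ae_restrict_iff' (measurableSet_Ioc.prod measurableSet_Ioc)).2
        (Filter.Eventually.of_forall fun p hp => ?_)
      obtain ⟨⟨hp1, hp2⟩, -⟩ := hp
      have hp0 : 0 < p.1 := lt_trans hN hp1
      simp only [Function.uncurry, hf]
      rw [Real.norm_eq_abs, abs_of_nonneg (by positivity)]
      have h1 := M2_le (p.1 * p.2) (p.1 / T) (by positivity)
      have h2 : (p.1 / T + 1) ^ 2 ≤ (N' / T + 1) ^ 2 := by
        apply pow_le_pow_left₀ (by positivity)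
        have := div_le_div_of_nonneg_right hp2 hT.le
        linarith
      exact div_le_div₀ (by positivity) (h1.trans h2) (by positivity)
        (pow_le_pow_left₀ hN.le hp1.le 2)
  have hint' : Integrable (Function.uncurry f)
      ((volume.restrict (Ioc N N')).prod (volume.restrict (Ioc (1 : ℝ) 2))) := by
    rw [Measure.prod_restrict]; exact hint
  calc T * B ≤ T * ∫ s in Ioc (1 : ℝ) 2, ∫ X in Ioc N N', f X s := by
        apply mul_le_mul_of_nonneg_left _ hT.le
        have h1 : B = ∫ _ in Ioc (1 : ℝ) 2, B := by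
          rw [setIntegral_const, Measure.real, Real.volume_Ioc, ENNReal.toReal_ofReal (by norm_num),
            smul_eq_mul]
          ring
        rw [h1]
        apply setIntegral_mono_on (integrableOn_const (by simp)) hint'.integral_prod_right
          measurableSet_Ioc
        intro s hs
        have hs1 : 1 ≤ s := hs.1.le
        have hs2 : s ≤ 2 := hs.2
        have hs0 : 0 < s := by linarith
        have h2 := h (1 / (s * T))
          (one_div_le_one_div_of_le (by positivity) (mul_le_mul_of_nonneg_right hs2 hT.le))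
          (one_div_le_one_div_of_le hT (by nlinarith))
        rw [exp_sub _ _ _ (Real.log_le_log (by positivity) hNN), Real.exp_log (by positivity),
          Real.exp_log hN'0] at h2
        have h3 := one_scale T N N' s hT hN hNN hs1 hs2
        rw [intervalIntegral.integral_of_le hNN'] at h3
        exact h2.trans h3
    _ = T * ∫ X in Ioc N N', ∫ s in Ioc (1 : ℝ) 2, f X s := by
        rw [integral_integral_swap hint']
    _ = ∫ X in Ioc N N', T * ∫ s in Ioc (1 : ℝ) 2, f X s := by
        rw [integral_const_mul]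
    _ = ∫ X in Ioc N N', V X (X / T) / (X / T) / X :=
        (setIntegral_congr_fun measurableSet_Ioc hV).symm
    _ = _ := by rw [intervalIntegral.integral_of_le hNN']

end Pool.Agent.H14.CO
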