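import Pool.Agent.H14.CO.GoodE

/-!
# CO module Good: most points (for the measure `|M(1/2+it)|² dt`) have a zero within `G / log T`
-/

set_option autoImplicit false

namespace Pool.Agent.H14.CO

open Set MeasureTheory Complex

/-- the point on the circle -/
theorem circ_pt (t R φ : ℝ) : pt (R * Complex.exp (φ * I)) t =
    1 / 2 + t * I + R * Complex.exp (φ * I) := by
  unfold pt; ring

theorem circ_ne_one (t R φ : ℝ) (hR0 : 0 < R) (hR1 : R ≤ 1 / 100) :
    (1 / 2 + t * I + R * Complex.exp (φ * I) : ℂ) ≠ 1 := by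
  intro h
  have h1 := congrArg Complex.re h
  have h2 : ((R : ℂ) * Complex.exp (φ * I)).re = R * Real.cos φ := by
    rw [Complex.re_ofReal_mul, Complex.exp_ofReal_mul_I_re]
  rw [Complex.add_re, h2, Complex.one_re] at h1
  simp at h1
  have h3 := Real.cos_le_one φ
  nlinarith

theorem continuous_zcirc (R : ℝ) (hR0 : 0 < R) (hR1 : R ≤ 1 / 100) :
    Continuous (fun p : ℝ × ℝ => riemannZeta (1 / 2 + p.1 * I + R * Complex.exp (p.2 * I))) := by
  rw [continuous_iff_continuousAt]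
  intro p
  have h1 : Continuous fun p : ℝ × ℝ => (1 / 2 + p.1 * I + R * Complex.exp (p.2 * I) : ℂ) := by
    fun_prop
  exact (differentiableAt_riemannZeta (circ_ne_one p.1 R p.2 hR0 hR1)).continuousAt.comp
    (f := fun p : ℝ × ℝ => (1 / 2 + p.1 * I + R * Complex.exp (p.2 * I) : ℂ)) h1.continuousAt

theorem continuous_Mcirc (z₀ R : ℝ) :
    Continuous (fun p : ℝ × ℝ => Mo z₀ (1 / 2 + p.1 * I + R * Complex.exp (p.2 * I))) := by
  have h1 : Continuous fun p : ℝ × ℝ => (1 / 2 + p.1 * I + R * Complex.exp (p.2 * I) : ℂ) := by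
    fun_prop
  exact (continuous_Mo z₀).comp h1

theorem good_set (θ : ℝ) (hθ0 : 0 < θ) (hθ1 : θ ≤ 1 / 40) : ∃ G c : ℝ, 1 ≤ G ∧ 0 < c ∧
    ∃ T₀ : ℝ, Real.exp 3200 ≤ T₀ ∧ ∀ T : ℝ, T₀ ≤ T → ∀ τ : ℝ, T ≤ τ → τ ≤ 2 * T →
    ∃ Gd : Set ℝ, MeasurableSet Gd ∧ Gd ⊆ Icc (τ - T ^ (9 / 10 : ℝ)) (τ + T ^ (9 / 10 : ℝ)) ∧
      c * T ^ (9 / 10 : ℝ) * Real.log T ≤ ∫ t in Gd, ‖Mo (T ^ θ) (pt 0 t)‖ ^ 2 ∧
      ∀ t ∈ Gd, ∃ ρ : ℂ, riemannZeta ρ = 0 ∧ 1 / 2 ≤ ρ.re ∧ ‖ρ - pt 0 t‖ ≤ G / Real.log T := by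
  obtain ⟨c₄, hc₄, T₁, hT₁, hlow⟩ := mo_lower θ hθ0 hθ1
  obtain ⟨Cq, hCq, hQm⟩ := Q_mass θ hθ0 hθ1
  obtain ⟨CU, hCU, hU⟩ := U θ hθ0 hθ1
  obtain ⟨k, hk⟩ : ∃ k : ℕ, k = 301 := ⟨_, rfl⟩
  rw [← hk] at hU
  obtain ⟨T₂, hT₂e, hUT⟩ := hU 1 le_rfl
  obtain ⟨CM, hCM, T₃, hT₃, hMu⟩ := mo_upper_right θ hθ0 hθ1
  obtain ⟨Cc, cc, b₀, hCc, hcc, hb₀, hclose⟩ := closeness θ hθ0 hθ1
  obtain ⟨CS, hCS, hsup⟩ := sup_bound
  obtain ⟨Cχ, hCχ, hchi⟩ := chi_bound
  -- constants
  set cχ : ℝ := min 1 (1 / Cχ) with hcχ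
  have hcχ0 : 0 < cχ := lt_min one_pos (by positivity)
  have hcχ1 : cχ ≤ 1 := min_le_left _ _
  have hcχC : cχ * Cχ ≤ 1 := by
    calc cχ * Cχ ≤ (1 / Cχ) * Cχ := mul_le_mul_of_nonneg_right (min_le_right _ _) hCχ.le
      _ = 1 := by field_simp
  set C₂ : ℝ := (|Real.log (8 * CS * Cq / c₄)| + Cq) / 2 with hC₂
  have hC₂0 : 0 < C₂ := by rw [hC₂]; positivity
  set κ₀ : ℝ := 1 / (16 * (C₂ + 1)) with hκ₀
  have hκ₀0 : 0 < κ₀ := by rw [hκ₀]; positivity
  have hκ₀1 : κ₀ ≤ 1 / 16 := by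
    rw [hκ₀]
    apply one_div_le_one_div_of_le (by norm_num)
    linarith only [hC₂0]
  set C₀ : ℝ := CU * Real.exp (CU * 1) * 3 ^ k with hC₀
  have hC₀0 : 0 < C₀ := by rw [hC₀]; positivity
  set A₂ : ℝ := 8 * (Real.exp 1 * C₀) / c₄ with hA₂
  have hA₂0 : 0 < A₂ := by rw [hA₂]; positivity
  set A₃ : ℝ := 8 * (Real.pi * (Real.exp 1 * CM)) / c₄ with hA₃
  have hA₃0 : 0 < A₃ := by rw [hA₃]; positivity
  set A : ℝ := max 1 (Real.sqrt (8 * A₃ / κ₀)) with hA
  have hA1 : 1 ≤ A := le_max_left _ _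
  have hA0 : 0 < A := by linarith only [hA1]
  have hAκ : A₃ / A ^ 2 ≤ κ₀ / 8 := by
    have h1 : 8 * A₃ / κ₀ ≤ A ^ 2 := by
      have h2 : Real.sqrt (8 * A₃ / κ₀) ≤ A := le_max_right _ _
      calc 8 * A₃ / κ₀ = Real.sqrt (8 * A₃ / κ₀) ^ 2 := (Real.sq_sqrt (by positivity)).symm
        _ ≤ A ^ 2 := pow_le_pow_left₀ (Real.sqrt_nonneg _) h2 2
    rw [div_le_iff₀ hκ₀0] at h1
    rw [div_le_iff₀ (by positivity)]
    linarith only [h1]
  set κ₃ : ℝ := κ₀ / 32 with hκ₃
  have hκ₃0 : 0 < κ₃ := by rw [hκ₃]; positivity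
  set X₀ : ℝ := Real.log (Real.sqrt A₂) + 1 / 2 * Real.log (1 / cχ) + 4 * Real.log (2 * A) with hX₀
  obtain ⟨G, hG1, hg1, hg2, hg3, hg4⟩ := choose_G b₀ cc (κ₃ * c₄ / (8 * (Real.pi * Cc))) (κ₀ / 8) X₀
    hcc (by positivity) (by positivity)
  set b := Real.sqrt G with hb
  have hb1 : 1 < b := by
    rw [hb]; exact Real.lt_sqrt_of_sq_lt (by linarith only [hG1])
  have hbG : b / G = 1 / b := by
    have : b * b = G := Real.mul_self_sqrt (by linarith only [hG1])
    rw [← this]; field_simp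
  set φ₀ := Real.arccos (1 / b) with hφ₀
  have hφ0 : 0 ≤ φ₀ := Real.arccos_nonneg _
  have hφ1 : φ₀ ≤ Real.pi / 2 := Real.arccos_le_pi_div_two.2 (by positivity)
  have hcosφ : Real.cos φ₀ = 1 / b := Real.cos_arccos
    (by have : 0 < 1 / b := by positivity
        linarith only [this]) ((div_le_one (by linarith only [hb₀, hg1])).2 hb1.le)
  obtain ⟨T₄, hT₄e, hQT⟩ := hQm G hG1.le
  obtain ⟨T₅, hT₅e, hCT⟩ := hclose b hg1
  refine ⟨6 * G, c₄ / 2, by linarith only [hG1], by positivity,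
    max (max (max T₁ T₂) (max T₃ T₄)) (max T₅ (Real.exp (600 * G))), ?_, ?_⟩
  · exact le_max_of_le_left (le_max_of_le_left (le_max_of_le_right hT₂e))
  intro T hT τ hτ1 hτ2
  have h12 := (le_max_left _ _).trans hT
  have h56 := (le_max_right _ _).trans hT
  have hTa : T₁ ≤ T := (le_max_left _ _).trans ((le_max_left _ _).trans h12)
  have hTb : T₂ ≤ T := (le_max_right _ _).trans ((le_max_left _ _).trans h12)
  have hTc : T₃ ≤ T := (le_max_left _ _).trans ((le_max_right _ _).trans h12)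
  have hTd : T₄ ≤ T := (le_max_right _ _).trans ((le_max_right _ _).trans h12)
  have hTe : T₅ ≤ T := (le_max_left _ _).trans h56
  have hTf : Real.exp (600 * G) ≤ T := (le_max_right _ _).trans h56
  have hT0 : 0 < T := (Real.exp_pos _).trans_le hTf
  set L := Real.log T with hL
  have hLG : 600 * G ≤ L := by rw [hL, Real.le_log_iff_exp_le hT0]; exact hTf
  have hL0 : 0 < L := by linarith only [hG1, hLG]
  have hexpL : Real.exp L = T := Real.exp_log hT0
  have hT1000 : 600 ≤ T := by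
    have := Real.add_one_le_exp L
    rw [hexpL] at this
    linarith only [hG1, hLG, this]
  set W := T ^ (9 / 10 : ℝ) with hW
  have hW0 : 0 < W := Real.rpow_pos_of_pos hT0 _
  have hW4 : W ≤ T / 4 := W_le T hT0 (by rw [← hL]; linarith only [hG1, hLG])
  have hWL : 0 < W * L := by positivity
  set R := G / L with hR
  have hR0 : 0 < R := by positivity
  have hR1 : R ≤ 1 / 600 := by
    rw [hR, div_le_iff₀ hL0]; linarith only [hLG]
  have hR100 : R ≤ 1 / 100 := by linarith only [hR1]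
  have hLR : L * R = G := by rw [hR]; field_simp
  set z₀ := T ^ θ with hz₀
  set g := gM z₀ with hg
  have hgc : Continuous g := continuous_gM z₀
  have hg0 : ∀ t, 0 ≤ g t := gM_nonneg z₀
  set I₀ := Icc (τ - W) (τ + W) with hI₀
  have hgI : IntegrableOn g I₀ := hgc.continuousOn.integrableOn_Icc
  -- total mass
  have hmass : c₄ * W * L ≤ ∫ t in I₀, g t := by
    have := hlow T hTa τ W le_rfl
    rw [intervalIntegral.integral_of_le (by linarith only [hW0]), ← integral_Icc_eq_integral_Ioc] at this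
    exact this
  -- f1
  obtain ⟨q1, q2, q3, q4⟩ := hQT T hTd τ W le_rfl (by linarith only [hT1000, hW4]) hτ1 hτ2
  set A₁ : ℝ := 8 * (Cq * Real.exp (Cq * G)) / c₄ with hA₁
  have hA₁0 : 0 < A₁ := by rw [hA₁]; positivity
  set B₁ : Set ℝ := {t | A₁ < Qf R t * g t} with hB₁
  have hB₁m : MeasurableSet B₁ := measurableSet_lt measurable_const (q1.mul hgc.measurable)
  have hm1 : ∫ t in I₀ ∩ B₁, g t ≤ c₄ * W * L / 8 := by
    have := markov_mass (fun t => Qf R t * g t) g (τ - W) (τ + W) A₁ _ (q1.mul hgc.measurable)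
      (fun t => mul_nonneg (q2 t) (hg0 t)) hgc hg0 hA₁0 q3 q4
    refine this.trans (le_of_eq ?_)
    rw [hA₁]
    have e1 : Cq * Real.exp (Cq * G) ≠ 0 := by positivity
    field_simp
    try ring
  -- f2
  have hc2 : Continuous fun t : ℝ => ‖riemannZeta (pt (0 : ℝ) t)‖ ^ 2 :=
    ((continuous_zeta_line 0 (by norm_num)).norm).pow 2
  set f₂ : ℝ → ℝ := fun t => ‖riemannZeta (pt (0 : ℝ) t)‖ ^ 2 * g t with hf₂
  have hf₂c : Continuous f₂ := hc2.mul hgc
  set B₂ : Set ℝ := {t | A₂ < f₂ t} with hB₂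
  have hB₂m : MeasurableSet B₂ := measurableSet_lt measurable_const hf₂c.measurable
  have hm2 : ∫ t in I₀ ∩ B₂, g t ≤ c₄ * W * L / 8 := by
    have h0K : |(0 : ℂ).re| ≤ 1 / L := by rw [Complex.zero_re, abs_zero]; positivity
    obtain ⟨u1, u2⟩ := hUT T hTb τ W le_rfl (by linarith only [hT1000, hW4]) 0 0 0 h0K h0K h0K
    have e1 : ∀ t, ‖riemannZeta (pt 0 t) * (Mo z₀ (pt 0 t) * Mo z₀ (pt 0 t))‖ ^ 2 * gw τ W t =
        (f₂ t * g t) * gw τ W t := by
      intro t
      simp only [hf₂, hg, gM]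
      have : pt ((0 : ℝ) : ℂ) t = pt 0 t := by rw [Complex.ofReal_zero]
      rw [this, norm_mul, norm_mul]
      ring
    rw [funext e1] at u1 u2
    have u3 : ∫ t, (f₂ t * g t) * gw τ W t ≤ C₀ * (W * L) := by
      refine u2.trans ?_
      have v1 : 1 + |τ + (0 : ℂ).im| / T ≤ 3 := by
        rw [Complex.zero_im, add_zero, abs_of_nonneg (by linarith only [hτ1, hT1000])]
        have : τ / T ≤ 2 := by rw [div_le_iff₀ hT0]; linarith only [hτ2]
        linarith only [this]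
      have v0 : 0 ≤ 1 + |τ + (0 : ℂ).im| / T := by positivity
      have v2 := pow_le_pow_left₀ v0 v1 k
      rw [sub_zero, norm_zero, mul_zero, add_zero, one_pow, one_mul, mul_one]
      calc CU * Real.exp (CU * 1) * W * L * (1 + |τ + (0 : ℂ).im| / T) ^ k
          ≤ CU * Real.exp (CU * 1) * W * L * 3 ^ k :=
            mul_le_mul_of_nonneg_left v2 (by positivity)
        _ = C₀ * (W * L) := by rw [hC₀]; ring
    obtain ⟨w1, w2⟩ := interval_of_gauss (fun t => f₂ t * g t)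
      (fun t => mul_nonneg (mul_nonneg (by positivity) (hg0 t)) (hg0 t)) τ W _ hW0
      (hf₂c.mul hgc).aestronglyMeasurable u1 u3
    have := markov_mass f₂ g (τ - W) (τ + W) A₂ _ hf₂c.measurable
      (fun t => mul_nonneg (by positivity) (hg0 t)) hgc hg0 hA₂0 w1 w2
    refine this.trans (le_of_eq ?_)
    rw [hA₂]; field_simp
  -- f3
  set F₃ : ℝ → ℝ → ℝ := fun t φ => ‖riemannZeta (1 / 2 + t * I + R * Complex.exp (φ * I)) *
      Mo z₀ (1 / 2 + t * I + R * Complex.exp (φ * I)) - 1‖ ^ 2 with hF₃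
  have hF₃c : Continuous (Function.uncurry F₃) := by
    have h1 := continuous_zcirc R hR0 hR100
    have h2 := continuous_Mcirc z₀ R
    have h3 : Continuous fun p : ℝ × ℝ =>
        ‖riemannZeta (1 / 2 + p.1 * I + R * Complex.exp (p.2 * I)) *
        Mo z₀ (1 / 2 + p.1 * I + R * Complex.exp (p.2 * I)) - 1‖ ^ 2 :=
      (((h1.mul h2).sub continuous_const).norm).pow 2
    exact h3
  set f₃ : ℝ → ℝ := fun t => ∫ φ in (-φ₀)..φ₀, F₃ t φ with hf₃
  have hf₃c : Continuous f₃ := continuous_pint F₃ hF₃c _ _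
  set B₃ : Set ℝ := {t | κ₃ < f₃ t} with hB₃
  have hB₃m : MeasurableSet B₃ := measurableSet_lt measurable_const hf₃c.measurable
  have hcosge : ∀ φ ∈ Icc (-φ₀) φ₀, 1 / b ≤ Real.cos φ := by
    intro φ hφ
    have h1 : |φ| ≤ φ₀ := abs_le.2 hφ
    rw [← hcosφ, ← Real.cos_abs φ]
    exact Real.cos_le_cos_of_nonneg_of_le_pi (abs_nonneg _) (by linarith only [hφ0, hφ1]) h1
  have hwre : ∀ φ : ℝ, ((R : ℂ) * Complex.exp (φ * I)).re = R * Real.cos φ := by
    intro φ; rw [Complex.re_ofReal_mul, Complex.exp_ofReal_mul_I_re]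
  have hwim : ∀ φ : ℝ, ((R : ℂ) * Complex.exp (φ * I)).im = R * Real.sin φ := by
    intro φ; rw [Complex.im_ofReal_mul, Complex.exp_ofReal_mul_I_im]
  have hwn : ∀ φ : ℝ, ‖(R : ℂ) * Complex.exp (φ * I)‖ = R := by
    intro φ
    rw [norm_mul, Complex.norm_real, Real.norm_eq_abs, abs_of_pos hR0, Complex.norm_exp_ofReal_mul_I,
      mul_one]
  have hf₃0 : ∀ t, 0 ≤ f₃ t := fun t =>
    intervalIntegral.integral_nonneg (by linarith only [hφ0]) fun φ _ => by
      simp only [hF₃]; positivity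
  have hm3 : ∫ t in I₀ ∩ B₃, g t ≤ c₄ * W * L / 8 := by
    set M₃ := Cc * (1 + G) ^ 8 * Real.exp (-cc * b) * W * L with hM₃
    have hM₃0 : 0 ≤ M₃ := by rw [hM₃]; positivity
    have h1 : ∫ t in Icc (τ - W) (τ + W), (∫ φ in (-φ₀)..φ₀, F₃ t φ * g t) ≤ 2 * φ₀ * M₃ := by
      apply fub (fun t φ => F₃ t φ * g t)
      · have : Continuous fun p : ℝ × ℝ => F₃ p.1 p.2 * g p.1 :=
          hF₃c.mul (hgc.comp continuous_fst)
        exact this
      · exact hφ0
      · intro φ hφ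
        have e1 := hCT T hTe τ W le_rfl hW4 (by linarith only [hτ1, hT1000]) (by linarith only [hτ2, hT1000])
          (R * Complex.exp (φ * I)) (by
            rw [hwre, ← hL]
            calc b / L = R * (b / G) := by rw [hR]; field_simp
              _ = R * (1 / b) := by rw [hbG]
              _ ≤ R * Real.cos φ := mul_le_mul_of_nonneg_left (hcosge φ hφ) hR0.le)
          (by
            rw [hwre]
            calc R * Real.cos φ ≤ R * 1 := mul_le_mul_of_nonneg_left (Real.cos_le_one φ) hR0.le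
              _ ≤ 1 / 8 := by linarith only [hR1])
          (by
            rw [hwim, abs_mul, abs_of_pos hR0]
            calc R * |Real.sin φ| ≤ R * 1 := mul_le_mul_of_nonneg_left (Real.abs_sin_le_one φ) hR0.le
              _ ≤ 1 := by linarith only [hR1])
        rw [intervalIntegral.integral_of_le (by linarith only [hW0]), ← integral_Icc_eq_integral_Ioc,
          hwn, ← hL, hLR] at e1
        refine le_trans (le_of_eq ?_) e1
        apply integral_congr_ae
        refine Filter.Eventually.of_forall fun t => ?_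
        simp only [hF₃, hg, gM]
        rw [circ_pt, norm_mul, mul_pow]
    have h2 : ∫ t in Icc (τ - W) (τ + W), f₃ t * g t ≤ Real.pi * M₃ := by
      have e2 : ∀ t, (∫ φ in (-φ₀)..φ₀, F₃ t φ * g t) = f₃ t * g t := by
        intro t
        rw [intervalIntegral.integral_mul_const]
      simp_rw [e2] at h1
      refine h1.trans ?_
      apply mul_le_mul_of_nonneg_right _ hM₃0
      linarith only [hφ1]
    have := markov_mass f₃ g (τ - W) (τ + W) κ₃ _ hf₃c.measurable hf₃0 hgc hg0 hκ₃0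
      (hf₃c.mul hgc).continuousOn.integrableOn_Icc h2
    refine this.trans ?_
    rw [div_le_iff₀ hκ₃0]
    have e3 : Real.pi * M₃ = (Real.pi * Cc) * ((1 + G) ^ 8 * Real.exp (-cc * b)) * (W * L) := by
      rw [hM₃]; ring
    rw [e3]
    calc (Real.pi * Cc) * ((1 + G) ^ 8 * Real.exp (-cc * b)) * (W * L)
        ≤ (Real.pi * Cc) * (κ₃ * c₄ / (8 * (Real.pi * Cc))) * (W * L) := by
          have : 0 < Real.pi * Cc := by positivity
          gcongr
      _ = c₄ * W * L / 8 * κ₃ := by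
          have : Real.pi * Cc ≠ 0 := by positivity
          field_simp
  -- f4
  set F₄ : ℝ → ℝ → ℝ := fun t φ => ‖Mo z₀ (1 / 2 + t * I + R * Complex.exp (φ * I))‖ ^ 2 with hF₄
  have hF₄c : Continuous (Function.uncurry F₄) := by
    have h2 := continuous_Mcirc z₀ R
    have h3 : Continuous fun p : ℝ × ℝ =>
        ‖Mo z₀ (1 / 2 + p.1 * I + R * Complex.exp (p.2 * I))‖ ^ 2 := (h2.norm).pow 2
    exact h3
  set f₄ : ℝ → ℝ := fun t => ∫ φ in (-φ₀)..φ₀, F₄ t φ with hf₄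
  have hf₄c : Continuous f₄ := continuous_pint F₄ hF₄c _ _
  set B₄ : Set ℝ := {t | A₃ * g t < f₄ t} with hB₄
  have hB₄m : MeasurableSet B₄ :=
    measurableSet_lt (hgc.measurable.const_mul A₃) hf₄c.measurable
  have hm4 : ∫ t in I₀ ∩ B₄, g t ≤ c₄ * W * L / 8 := by
    set M₄ := Real.exp 1 * (CM * W * L) with hM₄
    have hM₄0 : 0 ≤ M₄ := by rw [hM₄]; positivity
    have h1 : ∫ t in Icc (τ - W) (τ + W), f₄ t ≤ 2 * φ₀ * M₄ := by
      apply fub F₄ hF₄c _ _ _ _ hφ0
      intro φ hφ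
      obtain ⟨m1, m2⟩ := hMu T hTc τ W le_rfl (R * Complex.exp (φ * I)) (by
        rw [hwre]
        have := hcosge φ hφ
        have h3 : 0 < 1 / b := by positivity
        have : 0 ≤ Real.cos φ := by linarith only [this, h3]
        positivity)
      have hMc : Continuous fun t : ℝ => ‖Mo z₀ (pt (R * Complex.exp (φ * I)) t)‖ ^ 2 := by
        have h1 : Continuous fun t : ℝ => pt (R * Complex.exp (φ * I)) t := by unfold pt; fun_prop
        exact (((continuous_Mo z₀).comp h1).norm).pow 2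
      obtain ⟨n1, n2⟩ := interval_of_gauss
        (fun t => ‖Mo z₀ (pt (R * Complex.exp (φ * I)) t)‖ ^ 2)
        (fun t => by positivity) τ W _ hW0 hMc.aestronglyMeasurable m1 m2
      refine le_trans (le_of_eq ?_) n2
      apply integral_congr_ae
      refine Filter.Eventually.of_forall fun t => ?_
      simp only [hF₄]
      rw [circ_pt]
    have h2 : (∫ t in I₀ ∩ B₄, g t) * A₃ ≤ 2 * φ₀ * M₄ := by
      calc (∫ t in I₀ ∩ B₄, g t) * A₃ = ∫ t in I₀ ∩ B₄, A₃ * g t := by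
            rw [integral_const_mul]; ring
        _ ≤ ∫ t in I₀ ∩ B₄, f₄ t := by
            apply setIntegral_mono_on ((hgI.mono_set inter_subset_left).const_mul A₃)
              ((hf₄c.continuousOn.integrableOn_Icc (μ := volume)).mono_set inter_subset_left)
              (measurableSet_Icc.inter hB₄m)
            intro t ht
            exact ht.2.le
        _ ≤ ∫ t in I₀, f₄ t := by
            apply setIntegral_mono_set (hf₄c.continuousOn.integrableOn_Icc)
            · refine Filter.Eventually.of_forall fun t => ?_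
              exact intervalIntegral.integral_nonneg (by linarith only [hφ0]) fun φ _ => by
                simp only [hF₄]; positivity
            · exact Filter.Eventually.of_forall fun t ht => ht.1
        _ ≤ _ := h1
    have h3 : 2 * φ₀ * M₄ ≤ Real.pi * M₄ := mul_le_mul_of_nonneg_right (by linarith only [hφ1]) hM₄0
    have h4 : Real.pi * M₄ = c₄ * W * L / 8 * A₃ := by
      rw [hM₄, hA₃]; field_simp
    have h5 : (∫ t in I₀ ∩ B₄, g t) * A₃ ≤ c₄ * W * L / 8 * A₃ := by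
      rw [← h4]; exact h2.trans h3
    exact le_of_mul_le_mul_right h5 hA₃0
  -- the zero set of g
  set B₅ : Set ℝ := {t | g t = 0} with hB₅
  have hB₅m : MeasurableSet B₅ := hgc.measurable (measurableSet_singleton 0)
  have hm5 : ∫ t in I₀ ∩ B₅, g t = 0 := by
    rw [setIntegral_eq_zero_of_forall_eq_zero]
    intro t ht
    exact ht.2
  -- the good set
  set Bd := (I₀ ∩ B₁) ∪ ((I₀ ∩ B₂) ∪ ((I₀ ∩ B₃) ∪ ((I₀ ∩ B₄) ∪ (I₀ ∩ B₅)))) with hBd
  have hII : ∀ B : Set ℝ, IntegrableOn g (I₀ ∩ B) := fun B => hgI.mono_set inter_subset_left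
  have hBdmass : ∫ t in Bd, g t ≤ c₄ * W * L / 2 := by
    have i5 := union_le g hg0 (I₀ ∩ B₄) (I₀ ∩ B₅) (hII _) (hII _)
    have j5 := (hII B₄).union (hII B₅)
    have i4 := union_le g hg0 (I₀ ∩ B₃) _ (hII _) j5
    have j4 := (hII B₃).union j5
    have i3 := union_le g hg0 (I₀ ∩ B₂) _ (hII _) j4
    have j3 := (hII B₂).union j4
    have i2 := union_le g hg0 (I₀ ∩ B₁) _ (hII _) j3
    rw [hBd]
    linarith only [hm1, hm2, hm3, hm4, hm5, i5, i4, i3, i2]
  have hBdm : MeasurableSet Bd :=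
    (measurableSet_Icc.inter hB₁m).union ((measurableSet_Icc.inter hB₂m).union
      ((measurableSet_Icc.inter hB₃m).union ((measurableSet_Icc.inter hB₄m).union
        (measurableSet_Icc.inter hB₅m))))
  have hBdsub : Bd ⊆ I₀ := by
    rw [hBd]
    exact union_subset inter_subset_left (union_subset inter_subset_left
      (union_subset inter_subset_left (union_subset inter_subset_left inter_subset_left)))
  refine ⟨I₀ \ Bd, measurableSet_Icc.diff hBdm, diff_subset, ?_, ?_⟩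
  · have h1 : ∫ t in I₀ \ Bd, g t = (∫ t in I₀, g t) - ∫ t in Bd, g t :=
      setIntegral_diff hBdm hgI hBdsub
    have h2 : ∫ t in I₀ \ Bd, ‖Mo z₀ (pt 0 t)‖ ^ 2 = ∫ t in I₀ \ Bd, g t := rfl
    rw [h2, h1]
    linarith only [hmass, hBdmass]
  · intro t ht
    have htI : t ∈ I₀ := ht.1
    have hnot : t ∉ Bd := ht.2
    simp only [hBd, mem_union, mem_inter_iff, not_or, not_and] at hnot
    obtain ⟨n1, n2, n3, n4, n5⟩ := hnot
    replace n1 := n1 htI
    replace n2 := n2 htI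
    replace n3 := n3 htI
    replace n4 := n4 htI
    replace n5 := n5 htI
    simp only [hB₁, mem_setOf_eq, not_lt] at n1
    simp only [hB₂, mem_setOf_eq, not_lt] at n2
    simp only [hB₃, mem_setOf_eq, not_lt] at n3
    simp only [hB₄, mem_setOf_eq, not_lt] at n4
    simp only [hB₅, mem_setOf_eq] at n5
    have ht1 : T / 2 ≤ t := by
      have h1 : τ - W ≤ t := htI.1
      linarith only [h1, hW4, hτ1, hT0]
    set m := ‖Mo z₀ (pt 0 t)‖ with hm
    have hgm : g t = m ^ 2 := rfl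
    have hm0 : 0 < m := by
      have h1 : 0 ≤ m := norm_nonneg _
      rcases h1.lt_or_eq with h | h
      · exact h
      · exfalso; apply n5; rw [hgm, ← h]; ring
    rw [hgm] at n1 n4
    have n2' : ‖riemannZeta (pt 0 t)‖ ^ 2 * m ^ 2 ≤ A₂ := by
      have h1 : f₂ t = ‖riemannZeta (pt 0 t)‖ ^ 2 * m ^ 2 := by
        simp only [hf₂]
        rw [hgm, Complex.ofReal_zero]
      rw [← h1]; exact n2
    exact good_point CS Cq Cχ c₄ C₂ κ₀ A₁ A₂ A₃ A κ₃ φ₀ cχ X₀ G L R T t m z₀ hCS hCq hc₄ hsup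
      hchi hcχ0 hcχ1 hcχC hC₂ hκ₀ hA₁ hA₂0 hA₃0 hA1 hAκ hκ₃ hX₀ hG1 hφ0 hφ1 hg3 hg4 hT0 hL hLG
      hR ht1 hm hm0 n1 n2' n3 n4

end Pool.Agent.H14.CO
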