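import Pool.Agent.H14.CO.U
import Pool.Agent.H14.CO.MoB

/-!
# CO: supremum of `ζ` on a small disc by mean squares on two vertical lines
-/

set_option autoImplicit false

namespace Pool.Agent.H14.CO

open Set MeasureTheory Complex

/-- weight -/
noncomputable def qk (R y : ℝ) : ℝ := 1 / R * ((1 + |y| / R) ^ 32)⁻¹ * Real.exp (-(y ^ 2) / 2)

/-- mean square on the two lines -/
noncomputable def Qf (R t : ℝ) : ℝ :=
  ∫ y : ℝ, qk R y * (‖riemannZeta (pt (-(8 * R) : ℝ) (t + y))‖ ^ 2 +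
    ‖riemannZeta (pt (8 * R : ℝ) (t + y))‖ ^ 2)

theorem qk_nonneg (R y : ℝ) (hR : 0 < R) : 0 ≤ qk R y := by
  unfold qk; positivity

theorem continuous_qk (R : ℝ) (hR : 0 < R) : Continuous (qk R) := by
  unfold qk
  have : ∀ y : ℝ, (1 + |y| / R) ^ 32 ≠ 0 := fun y => by positivity
  fun_prop (disch := assumption)

/-- the kernel is bounded by the weight -/
theorem kern_le (R v y σ : ℝ) (hR : 0 < R) (hR1 : R ≤ 1 / 100) (hv : |v| ≤ 6 * R)
    (hσ1 : 2 * R ≤ |σ|) (hσ2 : |σ| ≤ 14 * R) :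
    ‖kn (1 / R) (σ + y * I) / (σ + y * I)‖ ≤
      (2 ^ 32 * Real.exp (32 * 14 + 2) * 7 ^ 32) * qk R (v + y) := by
  have hσ0 : 0 < |σ| := by linarith [mul_pos (two_pos : (0 : ℝ) < 2) hR]
  have hk := norm_kn_le (1 / R) (by positivity) (σ + y * I)
  have hre : ((σ : ℂ) + y * I).re = σ := by simp
  have him : ((σ : ℂ) + y * I).im = y := by simp
  rw [hre, him] at hk
  have hny : |y| ≤ ‖(σ : ℂ) + y * I‖ := by
    have := Complex.abs_im_le_norm ((σ : ℂ) + y * I)
    rwa [him] at this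
  have hnσ : |σ| ≤ ‖(σ : ℂ) + y * I‖ := by
    have := Complex.abs_re_le_norm ((σ : ℂ) + y * I)
    rwa [hre] at this
  -- lower bound of the weight factor
  have h1 : (1 + |y| / R) ^ 32 ≤ (1 + 1 / R * ‖(σ : ℂ) + y * I‖) ^ 32 := by
    apply pow_le_pow_left₀ (by positivity)
    have : |y| / R = 1 / R * |y| := by ring
    rw [this]
    gcongr
  have h2 : ‖kn (1 / R) (σ + y * I)‖ ≤ 2 ^ 32 * Real.exp (32 * (1 / R) * |σ| + σ ^ 2 - y ^ 2) *
      ((1 + |y| / R) ^ 32)⁻¹ := by
    rw [← div_eq_mul_inv, le_div_iff₀ (by positivity)]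
    exact (mul_le_mul_of_nonneg_left h1 (norm_nonneg _)).trans hk
  have h3 : Real.exp (32 * (1 / R) * |σ| + σ ^ 2 - y ^ 2) ≤
      Real.exp (32 * 14 + 2) * Real.exp (-((v + y) ^ 2) / 2) := by
    rw [← Real.exp_add]
    apply Real.exp_le_exp.2
    have e1 : 32 * (1 / R) * |σ| ≤ 32 * 14 := by
      have e10 : 1 / R * |σ| ≤ 14 := by
        rw [one_div, inv_mul_le_iff₀ hR]; linarith
      have e11 : 32 * (1 / R) * |σ| = 32 * (1 / R * |σ|) := by ring
      rw [e11]
      exact mul_le_mul_of_nonneg_left e10 (by norm_num)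
    have e2 : σ ^ 2 ≤ 1 := by
      rw [← sq_abs]
      have : |σ| ≤ 1 := by linarith
      exact pow_le_one₀ (abs_nonneg σ) this
    have e3 : v ^ 2 ≤ 1 := by
      rw [← sq_abs]
      have : |v| ≤ 1 := by linarith
      exact pow_le_one₀ (abs_nonneg v) this
    have e0 : (v + y) ^ 2 = 2 * v ^ 2 + 2 * y ^ 2 - (v - y) ^ 2 := by ring
    rw [e0]
    have e4 := sq_nonneg (v - y)
    linarith only [e1, e2, e3, e4]
  have h4 : ((1 + |y| / R) ^ 32)⁻¹ ≤ 7 ^ 32 * ((1 + |v + y| / R) ^ 32)⁻¹ := by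
    rw [← div_eq_mul_inv, le_div_iff₀ (by positivity), inv_mul_le_iff₀ (by positivity), ← mul_pow]
    apply pow_le_pow_left₀ (by positivity)
    have e4 : |v + y| ≤ 6 * R + |y| := (abs_add_le v y).trans (by linarith)
    have e5 : |v + y| / R ≤ 6 + |y| / R := by
      rw [div_le_iff₀ hR]
      have : (6 + |y| / R) * R = 6 * R + |y| := by field_simp
      rw [this]; exact e4
    have e6 : 0 ≤ |y| / R := by positivity
    linarith only [e5, e6]
  rw [norm_div]
  calc ‖kn (1 / R) (σ + y * I)‖ / ‖(σ : ℂ) + y * I‖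
      ≤ ‖kn (1 / R) (σ + y * I)‖ / R := by
        apply div_le_div_of_nonneg_left (norm_nonneg _) hR
        linarith
    _ ≤ (2 ^ 32 * (Real.exp (32 * 14 + 2) * Real.exp (-((v + y) ^ 2) / 2)) *
        (7 ^ 32 * ((1 + |v + y| / R) ^ 32)⁻¹)) / R := by
        apply div_le_div_of_nonneg_right _ hR.le
        refine h2.trans ?_
        exact mul_le_mul (mul_le_mul_of_nonneg_left h3 (by positivity)) h4 (by positivity)
          (by positivity)
    _ = _ := by unfold qk; ring

/-- polynomial growth of `ζ` on the strip -/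
theorem zeta_strip : ∃ A : ℝ, 0 < A ∧ ∀ w : ℂ, |w.re| ≤ 1 / 4 → ∀ t : ℝ,
    ‖riemannZeta (1 / 2 + t * I + w)‖ ≤ A * (1 + |t + w.im|) ^ 4 := by
  obtain ⟨C, hC, hg⟩ := Zt_growth 1 le_rfl
  refine ⟨4 * (C * 3 ^ 4), by positivity, ?_⟩
  intro w hw t
  set s : ℂ := 1 / 2 + t * I + w with hs
  have hre : s.re = 1 / 2 + w.re := by simp [hs]
  have him : s.im = t + w.im := by simp [hs]
  rw [abs_le] at hw
  have hs1 : s ≠ 1 := by
    intro h
    have := congrArg Complex.re h
    rw [hre, Complex.one_re] at this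
    linarith
  have h1 : 1 / 4 ≤ ‖s - 1‖ := by
    have h2 := Complex.abs_re_le_norm (s - 1)
    rw [Complex.sub_re, hre, Complex.one_re] at h2
    refine le_trans ?_ h2
    rw [le_abs]
    right
    linarith
  have h3 := hg s (by rw [hre]; linarith)
  rw [Zt_eq s hs1, norm_mul] at h3
  have h4 : ‖s‖ ≤ 1 + |t + w.im| := by
    refine (Complex.norm_le_abs_re_add_abs_im _).trans ?_
    rw [hre, him, abs_of_nonneg (by linarith)]
    linarith
  have h5 : (1 + ‖s‖) ^ ((1 : ℝ) + 3) ≤ (3 * (1 + |t + w.im|)) ^ 4 := by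
    have : ((1 : ℝ) + 3) = ((4 : ℕ) : ℝ) := by norm_num
    rw [this, Real.rpow_natCast]
    apply pow_le_pow_left₀ (by positivity)
    have := abs_nonneg (t + w.im)
    linarith
  have h6 : 1 / 4 * ‖riemannZeta s‖ ≤ C * (3 * (1 + |t + w.im|)) ^ 4 :=
    (mul_le_mul_of_nonneg_right h1 (norm_nonneg _)).trans
      (h3.trans (mul_le_mul_of_nonneg_left h5 hC.le))
  calc ‖riemannZeta s‖ = 4 * (1 / 4 * ‖riemannZeta s‖) := by ring
    _ ≤ 4 * (C * (3 * (1 + |t + w.im|)) ^ 4) := by linarith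
    _ = _ := by ring

theorem pt_eq (x t y : ℝ) : pt (x : ℝ) (t + y : ℝ) = 1 / 2 + t * I + (x + y * I) := by
  unfold pt; push_cast; ring

theorem continuous_zeta_line (x : ℝ) (hx : |x| ≤ 1 / 4) :
    Continuous (fun t : ℝ => riemannZeta (pt (x : ℝ) t)) := by
  rw [continuous_iff_continuousAt]
  intro t
  have h1 : pt (x : ℝ) t ≠ 1 := by
    intro h
    have := congrArg Complex.re h
    rw [abs_le] at hx
    simp [pt] at this
    linarith
  have h2 : Continuous fun t : ℝ => pt (x : ℝ) t := by unfold pt; fun_prop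
  exact (differentiableAt_riemannZeta h1).continuousAt.comp (f := fun t : ℝ => pt (x : ℝ) t)
    h2.continuousAt

theorem integrable_qz (R x t : ℝ) (hR : 0 < R) (hx : |x| ≤ 1 / 4) :
    Integrable fun y : ℝ => qk R y * ‖riemannZeta (pt (x : ℝ) (t + y))‖ ^ 2 := by
  obtain ⟨A, hA, hAb⟩ := zeta_strip
  have hg : Integrable fun y : ℝ => (1 / R * (A ^ 2 * (1 + |t|) ^ 8)) *
      ((1 + |y|) ^ 8 * Real.exp (-(y ^ 2) / 2)) := by
    apply Integrable.const_mul
    have h1 : Integrable fun y : ℝ => (1 + |y|) ^ 8 * Real.exp (-(1 / 2 : ℝ) * y ^ 2) := by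
      have h2 : ∀ y : ℝ, (1 + |y|) ^ 8 * Real.exp (-(1 / 2 : ℝ) * y ^ 2) ≤
          (2 ^ 8 * (1 * Real.exp (-(1 / 2 : ℝ) * y ^ 2))) +
            2 ^ 8 * (y ^ 8 * Real.exp (-(1 / 2 : ℝ) * y ^ 2)) := by
        intro y
        have h3 : (1 + |y|) ^ 8 ≤ 2 ^ 8 * (1 + y ^ 8) := by
          have h4 : (1 + |y|) ^ 8 ≤ 2 ^ (8 - 1) * (1 ^ 8 + |y| ^ 8) :=
            add_pow_le (by norm_num) (abs_nonneg y) 8
          have h5 : |y| ^ 8 = y ^ 8 := by
            rw [← abs_pow]; exact abs_of_nonneg (by positivity)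
          rw [h5] at h4
          have h6 : 0 ≤ y ^ 8 := by positivity
          norm_num at h4 ⊢
          linarith
        have := mul_le_mul_of_nonneg_right h3 (Real.exp_pos (-(1 / 2 : ℝ) * y ^ 2)).le
        linarith
      have h7 : Integrable fun y : ℝ => Real.exp (-(1 / 2 : ℝ) * y ^ 2) :=
        integrable_exp_neg_mul_sq (by norm_num)
      have h8 : Integrable fun y : ℝ => y ^ 8 * Real.exp (-(1 / 2 : ℝ) * y ^ 2) := by
        have := integrable_rpow_mul_exp_neg_mul_sq (b := 1 / 2) (by norm_num) (s := 8) (by norm_num)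
        refine this.congr (Filter.Eventually.of_forall fun y => ?_)
        simp only
        congr 1
        have : (8 : ℝ) = ((8 : ℕ) : ℝ) := by norm_num
        rw [this, Real.rpow_natCast]
      refine Integrable.mono' (((h7.const_mul (2 ^ 8)).add (h8.const_mul (2 ^ 8))))
        (by fun_prop) (Filter.Eventually.of_forall fun y => ?_)
      rw [Real.norm_eq_abs, abs_of_nonneg (by positivity)]
      have := h2 y
      simpa using this
    refine h1.congr (Filter.Eventually.of_forall fun y => ?_)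
    simp only
    congr 2
    ring
  refine hg.mono' ?_ (Filter.Eventually.of_forall fun y => ?_)
  · have h1 := (continuous_zeta_line x hx).comp (continuous_const_add t)
    exact ((continuous_qk R hR).mul ((h1.norm).pow 2)).aestronglyMeasurable
  · rw [Real.norm_eq_abs, abs_of_nonneg (mul_nonneg (qk_nonneg R y hR) (by positivity))]
    have h1 := hAb (x + y * I) (by simpa using hx) t
    rw [← pt_eq] at h1
    have him : ((x : ℂ) + y * I).im = y := by simp
    rw [him] at h1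
    have h2 : (1 + |t + y|) ≤ (1 + |t|) * (1 + |y|) := by
      have e1 := abs_add_le t y
      have e2 := mul_nonneg (abs_nonneg t) (abs_nonneg y)
      have e3 : (1 + |t|) * (1 + |y|) = 1 + |t| + |y| + |t| * |y| := by ring
      rw [e3]
      linarith only [e1, e2]
    have h3 : ‖riemannZeta (pt (x : ℝ) (t + y : ℝ))‖ ^ 2 ≤
        A ^ 2 * (1 + |t|) ^ 8 * (1 + |y|) ^ 8 := by
      calc _ ≤ (A * (1 + |t + y|) ^ 4) ^ 2 := pow_le_pow_left₀ (norm_nonneg _) h1 2
        _ ≤ (A * ((1 + |t|) * (1 + |y|)) ^ 4) ^ 2 := by gcongr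
        _ = _ := by ring
    have h4 : qk R y ≤ 1 / R * Real.exp (-(y ^ 2) / 2) := by
      unfold qk
      apply mul_le_mul_of_nonneg_right _ (Real.exp_pos _).le
      refine mul_le_of_le_one_right (by positivity) ?_
      apply inv_le_one_of_one_le₀
      apply one_le_pow₀
      have : 0 ≤ |y| / R := by positivity
      linarith
    calc _ ≤ (1 / R * Real.exp (-(y ^ 2) / 2)) * (A ^ 2 * (1 + |t|) ^ 8 * (1 + |y|) ^ 8) := by
          refine mul_le_mul h4 ?_ (by positivity) (by positivity)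
          exact_mod_cast h3
      _ = _ := by ring

/-- The supremum bound. -/
theorem sup_bound : ∃ C : ℝ, 0 < C ∧ ∀ R : ℝ, 0 < R → R ≤ 1 / 100 → ∀ t : ℝ, ∀ w : ℂ,
    ‖w‖ ≤ 6 * R → ‖riemannZeta (1 / 2 + t * I + w)‖ ^ 2 ≤ C * Qf R t := by
  obtain ⟨A, hA, hAb⟩ := zeta_strip
  obtain ⟨Ck, hCk, hkn⟩ := kn_int 0
  set D : ℝ := 2 ^ 32 * Real.exp (32 * 14 + 2) * 7 ^ 32 with hD
  have hD0 : 0 < D := by positivity
  refine ⟨Ck * Real.exp (32 * 14 + 1) * 2 * D, by positivity, ?_⟩
  intro R hR hR1 t w hw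
  have hwre : |w.re| ≤ 6 * R := (Complex.abs_re_le_norm w).trans hw
  have hwim : |w.im| ≤ 6 * R := (Complex.abs_im_le_norm w).trans hw
  rw [abs_le] at hwre
  have hne : ∀ z : ℂ, -(8 * R) ≤ z.re → z.re ≤ 8 * R → (1 / 2 + t * I + z) ≠ 1 := by
    intro z h1 h2 h
    have := congrArg Complex.re h
    simp at this
    linarith
  have hmain := interp (fun z => riemannZeta (1 / 2 + t * I + z)) (-(8 * R)) (8 * R)
    (fun z h1 h2 => by
      have h3 : DifferentiableAt ℂ (fun z : ℂ => 1 / 2 + t * I + z) z := by fun_prop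
      exact (differentiableAt_riemannZeta (hne z h1 h2)).comp z h3)
    (A * (1 + |t|) ^ 4) 4
    (fun z h1 h2 => by
      refine (hAb z (by rw [abs_le]; constructor <;> linarith) t).trans ?_
      have : (1 + |t + z.im|) ≤ (1 + |t|) * (1 + |z.im|) := by
        have e1 := abs_add_le t z.im
        have e2 := mul_nonneg (abs_nonneg t) (abs_nonneg z.im)
        have e3 : (1 + |t|) * (1 + |z.im|) = 1 + |t| + |z.im| + |t| * |z.im| := by ring
        rw [e3]
        linarith only [e1, e2]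
      calc A * (1 + |t + z.im|) ^ 4 ≤ A * ((1 + |t|) * (1 + |z.im|)) ^ 4 := by gcongr
        _ = _ := by ring)
    (1 / R) 0 (by positivity) w (by linarith) (by linarith)
  -- the two terms
  have hterm : ∀ x : ℝ, (x = -(8 * R) ∨ x = 8 * R) →
      (∫ y : ℝ, ‖kn (1 / R) ((x - w.re : ℝ) + y * I) / ((x - w.re : ℝ) + y * I)‖) *
        (∫ y : ℝ, ‖kn (1 / R) ((x - w.re : ℝ) + y * I) / ((x - w.re : ℝ) + y * I)‖ *
          ‖riemannZeta (1 / 2 + t * I + (x + (w.im + y) * I))‖ ^ 2) ≤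
      (Ck * Real.exp (32 * 14 + 1) * 2) * (D * ∫ y : ℝ, qk R y *
        ‖riemannZeta (pt (x : ℝ) (t + y))‖ ^ 2) := by
    intro x hx
    have hxa : |x| = 8 * R := by
      rcases hx with h | h <;> rw [h]
      · rw [abs_neg, abs_of_pos (by positivity)]
      · rw [abs_of_pos (by positivity)]
    have hx4 : |x| ≤ 1 / 4 := by rw [hxa]; linarith
    set σ := x - w.re with hσ
    have hσ1 : 2 * R ≤ |σ| := by
      rw [hσ]
      rcases hx with h | h
      · rw [h, le_abs]; right; linarith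
      · rw [h, le_abs]; left; linarith
    have hσ2 : |σ| ≤ 14 * R := by
      rw [hσ, abs_le]
      rcases hx with h | h <;> rw [h] <;> constructor <;> linarith
    have hσ0 : 0 < |σ| := by linarith [mul_pos (two_pos : (0 : ℝ) < 2) hR]
    have hσne : σ ≠ 0 := abs_pos.1 hσ0
    have i1 : ∫ y : ℝ, ‖kn (1 / R) ((σ : ℝ) + y * I) / ((σ : ℝ) + y * I)‖ ≤
        Ck * Real.exp (32 * 14 + 1) * 2 := by
      obtain ⟨k1, k2⟩ := hkn (1 / R) σ (by positivity) hσne
      have k3 : ∫ y : ℝ, ‖kn (1 / R) ((σ : ℝ) + y * I) / ((σ : ℝ) + y * I)‖ ≤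
          ∫ y : ℝ, (1 + 1 / R * |y|) ^ 30 * (1 + |y|) ^ 0 *
            ‖kn (1 / R) (σ + y * I) / (σ + y * I)‖ := by
        apply integral_mono_of_nonneg (Filter.Eventually.of_forall fun y => norm_nonneg _) k1
        refine Filter.Eventually.of_forall fun y => ?_
        simp only [pow_zero, mul_one]
        refine le_mul_of_one_le_left (norm_nonneg _) ?_
        apply one_le_pow₀
        have : 0 ≤ 1 / R * |y| := by positivity
        linarith
      refine k3.trans (k2.trans ?_)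
      have e1 : 32 * (1 / R) * |σ| + σ ^ 2 ≤ 32 * 14 + 1 := by
        have e10 : 1 / R * |σ| ≤ 14 := by
          rw [one_div, inv_mul_le_iff₀ hR]; linarith
        have e2 : σ ^ 2 ≤ 1 := by
          rw [← sq_abs]
          have : |σ| ≤ 1 := by linarith
          exact pow_le_one₀ (abs_nonneg σ) this
        have e11 : 32 * (1 / R) * |σ| = 32 * (1 / R * |σ|) := by ring
        have e12 := mul_le_mul_of_nonneg_left e10 (show (0 : ℝ) ≤ 32 by norm_num)
        rw [e11]
        linarith only [e12, e2]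
      have e3 : 1 + 1 / (1 / R * |σ|) ≤ 2 := by
        have : 1 ≤ 1 / R * |σ| := by
          rw [one_div, le_inv_mul_iff₀ hR]; linarith
        have := (div_le_one (by linarith)).2 this
        linarith
      have e4 := Real.exp_le_exp.2 e1
      have e5 : 0 ≤ 1 + 1 / (1 / R * |σ|) := by positivity
      gcongr
    have i2 : ∫ y : ℝ, ‖kn (1 / R) ((σ : ℝ) + y * I) / ((σ : ℝ) + y * I)‖ *
          ‖riemannZeta (1 / 2 + t * I + (x + (w.im + y) * I))‖ ^ 2 ≤
        D * ∫ y : ℝ, qk R y * ‖riemannZeta (pt (x : ℝ) (t + y))‖ ^ 2 := by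
      have j1 : ∫ y : ℝ, qk R y * ‖riemannZeta (pt (x : ℝ) (t + y))‖ ^ 2 =
          ∫ y : ℝ, qk R (w.im + y) * ‖riemannZeta (pt (x : ℝ) (t + (w.im + y)))‖ ^ 2 := by
        exact (integral_add_left_eq_self (fun y : ℝ => qk R y *
          ‖riemannZeta (pt (x : ℝ) (t + y))‖ ^ 2) w.im).symm
      rw [j1, ← integral_const_mul]
      apply integral_mono_of_nonneg (Filter.Eventually.of_forall fun y => by positivity)
      · exact ((integrable_qz R x t hR hx4).comp_add_left w.im).const_mul D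
      · refine Filter.Eventually.of_forall fun y => ?_
        simp only
        have j2 : (1 / 2 + t * I + (x + (w.im + y) * I) : ℂ) = pt (x : ℝ) (t + (w.im + y) : ℝ) := by
          unfold pt; push_cast; ring
        rw [j2, ← mul_assoc]
        apply mul_le_mul_of_nonneg_right _ (by positivity)
        exact kern_le R w.im y σ hR hR1 hwim hσ1 hσ2
    have i3 : 0 ≤ ∫ y : ℝ, ‖kn (1 / R) ((σ : ℝ) + y * I) / ((σ : ℝ) + y * I)‖ *
          ‖riemannZeta (1 / 2 + t * I + (x + (w.im + y) * I))‖ ^ 2 :=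
      integral_nonneg fun y => by positivity
    exact mul_le_mul i1 i2 i3 (by positivity)
  have h1 := hterm (-(8 * R)) (Or.inl rfl)
  have h2 := hterm (8 * R) (Or.inr rfl)
  have hQ : Qf R t = (∫ y : ℝ, qk R y * ‖riemannZeta (pt (-(8 * R) : ℝ) (t + y))‖ ^ 2) +
      ∫ y : ℝ, qk R y * ‖riemannZeta (pt (8 * R : ℝ) (t + y))‖ ^ 2 := by
    rw [Qf, ← integral_add (integrable_qz R _ t hR (by rw [abs_neg, abs_of_pos (by positivity)]; linarith))
      (integrable_qz R _ t hR (by rw [abs_of_pos (by positivity)]; linarith))]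
    congr 1
    funext y
    ring
  simp only [mul_zero, zero_mul, Real.exp_zero, one_mul] at hmain
  refine hmain.trans ?_
  rw [hQ]
  calc _ ≤ _ := add_le_add h1 h2
    _ = _ := by ring

end Pool.Agent.H14.CO
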