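import Pool.Agent.H14.CO.GoodA
import Pool.Agent.H14.CO.Close

/-!
# CO: mean square of the supremum weight, and Chebyshev-type bounds for bad sets
-/

set_option autoImplicit false

namespace Pool.Agent.H14.CO

open Set MeasureTheory Complex

/-- Chebyshev: the `g`-mass of the set where `f > A`. -/
theorem markov_mass (f g : ℝ → ℝ) (a b A M : ℝ) (hf : Measurable f) (hf0 : ∀ t, 0 ≤ f t)
    (hg : Continuous g) (hg0 : ∀ t, 0 ≤ g t) (hA : 0 < A)
    (hfg : IntegrableOn (fun t => f t * g t) (Icc a b))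
    (hM : ∫ t in Icc a b, f t * g t ≤ M) :
    ∫ t in Icc a b ∩ {t | A < f t}, g t ≤ M / A := by
  have hms : MeasurableSet {t | A < f t} := measurableSet_lt measurable_const hf
  have hgi : IntegrableOn g (Icc a b) := hg.continuousOn.integrableOn_Icc
  rw [le_div_iff₀ hA]
  calc (∫ t in Icc a b ∩ {t | A < f t}, g t) * A
      = ∫ t in Icc a b ∩ {t | A < f t}, A * g t := by
        rw [integral_const_mul]; ring
    _ ≤ ∫ t in Icc a b ∩ {t | A < f t}, f t * g t := by
        apply setIntegral_mono_on ((hgi.mono_set inter_subset_left).const_mul A)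
          (hfg.mono_set inter_subset_left) (measurableSet_Icc.inter hms)
        intro t ht
        exact mul_le_mul_of_nonneg_right ht.2.le (hg0 t)
    _ ≤ ∫ t in Icc a b, f t * g t := by
        apply setIntegral_mono_set hfg
        · exact Filter.Eventually.of_forall fun t => mul_nonneg (hf0 t) (hg0 t)
        · exact Filter.Eventually.of_forall fun t ht => ht.1
    _ ≤ M := hM

theorem gw_lower (τ W t : ℝ) (hW : 0 < W) (ht : t ∈ Icc (τ - W) (τ + W)) :
    Real.exp (-1) ≤ gw τ W t := by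
  unfold gw
  apply Real.exp_le_exp.2
  have h1 : |(t - τ) / W| ≤ 1 := by
    rw [abs_div, abs_of_pos hW, div_le_one hW, abs_le]
    constructor <;> linarith [ht.1, ht.2]
  have h2 : ((t - τ) / W) ^ 2 ≤ 1 := by
    rw [← sq_abs]
    exact pow_le_one₀ (abs_nonneg _) h1
  linarith

/-- passing from the Gaussian weight to the interval -/
theorem interval_of_gauss (f : ℝ → ℝ) (hf0 : ∀ t, 0 ≤ f t) (τ W M : ℝ) (hW : 0 < W)
    (hfm : AEStronglyMeasurable f)
    (hi : Integrable (fun t => f t * gw τ W t)) (hM : ∫ t, f t * gw τ W t ≤ M) :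
    IntegrableOn f (Icc (τ - W) (τ + W)) ∧ ∫ t in Icc (τ - W) (τ + W), f t ≤ Real.exp 1 * M := by
  have hpt : ∀ t ∈ Icc (τ - W) (τ + W), f t ≤ Real.exp 1 * (f t * gw τ W t) := by
    intro t ht
    have h1 := gw_lower τ W t hW ht
    have h2 : 1 ≤ Real.exp 1 * gw τ W t := by
      calc (1 : ℝ) = Real.exp 1 * Real.exp (-1) := by rw [← Real.exp_add]; simp
        _ ≤ _ := mul_le_mul_of_nonneg_left h1 (Real.exp_pos _).le
    calc f t = f t * 1 := by ring
      _ ≤ f t * (Real.exp 1 * gw τ W t) := mul_le_mul_of_nonneg_left h2 (hf0 t)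
      _ = _ := by ring
  have hi2 : IntegrableOn (fun t => Real.exp 1 * (f t * gw τ W t)) (Icc (τ - W) (τ + W)) :=
    (hi.const_mul _).integrableOn
  have hio : IntegrableOn f (Icc (τ - W) (τ + W)) := by
    refine hi2.mono' hfm.restrict ?_
    refine (ae_restrict_iff' measurableSet_Icc).2 (Filter.Eventually.of_forall fun t ht => ?_)
    rw [Real.norm_eq_abs, abs_of_nonneg (hf0 t)]
    exact hpt t ht
  refine ⟨hio, ?_⟩
  calc ∫ t in Icc (τ - W) (τ + W), f t
      ≤ ∫ t in Icc (τ - W) (τ + W), Real.exp 1 * (f t * gw τ W t) :=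
        setIntegral_mono_on hio hi2 measurableSet_Icc hpt
    _ ≤ ∫ t, Real.exp 1 * (f t * gw τ W t) := by
        apply setIntegral_le_integral (hi.const_mul _)
        refine Filter.Eventually.of_forall fun t => ?_
        have : 0 ≤ gw τ W t := (Real.exp_pos _).le
        have := hf0 t
        positivity
    _ ≤ _ := by rw [integral_const_mul]; exact mul_le_mul_of_nonneg_left hM (Real.exp_pos _).le

/-- `∫ qk R y (1+|y|/R)^8 (1+|y|)^k dy ≤ C`. -/
theorem qk_moment (k : ℕ) : ∃ C : ℝ, 0 < C ∧ ∀ R : ℝ, 0 < R →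
    Integrable (fun y : ℝ => qk R y * ((1 + |y| / R) ^ 8 * (1 + |y|) ^ k)) ∧
    ∫ y : ℝ, qk R y * ((1 + |y| / R) ^ 8 * (1 + |y|) ^ k) ≤ C := by
  -- bound of the Gaussian factor
  obtain ⟨D, hD⟩ : ∃ D : ℝ, ∀ y : ℝ, (1 + |y|) ^ k * Real.exp (-(y ^ 2) / 2) ≤ D := by
    have hc : Continuous fun x : ℝ => (1 + x) ^ k * Real.exp (-(x ^ 2) / 2) := by fun_prop
    have ht : Filter.Tendsto (fun x : ℝ => (1 + x) ^ k * Real.exp (-(x ^ 2) / 2))
        Filter.atTop (nhds 0) := by
      have h1 : Filter.Tendsto (fun x : ℝ => (1 + x) ^ k * Real.exp (-(1 + x)))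
          Filter.atTop (nhds 0) :=
        (Real.tendsto_pow_mul_exp_neg_atTop_nhds_zero k).comp
          (Filter.tendsto_atTop_add_const_left _ 1 Filter.tendsto_id)
      refine squeeze_zero' ?_ ?_ h1
      · filter_upwards [Filter.eventually_ge_atTop 0] with x hx
        positivity
      · filter_upwards [Filter.eventually_ge_atTop 4] with x hx
        apply mul_le_mul_of_nonneg_left _ (by positivity)
        apply Real.exp_le_exp.2
        nlinarith
    obtain ⟨D, hD⟩ : ∃ D : ℝ, ∀ x : ℝ, 0 ≤ x → (1 + x) ^ k * Real.exp (-(x ^ 2) / 2) ≤ D := by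
      have h2 := ht.eventually (ge_mem_nhds (zero_lt_one))
      obtain ⟨X, hX⟩ := Filter.eventually_atTop.1 h2
      obtain ⟨M, hM⟩ := (isCompact_Icc (a := (0 : ℝ)) (b := max X 0)).exists_bound_of_continuousOn
        hc.continuousOn
      refine ⟨max 1 M, fun x hx => ?_⟩
      rcases le_total X x with h | h
      · exact (hX x h).trans (le_max_left _ _)
      · exact ((le_abs_self _).trans (hM x ⟨hx, h.trans (le_max_left _ _)⟩)).trans
          (le_max_right _ _)
    refine ⟨D, fun y => ?_⟩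
    have := hD |y| (abs_nonneg y)
    rwa [sq_abs] at this
  have hD0 : 0 < D := by
    have h0 := hD 0
    rw [abs_zero, add_zero, one_pow, one_mul] at h0
    exact (Real.exp_pos _).trans_le h0
  have hl : Integrable fun y : ℝ => (1 + y ^ 2)⁻¹ := integrable_inv_one_add_sq
  refine ⟨D * Real.pi, by positivity, ?_⟩
  intro R hR
  have hb : ∀ y : ℝ, qk R y * ((1 + |y| / R) ^ 8 * (1 + |y|) ^ k) ≤
      D * (1 / R * (1 + (y / R) ^ 2)⁻¹) := by
    intro y
    have hp : 0 < 1 + |y| / R := by positivity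
    have e1 : qk R y * ((1 + |y| / R) ^ 8 * (1 + |y|) ^ k) =
        1 / R * (((1 + |y| / R) ^ 32)⁻¹ * (1 + |y| / R) ^ 8) *
          ((1 + |y|) ^ k * Real.exp (-(y ^ 2) / 2)) := by
      unfold qk
      generalize (1 + |y|) ^ k = P
      generalize ((1 + |y| / R) ^ 32)⁻¹ = P2
      generalize (1 + |y| / R) ^ 8 = P3
      ring
    have e2 : ((1 + |y| / R) ^ 32)⁻¹ * (1 + |y| / R) ^ 8 ≤ (1 + (y / R) ^ 2)⁻¹ := by
      have e3 : ((1 + |y| / R) ^ 32)⁻¹ * (1 + |y| / R) ^ 8 = ((1 + |y| / R) ^ 24)⁻¹ := by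
        have : (1 + |y| / R) ^ 32 = (1 + |y| / R) ^ 24 * (1 + |y| / R) ^ 8 := by
          rw [← pow_add]
        rw [this, mul_inv, mul_assoc, inv_mul_cancel₀ (by positivity), mul_one]
      rw [e3]
      apply inv_anti₀ (by positivity)
      have e4 : 1 + (y / R) ^ 2 ≤ (1 + |y| / R) ^ 2 := by
        have : (y / R) ^ 2 = (|y| / R) ^ 2 := by rw [div_pow, div_pow, sq_abs]
        rw [this]
        have : 0 ≤ |y| / R := by positivity
        nlinarith
      refine e4.trans ?_
      apply pow_le_pow_right₀ _ (by norm_num)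
      have : 0 ≤ |y| / R := by positivity
      linarith
    rw [e1]
    calc _ ≤ 1 / R * (1 + (y / R) ^ 2)⁻¹ * D := by
          apply mul_le_mul (mul_le_mul_of_nonneg_left e2 (by positivity)) (hD y) (by positivity)
            (by positivity)
      _ = _ := by ring
  have hi1 : Integrable fun y : ℝ => D * (1 / R * (1 + (y / R) ^ 2)⁻¹) := by
    apply Integrable.const_mul
    apply Integrable.const_mul
    exact hl.comp_div hR.ne'
  have hi : Integrable (fun y : ℝ => qk R y * ((1 + |y| / R) ^ 8 * (1 + |y|) ^ k)) := by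
    refine hi1.mono' ?_ (Filter.Eventually.of_forall fun y => ?_)
    · have := continuous_qk R hR
      have h2 : Continuous fun y : ℝ => (1 + |y| / R) ^ 8 * (1 + |y|) ^ k := by fun_prop
      exact (this.mul h2).aestronglyMeasurable
    · rw [Real.norm_eq_abs, abs_of_nonneg (mul_nonneg (qk_nonneg R y hR) (by positivity))]
      exact hb y
  refine ⟨hi, ?_⟩
  calc _ ≤ ∫ y : ℝ, D * (1 / R * (1 + (y / R) ^ 2)⁻¹) := integral_mono hi hi1 hb
    _ = _ := by
        rw [integral_const_mul, integral_const_mul,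
          Measure.integral_comp_div (fun x : ℝ => (1 + x ^ 2)⁻¹) R, integral_univ_inv_one_add_sq,
          abs_of_pos hR, smul_eq_mul]
        field_simp

end Pool.Agent.H14.CO
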