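import Pool.Agent.H14.CO.Defs
import Pool.Agent.H95.GC.ThreeCircles

/-!
# CO module Zdet: deterministic zero detection in a small disc around a point of the critical line
-/

set_option autoImplicit false

namespace Pool.Agent.H14.CO

open Set MeasureTheory Complex

/-- points close to `1/2 + i t` are not `1` -/
theorem Zdet_ne_one {t r : ℝ} {z : ℂ} (ht : 100 ≤ t) (hr : r ≤ 1)
    (hz : ‖z - (1 / 2 + t * I)‖ ≤ r) : z ≠ 1 := by
  intro h
  rw [h] at hz
  have h1 := (Complex.abs_im_le_norm (1 - (1 / 2 + t * I))).trans hz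
  have h2 : (1 - (1 / 2 + (t : ℂ) * I)).im = -t := by simp
  rw [h2, abs_neg, abs_of_nonneg (by linarith)] at h1
  linarith

theorem Zdet_analyticAt {z : ℂ} (hz : z ≠ 1) : AnalyticAt ℂ riemannZeta z := by
  have hd : DifferentiableOn ℂ riemannZeta {1}ᶜ :=
    fun w hw => (differentiableAt_riemannZeta hw).differentiableWithinAt
  exact hd.analyticAt (isOpen_compl_singleton.mem_nhds hz)

/-- Borel-Carathéodory: lower bound for a zero free function -/
theorem Zdet_bc (f : ℂ → ℂ) (c : ℂ) (R M : ℝ) (hR : 0 < R) (hM : 0 < M)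
    (hf : DifferentiableOn ℂ f (Metric.ball c (4 * R)))
    (hf0 : ∀ z ∈ Metric.ball c (4 * R), f z ≠ 0)
    (hb : ∀ z ∈ Metric.ball c (4 * R), Real.log ‖f z‖ ≤ Real.log ‖f c‖ + M) :
    ∀ z : ℂ, ‖z - c‖ ≤ 2 * R → Real.log ‖f c‖ - 2 * M ≤ Real.log ‖f z‖ := by
  obtain ⟨L, hL, hL0, hLe⟩ := Pool.Agent.H95.GC.exists_log f c (4 * R) (by linarith) hf hf0
  have hc : f c ≠ 0 := hf0 c (Metric.mem_ball_self (by linarith))
  have hre : ∀ z ∈ Metric.ball c (4 * R), Real.log ‖f z‖ = Real.log ‖f c‖ + (L z).re := by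
    intro z hz
    rw [hLe z hz, norm_mul, Complex.norm_exp,
      Real.log_mul (norm_ne_zero_iff.2 hc) (Real.exp_pos _).ne', Real.log_exp]
  intro z hz
  have hzb : z ∈ Metric.ball c (4 * R) := by
    rw [mem_ball_iff_norm]; linarith
  set F : ℂ → ℂ := fun w => L (c + w) with hF
  have hmaps : ∀ w ∈ Metric.ball (0 : ℂ) (4 * R), c + w ∈ Metric.ball c (4 * R) := by
    intro w hw
    rw [mem_ball_iff_norm] at hw ⊢
    simpa using hw
  have hFd : DifferentiableOn ℂ F (Metric.ball 0 (4 * R)) := by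
    refine hL.comp ?_ hmaps
    exact (differentiable_id.const_add c).differentiableOn
  have hFM : Set.MapsTo F (Metric.ball 0 (4 * R)) {z | z.re ≤ M} := by
    intro w hw
    have h1 := hre _ (hmaps w hw)
    have h2 := hb _ (hmaps w hw)
    show (L (c + w)).re ≤ M
    linarith
  have hw : z - c ∈ Metric.ball (0 : ℂ) (4 * R) := by
    rw [mem_ball_iff_norm, sub_zero]; linarith
  have h3 := Complex.borelCaratheodory_zero hM hFd hFM (by linarith) hw (by simp [hF, hL0])
  have h4 : F (z - c) = L z := by simp [hF]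
  rw [h4] at h3
  have h5 : 2 * M * ‖z - c‖ / (4 * R - ‖z - c‖) ≤ 2 * M := by
    rw [div_le_iff₀ (by linarith)]
    have : ‖z - c‖ ≤ 4 * R - ‖z - c‖ := by linarith
    exact mul_le_mul_of_nonneg_left this (by linarith)
  have h6 := neg_le_abs (L z).re
  have h7 := Complex.abs_re_le_norm (L z)
  rw [hre z hzb]
  linarith

/-- `s = 1/2 + it`, `z φ = s + R e^{iφ}`. `P` is any continuous function (the mollifier), `m > 0`.

PROOF. Suppose `ζ ≠ 0` on the closed ball `‖z - s‖ ≤ 6R`.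
(a) Measure of bad angles: let `bad ⊆ [-π/2, π/2]` be the set of `φ` with `|φ| > φ₀`, or
`‖ζ(zφ) P(zφ) - 1‖ > 1/2`, or `‖P(zφ)‖ > A m`. By Chebyshev its measure is
`≤ κ := 2(π/2 - φ₀) + 4κ₃ + A₃/A²`. For `φ` not bad, `m ‖ζ(zφ)‖ ≥ ‖ζ P‖/A ≥ 1/(2A) =: c₀`.
`κ < π` (from (5), as the bracket multiplying `κ` is nonnegative; or directly the hypothesis `hκ`), so a
good angle `φ₁` exists; `z₁ = z φ₁`.
(b) Borel–Carathéodory with centre `z₁`, radius `4R` (`ball z₁ (4R) ⊆ closedBall s (5R)`): there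
`ζ = ζ(z₁) exp g`, `g z₁ = 0`, `Re g ≤ K₁ + log(1/(m‖ζ z₁‖)) ≤ K₁ + log(2A)`
(`Pool.Agent.H95.GC.exists_log` in H95/GC/ThreeCircles.lean; Mathlib `BorelCaratheodory`), hence for
`‖z - z₁‖ ≤ 2R`: `‖g z‖ ≤ 2 (K₁ + log (2A))` and
`log (m‖ζ z‖) ≥ -log(2A) - 2(K₁ + log(2A)) = -(2K₁ + 3 log(2A))`. This covers all `z φ`.
(c) Mean value (`AnalyticOnNhd.circleAverage_log_norm_of_ne_zero`) on the circle `‖z - s‖ = R`:
`log(m‖ζ s‖) = (1/2π) ∫_{-π/2}^{π/2} [log m‖ζ(s+Re^{iφ})‖ + log m‖ζ(s - R e^{-iφ})‖] dφ`, and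
`s - R e^{-iφ} = 1/2 - x + iu` with `x = R cos φ`, `u = t + R sin φ ≥ t/2`, so by `hχ`
`log‖ζ(s - Re^{-iφ})‖ ≥ log‖ζ(s+Re^{iφ})‖ + x log(t/2) - log(1/cχ)`.
`∫ cos = 2`. So
`log A₀ ≥ (1/π) ∫ log(m‖ζ(zφ)‖) dφ + (R/π) log(t/2) - (1/2) log(1/cχ)
 ≥ -log(2A) - (κ/π)(2K₁ + 3 log(2A)) + (R/π) log(t/2) - (1/2) log(1/cχ)`,
contradicting (5). -/
theorem zdet (t R m K₁ A₀ A A₃ κ₃ φ₀ cχ : ℝ) (P : ℂ → ℂ) (hP : Continuous P)
    (ht : 100 ≤ t) (hR0 : 0 < R) (hR1 : R ≤ 1 / 100) (hm : 0 < m) (hK₁ : 0 ≤ K₁) (hA₀ : 0 < A₀)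
    (hA : 1 ≤ A) (hA₃ : 0 ≤ A₃) (hκ₃ : 0 ≤ κ₃) (hφ₀ : 0 ≤ φ₀) (hφ₁ : φ₀ ≤ Real.pi / 2)
    (hcχ0 : 0 < cχ) (hcχ1 : cχ ≤ 1)
    (hχ : ∀ x u : ℝ, 0 ≤ x → x ≤ 1 / 4 → 1 ≤ u →
      cχ * u ^ x * ‖riemannZeta (1 / 2 + x + u * I)‖ ≤ ‖riemannZeta (1 / 2 - x + u * I)‖)
    (h1 : ∀ z : ℂ, ‖z - (1 / 2 + t * I)‖ ≤ 6 * R → ‖riemannZeta z‖ * m ≤ Real.exp K₁)
    (h2 : ‖riemannZeta (1 / 2 + t * I)‖ * m ≤ A₀)
    (h3 : ∫ φ in (-φ₀)..φ₀, ‖riemannZeta (1 / 2 + t * I + R * Complex.exp (φ * I)) *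
      P (1 / 2 + t * I + R * Complex.exp (φ * I)) - 1‖ ^ 2 ≤ κ₃)
    (h4 : ∫ φ in (-φ₀)..φ₀, ‖P (1 / 2 + t * I + R * Complex.exp (φ * I))‖ ^ 2 ≤ A₃ * m ^ 2)
    (hκ : 2 * (Real.pi / 2 - φ₀) + 4 * κ₃ + A₃ / A ^ 2 < 1)
    (h5 : Real.log A₀ < R * Real.log (t / 2) / Real.pi - 1 / 2 * Real.log (1 / cχ) -
      Real.log (2 * A) - (2 * (Real.pi / 2 - φ₀) + 4 * κ₃ + A₃ / A ^ 2) / Real.pi *
        (2 * K₁ + 3 * Real.log (2 * A))) :
    ∃ ρ : ℂ, riemannZeta ρ = 0 ∧ ‖ρ - (1 / 2 + t * I)‖ ≤ 6 * R := by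
  by_contra hcon
  push Not at hcon
  have hπ := Real.pi_pos
  set s : ℂ := 1 / 2 + t * I with hs
  set Z : ℝ → ℂ := fun φ => s + R * Complex.exp (φ * I) with hZ
  have hnz : ∀ z : ℂ, ‖z - s‖ ≤ 6 * R → riemannZeta z ≠ 0 := by
    intro z hz h0
    exact absurd hz (not_le.2 (hcon z h0))
  have hne : ∀ z : ℂ, ‖z - s‖ ≤ 6 * R → z ≠ 1 := fun z hz =>
    Zdet_ne_one ht (by linarith) hz
  have hZn : ∀ φ : ℝ, ‖Z φ - s‖ = R := by
    intro φ
    simp only [hZ, add_sub_cancel_left, norm_mul, Complex.norm_real, Real.norm_eq_abs,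
      abs_of_pos hR0, Complex.norm_exp_ofReal_mul_I, mul_one]
  have hZ6 : ∀ φ : ℝ, ‖Z φ - s‖ ≤ 6 * R := fun φ => by rw [hZn]; linarith
  have hZc : Continuous Z := by fun_prop
  have hzc : Continuous fun φ : ℝ => riemannZeta (Z φ) := by
    rw [continuous_iff_continuousAt]
    intro φ
    exact ContinuousAt.comp (Zdet_analyticAt (hne _ (hZ6 φ))).continuousAt hZc.continuousAt
  set h : ℝ → ℝ := fun φ => Real.log ‖riemannZeta (Z φ)‖ with hh
  have hhc : Continuous h := by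
    refine Continuous.log hzc.norm fun φ => ?_
    exact norm_ne_zero_iff.2 (hnz _ (hZ6 φ))
  have hlogA : 0 < Real.log (2 * A) := Real.log_pos (by linarith)
  have hA0 : 0 < A := by linarith
  -- the majorant of the bad set
  set B : ℝ → ℝ := fun φ => 4 * ‖riemannZeta (Z φ) * P (Z φ) - 1‖ ^ 2 +
    ‖P (Z φ)‖ ^ 2 / (A ^ 2 * m ^ 2) with hB
  have hPc : Continuous fun φ : ℝ => P (Z φ) := hP.comp hZc
  have hBc : Continuous B := by
    simp only [hB]
    exact (continuous_const.mul (((hzc.mul hPc).sub continuous_const).norm.pow 2)).add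
      ((hPc.norm.pow 2).div_const _)
  have hB0 : ∀ φ, 0 ≤ B φ := fun φ => by simp only [hB]; positivity
  have hgood : ∀ φ, B φ < 1 → Real.log m + h φ ≥ - Real.log (2 * A) := by
    intro φ hφ
    have e1 : 0 ≤ ‖P (Z φ)‖ ^ 2 / (A ^ 2 * m ^ 2) := by positivity
    have e2 : 0 ≤ 4 * ‖riemannZeta (Z φ) * P (Z φ) - 1‖ ^ 2 := by positivity
    have e3 : ‖riemannZeta (Z φ) * P (Z φ) - 1‖ ≤ 1 / 2 := by
      have : ‖riemannZeta (Z φ) * P (Z φ) - 1‖ ^ 2 ≤ (1 / 2) ^ 2 := by
        simp only [hB] at hφ; linarith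
      exact le_of_sq_le_sq this (by norm_num)
    have e4 : ‖P (Z φ)‖ ≤ A * m := by
      have h6 : ‖P (Z φ)‖ ^ 2 / (A ^ 2 * m ^ 2) ≤ 1 := by simp only [hB] at hφ; linarith
      rw [div_le_one (by positivity)] at h6
      have : ‖P (Z φ)‖ ^ 2 ≤ (A * m) ^ 2 := by rw [mul_pow]; exact h6
      exact le_of_sq_le_sq this (by positivity)
    have e5 : 1 / 2 ≤ ‖riemannZeta (Z φ)‖ * ‖P (Z φ)‖ := by
      rw [← norm_mul]
      have := norm_sub_norm_le (1 : ℂ) (1 - riemannZeta (Z φ) * P (Z φ))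
      rw [sub_sub_cancel, norm_one, norm_sub_rev] at this
      linarith
    have hz0 : 0 < ‖riemannZeta (Z φ)‖ := norm_pos_iff.2 (hnz _ (hZ6 φ))
    have e6 : 1 / (2 * A) ≤ m * ‖riemannZeta (Z φ)‖ := by
      rw [div_le_iff₀ (by positivity)]
      have : ‖riemannZeta (Z φ)‖ * ‖P (Z φ)‖ ≤ ‖riemannZeta (Z φ)‖ * (A * m) :=
        mul_le_mul_of_nonneg_left e4 hz0.le
      nlinarith
    have e7 := Real.log_le_log (by positivity) e6
    rw [Real.log_mul hm.ne' hz0.ne', one_div, Real.log_inv] at e7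
    exact e7
  -- integrals of the majorant
  have hBint : ∫ φ in (-φ₀)..φ₀, B φ ≤ 4 * κ₃ + A₃ / A ^ 2 := by
    simp only [hB]
    rw [intervalIntegral.integral_add, intervalIntegral.integral_const_mul,
      intervalIntegral.integral_div]
    · refine add_le_add (mul_le_mul_of_nonneg_left h3 (by norm_num)) ?_
      rw [div_le_div_iff₀ (by positivity) (by positivity)]
      calc (∫ φ in (-φ₀)..φ₀, ‖P (Z φ)‖ ^ 2) * A ^ 2 ≤ (A₃ * m ^ 2) * A ^ 2 :=
            mul_le_mul_of_nonneg_right h4 (by positivity)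
        _ = A₃ * (A ^ 2 * m ^ 2) := by ring
    · exact (continuous_const.mul
        (((hzc.mul hPc).sub continuous_const).norm.pow 2)).intervalIntegrable _ _
    · exact ((hPc.norm.pow 2).div_const _).intervalIntegrable _ _
  -- a good angle
  obtain ⟨φ₁, hφ₁g⟩ : ∃ φ, B φ < 1 := by
    by_contra hno
    push Not at hno
    have h6 : ∫ _φ in (-φ₀)..φ₀, (1 : ℝ) ≤ ∫ φ in (-φ₀)..φ₀, B φ :=
      intervalIntegral.integral_mono_on (by linarith) (continuous_const.intervalIntegrable _ _)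
        (hBc.intervalIntegrable _ _) fun φ _ => hno φ
    rw [intervalIntegral.integral_const, smul_eq_mul, mul_one] at h6
    have := Real.pi_gt_three
    linarith
  have hg1 := hgood φ₁ hφ₁g
  -- Borel-Caratheodory
  have hbc := Zdet_bc riemannZeta (Z φ₁) R (K₁ + Real.log (2 * A)) hR0 (by linarith)
    (fun z hz => ((Zdet_analyticAt (hne z (by
      rw [mem_ball_iff_norm] at hz
      have := norm_add_le (z - Z φ₁) (Z φ₁ - s)
      rw [sub_add_sub_cancel, hZn] at this
      linarith))).differentiableAt).differentiableWithinAt)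
    (fun z hz => hnz z (by
      rw [mem_ball_iff_norm] at hz
      have := norm_add_le (z - Z φ₁) (Z φ₁ - s)
      rw [sub_add_sub_cancel, hZn] at this
      linarith))
    (fun z hz => by
      rw [mem_ball_iff_norm] at hz
      have h6 := norm_add_le (z - Z φ₁) (Z φ₁ - s)
      rw [sub_add_sub_cancel, hZn] at h6
      have h7 : ‖z - s‖ ≤ 6 * R := by linarith
      have h8 := h1 z h7
      have hz0 : 0 < ‖riemannZeta z‖ := norm_pos_iff.2 (hnz z h7)
      have h9 := Real.log_le_log (by positivity) h8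
      rw [Real.log_exp, Real.log_mul hz0.ne' hm.ne'] at h9
      simp only [hh] at hg1
      linarith)
  have hall : ∀ φ, Real.log m + h φ ≥ -(2 * K₁ + 3 * Real.log (2 * A)) := by
    intro φ
    have h6 := hbc (Z φ) (by
      have := norm_sub_le (Z φ - s) (Z φ₁ - s)
      rw [sub_sub_sub_cancel_right, hZn, hZn] at this
      linarith)
    simp only [hh] at hg1 ⊢
    linarith
  -- the lower bound on the half circle
  set Λ : ℝ := 2 * K₁ + 3 * Real.log (2 * A) with hΛ
  have hΛ0 : 0 ≤ Λ := by simp only [hΛ]; linarith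
  have hint : ∀ a b : ℝ, IntervalIntegrable (fun φ => Real.log m + h φ) volume a b :=
    fun a b => (continuous_const.add hhc).intervalIntegrable _ _
  have hmid : ∫ φ in (-φ₀)..φ₀, (Real.log m + h φ) ≥
      -(2 * φ₀ * Real.log (2 * A)) - Λ * (4 * κ₃ + A₃ / A ^ 2) := by
    have h6 : ∫ φ in (-φ₀)..φ₀, (-Real.log (2 * A) - Λ * B φ) ≤
        ∫ φ in (-φ₀)..φ₀, (Real.log m + h φ) := by
      refine intervalIntegral.integral_mono_on (by linarith)
        ((continuous_const.sub (continuous_const.mul hBc)).intervalIntegrable _ _)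
        (hint _ _) fun φ _ => ?_
      rcases lt_or_ge (B φ) 1 with h7 | h7
      · have := hgood φ h7
        have := mul_nonneg hΛ0 (hB0 φ)
        linarith
      · have := hall φ
        have : Λ * 1 ≤ Λ * B φ := mul_le_mul_of_nonneg_left h7 hΛ0
        linarith
    have hLB : Continuous fun φ => Λ * B φ := continuous_const.mul hBc
    rw [intervalIntegral.integral_sub (f := fun _ => -Real.log (2 * A)) (g := fun φ => Λ * B φ)
      (continuous_const.intervalIntegrable _ _)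
      (hLB.intervalIntegrable _ _), intervalIntegral.integral_const,
      intervalIntegral.integral_const_mul, smul_eq_mul] at h6
    have h7 := mul_le_mul_of_nonneg_left hBint hΛ0
    have h8 : (φ₀ - -φ₀) * -Real.log (2 * A) = -(2 * φ₀ * Real.log (2 * A)) := by ring
    rw [h8] at h6
    linarith
  have hout : ∀ a b : ℝ, a ≤ b → ∫ φ in a..b, (Real.log m + h φ) ≥
      (b - a) * (-Real.log (2 * A) - Λ) := by
    intro a b hab
    have h6 : ∫ _φ in a..b, (-Real.log (2 * A) - Λ) ≤ ∫ φ in a..b, (Real.log m + h φ) := by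
      refine intervalIntegral.integral_mono_on hab (continuous_const.intervalIntegrable _ _)
        (hint _ _) fun φ _ => ?_
      have := hall φ
      linarith
    rw [intervalIntegral.integral_const, smul_eq_mul] at h6
    exact h6
  have hhalf : ∫ φ in (-(Real.pi / 2))..(Real.pi / 2), (Real.log m + h φ) ≥
      -(Real.pi * Real.log (2 * A)) -
        Λ * (2 * (Real.pi / 2 - φ₀) + 4 * κ₃ + A₃ / A ^ 2) := by
    rw [← intervalIntegral.integral_add_adjacent_intervals (hint (-(Real.pi / 2)) (-φ₀)) (hint _ _),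
      ← intervalIntegral.integral_add_adjacent_intervals (hint (-φ₀) φ₀) (hint _ _)]
    have h6 := hout (-(Real.pi / 2)) (-φ₀) (by linarith)
    have h7 := hout φ₀ (Real.pi / 2) hφ₁
    have h8 : (-φ₀ - -(Real.pi / 2)) * (-Real.log (2 * A) - Λ) +
        (Real.pi / 2 - φ₀) * (-Real.log (2 * A) - Λ) + (-(2 * φ₀ * Real.log (2 * A)) -
          Λ * (4 * κ₃ + A₃ / A ^ 2)) = -(Real.pi * Real.log (2 * A)) -
        Λ * (2 * (Real.pi / 2 - φ₀) + 4 * κ₃ + A₃ / A ^ 2) := by ring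
    linarith
  have hhalf2 : ∫ φ in (-(Real.pi / 2))..(Real.pi / 2), (Real.log m + h φ) =
      Real.pi * Real.log m + ∫ φ in (-(Real.pi / 2))..(Real.pi / 2), h φ := by
    rw [intervalIntegral.integral_add (continuous_const.intervalIntegrable _ _)
      (hhc.intervalIntegrable _ _), intervalIntegral.integral_const, smul_eq_mul]
    ring
  -- the reflected half circle
  have hrefl : ∀ φ ∈ Set.Icc (-(Real.pi / 2)) (Real.pi / 2),
      Real.log cχ + R * Real.cos φ * Real.log (t / 2) + h φ ≤ h (Real.pi - φ) := by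
    intro φ hφ
    have hcos : 0 ≤ Real.cos φ := Real.cos_nonneg_of_mem_Icc hφ
    have hcos1 : Real.cos φ ≤ 1 := Real.cos_le_one φ
    have hsin1 : -1 ≤ Real.sin φ := Real.neg_one_le_sin φ
    have hx0 : 0 ≤ R * Real.cos φ := mul_nonneg hR0.le hcos
    have hx1 : R * Real.cos φ ≤ 1 / 4 := by nlinarith
    have hu : t / 2 ≤ t + R * Real.sin φ := by nlinarith
    have hu1 : 1 ≤ t + R * Real.sin φ := by linarith
    have h6 := hχ (R * Real.cos φ) (t + R * Real.sin φ) hx0 hx1 hu1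
    have e1 : (1 / 2 + ((R * Real.cos φ : ℝ) : ℂ) + ((t + R * Real.sin φ : ℝ) : ℂ) * I) = Z φ := by
      simp only [hZ, hs]
      rw [Complex.exp_mul_I]
      push_cast
      ring
    have e2 : (1 / 2 - ((R * Real.cos φ : ℝ) : ℂ) + ((t + R * Real.sin φ : ℝ) : ℂ) * I) =
        Z (Real.pi - φ) := by
      simp only [hZ, hs]
      rw [Complex.exp_mul_I]
      push_cast
      rw [Complex.cos_pi_sub, Complex.sin_pi_sub]
      ring
    rw [e1, e2] at h6
    have hz0 : 0 < ‖riemannZeta (Z φ)‖ := norm_pos_iff.2 (hnz _ (hZ6 φ))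
    have hup : 0 < (t + R * Real.sin φ) ^ (R * Real.cos φ) := Real.rpow_pos_of_pos (by linarith) _
    have h7 := Real.log_le_log (by positivity) h6
    rw [Real.log_mul (by positivity) hz0.ne', Real.log_mul hcχ0.ne' hup.ne',
      Real.log_rpow (by linarith)] at h7
    have h8 : Real.log (t / 2) ≤ Real.log (t + R * Real.sin φ) :=
      Real.log_le_log (by linarith) hu
    have h9 := mul_le_mul_of_nonneg_left h8 hx0
    simp only [hh]
    linarith
  have hrefl2 : Real.pi * Real.log cχ + 2 * R * Real.log (t / 2) +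
      ∫ φ in (-(Real.pi / 2))..(Real.pi / 2), h φ ≤
      ∫ φ in (-(Real.pi / 2))..(Real.pi / 2), h (Real.pi - φ) := by
    have h6 : ∫ φ in (-(Real.pi / 2))..(Real.pi / 2),
        (Real.log cχ + R * Real.cos φ * Real.log (t / 2) + h φ) ≤
        ∫ φ in (-(Real.pi / 2))..(Real.pi / 2), h (Real.pi - φ) := by
      refine intervalIntegral.integral_mono_on (by linarith)
        (Continuous.intervalIntegrable (by fun_prop) _ _)
        (Continuous.intervalIntegrable (by fun_prop) _ _) hrefl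
    have h7 : ∫ φ in (-(Real.pi / 2))..(Real.pi / 2),
        (Real.log cχ + R * Real.cos φ * Real.log (t / 2) + h φ) =
        Real.pi * Real.log cχ + 2 * R * Real.log (t / 2) +
          ∫ φ in (-(Real.pi / 2))..(Real.pi / 2), h φ := by
      rw [intervalIntegral.integral_add (Continuous.intervalIntegrable (by fun_prop) _ _)
        (hhc.intervalIntegrable _ _),
        intervalIntegral.integral_add (Continuous.intervalIntegrable (by fun_prop) _ _)
          (Continuous.intervalIntegrable (by fun_prop) _ _), intervalIntegral.integral_const,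
        intervalIntegral.integral_mul_const, intervalIntegral.integral_const_mul, integral_cos,
        smul_eq_mul, Real.sin_neg, Real.sin_pi_div_two]
      ring
    linarith
  -- mean value
  have hmv : Real.log ‖riemannZeta s‖ = (2 * Real.pi)⁻¹ *
      ((∫ φ in (-(Real.pi / 2))..(Real.pi / 2), h φ) +
        ∫ φ in (-(Real.pi / 2))..(Real.pi / 2), h (Real.pi - φ)) := by
    have h6 := AnalyticOnNhd.circleAverage_log_norm_of_ne_zero (R := R) (c := s)
      (g := riemannZeta)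
      (fun z hz => Zdet_analyticAt (hne z (by
        rw [mem_closedBall_iff_norm, abs_of_pos hR0] at hz; linarith)))
      (fun z hz => hnz z (by
        rw [mem_closedBall_iff_norm, abs_of_pos hR0] at hz; linarith))
    rw [← h6, Real.circleAverage_eq_integral_add (-(Real.pi / 2)), smul_eq_mul]
    congr 1
    have e : ∀ θ : ℝ, Real.log ‖riemannZeta (circleMap s R (θ + -(Real.pi / 2)))‖ =
        h (θ - Real.pi / 2) := by
      intro θ
      simp only [hh, hZ, circleMap, sub_eq_add_neg]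
    simp only [e]
    have e1 : ∫ x in (0 : ℝ)..2 * Real.pi, h (x - Real.pi / 2) =
        ∫ x in (-(Real.pi / 2))..(3 * Real.pi / 2), h x := by
      rw [intervalIntegral.integral_comp_sub_right (fun x => h x) (Real.pi / 2)]
      congr 1 <;> ring
    have e2 : ∫ φ in (-(Real.pi / 2))..(Real.pi / 2), h (Real.pi - φ) =
        ∫ x in (Real.pi / 2)..(3 * Real.pi / 2), h x := by
      rw [intervalIntegral.integral_comp_sub_left (fun x => h x) Real.pi]
      congr 1 <;> ring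
    rw [e1, e2, intervalIntegral.integral_add_adjacent_intervals
      (hhc.intervalIntegrable _ _) (hhc.intervalIntegrable _ _)]
  -- conclusion
  have hz0 : 0 < ‖riemannZeta s‖ := norm_pos_iff.2 (hnz s (by rw [sub_self, norm_zero]; linarith))
  have h6 := Real.log_le_log (by positivity) h2
  rw [Real.log_mul hz0.ne' hm.ne'] at h6
  have h7 : Real.log (1 / cχ) = -Real.log cχ := by rw [one_div, Real.log_inv]
  rw [h7] at h5
  set J := ∫ φ in (-(Real.pi / 2))..(Real.pi / 2), h φ with hJ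
  have h8 : Real.pi * Real.log ‖riemannZeta s‖ ≥ J + Real.pi / 2 * Real.log cχ +
      R * Real.log (t / 2) := by
    have h9 : Real.pi * Real.log ‖riemannZeta s‖ = 1 / 2 *
      (J + ∫ φ in (-(Real.pi / 2))..(Real.pi / 2), h (Real.pi - φ)) := by
      rw [hmv]
      field_simp
    rw [h9]
    linarith
  rw [hhalf2] at hhalf
  have h9 : Real.pi * Real.log A₀ < Real.pi * (R * Real.log (t / 2) / Real.pi -
      1 / 2 * -Real.log cχ - Real.log (2 * A) -
      (2 * (Real.pi / 2 - φ₀) + 4 * κ₃ + A₃ / A ^ 2) / Real.pi * Λ) :=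
    mul_lt_mul_of_pos_left h5 hπ
  have h10 : Real.pi * (R * Real.log (t / 2) / Real.pi -
      1 / 2 * -Real.log cχ - Real.log (2 * A) -
      (2 * (Real.pi / 2 - φ₀) + 4 * κ₃ + A₃ / A ^ 2) / Real.pi * Λ) =
      R * Real.log (t / 2) + Real.pi / 2 * Real.log cχ - Real.pi * Real.log (2 * A) -
      Λ * (2 * (Real.pi / 2 - φ₀) + 4 * κ₃ + A₃ / A ^ 2) := by
    field_simp
    ring
  rw [h10] at h9
  have h11 := mul_le_mul_of_nonneg_left h6 hπ.le
  linarith

end Pool.Agent.H14.CO
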