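import Pool.Agent.H14.CO.GoodC
import Pool.Agent.H14.CO.Zdet

/-!
# CO: auxiliary lemmas for the choice of good points
-/

set_option autoImplicit false

namespace Pool.Agent.H14.CO

open Set MeasureTheory Complex

theorem union_le (g : ℝ → ℝ) (hg0 : ∀ t, 0 ≤ g t) (A B : Set ℝ)
    (hA : IntegrableOn g A) (hB : IntegrableOn g B) :
    ∫ t in A ∪ B, g t ≤ (∫ t in A, g t) + ∫ t in B, g t := by
  rw [← integral_add_measure hA hB]
  exact integral_mono_measure (Measure.restrict_union_le A B)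
    (Filter.Eventually.of_forall hg0) (Integrable.add_measure hA hB)

theorem fub (F : ℝ → ℝ → ℝ) (hF : Continuous (Function.uncurry F)) (φ₀ a b M : ℝ)
    (hφ : 0 ≤ φ₀) (hM : ∀ φ ∈ Icc (-φ₀) φ₀, ∫ t in Icc a b, F t φ ≤ M) :
    ∫ t in Icc a b, (∫ φ in (-φ₀)..φ₀, F t φ) ≤ 2 * φ₀ * M := by
  have h1 : ∀ t, (∫ φ in (-φ₀)..φ₀, F t φ) = ∫ φ in Icc (-φ₀) φ₀, F t φ := by
    intro t
    rw [intervalIntegral.integral_of_le (by linarith), ← integral_Icc_eq_integral_Ioc]
  simp_rw [h1]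
  have hint : Integrable (Function.uncurry F)
      ((volume.restrict (Icc a b)).prod (volume.restrict (Icc (-φ₀) φ₀))) := by
    rw [Measure.prod_restrict]
    exact (hF.continuousOn).integrableOn_compact (isCompact_Icc.prod isCompact_Icc)
  rw [integral_integral_swap hint]
  calc ∫ φ in Icc (-φ₀) φ₀, ∫ t in Icc a b, F t φ
      ≤ ∫ _ in Icc (-φ₀) φ₀, M := by
        apply setIntegral_mono_on hint.integral_prod_right (integrableOn_const (by simp))
          measurableSet_Icc hM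
    _ = 2 * φ₀ * M := by
        rw [setIntegral_const, smul_eq_mul, Measure.real, Real.volume_Icc,
          ENNReal.toReal_ofReal (by linarith)]
        ring

theorem continuous_pint (F : ℝ → ℝ → ℝ) (hF : Continuous (Function.uncurry F)) (a b : ℝ) :
    Continuous fun t => ∫ φ in a..b, F t φ :=
  intervalIntegral.continuous_parametric_intervalIntegral_of_continuous' hF a b

/-- choice of `G` -/
theorem choose_G (b₀ c K₀ κ X : ℝ) (hc : 0 < c) (hK : 0 < K₀) (hκ : 0 < κ) : ∃ G : ℝ, 1 < G ∧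
    b₀ ≤ Real.sqrt G ∧ (1 + G) ^ 8 * Real.exp (-c * Real.sqrt G) ≤ K₀ ∧
    2 * (Real.pi / 2 - Real.arccos (1 / Real.sqrt G)) ≤ κ ∧ X < 3 * G / 32 := by
  have h1 : ∀ᶠ G : ℝ in Filter.atTop, b₀ ≤ Real.sqrt G :=
    Real.tendsto_sqrt_atTop.eventually_ge_atTop b₀
  have h2 : ∀ᶠ G : ℝ in Filter.atTop, (1 + G) ^ 8 * Real.exp (-c * Real.sqrt G) ≤ K₀ := by
    have e1 : Filter.Tendsto (fun x : ℝ => 2 ^ 8 / c ^ 16 * ((c * x) ^ 16 * Real.exp (-(c * x))))
        Filter.atTop (nhds (2 ^ 8 / c ^ 16 * 0)) := by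
      apply Filter.Tendsto.const_mul
      exact (Real.tendsto_pow_mul_exp_neg_atTop_nhds_zero 16).comp
        (Filter.tendsto_id.const_mul_atTop hc)
    rw [mul_zero] at e1
    have e2 := (e1.comp Real.tendsto_sqrt_atTop).eventually (ge_mem_nhds hK)
    filter_upwards [e2, Filter.eventually_ge_atTop 1] with G hG hG1
    refine le_trans ?_ hG
    simp only [Function.comp]
    have e3 : Real.sqrt G ^ 16 = G ^ 8 := by
      have : Real.sqrt G ^ 16 = (Real.sqrt G ^ 2) ^ 8 := by ring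
      rw [this, Real.sq_sqrt (by linarith)]
    have e4 : 2 ^ 8 / c ^ 16 * ((c * Real.sqrt G) ^ 16 * Real.exp (-(c * Real.sqrt G))) =
        2 ^ 8 * G ^ 8 * Real.exp (-(c * Real.sqrt G)) := by
      rw [mul_pow, e3]
      field_simp
    rw [e4]
    have e5 : -c * Real.sqrt G = -(c * Real.sqrt G) := by ring
    rw [e5]
    apply mul_le_mul_of_nonneg_right _ (Real.exp_pos _).le
    rw [← mul_pow]
    exact pow_le_pow_left₀ (by linarith) (by linarith) 8
  have h3 : ∀ᶠ G : ℝ in Filter.atTop,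
      2 * (Real.pi / 2 - Real.arccos (1 / Real.sqrt G)) ≤ κ := by
    have e1 : Filter.Tendsto (fun G : ℝ => 1 / Real.sqrt G) Filter.atTop (nhds 0) := by
      simp_rw [one_div]
      exact Filter.Tendsto.inv_tendsto_atTop Real.tendsto_sqrt_atTop
    have e2 : Filter.Tendsto (fun G : ℝ => 2 * (Real.pi / 2 - Real.arccos (1 / Real.sqrt G)))
        Filter.atTop (nhds (2 * (Real.pi / 2 - Real.arccos 0))) := by
      apply Filter.Tendsto.const_mul
      apply Filter.Tendsto.const_sub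
      exact (Real.continuous_arccos.tendsto 0).comp e1
    rw [Real.arccos_zero, sub_self, mul_zero] at e2
    exact e2.eventually (ge_mem_nhds hκ)
  have h4 : ∀ᶠ G : ℝ in Filter.atTop, X < 3 * G / 32 := by
    filter_upwards [Filter.eventually_gt_atTop (32 * X / 3)] with G hG
    linarith
  have h5 := Filter.eventually_gt_atTop (1 : ℝ)
  obtain ⟨G, g5, g1, g2, g3, g4⟩ := (h5.and (h1.and (h2.and (h3.and h4)))).exists
  exact ⟨G, g5, g1, g2, g3, g4⟩

/-- reflecting a zero into the right half of the strip -/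
theorem reflect_zero (t r : ℝ) (hr : r ≤ 1 / 4) (ρ : ℂ) (hρ : riemannZeta ρ = 0)
    (hd : ‖ρ - (1 / 2 + t * I)‖ ≤ r) :
    ∃ ρ' : ℂ, riemannZeta ρ' = 0 ∧ 1 / 2 ≤ ρ'.re ∧ ‖ρ' - (1 / 2 + t * I)‖ ≤ r := by
  rcases le_or_gt (1 / 2) ρ.re with h | h
  · exact ⟨ρ, hρ, h, hd⟩
  · refine ⟨1 - (starRingEnd ℂ) ρ, ?_, ?_, ?_⟩
    · have hre : |ρ.re - 1 / 2| ≤ 1 / 4 := by
        have := (Complex.abs_re_le_norm (ρ - (1 / 2 + t * I))).trans (hd.trans hr)
        simpa using this
      rw [abs_le] at hre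
      have h1 : riemannZeta ((starRingEnd ℂ) ρ) = 0 := by
        rw [riemannZeta_conj, hρ, map_zero]
      have hre2 : ((starRingEnd ℂ) ρ).re = ρ.re := Complex.conj_re ρ
      have h2 := ch_fe ((starRingEnd ℂ) ρ) (by rw [hre2]; linarith) (by
        intro h3
        have := congrArg Complex.re h3
        rw [hre2, Complex.one_re] at this
        linarith)
      rw [h2, h1, mul_zero]
    · rw [Complex.sub_re, Complex.conj_re, Complex.one_re]; linarith
    · have h3 : (1 - (starRingEnd ℂ) ρ) - (1 / 2 + t * I) =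
          -(starRingEnd ℂ) (ρ - (1 / 2 + t * I)) := by
        simp only [map_sub, map_add, map_mul, Complex.conj_ofReal, Complex.conj_I, map_div₀, map_one]
        have : (starRingEnd ℂ) (2 : ℂ) = 2 := Complex.conj_ofNat 2
        rw [this]
        ring
      rw [h3, norm_neg, RCLike.norm_conj]
      exact hd

end Pool.Agent.H14.CO
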