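import Pool.Agent.H14.CO.GoodD
import Pool.Agent.H14.CO.Chi

/-!
# CO: the pointwise part of the good set
-/

set_option autoImplicit false

namespace Pool.Agent.H14.CO

open Set MeasureTheory Complex

theorem W_le (T : ℝ) (hT0 : 0 < T) (hL : 30 ≤ Real.log T) : T ^ (9 / 10 : ℝ) ≤ T / 4 := by
  have hexpL : Real.exp (Real.log T) = T := Real.exp_log hT0
  have e1 : T ^ (9 / 10 : ℝ) = T * Real.exp (-(Real.log T / 10)) := by
    calc T ^ (9 / 10 : ℝ) = Real.exp (Real.log T * (9 / 10)) := Real.rpow_def_of_pos hT0 _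
      _ = Real.exp (Real.log T) * Real.exp (-(Real.log T / 10)) := by
          rw [← Real.exp_add]; congr 1; ring
      _ = T * Real.exp (-(Real.log T / 10)) := by rw [hexpL]
  have e2 : Real.exp (-(Real.log T / 10)) ≤ 1 / 4 := by
    rw [Real.exp_neg, one_div]
    apply inv_anti₀ (by norm_num)
    have := Real.add_one_le_exp (Real.log T / 10)
    linarith
  rw [e1]
  have := mul_le_mul_of_nonneg_left e2 hT0.le
  linarith

theorem K1_bound (CS Cq c₄ G A₁ C₂ q z m : ℝ) (hCS : 0 < CS) (hCq : 0 < Cq) (hc₄ : 0 < c₄)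
    (hG : 1 ≤ G) (hA₁ : A₁ = 8 * (Cq * Real.exp (Cq * G)) / c₄)
    (hC₂ : C₂ = (|Real.log (8 * CS * Cq / c₄)| + Cq) / 2)
    (hz : 0 ≤ z) (hm : 0 ≤ m) (h1 : z ^ 2 ≤ CS * q) (h2 : q * m ^ 2 ≤ A₁) :
    z * m ≤ Real.exp (C₂ * G) := by
  have h3 : (z * m) ^ 2 ≤ CS * A₁ := by
    calc (z * m) ^ 2 = z ^ 2 * m ^ 2 := by ring
      _ ≤ (CS * q) * m ^ 2 := mul_le_mul_of_nonneg_right h1 (sq_nonneg m)
      _ = CS * (q * m ^ 2) := by ring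
      _ ≤ CS * A₁ := mul_le_mul_of_nonneg_left h2 hCS.le
  have h4 : CS * A₁ ≤ Real.exp (C₂ * G) ^ 2 := by
    have e1 : CS * A₁ = (8 * CS * Cq / c₄) * Real.exp (Cq * G) := by rw [hA₁]; ring
    have e2 : 8 * CS * Cq / c₄ ≤ Real.exp (|Real.log (8 * CS * Cq / c₄)| * G) := by
      have hp : 0 < 8 * CS * Cq / c₄ := by positivity
      calc 8 * CS * Cq / c₄ = Real.exp (Real.log (8 * CS * Cq / c₄)) := (Real.exp_log hp).symm
        _ ≤ _ := by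
            apply Real.exp_le_exp.2
            have := le_abs_self (Real.log (8 * CS * Cq / c₄))
            have h5 := abs_nonneg (Real.log (8 * CS * Cq / c₄))
            nlinarith
    rw [e1]
    calc (8 * CS * Cq / c₄) * Real.exp (Cq * G)
        ≤ Real.exp (|Real.log (8 * CS * Cq / c₄)| * G) * Real.exp (Cq * G) :=
          mul_le_mul_of_nonneg_right e2 (Real.exp_pos _).le
      _ = Real.exp (C₂ * G) ^ 2 := by
          rw [← Real.exp_add, ← Real.exp_nat_mul]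
          congr 1
          rw [hC₂]; push_cast; ring
  have h5 : 0 ≤ z * m := mul_nonneg hz hm
  exact (pow_le_pow_iff_left₀ h5 (Real.exp_pos _).le (by norm_num)).1 (h3.trans h4)

theorem chi_conv (Cχ cχ : ℝ) (hcχ0 : 0 < cχ) (hcχC : cχ * Cχ ≤ 1)
    (hchi : ∀ x u : ℝ, |x| ≤ 1 / 4 → 1 ≤ |u| →
      ‖riemannZeta (1 / 2 - x + u * I)‖ ≤ Cχ * |u| ^ x * ‖riemannZeta (1 / 2 + x + u * I)‖) :
    ∀ x u : ℝ, 0 ≤ x → x ≤ 1 / 4 → 1 ≤ u →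
      cχ * u ^ x * ‖riemannZeta (1 / 2 + x + u * I)‖ ≤ ‖riemannZeta (1 / 2 - x + u * I)‖ := by
  intro x u hx0 hx1 hu
  have h1 := hchi (-x) u (by rw [abs_neg, abs_of_nonneg hx0]; exact hx1)
    (by rw [abs_of_nonneg (by linarith)]; exact hu)
  rw [abs_of_nonneg (by linarith : 0 ≤ u)] at h1
  have e1 : (1 / 2 - ((-x : ℝ) : ℂ) + u * I) = 1 / 2 + x + u * I := by push_cast; ring
  have e2 : (1 / 2 + ((-x : ℝ) : ℂ) + u * I) = 1 / 2 - x + u * I := by push_cast; ring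
  rw [e1, e2] at h1
  have hu0 : 0 < u := by linarith
  have e3 : u ^ x * u ^ (-x) = 1 := by
    rw [← Real.rpow_add hu0, add_neg_cancel, Real.rpow_zero]
  have hux : 0 < u ^ x := Real.rpow_pos_of_pos hu0 x
  calc cχ * u ^ x * ‖riemannZeta (1 / 2 + x + u * I)‖
      ≤ cχ * u ^ x * (Cχ * u ^ (-x) * ‖riemannZeta (1 / 2 - x + u * I)‖) :=
        mul_le_mul_of_nonneg_left h1 (by positivity)
    _ = (cχ * Cχ) * (u ^ x * u ^ (-x)) * ‖riemannZeta (1 / 2 - x + u * I)‖ := by ring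
    _ ≤ 1 * 1 * ‖riemannZeta (1 / 2 - x + u * I)‖ := by
        rw [e3]
        gcongr
    _ = _ := by ring

theorem logt_le (T t : ℝ) (hT0 : 0 < T) (hL : 30 ≤ Real.log T) (ht : T / 2 ≤ t) :
    Real.log T / 2 ≤ Real.log (t / 2) := by
  have hexpL : Real.exp (Real.log T) = T := Real.exp_log hT0
  rw [Real.le_log_iff_exp_le (by linarith)]
  have e1 : Real.exp (Real.log T / 2) ^ 2 = T := by
    calc Real.exp (Real.log T / 2) ^ 2 = Real.exp (Real.log T) := by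
          rw [← Real.exp_nat_mul]; congr 1; push_cast; ring
      _ = T := hexpL
  have e2 : 4 ≤ Real.exp (Real.log T / 2) := by
    have := Real.add_one_le_exp (Real.log T / 2)
    linarith
  nlinarith

theorem num5 (G R L lt κs κ₀ K₁ la lA lc X₀ : ℝ) (hG : 1 < G) (hR : 0 < R) (hLR : L * R = G)
    (hlt : L / 2 ≤ lt) (hκs0 : 0 ≤ κs) (hκs1 : κs ≤ κ₀) (hκ₀1 : κ₀ ≤ 1 / 16)
    (hK : 0 ≤ K₁) (hκK : κ₀ * (2 * K₁) ≤ G / 8) (hlA : 0 ≤ lA)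
    (hX₀ : X₀ = la + 1 / 2 * lc + 4 * lA) (hX : X₀ < 3 * G / 32) :
    la < R * lt / Real.pi - 1 / 2 * lc - lA - κs / Real.pi * (2 * K₁ + 3 * lA) := by
  have hπ := Real.pi_pos
  have hπ4 := Real.pi_le_four
  have hπ3 := Real.pi_gt_three
  have h1 : G / 2 ≤ R * lt := by
    calc G / 2 = R * (L / 2) := by rw [← hLR]; ring
      _ ≤ _ := mul_le_mul_of_nonneg_left hlt hR.le
  have h2 : κs / Real.pi * (2 * K₁ + 3 * lA) ≤ (G / 8 + 3 * lA) / Real.pi := by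
    rw [div_mul_eq_mul_div]
    apply div_le_div_of_nonneg_right _ hπ.le
    have h3 : κs * (2 * K₁) ≤ κ₀ * (2 * K₁) := mul_le_mul_of_nonneg_right hκs1 (by positivity)
    have h4 : κs * (3 * lA) ≤ 1 * (3 * lA) :=
      mul_le_mul_of_nonneg_right (by linarith) (by positivity)
    linarith
  have h5 : G / 2 / Real.pi ≤ R * lt / Real.pi := div_le_div_of_nonneg_right h1 hπ.le
  have h6 : (G / 8 + 3 * lA) / Real.pi ≤ G / 8 / Real.pi + 3 * lA := by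
    rw [add_div]
    have : 3 * lA / Real.pi ≤ 3 * lA := div_le_self (by positivity) (by linarith)
    linarith
  have h7 : 3 * G / 32 ≤ G / 2 / Real.pi - G / 8 / Real.pi := by
    have : G / 2 / Real.pi - G / 8 / Real.pi = (3 * G / 8) / Real.pi := by ring
    rw [this, le_div_iff₀ hπ]
    nlinarith
  rw [hX₀] at hX
  linarith

/-- pointwise: the four bounds give a zero -/
theorem good_point (CS Cq Cχ c₄ C₂ κ₀ A₁ A₂ A₃ A κ₃ φ₀ cχ X₀ G L R T t m z₀ : ℝ)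
    (hCS : 0 < CS) (hCq : 0 < Cq) (hc₄ : 0 < c₄)
    (hsup : ∀ R : ℝ, 0 < R → R ≤ 1 / 100 → ∀ t : ℝ, ∀ w : ℂ,
      ‖w‖ ≤ 6 * R → ‖riemannZeta (1 / 2 + t * I + w)‖ ^ 2 ≤ CS * Qf R t)
    (hchi : ∀ x u : ℝ, |x| ≤ 1 / 4 → 1 ≤ |u| →
      ‖riemannZeta (1 / 2 - x + u * I)‖ ≤ Cχ * |u| ^ x * ‖riemannZeta (1 / 2 + x + u * I)‖)
    (hcχ0 : 0 < cχ) (hcχ1 : cχ ≤ 1) (hcχC : cχ * Cχ ≤ 1)
    (hC₂ : C₂ = (|Real.log (8 * CS * Cq / c₄)| + Cq) / 2)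
    (hκ₀ : κ₀ = 1 / (16 * (C₂ + 1)))
    (hA₁ : A₁ = 8 * (Cq * Real.exp (Cq * G)) / c₄) (hA₂0 : 0 < A₂) (hA₃0 : 0 < A₃)
    (hA1 : 1 ≤ A) (hAκ : A₃ / A ^ 2 ≤ κ₀ / 8) (hκ₃ : κ₃ = κ₀ / 32)
    (hX₀ : X₀ = Real.log (Real.sqrt A₂) + 1 / 2 * Real.log (1 / cχ) + 4 * Real.log (2 * A))
    (hG1 : 1 < G) (hφ0 : 0 ≤ φ₀) (hφ1 : φ₀ ≤ Real.pi / 2)
    (hg3 : 2 * (Real.pi / 2 - φ₀) ≤ κ₀ / 8) (hg4 : X₀ < 3 * G / 32)
    (hT0 : 0 < T) (hL : L = Real.log T) (hLG : 600 * G ≤ L) (hR : R = G / L)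
    (ht1 : T / 2 ≤ t) (hm : m = ‖Mo z₀ (pt 0 t)‖) (hm0 : 0 < m)
    (n1 : Qf R t * m ^ 2 ≤ A₁)
    (n2 : ‖riemannZeta (pt 0 t)‖ ^ 2 * m ^ 2 ≤ A₂)
    (n3 : ∫ φ in (-φ₀)..φ₀, ‖riemannZeta (1 / 2 + t * I + R * Complex.exp (φ * I)) *
      Mo z₀ (1 / 2 + t * I + R * Complex.exp (φ * I)) - 1‖ ^ 2 ≤ κ₃)
    (n4 : ∫ φ in (-φ₀)..φ₀, ‖Mo z₀ (1 / 2 + t * I + R * Complex.exp (φ * I))‖ ^ 2 ≤
      A₃ * m ^ 2) :
    ∃ ρ : ℂ, riemannZeta ρ = 0 ∧ 1 / 2 ≤ ρ.re ∧ ‖ρ - pt 0 t‖ ≤ 6 * G / L := by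
  have hC₂0 : 0 < C₂ := by rw [hC₂]; positivity
  have hκ₀0 : 0 < κ₀ := by rw [hκ₀]; positivity
  have hκ₀1 : κ₀ ≤ 1 / 16 := by
    rw [hκ₀]
    apply one_div_le_one_div_of_le (by norm_num)
    linarith
  have hL0 : 0 < L := by linarith
  have hR0 : 0 < R := by rw [hR]; positivity
  have hR1 : R ≤ 1 / 600 := by
    rw [hR, div_le_iff₀ hL0]; linarith
  have hR100 : R ≤ 1 / 100 := by linarith
  have hLR : L * R = G := by rw [hR]; field_simp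
  have hL30 : 30 ≤ Real.log T := by rw [← hL]; linarith
  have hT600 : 600 ≤ T := by
    have h1 := Real.add_one_le_exp (Real.log T)
    rw [Real.exp_log hT0, ← hL] at h1
    linarith
  have ht100 : 100 ≤ t := by linarith
  have hpt0 : pt 0 t = 1 / 2 + t * I := by unfold pt; ring
  rw [hpt0] at n2
  have hK₁ : ∀ z : ℂ, ‖z - (1 / 2 + t * I)‖ ≤ 6 * R →
      ‖riemannZeta z‖ * m ≤ Real.exp (C₂ * G) := by
    intro z hz
    have h1 := hsup R hR0 hR100 t (z - (1 / 2 + t * I)) hz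
    have h2 : (1 / 2 + t * I + (z - (1 / 2 + t * I)) : ℂ) = z := by ring
    rw [h2] at h1
    exact K1_bound CS Cq c₄ G A₁ C₂ (Qf R t) _ m hCS hCq hc₄ hG1.le hA₁ hC₂ (norm_nonneg _)
      hm0.le h1 n1
  have hA₀ : ‖riemannZeta (1 / 2 + t * I)‖ * m ≤ Real.sqrt A₂ := by
    apply Real.le_sqrt_of_sq_le
    rw [mul_pow]; exact n2
  have hlogt : L / 2 ≤ Real.log (t / 2) := by
    rw [hL]; exact logt_le T t hT0 hL30 ht1
  have hlog2A : 0 ≤ Real.log (2 * A) := Real.log_nonneg (by linarith)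
  have hκ₃0 : 0 < κ₃ := by rw [hκ₃]; positivity
  have hκs1 : 2 * (Real.pi / 2 - φ₀) + 4 * κ₃ + A₃ / A ^ 2 ≤ κ₀ := by
    rw [hκ₃]
    linarith
  have hκs0 : 0 ≤ 2 * (Real.pi / 2 - φ₀) + 4 * κ₃ + A₃ / A ^ 2 := by
    have : 0 ≤ Real.pi / 2 - φ₀ := by linarith
    positivity
  have hκC : κ₀ * (2 * (C₂ * G)) ≤ G / 8 := by
    have h1 : κ₀ * (C₂ + 1) = 1 / 16 := by rw [hκ₀]; field_simp
    have h2 : κ₀ * C₂ ≤ 1 / 16 := by
      have : κ₀ * C₂ ≤ κ₀ * (C₂ + 1) := mul_le_mul_of_nonneg_left (by linarith) hκ₀0.le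
      linarith
    have h3 := mul_le_mul_of_nonneg_right h2 (show 0 ≤ 2 * G by linarith)
    linarith
  have h5 := num5 G R L (Real.log (t / 2)) _ κ₀ (C₂ * G) (Real.log (Real.sqrt A₂))
    (Real.log (2 * A)) (Real.log (1 / cχ)) X₀ hG1 hR0 hLR hlogt hκs0 hκs1 hκ₀1 (by positivity)
    hκC hlog2A hX₀ hg4
  have hκ1 : 2 * (Real.pi / 2 - φ₀) + 4 * κ₃ + A₃ / A ^ 2 < 1 := by
    have h0 : κ₀ < 1 := lt_of_le_of_lt hκ₀1 (by norm_num)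
    exact lt_of_le_of_lt hκs1 h0
  obtain ⟨ρ, hρ0, hρd⟩ := zdet t R m (C₂ * G) (Real.sqrt A₂) A A₃ κ₃ φ₀ cχ (Mo z₀)
    (continuous_Mo z₀) ht100 hR0 hR100 hm0 (by positivity) (Real.sqrt_pos.2 hA₂0) hA1 hA₃0.le
    hκ₃0.le hφ0 hφ1 hcχ0 hcχ1 (chi_conv Cχ cχ hcχ0 hcχC hchi) hK₁ hA₀ n3 n4 hκ1 h5
  obtain ⟨ρ', r1, r2, r3⟩ := reflect_zero t (6 * R) (by linarith) ρ hρ0 hρd
  refine ⟨ρ', r1, r2, ?_⟩
  rw [hpt0]
  refine r3.trans (le_of_eq ?_)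
  rw [hR]; ring

end Pool.Agent.H14.CO
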