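import Pool.Agent.H14.CO.Defs

/-!
# CO module LSamp: large sieve with slowly varying amplitudes
-/

set_option autoImplicit false

namespace Pool.Agent.H14.CO

open Set MeasureTheory Complex

theorem LSamp_summable : Summable fun m : ℤ => 8 / (1 + (m : ℝ) ^ 2) := by
  have h1 : Summable fun m : ℤ => 1 / (m : ℝ) ^ 2 := Real.summable_one_div_int_pow.2 (by norm_num)
  have h2 : Summable fun m : ℤ => 8 * (1 / (m : ℝ) ^ 2) + (if m = 0 then (8 : ℝ) else 0) :=
    (h1.mul_left 8).add (summable_of_ne_finset_zero (s := {0}) fun b hb => by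
      rw [Finset.mem_singleton] at hb
      rw [if_neg hb])
  refine Summable.of_nonneg_of_le (fun m => by positivity) (fun m => ?_) h2
  by_cases hm : m = 0
  · subst hm; simp
  · rw [if_neg hm, add_zero, mul_one_div]
    have h3 : (0 : ℝ) < (m : ℝ) ^ 2 := by positivity
    exact div_le_div_of_nonneg_left (by norm_num) h3 (by linarith)

theorem LSamp_floor (x : ℝ) : Real.exp (-x ^ 2 / 4) ≤ 8 / (1 + ((⌊x⌋ : ℤ) : ℝ) ^ 2) := by
  have h1 := Int.floor_le x
  have h2 := Int.lt_floor_add_one x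
  set m : ℝ := ((⌊x⌋ : ℤ) : ℝ)
  have h3 : m ^ 2 ≤ 2 * x ^ 2 + 2 := by nlinarith [sq_nonneg (x + (m - x)), sq_nonneg (m - 2 * x)]
  have h4 := Real.add_one_le_exp (x ^ 2 / 4)
  have h5 : Real.exp (-x ^ 2 / 4) = (Real.exp (x ^ 2 / 4))⁻¹ := by
    rw [← Real.exp_neg]; congr 1; ring
  have h6 : (0 : ℝ) < 1 + m ^ 2 := by positivity
  rw [h5, inv_le_comm₀ (Real.exp_pos _) (by positivity), inv_div, div_le_iff₀ (by norm_num)]
  nlinarith

/-- Gaussian sums over `1`-separated points. -/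
theorem LSamp_sep : ∃ C : ℝ, 0 < C ∧ ∀ (n : ℕ) (x : ℕ → ℝ),
    (∀ i < n, ∀ j < n, i ≠ j → 1 ≤ |x i - x j|) →
    ∑ j ∈ Finset.range n, Real.exp (-(x j) ^ 2 / 4) ≤ C := by
  refine ⟨(∑' m : ℤ, 8 / (1 + (m : ℝ) ^ 2)) + 1, ?_, fun n x hx => ?_⟩
  · have : 0 ≤ ∑' m : ℤ, 8 / (1 + (m : ℝ) ^ 2) := tsum_nonneg fun m => by positivity
    linarith
  have hinj : Set.InjOn (fun j => ⌊x j⌋) (Finset.range n : Set ℕ) := by
    intro i hi j hj hij
    by_contra hne
    have h1 := hx i (Finset.mem_range.1 hi) j (Finset.mem_range.1 hj) hne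
    have h2 := Int.abs_sub_lt_one_of_floor_eq_floor hij
    linarith
  calc ∑ j ∈ Finset.range n, Real.exp (-(x j) ^ 2 / 4)
      ≤ ∑ j ∈ Finset.range n, 8 / (1 + ((⌊x j⌋ : ℤ) : ℝ) ^ 2) :=
        Finset.sum_le_sum fun j _ => LSamp_floor (x j)
    _ = ∑ m ∈ (Finset.range n).image (fun j => ⌊x j⌋), 8 / (1 + (m : ℝ) ^ 2) := by
        rw [Finset.sum_image hinj]
    _ ≤ ∑' m : ℤ, 8 / (1 + (m : ℝ) ^ 2) :=
        LSamp_summable.sum_le_tsum _ fun m _ => by positivity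
    _ ≤ _ := by linarith

/-- The Gaussian weight. -/
theorem LSamp_wint (a : ℝ) {X : ℝ} (hX : 0 < X) :
    Integrable fun u : ℝ => Real.exp (-((u - a) / X) ^ 2) := by
  have h1 : Integrable fun u : ℝ => Real.exp (-(1 / X ^ 2) * u ^ 2) :=
    integrable_exp_neg_mul_sq (by positivity)
  have h2 := h1.comp_sub_right a
  refine h2.congr (Filter.Eventually.of_forall fun u => ?_)
  show Real.exp (-(1 / X ^ 2) * (u - a) ^ 2) = Real.exp (-((u - a) / X) ^ 2)
  congr 1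
  rw [div_pow]; ring

theorem LSamp_fourier (a : ℝ) {X : ℝ} (hX : 0 < X) (δ : ℝ) :
    ‖∫ u : ℝ, ((Real.exp (-((u - a) / X) ^ 2) : ℝ) : ℂ) * Complex.exp (-(δ * u * I))‖ =
      √Real.pi * X * Real.exp (-(X * δ) ^ 2 / 4) := by
  have h1 : (fun u : ℝ => ((Real.exp (-((u - a) / X) ^ 2) : ℝ) : ℂ) *
      Complex.exp (-(δ * u * I))) = fun u : ℝ => (fun v : ℝ => Complex.exp (-(δ * a * I)) *
        (Complex.exp (I * ((-δ : ℝ) : ℂ) * v) * Complex.exp (-((1 / X ^ 2 : ℝ) : ℂ) * v ^ 2)))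
          (u - a) := by
    funext u
    show _ = Complex.exp (-(δ * a * I)) * (Complex.exp (I * ((-δ : ℝ) : ℂ) * ((u - a : ℝ) : ℂ)) *
      Complex.exp (-((1 / X ^ 2 : ℝ) : ℂ) * ((u - a : ℝ) : ℂ) ^ 2))
    rw [← Complex.exp_add, ← Complex.exp_add, Complex.ofReal_exp, ← Complex.exp_add]
    congr 1
    push_cast
    field_simp
    ring
  rw [h1, integral_sub_right_eq_self (fun v : ℝ => Complex.exp (-(δ * a * I)) *
        (Complex.exp (I * ((-δ : ℝ) : ℂ) * v) * Complex.exp (-((1 / X ^ 2 : ℝ) : ℂ) * v ^ 2))) a,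
    integral_const_mul, norm_mul]
  have hb : (0 : ℝ) < ((1 / X ^ 2 : ℝ) : ℂ).re := by rw [Complex.ofReal_re]; positivity
  rw [fourierIntegral_gaussian hb, norm_mul]
  have h2 : ‖Complex.exp (-(δ * a * I))‖ = 1 := by
    rw [Complex.norm_exp]
    simp
  have h3 : ((Real.pi : ℂ) / ((1 / X ^ 2 : ℝ) : ℂ)) = ((Real.pi * X ^ 2 : ℝ) : ℂ) := by
    push_cast; field_simp
  have h4 : ‖((Real.pi : ℂ) / ((1 / X ^ 2 : ℝ) : ℂ)) ^ (1 / 2 : ℂ)‖ = √Real.pi * X := by
    rw [h3, Complex.norm_cpow_eq_rpow_re_of_pos (by positivity)]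
    have : (1 / 2 : ℂ).re = 1 / 2 := by norm_num
    rw [this, ← Real.sqrt_eq_rpow, Real.sqrt_mul Real.pi_pos.le, Real.sqrt_sq hX.le]
  have h5 : ‖Complex.exp (-((-δ : ℝ) : ℂ) ^ 2 / (4 * ((1 / X ^ 2 : ℝ) : ℂ)))‖ =
      Real.exp (-(X * δ) ^ 2 / 4) := by
    have : -((-δ : ℝ) : ℂ) ^ 2 / (4 * ((1 / X ^ 2 : ℝ) : ℂ)) = ((-(X * δ) ^ 2 / 4 : ℝ) : ℂ) := by
      push_cast; field_simp
    rw [this, Complex.norm_exp, Complex.ofReal_re]
  rw [h2, h4, h5, one_mul]

/-- Schur test. -/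
theorem LSamp_schur (n : ℕ) (c : ℕ → ℝ) (K : ℕ → ℕ → ℝ) (B : ℝ)
    (hK : ∀ i j, 0 ≤ K i j) (hs : ∀ i j, K i j = K j i)
    (hB : ∀ i < n, ∑ j ∈ Finset.range n, K i j ≤ B) :
    ∑ i ∈ Finset.range n, ∑ j ∈ Finset.range n, c i * c j * K i j ≤
      B * ∑ i ∈ Finset.range n, c i ^ 2 := by
  have h1 : ∀ i j, c i * c j * K i j ≤ (c i ^ 2 * K i j + c j ^ 2 * K i j) / 2 := by
    intro i j
    have := mul_nonneg (sq_nonneg (c i - c j)) (hK i j)
    nlinarith
  calc ∑ i ∈ Finset.range n, ∑ j ∈ Finset.range n, c i * c j * K i j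
      ≤ ∑ i ∈ Finset.range n, ∑ j ∈ Finset.range n, (c i ^ 2 * K i j + c j ^ 2 * K i j) / 2 :=
        Finset.sum_le_sum fun i _ => Finset.sum_le_sum fun j _ => h1 i j
    _ = (∑ i ∈ Finset.range n, ∑ j ∈ Finset.range n, c i ^ 2 * K i j +
          ∑ i ∈ Finset.range n, ∑ j ∈ Finset.range n, c j ^ 2 * K i j) / 2 := by
        simp only [← Finset.sum_div, Finset.sum_add_distrib]
    _ = ∑ i ∈ Finset.range n, ∑ j ∈ Finset.range n, c i ^ 2 * K i j := by
        have h2 : ∑ i ∈ Finset.range n, ∑ j ∈ Finset.range n, c j ^ 2 * K i j =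
            ∑ i ∈ Finset.range n, ∑ j ∈ Finset.range n, c i ^ 2 * K i j := by
          rw [Finset.sum_comm]
          exact Finset.sum_congr rfl fun i _ => Finset.sum_congr rfl fun j _ => by rw [hs j i]
        rw [h2]; ring
    _ = ∑ i ∈ Finset.range n, c i ^ 2 * ∑ j ∈ Finset.range n, K i j := by
        simp only [Finset.mul_sum]
    _ ≤ ∑ i ∈ Finset.range n, c i ^ 2 * B :=
        Finset.sum_le_sum fun i hi =>
          mul_le_mul_of_nonneg_left (hB i (Finset.mem_range.1 hi)) (sq_nonneg _)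
    _ = B * ∑ i ∈ Finset.range n, c i ^ 2 := by rw [← Finset.sum_mul, mul_comm]

theorem LSamp_cont (n : ℕ) (γ : ℕ → ℝ) (b : ℕ → ℂ) :
    Continuous fun u : ℝ => ∑ i ∈ Finset.range n, b i * Complex.exp (-(γ i * u * I)) := by
  fun_prop

/-- Expansion of the weighted mean square. -/
theorem LSamp_weighted (n : ℕ) (γ : ℕ → ℝ) (b : ℕ → ℂ) (a : ℝ) {X : ℝ} (hX : 0 < X) :
    Integrable (fun u : ℝ => Real.exp (-((u - a) / X) ^ 2) *
      ‖∑ i ∈ Finset.range n, b i * Complex.exp (-(γ i * u * I))‖ ^ 2) ∧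
    ∫ u : ℝ, Real.exp (-((u - a) / X) ^ 2) *
      ‖∑ i ∈ Finset.range n, b i * Complex.exp (-(γ i * u * I))‖ ^ 2 ≤
      ∑ i ∈ Finset.range n, ∑ j ∈ Finset.range n, ‖b i‖ * ‖b j‖ *
        (√Real.pi * X * Real.exp (-(X * (γ i - γ j)) ^ 2 / 4)) := by
  set w : ℝ → ℝ := fun u => Real.exp (-((u - a) / X) ^ 2) with hw
  have hexp : ∀ u : ℝ, ((w u * ‖∑ i ∈ Finset.range n,
      b i * Complex.exp (-(γ i * u * I))‖ ^ 2 : ℝ) : ℂ) =
      ∑ i ∈ Finset.range n, ∑ j ∈ Finset.range n, b i * (starRingEnd ℂ) (b j) *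
        (((w u : ℝ) : ℂ) * Complex.exp (-(((γ i - γ j : ℝ) : ℂ) * u * I))) := by
    intro u
    rw [← Complex.normSq_eq_norm_sq, Complex.ofReal_mul, ← Complex.mul_conj, map_sum,
      Finset.sum_mul_sum, Finset.mul_sum]
    refine Finset.sum_congr rfl fun i _ => ?_
    rw [Finset.mul_sum]
    refine Finset.sum_congr rfl fun j _ => ?_
    have h1 : (starRingEnd ℂ) (b j * Complex.exp (-(γ j * u * I))) =
        (starRingEnd ℂ) (b j) * Complex.exp (γ j * u * I) := by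
      rw [map_mul, ← Complex.exp_conj]
      congr 2
      simp
    have h2 : Complex.exp (-(((γ i - γ j : ℝ) : ℂ) * u * I)) =
        Complex.exp (-(γ i * u * I)) * Complex.exp (γ j * u * I) := by
      rw [← Complex.exp_add]; congr 1; push_cast; ring
    rw [h1, h2]; ring
  have hint : ∀ δ : ℝ, Integrable fun u : ℝ => ((w u : ℝ) : ℂ) *
      Complex.exp (-((δ : ℂ) * u * I)) := by
    intro δ
    refine (LSamp_wint a hX).mono' ?_ (Filter.Eventually.of_forall fun u => ?_)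
    · exact (by fun_prop : Continuous fun u : ℝ => ((Real.exp (-((u - a) / X) ^ 2) : ℝ) : ℂ) *
        Complex.exp (-((δ : ℂ) * u * I))).aestronglyMeasurable
    · rw [norm_mul, Complex.norm_real, Complex.norm_exp]
      simp [hw]
  have hint2 : ∀ i ∈ Finset.range n, ∀ j ∈ Finset.range n, Integrable fun u : ℝ =>
      b i * (starRingEnd ℂ) (b j) *
        (((w u : ℝ) : ℂ) * Complex.exp (-(((γ i - γ j : ℝ) : ℂ) * u * I))) :=
    fun i _ j _ => (hint _).const_mul _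
  have hint3 : Integrable fun u : ℝ => ((w u * ‖∑ i ∈ Finset.range n,
      b i * Complex.exp (-(γ i * u * I))‖ ^ 2 : ℝ) : ℂ) := by
    simp_rw [hexp]
    exact integrable_finsetSum _ fun i hi => integrable_finsetSum _ fun j hj => hint2 i hi j hj
  have hint4 : Integrable fun u : ℝ => w u * ‖∑ i ∈ Finset.range n,
      b i * Complex.exp (-(γ i * u * I))‖ ^ 2 := by
    have := hint3.re
    simpa only [RCLike.re_eq_complex_re, Complex.ofReal_re] using this
  refine ⟨hint4, ?_⟩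
  have h0 : 0 ≤ ∫ u : ℝ, w u * ‖∑ i ∈ Finset.range n,
      b i * Complex.exp (-(γ i * u * I))‖ ^ 2 := integral_nonneg fun u => by
    show 0 ≤ w u * _
    rw [hw]; positivity
  have h1 : ∫ u : ℝ, w u * ‖∑ i ∈ Finset.range n,
      b i * Complex.exp (-(γ i * u * I))‖ ^ 2 = ‖∫ u : ℝ, ((w u * ‖∑ i ∈ Finset.range n,
      b i * Complex.exp (-(γ i * u * I))‖ ^ 2 : ℝ) : ℂ)‖ := by
    rw [integral_complex_ofReal, Complex.norm_real, Real.norm_of_nonneg h0]
  rw [h1]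
  simp_rw [hexp]
  rw [integral_finsetSum _ fun i hi => integrable_finsetSum _ fun j hj => hint2 i hi j hj]
  refine (norm_sum_le _ _).trans (Finset.sum_le_sum fun i hi => ?_)
  rw [integral_finsetSum _ fun j hj => hint2 i hi j hj]
  refine (norm_sum_le _ _).trans (Finset.sum_le_sum fun j hj => ?_)
  rw [integral_const_mul, norm_mul, norm_mul, RCLike.norm_conj]
  exact mul_le_mul_of_nonneg_left (LSamp_fourier a hX (γ i - γ j)).le (by positivity)

/-- Constant amplitudes. PROOF. Majorise `1_{[a,a+ℓ]}` by `e · exp(-((u-a)/X)²)`-type Gaussian with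
`X = L + ℓ`, expand the square; the off-diagonal Gaussian Fourier coefficients
`√π X exp(-X² (γ_i-γ_j)²/4)` summed over `j` (for fixed `i`, the `γ_j` are `1/L`-separated and
`X ≥ L`) are `≤ C X`; `|b_i b_j| ≤ (|b_i|²+|b_j|²)/2`. -/
theorem ls_const : ∃ C : ℝ, 0 < C ∧ ∀ (n : ℕ) (γ : ℕ → ℝ) (L : ℝ), 1 ≤ L →
    (∀ i < n, ∀ j < n, i ≠ j → 1 / L ≤ |γ i - γ j|) → ∀ (b : ℕ → ℂ) (a ℓ : ℝ), 0 ≤ ℓ →
    ∫ u in a..(a + ℓ), ‖∑ i ∈ Finset.range n, b i * Complex.exp (-(γ i * u * I))‖ ^ 2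
      ≤ C * (L + ℓ) * ∑ i ∈ Finset.range n, ‖b i‖ ^ 2 := by
  obtain ⟨C₀, hC₀, hsep⟩ := LSamp_sep
  refine ⟨Real.exp 1 * (√Real.pi * C₀), by positivity, fun n γ L hL hγ b a ℓ hℓ => ?_⟩
  have hL0 : 0 < L := by linarith
  have hX : 0 < L + ℓ := by linarith
  obtain ⟨h1, h2⟩ := LSamp_weighted n γ b a hX
  set S : ℝ → ℝ := fun u => ‖∑ i ∈ Finset.range n, b i * Complex.exp (-(γ i * u * I))‖ ^ 2 with hS
  have hScont : Continuous S := (LSamp_cont n γ b).norm.pow 2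
  have h3 : ∫ u in a..(a + ℓ), S u ≤
      Real.exp 1 * ∫ u : ℝ, Real.exp (-((u - a) / (L + ℓ)) ^ 2) * S u := by
    rw [intervalIntegral.integral_of_le (by linarith), ← integral_const_mul]
    have h4 : Integrable fun u : ℝ => Real.exp 1 * (Real.exp (-((u - a) / (L + ℓ)) ^ 2) * S u) :=
      h1.const_mul _
    refine le_trans (setIntegral_mono_on (hScont.integrableOn_Ioc) h4.integrableOn
      measurableSet_Ioc fun u hu => ?_) (setIntegral_le_integral h4
        (Filter.Eventually.of_forall fun u => ?_))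
    · have h5 : 0 ≤ (u - a) / (L + ℓ) := div_nonneg (by linarith [hu.1]) hX.le
      have h6 : (u - a) / (L + ℓ) ≤ 1 := (div_le_one hX).2 (by linarith [hu.2])
      have h7 : 1 ≤ Real.exp 1 * Real.exp (-((u - a) / (L + ℓ)) ^ 2) := by
        rw [← Real.exp_add]
        apply Real.one_le_exp
        nlinarith
      rw [← mul_assoc]
      exact le_mul_of_one_le_left (sq_nonneg _) h7
    · show 0 ≤ Real.exp 1 * (Real.exp (-((u - a) / (L + ℓ)) ^ 2) * S u)
      have : 0 ≤ S u := sq_nonneg _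
      positivity
  have h4 : ∑ i ∈ Finset.range n, ∑ j ∈ Finset.range n, ‖b i‖ * ‖b j‖ *
        (√Real.pi * (L + ℓ) * Real.exp (-((L + ℓ) * (γ i - γ j)) ^ 2 / 4)) ≤
      (√Real.pi * (L + ℓ) * C₀) * ∑ i ∈ Finset.range n, ‖b i‖ ^ 2 := by
    refine LSamp_schur n (fun i => ‖b i‖) (fun i j => √Real.pi * (L + ℓ) *
      Real.exp (-((L + ℓ) * (γ i - γ j)) ^ 2 / 4)) _ (fun i j => by positivity) (fun i j => ?_)
      fun i hi => ?_
    · show √Real.pi * (L + ℓ) * Real.exp (-((L + ℓ) * (γ i - γ j)) ^ 2 / 4) =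
        √Real.pi * (L + ℓ) * Real.exp (-((L + ℓ) * (γ j - γ i)) ^ 2 / 4)
      congr 2
      ring
    · rw [← Finset.mul_sum]
      refine mul_le_mul_of_nonneg_left ?_ (by positivity)
      refine le_trans (Finset.sum_le_sum fun j _ => ?_)
        (hsep n (fun j => L * (γ j - γ i)) fun j hj k hk hjk => ?_)
      · apply Real.exp_le_exp.2
        have h5 : (L * (γ j - γ i)) ^ 2 ≤ ((L + ℓ) * (γ i - γ j)) ^ 2 := by
          rw [mul_pow, mul_pow, show (γ j - γ i) ^ 2 = (γ i - γ j) ^ 2 by ring]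
          exact mul_le_mul_of_nonneg_right (pow_le_pow_left₀ hL0.le (by linarith) 2)
            (sq_nonneg _)
        linarith
      · have h5 := hγ j hj k hk hjk
        rw [div_le_iff₀ hL0] at h5
        have h6 : L * (γ j - γ i) - L * (γ k - γ i) = L * (γ j - γ k) := by ring
        rw [h6, abs_mul, abs_of_pos hL0]
        linarith
  calc ∫ u in a..(a + ℓ), S u
      ≤ Real.exp 1 * ((√Real.pi * (L + ℓ) * C₀) * ∑ i ∈ Finset.range n, ‖b i‖ ^ 2) :=
        h3.trans (mul_le_mul_of_nonneg_left (h2.trans h4) (Real.exp_pos _).le)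
    _ = _ := by ring

/-- Cauchy-Schwarz for interval integrals of continuous functions. -/
theorem LSamp_cs {g : ℝ → ℝ} (hg : Continuous g) {a u : ℝ} (hau : a ≤ u) :
    (∫ v in a..u, g v) ^ 2 ≤ (u - a) * ∫ v in a..u, g v ^ 2 := by
  rcases hau.eq_or_lt with rfl | hlt
  · simp
  have hpos : 0 < u - a := by linarith
  set m : ℝ := (∫ v in a..u, g v) / (u - a) with hm
  have h1 : 0 ≤ ∫ v in a..u, (g v - m) ^ 2 :=
    intervalIntegral.integral_nonneg hau fun v _ => sq_nonneg _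
  have h2 : ∫ v in a..u, (g v - m) ^ 2 =
      (∫ v in a..u, g v ^ 2) - 2 * m * (∫ v in a..u, g v) + m ^ 2 * (u - a) := by
    have h3 : ∀ v, (g v - m) ^ 2 = g v ^ 2 - 2 * m * g v + m ^ 2 := fun v => by ring
    simp_rw [h3]
    rw [intervalIntegral.integral_add, intervalIntegral.integral_sub,
      intervalIntegral.integral_const_mul, intervalIntegral.integral_const, smul_eq_mul]
    · ring
    · exact (hg.pow 2).intervalIntegrable _ _
    · exact (hg.const_mul _).intervalIntegrable _ _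
    · exact ((hg.pow 2).sub (hg.const_mul _)).intervalIntegrable _ _
    · exact continuous_const.intervalIntegrable _ _
  have h4 : (∫ v in a..u, g v) = m * (u - a) := by rw [hm]; field_simp
  rw [h2, h4] at h1
  rw [h4]
  nlinarith

/-- PROOF. `f i u = f i a + ∫_a^u f' i v dv`, so
`‖∑ e^{-iγ_i u} f i u‖² ≤ 2‖∑ e^{-iγ_i u} f i a‖² + 2 ℓ ∫_a^{a+ℓ} ‖∑ e^{-iγ_i u} f' i v‖² dv`
(Cauchy–Schwarz), integrate over `u ∈ [a,a+ℓ]` and use `ls_const` for each fixed `v`. -/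
theorem ls_amp : ∃ C : ℝ, 0 < C ∧ ∀ (n : ℕ) (γ : ℕ → ℝ) (L : ℝ), 1 ≤ L →
    (∀ i < n, ∀ j < n, i ≠ j → 1 / L ≤ |γ i - γ j|) → ∀ (f f' : ℕ → ℝ → ℂ) (a ℓ : ℝ), 0 ≤ ℓ →
    (∀ i < n, ∀ u : ℝ, HasDerivAt (f i) (f' i u) u) → (∀ i < n, Continuous (f' i)) →
    ∫ u in a..(a + ℓ), ‖∑ i ∈ Finset.range n, Complex.exp (-(γ i * u * I)) * f i u‖ ^ 2
      ≤ C * (L + ℓ) * (∑ i ∈ Finset.range n, ‖f i a‖ ^ 2 +
        ℓ * ∫ v in a..(a + ℓ), ∑ i ∈ Finset.range n, ‖f' i v‖ ^ 2) := by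
  obtain ⟨C, hC, hls⟩ := ls_const
  refine ⟨2 * C, by positivity, fun n γ L hL hγ f f' a ℓ hℓ hd hc => ?_⟩
  have hle : a ≤ a + ℓ := by linarith
  set T : ℝ → ℝ → ℂ := fun u v =>
    ∑ i ∈ Finset.range n, f' i v * Complex.exp (-(γ i * u * I)) with hT
  have hTc : Continuous fun p : ℝ × ℝ => T p.1 p.2 := by
    refine continuous_finsetSum _ fun i hi => ?_
    have h1 := hc i (Finset.mem_range.1 hi)
    exact (h1.comp continuous_snd).mul (by fun_prop)
  have hTv : ∀ u, Continuous fun v => T u v := fun u =>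
    hTc.comp (by fun_prop : Continuous fun v : ℝ => (u, v))
  have hTn : Continuous fun p : ℝ × ℝ => ‖T p.1 p.2‖ ^ 2 := hTc.norm.pow 2
  have hfc : ∀ i < n, Continuous (f i) := fun i hi =>
    continuous_iff_continuousAt.2 fun u => (hd i hi u).continuousAt
  -- pointwise bound
  have hpt : ∀ u ∈ Icc a (a + ℓ),
      ‖∑ i ∈ Finset.range n, Complex.exp (-(γ i * u * I)) * f i u‖ ^ 2 ≤
        2 * ‖∑ i ∈ Finset.range n, f i a * Complex.exp (-(γ i * u * I))‖ ^ 2 +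
          2 * ℓ * ∫ v in a..(a + ℓ), ‖T u v‖ ^ 2 := by
    intro u hu
    have h1 : ∑ i ∈ Finset.range n, Complex.exp (-(γ i * u * I)) * f i u =
        (∑ i ∈ Finset.range n, f i a * Complex.exp (-(γ i * u * I))) + ∫ v in a..u, T u v := by
      rw [hT]
      show _ = _ + ∫ v in a..u, ∑ i ∈ Finset.range n, f' i v * Complex.exp (-(γ i * u * I))
      rw [intervalIntegral.integral_finsetSum, ← Finset.sum_add_distrib]
      · refine Finset.sum_congr rfl fun i hi => ?_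
        have h2 := hc i (Finset.mem_range.1 hi)
        rw [intervalIntegral.integral_mul_const,
          intervalIntegral.integral_eq_sub_of_hasDerivAt
            (fun x _ => hd i (Finset.mem_range.1 hi) x) (h2.intervalIntegrable _ _)]
        ring
      · intro i hi
        exact ((hc i (Finset.mem_range.1 hi)).mul continuous_const).intervalIntegrable _ _
    have h2 : ‖∫ v in a..u, T u v‖ ^ 2 ≤ ℓ * ∫ v in a..(a + ℓ), ‖T u v‖ ^ 2 := by
      have h3 : ‖∫ v in a..u, T u v‖ ≤ ∫ v in a..u, ‖T u v‖ :=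
        intervalIntegral.norm_integral_le_integral_norm hu.1
      have h4 := LSamp_cs (hTv u).norm hu.1
      have h5 : ∫ v in a..u, ‖T u v‖ ^ 2 ≤ ∫ v in a..(a + ℓ), ‖T u v‖ ^ 2 :=
        intervalIntegral.integral_mono_interval le_rfl hu.1 hu.2
          (Filter.Eventually.of_forall fun v => sq_nonneg _)
          (((hTv u).norm.pow 2).intervalIntegrable _ _)
      have h6 : 0 ≤ ∫ v in a..u, ‖T u v‖ ^ 2 :=
        intervalIntegral.integral_nonneg hu.1 fun v _ => sq_nonneg _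
      calc ‖∫ v in a..u, T u v‖ ^ 2 ≤ (∫ v in a..u, ‖T u v‖) ^ 2 :=
            pow_le_pow_left₀ (norm_nonneg _) h3 2
        _ ≤ (u - a) * ∫ v in a..u, ‖T u v‖ ^ 2 := h4
        _ ≤ ℓ * ∫ v in a..(a + ℓ), ‖T u v‖ ^ 2 :=
            mul_le_mul (by linarith [hu.2]) h5 h6 hℓ
    rw [h1]
    have h3 := norm_add_le (∑ i ∈ Finset.range n, f i a * Complex.exp (-(γ i * u * I)))
      (∫ v in a..u, T u v)
    have h4 : ‖(∑ i ∈ Finset.range n, f i a * Complex.exp (-(γ i * u * I))) +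
        ∫ v in a..u, T u v‖ ^ 2 ≤
        2 * ‖∑ i ∈ Finset.range n, f i a * Complex.exp (-(γ i * u * I))‖ ^ 2 +
          2 * ‖∫ v in a..u, T u v‖ ^ 2 := by
      have h5 := pow_le_pow_left₀ (norm_nonneg _) h3 2
      have h6 := add_sq_le (a := ‖∑ i ∈ Finset.range n, f i a * Complex.exp (-(γ i * u * I))‖)
        (b := ‖∫ v in a..u, T u v‖)
      linarith
    linarith
  have hIc : Continuous fun u : ℝ => ∫ v in a..(a + ℓ), ‖T u v‖ ^ 2 :=
    intervalIntegral.continuous_parametric_intervalIntegral_of_continuous' hTn a (a + ℓ)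
  have hswap : ∫ u in a..(a + ℓ), ∫ v in a..(a + ℓ), ‖T u v‖ ^ 2 =
      ∫ v in a..(a + ℓ), ∫ u in a..(a + ℓ), ‖T u v‖ ^ 2 := by
    refine intervalIntegral_intervalIntegral_swap (F := fun u v => ‖T u v‖ ^ 2) ?_
    have h1 : IntegrableOn (Function.uncurry fun u v => ‖T u v‖ ^ 2)
        (uIcc a (a + ℓ) ×ˢ uIcc a (a + ℓ)) :=
      ContinuousOn.integrableOn_compact (isCompact_uIcc.prod isCompact_uIcc) hTn.continuousOn
    exact h1.mono_set (prod_mono uIoc_subset_uIcc uIoc_subset_uIcc)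
  have hin : ∀ v, ∫ u in a..(a + ℓ), ‖T u v‖ ^ 2 ≤
      C * (L + ℓ) * ∑ i ∈ Finset.range n, ‖f' i v‖ ^ 2 := fun v =>
    hls n γ L hL hγ (fun i => f' i v) a ℓ hℓ
  have hF'c : Continuous fun v => ∑ i ∈ Finset.range n, ‖f' i v‖ ^ 2 :=
    continuous_finsetSum _ fun i hi => ((hc i (Finset.mem_range.1 hi)).norm.pow 2)
  have hLHS : Continuous fun u : ℝ =>
      ‖∑ i ∈ Finset.range n, Complex.exp (-(γ i * u * I)) * f i u‖ ^ 2 := by
    refine (continuous_finsetSum _ fun i hi => ?_).norm.pow 2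
    have h1 := hfc i (Finset.mem_range.1 hi)
    exact (by fun_prop : Continuous fun u : ℝ => Complex.exp (-(γ i * u * I))).mul h1
  have hA : Continuous fun u : ℝ =>
      ‖∑ i ∈ Finset.range n, f i a * Complex.exp (-(γ i * u * I))‖ ^ 2 :=
    (LSamp_cont n γ fun i => f i a).norm.pow 2
  calc ∫ u in a..(a + ℓ), ‖∑ i ∈ Finset.range n, Complex.exp (-(γ i * u * I)) * f i u‖ ^ 2
      ≤ ∫ u in a..(a + ℓ), (2 * ‖∑ i ∈ Finset.range n, f i a * Complex.exp (-(γ i * u * I))‖ ^ 2 +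
          2 * ℓ * ∫ v in a..(a + ℓ), ‖T u v‖ ^ 2) :=
        intervalIntegral.integral_mono_on hle (hLHS.intervalIntegrable _ _)
          (((hA.const_mul _).add (hIc.const_mul _)).intervalIntegrable _ _) hpt
    _ = 2 * (∫ u in a..(a + ℓ), ‖∑ i ∈ Finset.range n, f i a * Complex.exp (-(γ i * u * I))‖ ^ 2) +
          2 * ℓ * ∫ u in a..(a + ℓ), ∫ v in a..(a + ℓ), ‖T u v‖ ^ 2 := by
        rw [intervalIntegral.integral_add ((hA.const_mul _).intervalIntegrable _ _)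
          ((hIc.const_mul _).intervalIntegrable _ _), intervalIntegral.integral_const_mul,
          intervalIntegral.integral_const_mul]
    _ ≤ 2 * (C * (L + ℓ) * ∑ i ∈ Finset.range n, ‖f i a‖ ^ 2) +
          2 * ℓ * ∫ v in a..(a + ℓ), C * (L + ℓ) * ∑ i ∈ Finset.range n, ‖f' i v‖ ^ 2 := by
        rw [hswap]
        have h1 := hls n γ L hL hγ (fun i => f i a) a ℓ hℓ
        have h2 : ∫ v in a..(a + ℓ), ∫ u in a..(a + ℓ), ‖T u v‖ ^ 2 ≤
            ∫ v in a..(a + ℓ), C * (L + ℓ) * ∑ i ∈ Finset.range n, ‖f' i v‖ ^ 2 :=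
          intervalIntegral.integral_mono_on hle
            ((intervalIntegral.continuous_parametric_intervalIntegral_of_continuous'
              (f := fun v u => ‖T u v‖ ^ 2) (hTn.comp continuous_swap) a
                (a + ℓ)).intervalIntegrable _ _)
            ((hF'c.const_mul _).intervalIntegrable _ _) fun v _ => hin v
        have h3 := mul_le_mul_of_nonneg_left h2 (by positivity : 0 ≤ 2 * ℓ)
        linarith
    _ = _ := by
        rw [intervalIntegral.integral_const_mul]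
        ring

end Pool.Agent.H14.CO
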