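import Pool.Agent.H14.CO.MobCop
import Pool.Agent.H14.CO.LamB

/-!
# CO module LamIn: sums of the weights over integers with given gcd with `r`
-/

set_option autoImplicit false

namespace Pool.Agent.H14.CO

open Set MeasureTheory Complex

theorem LamIn_sg_nonneg (r : ℕ) : 0 ≤ sg r := by
  unfold sg
  refine Finset.prod_nonneg fun p hp => ?_
  have hp1 : (1 : ℝ) ≤ p := by exact_mod_cast (Nat.prime_of_mem_primeFactors hp).one_le
  have : 1 / (p : ℝ) ≤ 1 := (div_le_one (by linarith)).2 hp1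
  exact inv_nonneg.2 (by linarith)

theorem LamIn_bound {C : ℝ} (hC : 0 < C) {r g : ℕ} {X : ℝ} {u : ℂ}
    (h : ‖∑ e ∈ (Finset.Icc 1 ⌊X⌋₊).filter (fun e => Nat.Coprime e r),
      ((ArithmeticFunction.moebius e : ℤ) : ℂ) * (e : ℂ) ^ (-(1 + u)) * (Real.log (X / e) : ℂ)‖
      ≤ C * sg r * X ^ |u.re| * (1 + ‖u‖ * Real.log X) ^ 2)
    {z₀ : ℝ} (hz : 2 ≤ z₀) (hg : 0 < g) (hX : 1 ≤ X) (hXg : X * g ≤ z₀ ^ 2) :
    ‖(g : ℂ) ^ (-(1 + u)) * ∑ e ∈ (Finset.Icc 1 ⌊X⌋₊).filter (fun e => Nat.Coprime e r),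
      ((ArithmeticFunction.moebius e : ℤ) : ℂ) * (e : ℂ) ^ (-(1 + u)) * (Real.log (X / e) : ℂ)‖
      ≤ 4 * C * sg r * (1 / g) * z₀ ^ (2 * |u.re|) * (1 + ‖u‖ * Real.log z₀) ^ 2 := by
  have hg1 : (1 : ℝ) ≤ g := by exact_mod_cast hg
  have hg0 : (0 : ℝ) < g := by linarith
  have hX0 : 0 < X := by linarith
  have hz0 : 0 < z₀ := by linarith
  have ha : 0 ≤ |u.re| := abs_nonneg _
  have hlz : 0 ≤ Real.log z₀ := Real.log_nonneg (by linarith)
  have hlX : 0 ≤ Real.log X := Real.log_nonneg hX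
  rw [norm_mul, Complex.norm_natCast_cpow_of_pos hg]
  have hre : (-(1 + u)).re = -(1 + u.re) := by simp
  rw [hre]
  have hXz : X ≤ z₀ ^ 2 := le_trans (le_mul_of_one_le_right hX0.le hg1) hXg
  have hlog : Real.log X ≤ 2 * Real.log z₀ := by
    have h1 := Real.log_le_log hX0 hXz
    rw [Real.log_pow] at h1
    exact_mod_cast h1
  have hsq : (1 + ‖u‖ * Real.log X) ^ 2 ≤ 4 * (1 + ‖u‖ * Real.log z₀) ^ 2 := by
    have h1 : 1 + ‖u‖ * Real.log X ≤ 2 * (1 + ‖u‖ * Real.log z₀) := by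
      nlinarith [mul_le_mul_of_nonneg_left hlog (norm_nonneg u)]
    have h2 : 0 ≤ 1 + ‖u‖ * Real.log X := by positivity
    calc (1 + ‖u‖ * Real.log X) ^ 2 ≤ (2 * (1 + ‖u‖ * Real.log z₀)) ^ 2 := pow_le_pow_left₀ h2 h1 2
      _ = 4 * (1 + ‖u‖ * Real.log z₀) ^ 2 := by ring
  have hpow : (g : ℝ) ^ (-(1 + u.re)) * X ^ |u.re| ≤ (1 / g) * z₀ ^ (2 * |u.re|) := by
    have h1 : X ^ |u.re| ≤ (z₀ ^ 2 / g) ^ |u.re| :=
      Real.rpow_le_rpow hX0.le ((le_div_iff₀ hg0).2 hXg) ha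
    have h2 : (z₀ ^ 2 / g : ℝ) ^ |u.re| = z₀ ^ (2 * |u.re|) / (g : ℝ) ^ |u.re| := by
      rw [Real.div_rpow (by positivity) hg0.le]
      congr 1
      rw [Real.rpow_mul hz0.le]
      norm_num
    have h3 : (g : ℝ) ^ (-(1 + u.re)) = (1 / g) * (g : ℝ) ^ (-u.re) := by
      rw [show -(1 + u.re) = -1 + -u.re by ring, Real.rpow_add hg0, Real.rpow_neg_one, one_div]
    have h4 : (g : ℝ) ^ (-u.re) ≤ (g : ℝ) ^ |u.re| :=
      Real.rpow_le_rpow_of_exponent_le hg1 (neg_le_abs _)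
    have h5 : 0 < (g : ℝ) ^ |u.re| := Real.rpow_pos_of_pos hg0 _
    have h6 : 0 ≤ z₀ ^ (2 * |u.re|) := Real.rpow_nonneg hz0.le _
    rw [h3]
    calc (1 / (g : ℝ)) * (g : ℝ) ^ (-u.re) * X ^ |u.re|
        ≤ (1 / (g : ℝ)) * (g : ℝ) ^ |u.re| * (z₀ ^ (2 * |u.re|) / (g : ℝ) ^ |u.re|) := by
          rw [← h2]
          gcongr
      _ = (1 / g) * z₀ ^ (2 * |u.re|) := by
          field_simp
  have hsg := LamIn_sg_nonneg r
  have hgp : 0 ≤ (g : ℝ) ^ (-(1 + u.re)) := Real.rpow_nonneg hg0.le _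
  calc (g : ℝ) ^ (-(1 + u.re)) * ‖∑ e ∈ (Finset.Icc 1 ⌊X⌋₊).filter (fun e => Nat.Coprime e r),
      ((ArithmeticFunction.moebius e : ℤ) : ℂ) * (e : ℂ) ^ (-(1 + u)) * (Real.log (X / e) : ℂ)‖
      ≤ (g : ℝ) ^ (-(1 + u.re)) * (C * sg r * X ^ |u.re| * (1 + ‖u‖ * Real.log X) ^ 2) :=
        mul_le_mul_of_nonneg_left h hgp
    _ = (C * sg r) * ((g : ℝ) ^ (-(1 + u.re)) * X ^ |u.re|) * (1 + ‖u‖ * Real.log X) ^ 2 := by ring
    _ ≤ (C * sg r) * ((1 / g) * z₀ ^ (2 * |u.re|)) * (4 * (1 + ‖u‖ * Real.log z₀) ^ 2) := by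
        have h7 : 0 ≤ C * sg r := mul_nonneg hC.le hsg
        have h8 : 0 ≤ (1 / (g : ℝ)) * z₀ ^ (2 * |u.re|) := by positivity
        exact mul_le_mul (mul_le_mul_of_nonneg_left hpow h7) hsq (by positivity) (mul_nonneg h7 h8)
    _ = 4 * C * sg r * (1 / g) * z₀ ^ (2 * |u.re|) * (1 + ‖u‖ * Real.log z₀) ^ 2 := by ring

/-- reindexing of the sum over the multiples of `g` -/
theorem LamIn_reindex {z₀ : ℝ} {r g : ℕ} (hr : Squarefree r) (hgr : g ∣ r) (f : ℕ → ℂ)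
    (hf : ∀ d, ArithmeticFunction.moebius d = 0 → f d = 0) :
    ∑ d ∈ (Finset.Icc 1 ⌊z₀ ^ 2⌋₊).filter (fun d => Nat.gcd d r = g), f d =
      ∑ e ∈ (Finset.Icc 1 ⌊z₀ ^ 2 / g⌋₊).filter (fun e => Nat.Coprime e r), f (g * e) := by
  classical
  have hr0 : r ≠ 0 := hr.ne_zero
  have hg : 0 < g := Nat.pos_of_dvd_of_pos hgr (Nat.pos_of_ne_zero hr0)
  have hg0 : (0 : ℝ) < g := by exact_mod_cast hg
  have hz2 : (0 : ℝ) ≤ z₀ ^ 2 := sq_nonneg z₀
  have hinj : Function.Injective fun e : ℕ => g * e := fun a b h => Nat.eq_of_mul_eq_mul_left hg h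
  rw [← Finset.sum_image (f := f) (g := fun e : ℕ => g * e) (fun a _ b _ h => hinj h)]
  symm
  refine Finset.sum_subset ?_ ?_
  · intro d hd
    rw [Finset.mem_image] at hd
    obtain ⟨e, he, rfl⟩ := hd
    rw [Finset.mem_filter, Finset.mem_Icc] at he
    obtain ⟨⟨he1, he2⟩, hcop⟩ := he
    rw [Finset.mem_filter, Finset.mem_Icc]
    refine ⟨⟨Nat.mul_pos hg he1, ?_⟩, ?_⟩
    · rw [Nat.le_floor_iff hz2]
      have h1 := (Nat.le_floor_iff (by positivity)).1 he2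
      rw [le_div_iff₀ hg0] at h1
      push_cast
      linarith
    · rw [Nat.Coprime.gcd_mul_right_cancel g hcop]
      exact Nat.gcd_eq_left hgr
  · intro d hd hdn
    apply hf
    by_contra hmu
    have hsq : Squarefree d := ArithmeticFunction.moebius_ne_zero_iff_squarefree.1 hmu
    rw [Finset.mem_filter, Finset.mem_Icc] at hd
    obtain ⟨⟨hd1, hd2⟩, hgcd⟩ := hd
    have hgd : g ∣ d := hgcd ▸ Nat.gcd_dvd_left d r
    obtain ⟨e, rfl⟩ := hgd
    have he0 : 0 < e := Nat.pos_of_ne_zero (by rintro rfl; simp at hd1)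
    apply hdn
    rw [Finset.mem_image]
    refine ⟨e, ?_, rfl⟩
    rw [Finset.mem_filter, Finset.mem_Icc]
    refine ⟨⟨he0, ?_⟩, ?_⟩
    · rw [Nat.le_floor_iff (by positivity), le_div_iff₀ hg0]
      have h1 := (Nat.le_floor_iff hz2).1 hd2
      push_cast at h1
      linarith
    · have hge : Nat.Coprime g e := Nat.coprime_of_squarefree_mul hsq
      by_contra hnc
      obtain ⟨p, hp, hpe, hpr⟩ := Nat.Prime.not_coprime_iff_dvd.1 hnc
      have h1 : p ∣ Nat.gcd (g * e) r := Nat.dvd_gcd (hpe.mul_left g) hpr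
      rw [hgcd] at h1
      exact Nat.Prime.not_coprime_iff_dvd.2 ⟨p, hp, h1, hpe⟩ hge

/-- The sum over multiples of one factor.

PROOF. `d = g e` with `(e, r) = 1` (as `lam z₀ d = 0` unless `d` is squarefree),
`lam z₀ (g e) = μ(g) μ(e) (log⁺(z₀²/(g e)) - log⁺(z₀/(g e)))/log z₀`, so the sum is
`μ(g) g^{-(1+u)} (m_r(z₀²/g) - m_r(z₀/g))/log z₀` (each term present only if `g ≤ z₀²`, `g ≤ z₀`),
`moebius_cop`: each is `≤ C sg(r) (z₀²)^{|Re u|} (1+2‖u‖ log z₀)²`, with `g^{-Re u} (z₀²/g)^{|Re u|} ≤ z₀^{2|Re u|}`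
(if `g ≤ z₀²`). -/
theorem lam_inner : ∃ C : ℝ, 0 < C ∧ ∀ z₀ : ℝ, 2 ≤ z₀ → ∀ (r g : ℕ), Squarefree r → g ∣ r → ∀ u : ℂ,
    ‖∑ d ∈ (Finset.Icc 1 ⌊z₀ ^ 2⌋₊).filter (fun d => Nat.gcd d r = g),
      (lam z₀ d : ℂ) * (d : ℂ) ^ (-(1 + u))‖
      ≤ C / Real.log z₀ * sg r * (1 / g) * z₀ ^ (2 * |u.re|) * (1 + ‖u‖ * Real.log z₀) ^ 2 := by
  obtain ⟨C, hC, hmc⟩ := moebius_cop
  refine ⟨8 * C, by positivity, fun z₀ hz r g hr hgr u => ?_⟩
  have hr0 : r ≠ 0 := hr.ne_zero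
  have hg : 0 < g := Nat.pos_of_dvd_of_pos hgr (Nat.pos_of_ne_zero hr0)
  have hg1 : (1 : ℝ) ≤ g := by exact_mod_cast hg
  have hg0 : (0 : ℝ) < g := by linarith
  have hz0 : 0 < z₀ := by linarith
  have hlz : 0 < Real.log z₀ := Real.log_pos (by linarith)
  have hsg := LamIn_sg_nonneg r
  set B : ℝ := 4 * C * sg r * (1 / g) * z₀ ^ (2 * |u.re|) * (1 + ‖u‖ * Real.log z₀) ^ 2 with hB
  have hB0 : 0 ≤ B := by positivity
  -- the two Moebius sums
  let Sm : ℝ → ℂ := fun Y => (g : ℂ) ^ (-(1 + u)) *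
    ∑ e ∈ (Finset.Icc 1 ⌊z₀ ^ 2 / g⌋₊).filter (fun e => Nat.Coprime e r),
      ((ArithmeticFunction.moebius e : ℤ) : ℂ) * (e : ℂ) ^ (-(1 + u)) *
        ((max 0 (Real.log (Y / (g * e))) : ℝ) : ℂ)
  have hSm : ∀ Y : ℝ, 0 < Y → Y ≤ z₀ ^ 2 → ‖Sm Y‖ ≤ B := by
    intro Y hY0 hY
    rcases lt_or_ge (Y / g) 1 with hlt | hge
    · have h0 : Sm Y = 0 := by
        simp only [Sm]
        rw [Finset.sum_eq_zero, mul_zero]
        intro e he
        rw [Finset.mem_filter, Finset.mem_Icc] at he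
        have he1 : (1 : ℝ) ≤ e := by exact_mod_cast he.1.1
        have h1 : Real.log (Y / (g * e)) ≤ 0 := by
          apply Real.log_nonpos (by positivity)
          rw [div_lt_one hg0] at hlt
          rw [div_le_one (by positivity)]
          nlinarith
        rw [max_eq_left h1]
        simp
      rw [h0, norm_zero]
      exact hB0
    · have h1 : Sm Y = (g : ℂ) ^ (-(1 + u)) *
          ∑ e ∈ (Finset.Icc 1 ⌊Y / g⌋₊).filter (fun e => Nat.Coprime e r),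
            ((ArithmeticFunction.moebius e : ℤ) : ℂ) * (e : ℂ) ^ (-(1 + u)) *
              (Real.log (Y / g / e) : ℂ) := by
        simp only [Sm]
        congr 1
        symm
        have hsub : (Finset.Icc 1 ⌊Y / g⌋₊).filter (fun e => Nat.Coprime e r) ⊆
            (Finset.Icc 1 ⌊z₀ ^ 2 / g⌋₊).filter (fun e => Nat.Coprime e r) := by
          refine Finset.filter_subset_filter _ (Finset.Icc_subset_Icc_right ?_)
          exact Nat.floor_le_floor (div_le_div_of_nonneg_right hY hg0.le)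
        have hz' : ∀ e ∈ (Finset.Icc 1 ⌊z₀ ^ 2 / g⌋₊).filter (fun e => Nat.Coprime e r),
            e ∉ (Finset.Icc 1 ⌊Y / g⌋₊).filter (fun e => Nat.Coprime e r) →
            ((ArithmeticFunction.moebius e : ℤ) : ℂ) * (e : ℂ) ^ (-(1 + u)) *
              ((max 0 (Real.log (Y / (g * e))) : ℝ) : ℂ) = 0 := by
          intro e he hne
          rw [Finset.mem_filter, Finset.mem_Icc] at he hne
          have he1 : (1 : ℝ) ≤ e := by exact_mod_cast he.1.1
          have h2 : ⌊Y / g⌋₊ < e := by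
            by_contra hcon
            exact hne ⟨⟨he.1.1, not_lt.1 hcon⟩, he.2⟩
          have h3 : Y / g < e := (Nat.floor_lt (by positivity)).1 h2
          have h1 : Real.log (Y / (g * e)) ≤ 0 := by
            apply Real.log_nonpos (by positivity)
            rw [div_le_one (by positivity)]
            rw [div_lt_iff₀ hg0] at h3
            nlinarith
          rw [max_eq_left h1]
          simp
        rw [← Finset.sum_subset hsub hz']
        refine Finset.sum_congr rfl fun e he => ?_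
        rw [Finset.mem_filter, Finset.mem_Icc] at he
        have he1 : (1 : ℝ) ≤ e := by exact_mod_cast he.1.1
        have h3 : (e : ℝ) ≤ Y / g := (Nat.le_floor_iff (by positivity)).1 he.1.2
        have h4 : 0 ≤ Real.log (Y / (g * e)) := by
          apply Real.log_nonneg
          rw [le_div_iff₀ hg0] at h3
          rw [one_le_div (by positivity)]
          nlinarith
        rw [max_eq_right h4, div_div]
      rw [h1]
      refine LamIn_bound hC (hmc r hr0 (Y / g) hge u) hz hg hge ?_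
      rw [div_mul_cancel₀ _ hg0.ne']
      exact hY
  have hre := LamIn_reindex (z₀ := z₀) hr hgr (fun d => (lam z₀ d : ℂ) * (d : ℂ) ^ (-(1 + u))) (by
    intro d hd
    simp only [lam, hd]
    simp)
  rw [hre]
  have hmain : ∑ e ∈ (Finset.Icc 1 ⌊z₀ ^ 2 / g⌋₊).filter (fun e => Nat.Coprime e r),
      (lam z₀ (g * e) : ℂ) * ((g * e : ℕ) : ℂ) ^ (-(1 + u)) =
      (((ArithmeticFunction.moebius g : ℤ) : ℂ) / (Real.log z₀ : ℂ)) * (Sm (z₀ ^ 2) - Sm z₀) := by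
    simp only [Sm]
    rw [← mul_sub, ← Finset.sum_sub_distrib, Finset.mul_sum, Finset.mul_sum]
    refine Finset.sum_congr rfl fun e he => ?_
    rw [Finset.mem_filter, Finset.mem_Icc] at he
    have hge : Nat.Coprime g e := (Nat.Coprime.coprime_dvd_right hgr he.2).symm
    have hmul : ((ArithmeticFunction.moebius (g * e) : ℤ) : ℝ) =
        ((ArithmeticFunction.moebius g : ℤ) : ℝ) * ((ArithmeticFunction.moebius e : ℤ) : ℝ) := by
      rw [ArithmeticFunction.isMultiplicative_moebius.map_mul_of_coprime hge]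
      push_cast
      rfl
    have hcp : ((g * e : ℕ) : ℂ) ^ (-(1 + u)) = (g : ℂ) ^ (-(1 + u)) * (e : ℂ) ^ (-(1 + u)) := by
      rw [Nat.cast_mul, Complex.natCast_mul_natCast_cpow]
    rw [hcp]
    unfold lam
    rw [hmul]
    push_cast
    ring
  rw [hmain, norm_mul, norm_div, Complex.norm_real, Real.norm_of_nonneg hlz.le]
  have hmu : ‖((ArithmeticFunction.moebius g : ℤ) : ℂ)‖ ≤ 1 := by
    rw [Complex.norm_intCast]
    exact_mod_cast ArithmeticFunction.abs_moebius_le_one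
  have h5 : ‖Sm (z₀ ^ 2) - Sm z₀‖ ≤ 2 * B := by
    have h6 := norm_sub_le (Sm (z₀ ^ 2)) (Sm z₀)
    have h7 := hSm (z₀ ^ 2) (by positivity) le_rfl
    have h8 := hSm z₀ hz0 (by nlinarith)
    linarith
  calc ‖((ArithmeticFunction.moebius g : ℤ) : ℂ)‖ / Real.log z₀ * ‖Sm (z₀ ^ 2) - Sm z₀‖
      ≤ 1 / Real.log z₀ * (2 * B) := by
        refine mul_le_mul (div_le_div_of_nonneg_right hmu hlz.le) h5 (norm_nonneg _) (by positivity)
    _ = 8 * C / Real.log z₀ * sg r * (1 / g) * z₀ ^ (2 * |u.re|) * (1 + ‖u‖ * Real.log z₀) ^ 2 := by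
        rw [hB]
        ring

end Pool.Agent.H14.CO
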