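import Pool.Agent.H14.CO.Defs

/-!
# CO module Line: shifting a vertical line of integration

PROOF. Cauchy's theorem on the rectangle `[a,b] × [-R,R]`
(`Complex.integral_boundary_rect_eq_zero_of_differentiableOn`); the horizontal sides are
`≤ (b-a) C/(1+R^2) → 0`, the vertical ones converge to the full integrals
(`intervalIntegral_tendsto_integral`), both lines being integrable since `F` is continuous there and
`≤ C/(1+y^2)`.
-/

set_option autoImplicit false

namespace Pool.Agent.H14.CO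

open Set MeasureTheory Complex

/-- Integrability on a vertical line. -/
theorem line_integrable (F : ℂ → ℂ) (a : ℝ) (hF : ∀ y : ℝ, ContinuousAt F (a + y * I)) (C : ℝ)
    (hC : ∀ y : ℝ, ‖F (a + y * I)‖ ≤ C / (1 + y ^ 2)) :
    Integrable (fun y : ℝ => F (a + y * I)) := by
  have hcont : Continuous (fun y : ℝ => F (a + y * I)) := by
    rw [continuous_iff_continuousAt]
    intro y
    have h1 : ContinuousAt (fun y : ℝ => (a + y * I : ℂ)) y := by fun_prop
    exact ContinuousAt.comp (f := fun y : ℝ => (a + y * I : ℂ)) (hF y) h1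
  refine Integrable.mono' (integrable_inv_one_add_sq.const_mul C) hcont.aestronglyMeasurable ?_
  refine Filter.Eventually.of_forall fun y => ?_
  rw [← div_eq_mul_inv]
  exact hC y

/-- Shift of a vertical line. -/
theorem line_shift (F : ℂ → ℂ) (a b : ℝ) (hab : a ≤ b)
    (hF : ∀ z : ℂ, a ≤ z.re → z.re ≤ b → DifferentiableAt ℂ F z) (C : ℝ)
    (hC : ∀ z : ℂ, a ≤ z.re → z.re ≤ b → ‖F z‖ ≤ C / (1 + z.im ^ 2)) :
    ∫ y : ℝ, F (a + y * I) = ∫ y : ℝ, F (b + y * I) := by
  have hia : Integrable (fun y : ℝ => F (a + y * I)) := by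
    refine line_integrable F a (fun y => (hF _ (by simp) (by simpa using hab)).continuousAt) C
      (fun y => ?_)
    simpa using hC (a + y * I) (by simp) (by simpa using hab)
  have hib : Integrable (fun y : ℝ => F (b + y * I)) := by
    refine line_integrable F b (fun y => (hF _ (by simpa using hab) (by simp)).continuousAt) C
      (fun y => ?_)
    simpa using hC (b + y * I) (by simpa using hab) (by simp)
  -- the rectangle
  have hrect : ∀ R : ℝ, (∫ x : ℝ in a..b, F (x + (-R : ℝ) * I)) - (∫ x : ℝ in a..b, F (x + R * I)) +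
      I • (∫ y : ℝ in (-R)..R, F (b + y * I)) - I • (∫ y : ℝ in (-R)..R, F (a + y * I)) = 0 := by
    intro R
    have h := integral_boundary_rect_eq_zero_of_differentiableOn F (⟨a, -R⟩ : ℂ) (⟨b, R⟩ : ℂ) ?_
    · simpa using h
    · intro z hz
      rw [mem_reProdIm, uIcc_of_le hab] at hz
      exact (hF z hz.1.1 hz.1.2).differentiableWithinAt
  have hhor : ∀ R : ℝ, ‖∫ x : ℝ in a..b, F (x + R * I)‖ ≤ C / (1 + R ^ 2) * |b - a| := by
    intro R
    refine intervalIntegral.norm_integral_le_of_norm_le_const fun x hx => ?_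
    rw [uIoc_of_le hab] at hx
    simpa using hC (x + R * I) (by simpa using hx.1.le) (by simpa using hx.2)
  have hlim0 : Filter.Tendsto (fun R : ℝ => C / (1 + R ^ 2) * |b - a|) Filter.atTop (nhds 0) := by
    have h1 : Filter.Tendsto (fun R : ℝ => 1 + R ^ 2) Filter.atTop Filter.atTop :=
      Filter.tendsto_atTop_add_const_left _ _ (Filter.tendsto_pow_atTop (by norm_num))
    have h2 := (Filter.Tendsto.const_div_atTop h1 C).mul_const |b - a|
    simpa using h2
  have hA : Filter.Tendsto (fun R : ℝ => ∫ x : ℝ in a..b, F (x + R * I)) Filter.atTop (nhds 0) :=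
    squeeze_zero_norm hhor hlim0
  have hB : Filter.Tendsto (fun R : ℝ => ∫ x : ℝ in a..b, F (x + (-R : ℝ) * I)) Filter.atTop
      (nhds 0) := by
    refine squeeze_zero_norm (fun R => ?_) hlim0
    have := hhor (-R)
    rwa [neg_sq] at this
  have hCa := intervalIntegral_tendsto_integral hia Filter.tendsto_neg_atTop_atBot
    Filter.tendsto_id
  have hCb := intervalIntegral_tendsto_integral hib Filter.tendsto_neg_atTop_atBot
    Filter.tendsto_id
  have hlim := ((hB.sub hA).add (hCb.const_smul I)).sub (hCa.const_smul I)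
  have hzero : Filter.Tendsto (fun R : ℝ => (∫ x : ℝ in a..b, F (x + (-R : ℝ) * I)) -
      (∫ x : ℝ in a..b, F (x + R * I)) + I • (∫ y : ℝ in (-R)..id R, F (b + y * I)) -
      I • (∫ y : ℝ in (-R)..id R, F (a + y * I))) Filter.atTop (nhds 0) := by
    refine tendsto_const_nhds.congr fun R => ?_
    exact (hrect R).symm
  have h0 := tendsto_nhds_unique hlim hzero
  simp only [sub_self, zero_add, smul_eq_mul] at h0
  rw [← mul_sub, mul_eq_zero] at h0
  rcases h0 with h0 | h0
  · exact absurd h0 I_ne_zero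
  · exact (sub_eq_zero.1 h0).symm

/-- The integral of the Poisson kernel. -/
theorem Line_poisson {c : ℝ} (hc : c ≠ 0) :
    Integrable (fun y : ℝ => c / (c ^ 2 + y ^ 2)) ∧
      ∫ y : ℝ, c / (c ^ 2 + y ^ 2) = |c| / c * Real.pi := by
  have h1 : (fun y : ℝ => c / (c ^ 2 + y ^ 2)) = fun y : ℝ => c⁻¹ * (1 + (y / c) ^ 2)⁻¹ := by
    funext y
    have : c ^ 2 + y ^ 2 ≠ 0 := by positivity
    have h2 : 1 + (y / c) ^ 2 = (c ^ 2 + y ^ 2) / c ^ 2 := by
      field_simp
    rw [h2]
    field_simp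
  constructor
  · rw [h1]
    exact (integrable_inv_one_add_sq.comp_div hc).const_mul _
  · rw [h1, integral_const_mul]
    have := Measure.integral_comp_div (fun y : ℝ => (1 + y ^ 2)⁻¹) c
    rw [this, integral_univ_inv_one_add_sq, smul_eq_mul]
    field_simp

/-- A rational function with value `1` at `0` and decay `1/y^2`. -/
noncomputable def Line_E (K : ℝ) (z : ℂ) : ℂ := K ^ 2 / ((K : ℂ) ^ 2 - z ^ 2)

theorem Line_E_ne {K : ℝ} {z : ℂ} (h : |z.re| < K) : (K : ℂ) ^ 2 - z ^ 2 ≠ 0 := by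
  have h1 : (K : ℂ) ^ 2 - z ^ 2 = (K - z) * (K + z) := by ring
  rw [abs_lt] at h
  rw [h1]
  refine mul_ne_zero ?_ ?_
  · intro h2
    have := congrArg Complex.re h2
    simp at this
    linarith
  · intro h2
    have := congrArg Complex.re h2
    simp at this
    linarith

theorem Line_E_bound {K : ℝ} (hK : 2 ≤ K) {z : ℂ} (h : |z.re| ≤ K / 2) :
    ‖Line_E K z‖ ≤ K ^ 2 / (1 + z.im ^ 2) := by
  have h' := abs_le.1 h
  have hpos : 0 < 1 + z.im ^ 2 := by positivity
  have h1 : (K : ℂ) ^ 2 - z ^ 2 = (K - z) * (K + z) := by ring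
  have h2 : 1 + z.im ^ 2 ≤ ‖(K : ℂ) - z‖ ^ 2 := by
    rw [Complex.sq_norm, Complex.normSq_apply]
    simp
    nlinarith
  have h3 : 1 + z.im ^ 2 ≤ ‖(K : ℂ) + z‖ ^ 2 := by
    rw [Complex.sq_norm, Complex.normSq_apply]
    simp
    nlinarith
  have h4 : 1 + z.im ^ 2 ≤ ‖(K : ℂ) ^ 2 - z ^ 2‖ := by
    rw [h1, norm_mul]
    refine le_of_sq_le_sq ?_ (by positivity)
    rw [mul_pow, sq (1 + z.im ^ 2)]
    exact mul_le_mul h2 h3 hpos.le (by positivity)
  unfold Line_E
  rw [norm_div]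
  have h5 : ‖(K : ℂ) ^ 2‖ = K ^ 2 := by
    rw [norm_pow, Complex.norm_real, Real.norm_eq_abs, sq_abs]
  rw [h5]
  exact div_le_div_of_nonneg_left (by positivity) hpos h4

theorem Line_E_diff {K : ℝ} {z : ℂ} (h : |z.re| < K) : DifferentiableAt ℂ (Line_E K) z := by
  unfold Line_E
  exact DifferentiableAt.div (by fun_prop) (by fun_prop) (Line_E_ne h)

theorem Line_E_zero {K : ℝ} (hK : 0 < K) : Line_E K 0 = 1 := by
  unfold Line_E
  have : (K : ℂ) ^ 2 ≠ 0 := by
    have : (K : ℂ) ≠ 0 := by exact_mod_cast hK.ne'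
    exact pow_ne_zero 2 this
  simp [this]

theorem Line_J_integrable {K σ : ℝ} (hK : 2 ≤ K) (hσ : σ ≠ 0) (h : |σ| ≤ K / 2) :
    Integrable (fun y : ℝ => Line_E K (σ + y * I) / (σ + y * I)) := by
  have hσ' : |σ| < K := by linarith
  refine line_integrable (fun z => Line_E K z / z) σ (fun y => ?_) (K ^ 2 / |σ|) (fun y => ?_)
  · refine (DifferentiableAt.div (Line_E_diff (by simpa using hσ')) differentiableAt_id
      ?_).continuousAt
    intro h2
    have := congrArg Complex.re h2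
    simp at this
    exact hσ this
  · have h1 := Line_E_bound (z := (σ + y * I : ℂ)) hK (by simpa using h)
    rw [norm_div]
    have h2 : |σ| ≤ ‖(σ + y * I : ℂ)‖ := by
      simpa using Complex.abs_re_le_norm (σ + y * I : ℂ)
    have h3 : 0 < |σ| := abs_pos.2 hσ
    simp only [add_im, ofReal_im, mul_im, ofReal_re, I_im, mul_one, I_re, mul_zero, add_zero,
      zero_add] at h1
    calc ‖Line_E K (σ + y * I)‖ / ‖(σ + y * I : ℂ)‖ ≤ (K ^ 2 / (1 + y ^ 2)) / |σ| :=
          div_le_div₀ (by positivity) h1 h3 h2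
      _ = K ^ 2 / |σ| / (1 + y ^ 2) := by rw [div_right_comm]

theorem Line_J {K σ : ℝ} (hK : 2 ≤ K) (hσ : σ ≠ 0) (h : |σ| ≤ K / 2) :
    ∫ y : ℝ, Line_E K (σ + y * I) / (σ + y * I) = ((|σ| / σ * Real.pi : ℝ) : ℂ) := by
  have h' := abs_le.1 h
  have hi := Line_J_integrable hK hσ h
  set f : ℝ → ℂ := fun y => Line_E K (σ + y * I) / (σ + y * I) with hf
  have hsum : ∀ y : ℝ, f y + f (-y) = ((2 * (σ / (σ ^ 2 + y ^ 2)) +
      ((K - σ) / ((K - σ) ^ 2 + y ^ 2) - (K + σ) / ((K + σ) ^ 2 + y ^ 2)) : ℝ) : ℂ) := by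
    intro y
    have hz : ∀ t : ℝ, (σ + t * I : ℂ) ≠ 0 := by
      intro t h2
      have := congrArg Complex.re h2
      simp at this
      exact hσ this
    have hm : ∀ t : ℝ, ((K : ℂ) - (σ + t * I)) ≠ 0 := by
      intro t h2
      have := congrArg Complex.re h2
      simp at this
      linarith
    have hp : ∀ t : ℝ, ((K : ℂ) + (σ + t * I)) ≠ 0 := by
      intro t h2
      have := congrArg Complex.re h2
      simp at this
      linarith
    have hpf : ∀ t : ℝ, f t = 1 / (σ + t * I) + (1 / 2) * (1 / ((K : ℂ) - (σ + t * I)) -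
        1 / ((K : ℂ) + (σ + t * I))) := by
      intro t
      have h1 := hz t
      have h2 := hm t
      have h3 := hp t
      have h4 : (K : ℂ) ^ 2 - (σ + t * I) ^ 2 = (K - (σ + t * I)) * (K + (σ + t * I)) := by ring
      rw [hf]
      simp only
      unfold Line_E
      rw [h4]
      field_simp
      ring
    have hkey : ∀ c : ℝ, c ≠ 0 → (1 / ((c : ℂ) + y * I) + 1 / ((c : ℂ) + (-y : ℝ) * I)) =
        ((2 * (c / (c ^ 2 + y ^ 2)) : ℝ) : ℂ) := by
      intro c hc
      have h1 : ((c : ℂ) + y * I) ≠ 0 := by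
        intro h2
        have := congrArg Complex.re h2
        simp at this
        exact hc this
      have h2 : ((c : ℂ) + (-y : ℝ) * I) ≠ 0 := by
        intro h2
        have := congrArg Complex.re h2
        simp at this
        exact hc this
      have h3 : ((c : ℂ) ^ 2 + (y : ℂ) ^ 2) ≠ 0 := by
        have : (c ^ 2 + y ^ 2 : ℝ) ≠ 0 := by positivity
        exact_mod_cast this
      have h4 : ((c : ℂ) + y * I) * ((c : ℂ) + (-y : ℝ) * I) = (c : ℂ) ^ 2 + (y : ℂ) ^ 2 := by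
        push_cast
        linear_combination (-(y : ℂ) ^ 2) * I_sq
      rw [div_add_div _ _ h1 h2, h4]
      push_cast
      field_simp
      ring
    have k1 := hkey σ hσ
    have k2 := hkey (K - σ) (by linarith)
    have k3 := hkey (K + σ) (by linarith)
    rw [hpf y, hpf (-y)]
    have e1 : ((K : ℂ) - (σ + y * I)) = ((K - σ : ℝ) : ℂ) + (-y : ℝ) * I := by
      push_cast; ring
    have e2 : ((K : ℂ) - (σ + (-y : ℝ) * I)) = ((K - σ : ℝ) : ℂ) + y * I := by
      push_cast; ring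
    have e3 : ((K : ℂ) + (σ + y * I)) = ((K + σ : ℝ) : ℂ) + y * I := by
      push_cast; ring
    have e4 : ((K : ℂ) + (σ + (-y : ℝ) * I)) = ((K + σ : ℝ) : ℂ) + (-y : ℝ) * I := by
      push_cast; ring
    rw [e1, e2, e3, e4]
    have e5 : ((2 * (σ / (σ ^ 2 + y ^ 2)) +
      ((K - σ) / ((K - σ) ^ 2 + y ^ 2) - (K + σ) / ((K + σ) ^ 2 + y ^ 2)) : ℝ) : ℂ) =
      ((2 * (σ / (σ ^ 2 + y ^ 2)) : ℝ) : ℂ) +
      (1 / 2) * (((2 * ((K - σ) / ((K - σ) ^ 2 + y ^ 2)) : ℝ) : ℂ) -
        ((2 * ((K + σ) / ((K + σ) ^ 2 + y ^ 2)) : ℝ) : ℂ)) := by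
      push_cast
      ring
    rw [e5, ← k1, ← k2, ← k3]
    ring
  have hin : Integrable (fun y : ℝ => f (-y)) := hi.comp_neg
  have h2 : ∫ y : ℝ, (f y + f (-y)) = 2 * ∫ y : ℝ, f y := by
    rw [integral_add hi hin, integral_neg_eq_self f volume]
    ring
  have p1 := Line_poisson (c := σ) hσ
  have p2 := Line_poisson (c := K - σ) (by linarith)
  have p3 := Line_poisson (c := K + σ) (by linarith)
  have h3 : ∫ y : ℝ, (f y + f (-y)) = ((2 * (|σ| / σ * Real.pi) : ℝ) : ℂ) := by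
    simp_rw [hsum]
    rw [integral_complex_ofReal]
    congr 1
    have q1 : Integrable (fun y : ℝ => 2 * (σ / (σ ^ 2 + y ^ 2))) := p1.1.const_mul 2
    have q2 : Integrable (fun y : ℝ => (K - σ) / ((K - σ) ^ 2 + y ^ 2) -
        (K + σ) / ((K + σ) ^ 2 + y ^ 2)) := p2.1.sub p3.1
    rw [integral_add q1 q2, integral_sub p2.1 p3.1,
      integral_const_mul, p1.2, p2.2, p3.2, abs_of_pos (by linarith : 0 < K - σ),
      abs_of_pos (by linarith : 0 < K + σ), div_self (by linarith : K - σ ≠ 0),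
      div_self (by linarith : K + σ ≠ 0)]
    ring
  rw [h3] at h2
  have h4 : (2 : ℂ) * ∫ y : ℝ, f y = 2 * ((|σ| / σ * Real.pi : ℝ) : ℂ) := by
    rw [← h2]
    push_cast
    ring
  exact mul_left_cancel₀ two_ne_zero h4

/-- Residue at `0`: for `G` holomorphic on the closed strip `a ≤ Re z ≤ b`, `a < 0 < b`, with
`‖G z‖ ≤ C/(1+(Im z)^2)`,
`∫ G(b+iy)/(b+iy) dy - ∫ G(a+iy)/(a+iy) dy = 2π G(0)`.

PROOF. `G z / z = (G z - G 0 * exp (z^2)) / z + G 0 * exp (z^2) / z`. The first term, extended by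
`dslope` at `0`, is holomorphic on the strip and decays like `1/(1+y^2)`: `line_shift`. The second:
with `J σ = ∫ exp((σ+iy)^2)/(σ+iy) dy` one has `J (-σ) = - J σ` and `J σ` is constant for `σ > 0`
(`line_shift`); `J σ + J σ = 2 π`: e.g. `J σ = ∫ Re(...) dy` and
`exp(z^2)/z`: let `σ → 0+` or write `exp(z^2)/z = 1/z-part`... One clean way: for real `r`,
`Φ(r) = ∫ exp((σ+iy) r + (σ+iy)^2)/(σ+iy) dy` has derivative
`∫ exp((σ+iy) r + (σ+iy)^2) dy = √π exp(-r^2/4)` (Gaussian integral, after shifting to `σ = 0`),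
tends to `0` as `r → -∞` (`σ > 0`), hence `Φ(0) = √π ∫_{-∞}^0 exp(-r^2/4) dr = π`. -/
theorem line_residue (G : ℂ → ℂ) (a b : ℝ) (ha : a < 0) (hb : 0 < b)
    (hG : ∀ z : ℂ, a ≤ z.re → z.re ≤ b → DifferentiableAt ℂ G z) (C : ℝ)
    (hC : ∀ z : ℂ, a ≤ z.re → z.re ≤ b → ‖G z‖ ≤ C / (1 + z.im ^ 2)) :
    (∫ y : ℝ, G (b + y * I) / (b + y * I)) - ∫ y : ℝ, G (a + y * I) / (a + y * I)
      = 2 * Real.pi * G 0 := by
  set K : ℝ := 2 * (b - a) + 2 with hK
  have hK2 : 2 ≤ K := by linarith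
  have hKa : |a| ≤ K / 2 := by rw [abs_of_neg ha]; linarith
  have hKb : |b| ≤ K / 2 := by rw [abs_of_pos hb]; linarith
  have hKs : ∀ z : ℂ, a ≤ z.re → z.re ≤ b → |z.re| ≤ K / 2 := by
    intro z h1 h2
    rw [abs_le]
    constructor <;> linarith
  have hKs' : ∀ z : ℂ, a ≤ z.re → z.re ≤ b → |z.re| < K := by
    intro z h1 h2
    have := hKs z h1 h2
    linarith
  set f : ℂ → ℂ := fun z => G z - G 0 * Line_E K z with hf
  have hf0 : f 0 = 0 := by
    rw [hf]
    simp only
    rw [Line_E_zero (by linarith)]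
    ring
  have hfd : ∀ z : ℂ, a ≤ z.re → z.re ≤ b → DifferentiableAt ℂ f z := by
    intro z h1 h2
    exact (hG z h1 h2).sub ((Line_E_diff (hKs' z h1 h2)).const_mul _)
  set H : ℂ → ℂ := dslope f 0 with hH
  have hHz : ∀ z : ℂ, z ≠ 0 → H z = f z / z := by
    intro z hz
    rw [hH, dslope_of_ne _ hz, slope_def_field, hf0, sub_zero, sub_zero]
  have hHd : ∀ z : ℂ, a ≤ z.re → z.re ≤ b → DifferentiableAt ℂ H z := by
    intro z h1 h2
    by_cases hz : z = 0
    · have hs : {w : ℂ | a < w.re ∧ w.re < b} ∈ nhds (0 : ℂ) := by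
        refine IsOpen.mem_nhds ?_ (by simpa using ⟨ha, hb⟩)
        exact (isOpen_lt continuous_const Complex.continuous_re).inter
          (isOpen_lt Complex.continuous_re continuous_const)
      have h3 : DifferentiableOn ℂ f {w : ℂ | a < w.re ∧ w.re < b} := fun w hw =>
        (hfd w hw.1.le hw.2.le).differentiableWithinAt
      have h4 := (Complex.differentiableOn_dslope hs).2 h3
      rw [hz]
      exact h4.differentiableAt hs
    · exact (differentiableAt_dslope_of_ne hz).2 (hfd z h1 h2)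
  -- bound of `H`
  have hfb : ∀ z : ℂ, a ≤ z.re → z.re ≤ b → ‖f z‖ ≤ (C + ‖G 0‖ * K ^ 2) / (1 + z.im ^ 2) := by
    intro z h1 h2
    have h3 := hC z h1 h2
    have h4 := Line_E_bound hK2 (hKs z h1 h2)
    calc ‖f z‖ ≤ ‖G z‖ + ‖G 0 * Line_E K z‖ := norm_sub_le _ _
      _ ≤ C / (1 + z.im ^ 2) + ‖G 0‖ * (K ^ 2 / (1 + z.im ^ 2)) := by
          rw [norm_mul]
          gcongr
      _ = _ := by ring
  obtain ⟨B, hB⟩ : ∃ B : ℝ, ∀ z ∈ (Icc a b ×ℂ Icc (-1 : ℝ) 1), ‖H z‖ ≤ B := by
    refine (isCompact_Icc.reProdIm isCompact_Icc).exists_bound_of_continuousOn ?_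
    intro z hz
    rw [mem_reProdIm] at hz
    exact (hHd z hz.1.1 hz.1.2).continuousAt.continuousWithinAt
  set C' : ℝ := 2 * max B 0 + |C + ‖G 0‖ * K ^ 2| with hC'
  have hHb : ∀ z : ℂ, a ≤ z.re → z.re ≤ b → ‖H z‖ ≤ C' / (1 + z.im ^ 2) := by
    intro z h1 h2
    have hpos : 0 < 1 + z.im ^ 2 := by positivity
    by_cases hy : |z.im| ≤ 1
    · have h3 : ‖H z‖ ≤ B := hB z (by
        rw [mem_reProdIm]
        exact ⟨⟨h1, h2⟩, abs_le.1 hy⟩)
      rw [le_div_iff₀ hpos]
      have h4 : z.im ^ 2 ≤ 1 := by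
        rw [← sq_abs]
        exact pow_le_one₀ (abs_nonneg _) hy
      calc ‖H z‖ * (1 + z.im ^ 2) ≤ max B 0 * 2 := by
            apply mul_le_mul (h3.trans (le_max_left _ _)) (by linarith) hpos.le (le_max_right _ _)
        _ ≤ C' := by
            rw [hC']
            have := abs_nonneg (C + ‖G 0‖ * K ^ 2)
            linarith
    · push Not at hy
      have hz : z ≠ 0 := by
        rintro rfl
        simp at hy
        linarith
      have h3 : 1 ≤ ‖z‖ := hy.le.trans (Complex.abs_im_le_norm z)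
      rw [hHz z hz, norm_div]
      calc ‖f z‖ / ‖z‖ ≤ ‖f z‖ := div_le_self (norm_nonneg _) h3
        _ ≤ (C + ‖G 0‖ * K ^ 2) / (1 + z.im ^ 2) := hfb z h1 h2
        _ ≤ C' / (1 + z.im ^ 2) := by
            gcongr
            rw [hC']
            have h5 := le_abs_self (C + ‖G 0‖ * K ^ 2)
            have h6 := le_max_right B 0
            linarith
  have hab : a ≤ b := by linarith
  have hshift := line_shift H a b hab hHd C' hHb
  have hHi : ∀ σ : ℝ, a ≤ σ → σ ≤ b → Integrable (fun y : ℝ => H (σ + y * I)) := by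
    intro σ h1 h2
    refine line_integrable H σ (fun y => (hHd _ (by simpa using h1) (by simpa using h2)).continuousAt)
      C' (fun y => ?_)
    simpa using hHb (σ + y * I) (by simpa using h1) (by simpa using h2)
  have hint : ∀ σ : ℝ, a ≤ σ → σ ≤ b → σ ≠ 0 →
      ∫ y : ℝ, G (σ + y * I) / (σ + y * I) = (∫ y : ℝ, H (σ + y * I)) +
        G 0 * ((|σ| / σ * Real.pi : ℝ) : ℂ) := by
    intro σ h1 h2 h3
    have hKσ : |σ| ≤ K / 2 := by
      rw [abs_le]
      constructor <;> linarith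
    rw [← Line_J hK2 h3 hKσ, ← integral_const_mul,
      ← integral_add (hHi σ h1 h2) ((Line_J_integrable hK2 h3 hKσ).const_mul _)]
    refine integral_congr_ae (Filter.Eventually.of_forall fun y => ?_)
    have hz : (σ + y * I : ℂ) ≠ 0 := by
      intro h4
      have := congrArg Complex.re h4
      simp at this
      exact h3 this
    simp only
    rw [hHz _ hz, hf]
    simp only
    field_simp
    ring
  rw [hint b hab le_rfl hb.ne', hint a le_rfl hab ha.ne, hshift, abs_of_pos hb, abs_of_neg ha,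
    div_self hb.ne', neg_div, div_self ha.ne]
  push_cast
  ring

end Pool.Agent.H14.CO
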