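import Pool.Agent.H14.CO.Defs

/-!
# CO module MVT: the mean value theorem for Dirichlet polynomials with Gaussian weight
-/

set_option autoImplicit false

namespace Pool.Agent.H14.CO

open Set MeasureTheory Complex

private theorem MVT_fun (θ W τ : ℝ) (hW : 0 < W) (t : ℝ) :
    cexp (-(θ * t) * I) * ((gw τ W t : ℝ) : ℂ) =
      cexp (-(1 / (W : ℂ) ^ 2) * (t : ℂ) ^ 2 + (2 * τ / (W : ℂ) ^ 2 - θ * I) * t +
        -((τ : ℂ) ^ 2 / (W : ℂ) ^ 2)) := by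
  have hW' : (W : ℂ) ≠ 0 := by exact_mod_cast hW.ne'
  unfold gw
  rw [ofReal_exp, ← Complex.exp_add]
  congr 1
  push_cast
  field_simp
  ring

private theorem MVT_b (W : ℝ) (hW : 0 < W) : (-(1 / (W : ℂ) ^ 2)).re < 0 := by
  have : (-(1 / (W : ℂ) ^ 2)) = ((-(1 / W ^ 2) : ℝ) : ℂ) := by push_cast; rfl
  rw [this, ofReal_re]
  have : 0 < 1 / W ^ 2 := by positivity
  linarith

private theorem MVT_int (θ W τ : ℝ) (hW : 0 < W) :
    Integrable (fun t : ℝ => cexp (-(θ * t) * I) * ((gw τ W t : ℝ) : ℂ)) := by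
  have h : (fun t : ℝ => cexp (-(θ * t) * I) * ((gw τ W t : ℝ) : ℂ)) = fun t : ℝ =>
      cexp (-(1 / (W : ℂ) ^ 2) * (t : ℂ) ^ 2 + (2 * τ / (W : ℂ) ^ 2 - θ * I) * t +
        -((τ : ℂ) ^ 2 / (W : ℂ) ^ 2)) := funext fun t => MVT_fun θ W τ hW t
  rw [h]
  exact integrable_cexp_quadratic' (MVT_b W hW) _ _

private theorem MVT_val (θ W τ : ℝ) (hW : 0 < W) :
    ∫ t : ℝ, cexp (-(θ * t) * I) * ((gw τ W t : ℝ) : ℂ) =
      ((Real.sqrt Real.pi * W : ℝ) : ℂ) * cexp (-(θ * τ) * I - W ^ 2 * θ ^ 2 / 4) := by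
  have hW' : (W : ℂ) ≠ 0 := by exact_mod_cast hW.ne'
  have h : (fun t : ℝ => cexp (-(θ * t) * I) * ((gw τ W t : ℝ) : ℂ)) = fun t : ℝ =>
      cexp (-(1 / (W : ℂ) ^ 2) * (t : ℂ) ^ 2 + (2 * τ / (W : ℂ) ^ 2 - θ * I) * t +
        -((τ : ℂ) ^ 2 / (W : ℂ) ^ 2)) := funext fun t => MVT_fun θ W τ hW t
  rw [h, integral_cexp_quadratic (MVT_b W hW)]
  congr 1
  · have e1 : (Real.pi : ℂ) / -(-(1 / (W : ℂ) ^ 2)) = ((Real.pi * W ^ 2 : ℝ) : ℂ) := by
      push_cast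
      field_simp
    have e2 : (1 / 2 : ℂ) = ((1 / 2 : ℝ) : ℂ) := by push_cast; rfl
    rw [e1, e2, ← ofReal_cpow (by positivity), ← Real.sqrt_eq_rpow, Real.sqrt_mul Real.pi_pos.le,
      Real.sqrt_sq hW.le]
  · congr 1
    field_simp
    ring_nf
    rw [I_sq]
    ring

private theorem MVT_norm (θ W τ : ℝ) (hW : 0 < W) :
    ‖∫ t : ℝ, cexp (-(θ * t) * I) * ((gw τ W t : ℝ) : ℂ)‖ =
      Real.sqrt Real.pi * W * Real.exp (-(W ^ 2 * θ ^ 2 / 4)) := by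
  rw [MVT_val θ W τ hW, norm_mul, norm_real, Complex.norm_exp, Real.norm_eq_abs,
    abs_of_pos (by positivity)]
  congr 2
  have : (-((θ : ℂ) * τ) * I - (W : ℂ) ^ 2 * θ ^ 2 / 4) =
      ((-(W ^ 2 * θ ^ 2 / 4) : ℝ) : ℂ) + ((-(θ * τ) : ℝ) : ℂ) * I := by
    push_cast
    ring
  rw [this, add_re, ofReal_re, re_ofReal_mul, I_re, mul_zero, add_zero]

private theorem MVT_sq (N : ℕ) (a : ℕ → ℂ) (t : ℝ) :
    ((‖∑ n ∈ Finset.Icc 1 N, a n * (n : ℂ) ^ (-(t * I))‖ ^ 2 : ℝ) : ℂ) =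
      ∑ m ∈ Finset.Icc 1 N, ∑ n ∈ Finset.Icc 1 N, a m * (starRingEnd ℂ) (a n) *
        cexp (-(((Real.log m - Real.log n : ℝ) : ℂ) * t) * I) := by
  have h1 : ∀ n ∈ Finset.Icc 1 N, (n : ℂ) ^ (-(t * I)) = cexp (-(((Real.log n : ℝ) : ℂ) * t) * I) := by
    intro n hn
    rw [Finset.mem_Icc] at hn
    have hn0 : (n : ℂ) ≠ 0 := by exact_mod_cast (by omega : n ≠ 0)
    rw [cpow_def_of_ne_zero hn0, ← natCast_log]
    congr 1
    ring
  rw [Finset.sum_congr rfl fun n hn => by rw [h1 n hn]]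
  set S := ∑ n ∈ Finset.Icc 1 N, a n * cexp (-(((Real.log n : ℝ) : ℂ) * t) * I) with hS
  have h2 : ((‖S‖ ^ 2 : ℝ) : ℂ) = S * (starRingEnd ℂ) S := by
    rw [mul_conj, normSq_eq_norm_sq]
  rw [h2, hS, map_sum, Finset.sum_mul_sum]
  refine Finset.sum_congr rfl fun m _ => Finset.sum_congr rfl fun n _ => ?_
  rw [map_mul, ← exp_conj]
  have h3 : (starRingEnd ℂ) (-(((Real.log n : ℝ) : ℂ) * t) * I) = ((Real.log n : ℝ) : ℂ) * t * I := by
    rw [map_mul, map_neg, map_mul, conj_ofReal, conj_ofReal, conj_I]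
    ring
  rw [h3, mul_mul_mul_comm, ← Complex.exp_add]
  congr 2
  push_cast
  ring

private theorem MVT_expand (N : ℕ) (a : ℕ → ℂ) (W τ : ℝ) (t : ℝ) :
    ((‖∑ n ∈ Finset.Icc 1 N, a n * (n : ℂ) ^ (-(t * I))‖ ^ 2 * gw τ W t : ℝ) : ℂ) =
      ∑ m ∈ Finset.Icc 1 N, ∑ n ∈ Finset.Icc 1 N, a m * (starRingEnd ℂ) (a n) *
        (cexp (-(((Real.log m - Real.log n : ℝ) : ℂ) * t) * I) * ((gw τ W t : ℝ) : ℂ)) := by
  rw [ofReal_mul, MVT_sq, Finset.sum_mul]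
  refine Finset.sum_congr rfl fun m _ => ?_
  rw [Finset.sum_mul]
  refine Finset.sum_congr rfl fun n _ => ?_
  ring

private theorem MVT_log {N m n : ℕ} (hm : m ∈ Finset.Icc 1 N) (hn : n ∈ Finset.Icc 1 N)
    (h : m ≠ n) : 1 / (N : ℝ) ≤ |Real.log m - Real.log n| := by
  have key : ∀ m n : ℕ, m ∈ Finset.Icc 1 N → n ∈ Finset.Icc 1 N → n < m →
      1 / (N : ℝ) ≤ Real.log m - Real.log n := by
    intro m n hm hn h
    rw [Finset.mem_Icc] at hm hn
    have hm0 : (0 : ℝ) < m := by exact_mod_cast (by omega : 0 < m)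
    have hn0 : (0 : ℝ) < n := by exact_mod_cast (by omega : 0 < n)
    have hN0 : (0 : ℝ) < N := by exact_mod_cast (by omega : 0 < N)
    rw [← Real.log_div hm0.ne' hn0.ne']
    have h1 := Real.one_sub_inv_le_log_of_pos (div_pos hm0 hn0)
    refine le_trans ?_ h1
    rw [inv_div]
    have h2 : (n : ℝ) + 1 ≤ m := by exact_mod_cast h
    have h3 : (m : ℝ) ≤ N := by exact_mod_cast hm.2
    have h4 : 1 - (n : ℝ) / m = (m - n) / m := by field_simp
    rw [h4, div_le_div_iff₀ hN0 hm0]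
    nlinarith
  rcases lt_or_gt_of_ne h with h' | h'
  · rw [abs_sub_comm]
    exact (key n m hn hm h').trans (le_abs_self _)
  · exact (key m n hm hn h').trans (le_abs_self _)

/-- PROOF. Expanding the square,
`∫ (m/n)^{it} gw τ W t dt = √π W (m/n)^{iτ} exp(-W² log²(m/n)/4)` (Gaussian Fourier transform,
`fourierIntegral_gaussian`/`integral_cexp_neg_mul_sq_add_const`-type lemmas). Diagonal:
`√π W ∑ ‖a n‖²`. For `m ≠ n ≤ N`, `|log(m/n)| ≥ 1/N` and `W/(2N) ≥ 2(1+log N)`, so the off-diagonal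
terms are in total `≤ √π W exp(-4(1+log N)²) (∑ ‖a n‖)² ≤ √π W N exp(-4-4 log N) ∑ ‖a n‖²
≤ √π W e^{-4} ∑ ‖a n‖²`. `√π (1+e^{-4}) ≤ 2`, `√π (1 - e^{-4}) ≥ 3/2`. -/
theorem gauss_mvt (N : ℕ) (hN : 1 ≤ N) (a : ℕ → ℂ) (W τ : ℝ)
    (hW : 4 * (N : ℝ) * (1 + Real.log N) ≤ W) :
    Integrable (fun t : ℝ => ‖∑ n ∈ Finset.Icc 1 N, a n * (n : ℂ) ^ (-(t * I))‖ ^ 2 * gw τ W t) ∧
    3 / 2 * W * ∑ n ∈ Finset.Icc 1 N, ‖a n‖ ^ 2
      ≤ ∫ t : ℝ, ‖∑ n ∈ Finset.Icc 1 N, a n * (n : ℂ) ^ (-(t * I))‖ ^ 2 * gw τ W t ∧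
    ∫ t : ℝ, ‖∑ n ∈ Finset.Icc 1 N, a n * (n : ℂ) ^ (-(t * I))‖ ^ 2 * gw τ W t
      ≤ 2 * W * ∑ n ∈ Finset.Icc 1 N, ‖a n‖ ^ 2 := by
  have hN1 : (1 : ℝ) ≤ N := by exact_mod_cast hN
  have hN0 : (0 : ℝ) < N := by linarith
  have hL : 0 ≤ Real.log N := Real.log_nonneg hN1
  have hW0 : 0 < W := by
    have : 0 < 4 * (N : ℝ) * (1 + Real.log N) := by positivity
    linarith
  set f : ℝ → ℝ := fun t => ‖∑ n ∈ Finset.Icc 1 N, a n * (n : ℂ) ^ (-(t * I))‖ ^ 2 * gw τ W t with hf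
  have hterm : ∀ m n : ℕ, Integrable (fun t : ℝ => a m * (starRingEnd ℂ) (a n) *
      (cexp (-(((Real.log m - Real.log n : ℝ) : ℂ) * t) * I) * ((gw τ W t : ℝ) : ℂ))) :=
    fun m n => (MVT_int _ W τ hW0).const_mul _
  have hfC : (fun t : ℝ => ((f t : ℝ) : ℂ)) = fun t : ℝ =>
      ∑ m ∈ Finset.Icc 1 N, ∑ n ∈ Finset.Icc 1 N, a m * (starRingEnd ℂ) (a n) *
        (cexp (-(((Real.log m - Real.log n : ℝ) : ℂ) * t) * I) * ((gw τ W t : ℝ) : ℂ)) :=
    funext fun t => MVT_expand N a W τ t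
  have hintC : Integrable (fun t : ℝ => ((f t : ℝ) : ℂ)) := by
    rw [hfC]
    exact integrable_finsetSum _ fun m _ => integrable_finsetSum _ fun n _ => hterm m n
  have hint : Integrable f := by
    have := hintC.re
    simpa using this
  refine ⟨hint, ?_⟩
  -- the value of the integral
  have hval : ((∫ t : ℝ, f t : ℝ) : ℂ) = ∑ m ∈ Finset.Icc 1 N, ∑ n ∈ Finset.Icc 1 N,
      a m * (starRingEnd ℂ) (a n) *
        ∫ t : ℝ, cexp (-(((Real.log m - Real.log n : ℝ) : ℂ) * t) * I) * ((gw τ W t : ℝ) : ℂ) := by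
    have h0 : ((∫ t : ℝ, f t : ℝ) : ℂ) = ∫ t : ℝ, ((f t : ℝ) : ℂ) := integral_complex_ofReal.symm
    rw [h0, hfC, integral_finsetSum _ fun m _ =>
      integrable_finsetSum _ fun n _ => hterm m n]
    refine Finset.sum_congr rfl fun m _ => ?_
    rw [integral_finsetSum _ fun n _ => hterm m n]
    refine Finset.sum_congr rfl fun n _ => ?_
    rw [integral_const_mul]
  set J : ℕ → ℕ → ℂ := fun m n =>
    ∫ t : ℝ, cexp (-(((Real.log m - Real.log n : ℝ) : ℂ) * t) * I) * ((gw τ W t : ℝ) : ℂ) with hJ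
  set A := ∑ n ∈ Finset.Icc 1 N, ‖a n‖ ^ 2 with hA
  have hA0 : 0 ≤ A := Finset.sum_nonneg fun n _ => sq_nonneg _
  set c := Real.sqrt Real.pi * W with hc
  have hc0 : 0 < c := by positivity
  -- diagonal
  have hdiag : ∀ m, J m m = (c : ℂ) := by
    intro m
    rw [hJ]
    simp only
    rw [MVT_val _ W τ hW0, sub_self]
    simp [hc]
  -- off diagonal
  have hoff : ∀ m ∈ Finset.Icc 1 N, ∀ n ∈ Finset.Icc 1 N, m ≠ n →
      ‖J m n‖ ≤ c * (Real.exp (-4) / N) := by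
    intro m hm n hn hmn
    rw [hJ]
    simp only
    rw [MVT_norm _ W τ hW0, ← hc]
    refine mul_le_mul_of_nonneg_left ?_ hc0.le
    have h1 := MVT_log hm hn hmn
    set θ := Real.log m - Real.log n with hθ
    have h2 : 4 * (1 + Real.log N) ≤ W * |θ| := by
      calc 4 * (1 + Real.log N) = (4 * (N : ℝ) * (1 + Real.log N)) * (1 / N) := by
            field_simp
        _ ≤ W * |θ| := by gcongr
    have h3 : 4 + Real.log N ≤ W ^ 2 * θ ^ 2 / 4 := by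
      have h4 : W ^ 2 * θ ^ 2 = (W * |θ|) ^ 2 := by rw [mul_pow, sq_abs]
      rw [h4]
      have h5 : (4 * (1 + Real.log N)) ^ 2 ≤ (W * |θ|) ^ 2 := by
        have : 0 ≤ 4 * (1 + Real.log N) := by positivity
        gcongr
      nlinarith
    calc Real.exp (-(W ^ 2 * θ ^ 2 / 4)) ≤ Real.exp (-4 - Real.log N) :=
          Real.exp_le_exp.2 (by linarith)
      _ = Real.exp (-4) / N := by rw [Real.exp_sub, Real.exp_log hN0]
  -- comparison with the diagonal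
  have hsub : ((∫ t : ℝ, f t : ℝ) : ℂ) - ((c * A : ℝ) : ℂ) = ∑ m ∈ Finset.Icc 1 N,
      ∑ n ∈ Finset.Icc 1 N, a m * (starRingEnd ℂ) (a n) * (if m = n then 0 else J m n) := by
    have e1 : ((c * A : ℝ) : ℂ) = ∑ m ∈ Finset.Icc 1 N, ∑ n ∈ Finset.Icc 1 N,
        a m * (starRingEnd ℂ) (a n) * (if m = n then J m n else 0) := by
      rw [ofReal_mul, hA, ofReal_sum, Finset.mul_sum]
      refine Finset.sum_congr rfl fun m hm => ?_
      rw [Finset.sum_eq_single m]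
      · rw [if_pos rfl, hdiag, mul_conj, normSq_eq_norm_sq]
        ring
      · intro n _ hn
        rw [if_neg (Ne.symm hn), mul_zero]
      · intro h
        exact absurd hm h
    rw [hval, e1, ← Finset.sum_sub_distrib]
    refine Finset.sum_congr rfl fun m _ => ?_
    rw [← Finset.sum_sub_distrib]
    refine Finset.sum_congr rfl fun n _ => ?_
    by_cases h : m = n
    · rw [if_pos h, if_pos h]
      ring
    · rw [if_neg h, if_neg h]
      ring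
  have he4 : Real.exp (-4) ≤ 1 / 16 := by
    have h1 : (2 : ℝ) ≤ Real.exp 1 := by
      have := Real.add_one_le_exp (1 : ℝ)
      linarith
    have h2 : Real.exp 4 = Real.exp 1 ^ 4 := by
      rw [← Real.exp_nat_mul]
      norm_num
    have h3 : (16 : ℝ) ≤ Real.exp 4 := by
      rw [h2]
      calc (16 : ℝ) = 2 ^ 4 := by norm_num
        _ ≤ _ := by gcongr
    rw [Real.exp_neg, one_div]
    gcongr
  have hbound : |(∫ t : ℝ, f t) - c * A| ≤ c * A / 16 := by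
    have e1 : |(∫ t : ℝ, f t) - c * A| = ‖((∫ t : ℝ, f t : ℝ) : ℂ) - ((c * A : ℝ) : ℂ)‖ := by
      rw [← ofReal_sub, norm_real, Real.norm_eq_abs]
    rw [e1, hsub]
    have e2 : ‖∑ m ∈ Finset.Icc 1 N, ∑ n ∈ Finset.Icc 1 N,
        a m * (starRingEnd ℂ) (a n) * (if m = n then 0 else J m n)‖ ≤
        ∑ m ∈ Finset.Icc 1 N, ∑ n ∈ Finset.Icc 1 N, ‖a m‖ * ‖a n‖ * (c * (Real.exp (-4) / N)) := by
      refine (norm_sum_le _ _).trans (Finset.sum_le_sum fun m hm => ?_)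
      refine (norm_sum_le _ _).trans (Finset.sum_le_sum fun n hn => ?_)
      rw [norm_mul, norm_mul, RCLike.norm_conj]
      refine mul_le_mul_of_nonneg_left ?_ (by positivity)
      split_ifs with h
      · rw [norm_zero]
        positivity
      · exact hoff m hm n hn h
    refine e2.trans ?_
    have e3 : ∑ m ∈ Finset.Icc 1 N, ∑ n ∈ Finset.Icc 1 N, ‖a m‖ * ‖a n‖ * (c * (Real.exp (-4) / N)) =
        (∑ m ∈ Finset.Icc 1 N, ‖a m‖) ^ 2 * (c * (Real.exp (-4) / N)) := by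
      rw [sq, Finset.sum_mul_sum, Finset.sum_mul]
      refine Finset.sum_congr rfl fun m _ => ?_
      rw [Finset.sum_mul]
    rw [e3]
    have e4 : (∑ m ∈ Finset.Icc 1 N, ‖a m‖) ^ 2 ≤ N * A := by
      have := @sq_sum_le_card_mul_sum_sq ℕ ℝ _ _ _ _ (Finset.Icc 1 N) (fun m => ‖a m‖)
      rw [Nat.card_Icc, Nat.add_sub_cancel] at this
      exact this
    calc (∑ m ∈ Finset.Icc 1 N, ‖a m‖) ^ 2 * (c * (Real.exp (-4) / N)) ≤
          (N * A) * (c * ((1 / 16) / N)) := by gcongr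
      _ = c * A / 16 := by field_simp
  have hb := abs_le.1 hbound
  have hpi1 : Real.sqrt Real.pi ≤ 1775 / 1000 := by
    rw [Real.sqrt_le_left (by norm_num)]
    have := Real.pi_lt_d2
    norm_num at this ⊢
    linarith
  have hpi2 : 177 / 100 ≤ Real.sqrt Real.pi := by
    apply Real.le_sqrt_of_sq_le
    have := Real.pi_gt_d2
    norm_num at this ⊢
    linarith
  have hWA : 0 ≤ W * A := by positivity
  have hcA1 : c * A ≤ 1775 / 1000 * (W * A) := by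
    rw [hc, mul_assoc]
    exact mul_le_mul_of_nonneg_right hpi1 hWA
  have hcA2 : 177 / 100 * (W * A) ≤ c * A := by
    rw [hc, mul_assoc]
    exact mul_le_mul_of_nonneg_right hpi2 hWA
  constructor
  · have : 3 / 2 * W * A = 3 / 2 * (W * A) := by ring
    rw [this]
    linarith [hb.1]
  · have : 2 * W * A = 2 * (W * A) := by ring
    rw [this]
    linarith [hb.2]

end Pool.Agent.H14.CO
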