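import Pool.Agent.H14.CO.Diag
import Pool.Agent.H14.CO.AFE
import Pool.Agent.H14.CO.MVT

/-!
# CO module MeanS: mean square of a smoothly cut zeta sum times a short Dirichlet polynomial
-/

set_option autoImplicit false

namespace Pool.Agent.H14.CO

open Set MeasureTheory Complex

/-- The Dirichlet polynomial `∑_{D ≤ T^{1/10}} a_D D^{-1/2-it}`. -/
noncomputable def DP (T : ℝ) (a : ℕ → ℂ) (t : ℝ) : ℂ :=
  ∑ D ∈ Finset.Icc 1 ⌊T ^ (1 / 10 : ℝ)⌋₊, a D * (D : ℂ) ^ (-(1 / 2 + t * I : ℂ))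

private theorem MeanS_gw (W τ : ℝ) (hW : 4 ≤ W) :
    Integrable (gw τ W) ∧ ∫ t, gw τ W t ≤ 2 * W := by
  have h := gauss_mvt 1 le_rfl (fun _ => 1) W τ (by simpa using hW)
  have h1 : (fun t : ℝ => ‖∑ n ∈ Finset.Icc (1 : ℕ) 1, (1 : ℂ) * (n : ℂ) ^ (-(t * I))‖ ^ 2 * gw τ W t) =
      gw τ W := by
    funext t
    simp
  rw [h1] at h
  refine ⟨h.1, h.2.2.trans ?_⟩
  simp

/-- the coefficients of the cut zeta sum -/
private noncomputable def MeanS_G (v : ℝ → ℂ) (r x y₀ : ℝ) (n : ℕ) : ℂ :=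
  (n : ℂ) ^ (-(x + y₀ * I : ℂ)) * v (r - Real.log n)

private theorem MeanS_term (v : ℝ → ℂ) (r x y₀ t : ℝ) (l : ℕ) :
    LSeries.term (MeanS_G v r x y₀) (1 / 2 + t * I) (l + 1) =
      ((l + 1 : ℕ) : ℂ) ^ (-(1 / 2 + x + (t + y₀) * I : ℂ)) * v (r - Real.log (l + 1 : ℕ)) := by
  have hl : ((l + 1 : ℕ) : ℂ) ≠ 0 := Nat.cast_ne_zero.2 (Nat.succ_ne_zero l)
  rw [LSeries.term_of_ne_zero (Nat.succ_ne_zero l), MeanS_G]
  have h1 : (-(1 / 2 + x + (t + y₀) * I) : ℂ) = -(x + y₀ * I) - (1 / 2 + t * I) := by ring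
  rw [h1, Complex.cpow_sub _ _ hl]
  ring

private theorem MeanS_summable (v : ℝ → ℂ) (r x y₀ : ℝ)
    (hsum : ∀ s : ℂ, Summable (fun l : ℕ => ‖((l + 1 : ℕ) : ℂ) ^ (-s) * v (r - Real.log (l + 1 : ℕ))‖))
    (t : ℝ) : LSeriesSummable (MeanS_G v r x y₀) (1 / 2 + t * I) := by
  rw [LSeriesSummable, ← summable_nat_add_iff 1]
  have h1 := (hsum (1 / 2 + x + (t + y₀) * I)).of_norm
  refine h1.congr fun l => ?_
  rw [MeanS_term]

private theorem MeanS_LG (v : ℝ → ℂ) (r x y₀ : ℝ)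
    (hsum : ∀ s : ℂ, Summable (fun l : ℕ => ‖((l + 1 : ℕ) : ℂ) ^ (-s) * v (r - Real.log (l + 1 : ℕ))‖))
    (t : ℝ) : ∑' l : ℕ, ((l + 1 : ℕ) : ℂ) ^ (-(1 / 2 + x + (t + y₀) * I : ℂ)) *
      v (r - Real.log (l + 1 : ℕ)) = LSeries (MeanS_G v r x y₀) (1 / 2 + t * I) := by
  rw [LSeries, (MeanS_summable v r x y₀ hsum t).tsum_eq_zero_add, LSeries.term_zero, zero_add]
  exact tsum_congr fun l => (MeanS_term v r x y₀ t l).symm

private theorem MeanS_DP (T : ℝ) (hT : 1 ≤ T) (a : ℕ → ℂ) (ha : ∀ D : ℕ, T ^ (1 / 10 : ℝ) < D → a D = 0)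
    (t : ℝ) : LSeriesSummable a (1 / 2 + t * I) ∧ LSeries a (1 / 2 + t * I) = DP T a t := by
  have h0 : ∀ n ∉ Finset.Icc 1 ⌊T ^ (1 / 10 : ℝ)⌋₊, LSeries.term a (1 / 2 + t * I) n = 0 := by
    intro n hn
    rw [Finset.mem_Icc, not_and_or] at hn
    rcases Nat.eq_zero_or_pos n with rfl | hn0
    · exact LSeries.term_zero _ _
    · rcases hn with h | h
      · exact absurd hn0 h
      · rw [LSeries.term_of_ne_zero hn0.ne', ha n, zero_div]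
        have h1 : ⌊T ^ (1 / 10 : ℝ)⌋₊ < n := not_le.1 h
        exact (Nat.floor_lt (by positivity)).1 h1
  refine ⟨summable_of_ne_finset_zero (s := Finset.Icc 1 ⌊T ^ (1 / 10 : ℝ)⌋₊) h0, ?_⟩
  rw [LSeries, tsum_eq_sum h0, DP]
  refine Finset.sum_congr rfl fun D hD => ?_
  rw [Finset.mem_Icc] at hD
  rw [LSeries.term_of_ne_zero (by omega), Complex.cpow_neg, div_eq_mul_inv]

private theorem MeanS_conv (a : ℕ → ℂ) (v : ℝ → ℂ) (r x y₀ : ℝ) (n : ℕ) :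
    LSeries.convolution a (MeanS_G v r x y₀) n =
      ∑ D ∈ n.divisors, a D * ((n / D : ℕ) : ℂ) ^ (-(x + y₀ * I : ℂ)) * v (r - Real.log (n / D : ℕ)) := by
  rw [LSeries.convolution_def]
  show ∑ p ∈ n.divisorsAntidiagonal, a p.1 * MeanS_G v r x y₀ p.2 = _
  rw [Nat.sum_divisorsAntidiagonal (fun D e => a D * MeanS_G v r x y₀ e)]
  refine Finset.sum_congr rfl fun D _ => ?_
  rw [MeanS_G, mul_assoc]

/-- size of the coefficients -/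
private theorem MeanS_size {T : ℝ} (hT : Real.exp 3200 ≤ T) {Cv : ℝ} (hCv : 0 < Cv) (a : ℕ → ℂ)
    (ha : ∀ D : ℕ, T ^ (1 / 10 : ℝ) < D → a D = 0) (haT : ∀ D, ‖a D‖ ≤ T) (v : ℝ → ℂ)
    (hv : ∀ r, ‖v r‖ ≤ Cv * Real.exp (100 * r + Real.log T)) (x y₀ : ℝ) (hx : 0 ≤ x) (n : ℕ) (hn : 1 ≤ n) :
    ‖LSeries.convolution a (MeanS_G v (11 / 20 * Real.log T) x y₀) n‖ ≤ Cv * T ^ (68 : ℕ) / (n : ℝ) ^ (100 : ℕ) := by
  have hT1 : (1 : ℝ) ≤ T := (Real.one_le_exp (by norm_num)).trans hT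
  have hT0 : (0 : ℝ) < T := by linarith
  have hn0 : (0 : ℝ) < n := by exact_mod_cast hn
  rw [MeanS_conv]
  set X := ⌊T ^ (1 / 10 : ℝ)⌋₊ with hX
  have hsub : ∑ D ∈ n.divisors, a D * ((n / D : ℕ) : ℂ) ^ (-(x + y₀ * I : ℂ)) *
      v (11 / 20 * Real.log T - Real.log (n / D : ℕ)) =
      ∑ D ∈ n.divisors ∩ Finset.Icc 1 X, a D * ((n / D : ℕ) : ℂ) ^ (-(x + y₀ * I : ℂ)) *
        v (11 / 20 * Real.log T - Real.log (n / D : ℕ)) := by
    symm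
    refine Finset.sum_subset Finset.inter_subset_left fun D hD hD' => ?_
    have hDpos : 0 < D := Nat.pos_of_mem_divisors hD
    rw [Finset.mem_inter, not_and, Finset.mem_Icc] at hD'
    have h1 := hD' hD
    have h2 : X < D := by
      by_contra h
      exact h1 ⟨hDpos, not_lt.1 h⟩
    rw [ha D ((Nat.floor_lt (by positivity)).1 h2), zero_mul, zero_mul]
  rw [hsub]
  have hterm : ∀ D ∈ n.divisors ∩ Finset.Icc 1 X, ‖a D * ((n / D : ℕ) : ℂ) ^ (-(x + y₀ * I : ℂ)) *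
      v (11 / 20 * Real.log T - Real.log (n / D : ℕ))‖ ≤ Cv * T ^ (67 : ℕ) / (n : ℝ) ^ (100 : ℕ) := by
    intro D hD
    rw [Finset.mem_inter, Finset.mem_Icc] at hD
    obtain ⟨hDn, hD1, hD2⟩ := hD
    have hdvd : D ∣ n := Nat.dvd_of_mem_divisors hDn
    have hD0 : (0 : ℝ) < D := by exact_mod_cast hD1
    have hDT : (D : ℝ) ≤ T ^ (1 / 10 : ℝ) := (Nat.cast_le.2 hD2).trans (Nat.floor_le (by positivity))
    have hq : 0 < n / D := Nat.div_pos (Nat.le_of_dvd hn hdvd) hD1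
    have hqc : ((n / D : ℕ) : ℝ) = n / D := Nat.cast_div hdvd hD0.ne'
    have hq1 : (1 : ℝ) ≤ ((n / D : ℕ) : ℝ) := by exact_mod_cast hq
    rw [norm_mul, norm_mul, Complex.norm_natCast_cpow_of_pos hq]
    have hre : (-(x + y₀ * I : ℂ)).re = -x := by simp
    rw [hre]
    have h1 : ((n / D : ℕ) : ℝ) ^ (-x) ≤ 1 := Real.rpow_le_one_of_one_le_of_nonpos hq1 (by linarith only [hx])
    have h2 := hv (11 / 20 * Real.log T - Real.log (n / D : ℕ))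
    have h3 : Real.exp (100 * (11 / 20 * Real.log T - Real.log (n / D : ℕ)) + Real.log T) =
        T ^ (56 : ℕ) * ((D : ℝ) ^ (100 : ℕ) / (n : ℝ) ^ (100 : ℕ)) := by
      have h4 : 100 * (11 / 20 * Real.log T - Real.log (n / D : ℕ)) + Real.log T =
          ((56 : ℕ) : ℝ) * Real.log T - ((100 : ℕ) : ℝ) * Real.log (n / D : ℕ) := by
        push_cast
        ring
      rw [h4, Real.exp_sub, Real.exp_nat_mul, Real.exp_nat_mul, Real.exp_log hT0,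
        Real.exp_log (by linarith only [hq1]), hqc, div_pow]
      field_simp
    rw [h3] at h2
    have h5 : (D : ℝ) ^ (100 : ℕ) ≤ T ^ (10 : ℕ) := by
      calc (D : ℝ) ^ (100 : ℕ) ≤ (T ^ (1 / 10 : ℝ)) ^ (100 : ℕ) := pow_le_pow_left₀ hD0.le hDT _
        _ = T ^ (10 : ℕ) := by
          rw [← Real.rpow_natCast, ← Real.rpow_mul hT0.le, ← Real.rpow_natCast]
          norm_num
    calc ‖a D‖ * ((n / D : ℕ) : ℝ) ^ (-x) * ‖v (11 / 20 * Real.log T - Real.log (n / D : ℕ))‖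
        ≤ T * 1 * (Cv * (T ^ (56 : ℕ) * (T ^ (10 : ℕ) / (n : ℝ) ^ (100 : ℕ)))) := by
          refine mul_le_mul (mul_le_mul (haT D) h1 (by positivity) hT0.le) (h2.trans ?_)
            (norm_nonneg _) (by positivity)
          gcongr
      _ = Cv * T ^ (67 : ℕ) / (n : ℝ) ^ (100 : ℕ) := by
          ring
  refine (norm_sum_le_of_le _ hterm).trans ?_
  rw [Finset.sum_const, nsmul_eq_mul]
  have hcard : ((n.divisors ∩ Finset.Icc 1 X).card : ℝ) ≤ T := by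
    have h1 : (n.divisors ∩ Finset.Icc 1 X).card ≤ X := by
      refine (Finset.card_le_card Finset.inter_subset_right).trans ?_
      rw [Nat.card_Icc]
      omega
    have h2 : (X : ℝ) ≤ T ^ (1 / 10 : ℝ) := Nat.floor_le (by positivity)
    have h3 : T ^ (1 / 10 : ℝ) ≤ T := by
      calc T ^ (1 / 10 : ℝ) ≤ T ^ (1 : ℝ) := Real.rpow_le_rpow_of_exponent_le hT1 (by norm_num)
        _ = T := Real.rpow_one T
    exact (Nat.cast_le.2 h1).trans (h2.trans h3)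
  calc ((n.divisors ∩ Finset.Icc 1 X).card : ℝ) * (Cv * T ^ (67 : ℕ) / (n : ℝ) ^ (100 : ℕ))
      ≤ T * (Cv * T ^ (67 : ℕ) / (n : ℝ) ^ (100 : ℕ)) :=
        mul_le_mul_of_nonneg_right hcard (by positivity)
    _ = Cv * T ^ (68 : ℕ) / (n : ℝ) ^ (100 : ℕ) := by ring

private theorem MeanS_tailterm {T : ℝ} (hT : Real.exp 3200 ≤ T) {Cv : ℝ} (hCv : 0 < Cv) (c : ℕ → ℂ)
    (hc : ∀ n : ℕ, 1 ≤ n → ‖c n‖ ≤ Cv * T ^ (68 : ℕ) / (n : ℝ) ^ (100 : ℕ)) (t : ℝ) (n : ℕ)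
    (hn : ⌊T ^ (7 / 10 : ℝ)⌋₊ < n) : ‖LSeries.term c (1 / 2 + t * I) n‖ ≤ Cv * (1 / (n : ℝ) ^ 2) := by
  have hT1 : (1 : ℝ) ≤ T := (Real.one_le_exp (by norm_num)).trans hT
  have hT0 : (0 : ℝ) < T := by linarith only [hT1]
  have hn1 : 1 ≤ n := by omega
  have hn0 : (0 : ℝ) < n := by exact_mod_cast hn1
  have hn1' : (1 : ℝ) ≤ n := by exact_mod_cast hn1
  have hnT : T ^ (7 / 10 : ℝ) < n := (Nat.floor_lt (by positivity)).1 hn
  rw [LSeries.term_of_ne_zero (by omega), norm_div, Complex.norm_natCast_cpow_of_pos hn1]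
  have hre : (1 / 2 + t * I : ℂ).re = 1 / 2 := by simp
  rw [hre]
  have h1 : (1 : ℝ) ≤ (n : ℝ) ^ (1 / 2 : ℝ) := Real.one_le_rpow hn1' (by norm_num)
  have h2 : T ^ (68 : ℕ) ≤ (n : ℝ) ^ (98 : ℕ) := by
    calc T ^ (68 : ℕ) = T ^ (68 : ℝ) := by rw [← Real.rpow_natCast]; norm_num
      _ ≤ T ^ (7 / 10 * 98 : ℝ) := Real.rpow_le_rpow_of_exponent_le hT1 (by norm_num)
      _ = (T ^ (7 / 10 : ℝ)) ^ (98 : ℕ) := by
        rw [← Real.rpow_natCast, ← Real.rpow_mul hT0.le]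
        norm_num
      _ ≤ (n : ℝ) ^ (98 : ℕ) := pow_le_pow_left₀ (by positivity) hnT.le _
  calc ‖c n‖ / (n : ℝ) ^ (1 / 2 : ℝ) ≤ ‖c n‖ := div_le_self (norm_nonneg _) h1
    _ ≤ Cv * T ^ (68 : ℕ) / (n : ℝ) ^ (100 : ℕ) := hc n hn1
    _ ≤ Cv * (n : ℝ) ^ (98 : ℕ) / (n : ℝ) ^ (100 : ℕ) := by gcongr
    _ = Cv * (1 / (n : ℝ) ^ 2) := by
        have : (n : ℝ) ^ (100 : ℕ) = (n : ℝ) ^ (98 : ℕ) * (n : ℝ) ^ 2 := by ring
        rw [this]
        field_simp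

private theorem MeanS_W {T W : ℝ} (hT : Real.exp 3200 ≤ T) (hW : T ^ (9 / 10 : ℝ) ≤ W) :
    1 ≤ ⌊T ^ (7 / 10 : ℝ)⌋₊ ∧ 4 ≤ W ∧
    4 * (⌊T ^ (7 / 10 : ℝ)⌋₊ : ℝ) * (1 + Real.log ⌊T ^ (7 / 10 : ℝ)⌋₊) ≤ W := by
  have hT1 : (1 : ℝ) ≤ T := (Real.one_le_exp (by norm_num)).trans hT
  have hT0 : (0 : ℝ) < T := by linarith
  have hL : 3200 ≤ Real.log T := (Real.le_log_iff_exp_le hT0).2 hT
  set N := ⌊T ^ (7 / 10 : ℝ)⌋₊ with hN
  have hN1 : 1 ≤ N := by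
    rw [hN, Nat.one_le_floor_iff]
    exact Real.one_le_rpow hT1 (by norm_num)
  have hN1' : (1 : ℝ) ≤ N := by exact_mod_cast hN1
  have hNT : (N : ℝ) ≤ T ^ (7 / 10 : ℝ) := Nat.floor_le (by positivity)
  have hlog : Real.log N ≤ 7 / 10 * Real.log T := by
    calc Real.log N ≤ Real.log (T ^ (7 / 10 : ℝ)) := Real.log_le_log (by linarith only [hN1']) hNT
      _ = 7 / 10 * Real.log T := Real.log_rpow hT0 _
  have hlog0 : 0 ≤ Real.log N := Real.log_nonneg hN1'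
  have h1 : 4 * (1 + 7 / 10 * Real.log T) ≤ T ^ (2 / 10 : ℝ) := by
    have h2 : T ^ (2 / 10 : ℝ) = Real.exp (1 / 10 * Real.log T) ^ 2 := by
      rw [← Real.exp_nat_mul, Real.rpow_def_of_pos hT0]
      congr 1
      push_cast
      ring
    have h3 := Real.add_one_le_exp (1 / 10 * Real.log T)
    have h4 : (1 / 10 * Real.log T + 1) ^ 2 ≤ Real.exp (1 / 10 * Real.log T) ^ 2 :=
      pow_le_pow_left₀ (by linarith only [hL]) h3 2
    rw [h2]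
    nlinarith only [hL, h4]
  have h5 : T ^ (7 / 10 : ℝ) * T ^ (2 / 10 : ℝ) = T ^ (9 / 10 : ℝ) := by
    rw [← Real.rpow_add hT0]
    norm_num
  have h6 : 4 * (N : ℝ) * (1 + Real.log N) ≤ W := by
    calc 4 * (N : ℝ) * (1 + Real.log N) ≤ 4 * T ^ (7 / 10 : ℝ) * (1 + 7 / 10 * Real.log T) := by
          gcongr
      _ = T ^ (7 / 10 : ℝ) * (4 * (1 + 7 / 10 * Real.log T)) := by ring
      _ ≤ T ^ (7 / 10 : ℝ) * T ^ (2 / 10 : ℝ) := by gcongr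
      _ ≤ W := by rw [h5]; exact hW
  refine ⟨hN1, ?_, h6⟩
  nlinarith only [hN1', hlog0, h6]

private theorem MeanS_main (v : ℝ → ℝ → ℂ) (S : ℝ → ℝ → ℂ → ℂ)
    (hS : ∀ h r s, S h r s = ∑' l : ℕ, ((l + 1 : ℕ) : ℂ) ^ (-s) * v h (r - Real.log (l + 1 : ℕ)))
    (hv : ∃ C : ℝ, 0 < C ∧ ∀ h r : ℝ, 1 ≤ h → ‖v h r‖ ≤ C * Real.exp (100 * r + 32 * h * 100))
    (hsum : ∀ h r : ℝ, 0 < h → ∀ s : ℂ,
      Summable (fun l : ℕ => ‖((l + 1 : ℕ) : ℂ) ^ (-s) * v h (r - Real.log (l + 1 : ℕ))‖))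
    (hd : ∃ C : ℝ, 0 < C ∧ ∀ T K Q : ℝ, Real.exp 3200 ≤ T → 1 ≤ K → 0 ≤ Q → ∀ a : ℕ → ℂ,
      DiagHyp T K Q a → ∀ x y₀ : ℝ, 0 ≤ x → x ≤ K / Real.log T → ∀ N : ℕ,
      ∑ n ∈ Finset.Icc 1 N, (1 / (n : ℝ)) *
        ‖∑ D ∈ n.divisors, a D * ((n / D : ℕ) : ℂ) ^ (-(x + y₀ * I : ℂ)) *
          v (Real.log T / 3200) (11 / 20 * Real.log T - Real.log (n / D : ℕ))‖ ^ 2
        ≤ C * (1 + K) ^ 8 * Q * (1 + Real.log T * |y₀|) ^ 8) :
    ∃ C : ℝ, 0 < C ∧ ∃ T₀ : ℝ, Real.exp 3200 ≤ T₀ ∧ ∀ T : ℝ, T₀ ≤ T →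
    ∀ K Q : ℝ, 1 ≤ K → 1 ≤ Q → ∀ a : ℕ → ℂ, (∀ D : ℕ, T ^ (1 / 10 : ℝ) < D → a D = 0) →
    (∀ D, ‖a D‖ ≤ T) → DiagHyp T K Q a →
    ∀ x y₀ τ W : ℝ, 0 ≤ x → x ≤ K / Real.log T → T ^ (9 / 10 : ℝ) ≤ W →
    Integrable (fun t : ℝ => ‖S (Real.log T / 3200) (11 / 20 * Real.log T)
      (1 / 2 + x + (t + y₀) * I) * DP T a t‖ ^ 2 * gw τ W t) ∧
    ∫ t : ℝ, ‖S (Real.log T / 3200) (11 / 20 * Real.log T)
      (1 / 2 + x + (t + y₀) * I) * DP T a t‖ ^ 2 * gw τ W t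
      ≤ C * (1 + K) ^ 8 * W * Q * (1 + Real.log T * |y₀|) ^ 8 := by
  obtain ⟨Cv, hCv, hv⟩ := hv
  obtain ⟨Cd, hCd, hd⟩ := hd
  have hz : Summable (fun n : ℕ => 1 / (n : ℝ) ^ 2) := Real.summable_one_div_nat_pow.2 one_lt_two
  set Z : ℝ := ∑' n : ℕ, 1 / (n : ℝ) ^ 2 with hZ
  have hZ0 : 0 ≤ Z := tsum_nonneg fun n => by positivity
  set E : ℝ := Cv * Z with hE
  have hE0 : 0 ≤ E := by positivity
  refine ⟨4 * Cd + 4 * E ^ 2, by positivity, Real.exp 3200, le_rfl, ?_⟩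
  intro T hT K Q hK hQ a ha haT hDH x y₀ τ W hx hxK hW
  have hT1 : (1 : ℝ) ≤ T := (Real.one_le_exp (by norm_num)).trans hT
  have hT0 : (0 : ℝ) < T := by linarith
  have hL : 3200 ≤ Real.log T := (Real.le_log_iff_exp_le hT0).2 hT
  obtain ⟨hN1, hW4, hWN⟩ := MeanS_W hT hW
  set N := ⌊T ^ (7 / 10 : ℝ)⌋₊ with hN
  set vv : ℝ → ℂ := v (Real.log T / 3200) with hvv
  set r : ℝ := 11 / 20 * Real.log T with hr
  set G := MeanS_G vv r x y₀ with hG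
  set c := LSeries.convolution a G with hc
  have hsum' : ∀ s : ℂ, Summable (fun l : ℕ => ‖((l + 1 : ℕ) : ℂ) ^ (-s) * vv (r - Real.log (l + 1 : ℕ))‖) :=
    hsum (Real.log T / 3200) r (by linarith only [hL])
  have hvb : ∀ r', ‖vv r'‖ ≤ Cv * Real.exp (100 * r' + Real.log T) := by
    intro r'
    have h1 := hv (Real.log T / 3200) r' (by linarith only [hL])
    have h2 : 32 * (Real.log T / 3200) * 100 = Real.log T := by ring
    rw [h2] at h1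
    exact h1
  have hcb : ∀ n : ℕ, 1 ≤ n → ‖c n‖ ≤ Cv * T ^ (68 : ℕ) / (n : ℝ) ^ (100 : ℕ) := fun n hn =>
    MeanS_size hT hCv a ha haT vv hvb x y₀ hx n hn
  -- the product as a Dirichlet series
  have hprod : ∀ t : ℝ, S (Real.log T / 3200) r (1 / 2 + x + (t + y₀) * I) * DP T a t =
      LSeries c (1 / 2 + t * I) := by
    intro t
    obtain ⟨hA1, hA2⟩ := MeanS_DP T hT1 a ha t
    rw [hS, MeanS_LG vv r x y₀ hsum' t, ← hA2, mul_comm, hc,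
      LSeries_convolution' hA1 (MeanS_summable vv r x y₀ hsum' t)]
  have hcs : ∀ t : ℝ, LSeriesSummable c (1 / 2 + t * I) := fun t =>
    (MeanS_DP T hT1 a ha t).1.convolution (MeanS_summable vv r x y₀ hsum' t)
  -- main part and tail
  set P : ℝ → ℂ := fun t => ∑ n ∈ Finset.Icc 1 N, (c n * (n : ℂ) ^ (-(1 / 2) : ℂ)) * (n : ℂ) ^ (-(t * I)) with hP
  set R : ℝ → ℂ := fun t => ∑' i : ℕ, LSeries.term c (1 / 2 + t * I) (i + (N + 1)) with hR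
  have hsplit : ∀ t : ℝ, LSeries c (1 / 2 + t * I) = P t + R t := by
    intro t
    rw [LSeries, ← (hcs t).sum_add_tsum_nat_add (N + 1)]
    congr 1
    have h1 : ∑ n ∈ Finset.range (N + 1), LSeries.term c (1 / 2 + t * I) n =
        ∑ n ∈ Finset.Icc 1 N, LSeries.term c (1 / 2 + t * I) n := by
      symm
      refine Finset.sum_subset ?_ fun n hn hn' => ?_
      · intro n hn
        rw [Finset.mem_Icc] at hn
        rw [Finset.mem_range]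
        omega
      · rw [Finset.mem_range] at hn
        rw [Finset.mem_Icc] at hn'
        have : n = 0 := by omega
        rw [this, LSeries.term_zero]
    rw [h1, hP]
    refine Finset.sum_congr rfl fun n hn => ?_
    rw [Finset.mem_Icc] at hn
    have hn0 : (n : ℂ) ≠ 0 := Nat.cast_ne_zero.2 (by omega)
    rw [LSeries.term_of_ne_zero (by omega), mul_assoc, ← Complex.cpow_add _ _ hn0, div_eq_mul_inv,
      ← Complex.cpow_neg]
    congr 2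
    ring
  have htb : ∀ (t : ℝ) (i : ℕ), ‖LSeries.term c (1 / 2 + t * I) (i + (N + 1))‖ ≤
      Cv * (1 / ((i + (N + 1) : ℕ) : ℝ) ^ 2) := fun t i =>
    MeanS_tailterm hT hCv c hcb t (i + (N + 1)) (by omega)
  have hzs : Summable (fun i : ℕ => Cv * (1 / ((i + (N + 1) : ℕ) : ℝ) ^ 2)) :=
    ((summable_nat_add_iff (N + 1)).2 hz).mul_left Cv
  have hRb : ∀ t : ℝ, ‖R t‖ ≤ E := by
    intro t
    have h1 : ∑' i : ℕ, (1 / ((i + (N + 1) : ℕ) : ℝ) ^ 2) ≤ Z := by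
      have h2 := hz.sum_add_tsum_nat_add (N + 1)
      have h3 : 0 ≤ ∑ i ∈ Finset.range (N + 1), 1 / (i : ℝ) ^ 2 := Finset.sum_nonneg fun i _ => by positivity
      rw [hZ]
      linarith only [h2, h3]
    refine (tsum_of_norm_bounded hzs.hasSum (htb t)).trans ?_
    rw [tsum_mul_left, hE]
    exact mul_le_mul_of_nonneg_left h1 hCv.le
  have hRc : Continuous R := by
    refine continuous_tsum (fun i => ?_) hzs fun i t => htb t i
    have h0 : ((i + (N + 1) : ℕ) : ℂ) ≠ 0 := Nat.cast_ne_zero.2 (by omega)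
    have h1 : (fun t : ℝ => LSeries.term c (1 / 2 + t * I) (i + (N + 1))) =
        fun t : ℝ => c (i + (N + 1)) / ((i + (N + 1) : ℕ) : ℂ) ^ (1 / 2 + t * I : ℂ) := by
      funext t
      rw [LSeries.term_of_ne_zero (by omega)]
    rw [h1]
    refine Continuous.div continuous_const ?_ fun t => ?_
    · exact Continuous.const_cpow (by fun_prop) (Or.inl h0)
    · rw [Complex.cpow_ne_zero_iff]
      exact Or.inl h0
  have hPc : Continuous P := by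
    refine continuous_finsetSum _ fun n hn => ?_
    rw [Finset.mem_Icc] at hn
    have h0 : (n : ℂ) ≠ 0 := Nat.cast_ne_zero.2 (by omega)
    exact continuous_const.mul (Continuous.const_cpow (by fun_prop) (Or.inl h0))
  obtain ⟨hPint, -, hPle⟩ := gauss_mvt N hN1 (fun n => c n * (n : ℂ) ^ (-(1 / 2) : ℂ)) W τ hWN
  obtain ⟨hgint, hgle⟩ := MeanS_gw W τ hW4
  have hg0 : ∀ t, 0 ≤ gw τ W t := fun t => (Real.exp_pos _).le
  have hgc : Continuous (gw τ W) := by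
    unfold gw
    fun_prop
  have hdom : ∀ t : ℝ, ‖S (Real.log T / 3200) r (1 / 2 + x + (t + y₀) * I) * DP T a t‖ ^ 2 * gw τ W t ≤
      2 * (‖P t‖ ^ 2 * gw τ W t) + 2 * E ^ 2 * gw τ W t := by
    intro t
    rw [hprod t, hsplit t]
    have h1 : ‖P t + R t‖ ^ 2 ≤ 2 * ‖P t‖ ^ 2 + 2 * E ^ 2 := by
      have h2 := norm_add_le (P t) (R t)
      have h3 := hRb t
      have h4 : ‖P t + R t‖ ≤ ‖P t‖ + E := by linarith only [h2, h3]
      have h5 : ‖P t + R t‖ ^ 2 ≤ (‖P t‖ + E) ^ 2 := pow_le_pow_left₀ (norm_nonneg _) h4 2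
      nlinarith only [h5, sq_nonneg (‖P t‖ - E)]
    nlinarith only [mul_le_mul_of_nonneg_right h1 (hg0 t)]
  have hbi : Integrable (fun t : ℝ => 2 * (‖P t‖ ^ 2 * gw τ W t) + 2 * E ^ 2 * gw τ W t) :=
    (hPint.const_mul 2).add (hgint.const_mul (2 * E ^ 2))
  have hmeas : (fun t : ℝ => ‖S (Real.log T / 3200) r (1 / 2 + x + (t + y₀) * I) * DP T a t‖ ^ 2 * gw τ W t) =
      fun t : ℝ => ‖P t + R t‖ ^ 2 * gw τ W t := by
    funext t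
    rw [hprod t, hsplit t]
  have hint : Integrable (fun t : ℝ => ‖S (Real.log T / 3200) r (1 / 2 + x + (t + y₀) * I) * DP T a t‖ ^ 2 *
      gw τ W t) := by
    refine hbi.mono' ?_ (Filter.Eventually.of_forall fun t => ?_)
    · rw [hmeas]
      exact ((hPc.add hRc).norm.pow 2 |>.mul hgc).aestronglyMeasurable
    · rw [Real.norm_of_nonneg (mul_nonneg (sq_nonneg _) (hg0 t))]
      exact hdom t
  refine ⟨hint, ?_⟩
  have hdiag := hd T K Q hT hK (by linarith only [hQ]) a hDH x y₀ hx hxK N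
  have hsq : ∑ n ∈ Finset.Icc 1 N, ‖c n * (n : ℂ) ^ (-(1 / 2) : ℂ)‖ ^ 2 ≤
      Cd * (1 + K) ^ 8 * Q * (1 + Real.log T * |y₀|) ^ 8 := by
    refine le_trans (le_of_eq ?_) hdiag
    refine Finset.sum_congr rfl fun n hn => ?_
    rw [Finset.mem_Icc] at hn
    have hn0 : (0 : ℝ) < n := by
      have : 0 < n := by omega
      exact_mod_cast this
    rw [← MeanS_conv, norm_mul, Complex.norm_natCast_cpow_of_pos (by omega), mul_pow]
    have h1 : (-(1 / 2) : ℂ).re = -(1 / 2) := by simp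
    rw [h1]
    have h2 : ((n : ℝ) ^ (-(1 / 2) : ℝ)) ^ 2 = 1 / (n : ℝ) := by
      rw [← Real.rpow_natCast, ← Real.rpow_mul hn0.le]
      have : (-(1 / 2) : ℝ) * ((2 : ℕ) : ℝ) = -1 := by norm_num
      rw [this, Real.rpow_neg_one, one_div]
    rw [h2, mul_comm]
  have hW0 : 0 < W := by linarith only [hW4]
  have hK8 : 1 ≤ (1 + K) ^ 8 := one_le_pow₀ (by linarith only [hK])
  have hY8 : 1 ≤ (1 + Real.log T * |y₀|) ^ 8 := by
    refine one_le_pow₀ ?_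
    have : 0 ≤ Real.log T * |y₀| := mul_nonneg (by linarith only [hL]) (abs_nonneg _)
    linarith only [this]
  calc ∫ t : ℝ, ‖S (Real.log T / 3200) r (1 / 2 + x + (t + y₀) * I) * DP T a t‖ ^ 2 * gw τ W t
      ≤ ∫ t : ℝ, (2 * (‖P t‖ ^ 2 * gw τ W t) + 2 * E ^ 2 * gw τ W t) :=
        integral_mono hint hbi hdom
    _ = 2 * (∫ t : ℝ, ‖P t‖ ^ 2 * gw τ W t) + 2 * E ^ 2 * ∫ t : ℝ, gw τ W t := by
        rw [integral_add (hPint.const_mul 2) (hgint.const_mul (2 * E ^ 2)), integral_const_mul,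
          integral_const_mul]
    _ ≤ 2 * (2 * W * (Cd * (1 + K) ^ 8 * Q * (1 + Real.log T * |y₀|) ^ 8)) + 2 * E ^ 2 * (2 * W) := by
        have h1 : ∫ t : ℝ, ‖P t‖ ^ 2 * gw τ W t ≤
            2 * W * (Cd * (1 + K) ^ 8 * Q * (1 + Real.log T * |y₀|) ^ 8) :=
          hPle.trans (mul_le_mul_of_nonneg_left hsq (by positivity))
        have h2 : 2 * E ^ 2 * ∫ t : ℝ, gw τ W t ≤ 2 * E ^ 2 * (2 * W) :=
          mul_le_mul_of_nonneg_left hgle (by positivity)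
        linarith only [h1, h2]
    _ ≤ (4 * Cd + 4 * E ^ 2) * (1 + K) ^ 8 * W * Q * (1 + Real.log T * |y₀|) ^ 8 := by
        have h3 : 1 ≤ (1 + K) ^ 8 * Q * (1 + Real.log T * |y₀|) ^ 8 :=
          one_le_mul_of_one_le_of_one_le (one_le_mul_of_one_le_of_one_le hK8 hQ) hY8
        have h4 : 4 * E ^ 2 * W * 1 ≤ 4 * E ^ 2 * W * ((1 + K) ^ 8 * Q * (1 + Real.log T * |y₀|) ^ 8) :=
          mul_le_mul_of_nonneg_left h3 (by positivity)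
        generalize (1 + Real.log T * |y₀|) ^ 8 = Y at h4 ⊢
        calc 2 * (2 * W * (Cd * (1 + K) ^ 8 * Q * Y)) + 2 * E ^ 2 * (2 * W) =
            4 * Cd * (1 + K) ^ 8 * W * Q * Y + 4 * E ^ 2 * W * 1 := by ring
          _ ≤ 4 * Cd * (1 + K) ^ 8 * W * Q * Y + 4 * E ^ 2 * W * ((1 + K) ^ 8 * Q * Y) := by
              linarith only [h4]
          _ = _ := by ring

/-- PROOF. `Sc h r (1/2+x+i(t+y₀)) * DP T a t = ∑_{n ≥ 1} c_n n^{-1/2-it}`,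
`c_n = ∑_{D∣n} a_D (n/D)^{-(x+iy₀)} vc h (r - log(n/D))` (product of an absolutely convergent series
with a finite sum). Split at `N₁ = ⌊T^{7/10}⌋`. Terms `n ≤ N₁`: `gauss_mvt`
(`4 N₁ (1 + log N₁) ≤ T^{9/10} ≤ W` for `T ≥ T₀`) with coefficients `c_n n^{-1/2}`, then `diag_vc`.
Terms `n > N₁`: `‖c_n‖ ≤ T^{1/10} · T · C e^{100 (r - log(n/T^{1/10})) + 3200 h}
= C T^{11/10} (T^{55+10+1}/n^{100})` (`vc_bound` with `B = 100`), so the tail is in absolute value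
`≤ C T^{11/10 + 66} ∑_{n > T^{7/10}} n^{-100.5} ≤ C T^{-2}` pointwise; its mean square is
`≤ C T^{-4} √π W ≤ W Q` as `Q ≥ 1`. -/
theorem mean_Sc : ∃ C : ℝ, 0 < C ∧ ∃ T₀ : ℝ, Real.exp 3200 ≤ T₀ ∧ ∀ T : ℝ, T₀ ≤ T →
    ∀ K Q : ℝ, 1 ≤ K → 1 ≤ Q → ∀ a : ℕ → ℂ, (∀ D : ℕ, T ^ (1 / 10 : ℝ) < D → a D = 0) →
    (∀ D, ‖a D‖ ≤ T) → DiagHyp T K Q a →
    ∀ x y₀ τ W : ℝ, 0 ≤ x → x ≤ K / Real.log T → T ^ (9 / 10 : ℝ) ≤ W →
    Integrable (fun t : ℝ => ‖Sc (Real.log T / 3200) (11 / 20 * Real.log T)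
      (1 / 2 + x + (t + y₀) * I) * DP T a t‖ ^ 2 * gw τ W t) ∧
    ∫ t : ℝ, ‖Sc (Real.log T / 3200) (11 / 20 * Real.log T)
      (1 / 2 + x + (t + y₀) * I) * DP T a t‖ ^ 2 * gw τ W t
      ≤ C * (1 + K) ^ 8 * W * Q * (1 + Real.log T * |y₀|) ^ 8 := by
  exact MeanS_main vc Sc (fun _ _ _ => rfl) (vc_bound 100 (by norm_num))
    (fun h r hh s => summable_vc h r hh s) diag_vc

theorem mean_Sd : ∃ C : ℝ, 0 < C ∧ ∃ T₀ : ℝ, Real.exp 3200 ≤ T₀ ∧ ∀ T : ℝ, T₀ ≤ T →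
    ∀ K Q : ℝ, 1 ≤ K → 1 ≤ Q → ∀ a : ℕ → ℂ, (∀ D : ℕ, T ^ (1 / 10 : ℝ) < D → a D = 0) →
    (∀ D, ‖a D‖ ≤ T) → DiagHyp T K Q a →
    ∀ x y₀ τ W : ℝ, 0 ≤ x → x ≤ K / Real.log T → T ^ (9 / 10 : ℝ) ≤ W →
    Integrable (fun t : ℝ => ‖Sd (Real.log T / 3200) (11 / 20 * Real.log T)
      (1 / 2 + x + (t + y₀) * I) * DP T a t‖ ^ 2 * gw τ W t) ∧
    ∫ t : ℝ, ‖Sd (Real.log T / 3200) (11 / 20 * Real.log T)
      (1 / 2 + x + (t + y₀) * I) * DP T a t‖ ^ 2 * gw τ W t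
      ≤ C * (1 + K) ^ 8 * W * Q * (1 + Real.log T * |y₀|) ^ 8 := by
  refine MeanS_main vd Sd (fun _ _ _ => rfl) ?_ (fun h r hh s => summable_vd h r hh s) diag_vd
  obtain ⟨C, hC, h⟩ := vd_bound 100
  refine ⟨C, hC, fun h' r hh => ?_⟩
  have h1 := h h' r hh
  rwa [abs_of_pos (by norm_num : (0 : ℝ) < 100)] at h1

end Pool.Agent.H14.CO
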