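import Pool.Agent.H14.CO.Defs

/-!
# CO module MobLog: the elementary bound for the smoothed sum of `μ(e)/e`
-/

set_option autoImplicit false

namespace Pool.Agent.H14.CO

open Set MeasureTheory Complex

theorem MobLog_dvd_sum (n e : ℕ) (he : 1 ≤ e) (g : ℕ → ℝ) :
    ∑ k ∈ (Finset.Icc 1 n).filter (fun k => e ∣ k), g k
      = ∑ m ∈ Finset.Icc 1 (n / e), g (e * m) := by
  refine Finset.sum_nbij' (fun k => k / e) (fun m => e * m) ?_ ?_ ?_ ?_ ?_
  · intro k hk
    rw [Finset.mem_filter, Finset.mem_Icc] at hk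
    obtain ⟨⟨h1, h2⟩, h3⟩ := hk
    rw [Finset.mem_Icc]
    exact ⟨Nat.div_pos (Nat.le_of_dvd (by omega) h3) he, Nat.div_le_div_right h2⟩
  · intro m hm
    rw [Finset.mem_Icc] at hm
    rw [Finset.mem_filter, Finset.mem_Icc]
    refine ⟨⟨Nat.mul_pos he hm.1, ?_⟩, dvd_mul_right e m⟩
    calc e * m ≤ e * (n / e) := Nat.mul_le_mul_left e hm.2
      _ ≤ n := Nat.mul_div_le n e
  · intro k hk
    rw [Finset.mem_filter] at hk
    exact Nat.mul_div_cancel' hk.2
  · intro m _
    exact Nat.mul_div_cancel_left m he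
  · intro k hk
    rw [Finset.mem_filter] at hk
    rw [Nat.mul_div_cancel' hk.2]

theorem MobLog_exchange (n : ℕ) (hn : 1 ≤ n) (a : ℕ → ℝ) :
    ∑ e ∈ Finset.Icc 1 n, ((ArithmeticFunction.moebius e : ℤ) : ℝ) *
      ∑ m ∈ Finset.Icc 1 (n / e), a (e * m) = a 1 := by
  have h1 : ∀ e ∈ Finset.Icc 1 n, ((ArithmeticFunction.moebius e : ℤ) : ℝ) *
      ∑ m ∈ Finset.Icc 1 (n / e), a (e * m)
      = ∑ k ∈ Finset.Icc 1 n, if e ∣ k then ((ArithmeticFunction.moebius e : ℤ) : ℝ) * a k else 0 := by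
    intro e he
    rw [Finset.mem_Icc] at he
    rw [← MobLog_dvd_sum n e he.1 a, Finset.mul_sum, Finset.sum_filter]
  rw [Finset.sum_congr rfl h1, Finset.sum_comm]
  have h2 : ∀ k ∈ Finset.Icc 1 n,
      (∑ e ∈ Finset.Icc 1 n, if e ∣ k then ((ArithmeticFunction.moebius e : ℤ) : ℝ) * a k else 0)
        = if k = 1 then a 1 else 0 := by
    intro k hk
    rw [Finset.mem_Icc] at hk
    rw [← Finset.sum_filter, ← Finset.sum_mul]
    have h3 : (Finset.Icc 1 n).filter (fun e => e ∣ k) = k.divisors := by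
      ext e
      rw [Finset.mem_filter, Finset.mem_Icc, Nat.mem_divisors]
      constructor
      · rintro ⟨-, h⟩
        exact ⟨h, by omega⟩
      · rintro ⟨h, h0⟩
        exact ⟨⟨Nat.pos_of_dvd_of_pos h (by omega), (Nat.le_of_dvd (by omega) h).trans hk.2⟩, h⟩
    rw [h3]
    have h4 : ∑ d ∈ k.divisors, (ArithmeticFunction.moebius d : ℤ) = if k = 1 then 1 else 0 := by
      rw [← ArithmeticFunction.coe_mul_zeta_apply, ArithmeticFunction.moebius_mul_coe_zeta,
        ArithmeticFunction.one_apply]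
    have h5 : ∑ d ∈ k.divisors, ((ArithmeticFunction.moebius d : ℤ) : ℝ)
        = if k = 1 then 1 else 0 := by
      rw [← Int.cast_sum, h4]
      split_ifs <;> simp
    rw [h5]
    split_ifs with h6
    · rw [h6, one_mul]
    · rw [zero_mul]
  rw [Finset.sum_congr rfl h2, Finset.sum_ite_eq' (Finset.Icc 1 n) 1 (fun _ => a 1),
    if_pos (Finset.mem_Icc.mpr ⟨le_refl _, hn⟩)]

theorem MobLog_mu_abs (e : ℕ) : |((ArithmeticFunction.moebius e : ℤ) : ℝ)| ≤ 1 := by
  have := ArithmeticFunction.abs_moebius_le_one (n := e)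
  exact_mod_cast this

theorem MobLog_mu_sum (n : ℕ) (hn : 1 ≤ n) :
    |∑ e ∈ Finset.Icc 1 n, ((ArithmeticFunction.moebius e : ℤ) : ℝ) / e| ≤ 2 := by
  have h1 := MobLog_exchange n hn (fun _ => 1)
  have h2 : ∀ e ∈ Finset.Icc 1 n, ((ArithmeticFunction.moebius e : ℤ) : ℝ) *
      ∑ m ∈ Finset.Icc 1 (n / e), (1 : ℝ)
      = ((ArithmeticFunction.moebius e : ℤ) : ℝ) * ((n / e : ℕ) : ℝ) := by
    intro e _
    simp
  rw [Finset.sum_congr rfl h2] at h1
  have hn0 : (0 : ℝ) < n := by exact_mod_cast hn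
  have h3 : (n : ℝ) * ∑ e ∈ Finset.Icc 1 n, ((ArithmeticFunction.moebius e : ℤ) : ℝ) / e
      = 1 + ∑ e ∈ Finset.Icc 1 n, ((ArithmeticFunction.moebius e : ℤ) : ℝ) *
        ((n : ℝ) / e - ((n / e : ℕ) : ℝ)) := by
    rw [← h1, ← Finset.sum_add_distrib, Finset.mul_sum]
    apply Finset.sum_congr rfl
    intro e _
    ring
  have h4 : |∑ e ∈ Finset.Icc 1 n, ((ArithmeticFunction.moebius e : ℤ) : ℝ) *
        ((n : ℝ) / e - ((n / e : ℕ) : ℝ))| ≤ n := by
    calc |∑ e ∈ Finset.Icc 1 n, ((ArithmeticFunction.moebius e : ℤ) : ℝ) *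
        ((n : ℝ) / e - ((n / e : ℕ) : ℝ))|
        ≤ ∑ e ∈ Finset.Icc 1 n, |((ArithmeticFunction.moebius e : ℤ) : ℝ) *
        ((n : ℝ) / e - ((n / e : ℕ) : ℝ))| := Finset.abs_sum_le_sum_abs _ _
      _ ≤ ∑ _e ∈ Finset.Icc 1 n, (1 : ℝ) := by
          apply Finset.sum_le_sum
          intro e he
          rw [Finset.mem_Icc] at he
          have he0 : (0 : ℝ) < e := by exact_mod_cast he.1
          rw [abs_mul]
          have h5 : |(n : ℝ) / e - ((n / e : ℕ) : ℝ)| ≤ 1 := by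
            have h6 : ((n / e : ℕ) : ℝ) ≤ (n : ℝ) / e := Nat.cast_div_le
            have h7 : (n : ℝ) / e < ((n / e : ℕ) : ℝ) + 1 := by
              rw [div_lt_iff₀ he0]
              have h8 : n < (n / e + 1) * e := by
                have := Nat.lt_div_mul_add (a := n) (b := e) he.1
                linarith [this, Nat.add_mul (n / e) 1 e]
              exact_mod_cast h8
            rw [abs_le]
            constructor <;> linarith
          calc |((ArithmeticFunction.moebius e : ℤ) : ℝ)| * |(n : ℝ) / e - ((n / e : ℕ) : ℝ)|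
              ≤ 1 * 1 := mul_le_mul (MobLog_mu_abs e) h5 (abs_nonneg _) zero_le_one
            _ = 1 := one_mul 1
      _ = n := by simp
  have h5 : |(n : ℝ) * ∑ e ∈ Finset.Icc 1 n, ((ArithmeticFunction.moebius e : ℤ) : ℝ) / e|
      ≤ 1 + n := by
    rw [h3]
    refine (abs_add_le _ _).trans ?_
    rw [abs_one]
    linarith
  rw [abs_mul, abs_of_pos hn0] at h5
  have hn1 : (1 : ℝ) ≤ n := by exact_mod_cast hn
  by_contra hcon
  push Not at hcon
  nlinarith [h5, hcon, hn1]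

theorem MobLog_harm (k : ℕ) (hk : 1 ≤ k) (x : ℝ) (h1 : (k : ℝ) ≤ x) (h2 : x < k + 1) :
    |((harmonic k : ℚ) : ℝ) - Real.log x - Real.eulerMascheroniConstant| ≤ 2 / x := by
  have hk0 : (0 : ℝ) < k := by exact_mod_cast hk
  have hk1 : (1 : ℝ) ≤ k := by exact_mod_cast hk
  have hx0 : 0 < x := hk0.trans_le h1
  have h3 := Real.eulerMascheroniSeq_lt_eulerMascheroniConstant k
  have h4 := Real.eulerMascheroniConstant_lt_eulerMascheroniSeq' k
  have h5 : Real.eulerMascheroniSeq' k = ((harmonic k : ℚ) : ℝ) - Real.log k := by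
    unfold Real.eulerMascheroniSeq'
    rw [if_neg (by omega)]
  have h6 : Real.eulerMascheroniSeq k = ((harmonic k : ℚ) : ℝ) - Real.log (k + 1) := rfl
  rw [h5] at h4
  rw [h6] at h3
  have h7 : Real.log k ≤ Real.log x := Real.log_le_log hk0 h1
  have h8 : Real.log x ≤ Real.log (k + 1) := Real.log_le_log hx0 h2.le
  have h9 : Real.log (k + 1) - Real.log k ≤ 1 / k := by
    rw [← Real.log_div (by positivity) hk0.ne']
    have h10 : ((k : ℝ) + 1) / k = 1 + 1 / k := by
      field_simp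
    rw [h10]
    have := Real.log_le_sub_one_of_pos (show (0 : ℝ) < 1 + 1 / k by positivity)
    linarith
  have h10 : 1 / (k : ℝ) ≤ 2 / x := by
    rw [div_le_div_iff₀ hk0 hx0]
    linarith
  rw [abs_le]
  constructor
  · linarith
  · linarith

theorem MobLog_harmonic (k : ℕ) : ∑ m ∈ Finset.Icc 1 k, 1 / (m : ℝ) = ((harmonic k : ℚ) : ℝ) := by
  induction k with
  | zero => simp
  | succ k ih =>
    rw [Finset.sum_Icc_succ_top (by omega), ih, harmonic_succ]
    push_cast
    rw [one_div]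

/-- `|∑_{e ≤ X} μ(e)/e log(X/e)| ≤ C`.

PROOF. `F(x) = ∑_{n ≤ x} x/n = x (log x + γ) + O(1)`, and `∑_{e ≤ X} μ(e) F(X/e) = X` (Möbius
inversion). So `X ∑ μ(e)/e log(X/e) = X - γ X ∑ μ(e)/e + O(X)`, `|∑_{e≤X} μ(e)/e| ≤ 1` (e.g.
`Pool.Agent.H91.…Msq.sum_moebius_coprime`, file H91/PK/Msq, with `g = 1`, or
`∑ μ(e) ⌊X/e⌋ = 1`). Harmonic sums: `Mathlib/NumberTheory/Harmonic/EulerMascheroni`. -/
theorem moebius_log : ∃ C : ℝ, 0 < C ∧ ∀ X : ℝ, 1 ≤ X →
    |∑ e ∈ Finset.Icc 1 ⌊X⌋₊, ((ArithmeticFunction.moebius e : ℤ) : ℝ) / e * Real.log (X / e)| ≤ C := by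
  refine ⟨3 + 2 * |Real.eulerMascheroniConstant|, by positivity, ?_⟩
  intro X hX
  set n : ℕ := ⌊X⌋₊ with hn
  have hX0 : 0 < X := zero_lt_one.trans_le hX
  have hn1 : 1 ≤ n := Nat.one_le_floor_iff X |>.mpr hX
  have hnX : (n : ℝ) ≤ X := Nat.floor_le hX0.le
  -- the identity
  have h1 := MobLog_exchange n hn1 (fun k => 1 / (k : ℝ))
  have h2 : ∀ e ∈ Finset.Icc 1 n, ((ArithmeticFunction.moebius e : ℤ) : ℝ) *
      ∑ m ∈ Finset.Icc 1 (n / e), 1 / ((e * m : ℕ) : ℝ)
      = ((ArithmeticFunction.moebius e : ℤ) : ℝ) / e * ((harmonic (n / e) : ℚ) : ℝ) := by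
    intro e he
    rw [← MobLog_harmonic, Finset.mul_sum, Finset.mul_sum]
    apply Finset.sum_congr rfl
    intro m _
    push_cast
    rw [div_mul_div_comm, mul_one, mul_one_div]
  rw [Finset.sum_congr rfl h2] at h1
  simp only [Nat.cast_one, div_one] at h1
  have h3 : ∑ e ∈ Finset.Icc 1 n, ((ArithmeticFunction.moebius e : ℤ) : ℝ) / e * Real.log (X / e)
      = 1 - Real.eulerMascheroniConstant *
          ∑ e ∈ Finset.Icc 1 n, ((ArithmeticFunction.moebius e : ℤ) : ℝ) / e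
        - ∑ e ∈ Finset.Icc 1 n, ((ArithmeticFunction.moebius e : ℤ) : ℝ) / e *
          (((harmonic (n / e) : ℚ) : ℝ) - Real.log (X / e) - Real.eulerMascheroniConstant) := by
    rw [← h1, Finset.mul_sum, ← Finset.sum_sub_distrib, ← Finset.sum_sub_distrib]
    apply Finset.sum_congr rfl
    intro e _
    ring
  have h4 : |∑ e ∈ Finset.Icc 1 n, ((ArithmeticFunction.moebius e : ℤ) : ℝ) / e *
          (((harmonic (n / e) : ℚ) : ℝ) - Real.log (X / e) - Real.eulerMascheroniConstant)| ≤ 2 := by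
    calc |∑ e ∈ Finset.Icc 1 n, ((ArithmeticFunction.moebius e : ℤ) : ℝ) / e *
          (((harmonic (n / e) : ℚ) : ℝ) - Real.log (X / e) - Real.eulerMascheroniConstant)|
        ≤ ∑ e ∈ Finset.Icc 1 n, |((ArithmeticFunction.moebius e : ℤ) : ℝ) / e *
          (((harmonic (n / e) : ℚ) : ℝ) - Real.log (X / e) - Real.eulerMascheroniConstant)| :=
          Finset.abs_sum_le_sum_abs _ _
      _ ≤ ∑ _e ∈ Finset.Icc 1 n, 2 / X := by
          apply Finset.sum_le_sum
          intro e he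
          rw [Finset.mem_Icc] at he
          have he0 : (0 : ℝ) < e := by exact_mod_cast he.1
          have hfl : ⌊X / e⌋₊ = n / e := by rw [hn, Nat.floor_div_natCast]
          have hk1 : 1 ≤ n / e := Nat.div_pos he.2 he.1
          have hxe0 : 0 < X / e := div_pos hX0 he0
          have hle : ((n / e : ℕ) : ℝ) ≤ X / e := by
            rw [← hfl]
            exact Nat.floor_le hxe0.le
          have hlt : X / e < ((n / e : ℕ) : ℝ) + 1 := by
            rw [← hfl]
            exact Nat.lt_floor_add_one _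
          have h5 := MobLog_harm (n / e) hk1 (X / e) hle hlt
          rw [abs_mul, abs_div, abs_of_pos he0]
          have h6 : |((ArithmeticFunction.moebius e : ℤ) : ℝ)| / (e : ℝ) ≤ 1 / e :=
            div_le_div_of_nonneg_right (MobLog_mu_abs e) he0.le
          calc |((ArithmeticFunction.moebius e : ℤ) : ℝ)| / (e : ℝ) *
              |((harmonic (n / e) : ℚ) : ℝ) - Real.log (X / e) - Real.eulerMascheroniConstant|
              ≤ 1 / e * (2 / (X / e)) :=
                mul_le_mul h6 h5 (abs_nonneg _) (by positivity)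
            _ = 2 / X := by field_simp
      _ = n * (2 / X) := by simp
      _ ≤ X * (2 / X) := mul_le_mul_of_nonneg_right hnX (by positivity)
      _ = 2 := by field_simp
  have h5 := MobLog_mu_sum n hn1
  rw [h3]
  have h6 : |Real.eulerMascheroniConstant *
          ∑ e ∈ Finset.Icc 1 n, ((ArithmeticFunction.moebius e : ℤ) : ℝ) / e|
        ≤ |Real.eulerMascheroniConstant| * 2 := by
    rw [abs_mul]
    exact mul_le_mul_of_nonneg_left h5 (abs_nonneg _)
  rw [abs_le] at h4 h6 ⊢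
  constructor <;> linarith [h4.1, h4.2, h6.1, h6.2]

end Pool.Agent.H14.CO
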