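import Pool.Agent.H14.CO.Az
import Pool.Agent.H95.GC.CoreA

/-!
# CO module Rel: the relation between the window function and a zero
-/

set_option autoImplicit false

namespace Pool.Agent.H14.CO

open Set MeasureTheory Complex Pool.Agent.H95.GC

/-- the cut-off attached to `ρ`. -/
noncomputable def Rel_Phi (h ν : ℝ) (ρ : ℂ) (r : ℝ) : ℂ :=
  vc h (ν - r) + vd h (ν - r) / (ρ - 1)

theorem Rel_continuous_Phi (h ν : ℝ) (hh : 0 < h) (ρ : ℂ) : Continuous (Rel_Phi h ν ρ) := by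
  unfold Rel_Phi
  have h1 := continuous_vc h hh
  have h2 := continuous_vd h hh
  fun_prop

theorem Rel_one_le_norm (ρ : ℂ) (h : 1 ≤ |ρ.im|) : 1 ≤ ‖ρ - 1‖ := by
  have h1 : |(ρ - 1).im| ≤ ‖ρ - 1‖ := Complex.abs_im_le_norm _
  have h2 : (ρ - 1).im = ρ.im := by simp
  rw [h2] at h1
  linarith

/-- `Φ` is small for `r → +∞`. -/
theorem Rel_Phi_bound : ∃ C : ℝ, 0 < C ∧ ∀ h ν : ℝ, 1 ≤ h → ∀ ρ : ℂ, 1 ≤ |ρ.im| → ∀ r : ℝ,
    ‖Rel_Phi h ν ρ r‖ ≤ C * Real.exp (3 * (ν - r) + 96 * h) := by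
  obtain ⟨C1, hC1, h1⟩ := vc_bound 3 (by norm_num)
  obtain ⟨C2, hC2, h2⟩ := vd_bound 3
  refine ⟨C1 + C2, by positivity, fun h ν hh ρ hρ r => ?_⟩
  have h3 := h1 h (ν - r) hh
  have h4 := h2 h (ν - r) hh
  have h5 := Rel_one_le_norm ρ hρ
  have e1 : (32 : ℝ) * h * 3 = 96 * h := by ring
  have e2 : (32 : ℝ) * h * |(3 : ℝ)| = 96 * h := by rw [abs_of_pos (by norm_num : (0:ℝ) < 3)]; ring
  rw [e1] at h3
  rw [e2] at h4
  unfold Rel_Phi
  calc ‖vc h (ν - r) + vd h (ν - r) / (ρ - 1)‖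
      ≤ ‖vc h (ν - r)‖ + ‖vd h (ν - r) / (ρ - 1)‖ := norm_add_le _ _
    _ ≤ ‖vc h (ν - r)‖ + ‖vd h (ν - r)‖ := by
        rw [norm_div]
        gcongr
        exact div_le_self (norm_nonneg _) h5
    _ ≤ _ := by rw [add_mul]; exact add_le_add h3 h4

/-- `Φ` is near one for `r → -∞`. -/
theorem Rel_Phi_bound' (B : ℝ) (hB : 1 ≤ B) : ∃ C : ℝ, 0 < C ∧ ∀ h ν : ℝ, 1 ≤ h → ∀ ρ : ℂ,
    1 ≤ |ρ.im| → ∀ r : ℝ,
    ‖Rel_Phi h ν ρ r - 1‖ ≤ C * Real.exp (-B * (ν - r) + 32 * h * B) := by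
  obtain ⟨C1, hC1, h1⟩ := vc_bound' B (by linarith)
  obtain ⟨C2, hC2, h2⟩ := vd_bound (-B)
  refine ⟨C1 + C2, by positivity, fun h ν hh ρ hρ r => ?_⟩
  have h3 := h1 h (ν - r) hh
  have h4 := h2 h (ν - r) hh
  have h5 := Rel_one_le_norm ρ hρ
  have e2 : |(-B : ℝ)| = B := by rw [abs_neg, abs_of_pos (by linarith)]
  rw [e2] at h4
  unfold Rel_Phi
  calc ‖vc h (ν - r) + vd h (ν - r) / (ρ - 1) - 1‖
      = ‖-(1 - vc h (ν - r)) + vd h (ν - r) / (ρ - 1)‖ := by congr 1; ring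
    _ ≤ ‖-(1 - vc h (ν - r))‖ + ‖vd h (ν - r) / (ρ - 1)‖ := norm_add_le _ _
    _ ≤ ‖1 - vc h (ν - r)‖ + ‖vd h (ν - r)‖ := by
        rw [norm_div, norm_neg]
        gcongr
        exact div_le_self (norm_nonneg _) h5
    _ ≤ _ := by rw [add_mul]; exact add_le_add h3 h4

/-- the majorant of one term, as a function of `u`. -/
noncomputable def Rel_maj (u : ℝ) : ℝ := (Ioi (-1 : ℝ)).indicator (fun u => Real.exp (-u)) u

theorem Rel_maj_nonneg (u : ℝ) : 0 ≤ Rel_maj u := by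
  unfold Rel_maj
  apply indicator_nonneg
  intro x _
  positivity

theorem Rel_integrable_maj : Integrable Rel_maj := by
  unfold Rel_maj
  rw [integrable_indicator_iff measurableSet_Ioi]
  exact integrableOn_exp_neg_Ioi (-1)

/-- the terms. -/
noncomputable def Rel_F (δ h ν : ℝ) (ρ : ℂ) (l : ℕ) (u : ℝ) : ℂ :=
  (g δ u : ℂ) * (Complex.exp (-ρ * ((u + Real.log (l + 1 : ℕ) : ℝ) : ℂ)) *
    Rel_Phi h ν ρ (u + Real.log (l + 1 : ℕ)))

theorem Rel_log_nonneg (l : ℕ) : 0 ≤ Real.log (l + 1 : ℕ) := Real.log_natCast_nonneg _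

theorem Rel_exp_log (l : ℕ) : Real.exp (-3 * Real.log (l + 1 : ℕ)) = 1 / ((l + 1 : ℕ) : ℝ) ^ 3 := by
  have h1 : (0 : ℝ) < ((l + 1 : ℕ) : ℝ) := by positivity
  rw [show (-3 : ℝ) * Real.log (l + 1 : ℕ) = -(3 * Real.log (l + 1 : ℕ)) by ring, Real.exp_neg,
    show (3 : ℝ) * Real.log (l + 1 : ℕ) = ((3 : ℕ) : ℝ) * Real.log (l + 1 : ℕ) by norm_num,
    Real.exp_nat_mul, Real.exp_log h1, one_div]

theorem Rel_F_bound (δ h ν : ℝ) (ρ : ℂ) (hδ0 : 0 < δ) (hδ1 : δ ≤ 1 / 2) (h0 : 1 / 2 ≤ ρ.re)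
    (h1 : ρ.re < 1) (C : ℝ) (hC : 0 < C)
    (hb : ∀ r : ℝ, ‖Rel_Phi h ν ρ r‖ ≤ C * Real.exp (3 * (ν - r) + 96 * h)) (l : ℕ) (u : ℝ) :
    ‖Rel_F δ h ν ρ l u‖ ≤ ((1 + Real.exp 1) * Real.exp 1 * Real.exp 1 *
      (C * Real.exp (3 * ν + 96 * h))) * (1 / ((l + 1 : ℕ) : ℝ) ^ 3) * Rel_maj u := by
  by_cases hu : u ≤ -1
  · unfold Rel_F
    rw [g_eq_zero δ u hδ0 (by linarith) hu]
    have := Rel_maj_nonneg u
    simp only [Complex.ofReal_zero, zero_mul, norm_zero]
    positivity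
  · rw [not_le] at hu
    have hm : Rel_maj u = Real.exp (-u) := by
      unfold Rel_maj
      rw [indicator_of_mem (show u ∈ Ioi (-1 : ℝ) from hu)]
    rw [hm]
    set k := Real.log (l + 1 : ℕ) with hk
    have hk0 : 0 ≤ k := Rel_log_nonneg l
    have hg : |g δ u| ≤ (1 + Real.exp 1) * Real.exp u := by
      have h2 := abs_g_le δ u hδ0 (by linarith)
      have h3 : 1 ≤ Real.exp 1 * Real.exp u := by
        rw [← Real.exp_add]; exact Real.one_le_exp (by linarith)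
      nlinarith
    have he : ‖Complex.exp (-ρ * ((u + k : ℝ) : ℂ))‖ ≤ Real.exp 1 := by
      rw [Complex.norm_exp]
      have h2 : (-ρ * ((u + k : ℝ) : ℂ)).re = -ρ.re * (u + k) := by
        rw [Complex.mul_re, Complex.ofReal_re, Complex.ofReal_im]
        simp
      rw [h2]
      apply Real.exp_le_exp.2
      nlinarith
    have hp := hb (u + k)
    unfold Rel_F
    rw [norm_mul, norm_mul, Complex.norm_real, Real.norm_eq_abs]
    calc |g δ u| * (‖Complex.exp (-ρ * ((u + k : ℝ) : ℂ))‖ * ‖Rel_Phi h ν ρ (u + k)‖)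
        ≤ ((1 + Real.exp 1) * Real.exp u) * (Real.exp 1 *
            (C * Real.exp (3 * (ν - (u + k)) + 96 * h))) := by gcongr
      _ = ((1 + Real.exp 1) * Real.exp 1) * C * (Real.exp u *
            Real.exp (3 * (ν - (u + k)) + 96 * h)) := by ring
      _ = ((1 + Real.exp 1) * Real.exp 1) * C * (Real.exp (3 * ν + 96 * h) * Real.exp (-3 * k) *
            Real.exp (-u) * Real.exp (-u)) := by
          congr 1
          rw [← Real.exp_add, ← Real.exp_add, ← Real.exp_add, ← Real.exp_add]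
          congr 1
          ring
      _ ≤ ((1 + Real.exp 1) * Real.exp 1) * C * (Real.exp (3 * ν + 96 * h) * Real.exp (-3 * k) *
            Real.exp 1 * Real.exp (-u)) := by
          gcongr
          linarith
      _ = _ := by rw [hk, Rel_exp_log]; ring

theorem Rel_F_measurable (δ h ν : ℝ) (hh : 0 < h) (ρ : ℂ) (l : ℕ) :
    Measurable (Rel_F δ h ν ρ l) := by
  unfold Rel_F
  have h1 := measurable_g δ
  have h2 := (Rel_continuous_Phi h ν hh ρ).measurable
  have h3 : Measurable (fun u : ℝ => Complex.exp (-ρ * ((u + Real.log (l + 1 : ℕ) : ℝ) : ℂ))) := by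
    have : Continuous (fun u : ℝ => Complex.exp (-ρ * ((u + Real.log (l + 1 : ℕ) : ℝ) : ℂ))) := by
      fun_prop
    exact this.measurable
  exact (Complex.measurable_ofReal.comp h1).mul (h3.mul (h2.comp (by fun_prop)))

theorem Rel_summable_cube : Summable (fun l : ℕ => 1 / ((l + 1 : ℕ) : ℝ) ^ 3) := by
  have h := (Real.summable_one_div_nat_pow (p := 3)).2 (by norm_num)
  exact (summable_nat_add_iff 1).2 h

theorem Rel_pointwise_F (δ h ν : ℝ) (hh : 0 < h) (ρ : ℂ) (h0 : 1 / 2 ≤ ρ.re)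
    (h1 : ρ.re < 1) (u : ℝ) :
    ∑' l : ℕ, Rel_F δ h ν ρ l u = (g δ u : ℂ) * Complex.exp (-ρ * u) * az h (ν - u) ρ := by
  rw [az_series h (ν - u) hh ρ h0 h1, ← tsum_mul_left]
  apply tsum_congr
  intro l
  unfold Rel_F Rel_Phi
  have e1 : Complex.exp (-ρ * ((u + Real.log (l + 1 : ℕ) : ℝ) : ℂ))
      = Complex.exp (-ρ * u) * ((l + 1 : ℕ) : ℂ) ^ (-ρ) := by
    rw [Complex.cpow_def_of_ne_zero (by exact_mod_cast Nat.succ_ne_zero l), ← Complex.exp_add]
    congr 1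
    have e0 : Complex.log ((l + 1 : ℕ) : ℂ) = ((Real.log ((l + 1 : ℕ) : ℝ) : ℝ) : ℂ) :=
      (Complex.natCast_log (n := l + 1)).symm
    rw [e0]
    push_cast
    ring
  rw [e1, sub_sub]
  ring

/-- the sum of the shifted window functions. -/
theorem Rel_sum_g (δ r : ℝ) (hδ0 : 0 < δ) (hδ1 : δ ≤ 1 / 2) :
    HasSum (fun l : ℕ => g δ (r - Real.log (l + 1 : ℕ)))
      (if |1 - Real.exp r| < δ * Real.exp r / 2 then 1 else 0) := by
  obtain ⟨K, hK⟩ := exists_nat_ge (3 * Real.exp r / 2)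
  have hw := window_identity δ (Real.exp r) hδ0 (by linarith) (Real.exp_pos r) K hK
  have hg : ∀ l : ℕ, g δ (r - Real.log (l + 1 : ℕ))
      = M (Real.exp r / (l + 1 : ℕ)) (δ * (Real.exp r / (l + 1 : ℕ))) := by
    intro l
    unfold g
    rw [Real.exp_sub, Real.exp_log (by positivity)]
  have hs : ∑ k ∈ Finset.Icc 1 K, M (Real.exp r / k) (δ * (Real.exp r / k))
      = ∑ l ∈ Finset.range K, g δ (r - Real.log (l + 1 : ℕ)) := by
    rw [Finset.range_eq_Ico, Finset.sum_Ico_add' (fun k : ℕ => g δ (r - Real.log (k : ℕ))) 0 K 1]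
    apply Finset.sum_congr
    · ext k; simp only [Finset.mem_Icc, Finset.mem_Ico]; omega
    · intro k hk
      have hk1 : 1 ≤ k := by
        have := Finset.mem_Ico.1 hk
        omega
      obtain ⟨l, rfl⟩ : ∃ l, k = l + 1 := ⟨k - 1, by omega⟩
      rw [hg]
  rw [← hw, hs]
  apply hasSum_sum_of_ne_finset_zero
  intro l hl
  rw [hg]
  have hl' : K ≤ l := by
    by_contra hc
    exact hl (Finset.mem_range.2 (by omega))
  have h1 : (K : ℝ) < ((l + 1 : ℕ) : ℝ) := by exact_mod_cast Nat.lt_succ_of_le hl'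
  have h2 : (0 : ℝ) < ((l + 1 : ℕ) : ℝ) := by positivity
  apply M_eq_zero _ _ hδ0 (by linarith) (by positivity)
  rw [div_le_iff₀ h2]
  linarith

theorem Rel_norm_integral_le (f : ℝ → ℂ) (a b K : ℝ) (hab : a ≤ b)
    (hb : ∀ x ∈ Ioo a b, ‖f x‖ ≤ K) : ‖∫ x in Ioo a b, f x‖ ≤ K * (b - a) := by
  have h := norm_setIntegral_le_of_norm_le_const (μ := volume) (s := Ioo a b) (f := f) (C := K)
    (by simp) hb
  simpa [Measure.real, Real.volume_Ioo, ENNReal.toReal_ofReal (sub_nonneg.2 hab)] using h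

theorem rel (B : ℝ) (hB : 1 ≤ B) : ∃ C : ℝ, 0 < C ∧ ∀ h ν δ : ℝ, 1 ≤ h → 0 < δ → δ ≤ 1 / 2 →
    ∀ ρ : ℂ, 1 / 2 ≤ ρ.re → ρ.re < 1 → 1 ≤ |ρ.im| →
    Integrable (fun u : ℝ => (g δ u : ℂ) * Complex.exp (-ρ * u) * az h (ν - u) ρ) ∧
    ‖(∫ u : ℝ, (g δ u : ℂ) * Complex.exp (-ρ * u) * az h (ν - u) ρ) -
      ∫ v in Ioo (-Real.log (1 + δ / 2)) (-Real.log (1 - δ / 2)), Complex.exp (-ρ * v)‖
      ≤ C * δ * Real.exp (-B * ν + 32 * h * B) := by
  obtain ⟨C1, hC1, hb1⟩ := Rel_Phi_bound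
  obtain ⟨C2, hC2, hb2⟩ := Rel_Phi_bound' B hB
  refine ⟨4 * C2 * Real.exp (B / 2), by positivity, ?_⟩
  intro h ν δ hh hδ0 hδ1 ρ h0 h1 him
  have hh0 : 0 < h := by linarith
  set K1 : ℝ := (1 + Real.exp 1) * Real.exp 1 * Real.exp 1 *
      (C1 * Real.exp (3 * ν + 96 * h)) with hK1
  have hK1p : 0 ≤ K1 := by positivity
  have hFb : ∀ l u, ‖Rel_F δ h ν ρ l u‖ ≤ K1 * (1 / ((l + 1 : ℕ) : ℝ) ^ 3) * Rel_maj u := fun l u =>
    Rel_F_bound δ h ν ρ hδ0 hδ1 h0 h1 C1 hC1 (fun r => hb1 h ν hh ρ him r) l u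
  have hFi : ∀ l, Integrable (Rel_F δ h ν ρ l) := fun l =>
    (Rel_integrable_maj.const_mul (K1 * (1 / ((l + 1 : ℕ) : ℝ) ^ 3))).mono'
      (Rel_F_measurable δ h ν hh0 ρ l).aestronglyMeasurable (Filter.Eventually.of_forall (hFb l))
  have hFn : ∀ l, ∫ u, ‖Rel_F δ h ν ρ l u‖ ≤
      K1 * (1 / ((l + 1 : ℕ) : ℝ) ^ 3) * ∫ u, Rel_maj u := by
    intro l
    rw [← integral_const_mul]
    exact integral_mono (hFi l).norm (Rel_integrable_maj.const_mul _) (hFb l)
  have hFs : Summable (fun l => ∫ u, ‖Rel_F δ h ν ρ l u‖) := by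
    refine Summable.of_nonneg_of_le (fun l => integral_nonneg fun u => norm_nonneg _) hFn ?_
    exact (Rel_summable_cube.mul_left K1).mul_right _
  -- integrability of the sum
  have haz : Continuous (fun r : ℝ => az h r ρ) :=
    continuous_iff_continuousAt.2 fun r => (az_deriv h hh0 ρ r).continuousAt
  have hsumF : ∀ u, Summable (fun l => Rel_F δ h ν ρ l u) := by
    intro u
    refine Summable.of_norm_bounded ?_ (fun l => hFb l u)
    exact (Rel_summable_cube.mul_left K1).mul_right _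
  have hint : Integrable (fun u : ℝ => (g δ u : ℂ) * Complex.exp (-ρ * u) * az h (ν - u) ρ) := by
    have hm : Measurable (fun u : ℝ => (g δ u : ℂ) * Complex.exp (-ρ * u) * az h (ν - u) ρ) := by
      have m1 := Complex.measurable_ofReal.comp (measurable_g δ)
      have m2 : Measurable (fun u : ℝ => Complex.exp (-ρ * u)) := by
        have : Continuous (fun u : ℝ => Complex.exp (-ρ * u)) := by fun_prop
        exact this.measurable
      have m3 : Measurable (fun u : ℝ => az h (ν - u) ρ) := by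
        have : Continuous (fun u : ℝ => az h (ν - u) ρ) := by
          exact haz.comp (by fun_prop : Continuous (fun u : ℝ => ν - u))
        exact this.measurable
      exact (m1.mul m2).mul m3
    refine (Rel_integrable_maj.const_mul (K1 * ∑' l : ℕ, 1 / ((l + 1 : ℕ) : ℝ) ^ 3)).mono'
      hm.aestronglyMeasurable (Filter.Eventually.of_forall fun u => ?_)
    rw [← Rel_pointwise_F δ h ν hh0 ρ h0 h1 u]
    refine (norm_tsum_le_tsum_norm (hsumF u).norm).trans ?_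
    calc ∑' l, ‖Rel_F δ h ν ρ l u‖ ≤ ∑' l : ℕ, K1 * (1 / ((l + 1 : ℕ) : ℝ) ^ 3) * Rel_maj u := by
          exact (hsumF u).norm.tsum_le_tsum (fun l => hFb l u)
            ((Rel_summable_cube.mul_left K1).mul_right _)
      _ = _ := by rw [tsum_mul_right, tsum_mul_left]
  refine ⟨hint, ?_⟩
  -- the main identity
  have hI1 : ∫ u : ℝ, (g δ u : ℂ) * Complex.exp (-ρ * u) * az h (ν - u) ρ
      = ∑' l, ∫ u, Rel_F δ h ν ρ l u := by
    rw [integral_tsum_of_summable_integral_norm hFi hFs]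
    apply integral_congr_ae
    filter_upwards with u
    rw [Rel_pointwise_F δ h ν hh0 ρ h0 h1 u]
  have hH : ∀ l r, Rel_F δ h ν ρ l (r - Real.log (l + 1 : ℕ))
      = (g δ (r - Real.log (l + 1 : ℕ)) : ℂ) * (Complex.exp (-ρ * r) * Rel_Phi h ν ρ r) := by
    intro l r
    unfold Rel_F
    rw [sub_add_cancel]
  have hI2 : ∑' l, ∫ u, Rel_F δ h ν ρ l u
      = ∫ r, ∑' l : ℕ, Rel_F δ h ν ρ l (r - Real.log (l + 1 : ℕ)) := by
    rw [← integral_tsum_of_summable_integral_norm]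
    · apply tsum_congr
      intro l
      exact (integral_sub_right_eq_self (fun u => Rel_F δ h ν ρ l u) _).symm
    · intro l
      exact (hFi l).comp_sub_right _
    · have : ∀ l : ℕ, ∫ r, ‖Rel_F δ h ν ρ l (r - Real.log (l + 1 : ℕ))‖ =
          ∫ u, ‖Rel_F δ h ν ρ l u‖ := fun l =>
        integral_sub_right_eq_self (fun u => ‖Rel_F δ h ν ρ l u‖) _
      simpa only [this] using hFs
  have hI3 : ∀ r, ∑' l : ℕ, Rel_F δ h ν ρ l (r - Real.log (l + 1 : ℕ))
      = (Ioo (-Real.log (1 + δ / 2)) (-Real.log (1 - δ / 2))).indicator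
        (fun r : ℝ => Complex.exp (-ρ * r) * Rel_Phi h ν ρ r) r := by
    intro r
    have hs := Rel_sum_g δ r hδ0 hδ1
    have hs' : ∑' l : ℕ, ((g δ (r - Real.log (l + 1 : ℕ)) : ℝ) : ℂ)
        = ((if |1 - Real.exp r| < δ * Real.exp r / 2 then (1 : ℝ) else 0 : ℝ) : ℂ) := by
      rw [← hs.tsum_eq, Complex.ofReal_tsum]
    have : ∀ l : ℕ, Rel_F δ h ν ρ l (r - Real.log (l + 1 : ℕ))
      = ((g δ (r - Real.log (l + 1 : ℕ)) : ℝ) : ℂ) * (Complex.exp (-ρ * r) * Rel_Phi h ν ρ r) :=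
      fun l => hH l r
    rw [tsum_congr this, tsum_mul_right, hs']
    have hiff : |1 - Real.exp r| < δ * Real.exp r / 2 ↔
        r ∈ Ioo (-Real.log (1 + δ / 2)) (-Real.log (1 - δ / 2)) := by
      have p1 : 0 < 1 + δ / 2 := by positivity
      have p2 : 0 < 1 - δ / 2 := by linarith
      rw [abs_lt, mem_Ioo, ← Real.log_inv, ← Real.log_inv,
        Real.log_lt_iff_lt_exp (by positivity), Real.lt_log_iff_exp_lt (by positivity)]
      constructor
      · rintro ⟨a1, a2⟩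
        constructor
        · rw [inv_lt_iff_one_lt_mul₀ p1]; linarith
        · rw [lt_inv_comm₀ (Real.exp_pos r) p2, ← one_div, lt_div_iff₀ (Real.exp_pos r)]
          linarith
      · rintro ⟨a1, a2⟩
        rw [inv_lt_iff_one_lt_mul₀ p1] at a1
        rw [lt_inv_comm₀ (Real.exp_pos r) p2, ← one_div, lt_div_iff₀ (Real.exp_pos r)] at a2
        constructor <;> linarith
    by_cases hc : |1 - Real.exp r| < δ * Real.exp r / 2
    · rw [if_pos hc, indicator_of_mem (hiff.1 hc)]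
      simp
    · rw [if_neg hc, indicator_of_notMem (fun hm => hc (hiff.2 hm))]
      simp
  rw [hI1, hI2]
  simp_rw [hI3]
  rw [integral_indicator measurableSet_Ioo]
  -- the error
  have l1 : Real.log (1 + δ / 2) ≤ δ / 2 := by
    have := Real.log_le_sub_one_of_pos (show 0 < 1 + δ / 2 by positivity)
    linarith
  have l2 : -Real.log (1 - δ / 2) ≤ δ := by
    have p2 : 0 < 1 - δ / 2 := by linarith
    have := Real.log_le_sub_one_of_pos (inv_pos.2 p2)
    rw [Real.log_inv] at this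
    have h3 : (1 - δ / 2)⁻¹ ≤ 1 + δ := by
      rw [inv_le_iff_one_le_mul₀ p2]
      nlinarith
    linarith
  have l3 : 0 ≤ Real.log (1 + δ / 2) := Real.log_nonneg (by linarith)
  have l4 : Real.log (1 - δ / 2) ≤ 0 := Real.log_nonpos (by linarith) (by linarith)
  have hcont1 : Continuous (fun r : ℝ => Complex.exp (-ρ * r) * Rel_Phi h ν ρ r) := by
    have := Rel_continuous_Phi h ν hh0 ρ
    fun_prop
  have hcont2 : Continuous (fun r : ℝ => Complex.exp (-ρ * r)) := by fun_prop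
  rw [← integral_sub (hcont1.integrableOn_Icc.mono_set Ioo_subset_Icc_self)
    (hcont2.integrableOn_Icc.mono_set Ioo_subset_Icc_self)]
  have hfin := Rel_norm_integral_le
    (fun r : ℝ => Complex.exp (-ρ * r) * Rel_Phi h ν ρ r - Complex.exp (-ρ * r))
    (-Real.log (1 + δ / 2)) (-Real.log (1 - δ / 2))
    (2 * (C2 * (Real.exp (B / 2) * Real.exp (-B * ν + 32 * h * B))))
    (by linarith) (by
      intro r hr
      have hr1 : |r| ≤ 1 / 2 := by
        rw [abs_le]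
        constructor
        · linarith [hr.1]
        · linarith [hr.2]
      have e1 : Complex.exp (-ρ * r) * Rel_Phi h ν ρ r - Complex.exp (-ρ * r)
          = Complex.exp (-ρ * r) * (Rel_Phi h ν ρ r - 1) := by ring
      have e2 : ‖Complex.exp (-ρ * (r : ℂ))‖ ≤ 2 := by
        rw [Complex.norm_exp]
        have h2 : (-ρ * ((r : ℝ) : ℂ)).re = -ρ.re * r := by
          rw [Complex.mul_re, Complex.ofReal_re, Complex.ofReal_im]
          simp
        rw [h2]
        have h3 : -ρ.re * r ≤ 1 / 2 := by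
          have := (abs_le.1 hr1).1
          nlinarith
        calc Real.exp (-ρ.re * r) ≤ Real.exp (1 / 2) := Real.exp_le_exp.2 h3
          _ ≤ 2 := by
            have h4 : Real.exp (1 / 2) * Real.exp (1 / 2) = Real.exp 1 := by
              rw [← Real.exp_add]; norm_num
            have h5 := Real.exp_one_lt_d9
            have h6 := Real.exp_pos (1 / 2)
            nlinarith
      have e3 := hb2 h ν hh ρ him r
      have e4 : Real.exp (-B * (ν - r) + 32 * h * B)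
          ≤ Real.exp (B / 2) * Real.exp (-B * ν + 32 * h * B) := by
        rw [← Real.exp_add]
        apply Real.exp_le_exp.2
        have := (abs_le.1 hr1).2
        nlinarith
      rw [e1, norm_mul]
      calc ‖Complex.exp (-ρ * (r : ℂ))‖ * ‖Rel_Phi h ν ρ r - 1‖
          ≤ 2 * (C2 * Real.exp (-B * (ν - r) + 32 * h * B)) := by gcongr
        _ ≤ _ := by gcongr)
  refine hfin.trans ?_
  have h9 : -Real.log (1 - δ / 2) - -Real.log (1 + δ / 2) ≤ 2 * δ := by linarith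
  calc 2 * (C2 * (Real.exp (B / 2) * Real.exp (-B * ν + 32 * h * B))) *
        (-Real.log (1 - δ / 2) - -Real.log (1 + δ / 2))
      ≤ 2 * (C2 * (Real.exp (B / 2) * Real.exp (-B * ν + 32 * h * B))) * (2 * δ) := by gcongr
    _ = _ := by ring

end Pool.Agent.H14.CO
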