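import Pool.Agent.H14.CO.Defs

/-!
# CO module Select: choosing separated points
-/

set_option autoImplicit false

namespace Pool.Agent.H14.CO

open Set MeasureTheory Complex

private lemma Select_sum (g : ℝ → ℝ) (hg : Continuous g) (Gd : Set ℝ)
    (hGd : MeasurableSet Gd) (a ℓ : ℝ) (hℓ : 0 < ℓ) (n : ℕ) :
    ∫ x in Gd ∩ Ico a (a + n * ℓ), g x =
      ∑ j ∈ Finset.range n, ∫ x in Gd ∩ Ico (a + j * ℓ) (a + (j + 1) * ℓ), g x := by
  induction n with
  | zero => simp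
  | succ n ih =>
    rw [Finset.sum_range_succ, ← ih]
    have h1 : Gd ∩ Ico a (a + ((n + 1 : ℕ) : ℝ) * ℓ) =
        (Gd ∩ Ico a (a + n * ℓ)) ∪ (Gd ∩ Ico (a + n * ℓ) (a + (n + 1) * ℓ)) := by
      rw [← inter_union_distrib_left, Ico_union_Ico_eq_Ico]
      · push_cast; rfl
      · have : 0 ≤ (n : ℝ) * ℓ := by positivity
        linarith
      · nlinarith
    rw [h1]
    refine setIntegral_union ?_ (hGd.inter measurableSet_Ico) ?_ ?_
    · refine Disjoint.mono inter_subset_right inter_subset_right ?_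
      rw [Set.disjoint_left]
      intro x hx hx'
      exact absurd hx.2 (not_lt.2 hx'.1)
    · exact (hg.integrableOn_Icc (a := a) (b := a + n * ℓ)).mono_set
        (inter_subset_right.trans Ico_subset_Icc_self)
    · exact (hg.integrableOn_Icc (a := a + n * ℓ) (b := a + (n + 1) * ℓ)).mono_set
        (inter_subset_right.trans Ico_subset_Icc_self)

private lemma Select_cell (g : ℝ → ℝ) (hg : Continuous g) (hg0 : ∀ t, 0 ≤ g t) (Gd : Set ℝ)
    (b ℓ : ℝ) (hℓ : 0 < ℓ) (hv : volume (Gd ∩ Ico b (b + ℓ)) ≠ 0) :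
    ∃ t ∈ Gd ∩ Ico b (b + ℓ), ∫ x in Gd ∩ Ico b (b + ℓ), g x ≤ ℓ * g t := by
  have hle : volume (Gd ∩ Ico b (b + ℓ)) ≤ ENNReal.ofReal ℓ := by
    refine (measure_mono inter_subset_right).trans ?_
    rw [Real.volume_Ico]
    ring_nf
    exact le_rfl
  have htop : volume (Gd ∩ Ico b (b + ℓ)) ≠ ⊤ := ne_top_of_le_ne_top ENNReal.ofReal_ne_top hle
  have hint : IntegrableOn g (Gd ∩ Ico b (b + ℓ)) :=
    (hg.integrableOn_Icc (a := b) (b := b + ℓ)).mono_set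
      (inter_subset_right.trans Ico_subset_Icc_self)
  obtain ⟨t, ht, htt⟩ := exists_setAverage_le hv htop hint
  refine ⟨t, ht, ?_⟩
  rw [setAverage_eq, smul_eq_mul] at htt
  have hr : 0 < volume.real (Gd ∩ Ico b (b + ℓ)) := by
    rw [Measure.real]
    exact ENNReal.toReal_pos hv htop
  have hr2 : volume.real (Gd ∩ Ico b (b + ℓ)) ≤ ℓ := by
    rw [Measure.real]
    exact ENNReal.toReal_le_of_le_ofReal hℓ.le hle
  have h3 : ∫ x in Gd ∩ Ico b (b + ℓ), g x ≤ volume.real (Gd ∩ Ico b (b + ℓ)) * g t := by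
    have := mul_le_mul_of_nonneg_left htt hr.le
    rwa [← mul_assoc, mul_inv_cancel₀ hr.ne', one_mul] at this
  exact h3.trans (mul_le_mul_of_nonneg_right hr2 (hg0 t))

private lemma Select_sep {a ℓ x y : ℝ} (hℓ : 0 < ℓ) {i j : ℕ} (hij : i + 2 ≤ j)
    (hx : x ∈ Ico (a + i * ℓ) (a + i * ℓ + ℓ)) (hy : y ∈ Ico (a + j * ℓ) (a + j * ℓ + ℓ)) :
    ℓ ≤ y - x := by
  have h1 : ((i : ℝ) + 2) * ℓ ≤ j * ℓ := by
    refine mul_le_mul_of_nonneg_right ?_ hℓ.le
    exact_mod_cast hij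
  have h2 := hx.2
  have h3 := hy.1
  nlinarith

/-- PROOF. Cells `J_j = [a + jℓ, a + (j+1)ℓ)`, `j < n`. For each `j` with `∫_{J_j ∩ Gd} g > 0` choose
`t_j ∈ J_j ∩ Gd` with `ℓ g(t_j) ≥ ∫_{J_j ∩ Gd} g` (otherwise `g < (∫)/ℓ` on `J_j ∩ Gd` and integrating
gives a contradiction since `|J_j ∩ Gd| ≤ ℓ`). `∑_j ∫_{J_j∩Gd} g = ∫_{Gd} g` (up to the null set
`{a + nℓ}`). Take the even or the odd `j`, whichever carries at least half; then
`|t_i - t_j| ≥ ℓ`. -/
theorem select (g : ℝ → ℝ) (hg : Continuous g) (hg0 : ∀ t, 0 ≤ g t) (Gd : Set ℝ)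
    (hGd : MeasurableSet Gd) (a ℓ : ℝ) (hℓ : 0 < ℓ) (n : ℕ) (hsub : Gd ⊆ Icc a (a + n * ℓ)) :
    ∃ (S : Finset ℕ) (t : ℕ → ℝ), (∀ j ∈ S, j < n ∧ t j ∈ Gd) ∧
      (∀ i ∈ S, ∀ j ∈ S, i ≠ j → ℓ ≤ |t i - t j|) ∧
      ∫ x in Gd, g x ≤ 2 * ℓ * ∑ j ∈ S, g (t j) := by
  classical
  set J : ℕ → Set ℝ := fun j => Gd ∩ Ico (a + j * ℓ) (a + j * ℓ + ℓ) with hJ
  have hchoice : ∀ j : ℕ, ∃ t : ℝ, volume (J j) ≠ 0 → t ∈ J j ∧ ∫ x in J j, g x ≤ ℓ * g t := by
    intro j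
    by_cases h : volume (J j) = 0
    · exact ⟨0, fun h' => absurd h h'⟩
    · obtain ⟨t, ht, ht2⟩ := Select_cell g hg hg0 Gd (a + j * ℓ) ℓ hℓ h
      exact ⟨t, fun _ => ⟨ht, ht2⟩⟩
  choose t ht using hchoice
  set A : Finset ℕ := (Finset.range n).filter (fun j => volume (J j) ≠ 0) with hA
  -- the integral
  have h1 : ∫ x in Gd, g x = ∑ j ∈ Finset.range n, ∫ x in J j, g x := by
    have hcong : ∫ x in Gd, g x = ∫ x in Gd ∩ Ico a (a + n * ℓ), g x := by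
      refine setIntegral_congr_set ?_
      have h2 : Gd = Gd ∩ Icc a (a + n * ℓ) := (inter_eq_left.2 hsub).symm
      conv_lhs => rw [h2]
      exact (Filter.EventuallyEq.rfl).inter Ico_ae_eq_Icc.symm
    rw [hcong, Select_sum g hg Gd hGd a ℓ hℓ n]
    refine Finset.sum_congr rfl fun j _ => ?_
    have : a + ((j : ℝ) + 1) * ℓ = a + j * ℓ + ℓ := by ring
    rw [this]
  have h2 : ∫ x in Gd, g x ≤ ∑ j ∈ A, ℓ * g (t j) := by
    rw [h1, hA, Finset.sum_filter]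
    refine Finset.sum_le_sum fun j _ => ?_
    by_cases h : volume (J j) = 0
    · rw [if_neg (by simpa using h), setIntegral_measure_zero _ h]
    · rw [if_pos h]; exact (ht j h).2
  have hsplit : ∑ j ∈ A, ℓ * g (t j) =
      ∑ j ∈ A.filter (fun j => j % 2 = 0), ℓ * g (t j) +
        ∑ j ∈ A.filter (fun j => ¬ j % 2 = 0), ℓ * g (t j) :=
    (Finset.sum_filter_add_sum_filter_not A (fun j => j % 2 = 0) _).symm
  have key : ∀ S : Finset ℕ, S ⊆ A → (∀ i ∈ S, ∀ j ∈ S, i % 2 = j % 2) →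
      (∀ j ∈ S, j < n ∧ t j ∈ Gd) ∧ (∀ i ∈ S, ∀ j ∈ S, i ≠ j → ℓ ≤ |t i - t j|) := by
    intro S hSA hpar
    have hmem : ∀ j ∈ S, j < n ∧ volume (J j) ≠ 0 := by
      intro j hj
      have := hSA hj
      rw [hA, Finset.mem_filter, Finset.mem_range] at this
      exact this
    refine ⟨fun j hj => ⟨(hmem j hj).1, (ht j (hmem j hj).2).1.1⟩, ?_⟩
    intro i hi j hj hij
    have hi' := (ht i (hmem i hi).2).1.2
    have hj' := (ht j (hmem j hj).2).1.2
    have hp := hpar i hi j hj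
    rcases lt_or_gt_of_ne hij with h | h
    · have := Select_sep hℓ (show i + 2 ≤ j by omega) hi' hj'
      rw [abs_sub_comm]
      exact this.trans (le_abs_self _)
    · have := Select_sep hℓ (show j + 2 ≤ i by omega) hj' hi'
      exact this.trans (le_abs_self _)
  rcases le_total (∑ j ∈ A.filter (fun j => j % 2 = 0), ℓ * g (t j))
      (∑ j ∈ A.filter (fun j => ¬ j % 2 = 0), ℓ * g (t j)) with hcase | hcase
  · refine ⟨A.filter (fun j => ¬ j % 2 = 0), t, ?_⟩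
    obtain ⟨k1, k2⟩ := key (A.filter (fun j => ¬ j % 2 = 0)) (Finset.filter_subset _ _) (by
      intro i hi j hj
      rw [Finset.mem_filter] at hi hj
      omega)
    refine ⟨k1, k2, ?_⟩
    rw [mul_assoc, Finset.mul_sum]
    linarith
  · refine ⟨A.filter (fun j => j % 2 = 0), t, ?_⟩
    obtain ⟨k1, k2⟩ := key (A.filter (fun j => j % 2 = 0)) (Finset.filter_subset _ _) (by
      intro i hi j hj
      rw [Finset.mem_filter] at hi hj
      omega)
    refine ⟨k1, k2, ?_⟩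
    rw [mul_assoc, Finset.mul_sum]
    linarith

end Pool.Agent.H14.CO
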