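import Pool.Agent.H14.CO.CBL
import Pool.Agent.H14.CO.Interp

/-!
# CO module U: mean square of `ζ M M` near the critical line
-/

set_option autoImplicit false

namespace Pool.Agent.H14.CO

open Set MeasureTheory Complex

private lemma U_line (k q : ℝ → ℝ) (hkc : Continuous k) (hk0 : ∀ y, 0 ≤ k y)
    (Φ : ℝ → ℝ → ℝ)
    (hΦc : Continuous (fun p : ℝ × ℝ => Φ p.1 p.2)) (hΦ0 : ∀ t y, 0 ≤ Φ t y)
    (B : ℝ) (hB : 0 ≤ B)
    (hI : ∀ y, Integrable (fun t => Φ t y))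
    (hb : ∀ y, ∫ t, Φ t y ≤ B * q y)
    (hk : Integrable (fun y => q y * k y)) (C4 : ℝ)
    (hC4 : ∫ y, q y * k y ≤ C4) :
    Integrable (fun t => ∫ y, k y * Φ t y) ∧ ∫ t, ∫ y, k y * Φ t y ≤ B * C4 := by
  have hFc : Continuous (fun p : ℝ × ℝ => k p.2 * Φ p.1 p.2) :=
    (hkc.comp continuous_snd).mul hΦc
  have hFm : AEStronglyMeasurable (fun p : ℝ × ℝ => k p.2 * Φ p.1 p.2)
      ((volume : Measure ℝ).prod (volume : Measure ℝ)) := hFc.aestronglyMeasurable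
  have hpt : ∀ y, ∫ t, ‖k y * Φ t y‖ = k y * ∫ t, Φ t y := by
    intro y
    rw [← integral_const_mul]
    refine integral_congr_ae (Filter.Eventually.of_forall fun t => ?_)
    simp only [Real.norm_eq_abs]
    exact abs_of_nonneg (mul_nonneg (hk0 y) (hΦ0 t y))
  have hkey : ∀ y, k y * ∫ t, Φ t y ≤ B * (q y * k y) := by
    intro y
    calc k y * ∫ t, Φ t y ≤ k y * (B * q y) :=
          mul_le_mul_of_nonneg_left (hb y) (hk0 y)
      _ = B * (q y * k y) := by ring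
  have hFi : Integrable (fun p : ℝ × ℝ => k p.2 * Φ p.1 p.2)
      ((volume : Measure ℝ).prod (volume : Measure ℝ)) := by
    rw [integrable_prod_iff' hFm]
    refine ⟨Filter.Eventually.of_forall fun y => (hI y).const_mul (k y), ?_⟩
    refine Integrable.mono' (hk.const_mul B) ?_ (Filter.Eventually.of_forall fun y => ?_)
    · exact hFm.norm.prod_swap.integral_prod_right'
    · simp only [hpt]
      rw [Real.norm_eq_abs, abs_of_nonneg (mul_nonneg (hk0 y)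
        (integral_nonneg fun t => hΦ0 t y))]
      exact hkey y
  refine ⟨hFi.integral_prod_left, ?_⟩
  have hsw : ∫ t, ∫ y, k y * Φ t y = ∫ y, ∫ t, k y * Φ t y :=
    integral_integral_swap (f := fun t y => k y * Φ t y) hFi
  rw [hsw]
  have h2 : ∫ y, ∫ t, k y * Φ t y ≤ ∫ y, B * (q y * k y) := by
    refine integral_mono ?_ (hk.const_mul B) fun y => ?_
    · exact hFi.integral_prod_right
    · change ∫ t, k y * Φ t y ≤ _
      rw [integral_const_mul]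
      exact hkey y
  refine h2.trans ?_
  rw [integral_const_mul]
  exact mul_le_mul_of_nonneg_left hC4 hB


private lemma U_shift (z₀ : ℝ) (s : ℂ) (τ W v t : ℝ) (w₁ w₂ : ℂ) :
    ‖riemannZeta (pt s (t + v)) * (Mo z₀ (pt w₁ t) * Mo z₀ (pt w₂ t))‖ ^ 2 * gw τ W t
      = ‖riemannZeta (pt s (t + v)) * (Mo z₀ (pt (w₁ - v * I) (t + v)) *
        Mo z₀ (pt (w₂ - v * I) (t + v)))‖ ^ 2 * gw (τ + v) W (t + v) := by
  have e1 : ∀ w : ℂ, pt (w - v * I) (t + v) = pt w t := by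
    intro w
    unfold pt
    push_cast
    ring
  have e2 : gw (τ + v) W (t + v) = gw τ W t := by
    unfold gw
    have : t + v - (τ + v) = t - τ := by ring
    rw [this]
  rw [e1, e1, e2]

private lemma U_norm (L K : ℝ) (hL : 0 < L) (hK : 1 ≤ K) (w₀ w : ℂ) (y : ℝ)
    (h0 : |w₀.re| ≤ K / L) :
    1 + L * ‖w - ((w₀.im + y : ℝ) : ℂ) * I‖ ≤
      (1 + L * ‖w₀ - w‖) * ((1 + K) * (K * (1 + L / K * |y|))) := by
  have e : w - ((w₀.im + y : ℝ) : ℂ) * I = (w - w₀) + (w₀.re : ℂ) + (-(y : ℂ) * I) := by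
    have h := Complex.re_add_im w₀
    push_cast
    linear_combination -h
  have hn : ‖w - ((w₀.im + y : ℝ) : ℂ) * I‖ ≤ ‖w₀ - w‖ + |w₀.re| + |y| := by
    rw [e]
    refine (norm_add_le _ _).trans ?_
    refine add_le_add ((norm_add_le _ _).trans ?_) ?_
    · rw [norm_sub_rev w w₀]
      refine add_le_add le_rfl ?_
      rw [Complex.norm_real, Real.norm_eq_abs]
    · rw [norm_mul, Complex.norm_I, mul_one, norm_neg, Complex.norm_real, Real.norm_eq_abs]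
  have hK0 : 0 < K := by linarith
  have hA : 0 ≤ L * ‖w₀ - w‖ := by positivity
  have hB : 0 ≤ L * |y| := by positivity
  have e2 : K * (1 + L / K * |y|) = K + L * |y| := by
    field_simp
  have h1 : L * |w₀.re| ≤ K := by
    calc L * |w₀.re| ≤ L * (K / L) := mul_le_mul_of_nonneg_left h0 hL.le
      _ = K := by field_simp
  have h2 : 1 + L * ‖w - ((w₀.im + y : ℝ) : ℂ) * I‖ ≤ 1 + (L * ‖w₀ - w‖ + K + L * |y|) := by
    have := mul_le_mul_of_nonneg_left hn hL.le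
    nlinarith
  refine h2.trans ?_
  rw [e2]
  set A := L * ‖w₀ - w‖
  set B := L * |y|
  have h3 : 1 + A + K + B ≤ (1 + A) * ((1 + K) * (1 + B)) := by
    have i1 : 0 ≤ A * K := mul_nonneg hA hK0.le
    have i2 : 0 ≤ A * B := mul_nonneg hA hB
    have i3 : 0 ≤ K * B := mul_nonneg hK0.le hB
    have i4 : 0 ≤ A * (K * B) := mul_nonneg hA i3
    have i5 : (1 + A) * ((1 + K) * (1 + B)) =
        1 + A + K + B + (A * K + A * B + K * B + A * (K * B)) := by ring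
    rw [i5]
    linarith only [i1, i2, i3, i4]
  have h4 : (1 + A) * ((1 + K) * (1 + B)) ≤ (1 + A) * ((1 + K) * (K + B)) := by
    refine mul_le_mul_of_nonneg_left ?_ (by linarith)
    exact mul_le_mul_of_nonneg_left (by linarith) (by linarith)
  linarith

private lemma U_exp (K : ℝ) (hK : 1 ≤ K) : ((1 + K) * K) ^ 8 ≤ Real.exp (16 * K) := by
  have hK0 : 0 < K := by linarith
  have k1 : 1 + K ≤ Real.exp K := by
    have := Real.add_one_le_exp K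
    linarith
  have k2 : K ≤ Real.exp K := by linarith
  have j1 : (1 + K) * K ≤ Real.exp (2 * K) := by
    calc (1 + K) * K ≤ Real.exp K * Real.exp K :=
          mul_le_mul k1 k2 hK0.le (Real.exp_pos _).le
      _ = Real.exp (2 * K) := by rw [← Real.exp_add]; ring_nf
  calc ((1 + K) * K) ^ 8 ≤ (Real.exp (2 * K)) ^ 8 :=
        pow_le_pow_left₀ (by positivity) j1 8
    _ = Real.exp (16 * K) := by rw [← Real.exp_nat_mul]; congr 1; push_cast; ring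

private lemma U_pow (K X A1 A2 n1 n2 : ℝ) (hK : 1 ≤ K) (hX : 1 ≤ X) (hA1 : 0 < A1)
    (hA2 : 0 < A2) (hn1 : 0 ≤ n1) (hn2 : 0 ≤ n2)
    (h1 : n1 ≤ A1 * ((1 + K) * (K * X))) (h2 : n2 ≤ A2 * ((1 + K) * (K * X))) :
    n1 ^ 4 * n2 ^ 4 ≤ (A1 ^ 4 * A2 ^ 4) * (Real.exp (16 * K) * X ^ 30) := by
  have hK0 : 0 < K := by linarith
  have hX0 : 0 < X := by linarith
  have i1 : n1 ^ 4 ≤ (A1 * ((1 + K) * (K * X))) ^ 4 := pow_le_pow_left₀ hn1 h1 4
  have i2 : n2 ^ 4 ≤ (A2 * ((1 + K) * (K * X))) ^ 4 := pow_le_pow_left₀ hn2 h2 4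
  have i3 := mul_le_mul i1 i2 (pow_nonneg hn2 4) (by positivity)
  refine i3.trans ?_
  have e : (A1 * ((1 + K) * (K * X))) ^ 4 * (A2 * ((1 + K) * (K * X))) ^ 4 =
      (A1 ^ 4 * A2 ^ 4) * (((1 + K) * K) ^ 8 * X ^ 8) := by ring
  rw [e]
  refine mul_le_mul_of_nonneg_left ?_ (by positivity)
  exact mul_le_mul (U_exp K hK) (pow_le_pow_right₀ hX (by norm_num)) (by positivity)
    (Real.exp_pos _).le

private lemma U_tau (T τ u y : ℝ) (N : ℕ) (hT : 1 ≤ T) :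
    (1 + |τ + (u + y)| / T) ^ N ≤ (1 + |τ + u| / T) ^ N * (1 + |y|) ^ N := by
  rw [← mul_pow]
  refine pow_le_pow_left₀ (by positivity) ?_ N
  have hT0 : 0 < T := by linarith
  have j1 : |τ + (u + y)| ≤ |τ + u| + |y| := by
    have : τ + (u + y) = (τ + u) + y := by ring
    rw [this]
    exact abs_add_le _ _
  have j2 : |τ + (u + y)| / T ≤ |τ + u| / T + |y| := by
    calc |τ + (u + y)| / T ≤ (|τ + u| + |y|) / T := by gcongr
      _ = |τ + u| / T + |y| / T := add_div _ _ _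
      _ ≤ |τ + u| / T + |y| := by
          have := div_le_self (abs_nonneg y) hT
          linarith
  have j3 : 0 ≤ |τ + u| / T := by positivity
  have j4 : 0 ≤ |y| := abs_nonneg y
  nlinarith [mul_nonneg j3 j4]

private lemma U_comb (A P P' E X30 Q D Y : ℝ) (hA : 0 ≤ A) (hP : P ≤ P' * (E * X30))
    (hQ : Q ≤ D * Y) (hQ0 : 0 ≤ Q) (hP'0 : 0 ≤ P' * (E * X30)) :
    A * P * Q ≤ (A * P' * D * E) * (X30 * Y) := by
  calc A * P * Q ≤ A * (P' * (E * X30)) * (D * Y) :=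
        mul_le_mul (mul_le_mul_of_nonneg_left hP hA) hQ hQ0 (mul_nonneg hA hP'0)
    _ = _ := by ring

/-- inner bound for one line, all shifts. -/
private lemma U_inner (z₀ T L K h A τ W : ℝ) (N : ℕ) (hT : 1 ≤ T) (hL : 0 < L) (hK : 1 ≤ K)
    (hh : h = L / K) (hA : 0 ≤ A) (s : ℂ) (w₀ w₁ w₂ : ℂ)
    (h0 : |w₀.re| ≤ K / L) (h1 : |w₁.re| ≤ K / L) (h2 : |w₂.re| ≤ K / L)
    (hCB : ∀ τ' : ℝ, ∀ v₁ v₂ : ℂ, |v₁.re| ≤ 2 * K / L → |v₂.re| ≤ 2 * K / L →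
      Integrable (fun t : ℝ => ‖riemannZeta (pt s t) *
        (Mo z₀ (pt v₁ t) * Mo z₀ (pt v₂ t))‖ ^ 2 * gw τ' W t) ∧
      ∫ t : ℝ, ‖riemannZeta (pt s t) * (Mo z₀ (pt v₁ t) * Mo z₀ (pt v₂ t))‖ ^ 2 * gw τ' W t
        ≤ A * ((1 + L * ‖v₁‖) ^ 4 * (1 + L * ‖v₂‖) ^ 4) * (1 + |τ'| / T) ^ N) (y : ℝ) :
    Integrable (fun t : ℝ => ‖riemannZeta (pt s (t + (w₀.im + y))) *
        (Mo z₀ (pt w₁ t) * Mo z₀ (pt w₂ t))‖ ^ 2 * gw τ W t) ∧
    ∫ t : ℝ, ‖riemannZeta (pt s (t + (w₀.im + y))) *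
        (Mo z₀ (pt w₁ t) * Mo z₀ (pt w₂ t))‖ ^ 2 * gw τ W t
      ≤ (A * ((1 + L * ‖w₀ - w₁‖) ^ 4 * (1 + L * ‖w₀ - w₂‖) ^ 4) *
          (1 + |τ + w₀.im| / T) ^ N * Real.exp (16 * K)) *
          ((1 + h * |y|) ^ 30 * (1 + |y|) ^ N) := by
  have hK0 : 0 < K := by linarith
  have hKL : K / L ≤ 2 * K / L := by
    rw [mul_div_assoc]
    have : 0 ≤ K / L := by positivity
    linarith
  have hr : ∀ w : ℂ, |w.re| ≤ K / L →
      |(w - ((w₀.im + y : ℝ) : ℂ) * I).re| ≤ 2 * K / L := by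
    intro w hw
    have : (w - ((w₀.im + y : ℝ) : ℂ) * I).re = w.re := by simp
    rw [this]
    exact hw.trans hKL
  obtain ⟨hI, hb⟩ := hCB (τ + (w₀.im + y)) (w₁ - ((w₀.im + y : ℝ) : ℂ) * I)
    (w₂ - ((w₀.im + y : ℝ) : ℂ) * I) (hr w₁ h1) (hr w₂ h2)
  have hfun : (fun t : ℝ => ‖riemannZeta (pt s (t + (w₀.im + y))) *
        (Mo z₀ (pt w₁ t) * Mo z₀ (pt w₂ t))‖ ^ 2 * gw τ W t) =
      fun t => (fun t : ℝ => ‖riemannZeta (pt s t) *
        (Mo z₀ (pt (w₁ - ((w₀.im + y : ℝ) : ℂ) * I) t) *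
        Mo z₀ (pt (w₂ - ((w₀.im + y : ℝ) : ℂ) * I) t))‖ ^ 2 *
        gw (τ + (w₀.im + y)) W t) (t + (w₀.im + y)) := by
    funext t
    exact U_shift z₀ s τ W (w₀.im + y) t w₁ w₂
  rw [hfun]
  refine ⟨hI.comp_add_right (w₀.im + y), ?_⟩
  refine (le_of_eq (integral_add_right_eq_self (fun t : ℝ => ‖riemannZeta (pt s t) *
        (Mo z₀ (pt (w₁ - ((w₀.im + y : ℝ) : ℂ) * I) t) *
        Mo z₀ (pt (w₂ - ((w₀.im + y : ℝ) : ℂ) * I) t))‖ ^ 2 *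
        gw (τ + (w₀.im + y)) W t) (w₀.im + y))).trans (hb.trans ?_)
  have hn1 := U_norm L K hL hK w₀ w₁ y h0
  have hn2 := U_norm L K hL hK w₀ w₂ y h0
  rw [← hh] at hn1 hn2
  have hh0 : 0 < h := by rw [hh]; positivity
  have hx : 1 ≤ 1 + h * |y| := by
    have : 0 ≤ h * |y| := by positivity
    linarith
  have hp := U_pow K (1 + h * |y|) (1 + L * ‖w₀ - w₁‖) (1 + L * ‖w₀ - w₂‖) _ _ hK hx
    (by positivity) (by positivity) (by positivity) (by positivity) hn1 hn2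
  have hq := U_tau T τ w₀.im y N hT
  exact U_comb A _ _ _ _ _ _ _ hA hp hq (by positivity) (by positivity)

private lemma U_growth : ∃ C : ℝ, 0 < C ∧ ∀ t : ℝ, ∀ z : ℂ, |z.re| ≤ 1 / 4 →
    DifferentiableAt ℂ (fun w => riemannZeta (pt w t)) z ∧
    ‖riemannZeta (pt z t)‖ ≤ (C * (2 + |t|) ^ 4) * (1 + |z.im|) ^ 4 := by
  obtain ⟨C, hC, hg⟩ := Zt_growth 1 le_rfl
  refine ⟨4 * C, by positivity, fun t z hz => ?_⟩
  have hre : (pt z t).re = 1 / 2 + z.re := by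
    simp [pt]
  have hz' := abs_le.mp hz
  have hne : pt z t ≠ 1 := by
    intro h
    have : (pt z t).re = 1 := by rw [h]; simp
    rw [hre] at this
    linarith [hz'.2]
  refine ⟨?_, ?_⟩
  · have h1 : DifferentiableAt ℂ riemannZeta (pt z t) := differentiableAt_riemannZeta hne
    have h2 : DifferentiableAt ℂ (fun w => pt w t) z := by
      unfold pt
      fun_prop
    exact h1.comp z h2
  · have h1 := hg (pt z t) (by rw [hre]; linarith [hz'.1])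
    rw [Zt_eq _ hne, norm_mul] at h1
    have h2 : 1 / 4 ≤ ‖pt z t - 1‖ := by
      have h3 := Complex.abs_re_le_norm (pt z t - 1)
      have h4 : (pt z t - 1).re = -(1 / 2) + z.re := by
        rw [Complex.sub_re, hre, Complex.one_re]; ring
      rw [h4] at h3
      have h5 : |(-(1 / 2) + z.re : ℝ)| = 1 / 2 - z.re := by
        rw [abs_of_nonpos (by linarith [hz'.2])]; ring
      rw [h5] at h3
      linarith [hz'.2]
    have h6 : ‖pt z t‖ ≤ 3 / 4 + |z.im| + |t| := by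
      have h7 := Complex.norm_le_abs_re_add_abs_im (pt z t)
      have h8 : (pt z t).im = z.im + t := by simp [pt]
      rw [hre, h8] at h7
      have h9 : |1 / 2 + z.re| ≤ 3 / 4 := by
        rw [abs_le]; constructor <;> linarith [hz'.1, hz'.2]
      have h10 := abs_add_le z.im t
      linarith
    have h11 : 1 + ‖pt z t‖ ≤ (2 + |t|) * (1 + |z.im|) := by
      have h12 : 0 ≤ |t| := abs_nonneg t
      have h13 : 0 ≤ |z.im| := abs_nonneg _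
      nlinarith [mul_nonneg h12 h13]
    have h14 : C * (1 + ‖pt z t‖) ^ ((1 : ℝ) + 3) ≤ C * ((2 + |t|) * (1 + |z.im|)) ^ 4 := by
      have e : ((1 : ℝ) + 3) = ((4 : ℕ) : ℝ) := by norm_num
      rw [e, Real.rpow_natCast]
      exact mul_le_mul_of_nonneg_left (pow_le_pow_left₀ (by positivity) h11 4) hC.le
    have h15 : 1 / 4 * ‖riemannZeta (pt z t)‖ ≤ C * ((2 + |t|) * (1 + |z.im|)) ^ 4 :=
      (mul_le_mul_of_nonneg_right h2 (norm_nonneg _)).trans (h1.trans h14)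
    have h16 : C * ((2 + |t|) * (1 + |z.im|)) ^ 4 = C * (2 + |t|) ^ 4 * (1 + |z.im|) ^ 4 := by
      ring
    rw [h16] at h15
    have h17 : 4 * C * (2 + |t|) ^ 4 * (1 + |z.im|) ^ 4 =
        4 * (C * (2 + |t|) ^ 4 * (1 + |z.im|) ^ 4) := by ring
    rw [h17]
    linarith

private lemma U_ker_cont (h σ : ℝ) (hσ : σ ≠ 0) :
    Continuous (fun y : ℝ => ‖kn h (σ + y * I) / (σ + y * I)‖) := by
  have h1 : Continuous (fun y : ℝ => ((σ : ℂ) + y * I)) := by fun_prop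
  refine (Continuous.div ((differentiable_kn h).continuous.comp h1) h1 fun y => ?_).norm
  intro h0
  apply hσ
  have := congrArg Complex.re h0
  simpa using this

private lemma U_kint (k q : ℝ → ℝ) (hkc : Continuous k) (hk0 : ∀ y, 0 ≤ k y)
    (hq : ∀ y, 1 ≤ q y) (hk : Integrable (fun y => q y * k y)) (C4 : ℝ)
    (hC4 : ∫ y, q y * k y ≤ C4) : ∫ y, k y ≤ C4 := by
  have hle : ∀ y, k y ≤ q y * k y := by
    intro y
    have := mul_le_mul_of_nonneg_right (hq y) (hk0 y)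
    linarith
  have hki : Integrable k := by
    refine Integrable.mono' hk hkc.aestronglyMeasurable (Filter.Eventually.of_forall fun y => ?_)
    rw [Real.norm_eq_abs, abs_of_nonneg (hk0 y)]
    exact hle y
  exact (integral_mono hki hk hle).trans hC4

private lemma U_zcont (s : ℂ) (hs : s.re < 1 / 2) : Continuous (fun t : ℝ => riemannZeta (pt s t)) := by
  rw [continuous_iff_continuousAt]
  intro t
  have hne : pt s t ≠ 1 := by
    intro h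
    have h1 : (pt s t).re = 1 := by rw [h]; simp
    have h2 : (pt s t).re = 1 / 2 + s.re := by simp [pt]
    linarith
  have h1 : ContinuousAt riemannZeta (pt s t) := (differentiableAt_riemannZeta hne).continuousAt
  have h2 : Continuous (fun t : ℝ => pt s t) := by
    unfold pt
    fun_prop
  exact ContinuousAt.comp (f := fun t : ℝ => pt s t) h1 h2.continuousAt

private lemma U_ptcont (w : ℂ) : Continuous (fun t : ℝ => pt w t) := by
  unfold pt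
  fun_prop

private lemma U_gwcont (τ W : ℝ) : Continuous (fun t : ℝ => gw τ W t) := by
  unfold gw
  fun_prop

/-- one line: the double integral. -/
private lemma U_one (z₀ τ W h σ C4 B : ℝ) (N : ℕ) (s : ℂ) (hs : s.re < 1 / 2) (w₀ w₁ w₂ : ℂ)
    (hσ : σ ≠ 0) (hh : 0 < h) (hB : 0 ≤ B)
    (hk : Integrable (fun y : ℝ => (1 + h * |y|) ^ 30 * (1 + |y|) ^ N *
      ‖kn h (σ + y * I) / (σ + y * I)‖))
    (hC4 : ∫ y : ℝ, (1 + h * |y|) ^ 30 * (1 + |y|) ^ N * ‖kn h (σ + y * I) / (σ + y * I)‖ ≤ C4)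
    (hin : ∀ y : ℝ, Integrable (fun t : ℝ => ‖riemannZeta (pt s (t + (w₀.im + y))) *
        (Mo z₀ (pt w₁ t) * Mo z₀ (pt w₂ t))‖ ^ 2 * gw τ W t) ∧
      ∫ t : ℝ, ‖riemannZeta (pt s (t + (w₀.im + y))) *
        (Mo z₀ (pt w₁ t) * Mo z₀ (pt w₂ t))‖ ^ 2 * gw τ W t
      ≤ B * ((1 + h * |y|) ^ 30 * (1 + |y|) ^ N)) :
    Integrable (fun t : ℝ => ∫ y : ℝ, ‖kn h (σ + y * I) / (σ + y * I)‖ *
      (‖riemannZeta (pt s (t + (w₀.im + y))) *
        (Mo z₀ (pt w₁ t) * Mo z₀ (pt w₂ t))‖ ^ 2 * gw τ W t)) ∧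
    (∫ t : ℝ, ∫ y : ℝ, ‖kn h (σ + y * I) / (σ + y * I)‖ *
      (‖riemannZeta (pt s (t + (w₀.im + y))) *
        (Mo z₀ (pt w₁ t) * Mo z₀ (pt w₂ t))‖ ^ 2 * gw τ W t)) ≤ B * C4 ∧
    (∫ y : ℝ, ‖kn h (σ + y * I) / (σ + y * I)‖) ≤ C4 := by
  have hkc := U_ker_cont h σ hσ
  have hΦc : Continuous (fun p : ℝ × ℝ => ‖riemannZeta (pt s (p.1 + (w₀.im + p.2))) *
        (Mo z₀ (pt w₁ p.1) * Mo z₀ (pt w₂ p.1))‖ ^ 2 * gw τ W p.1) := by
    have c1 : Continuous (fun p : ℝ × ℝ => p.1 + (w₀.im + p.2)) := by fun_prop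
    have c2 := (U_zcont s hs).comp c1
    have c3 : Continuous (fun p : ℝ × ℝ => Mo z₀ (pt w₁ p.1)) :=
      (continuous_Mo z₀).comp ((U_ptcont w₁).comp continuous_fst)
    have c4 : Continuous (fun p : ℝ × ℝ => Mo z₀ (pt w₂ p.1)) :=
      (continuous_Mo z₀).comp ((U_ptcont w₂).comp continuous_fst)
    have c5 : Continuous (fun p : ℝ × ℝ => gw τ W p.1) := (U_gwcont τ W).comp continuous_fst
    exact ((c2.mul (c3.mul c4)).norm.pow 2).mul c5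
  have hmain := U_line (fun y : ℝ => ‖kn h (σ + y * I) / (σ + y * I)‖)
    (fun y : ℝ => (1 + h * |y|) ^ 30 * (1 + |y|) ^ N) hkc (fun y => norm_nonneg _)
    (fun t y : ℝ => ‖riemannZeta (pt s (t + (w₀.im + y))) *
        (Mo z₀ (pt w₁ t) * Mo z₀ (pt w₂ t))‖ ^ 2 * gw τ W t) hΦc
    (fun t y => mul_nonneg (sq_nonneg _) (Real.exp_pos _).le) B hB
    (fun y => (hin y).1) (fun y => (hin y).2) hk C4 hC4
  refine ⟨hmain.1, hmain.2, ?_⟩
  refine U_kint (fun y : ℝ => ‖kn h (σ + y * I) / (σ + y * I)‖)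
    (fun y : ℝ => (1 + h * |y|) ^ 30 * (1 + |y|) ^ N) hkc (fun y => norm_nonneg _) ?_ hk C4 hC4
  intro y
  have h1 : 1 ≤ 1 + h * |y| := by
    have : 0 ≤ h * |y| := by positivity
    linarith
  have h2 : 1 ≤ 1 + |y| := by
    have : 0 ≤ |y| := abs_nonneg y
    linarith
  exact one_le_mul_of_one_le_of_one_le (one_le_pow₀ h1) (one_le_pow₀ h2)

private lemma U_kern_const (C3 K L h σ : ℝ) (hC3 : 0 < C3) (hK : 1 ≤ K) (hL : 16 * K ≤ L)
    (hh : h = L / K) (h1 : K / L ≤ |σ|) (h2 : |σ| ≤ 3 * K / L) :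
    C3 * Real.exp (32 * h * |σ| + σ ^ 2) * (1 + 1 / (h * |σ|)) ≤ C3 * Real.exp 97 * 2 := by
  have hK0 : 0 < K := by linarith
  have hL0 : 0 < L := by linarith
  have hh0 : 0 < h := by rw [hh]; positivity
  have a1 : 1 ≤ h * |σ| := by
    calc (1 : ℝ) = L / K * (K / L) := by field_simp
      _ ≤ h * |σ| := by rw [hh]; exact mul_le_mul_of_nonneg_left h1 (by positivity)
  have a2 : h * |σ| ≤ 3 := by
    calc h * |σ| ≤ L / K * (3 * K / L) := by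
          rw [hh]; exact mul_le_mul_of_nonneg_left h2 (by positivity)
      _ = 3 := by field_simp
  have a3 : σ ^ 2 ≤ 1 := by
    have b1 : |σ| ≤ 1 := by
      refine h2.trans ?_
      rw [div_le_one hL0]
      linarith
    rw [← sq_abs]
    exact pow_le_one₀ (abs_nonneg σ) b1
  have a4 : 1 / (h * |σ|) ≤ 1 := by
    rw [div_le_one (by linarith)]
    exact a1
  have a5 : Real.exp (32 * h * |σ| + σ ^ 2) ≤ Real.exp 97 := by
    apply Real.exp_le_exp.mpr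
    have b1 : 32 * h * |σ| = 32 * (h * |σ|) := by ring
    rw [b1]
    linarith only [a2, a3]
  have a6 : 0 ≤ 1 / (h * |σ|) := by positivity
  refine mul_le_mul (mul_le_mul_of_nonneg_left a5 hC3.le) (by linarith) (by linarith)
    (by positivity)

private lemma U_fin (c c' e e' W L P Q : ℝ) (hce : c * e ≤ c' * e') (hW : 0 ≤ W) (hL : 0 ≤ L)
    (hP : 0 ≤ P) (hQ : 0 ≤ Q) : c * e * W * L * P * Q ≤ c' * e' * W * L * P * Q := by
  have h1 := mul_le_mul_of_nonneg_right hce hW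
  have h2 := mul_le_mul_of_nonneg_right h1 hL
  have h3 := mul_le_mul_of_nonneg_right h2 hP
  exact mul_le_mul_of_nonneg_right h3 hQ

/-- pointwise inequality at a fixed `t`. -/
private lemma U_point (z₀ τ W h a b C4 K L : ℝ) (hK : 1 ≤ K) (hL : 16 * K ≤ L) (hh : 0 < h)
    (ha : a = -(2 * K / L)) (hb : b = 2 * K / L)
    (w₀ w₁ w₂ : ℂ) (h0 : |w₀.re| ≤ K / L)
    (hka : (∫ y : ℝ, ‖kn h ((a - w₀.re : ℝ) + y * I) / ((a - w₀.re : ℝ) + y * I)‖) ≤ C4)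
    (hkb : (∫ y : ℝ, ‖kn h ((b - w₀.re : ℝ) + y * I) / ((b - w₀.re : ℝ) + y * I)‖) ≤ C4) (t : ℝ) :
    ‖riemannZeta (pt w₀ t) * (Mo z₀ (pt w₁ t) * Mo z₀ (pt w₂ t))‖ ^ 2 * gw τ W t ≤
      C4 * (∫ y : ℝ, ‖kn h ((a - w₀.re : ℝ) + y * I) / ((a - w₀.re : ℝ) + y * I)‖ *
        (‖riemannZeta (pt (a : ℂ) (t + (w₀.im + y))) *
        (Mo z₀ (pt w₁ t) * Mo z₀ (pt w₂ t))‖ ^ 2 * gw τ W t)) +
      C4 * (∫ y : ℝ, ‖kn h ((b - w₀.re : ℝ) + y * I) / ((b - w₀.re : ℝ) + y * I)‖ *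
        (‖riemannZeta (pt (b : ℂ) (t + (w₀.im + y))) *
        (Mo z₀ (pt w₁ t) * Mo z₀ (pt w₂ t))‖ ^ 2 * gw τ W t)) := by
  have hK0 : 0 < K := by linarith
  have hL0 : 0 < L := by linarith
  have hKL : 0 < K / L := by positivity
  have hb8 : 2 * K / L ≤ 1 / 8 := by
    rw [div_le_iff₀ hL0]; linarith
  have h2KL : 2 * K / L = 2 * (K / L) := by ring
  have h0' := abs_le.mp h0
  obtain ⟨C, hC, hg⟩ := U_growth
  have hzz : ∀ z : ℂ, a ≤ z.re → z.re ≤ b → |z.re| ≤ 1 / 4 := by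
    intro z hz1 hz2
    rw [abs_le]
    constructor
    · linarith
    · linarith
  have hint := interp (fun w => riemannZeta (pt w t)) a b
    (fun z hz1 hz2 => (hg t z (hzz z hz1 hz2)).1) (C * (2 + |t|) ^ 4) 4
    (fun z hz1 hz2 => (hg t z (hzz z hz1 hz2)).2) h 0 hh w₀
    (by rw [ha]; linarith) (by rw [hb]; linarith)
  have e0 : Real.exp (-2 * 0 * (w₀.re - a)) = 1 := by simp
  have e1 : Real.exp (2 * 0 * (b - w₀.re)) = 1 := by simp
  rw [e0, e1, one_mul, one_mul] at hint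
  have epa : ∀ (c y : ℝ), pt ((c : ℂ) + ((w₀.im : ℂ) + (y : ℂ)) * I) t =
      pt (c : ℂ) (t + (w₀.im + y)) := by
    intro c y
    unfold pt
    push_cast
    ring
  have hM : 0 ≤ ‖Mo z₀ (pt w₁ t) * Mo z₀ (pt w₂ t)‖ ^ 2 * gw τ W t :=
    mul_nonneg (sq_nonneg _) (Real.exp_pos _).le
  have hsplit : ∀ ζ : ℂ, ‖ζ * (Mo z₀ (pt w₁ t) * Mo z₀ (pt w₂ t))‖ ^ 2 * gw τ W t =
      ‖ζ‖ ^ 2 * (‖Mo z₀ (pt w₁ t) * Mo z₀ (pt w₂ t)‖ ^ 2 * gw τ W t) := by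
    intro ζ
    rw [norm_mul ζ, mul_pow]
    ring
  have hone : ∀ c : ℝ, (∫ y : ℝ, ‖kn h ((c - w₀.re : ℝ) + y * I) / ((c - w₀.re : ℝ) + y * I)‖ *
        (‖riemannZeta (pt (c : ℂ) (t + (w₀.im + y))) *
        (Mo z₀ (pt w₁ t) * Mo z₀ (pt w₂ t))‖ ^ 2 * gw τ W t)) =
      (∫ y : ℝ, ‖kn h ((c - w₀.re : ℝ) + y * I) / ((c - w₀.re : ℝ) + y * I)‖ *
        ‖riemannZeta (pt ((c : ℂ) + ((w₀.im : ℂ) + (y : ℂ)) * I) t)‖ ^ 2) *
        (‖Mo z₀ (pt w₁ t) * Mo z₀ (pt w₂ t)‖ ^ 2 * gw τ W t) := by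
    intro c
    rw [← integral_mul_const]
    congr 1
    funext y
    rw [hsplit, epa]
    ring
  rw [hsplit, hone a, hone b]
  have hIa : 0 ≤ ∫ y : ℝ, ‖kn h ((a - w₀.re : ℝ) + y * I) / ((a - w₀.re : ℝ) + y * I)‖ *
        ‖riemannZeta (pt ((a : ℂ) + ((w₀.im : ℂ) + (y : ℂ)) * I) t)‖ ^ 2 :=
    integral_nonneg fun y => mul_nonneg (norm_nonneg _) (sq_nonneg _)
  have hIb : 0 ≤ ∫ y : ℝ, ‖kn h ((b - w₀.re : ℝ) + y * I) / ((b - w₀.re : ℝ) + y * I)‖ *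
        ‖riemannZeta (pt ((b : ℂ) + ((w₀.im : ℂ) + (y : ℂ)) * I) t)‖ ^ 2 :=
    integral_nonneg fun y => mul_nonneg (norm_nonneg _) (sq_nonneg _)
  have j1 := mul_le_mul_of_nonneg_right hka hIa
  have j2 := mul_le_mul_of_nonneg_right hkb hIb
  have j3 := hint.trans (add_le_add j1 j2)
  have j4 := mul_le_mul_of_nonneg_right j3 hM
  refine j4.trans (le_of_eq ?_)
  ring

/-- The general upper bound (U).

PROOF. Fix `t`; `interp` for `G(w) = ζ(1/2 + it + w)` (if `1/2 + it + w = 1` could occur the strip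
`|Re w| ≤ 2K/L < 1/2` avoids it), lines `a = -2K/L`, `b = 2K/L`, `lm = 0`, `h = L/K`, at `w = w₀`
(`Re w₀ - a, b - Re w₀ ∈ [K/L, 3K/L]`, so `h|σ| ∈ [1,3]` in `kn_int`). Multiply by
`‖Mo (pt w₁ t) Mo (pt w₂ t)‖² gw τ W t`, integrate over `t` (Tonelli); for fixed `y` substitute
`t = t' - v`, `v = Im w₀ + y`: the `t`-integral becomes
`∫ ‖ζ(pt (±2K/L) t') Mo (pt (w₁ - iv) t') Mo (pt (w₂ - iv) t')‖² gw (τ+v) W t' dt'`, bounded by `CB` or
`CB_left` with `2K`; `‖w_i - iv‖ ≤ ‖w_i - w₀‖ + |Re w₀| + |y|`, so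
`(1+L‖w_i-iv‖)^4 ≤ (1+L‖w_i-w₀‖)^4 (1+K)^4 (1+L|y|)^4`, `1+L|y| ≤ K(1+h|y|)`, and
`(1+|τ+v|/T)^{301} ≤ (1+|τ+Im w₀|/T)^{301} (1+|y|)^{301}`; `kn_int` with `k = 301`. -/
theorem U (θ : ℝ) (hθ0 : 0 < θ) (hθ1 : θ ≤ 1 / 40) : ∃ C : ℝ, 0 < C ∧ ∀ K : ℝ, 1 ≤ K →
    ∃ T₀ : ℝ, Real.exp 3200 ≤ T₀ ∧ ∀ T : ℝ, T₀ ≤ T → ∀ τ W : ℝ, T ^ (9 / 10 : ℝ) ≤ W → W ≤ T / 2 →
    ∀ w₀ w₁ w₂ : ℂ, |w₀.re| ≤ K / Real.log T → |w₁.re| ≤ K / Real.log T →
    |w₂.re| ≤ K / Real.log T →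
    Integrable (fun t : ℝ => ‖riemannZeta (pt w₀ t) *
      (Mo (T ^ θ) (pt w₁ t) * Mo (T ^ θ) (pt w₂ t))‖ ^ 2 * gw τ W t) ∧
    ∫ t : ℝ, ‖riemannZeta (pt w₀ t) *
      (Mo (T ^ θ) (pt w₁ t) * Mo (T ^ θ) (pt w₂ t))‖ ^ 2 * gw τ W t
      ≤ C * Real.exp (C * K) * W * Real.log T * ((1 + Real.log T * ‖w₀ - w₁‖) ^ 4 *
        (1 + Real.log T * ‖w₀ - w₂‖) ^ 4) * (1 + |τ + w₀.im| / T) ^ 301 := by
  obtain ⟨N, hN⟩ : ∃ N : ℕ, N = 301 := ⟨_, rfl⟩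
  obtain ⟨N', hN'⟩ : ∃ N' : ℕ, N' = 300 := ⟨_, rfl⟩
  have hCBs := CB θ hθ0 hθ1
  have hCLs := CB_left θ hθ0 hθ1
  rw [← hN] at hCLs ⊢
  rw [← hN'] at hCBs
  obtain ⟨C1, hC1, h1⟩ := hCBs
  obtain ⟨C2, hC2, h2⟩ := hCLs
  obtain ⟨C3, hC3, h3⟩ := kn_int N
  have hNN : N' ≤ N := by omega
  clear hN hN'
  set Cm : ℝ := max C1 C2 with hCm
  have hCm1 : C1 ≤ Cm := le_max_left _ _
  have hCm2 : C2 ≤ Cm := le_max_right _ _
  have hCm0 : 0 < Cm := lt_of_lt_of_le hC1 hCm1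
  set C4 : ℝ := C3 * Real.exp 97 * 2 with hC4
  have hC40 : 0 < C4 := by positivity
  refine ⟨2 * C4 ^ 2 * Cm + (2 * Cm + 16), by positivity, fun K hK => ?_⟩
  have hK0 : 0 < K := by linarith
  obtain ⟨T1, hT1e, hT1⟩ := h1 (2 * K) (by linarith)
  obtain ⟨T2, hT2e, hT2⟩ := h2 (2 * K) (by linarith)
  refine ⟨max (max T1 T2) (Real.exp (16 * K)), hT1e.trans ((le_max_left _ _).trans (le_max_left _ _)),
    fun T hT τ W hW1 hW2 w₀ w₁ w₂ h0 h1' h2' => ?_⟩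
  have hTT1 : T1 ≤ T := ((le_max_left _ _).trans (le_max_left _ _)).trans hT
  have hTT2 : T2 ≤ T := ((le_max_right _ _).trans (le_max_left _ _)).trans hT
  have hTe : Real.exp (16 * K) ≤ T := (le_max_right _ _).trans hT
  have hT0 : 0 < T := lt_of_lt_of_le (Real.exp_pos _) hTe
  have hLK : 16 * K ≤ Real.log T := by
    have := Real.log_le_log (Real.exp_pos _) hTe
    rwa [Real.log_exp] at this
  have hT1' : 1 ≤ T := by
    refine le_trans ?_ hTe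
    have := Real.add_one_le_exp (16 * K)
    linarith
  have hW0 : 0 < W := lt_of_lt_of_le (Real.rpow_pos_of_pos hT0 _) hW1
  have hWT : W ≤ T := by linarith
  set L : ℝ := Real.log T with hLdef
  have hL0 : 0 < L := by linarith
  set z₀ : ℝ := T ^ θ with hz₀
  set h : ℝ := L / K with hh
  have hh0 : 0 < h := by rw [hh]; positivity
  set A : ℝ := Cm * Real.exp (2 * Cm * K) * W * L with hA
  have hA0 : 0 ≤ A := by rw [hA]; positivity
  have hKLp : 0 < K / L := by positivity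
  have h2KL : 2 * K / L = 2 * (K / L) := by ring
  have h3KL : 3 * K / L = 3 * (K / L) := by ring
  -- the two line bounds
  have hexp : ∀ c : ℝ, 0 < c → c ≤ Cm → c * Real.exp (c * (2 * K)) * W * L ≤ A := by
    intro c hc0 hc
    rw [hA]
    have i1 : c * (2 * K) ≤ 2 * Cm * K := by
      calc c * (2 * K) ≤ Cm * (2 * K) := mul_le_mul_of_nonneg_right hc (by positivity)
        _ = 2 * Cm * K := by ring
    have i2 : Real.exp (c * (2 * K)) ≤ Real.exp (2 * Cm * K) := Real.exp_le_exp.mpr i1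
    have i3 : c * Real.exp (c * (2 * K)) ≤ Cm * Real.exp (2 * Cm * K) :=
      mul_le_mul hc i2 (Real.exp_pos _).le hCm0.le
    exact mul_le_mul_of_nonneg_right (mul_le_mul_of_nonneg_right i3 hW0.le) hL0.le
  have hb1 : ∀ τ' : ℝ, (1 + |τ'| / T) ^ N' ≤ (1 + |τ'| / T) ^ N := by
    intro τ'
    have : 0 ≤ |τ'| / T := by positivity
    exact pow_le_pow_right₀ (by linarith) hNN
  have hright : ∀ τ' : ℝ, ∀ v₁ v₂ : ℂ, |v₁.re| ≤ 2 * K / L → |v₂.re| ≤ 2 * K / L →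
      Integrable (fun t : ℝ => ‖riemannZeta (pt ((2 * K / L : ℝ) : ℂ) t) *
        (Mo z₀ (pt v₁ t) * Mo z₀ (pt v₂ t))‖ ^ 2 * gw τ' W t) ∧
      ∫ t : ℝ, ‖riemannZeta (pt ((2 * K / L : ℝ) : ℂ) t) *
        (Mo z₀ (pt v₁ t) * Mo z₀ (pt v₂ t))‖ ^ 2 * gw τ' W t
        ≤ A * ((1 + L * ‖v₁‖) ^ 4 * (1 + L * ‖v₂‖) ^ 4) * (1 + |τ'| / T) ^ N := by
    intro τ' v₁ v₂ hv1 hv2
    obtain ⟨i1, i2⟩ := hT1 T hTT1 τ' W hW1 hWT v₁ v₂ hv1 hv2
    refine ⟨i1, i2.trans ?_⟩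
    have i3 := hexp C1 hC1 hCm1
    refine mul_le_mul (mul_le_mul_of_nonneg_right i3 (by positivity)) (hb1 τ') (by positivity)
      (by positivity)
  have hleft : ∀ τ' : ℝ, ∀ v₁ v₂ : ℂ, |v₁.re| ≤ 2 * K / L → |v₂.re| ≤ 2 * K / L →
      Integrable (fun t : ℝ => ‖riemannZeta (pt ((-(2 * K / L) : ℝ) : ℂ) t) *
        (Mo z₀ (pt v₁ t) * Mo z₀ (pt v₂ t))‖ ^ 2 * gw τ' W t) ∧
      ∫ t : ℝ, ‖riemannZeta (pt ((-(2 * K / L) : ℝ) : ℂ) t) *
        (Mo z₀ (pt v₁ t) * Mo z₀ (pt v₂ t))‖ ^ 2 * gw τ' W t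
        ≤ A * ((1 + L * ‖v₁‖) ^ 4 * (1 + L * ‖v₂‖) ^ 4) * (1 + |τ'| / T) ^ N := by
    intro τ' v₁ v₂ hv1 hv2
    obtain ⟨i1, i2⟩ := hT2 T hTT2 τ' W hW1 hW2 v₁ v₂ hv1 hv2
    refine ⟨i1, i2.trans ?_⟩
    have i3 := hexp C2 hC2 hCm2
    exact mul_le_mul_of_nonneg_right (mul_le_mul_of_nonneg_right i3 (by positivity))
      (by positivity)
  clear_value L z₀ h A Cm C4
  have h0' := abs_le.mp h0
  -- the kernel constants
  have hσa : ∀ σ : ℝ, σ = -(2 * K / L) - w₀.re → K / L ≤ |σ| ∧ |σ| ≤ 3 * K / L := by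
    intro σ hσ
    have : |σ| = 2 * K / L + w₀.re := by
      rw [hσ, abs_of_nonpos (by linarith)]; ring
    rw [this]
    constructor <;> linarith
  have hσb : ∀ σ : ℝ, σ = 2 * K / L - w₀.re → K / L ≤ |σ| ∧ |σ| ≤ 3 * K / L := by
    intro σ hσ
    have : |σ| = 2 * K / L - w₀.re := by
      rw [hσ, abs_of_nonneg (by linarith)]
    rw [this]
    constructor <;> linarith
  obtain ⟨ha1, ha2⟩ := hσa _ rfl
  obtain ⟨hb1', hb2'⟩ := hσb _ rfl
  have hane : -(2 * K / L) - w₀.re ≠ 0 := by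
    intro h
    rw [h, abs_zero] at ha1
    linarith
  have hbne : 2 * K / L - w₀.re ≠ 0 := by
    intro h
    rw [h, abs_zero] at hb1'
    linarith
  obtain ⟨ka1, ka2⟩ := h3 h (-(2 * K / L) - w₀.re) hh0 hane
  obtain ⟨kb1, kb2⟩ := h3 h (2 * K / L - w₀.re) hh0 hbne
  have ka3 := ka2.trans (U_kern_const C3 K L h _ hC3 hK hLK hh ha1 ha2)
  have kb3 := kb2.trans (U_kern_const C3 K L h _ hC3 hK hLK hh hb1' hb2')
  rw [← hC4] at ka3 kb3
  set B : ℝ := A * ((1 + L * ‖w₀ - w₁‖) ^ 4 * (1 + L * ‖w₀ - w₂‖) ^ 4) *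
          (1 + |τ + w₀.im| / T) ^ N * Real.exp (16 * K) with hB
  have hB0 : 0 ≤ B := by rw [hB]; positivity
  clear_value B
  have hb8 : 2 * K / L ≤ 1 / 8 := by
    rw [div_le_iff₀ hL0]; linarith
  obtain ⟨ia1, ia2, ia3⟩ := U_one z₀ τ W h (-(2 * K / L) - w₀.re) C4 B N
    ((-(2 * K / L) : ℝ) : ℂ) (by rw [Complex.ofReal_re]; linarith) w₀ w₁ w₂ hane hh0 hB0 ka1 ka3
    (fun y => by rw [hB]; exact U_inner z₀ T L K h A τ W N hT1' hL0 hK hh hA0 _ w₀ w₁ w₂ h0 h1' h2' hleft y)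
  obtain ⟨ib1, ib2, ib3⟩ := U_one z₀ τ W h (2 * K / L - w₀.re) C4 B N
    ((2 * K / L : ℝ) : ℂ) (by rw [Complex.ofReal_re]; linarith) w₀ w₁ w₂ hbne hh0 hB0 kb1 kb3
    (fun y => by rw [hB]; exact U_inner z₀ T L K h A τ W N hT1' hL0 hK hh hA0 _ w₀ w₁ w₂ h0 h1' h2' hright y)
  have hpt := U_point z₀ τ W h (-(2 * K / L)) (2 * K / L) C4 K L hK hLK hh0 rfl rfl w₀ w₁ w₂ h0
    ia3 ib3
  have hsum := (ia1.const_mul C4).add (ib1.const_mul C4)
  have hFc : Continuous (fun t : ℝ => ‖riemannZeta (pt w₀ t) *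
      (Mo z₀ (pt w₁ t) * Mo z₀ (pt w₂ t))‖ ^ 2 * gw τ W t) := by
    have c2 := U_zcont w₀ (by linarith)
    have c3 : Continuous (fun t : ℝ => Mo z₀ (pt w₁ t)) :=
      (continuous_Mo z₀).comp (U_ptcont w₁)
    have c4 : Continuous (fun t : ℝ => Mo z₀ (pt w₂ t)) :=
      (continuous_Mo z₀).comp (U_ptcont w₂)
    exact ((c2.mul (c3.mul c4)).norm.pow 2).mul (U_gwcont τ W)
  have hF0 : ∀ t : ℝ, 0 ≤ ‖riemannZeta (pt w₀ t) *
      (Mo z₀ (pt w₁ t) * Mo z₀ (pt w₂ t))‖ ^ 2 * gw τ W t :=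
    fun t => mul_nonneg (sq_nonneg _) (Real.exp_pos _).le
  have hFi : Integrable (fun t : ℝ => ‖riemannZeta (pt w₀ t) *
      (Mo z₀ (pt w₁ t) * Mo z₀ (pt w₂ t))‖ ^ 2 * gw τ W t) := by
    refine Integrable.mono' hsum hFc.aestronglyMeasurable
      (Filter.Eventually.of_forall fun t => ?_)
    rw [Real.norm_eq_abs, abs_of_nonneg (hF0 t)]
    exact hpt t
  refine ⟨hFi, ?_⟩
  have hle := integral_mono hFi hsum hpt
  rw [integral_add' (ia1.const_mul C4) (ib1.const_mul C4), integral_const_mul,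
    integral_const_mul] at hle
  have hle2 := hle.trans (add_le_add (mul_le_mul_of_nonneg_left ia2 hC40.le)
    (mul_le_mul_of_nonneg_left ib2 hC40.le))
  refine hle2.trans ?_
  have hfin : C4 * (B * C4) + C4 * (B * C4) =
      (2 * C4 ^ 2 * Cm) * (Real.exp (2 * Cm * K) * Real.exp (16 * K)) * W * L *
      ((1 + L * ‖w₀ - w₁‖) ^ 4 * (1 + L * ‖w₀ - w₂‖) ^ 4) * (1 + |τ + w₀.im| / T) ^ N := by
    rw [hB, hA]; ring
  rw [hfin, ← Real.exp_add]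
  have hc1 : 2 * C4 ^ 2 * Cm ≤ 2 * C4 ^ 2 * Cm + (2 * Cm + 16) := by linarith
  have hc2 : Real.exp (2 * Cm * K + 16 * K) ≤
      Real.exp ((2 * C4 ^ 2 * Cm + (2 * Cm + 16)) * K) := by
    apply Real.exp_le_exp.mpr
    have : 0 ≤ 2 * C4 ^ 2 * Cm * K := by positivity
    have e1 : (2 * C4 ^ 2 * Cm + (2 * Cm + 16)) * K =
        2 * C4 ^ 2 * Cm * K + (2 * Cm * K + 16 * K) := by ring
    rw [e1]
    linarith only [this]
  have hc3 := mul_le_mul hc1 hc2 (Real.exp_pos _).le (by positivity)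
  exact U_fin _ _ _ _ _ _ _ _ hc3 hW0.le hL0.le (by positivity) (by positivity)

end Pool.Agent.H14.CO
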