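import Pool.Agent.H14.CO.BfDef
import Pool.Agent.H14.CO.LamIn

/-!
# CO module Yf: the diagonalised mollifier sums
-/

set_option autoImplicit false

namespace Pool.Agent.H14.CO

open Set MeasureTheory Complex

private theorem Yf_rad_ne_zero (f : ℕ) : rad f ≠ 0 :=
  Finset.prod_ne_zero_iff.2 fun _ hp => (Nat.prime_of_mem_primeFactors hp).ne_zero

private theorem Yf_rad_primeFactors (f : ℕ) : (rad f).primeFactors = f.primeFactors :=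
  Nat.primeFactors_prod_primeFactors f

private theorem Yf_rad_squarefree (f : ℕ) : Squarefree (rad f) := by
  rw [Nat.squarefree_iff_prime_squarefree]
  intro p hp hdvd
  have hpr : p ∣ rad f := (dvd_mul_right p p).trans hdvd
  have hpf : p ∈ f.primeFactors := by
    rw [← Yf_rad_primeFactors]
    exact Nat.mem_primeFactors.2 ⟨hp, hpr, Yf_rad_ne_zero f⟩
  have h1 : p * ∏ q ∈ f.primeFactors.erase p, q = rad f :=
    Finset.mul_prod_erase f.primeFactors (fun q => q) hpf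
  rw [← h1] at hdvd
  have h2 : p ∣ ∏ q ∈ f.primeFactors.erase p, q := Nat.dvd_of_mul_dvd_mul_left hp.pos hdvd
  obtain ⟨q, hq, hpq⟩ := (hp.prime.dvd_finsetProd_iff _).1 h2
  have hq1 := Finset.mem_erase.1 hq
  exact hq1.1 ((Nat.prime_dvd_prime_iff_eq hp (Nat.prime_of_mem_primeFactors hq1.2)).1 hpq).symm

private theorem Yf_coprime {f e : ℕ} (hf : f ≠ 0) (h : Nat.Coprime e (rad f)) : Nat.Coprime f e := by
  refine Nat.coprime_of_dvd fun p hp hpf hpe => ?_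
  have h1 : p ∣ rad f := by
    have : p ∈ (rad f).primeFactors := by
      rw [Yf_rad_primeFactors]
      exact Nat.mem_primeFactors.2 ⟨hp, hpf, hf⟩
    exact Nat.dvd_of_mem_primeFactors this
  exact Nat.Prime.not_coprime_iff_dvd.2 ⟨p, hp, hpe, h1⟩ h

private theorem Yf_dvd_iff {f d₁ d₂ : ℕ} (hf : f ≠ 0) (h₁ : Squarefree d₁) (h₂ : Squarefree d₂) :
    f ∣ d₁ * d₂ ↔ f ∣ Nat.gcd d₁ (rad f) * Nat.gcd d₂ (rad f) := by
  constructor
  · intro h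
    have e₁ : d₁ = Nat.gcd d₁ (rad f) * (d₁ / Nat.gcd d₁ (rad f)) :=
      (Nat.mul_div_cancel' (Nat.gcd_dvd_left _ _)).symm
    have e₂ : d₂ = Nat.gcd d₂ (rad f) * (d₂ / Nat.gcd d₂ (rad f)) :=
      (Nat.mul_div_cancel' (Nat.gcd_dvd_left _ _)).symm
    have c₁ : Nat.Coprime f (d₁ / Nat.gcd d₁ (rad f)) :=
      Yf_coprime hf (Nat.coprime_div_gcd_of_squarefree h₁ (Yf_rad_ne_zero f))
    have c₂ : Nat.Coprime f (d₂ / Nat.gcd d₂ (rad f)) :=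
      Yf_coprime hf (Nat.coprime_div_gcd_of_squarefree h₂ (Yf_rad_ne_zero f))
    have h3 : f ∣ (Nat.gcd d₁ (rad f) * Nat.gcd d₂ (rad f)) *
        ((d₁ / Nat.gcd d₁ (rad f)) * (d₂ / Nat.gcd d₂ (rad f))) := by
      have h4 : d₁ * d₂ = (Nat.gcd d₁ (rad f) * Nat.gcd d₂ (rad f)) *
        ((d₁ / Nat.gcd d₁ (rad f)) * (d₂ / Nat.gcd d₂ (rad f))) := by
        conv_lhs => rw [e₁, e₂]
        ring
      rwa [← h4]
    exact (c₁.mul_right c₂).dvd_of_dvd_mul_right h3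
  · intro h
    exact h.trans (mul_dvd_mul (Nat.gcd_dvd_left _ _) (Nat.gcd_dvd_left _ _))

private theorem Yf_lam_zero {z₀ : ℝ} {d : ℕ} (h : ¬ Squarefree d) : lam z₀ d = 0 := by
  unfold lam
  rw [ArithmeticFunction.moebius_eq_zero_of_not_squarefree h]
  simp

/-- PROOF. `r = rad f`; since `lam z₀ d = 0` unless `d` is squarefree, for squarefree `d₁, d₂`:
`f ∣ d₁ d₂ ↔ f ∣ gcd(d₁,r) gcd(d₂,r)`. Split according to `g_i = gcd(d_i, r)` and use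
`lam_inner` twice. -/
theorem Yf_bound : ∃ C : ℝ, 0 < C ∧ ∀ z₀ : ℝ, 2 ≤ z₀ → ∀ f : ℕ, f ≠ 0 → ∀ u₁ u₂ : ℂ,
    ‖∑ d₁ ∈ Finset.Icc 1 ⌊z₀ ^ 2⌋₊, ∑ d₂ ∈ Finset.Icc 1 ⌊z₀ ^ 2⌋₊,
      if f ∣ d₁ * d₂ then (lam z₀ d₁ : ℂ) * (lam z₀ d₂ : ℂ) * (d₁ : ℂ) ^ (-(1 + u₁)) *
        (d₂ : ℂ) ^ (-(1 + u₂)) else 0‖
      ≤ C / Real.log z₀ ^ 2 * sg f ^ 2 * bf f * z₀ ^ (2 * |u₁.re| + 2 * |u₂.re|) *
        ((1 + ‖u₁‖ * Real.log z₀) ^ 2 * (1 + ‖u₂‖ * Real.log z₀) ^ 2) := by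
  obtain ⟨C, hC, hin⟩ := lam_inner
  refine ⟨C ^ 2, by positivity, ?_⟩
  intro z₀ hz f hf u₁ u₂
  set I := Finset.Icc 1 ⌊z₀ ^ 2⌋₊ with hI
  set a : ℂ → ℕ → ℂ := fun u d => (lam z₀ d : ℂ) * (d : ℂ) ^ (-(1 + u)) with ha
  set S : ℂ → ℕ → ℂ := fun u g => ∑ d ∈ I.filter (fun d => Nat.gcd d (rad f) = g), a u d with hS
  have hsum : (∑ d₁ ∈ I, ∑ d₂ ∈ I,
      if f ∣ d₁ * d₂ then (lam z₀ d₁ : ℂ) * (lam z₀ d₂ : ℂ) * (d₁ : ℂ) ^ (-(1 + u₁)) *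
        (d₂ : ℂ) ^ (-(1 + u₂)) else 0) =
      ∑ g₁ ∈ (rad f).divisors, ∑ g₂ ∈ (rad f).divisors,
        if f ∣ g₁ * g₂ then S u₁ g₁ * S u₂ g₂ else 0 := by
    have h1 : ∀ d₁ ∈ I, ∀ d₂ ∈ I,
      (if f ∣ d₁ * d₂ then (lam z₀ d₁ : ℂ) * (lam z₀ d₂ : ℂ) * (d₁ : ℂ) ^ (-(1 + u₁)) *
        (d₂ : ℂ) ^ (-(1 + u₂)) else 0) =
      if f ∣ Nat.gcd d₁ (rad f) * Nat.gcd d₂ (rad f) then a u₁ d₁ * a u₂ d₂ else 0 := by
      intro d₁ _ d₂ _
      by_cases h₁ : Squarefree d₁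
      · by_cases h₂ : Squarefree d₂
        · by_cases hd : f ∣ d₁ * d₂
          · rw [if_pos hd, if_pos ((Yf_dvd_iff hf h₁ h₂).1 hd)]
            simp only [ha]
            ring
          · rw [if_neg hd, if_neg (fun h => hd ((Yf_dvd_iff hf h₁ h₂).2 h))]
        · simp [ha, Yf_lam_zero h₂]
      · simp [ha, Yf_lam_zero h₁]
    rw [Finset.sum_congr rfl fun d₁ h₁ => Finset.sum_congr rfl fun d₂ h₂ => h1 d₁ h₁ d₂ h₂]
    have hmaps : ∀ d ∈ I, Nat.gcd d (rad f) ∈ (rad f).divisors := fun d _ =>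
      Nat.mem_divisors.2 ⟨Nat.gcd_dvd_right _ _, Yf_rad_ne_zero f⟩
    rw [← Finset.sum_fiberwise_of_maps_to hmaps]
    refine Finset.sum_congr rfl fun g₁ _ => ?_
    have h2 : ∀ d₁ ∈ I.filter (fun d => Nat.gcd d (rad f) = g₁),
        (∑ d₂ ∈ I, if f ∣ Nat.gcd d₁ (rad f) * Nat.gcd d₂ (rad f) then a u₁ d₁ * a u₂ d₂ else 0) =
        ∑ g₂ ∈ (rad f).divisors, if f ∣ g₁ * g₂ then a u₁ d₁ * S u₂ g₂ else 0 := by
      intro d₁ hd₁
      rw [← Finset.sum_fiberwise_of_maps_to hmaps]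
      refine Finset.sum_congr rfl fun g₂ _ => ?_
      have hg₁ : Nat.gcd d₁ (rad f) = g₁ := (Finset.mem_filter.1 hd₁).2
      by_cases hg : f ∣ g₁ * g₂
      · rw [if_pos hg]
        simp only [hS]
        rw [Finset.mul_sum]
        refine Finset.sum_congr rfl fun d₂ hd₂ => ?_
        rw [hg₁, (Finset.mem_filter.1 hd₂).2, if_pos hg]
      · rw [if_neg hg]
        refine Finset.sum_eq_zero fun d₂ hd₂ => ?_
        rw [hg₁, (Finset.mem_filter.1 hd₂).2, if_neg hg]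
    rw [Finset.sum_congr rfl h2, Finset.sum_comm]
    refine Finset.sum_congr rfl fun g₂ _ => ?_
    by_cases hg : f ∣ g₁ * g₂
    · simp only [if_pos hg, hS]
      rw [Finset.sum_mul]
    · simp only [if_neg hg, Finset.sum_const_zero]
  rw [hsum]
  have hlog : 0 < Real.log z₀ := Real.log_pos (by linarith)
  have hz0 : 0 < z₀ := by linarith
  have hsg : sg (rad f) = sg f := by
    unfold sg
    rw [Yf_rad_primeFactors]
  set K : ℂ → ℝ := fun u => C / Real.log z₀ * sg f * z₀ ^ (2 * |u.re|) *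
    (1 + ‖u‖ * Real.log z₀) ^ 2 with hK
  have hSb : ∀ u : ℂ, ∀ g ∈ (rad f).divisors, ‖S u g‖ ≤ K u * (1 / (g : ℝ)) := by
    intro u g hg
    have h := hin z₀ hz (rad f) g (Yf_rad_squarefree f) (Nat.dvd_of_mem_divisors hg) u
    rw [hsg] at h
    refine h.trans (le_of_eq ?_)
    simp only [hK]
    ring
  have hnorm : ‖∑ g₁ ∈ (rad f).divisors, ∑ g₂ ∈ (rad f).divisors,
        if f ∣ g₁ * g₂ then S u₁ g₁ * S u₂ g₂ else 0‖ ≤
      ∑ g₁ ∈ (rad f).divisors, ∑ g₂ ∈ (rad f).divisors,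
        if f ∣ g₁ * g₂ then K u₁ * K u₂ * (1 / ((g₁ : ℝ) * g₂)) else 0 := by
    refine (norm_sum_le _ _).trans (Finset.sum_le_sum fun g₁ hg₁ => ?_)
    refine (norm_sum_le _ _).trans (Finset.sum_le_sum fun g₂ hg₂ => ?_)
    by_cases hg : f ∣ g₁ * g₂
    · rw [if_pos hg, if_pos hg, norm_mul]
      refine (mul_le_mul (hSb u₁ g₁ hg₁) (hSb u₂ g₂ hg₂) (norm_nonneg _)
        ((norm_nonneg _).trans (hSb u₁ g₁ hg₁))).trans (le_of_eq ?_)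
      rw [one_div_mul_one_div (g₁ : ℝ) (g₂ : ℝ) |>.symm]
      ring
    · rw [if_neg hg, if_neg hg, norm_zero]
  refine hnorm.trans (le_of_eq ?_)
  have hbf : ∑ g₁ ∈ (rad f).divisors, ∑ g₂ ∈ (rad f).divisors,
        (if f ∣ g₁ * g₂ then K u₁ * K u₂ * (1 / ((g₁ : ℝ) * g₂)) else 0) =
      K u₁ * K u₂ * bf f := by
    unfold bf
    rw [Finset.mul_sum]
    refine Finset.sum_congr rfl fun g₁ _ => ?_
    rw [Finset.mul_sum]
    refine Finset.sum_congr rfl fun g₂ _ => ?_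
    by_cases hg : f ∣ g₁ * g₂
    · rw [if_pos hg, if_pos hg]
    · rw [if_neg hg, if_neg hg, mul_zero]
  rw [hbf]
  simp only [hK]
  rw [Real.rpow_add hz0]
  field_simp

end Pool.Agent.H14.CO
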