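import Pool.Agent.H14.CO.Good
import Pool.Agent.H14.CO.Select
import Pool.Agent.H14.CO.EnSum

/-!
# CO module Zeros: the family of zeros and points used in the test function
-/

set_option autoImplicit false

namespace Pool.Agent.H14.CO

open Set MeasureTheory Complex

private theorem Zeros_contMo (z₀ : ℝ) : Continuous (fun t : ℝ => ‖Mo z₀ (pt 0 t)‖ ^ 2) := by
  have h : Continuous (fun t : ℝ => Mo z₀ (pt 0 t)) := by
    unfold Mo pt
    refine continuous_finsetSum _ (fun d hd => ?_)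
    refine Continuous.mul continuous_const ?_
    have hd1 : 1 ≤ d := (Finset.mem_Icc.1 hd).1
    have hd0 : (d : ℂ) ≠ 0 := by
      exact_mod_cast (by omega : d ≠ 0)
    refine Continuous.const_cpow (by fun_prop) (Or.inl hd0)
  exact h.norm.pow 2

/-- enumeration of a finset -/
private theorem Zeros_enum {α : Type*} [Inhabited α] (S : Finset α) :
    ∃ e : ℕ → α, (∀ i < S.card, e i ∈ S) ∧ (∀ i < S.card, ∀ j < S.card, i ≠ j → e i ≠ e j) ∧
      ∀ f : α → ℝ, ∑ i ∈ Finset.range S.card, f (e i) = ∑ a ∈ S, f a := by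
  classical
  let e : ℕ → α := fun i => if h : i < S.card then (S.equivFin.symm ⟨i, h⟩ : α) else default
  refine ⟨e, ?_, ?_, ?_⟩
  · intro i hi
    simp only [e, dif_pos hi]
    exact (S.equivFin.symm ⟨i, hi⟩).2
  · intro i hi j hj hij h
    simp only [e, dif_pos hi, dif_pos hj] at h
    have h1 := Subtype.ext h
    have h2 := S.equivFin.symm.injective h1
    exact hij (by simpa using congrArg Fin.val h2)
  · intro f
    rw [Finset.sum_range]
    rw [← Finset.sum_coe_sort S f]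
    refine Fintype.sum_equiv S.equivFin.symm _ _ ?_
    intro i
    simp only [e, dif_pos i.2]

/-- packing -/
private theorem Zeros_pack (n : ℕ) (t : ℕ → ℝ) (a b s : ℝ) (hs : 0 < s) (hab' : a ≤ b)
    (h1 : ∀ i < n, a ≤ t i ∧ t i ≤ b)
    (h2 : ∀ i < n, ∀ j < n, i ≠ j → s ≤ |t i - t j|) : (n : ℝ) ≤ (b - a) / s + 1 := by
  rcases Nat.eq_zero_or_pos n with h0 | h0
  · subst h0
    have : 0 ≤ (b - a) / s := div_nonneg (by linarith) hs.le
    simp; linarith only [this]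
  · have hinj : Set.InjOn (fun i => ⌊(t i - a) / s⌋₊) (Finset.range n : Finset ℕ) := by
      intro i hi j hj hij
      by_contra hne
      have hi' : i < n := by simpa using hi
      have hj' : j < n := by simpa using hj
      have h3 := h2 i hi' j hj' hne
      simp only at hij
      have hi0 : 0 ≤ (t i - a) / s := div_nonneg (by linarith only [(h1 i hi').1]) hs.le
      have hj0 : 0 ≤ (t j - a) / s := div_nonneg (by linarith only [(h1 j hj').1]) hs.le
      have e1 := Nat.floor_le hi0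
      have e2 := Nat.lt_floor_add_one ((t i - a) / s)
      have e3 := Nat.floor_le hj0
      have e4 := Nat.lt_floor_add_one ((t j - a) / s)
      rw [hij] at e1 e2
      have e5 : |(t i - a) / s - (t j - a) / s| < 1 := by
        rw [abs_lt]; constructor <;> linarith only [e1, e4, e2, e3]
      have e6 : (t i - a) / s - (t j - a) / s = (t i - t j) / s := by ring
      rw [e6, abs_div, abs_of_pos hs, div_lt_one hs] at e5
      linarith only [h3, e5]
    have hmap : ∀ i ∈ Finset.range n, ⌊(t i - a) / s⌋₊ ∈ Finset.range (⌊(b - a) / s⌋₊ + 1) := by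
      intro i hi
      have hi' : i < n := by simpa using hi
      rw [Finset.mem_range, Nat.lt_succ_iff]
      exact Nat.floor_le_floor (div_le_div_of_nonneg_right (by linarith [(h1 i hi').2]) hs.le)
    have hcard := Finset.card_le_card_of_injOn _ hmap hinj
    rw [Finset.card_range, Finset.card_range] at hcard
    have hab : 0 ≤ (b - a) / s := div_nonneg (by linarith only [hab']) hs.le
    have := Nat.floor_le hab
    have h4 : (n : ℝ) ≤ (⌊(b - a) / s⌋₊ : ℝ) + 1 := by exact_mod_cast hcard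
    linarith only [this, h4]

/-- PROOF. `good_set` (with constants `G, c`) and `select` with `g = ‖Mo (pt 0 ·)‖²`,
`a = τ - W`, `ℓ = 4G/L`, `n = ⌈2W/ℓ⌉`; `2 ℓ ∑ g(t_j) ≥ c W L`, so
`∑ ≥ c W L²/(8G)`. -/
theorem zeros_local (θ : ℝ) (hθ0 : 0 < θ) (hθ1 : θ ≤ 1 / 40) : ∃ G c : ℝ, 1 ≤ G ∧ 0 < c ∧
    ∃ T₀ : ℝ, Real.exp 3200 ≤ T₀ ∧ ∀ T : ℝ, T₀ ≤ T → ∀ τ : ℝ, T ≤ τ → τ ≤ 2 * T →
    ∃ (n : ℕ) (t : ℕ → ℝ) (ρ : ℕ → ℂ),
      (∀ i < n, |t i - τ| ≤ T ^ (9 / 10 : ℝ) ∧ riemannZeta (ρ i) = 0 ∧ 1 / 2 ≤ (ρ i).re ∧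
        ‖ρ i - pt 0 (t i)‖ ≤ G / Real.log T) ∧
      (∀ i < n, ∀ j < n, i ≠ j → 4 * G / Real.log T ≤ |t i - t j|) ∧
      c * T ^ (9 / 10 : ℝ) * Real.log T ^ 2
        ≤ ∑ i ∈ Finset.range n, ‖Mo (T ^ θ) (pt 0 (t i))‖ ^ 2 := by
  obtain ⟨G, c, hG, hc, T₀, hT₀, H⟩ := good_set θ hθ0 hθ1
  refine ⟨G, c / (8 * G), hG, by positivity, T₀, hT₀, ?_⟩
  intro T hT τ hτ1 hτ2
  obtain ⟨Gd, hGm, hGs, hGi, hGz⟩ := H T hT τ hτ1 hτ2
  have hTe : Real.exp 3200 ≤ T := hT₀.trans hT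
  have hT0 : 0 < T := (Real.exp_pos _).trans_le hTe
  have hL : 3200 ≤ Real.log T := by
    rw [Real.le_log_iff_exp_le hT0]; exact hTe
  have hL0 : 0 < Real.log T := by linarith only [hL]
  have hG0 : 0 < G := by linarith only [hG]
  set W : ℝ := T ^ (9 / 10 : ℝ) with hW
  have hW0 : 0 < W := by positivity
  set ℓ : ℝ := 4 * G / Real.log T with hℓ
  have hℓ0 : 0 < ℓ := by positivity
  have hsub : Gd ⊆ Icc (τ - W) (τ - W + (⌈2 * W / ℓ⌉₊ : ℕ) * ℓ) := by
    refine hGs.trans (Icc_subset_Icc le_rfl ?_)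
    have h1 := Nat.le_ceil (2 * W / ℓ)
    have h2 : 2 * W / ℓ * ℓ = 2 * W := div_mul_cancel₀ _ hℓ0.ne'
    nlinarith only [hθ1, hℓ0, h1, h2]
  obtain ⟨S, t, hS1, hS2, hS3⟩ := select (fun t => ‖Mo (T ^ θ) (pt 0 t)‖ ^ 2)
    (Zeros_contMo _) (fun t => by positivity) Gd hGm (τ - W) ℓ hℓ0 _ hsub
  obtain ⟨e, he1, he2, he3⟩ := Zeros_enum S
  choose! ρ hρ using hGz
  refine ⟨S.card, fun i => t (e i), fun i => ρ (t (e i)), ?_, ?_, ?_⟩
  · intro i hi
    have h1 := (hS1 _ (he1 i hi)).2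
    obtain ⟨h2, h3, h4⟩ := hρ _ h1
    refine ⟨?_, h2, h3, h4⟩
    have h5 := hGs h1
    rw [abs_le]
    constructor
    · linarith only [h5.1]
    · linarith [h5.2]
  · intro i hi j hj hij
    exact hS2 _ (he1 i hi) _ (he1 j hj) (he2 i hi j hj hij)
  · rw [he3 (fun j => ‖Mo (T ^ θ) (pt 0 (t j))‖ ^ 2)]
    have h1 := hGi.trans hS3
    have h2 : c / (8 * G) * W * Real.log T ^ 2 = (c * W * Real.log T) / (2 * ℓ) := by
      rw [hℓ]; field_simp; ring
    rw [h2, div_le_iff₀ (by positivity)]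
    linarith

/-- The global family: windows `τ_k = T + 3 k W`, `k < ⌊T/(3W)⌋`, `W = T^{9/10}`; the intervals
`[τ_k - W, τ_k + W]` are at distance `≥ W`. The number of windows is between `T/(6W)` and `T/(3W)`.
The last clause is `ensum_local` summed over the windows (`K₀ = 2`). -/
theorem zeros_global (θ : ℝ) (hθ0 : 0 < θ) (hθ1 : θ ≤ 1 / 40) : ∃ G c C : ℝ, 1 ≤ G ∧ 0 < c ∧ 0 < C ∧
    ∃ T₀ : ℝ, Real.exp 3200 ≤ T₀ ∧ ∀ T : ℝ, T₀ ≤ T →
    ∃ (n : ℕ) (t : ℕ → ℝ) (ρ : ℕ → ℂ),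
      (∀ i < n, T / 2 ≤ t i ∧ t i ≤ 3 * T ∧ riemannZeta (ρ i) = 0 ∧ 1 / 2 ≤ (ρ i).re ∧
        ‖ρ i - pt 0 (t i)‖ ≤ G / Real.log T) ∧
      (∀ i < n, ∀ j < n, i ≠ j → 1 / Real.log T ≤ |(ρ i).im - (ρ j).im|) ∧
      c * T * Real.log T ^ 2 ≤ ∑ i ∈ Finset.range n, ‖Mo (T ^ θ) (pt 0 (t i))‖ ^ 2 ∧
      (n : ℝ) ≤ 4 * T * Real.log T ∧
      ∀ z : ℂ, z.re = 2 / Real.log T →
        ∑ i ∈ Finset.range n, ‖Mo (T ^ θ) (pt 0 (t i))‖ ^ 2 *
            ‖riemannZeta (ρ i + z) * Mo (T ^ θ) (pt 0 (t i) + z)‖ ^ 2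
          ≤ C * T * Real.log T ^ 2 * (1 + Real.log T * ‖z‖) ^ 4 * (1 + ‖z‖) ^ 301 := by
  obtain ⟨G, c, hG, hc, T₁, hT₁, H⟩ := zeros_local θ hθ0 hθ1
  obtain ⟨C, hC, T₂, hT₂, HE⟩ := ensum_local θ hθ0 hθ1 G 2 hG le_rfl
  have hG0 : 0 < G := by linarith only [hθ0, hG]
  refine ⟨G, c / 6, C, hG, by positivity, hC, max (max T₁ T₂) ((4 * G) ^ 2),
    hT₁.trans ((le_max_left _ _).trans (le_max_left _ _)), ?_⟩
  intro T hT
  have hTT1 : T₁ ≤ T := ((le_max_left _ _).trans (le_max_left _ _)).trans hT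
  have hTT2 : T₂ ≤ T := ((le_max_right _ _).trans (le_max_left _ _)).trans hT
  have hTG : (4 * G) ^ 2 ≤ T := (le_max_right _ _).trans hT
  have hTe : Real.exp 3200 ≤ T := hT₁.trans hTT1
  have hT0 : 0 < T := (Real.exp_pos _).trans_le hTe
  have hL : 3200 ≤ Real.log T := by
    rw [Real.le_log_iff_exp_le hT0]; exact hTe
  have hL0 : 0 < Real.log T := by linarith
  have hT1 : 1 ≤ T := by
    have : (1 : ℝ) ≤ Real.exp 3200 := Real.one_le_exp (by norm_num)
    linarith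
  set L : ℝ := Real.log T with hLdef
  set W : ℝ := T ^ (9 / 10 : ℝ) with hW
  have hW0 : 0 < W := by positivity
  -- W ≤ T / 1000
  have hWT : 1000 * W ≤ T := by
    have h1 : T = T ^ (9 / 10 : ℝ) * T ^ (1 / 10 : ℝ) := by
      rw [← Real.rpow_add hT0]; norm_num
    have h2 : (1000 : ℝ) ≤ T ^ (1 / 10 : ℝ) := by
      have h3 : Real.exp (Real.log T * (1 / 10)) = T ^ (1 / 10 : ℝ) := by
        rw [Real.rpow_def_of_pos hT0]
      rw [← h3]
      have h4 : (999 : ℝ) + 1 ≤ Real.exp 999 ∨ True := Or.inr trivial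
      have h5 : Real.log T * (1 / 10) + 1 ≤ Real.exp (Real.log T * (1 / 10)) :=
        Real.add_one_le_exp _
      have h6 : (320 : ℝ) ≤ Real.log T * (1 / 10) := by
        have : (3200 : ℝ) ≤ Real.log T := hL
        linarith only [hL]
      have h7 : Real.exp 320 ≤ Real.exp (Real.log T * (1 / 10)) := Real.exp_le_exp.2 h6
      have h8 : Real.exp 320 = Real.exp 160 * Real.exp 160 := by
        rw [← Real.exp_add]; norm_num
      have h9 : (160 : ℝ) + 1 ≤ Real.exp 160 := Real.add_one_le_exp _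
      have h10 : (161 : ℝ) * 161 ≤ Real.exp 160 * Real.exp 160 := by
        apply mul_le_mul <;> linarith only [h9]
      linarith only [h7, h8, h10]
    calc 1000 * W = W * 1000 := by ring
      _ ≤ W * T ^ (1 / 10 : ℝ) := by gcongr
      _ = T := by rw [hW]; exact h1.symm
  have hWG : 4 * G ≤ W := by
    have h1 : (4 * G) ≤ T ^ (1 / 2 : ℝ) := by
      have h2 : ((4 * G) ^ 2) ^ (1 / 2 : ℝ) = 4 * G := by
        rw [← Real.sqrt_eq_rpow, Real.sqrt_sq (by positivity)]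
      rw [← h2]
      exact Real.rpow_le_rpow (by positivity) hTG (by norm_num)
    exact h1.trans (Real.rpow_le_rpow_of_exponent_le hT1 (by norm_num))
  -- windows
  set N : ℕ := ⌊T / (3 * W)⌋₊ with hN
  have hNle : (N : ℝ) ≤ T / (3 * W) := Nat.floor_le (by positivity)
  have hNle' : (N : ℝ) * (3 * W) ≤ T := by
    rwa [le_div_iff₀ (by positivity)] at hNle
  have hNge : T / (6 * W) ≤ (N : ℝ) := by
    have h1 := Nat.lt_floor_add_one (T / (3 * W))
    have h2 : 1 ≤ T / (6 * W) := by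
      rw [le_div_iff₀ (by positivity)]; linarith only [hG, hWT, hWG]
    have h3 : T / (3 * W) = T / (6 * W) + T / (6 * W) := by field_simp; ring
    rw [← hN] at h1
    linarith only [h1, h2, h3]
  have hτ1 : ∀ k : ℕ, T ≤ T + 3 * k * W := by
    intro k
    have : 0 ≤ 3 * (k : ℝ) * W := by positivity
    linarith
  have hτ2 : ∀ k : ℕ, k < N → T + 3 * k * W ≤ 2 * T := by
    intro k hk
    have h1 : (k : ℝ) ≤ N := by exact_mod_cast hk.le
    nlinarith only [hW0, hNle', h1]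
  have HH : ∀ k : ℕ, ∃ (n : ℕ) (t : ℕ → ℝ) (ρ : ℕ → ℂ), k < N →
      ((∀ i < n, |t i - (T + 3 * k * W)| ≤ T ^ (9 / 10 : ℝ) ∧ riemannZeta (ρ i) = 0 ∧
          1 / 2 ≤ (ρ i).re ∧ ‖ρ i - pt 0 (t i)‖ ≤ G / Real.log T) ∧
      (∀ i < n, ∀ j < n, i ≠ j → 4 * G / Real.log T ≤ |t i - t j|) ∧
      c * T ^ (9 / 10 : ℝ) * Real.log T ^ 2
        ≤ ∑ i ∈ Finset.range n, ‖Mo (T ^ θ) (pt 0 (t i))‖ ^ 2) := by
    intro k
    by_cases hk : k < N
    · obtain ⟨n, t, ρ, h⟩ := H T hTT1 _ (hτ1 k) (hτ2 k hk)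
      exact ⟨n, t, ρ, fun _ => h⟩
    · exact ⟨0, fun _ => 0, fun _ => 0, fun h => absurd h hk⟩
  choose nn tt rr HH using HH
  let S : Finset (Σ _ : ℕ, ℕ) := (Finset.range N).sigma (fun k => Finset.range (nn k))
  obtain ⟨e, he1, he2, he3⟩ := Zeros_enum S
  have hS : ∀ a ∈ S, a.1 < N ∧ a.2 < nn a.1 := by
    intro a ha
    simpa [S] using ha
  let tf : (Σ _ : ℕ, ℕ) → ℝ := fun a => tt a.1 a.2
  let rf : (Σ _ : ℕ, ℕ) → ℂ := fun a => rr a.1 a.2
  have hsep : ∀ a ∈ S, ∀ b ∈ S, a ≠ b → 4 * G / L ≤ |tf a - tf b| := by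
    intro a ha b hb hab
    obtain ⟨ha1, ha2⟩ := hS a ha
    obtain ⟨hb1, hb2⟩ := hS b hb
    have hfar : ∀ k l : ℕ, ∀ i j : ℕ, k < l → l < N → i < nn k → j < nn l →
        4 * G / L ≤ |tt k i - tt l j| := by
      intro k l i j hkl hl hi hj
      have h1 := ((HH k (hkl.trans hl)).1 i hi).1
      have h2 := ((HH l hl).1 j hj).1
      rw [← hW] at h1 h2
      rw [abs_le] at h1 h2
      have h3 : (k : ℝ) + 1 ≤ l := by exact_mod_cast hkl
      have h4 : 3 * (k : ℝ) * W + 3 * W ≤ 3 * l * W := by nlinarith only [hW0, h3]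
      have h5 : W ≤ tt l j - tt k i := by linarith [h1.2, h2.1]
      have h6 : 4 * G / L ≤ W := by
        rw [div_le_iff₀ hL0]
        nlinarith only [hL, hW0, hWG]
      rw [abs_sub_comm]
      exact h6.trans (h5.trans (le_abs_self _))
    obtain ⟨k, i⟩ := a
    obtain ⟨l, j⟩ := b
    simp only [tf] at *
    rcases lt_trichotomy k l with h | h | h
    · exact hfar k l i j h hb1 ha2 hb2
    · subst h
      refine (HH k ha1).2.1 i ha2 j hb2 ?_
      rintro rfl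
      exact hab rfl
    · rw [abs_sub_comm]
      exact hfar l k j i h ha1 hb2 ha2
  have hbd : ∀ a ∈ S, T / 2 ≤ tf a ∧ tf a ≤ 3 * T := by
    intro a ha
    obtain ⟨ha1, ha2⟩ := hS a ha
    have h1 := ((HH a.1 ha1).1 a.2 ha2).1
    rw [← hW, abs_le] at h1
    have h2 := hτ1 a.1
    have h3 := hτ2 a.1 ha1
    constructor
    · simp only [tf]; linarith only [hWT, h1, h2]
    · simp only [tf]; linarith only [hθ0, hθ1, hG, hWT, h1, h3, h1.2]
  refine ⟨S.card, fun i => tf (e i), fun i => rf (e i), ?_, ?_, ?_, ?_, ?_⟩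
  · intro i hi
    have ha := he1 i hi
    obtain ⟨ha1, ha2⟩ := hS _ ha
    obtain ⟨h1, h2, h3, h4⟩ := (HH _ ha1).1 _ ha2
    exact ⟨(hbd _ ha).1, (hbd _ ha).2, h2, h3, h4⟩
  · intro i hi j hj hij
    have ha := he1 i hi
    have hb := he1 j hj
    have h0 := hsep _ ha _ hb (he2 i hi j hj hij)
    obtain ⟨ha1, ha2⟩ := hS _ ha
    obtain ⟨hb1, hb2⟩ := hS _ hb
    have h1 := ((HH _ ha1).1 _ ha2).2.2.2
    have h2 := ((HH _ hb1).1 _ hb2).2.2.2
    have himpt : ∀ (r : ℂ) (t : ℝ), ‖r - pt 0 t‖ ≤ G / L → |r.im - t| ≤ G / L := by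
      intro r t h
      have h3 := Complex.abs_im_le_norm (r - pt 0 t)
      have h4 : (r - pt 0 t).im = r.im - t := by simp [pt]
      rw [h4] at h3
      exact h3.trans h
    have h3 := himpt _ _ h1
    have h4 := himpt _ _ h2
    change 1 / L ≤ |(rr (e i).1 (e i).2).im - (rr (e j).1 (e j).2).im|
    have h5 : |tf (e i) - tf (e j)| ≤ |(rr (e i).1 (e i).2).im - (rr (e j).1 (e j).2).im|
        + G / L + G / L := by
      have e1 : tf (e i) - tf (e j) = ((rr (e i).1 (e i).2).im - (rr (e j).1 (e j).2).im)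
          - ((rr (e i).1 (e i).2).im - tf (e i)) + ((rr (e j).1 (e j).2).im - tf (e j)) := by ring
      rw [e1]
      refine (abs_add_le _ _).trans ?_
      refine add_le_add ((abs_sub _ _).trans (add_le_add le_rfl h3)) h4
    have h6 : 4 * G / L = 4 * (G / L) := by ring
    have h7 : 1 / L ≤ G / L := by gcongr
    rw [h6] at h0
    have h8 : 0 < G / L := by positivity
    linarith only [h0, h5, h7, h8]
  · rw [he3 (fun a => ‖Mo (T ^ θ) (pt 0 (tf a))‖ ^ 2)]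
    rw [Finset.sum_sigma]
    have h1 : ∀ k ∈ Finset.range N, c * W * L ^ 2 ≤
        ∑ i ∈ Finset.range (nn k), ‖Mo (T ^ θ) (pt 0 (tf ⟨k, i⟩))‖ ^ 2 := by
      intro k hk
      exact (HH k (Finset.mem_range.1 hk)).2.2
    refine le_trans ?_ (Finset.sum_le_sum h1)
    rw [Finset.sum_const, Finset.card_range, nsmul_eq_mul]
    have h2 : c / 6 * T * L ^ 2 = T / (6 * W) * (c * W * L ^ 2) := by
      field_simp
    rw [h2]
    gcongr
  · have h1 := Zeros_pack S.card (fun i => tf (e i)) (T / 2) (3 * T) (4 * G / L) (by positivity)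
      (by linarith only [hG, hWT, hWG])
      (fun i hi => hbd _ (he1 i hi))
      (fun i hi j hj hij => hsep _ (he1 i hi) _ (he1 j hj) (he2 i hi j hj hij))
    have h2 : (3 * T - T / 2) / (4 * G / L) = (5 / 8) * (T * L) / G := by
      field_simp; ring
    have h3 : (5 / 8) * (T * L) / G ≤ (5 / 8) * (T * L) := div_le_self (by positivity) hG
    have h4 : 1 ≤ T * L := by nlinarith only [hG, hL, hWT, hWG]
    rw [h2] at h1
    linarith only [hθ0, h1, h3, h4]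
  · intro z hz
    rw [he3 (fun a => ‖Mo (T ^ θ) (pt 0 (tf a))‖ ^ 2 *
            ‖riemannZeta (rf a + z) * Mo (T ^ θ) (pt 0 (tf a) + z)‖ ^ 2)]
    rw [Finset.sum_sigma]
    have h1 : ∀ k ∈ Finset.range N,
        ∑ i ∈ Finset.range (nn k), ‖Mo (T ^ θ) (pt 0 (tf ⟨k, i⟩))‖ ^ 2 *
            ‖riemannZeta (rf ⟨k, i⟩ + z) * Mo (T ^ θ) (pt 0 (tf ⟨k, i⟩) + z)‖ ^ 2 ≤
        C * W * L ^ 2 * (1 + L * ‖z‖) ^ 4 * (1 + ‖z‖) ^ 301 := by
      intro k hk
      have hk' := Finset.mem_range.1 hk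
      have h2 := hτ1 k
      have h3 := hτ2 k hk'
      refine HE T hTT2 (T + 3 * k * W) W le_rfl (by linarith only [hG, hWT, hWG]) ?_ (Finset.range (nn k)) (tt k) (rr k)
        ?_ ?_ z hz
      · rw [abs_of_nonneg (by linarith only [hG, hWT, hWG, h2])]; linarith only [hG, hWT, hWG, h3]
      · intro i hi
        obtain ⟨g1, g2, g3, g4⟩ := (HH k hk').1 i (Finset.mem_range.1 hi)
        exact ⟨g1, g3, g4⟩
      · intro i hi j hj hij
        have g1 := (HH k hk').2.1 i (Finset.mem_range.1 hi) j (Finset.mem_range.1 hj) hij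
        refine le_trans ?_ g1
        gcongr
        linarith only [hG]
    refine (Finset.sum_le_sum h1).trans ?_
    rw [Finset.sum_const, Finset.card_range, nsmul_eq_mul]
    have hP0 : 0 ≤ (1 + ‖z‖) ^ 301 := by positivity
    generalize (1 + ‖z‖) ^ 301 = P at hP0 ⊢
    have hQ0 : 0 ≤ (1 + L * ‖z‖) ^ 4 := by positivity
    generalize (1 + L * ‖z‖) ^ 4 = Q at hQ0 ⊢
    have h2 : (N : ℝ) * (C * W * L ^ 2 * Q * P) = (N * (3 * W)) / 3 * (C * L ^ 2 * Q * P) := by ring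
    have h3 : C * T * L ^ 2 * Q * P = T * (C * L ^ 2 * Q * P) := by ring
    rw [h2, h3]
    have h4 : 0 ≤ C * L ^ 2 * Q * P := by positivity
    refine mul_le_mul_of_nonneg_right ?_ h4
    linarith only [hNle', hT0]

end Pool.Agent.H14.CO
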